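import Pool.Agent.DUA.Gas
import Pool.Agent.SPN.Span
import Pool.Agent.NUF.Mv.Rel

/-!
# The two state sum of an even list is a Pfaffian

`xx v = exp (3 v / 4)`; `bev`: `b (V.map xx) * ∏ (x - x') = (2/3)^m * ∏ h (x, x') * pf p V` for every generic list
`V` of length `2 m`, `h (x, x') = x ^ 2 + √2 x x' + x' ^ 2`.
-/

set_option autoImplicit false

noncomputable section

open Polynomial

namespace DRX

open DUA SPN NUGas

/-- the multiplicative coordinate -/
def xx (v : ℂ) : ℂ := Complex.exp (3 * v / 4)

theorem xx_ne (v : ℂ) : xx v ≠ 0 := Complex.exp_ne_zero _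

/-- the pair polynomial -/
def hpol (η a b : ℂ) : ℂ := a ^ 2 + (η - η ^ 3) * a * b + b ^ 2

theorem hpol_symm (η a b : ℂ) : hpol η a b = hpol η b a := by unfold hpol; ring

/-- products over the pairs of a list -/
def PP (f : ℂ → ℂ → ℂ) : List ℂ → ℂ
  | [] => 1
  | v :: V => (V.map (f v)).prod * PP f V

theorem PP_cons (f : ℂ → ℂ → ℂ) (v : ℂ) (V : List ℂ) : PP f (v :: V) = (V.map (f v)).prod * PP f V := by
  rw [PP]

theorem PP_perm {f : ℂ → ℂ → ℂ} (hf : ∀ a b, f a b = f b a) {V W : List ℂ} (h : V.Perm W) : PP f V = PP f W := by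
  induction h with
  | nil => rfl
  | cons x h ih => rw [PP_cons, PP_cons, ih, (h.map _).prod_eq]
  | swap x y l =>
    simp only [PP_cons, List.map_cons, List.prod_cons]
    rw [hf x y]
    ring
  | trans _ _ ih1 ih2 => exact ih1.trans ih2

theorem PP_erase {f : ℂ → ℂ → ℂ} (hf : ∀ a b, f a b = -f b a) : ∀ (W : List ℂ) (i : ℕ) (hi : i < W.length),
    PP f W = (-1) ^ i * ((W.eraseIdx i).map (f W[i])).prod * PP f (W.eraseIdx i) := by
  intro W
  induction W with
  | nil => intro i hi; simp at hi
  | cons a W ih =>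
    intro i hi
    rcases i with _ | i
    · simp only [pow_zero, one_mul, List.getElem_cons_zero, List.eraseIdx_zero, List.tail_cons]
      exact PP_cons f a W
    · have hi' : i < W.length := by simpa using hi
      have h1 := ih i hi'
      simp only [List.getElem_cons_succ, List.eraseIdx_cons_succ, List.map_cons, List.prod_cons, PP_cons]
      have h2 : (W.map (f a)).prod = f a W[i] * ((W.eraseIdx i).map (f a)).prod := by
        have h3 : (W[i] :: W.eraseIdx i).Perm W := List.getElem_cons_eraseIdx_perm hi'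
        rw [← (h3.map (f a)).prod_eq, List.map_cons, List.prod_cons]
      rw [h1, h2, hf a W[i]]
      ring

theorem eta_zero {η : ℂ} (hη : η ^ 4 = -1) (a : ℂ) : hpol η (η ^ 3 * a) a = 0 := by
  unfold hpol
  linear_combination (a ^ 2 * (1 - η ^ 2) + a ^ 2 * η ^ 2) * hη

theorem eta_zero' {η : ℂ} (hη : η ^ 4 = -1) (a : ℂ) : hpol η (η ^ 5 * a) a = 0 := by
  unfold hpol
  linear_combination (a ^ 2 * (η ^ 6 - η ^ 4 - η ^ 2 + 1 + (η^2)*(η^0))) * hη

/-- the kernel -/
theorem p_mul {η : ℂ} (hr : η - η ^ 3 = ((Real.sqrt 2 : ℝ) : ℂ)) {v w : ℂ} (h : hpol η (xx v) (xx w) ≠ 0) :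
    p (v - w) * hpol η (xx v) (xx w) = 3 / 2 * (xx v ^ 2 - xx w ^ 2) := by
  have hv := xx_ne v
  have hw := xx_ne w
  have e1 : Complex.exp (3 * (v - w) / 4) = xx v / xx w := by
    unfold xx
    rw [← Complex.exp_sub]
    congr 1
    ring
  have e2 : Complex.exp (-(3 * (v - w) / 4)) = xx w / xx v := by
    unfold xx
    rw [← Complex.exp_sub]
    congr 1
    ring
  have e3 : Complex.sinh (3 * (v - w) / 4) = (xx v ^ 2 - xx w ^ 2) / (2 * (xx v * xx w)) := by
    rw [Complex.sinh, e1, e2]
    field_simp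
  have e4 : Complex.cosh (3 * (v - w) / 4) + ((Real.sqrt 2 / 2 : ℝ) : ℂ) =
      hpol η (xx v) (xx w) / (2 * (xx v * xx w)) := by
    rw [Complex.cosh, e1, e2]
    unfold hpol
    rw [hr]
    push_cast
    field_simp
    ring
  unfold p
  rw [e3, e4]
  field_simp

/-- the factors at a node -/
theorem node_fac {η : ℂ} (hη : η ^ 4 = -1) (a x : ℂ) :
    (x + η * a) * (x + η ^ 2 * a) * (η ^ 3 * a - x) * (a - x) = hpol η a x * hpol η (η ^ 3 * a) x := by
  unfold hpol
  have h8 : η ^ 8 = 1 := by linear_combination (η ^ 4 - 1) * hη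
  have h5 : η ^ 5 = -η := by linear_combination η * hη
  have h6 : η ^ 6 = -η ^ 2 := by linear_combination η ^ 2 * hη
  have h7 : η ^ 7 = -η ^ 3 := by linear_combination η ^ 3 * hη
  ring_nf
  simp only [hη, h5, h6, h7, h8]
  have h9 : η ^ 9 = η := by linear_combination η * h8
  try simp only [h9]
  ring

theorem node_fac' {η : ℂ} (hη : η ^ 4 = -1) (a x : ℂ) :
    (x + η * (η ^ 5 * a)) * (x + η ^ 2 * (η ^ 5 * a)) * (η ^ 5 * a - x) * (a - x) =
      hpol η a x * hpol η (η ^ 5 * a) x := by
  have h5 : η ^ 5 = -η := by linear_combination η * hη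
  rw [h5]
  unfold hpol
  have h8 : η ^ 8 = 1 := by linear_combination (η ^ 4 - 1) * hη
  have h6 : η ^ 6 = -η ^ 2 := by linear_combination η ^ 2 * hη
  have h7 : η ^ 7 = -η ^ 3 := by linear_combination η ^ 3 * hη
  ring_nf
  simp only [hη, h5, h6, h7, h8]
  ring

theorem hpol_fac {η : ℂ} (hη : η ^ 4 = -1) (a x : ℂ) : hpol η a x = (a - η ^ 3 * x) * (a - η ^ 5 * x) := by
  have h5 : η ^ 5 = -η := by linear_combination η * hη
  rw [h5]
  unfold hpol
  linear_combination (x ^ 2) * hη

theorem hpol_ne {η : ℂ} (hη : η ^ 4 = -1) {a x : ℂ} (h : Sep η a x) : hpol η a x ≠ 0 := by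
  have h8 : η ^ 8 = 1 := by linear_combination (η ^ 4 - 1) * hη
  rw [hpol_fac hη]
  refine mul_ne_zero (fun h0 => h 5 ?_) (fun h0 => h 3 ?_)
  · linear_combination η ^ 5 * h0 + x * h8
  · linear_combination η ^ 3 * h0 + x * h8

theorem hpol_self_ne {η : ℂ} (hη : η ^ 4 = -1) {a : ℂ} (ha : a ≠ 0) : hpol η a a ≠ 0 := by
  rw [hpol_fac hη]
  refine mul_ne_zero (fun h0 => ?_) (fun h0 => ?_)
  · have h1 : η ^ 3 = 1 := by
      have := mul_right_cancel₀ ha (show η ^ 3 * a = 1 * a by linear_combination -h0)
      exact this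
    have h2 : η = -1 := by linear_combination hη - η * h1
    rw [h2] at h1
    norm_num at h1
  · have h1 : η ^ 5 = 1 := by
      have := mul_right_cancel₀ ha (show η ^ 5 * a = 1 * a by linear_combination -h0)
      exact this
    have h2 : η = -1 := by linear_combination η * hη - h1
    rw [h2] at h1
    norm_num at h1

/-- the nodes -/
def nL (η : ℂ) : List ℂ → List ℂ
  | [] => []
  | x :: X => η ^ 3 * x :: η ^ 5 * x :: nL η X

theorem mem_nL {η : ℂ} {X : List ℂ} {t : ℂ} : t ∈ nL η X ↔ ∃ x ∈ X, t = η ^ 3 * x ∨ t = η ^ 5 * x := by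
  induction X with
  | nil => simp [nL]
  | cons x X ih =>
    simp only [nL, List.mem_cons, ih]
    constructor
    · rintro (h | h | ⟨y, hy, h⟩)
      · exact ⟨x, Or.inl rfl, Or.inl h⟩
      · exact ⟨x, Or.inl rfl, Or.inr h⟩
      · exact ⟨y, Or.inr hy, h⟩
    · rintro ⟨y, rfl | hy, h⟩
      · rcases h with h | h
        · exact Or.inl h
        · exact Or.inr (Or.inl h)
      · exact Or.inr (Or.inr ⟨y, hy, h⟩)

theorem length_nL (η : ℂ) (X : List ℂ) : (nL η X).length = 2 * X.length := by
  induction X with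
  | nil => rfl
  | cons x X ih => simp only [nL, List.length_cons, ih]; ring

theorem nodup_nL {η : ℂ} (hη : η ^ 4 = -1) {X : List ℂ} (h : Gen η X) : (nL η X).Nodup := by
  have h8 : η ^ 8 = 1 := by linear_combination (η ^ 4 - 1) * hη
  have hη0 : η ≠ 0 := by
    rintro rfl
    norm_num at hη
  induction X with
  | nil => simp [nL]
  | cons x X ih =>
    have hx : x ≠ 0 := h.1 x List.mem_cons_self
    have hs : ∀ y ∈ X, Sep η x y := (List.pairwise_cons.1 h.2).1
    have hX : Gen η X := ⟨fun y hy => h.1 y (List.mem_cons_of_mem _ hy), (List.pairwise_cons.1 h.2).2⟩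
    simp only [nL, List.nodup_cons, List.mem_cons, not_or]
    refine ⟨⟨fun h0 => ?_, fun h0 => ?_⟩, fun h0 => ?_, ih hX⟩
    · have h1 : η ^ 3 * (1 - η ^ 2) * x = 0 := by linear_combination h0
      have h2 : 1 - η ^ 2 = 0 := by
        rcases mul_eq_zero.1 h1 with h3 | h3
        · rcases mul_eq_zero.1 h3 with h4 | h4
          · exact absurd h4 (pow_ne_zero 3 hη0)
          · exact h4
        · exact absurd h3 hx
      have h3 : (1 : ℂ) = -1 := by
        have h4 : η ^ 2 = 1 := by linear_combination -h2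
        calc (1 : ℂ) = (η ^ 2) ^ 2 := by rw [h4]; ring
          _ = -1 := by rw [← hη]; ring
      norm_num at h3
    · obtain ⟨y, hy, h1 | h1⟩ := mem_nL.1 h0
      · refine hs y hy 0 ?_
        have := mul_left_cancel₀ (pow_ne_zero 3 hη0) h1
        simpa using this
      · refine hs y hy 6 ?_
        linear_combination η ^ 3 * h1 + y * h8
    · obtain ⟨y, hy, h1 | h1⟩ := mem_nL.1 h0
      · refine hs y hy 10 ?_
        linear_combination η ^ 5 * h1 + y * h8
      · refine hs y hy 0 ?_
        have := mul_left_cancel₀ (pow_ne_zero 5 hη0) h1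
        simpa using this

/-- the pair polynomial in the first line -/
def HP (η a : ℂ) : ℂ[X] := X ^ 2 + C ((η - η ^ 3) * a) * X + C (a ^ 2)

theorem HP_eval (η a t : ℂ) : (HP η a).eval t = hpol η t a := by
  unfold HP hpol
  simp only [eval_add, eval_mul, eval_pow, eval_X, eval_C]
  ring

theorem HP_natDegree (η a : ℂ) : (HP η a).natDegree ≤ 2 := by
  unfold HP
  compute_degree

theorem prod_natDegree {L : List ℂ} {f : ℂ → ℂ[X]} {d : ℕ} (h : ∀ a, (f a).natDegree ≤ d) :
    ((L.map f).prod).natDegree ≤ d * L.length := by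
  induction L with
  | nil => simp
  | cons a L ih =>
    rw [List.map_cons, List.prod_cons, List.length_cons]
    refine natDegree_mul_le.trans ?_
    have := h a
    rw [mul_add, mul_one]
    omega

theorem prod_eval {L : List ℂ} (f : ℂ → ℂ[X]) (t : ℂ) :
    ((L.map f).prod).eval t = (L.map fun a => (f a).eval t).prod := by
  induction L with
  | nil => simp
  | cons a L ih => rw [List.map_cons, List.prod_cons, eval_mul, ih, List.map_cons, List.prod_cons]

/-- the expansion as a polynomial in the first line -/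
def RP (η : ℂ) (W : List ℂ) : ℂ[X] := ∑ i ∈ Finset.range W.length, C ((-1) ^ i) *
  (C (3 / 2) * (X ^ 2 - C (xx (W.getD i 0) ^ 2)) * ((W.eraseIdx i).map fun w => HP η (xx w)).prod *
    C (pf p (W.eraseIdx i)))

/-- the summand -/
def sm (η t v : ℂ) (K : List ℂ) : ℂ :=
  3 / 2 * (t ^ 2 - xx v ^ 2) * (K.map fun w => hpol η t (xx w)).prod * pf p K

theorem RP_eval (η : ℂ) (W : List ℂ) (t : ℂ) : (RP η W).eval t = rs W (sm η t) := by
  unfold RP rs sm
  rw [eval_finset_sum]
  refine Finset.sum_congr rfl fun i _ => ?_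
  simp only [eval_mul, eval_C, eval_sub, eval_pow, eval_X, prod_eval, HP_eval]

theorem RP_natDegree (η : ℂ) (W : List ℂ) : (RP η W).natDegree ≤ 2 * W.length := by
  unfold RP
  refine natDegree_sum_le_of_forall_le _ _ fun i hi => ?_
  have hi' := Finset.mem_range.1 hi
  have h1 : (C (3 / 2 : ℂ) * (X ^ 2 - C (xx (W.getD i 0) ^ 2))).natDegree ≤ 2 := by compute_degree
  have h2 : (((W.eraseIdx i).map fun w => HP η (xx w)).prod).natDegree ≤ 2 * (W.eraseIdx i).length :=
    prod_natDegree fun a => HP_natDegree η (xx a)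
  have h3 : (W.eraseIdx i).length = W.length - 1 := List.length_eraseIdx_of_lt hi'
  refine (natDegree_C_mul_le _ _).trans ?_
  refine (natDegree_mul_C_le _ _).trans ?_
  refine natDegree_mul_le.trans ?_
  omega

theorem rs_single {W : List ℂ} {f : ℂ → List ℂ → ℂ} {i : ℕ} (hi : i < W.length)
    (h : ∀ j, j < W.length → j ≠ i → f (W.getD j 0) (W.eraseIdx j) = 0) :
    rs W f = (-1) ^ i * f W[i] (W.eraseIdx i) := by
  unfold rs
  rw [Finset.sum_eq_single i]
  · rw [List.getD_eq_getElem _ _ hi]
  · intro j hj hji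
    rw [h j (Finset.mem_range.1 hj) hji, mul_zero]
  · intro h0
    exact absurd (Finset.mem_range.2 hi) h0

theorem rs_p {η : ℂ} (hr : η - η ^ 3 = ((Real.sqrt 2 : ℝ) : ℂ)) {u : ℂ} {W : List ℂ}
    (h : ∀ w ∈ W, hpol η (xx u) (xx w) ≠ 0) :
    rs W (sm η (xx u)) = (W.map fun w => hpol η (xx u) (xx w)).prod * pf p (u :: W) := by
  rw [pf_cons, ← rs_mul]
  refine Pf.rs_congr2 fun v K hK => ?_
  have hv : v ∈ W := hK.subset List.mem_cons_self
  have h1 := p_mul hr (h v hv)
  have h2 : (W.map fun w => hpol η (xx u) (xx w)).prod =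
      hpol η (xx u) (xx v) * (K.map fun w => hpol η (xx u) (xx w)).prod := by
    rw [← (hK.map _).prod_eq, List.map_cons, List.prod_cons]
  unfold sm
  rw [h2]
  linear_combination (-(K.map fun w => hpol η (xx u) (xx w)).prod * pf p K) * h1

/-- **the two state sum of an even list is a Pfaffian** -/
theorem bev {η ρ : ℂ} (hη : η ^ 4 = -1) (hr : η - η ^ 3 = ((Real.sqrt 2 : ℝ) : ℂ)) {b : List ℂ → ℂ}
    (hb : BT η (1 + η ^ 3) ρ b) : ∀ (m : ℕ) (V : List ℂ), V.length = 2 * m → Gen η (V.map xx) →
    b (V.map xx) * PP (fun v w => xx v - xx w) V =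
      (2 / 3) ^ m * PP (fun v w => hpol η (xx v) (xx w)) V * pf p V := by
  have h8 : η ^ 8 = 1 := by linear_combination (η ^ 4 - 1) * hη
  intro m
  induction m with
  | zero =>
    intro V hV _
    have h0 : V = [] := List.length_eq_zero_iff.1 (by omega)
    subst h0
    rw [List.map_nil, hb.nil, PP, PP, pf_nil]
    simp
  | succ m ih =>
    intro V hV hG
    rcases V with _ | ⟨v0, W⟩
    · simp at hV
    have hW : W.length = 2 * m + 1 := by
      rw [List.length_cons] at hV
      omega
    rcases hW' : W with _ | ⟨w0, W'⟩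
    · rw [hW'] at hW
      simp at hW
    rw [← hW']
    have hGW : Gen η (W.map xx) := ⟨fun y hy => hG.1 y (List.mem_cons_of_mem _ hy), (List.pairwise_cons.1 hG.2).2⟩
    have hs0 : ∀ w ∈ W, Sep η (xx v0) (xx w) := fun w hw =>
      (List.pairwise_cons.1 hG.2).1 (xx w) (List.mem_map_of_mem hw)
    obtain ⟨P, hP1, -, -, hP4⟩ := hb.poly (W.map xx)
    rw [List.length_map] at hP1
    obtain ⟨dW, hdW⟩ : ∃ d, d = PP (fun v w => xx v - xx w) W := ⟨_, rfl⟩
    obtain ⟨hhW, hhhW⟩ : ∃ d, d = PP (fun v w => hpol η (xx v) (xx w)) W := ⟨_, rfl⟩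
    obtain ⟨Q, hQ⟩ : ∃ Q : ℂ[X], Q = P * (W.map fun w => X - C (xx w)).prod * C dW -
      C ((2 / 3) ^ (m + 1) * hhW) * RP η W := ⟨_, rfl⟩
    have hQe : ∀ t, Q.eval t = b (t :: W.map xx) * (W.map fun w => t - xx w).prod * dW -
        (2 / 3) ^ (m + 1) * hhW * rs W (sm η t) := by
      intro t
      rw [hQ]
      simp only [eval_sub, eval_mul, eval_C, prod_eval, eval_X, RP_eval]
      rw [hP4]
    have hQd : Q.natDegree ≤ 2 * W.length := by
      rw [hQ]
      have h1 : ((W.map fun w => X - C (xx w)).prod : ℂ[X]).natDegree ≤ 1 * W.length :=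
        prod_natDegree fun a => (natDegree_X_sub_C_le (xx a))
      refine (natDegree_sub_le _ _).trans (max_le ?_ ?_)
      · refine (natDegree_mul_C_le _ _).trans (natDegree_mul_le.trans ?_)
        omega
      · exact (natDegree_C_mul_le _ _).trans (RP_natDegree η W)
    -- the nodes are zeros
    have key : ∀ (i : ℕ) (hi : i < W.length) (t : ℂ), hpol η t (xx W[i]) = 0 →
        b (t :: W.map xx) = (t ^ 2 - xx W[i] ^ 2) / (t - xx W[i]) *
          ((W.eraseIdx i).map fun w => (hpol η (xx W[i]) (xx w) * hpol η t (xx w)) /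
            ((t - xx w) * (xx W[i] - xx w))).prod * b ((W.eraseIdx i).map xx) →
        t - xx W[i] ≠ 0 → (∀ w ∈ W.eraseIdx i, (t - xx w) * (xx W[i] - xx w) ≠ 0) → Q.eval t = 0 := by
      intro i hi t ht hbt h1 h2
      have hK := List.getElem_cons_eraseIdx_perm (l := W) hi
      have e1 : rs W (sm η t) = (-1) ^ i * sm η t W[i] (W.eraseIdx i) := by
        refine rs_single hi fun j hj hji => ?_
        unfold sm
        have h3 : ((W.eraseIdx j).map fun w => hpol η t (xx w)).prod = 0 := by
          refine List.prod_eq_zero (List.mem_map.2 ⟨W[i], ?_, ht⟩)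
          rw [List.mem_eraseIdx_iff_getElem]
          exact ⟨i, hi, fun h => hji h.symm, rfl⟩
        rw [h3]
        ring
      have e2 : (W.map fun w => t - xx w).prod =
          (t - xx W[i]) * ((W.eraseIdx i).map fun w => t - xx w).prod := by
        rw [← (hK.map _).prod_eq, List.map_cons, List.prod_cons]
      have e3 : dW = (-1) ^ i * ((W.eraseIdx i).map fun w => xx W[i] - xx w).prod *
          PP (fun v w => xx v - xx w) (W.eraseIdx i) := by
        rw [hdW]
        exact PP_erase (f := fun v w => xx v - xx w) (fun a b => by ring) W i hi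
      have e4 : hhW = ((W.eraseIdx i).map fun w => hpol η (xx W[i]) (xx w)).prod *
          PP (fun v w => hpol η (xx v) (xx w)) (W.eraseIdx i) := by
        rw [hhhW, ← PP_perm (f := fun v w => hpol η (xx v) (xx w)) (fun a b => hpol_symm η _ _) hK, PP_cons]
      have e5 := ih (W.eraseIdx i) (by rw [List.length_eraseIdx_of_lt hi]; omega) (by
        refine ⟨fun y hy => hGW.1 y ?_, hGW.2.sublist ((List.eraseIdx_sublist ..).map xx)⟩
        exact ((List.eraseIdx_sublist ..).map xx).subset hy)
      have e6 : ((W.eraseIdx i).map fun w => (hpol η (xx W[i]) (xx w) * hpol η t (xx w)) /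
            ((t - xx w) * (xx W[i] - xx w))).prod *
          (((W.eraseIdx i).map fun w => t - xx w).prod *
            ((W.eraseIdx i).map fun w => xx W[i] - xx w).prod) =
          ((W.eraseIdx i).map fun w => hpol η (xx W[i]) (xx w)).prod *
            ((W.eraseIdx i).map fun w => hpol η t (xx w)).prod := by
        rw [← List.prod_map_mul, ← List.prod_map_mul, ← List.prod_map_mul]
        congr 1
        refine List.map_congr_left fun w hw => ?_
        exact div_mul_cancel₀ _ (h2 w hw)
      rw [hQe, hbt, e1, e2, e3, e4]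
      unfold sm
      generalize ((W.eraseIdx i).map fun w => (hpol η (xx W[i]) (xx w) * hpol η t (xx w)) /
            ((t - xx w) * (xx W[i] - xx w))).prod = A at e6 ⊢
      generalize ((W.eraseIdx i).map fun w => t - xx w).prod = B1 at e6 ⊢
      generalize ((W.eraseIdx i).map fun w => xx W[i] - xx w).prod = B2 at e6 ⊢
      generalize ((W.eraseIdx i).map fun w => hpol η (xx W[i]) (xx w)).prod = C1 at e6 ⊢
      generalize ((W.eraseIdx i).map fun w => hpol η t (xx w)).prod = C2 at e6 ⊢
      generalize b ((W.eraseIdx i).map xx) = bb at e5 ⊢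
      generalize PP (fun v w => xx v - xx w) (W.eraseIdx i) = D1 at e5 ⊢
      generalize PP (fun v w => hpol η (xx v) (xx w)) (W.eraseIdx i) = D2 at e5 ⊢
      generalize pf p (W.eraseIdx i) = pp at e5 ⊢
      have e7 : (t ^ 2 - xx W[i] ^ 2) / (t - xx W[i]) * (t - xx W[i]) = t ^ 2 - xx W[i] ^ 2 :=
        div_mul_cancel₀ _ h1
      have e8 : ((2 : ℂ) / 3) ^ (m + 1) * (3 / 2) = (2 / 3) ^ m := by
        rw [pow_succ, mul_assoc, show (2 : ℂ) / 3 * (3 / 2) = 1 by norm_num, mul_one]
      have e9 : ((2 : ℂ) / 3) ^ (m + 1) * (C1 * D2) * ((-1) ^ i * (3 / 2 * (t ^ 2 - xx W[i] ^ 2) * C2 * pp)) =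
          (-1) ^ i * (t ^ 2 - xx W[i] ^ 2) * (C1 * C2) * (((2 : ℂ) / 3) ^ m * D2 * pp) := by
        rw [← e8]; ring
      rw [e9, ← e5, ← e6]
      linear_combination ((-1) ^ i * A * B1 * B2 * bb * D1) * e7
    have hη0 : η ≠ 0 := by
      rintro rfl
      norm_num at hη
    have hsep : ∀ (i : ℕ) (hi : i < W.length), ∀ w ∈ W.eraseIdx i, NUGas.Sep η (xx W[i]) (xx w) := by
      intro i hi w hw
      have hK := List.getElem_cons_eraseIdx_perm (l := W) hi
      have h1 : Gen η ((W[i] :: W.eraseIdx i).map xx) := hGW.perm hη (hK.symm.map xx)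
      exact (List.pairwise_cons.1 h1.2).1 (xx w) (List.mem_map_of_mem hw)
    have hxx := hGW.1
    have hbp : ∀ (i : ℕ) (hi : i < W.length), b (W.map xx) = b (xx W[i] :: (W.eraseIdx i).map xx) := by
      intro i hi
      exact hb.perm ((List.getElem_cons_eraseIdx_perm (l := W) hi).symm.map xx)
    have z3 : ∀ (i : ℕ) (hi : i < W.length), Q.eval (η ^ 3 * xx W[i]) = 0 := by
      intro i hi
      have hx := xx_ne W[i]
      have a1 : η ^ 3 * xx W[i] - xx W[i] ≠ 0 := by
        intro h0
        have h1 : hpol η (xx W[i]) (xx W[i]) = 0 := by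
          have h2 := eta_zero hη (xx W[i])
          rwa [sub_eq_zero.1 h0] at h2
        exact hpol_self_ne hη hx h1
      refine key i hi _ (eta_zero hη _) ?_ a1 fun w hw => ?_
      · have e1 : b (η ^ 3 * xx W[i] :: W.map xx) = b (η ^ 3 * xx W[i] :: xx W[i] :: (W.eraseIdx i).map xx) :=
          hb.perm (((List.getElem_cons_eraseIdx_perm (l := W) hi).symm.map xx).cons _)
        rw [e1, hb.cross]
        congr 1
        have e2 : ((η ^ 3 * xx W[i]) ^ 2 - xx W[i] ^ 2) / (η ^ 3 * xx W[i] - xx W[i]) = (1 + η ^ 3) * xx W[i] := by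
          rw [div_eq_iff a1]
          ring
        rw [e2, List.map_map]
        congr 2
        refine List.map_congr_left fun w hw => ?_
        have hs := hsep i hi w hw
        have b1 : xx W[i] - xx w ≠ 0 := fun h0 => hs 0 (by linear_combination h0)
        have b2 : η ^ 3 * xx W[i] - xx w ≠ 0 := fun h0 => hs 3 (by linear_combination h0)
        have b3 := node_fac hη (xx W[i]) (xx w)
        simp only [Function.comp]
        rw [← b3]
        field_simp
      · have hs := hsep i hi w hw
        exact mul_ne_zero (fun h0 => hs 3 (by linear_combination h0)) (fun h0 => hs 0 (by linear_combination h0))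
    have z5 : ∀ (i : ℕ) (hi : i < W.length), Q.eval (η ^ 5 * xx W[i]) = 0 := by
      intro i hi
      have hx := xx_ne W[i]
      have a1 : η ^ 5 * xx W[i] - xx W[i] ≠ 0 := by
        intro h0
        have h1 : hpol η (xx W[i]) (xx W[i]) = 0 := by
          have h2 := eta_zero' hη (xx W[i])
          rwa [sub_eq_zero.1 h0] at h2
        exact hpol_self_ne hη hx h1
      refine key i hi _ (eta_zero' hη _) ?_ a1 fun w hw => ?_
      · have e0 : η ^ 3 * (η ^ 5 * xx W[i]) = xx W[i] := by linear_combination (xx W[i]) * h8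
        have e1 : b (η ^ 5 * xx W[i] :: W.map xx) =
            b (η ^ 3 * (η ^ 5 * xx W[i]) :: η ^ 5 * xx W[i] :: (W.eraseIdx i).map xx) := by
          rw [e0]
          refine hb.perm ?_
          exact (((List.getElem_cons_eraseIdx_perm (l := W) hi).symm.map xx).cons _).trans (List.Perm.swap _ _ _)
        rw [e1, hb.cross]
        congr 1
        have e2 : ((η ^ 5 * xx W[i]) ^ 2 - xx W[i] ^ 2) / (η ^ 5 * xx W[i] - xx W[i]) =
            (1 + η ^ 3) * (η ^ 5 * xx W[i]) := by
          rw [div_eq_iff a1]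
          linear_combination (-(η ^ 5 * xx W[i] ^ 2) + xx W[i] ^ 2) * h8
        rw [e2, List.map_map]
        congr 2
        refine List.map_congr_left fun w hw => ?_
        have hs := hsep i hi w hw
        have b1 : xx W[i] - xx w ≠ 0 := fun h0 => hs 0 (by linear_combination h0)
        have b2 : η ^ 5 * xx W[i] - xx w ≠ 0 := fun h0 => hs 5 (by linear_combination h0)
        have b3 := node_fac' hη (xx W[i]) (xx w)
        simp only [Function.comp]
        rw [← b3]
        field_simp
      · have hs := hsep i hi w hw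
        exact mul_ne_zero (fun h0 => hs 5 (by linear_combination h0)) (fun h0 => hs 0 (by linear_combination h0))
    have hroot : ∀ t ∈ nL η (W.map xx), Q.eval t = 0 := by
      intro t ht
      obtain ⟨x, hx, h⟩ := mem_nL.1 ht
      obtain ⟨w, hw, rfl⟩ := List.mem_map.1 hx
      obtain ⟨i, hi, rfl⟩ := List.getElem_of_mem hw
      rcases h with rfl | rfl
      · exact z3 i hi
      · exact z5 i hi
    obtain ⟨R, hR⟩ := list_dvd (nodup_nL hη hGW) hroot
    have hRd : R.natDegree = 0 ∨ Q = 0 := by
      by_cases h0 : Q = 0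
      · exact Or.inr h0
      · left
        have hm : ((nL η (W.map xx)).map fun a => X - C a).prod.Monic :=
          monic_list_prod' _ fun q hq => by
            obtain ⟨a, -, rfl⟩ := List.mem_map.1 hq
            exact monic_X_sub_C a
        have h1 : (((nL η (W.map xx)).map fun a => X - C a).prod : ℂ[X]).natDegree = 2 * W.length := by
          have : ((nL η (W.map xx)).map fun a => X - C a).prod =
              ((nL η (W.map xx) : Multiset ℂ).map fun a => X - C a).prod := by simp
          rw [this, natDegree_multiset_prod_X_sub_C_eq_card, Multiset.coe_card, length_nL, List.length_map]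
        have hR0 : R ≠ 0 := by
          rintro rfl
          rw [mul_zero] at hR
          exact h0 hR
        have h2 := hm.natDegree_mul' hR0
        rw [← hR, h1] at h2
        omega
    have hQ0 : Q = 0 := by
      rcases hRd with h | h
      · obtain ⟨c, hc⟩ : ∃ c, R = C c := ⟨R.coeff 0, eq_C_of_natDegree_eq_zero h⟩
        have hw0 : w0 ∈ W := by rw [hW']; exact List.mem_cons_self
        have e1 : Q.eval (xx w0) = 0 := by
          rw [hQe]
          have e2 : (W.map fun w => xx w0 - xx w).prod = 0 :=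
            List.prod_eq_zero (List.mem_map.2 ⟨w0, hw0, sub_self _⟩)
          have e3 : rs W (sm η (xx w0)) = 0 := by
            rw [rs_p hr]
            · rw [hW', pf_eq p (by unfold p; simp), mul_zero]
            · intro w hw
              rw [hW'] at hw
              rcases List.mem_cons.1 hw with rfl | hw
              · exact hpol_self_ne hη (xx_ne _)
              · rw [hW'] at hGW
                exact hpol_ne hη ((List.pairwise_cons.1 hGW.2).1 (xx w) (List.mem_map_of_mem hw))
          rw [e2, e3]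
          ring
        rw [hR, eval_mul, hc, eval_C, prod_eval] at e1
        rcases mul_eq_zero.1 e1 with h1 | h1
        · exfalso
          obtain ⟨a, ha, h2⟩ := List.mem_map.1 (List.prod_eq_zero_iff.1 h1)
          simp only [eval_sub, eval_X, eval_C] at h2
          obtain ⟨y, hy, h3⟩ := mem_nL.1 ha
          obtain ⟨w, hw, rfl⟩ := List.mem_map.1 hy
          have h4 : hpol η (xx w0) (xx w) = 0 := by
            rw [sub_eq_zero.1 h2]
            rcases h3 with h3 | h3
            · rw [h3]; exact eta_zero hη _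
            · rw [h3]; exact eta_zero' hη _
          rw [hW'] at hw
          rcases List.mem_cons.1 hw with rfl | hw
          · exact hpol_self_ne hη (xx_ne _) h4
          · rw [hW'] at hGW
            exact hpol_ne hη ((List.pairwise_cons.1 hGW.2).1 (xx w) (List.mem_map_of_mem hw)) h4
        · rw [hR, hc, h1, C_0, mul_zero]
      · exact h
    have hfin := hQe (xx v0)
    rw [hQ0, Polynomial.eval_zero, rs_p hr fun w hw => hpol_ne hη (hs0 w hw)] at hfin
    rw [List.map_cons, PP_cons, PP_cons, ← hdW, ← hhhW]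
    linear_combination -hfin

end DRX

end
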