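import Pool.Agent.DRX.Bev

/-!
# The regular pair factor `u2`

`ku z = 4 cosh (z/8) C (4 C² + 2 √2 C - 1) / ((2 C + 1) (2 C + √2))`, `C = cosh (z/4)`; `u2 v w = exp (3 (v + w)/8) ku (v - w)`.

* `u2_eq`: `h (xx v, xx w) * t (v - w) = (xx v - xx w) * u2 v w`;
* `u2_fuse`: `u2 (v + i π/3) w * u2 (v - i π/3) w = (xx v + xx w) * u2 v w`;
* `ku` is differentiable and has no zero in `|Im z| < 5 π / 3`.
-/

set_option autoImplicit false

noncomputable section

open Complex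

namespace DRX

open DUA

/-- the regular pair factor of a difference -/
def ku (z : ℂ) : ℂ := 4 * cosh (z / 8) * cosh (z / 4) *
  (4 * cosh (z / 4) ^ 2 + 2 * ((Real.sqrt 2 : ℝ) : ℂ) * cosh (z / 4) - 1) /
  ((2 * cosh (z / 4) + 1) * (2 * cosh (z / 4) + ((Real.sqrt 2 : ℝ) : ℂ)))

/-- **the regular pair factor** -/
def u2 (v w : ℂ) : ℂ := exp (3 * (v + w) / 8) * ku (v - w)

theorem ku_neg (z : ℂ) : ku (-z) = ku z := by
  unfold ku
  rw [neg_div, neg_div, cosh_neg, cosh_neg]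

theorem u2_symm (v w : ℂ) : u2 v w = u2 w v := by
  unfold u2
  rw [add_comm v w, ← ku_neg (v - w), neg_sub]

/-- the strip -/
def S5 (z : ℂ) : Prop := |z.im| < 5 * Real.pi / 3

theorem cosh_re (z : ℂ) : (cosh z).re = Real.cosh z.re * Real.cos z.im := by
  have h : cosh z = ((Real.cosh z.re * Real.cos z.im : ℝ) : ℂ) + ((Real.sinh z.re * Real.sin z.im : ℝ) : ℂ) * I := by
    conv_lhs => rw [← Complex.re_add_im z]
    rw [cosh_add, cosh_mul_I, sinh_mul_I]
    push_cast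
    ring
  rw [h, add_re, ofReal_re, re_ofReal_mul, I_re, mul_zero, add_zero]

theorem cosh4_re {z : ℂ} (h : S5 z) : Real.cos (5 * Real.pi / 12) < (cosh (z / 4)).re := by
  have h1 : (z / 4).im = z.im / 4 := by simp [Complex.div_im]
  rw [cosh_re, h1]
  have hp := Real.pi_pos
  have h2 : |z.im / 4| < 5 * Real.pi / 12 := by
    rw [abs_div, abs_of_pos (by norm_num : (0 : ℝ) < 4)]
    unfold S5 at h
    linarith
  have h3 : Real.cos (5 * Real.pi / 12) < Real.cos (z.im / 4) := by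
    rw [← Real.cos_abs (z.im / 4)]
    exact Real.cos_lt_cos_of_nonneg_of_le_pi (abs_nonneg _) (by linarith) h2
  have h4 : 0 < Real.cos (5 * Real.pi / 12) := Real.cos_pos_of_mem_Ioo ⟨by linarith, by linarith⟩
  have h5 := Real.one_le_cosh (z / 4).re
  nlinarith

theorem cos5_pos : 0 < Real.cos (5 * Real.pi / 12) := by
  have hp := Real.pi_pos
  exact Real.cos_pos_of_mem_Ioo ⟨by linarith, by linarith⟩

theorem cos5_eq : Real.cos (5 * Real.pi / 12) = (Real.sqrt 6 - Real.sqrt 2) / 4 := by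
  have e : 5 * Real.pi / 12 = Real.pi / 4 + Real.pi / 6 := by ring
  rw [e, Real.cos_add, Real.cos_pi_div_four, Real.cos_pi_div_six, Real.sin_pi_div_four, Real.sin_pi_div_six]
  have h6 : Real.sqrt 6 = Real.sqrt 2 * Real.sqrt 3 := by
    rw [← Real.sqrt_mul (by norm_num)]
    norm_num
  rw [h6]
  ring

theorem quad_fac (C : ℂ) : 4 * C ^ 2 + 2 * ((Real.sqrt 2 : ℝ) : ℂ) * C - 1 =
    4 * (C - ((Real.cos (5 * Real.pi / 12) : ℝ) : ℂ)) * (C + (((Real.sqrt 6 + Real.sqrt 2) / 4 : ℝ) : ℂ)) := by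
  rw [cos5_eq]
  have h6 : ((Real.sqrt 6 : ℝ) : ℂ) ^ 2 = 6 := by
    rw [← ofReal_pow, Real.sq_sqrt (by norm_num)]
    norm_num
  have h2 : ((Real.sqrt 2 : ℝ) : ℂ) ^ 2 = 2 := by
    rw [← ofReal_pow, Real.sq_sqrt (by norm_num)]
    norm_num
  push_cast
  linear_combination (1 / 4 : ℂ) * h6 - (1 / 4 : ℂ) * h2

theorem ne_of_re {z : ℂ} (h : 0 < z.re) : z ≠ 0 := by
  rintro rfl
  simp at h

theorem ku_den {z : ℂ} (h : S5 z) :
    (2 * cosh (z / 4) + 1) * (2 * cosh (z / 4) + ((Real.sqrt 2 : ℝ) : ℂ)) ≠ 0 := by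
  have h1 := cosh4_re h
  have h2 := cos5_pos
  have h3 := Real.sqrt_nonneg 2
  refine mul_ne_zero (ne_of_re ?_) (ne_of_re ?_)
  · simp only [add_re, mul_re, one_re, re_ofNat, im_ofNat, zero_mul, sub_zero]
    linarith
  · simp only [add_re, mul_re, ofReal_re, re_ofNat, im_ofNat, zero_mul, sub_zero]
    linarith

theorem cosh8_ne {z : ℂ} (h : S5 z) : cosh (z / 8) ≠ 0 := by
  have h1 : (z / 8).im = z.im / 8 := by simp [Complex.div_im]
  refine ne_of_re ?_
  rw [cosh_re, h1]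
  have hp := Real.pi_pos
  have h2 : |z.im| < 5 * Real.pi / 3 := h
  have h3 := abs_lt.1 h2
  exact mul_pos (Real.cosh_pos _) (Real.cos_pos_of_mem_Ioo ⟨by linarith [h3.1], by linarith [h3.2]⟩)

/-- **no zero** -/
theorem ku_ne {z : ℂ} (h : S5 z) : ku z ≠ 0 := by
  have h1 := cosh4_re h
  have h2 := cos5_pos
  have h3 := Real.sqrt_nonneg 2
  have h6 := Real.sqrt_nonneg 6
  unfold ku
  refine div_ne_zero ?_ (ku_den h)
  rw [quad_fac]
  refine mul_ne_zero (mul_ne_zero (mul_ne_zero (by norm_num) (cosh8_ne h)) (ne_of_re (by linarith))) ?_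
  refine mul_ne_zero (mul_ne_zero (by norm_num) (ne_of_re ?_)) (ne_of_re ?_)
  · rw [sub_re, ofReal_re]
    linarith
  · rw [add_re, ofReal_re]
    have h7 : 0 < (cosh (z / 4)).re := by linarith
    linarith

theorem ku_diff {z : ℂ} (h : S5 z) : DifferentiableAt ℂ ku z := by
  have c4 : DifferentiableAt ℂ (fun z : ℂ => cosh (z / 4)) z := by fun_prop
  have c8 : DifferentiableAt ℂ (fun z : ℂ => cosh (z / 8)) z := by fun_prop
  unfold ku
  refine DifferentiableAt.fun_div (by fun_prop) (by fun_prop) (ku_den h)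

theorem u2_ne {v w : ℂ} (h : S5 (v - w)) : u2 v w ≠ 0 := mul_ne_zero (exp_ne_zero _) (ku_ne h)

/-! ### the two identities -/

theorem cosh_add_mul (a b : ℂ) : cosh (a + b) * cosh (a - b) * 2 = cosh (2 * a) + cosh (2 * b) := by
  rw [show 2 * a = (a + b) + (a - b) by ring, show 2 * b = (a + b) - (a - b) by ring, cosh_add (a + b), cosh_sub (a + b)]
  ring

/-- `(2 cosh (3z/4) + √2) t z = 2 sinh (3z/8) ku z` -/
theorem ku_eq {z : ℂ} (h1 : cosh (z / 2) ≠ 0)
    (h2 : (2 * cosh (z / 4) + 1) * (2 * cosh (z / 4) + ((Real.sqrt 2 : ℝ) : ℂ)) ≠ 0) :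
    (2 * cosh (3 * z / 4) + ((Real.sqrt 2 : ℝ) : ℂ)) * t z = 2 * sinh (3 * z / 8) * ku z := by
  obtain ⟨y, hy⟩ : ∃ y, y = z / 8 := ⟨_, rfl⟩
  have hz : z = 8 * y := by rw [hy]; ring
  subst hz
  have q2 : ((Real.sqrt 2 : ℝ) : ℂ) ^ 2 = 2 := by
    rw [← ofReal_pow, Real.sq_sqrt (by norm_num)]
    norm_num
  unfold t ku
  rw [tanh_eq_sinh_div_cosh]
  have e8 : (8 * y) / 8 = y := by ring
  have e4 : (8 * y) / 4 = 2 * y := by ring
  have e2 : (8 * y) / 2 = 2 * (2 * y) := by ring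
  have e34 : 3 * (8 * y) / 4 = 3 * (2 * y) := by ring
  have e38 : 3 * (8 * y) / 8 = 3 * y := by ring
  rw [e2] at h1
  rw [e4] at h2
  rw [e8, e4, e2, e34, e38]
  have c3 : cosh (3 * (2 * y)) = 4 * cosh (2 * y) ^ 3 - 3 * cosh (2 * y) := cosh_three_mul _
  have s3 : sinh (3 * y) = sinh y * (2 * cosh (2 * y) + 1) := by
    rw [sinh_three_mul, cosh_two_mul]
    have := cosh_sq y
    linear_combination (-2 * sinh y) * this
  have s4 : sinh (2 * (2 * y)) = 4 * sinh y * cosh y * cosh (2 * y) := by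
    rw [sinh_two_mul, sinh_two_mul]
    ring
  have c4 : cosh (2 * (2 * y)) = 2 * cosh (2 * y) ^ 2 - 1 := by
    rw [cosh_two_mul]
    have := cosh_sq (2 * y)
    linear_combination (-1 : ℂ) * this
  rw [c3, s3, s4, c4]
  rw [c4] at h1
  obtain ⟨h21, h22⟩ := mul_ne_zero_iff.1 h2
  generalize cosh (2 * y) = C at *
  generalize ((Real.sqrt 2 : ℝ) : ℂ) = r at *
  rw [mul_div_assoc', mul_div_assoc', div_eq_div_iff h1 h2]
  linear_combination (4 * sinh y * cosh y * C * (2 * C + 1)) * q2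

/-- `h t = (x - x') u2` -/
theorem u2_eq {η : ℂ} (hr : η - η ^ 3 = ((Real.sqrt 2 : ℝ) : ℂ)) {v w : ℂ} (h1 : cosh ((v - w) / 2) ≠ 0)
    (h2 : S5 (v - w)) : hpol η (xx v) (xx w) * t (v - w) = (xx v - xx w) * u2 v w := by
  have e1 : hpol η (xx v) (xx w) = xx v * xx w * (2 * cosh (3 * (v - w) / 4) + ((Real.sqrt 2 : ℝ) : ℂ)) := by
    have a1 : xx v * xx w * exp (3 * (v - w) / 4) = xx v ^ 2 := by
      unfold xx
      rw [← exp_add, ← exp_add, ← exp_nat_mul]
      congr 1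
      push_cast
      ring
    have a2 : xx v * xx w * exp (-(3 * (v - w) / 4)) = xx w ^ 2 := by
      unfold xx
      rw [← exp_add, ← exp_add, ← exp_nat_mul]
      congr 1
      push_cast
      ring
    unfold hpol
    rw [hr, cosh, ← a1, ← a2]
    ring
  have e2 : (xx v - xx w) * exp (3 * (v + w) / 8) = xx v * xx w * (2 * sinh (3 * (v - w) / 8)) := by
    have a1 : exp (3 * (v + w) / 8) * xx v = xx v * xx w * exp (3 * (v - w) / 8) := by
      unfold xx
      rw [← exp_add, ← exp_add, ← exp_add]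
      congr 1
      ring
    have a2 : exp (3 * (v + w) / 8) * xx w = xx v * xx w * exp (-(3 * (v - w) / 8)) := by
      unfold xx
      rw [← exp_add, ← exp_add, ← exp_add]
      congr 1
      ring
    rw [sinh]
    linear_combination a1 - a2
  have e3 := ku_eq h1 (ku_den h2)
  unfold u2
  rw [e1]
  linear_combination (xx v * xx w) * e3 - ku (v - w) * e2

theorem ku_mul_den {z : ℂ} (h : S5 z) : ku z *
    ((2 * cosh (z / 4) + 1) * (2 * cosh (z / 4) + ((Real.sqrt 2 : ℝ) : ℂ))) = 4 * cosh (z / 8) * cosh (z / 4) *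
  (4 * cosh (z / 4) ^ 2 + 2 * ((Real.sqrt 2 : ℝ) : ℂ) * cosh (z / 4) - 1) := by
  unfold ku
  exact div_mul_cancel₀ _ (ku_den h)

theorem cosh_b : cosh (2 * a6 / 4) = ((Real.sqrt 2 : ℝ) : ℂ) * (((Real.sqrt 3 : ℝ) : ℂ) + 1) / 4 := by
  have e : 2 * a6 / 4 = ((Real.pi / 12 : ℝ) : ℂ) * I := by
    unfold a6
    push_cast
    ring
  rw [e, cosh_mul_I, ← ofReal_cos]
  have e2 : Real.pi / 12 = Real.pi / 3 - Real.pi / 4 := by ring
  rw [e2, Real.cos_sub, Real.cos_pi_div_three, Real.sin_pi_div_three, Real.cos_pi_div_four, Real.sin_pi_div_four]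
  push_cast
  ring

theorem cosh_2b : cosh (2 * (2 * a6 / 4)) = ((Real.sqrt 3 : ℝ) : ℂ) / 2 := by
  have e : 2 * (2 * a6 / 4) = ((Real.pi / 6 : ℝ) : ℂ) * I := by
    unfold a6
    push_cast
    ring
  rw [e, cosh_mul_I, ← ofReal_cos, Real.cos_pi_div_six]
  push_cast
  ring

/-- **fusion of the pair factor** -/
theorem ku_fuse {z : ℂ} (h : S5 z) (hp : S5 (z + 2 * a6)) (hm : S5 (z - 2 * a6)) :
    ku (z + 2 * a6) * ku (z - 2 * a6) = 2 * cosh (3 * z / 8) * ku z := by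
  have hr : ((Real.sqrt 2 : ℝ) : ℂ) ^ 2 = 2 := by
    rw [← ofReal_pow, Real.sq_sqrt (by norm_num)]
    norm_num
  have hs : ((Real.sqrt 3 : ℝ) : ℂ) ^ 2 = 3 := by
    rw [← ofReal_pow, Real.sq_sqrt (by norm_num)]
    norm_num
  have d0 := ku_den h
  have dp := ku_den hp
  have dm := ku_den hm
  have kp := ku_mul_den hp
  have km := ku_mul_den hm
  have k0 := ku_mul_den h
  have e1 : (z + 2 * a6) / 4 = z / 4 + 2 * a6 / 4 := by ring
  have e2 : (z - 2 * a6) / 4 = z / 4 - 2 * a6 / 4 := by ring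
  have f1 : cosh (z / 4 + 2 * a6 / 4) * cosh (z / 4 - 2 * a6 / 4) * 2 =
      2 * cosh (z / 4) ^ 2 - 1 + ((Real.sqrt 3 : ℝ) : ℂ) / 2 := by
    rw [cosh_add_mul, cosh_2b, cosh_two_mul]
    have := cosh_sq (z / 4)
    linear_combination (-1 : ℂ) * this
  have f2 : cosh (z / 4 + 2 * a6 / 4) + cosh (z / 4 - 2 * a6 / 4) =
      2 * cosh (z / 4) * (((Real.sqrt 2 : ℝ) : ℂ) * (((Real.sqrt 3 : ℝ) : ℂ) + 1) / 4) := by
    rw [← cosh_b, cosh_add, cosh_sub]
    ring
  have f3 : cosh ((z + 2 * a6) / 8) * cosh ((z - 2 * a6) / 8) * 2 =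
      cosh (z / 4) + ((Real.sqrt 2 : ℝ) : ℂ) * (((Real.sqrt 3 : ℝ) : ℂ) + 1) / 4 := by
    rw [← cosh_b, show (z + 2 * a6) / 8 = z / 8 + 2 * a6 / 8 by ring, show (z - 2 * a6) / 8 = z / 8 - 2 * a6 / 8 by ring,
      cosh_add_mul]
    congr 2 <;> ring
  have f4 : 2 * cosh (3 * z / 8) * cosh (z / 8) = (2 * cosh (z / 4) - 1) * (cosh (z / 4) + 1) := by
    have g1 := cosh_add_mul (z / 4) (z / 8)
    rw [show z / 4 + z / 8 = 3 * z / 8 by ring, show z / 4 - z / 8 = z / 8 by ring,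
      show 2 * (z / 8) = z / 4 by ring, cosh_two_mul] at g1
    have := cosh_sq (z / 4)
    linear_combination g1 - this
  rw [e1] at dp kp
  rw [e2] at dm km
  generalize cosh ((z + 2 * a6) / 8) = A at kp f3
  generalize cosh ((z - 2 * a6) / 8) = B at km f3
  generalize cosh (z / 4 + 2 * a6 / 4) = a at dp kp f1 f2
  generalize cosh (z / 4 - 2 * a6 / 4) = b at dm km f1 f2
  generalize cosh (z / 4) = C at d0 k0 f1 f2 f3 f4
  generalize cosh (z / 8) = E at k0 f4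
  generalize cosh (3 * z / 8) = G at f4 ⊢
  generalize ku (z + 2 * a6) = K1 at kp ⊢
  generalize ku (z - 2 * a6) = K2 at km ⊢
  generalize ku z = K at k0 ⊢
  generalize ((Real.sqrt 2 : ℝ) : ℂ) = r at *
  generalize ((Real.sqrt 3 : ℝ) : ℂ) = s at *
  -- factorised forms
  obtain ⟨c, hc⟩ : ∃ c, c = r * (s - 1) / 4 := ⟨_, rfl⟩
  have g1 : a * b = (C - c) * (C + c) := by
    rw [hc]
    linear_combination (1 / 2 : ℂ) * f1 + (s - 1) ^ 2 / 16 * hr + (1 / 8 : ℂ) * hs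
  have g2 : (2 * a + 1) * (2 * b + 1) = (2 * C + 2 * c) * (2 * C + r) := by
    rw [hc]
    linear_combination 2 * f1 + 2 * f2 - (s - 1) / 2 * hr
  have g3 : (2 * a + r) * (2 * b + r) = (2 * C + 1) * (2 * C + s) := by
    linear_combination 2 * f1 + 2 * r * f2 + (C * (s + 1) + 1) * hr
  have g4 : (4 * a ^ 2 + 2 * r * a - 1) * (4 * b ^ 2 + 2 * r * b - 1) =
      16 * (C * (C - 1 / 2)) * ((C + 1) * (C + s / 2)) := by
    have i1 : ∀ x : ℂ, 4 * x ^ 2 + 2 * r * x - 1 = 4 * (x - c) * (x + r * (s + 1) / 4) := by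
      intro x
      rw [hc]
      linear_combination (s ^ 2 - 1) / 4 * hr + (1 / 2 : ℂ) * hs
    have i2 : (a - c) * (b - c) = C * (C - 1 / 2) := by
      have : (a - c) * (b - c) = a * b - c * (a + b) + c ^ 2 := by ring
      rw [this, g1, f2, hc]
      linear_combination (-(C * (s ^ 2 - 1) / 8)) * hr - (C / 4) * hs
    have i3 : (a + r * (s + 1) / 4) * (b + r * (s + 1) / 4) = (C + 1) * (C + s / 2) := by
      have : (a + r * (s + 1) / 4) * (b + r * (s + 1) / 4) =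
          a * b + r * (s + 1) / 4 * (a + b) + (r * (s + 1) / 4) ^ 2 := by ring
      rw [this, g1, f2, hc]
      linear_combination (C * (s + 1) ^ 2 / 8 + (s + 1) ^ 2 / 16 - (s - 1) ^ 2 / 16) * hr + (C / 4) * hs
    rw [i1 a, i1 b]
    linear_combination (16 * ((a + r * (s + 1) / 4) * (b + r * (s + 1) / 4))) * i2 + 16 * (C * (C - 1 / 2)) * i3
  have hDD : (2 * C + 2 * c) * (2 * C + s) ≠ 0 := by
    intro h0
    have h1 : ((2 * a + 1) * (2 * a + r)) * ((2 * b + 1) * (2 * b + r)) = 0 := by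
      have : ((2 * a + 1) * (2 * a + r)) * ((2 * b + 1) * (2 * b + r)) =
          ((2 * a + 1) * (2 * b + 1)) * ((2 * a + r) * (2 * b + r)) := by ring
      rw [this, g2, g3]
      linear_combination ((2 * C + r) * (2 * C + 1)) * h0
    exact (mul_ne_zero dp dm) h1
  have hc2 : 2 * C ^ 2 + 0 = 2 * C ^ 2 := by ring
  have key : K1 * K2 * ((2 * C + 2 * c) * (2 * C + r) * ((2 * C + 1) * (2 * C + s))) =
      16 * (A * B) * (a * b) * (16 * (C * (C - 1 / 2)) * ((C + 1) * (C + s / 2))) := by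
    rw [← g2, ← g3, ← g4]
    linear_combination (K2 * ((2 * b + 1) * (2 * b + r))) * kp +
      (4 * A * a * (4 * a ^ 2 + 2 * r * a - 1)) * km
  have hD : (2 * C + 1) * (2 * C + r) ≠ 0 := d0
  have hfin : (K1 * K2 - 2 * G * K) * (((2 * C + 2 * c) * (2 * C + s)) * ((2 * C + 1) * (2 * C + r)) ) = 0 := by
    have j1 : 2 * G * K * ((2 * C + 1) * (2 * C + r)) =
        (2 * C - 1) * (C + 1) * (4 * C * (4 * C ^ 2 + 2 * r * C - 1)) := by
      linear_combination (2 * G) * k0 + (4 * C * (4 * C ^ 2 + 2 * r * C - 1)) * f4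
    have j2 : 4 * C ^ 2 + 2 * r * C - 1 = 4 * (C - c) * (C + r * (s + 1) / 4) := by
      rw [hc]
      linear_combination (s ^ 2 - 1) / 4 * hr + (1 / 2 : ℂ) * hs
    rw [g1] at key
    rw [j2] at j1
    linear_combination key - ((2 * C + 2 * c) * (2 * C + s)) * j1 +
      8 * ((C - c) * (C + c)) * (16 * (C * (C - 1 / 2)) * ((C + 1) * (C + s / 2))) * f3
  have h9 := (mul_eq_zero.1 hfin).resolve_right (mul_ne_zero hDD hD)
  linear_combination h9

/-- **fusion** -/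
theorem u2_fuse {v w : ℂ} (h : S5 (v - w)) (hp : S5 (v - w + 2 * a6)) (hm : S5 (v - w - 2 * a6)) :
    u2 (v + 2 * a6) w * u2 (v - 2 * a6) w = (xx w + xx v) * u2 v w := by
  have h1 := ku_fuse h hp hm
  unfold u2
  rw [show v + 2 * a6 - w = v - w + 2 * a6 by ring, show v - 2 * a6 - w = v - w - 2 * a6 by ring]
  have e1 : exp (3 * (v + 2 * a6 + w) / 8) * exp (3 * (v - 2 * a6 + w) / 8) = exp (3 * (v + w) / 8) ^ 2 := by
    rw [← exp_add, ← exp_nat_mul]
    congr 1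
    push_cast
    ring
  have e2 : (xx w + xx v) = exp (3 * (v + w) / 8) * (2 * cosh (3 * (v - w) / 8)) := by
    rw [cosh]
    unfold xx
    have a1 : exp (3 * (v + w) / 8) * exp (3 * (v - w) / 8) = exp (3 * v / 4) := by
      rw [← exp_add]
      congr 1
      ring
    have a2 : exp (3 * (v + w) / 8) * exp (-(3 * (v - w) / 8)) = exp (3 * w / 4) := by
      rw [← exp_add]
      congr 1
      ring
    linear_combination -a1 - a2
  rw [e2]
  linear_combination (ku (v - w + 2 * a6) * ku (v - w - 2 * a6)) * e1 + exp (3 * (v + w) / 8) ^ 2 * h1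

end DRX

end
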