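import Pool.Agent.DRX.Lem
import Pool.Agent.DRX.U2

/-!
# The two state sum in every window

`bod`: `b (V.map xx) = K ^ |V| * ∏ u2 * gas (Lam V)` on the line `Im = c`, for every list `V` (even or odd,
coincidences allowed) at distance `< 5 π / 6` of the line; `K = √(2/3)`.
-/

set_option autoImplicit false

noncomputable section

open Complex MeasureTheory Filter Topology

namespace DRX

open DUA SPN NUGas

/-- the window -/
def Win (c : ℝ) : Set ℂ := {v | |v.im - c| < 5 * Real.pi / 6}

theorem Win_open (c : ℝ) : IsOpen (Win c) := by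
  have : Win c = (fun v : ℂ => |v.im - c|) ⁻¹' Set.Iio (5 * Real.pi / 6) := rfl
  rw [this]
  exact isOpen_Iio.preimage (by fun_prop)

theorem Win_conv (c : ℝ) : Convex ℝ (Win c) := by
  have : Win c = Complex.im ⁻¹' Set.Ioo (c - 5 * Real.pi / 6) (c + 5 * Real.pi / 6) := by
    ext z
    simp only [Win, Set.mem_ofPred_eq, abs_lt, Set.mem_preimage, Set.mem_Ioo]
    constructor
    · rintro ⟨h1, h2⟩; constructor <;> linarith
    · rintro ⟨h1, h2⟩; constructor <;> linarith
  rw [this]
  exact (convex_Ioo _ _).linear_preimage Complex.imLm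

/-- the gas functional is holomorphic along holomorphic families -/
def GHol : Prop := ∀ (A : ℝ) (U : Set ℂ) (L : ℂ → ℝ → ℂ), IsOpen U → (∀ v ∈ U, L v ∈ Kc A) →
  (∀ x, DifferentiableOn ℂ (fun v => L v x) U) → DifferentiableOn ℂ (fun v => gas (L v)) U

/-! ### products over pairs -/

theorem PP_mul (f g : ℂ → ℂ → ℂ) (V : List ℂ) : PP f V * PP g V = PP (fun v w => f v w * g v w) V := by
  induction V with
  | nil => rw [PP, PP, PP, one_mul]
  | cons v V ih =>
    rw [PP_cons, PP_cons, PP_cons, ← ih, List.prod_map_mul]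
    ring

theorem PP_congr {f g : ℂ → ℂ → ℂ} {V : List ℂ} (h : ∀ v ∈ V, ∀ w ∈ V, f v w = g v w) : PP f V = PP g V := by
  induction V with
  | nil => rfl
  | cons v V ih =>
    rw [PP_cons, PP_cons, ih fun a ha b hb => h a (List.mem_cons_of_mem _ ha) b (List.mem_cons_of_mem _ hb)]
    congr 2
    exact List.map_congr_left fun w hw => h v List.mem_cons_self w (List.mem_cons_of_mem _ hw)

theorem PP_ne {f : ℂ → ℂ → ℂ} {V : List ℂ} (h : V.Pairwise fun v w => f v w ≠ 0) : PP f V ≠ 0 := by
  induction V with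
  | nil => rw [PP]; exact one_ne_zero
  | cons v V ih =>
    rw [List.pairwise_cons] at h
    rw [PP_cons]
    refine mul_ne_zero ?_ (ih h.2)
    intro hz
    rw [List.prod_eq_zero_iff, List.mem_map] at hz
    obtain ⟨w, hw, h0⟩ := hz
    exact h.1 w hw h0

theorem PP_append (f : ℂ → ℂ → ℂ) (V W : List ℂ) :
    PP f (V ++ W) = PP f V * (V.map fun v => (W.map (f v)).prod).prod * PP f W := by
  induction V with
  | nil => simp [PP]
  | cons v V ih =>
    rw [List.cons_append, PP_cons, PP_cons, ih, List.map_append, List.prod_append, List.map_cons, List.prod_cons]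
    ring

theorem Dl_PP (V : List ℂ) : Dl V = PP (fun v w => t (v - w)) V := by
  induction V with
  | nil => rfl
  | cons v V ih =>
    rw [PP_cons, ← ih]
    rfl

/-! ### translations -/

theorem pf_shift (a : ℂ → ℂ) (s : ℂ) : ∀ (n : ℕ) (l : List ℂ), l.length = n →
    pf a (l.map fun v => v - s) = pf a l := by
  intro n
  induction n using Nat.strong_induction_on with
  | _ n ih =>
    intro l hl
    match l, hl with
    | [], _ => rfl
    | x :: l, hl =>
      rw [List.map_cons, pf, pf]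
      have hlen : (l.map fun v => v - s).length = l.length := List.length_map _
      rw [← Equiv.sum_comp (finCongr hlen.symm)]
      refine Finset.sum_congr rfl fun i _ => ?_
      have e1 : (l.map fun v => v - s).get (finCongr hlen.symm i) = l.get i - s := by
        simp
      have e2 : (l.map fun v => v - s).eraseIdx ((finCongr hlen.symm i : Fin _) : ℕ) =
          (l.eraseIdx (i : ℕ)).map fun v => v - s := by
        simp [List.eraseIdx_map]
      rw [e1, e2, ih (l.eraseIdx (i : ℕ)).length ?_ _ rfl]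
      · simp only [finCongr_apply, Fin.val_cast, sub_sub_sub_cancel_right]
      · rw [List.length_eraseIdx_of_lt i.2]
        simp only [List.length_cons] at hl
        omega

theorem Dl_shift (s : ℂ) (l : List ℂ) : Dl (l.map fun v => v - s) = Dl l := by
  induction l with
  | nil => rfl
  | cons x l ih =>
    rw [List.map_cons, Dl_cons, Dl_cons, ih]
    congr 1
    unfold tp
    rw [List.map_map]
    congr 1
    refine List.map_congr_left fun v _ => ?_
    simp only [Function.comp_apply, sub_sub_sub_cancel_right]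

theorem Lam_shift (s : ℂ) (l : List ℂ) (θ : ℂ) : Lam (l.map fun v => v - s) θ = Lam l (θ + s) := by
  unfold Lam
  rw [List.map_map]
  congr 1
  refine List.map_congr_left fun v _ => ?_
  simp only [Function.comp_apply]
  congr 1
  ring

/-! ### the identity in the strip `|Im v - c| < π / 2`, generic even lists -/

theorem bod_base {η ρ : ℂ} (hη : η ^ 4 = -1) (hr : η - η ^ 3 = ((Real.sqrt 2 : ℝ) : ℂ)) {b : List ℂ → ℂ}
    (hb : BT η (1 + η ^ 3) ρ b) {c : ℝ} {V : List ℂ} (hV : ∀ v ∈ V, |v.im - c| < Real.pi / 2) {m : ℕ}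
    (hm : V.length = 2 * m) (hg : Gen η (V.map xx)) :
    b (V.map xx) = (2 / 3) ^ m * PP u2 V * gas (fun x => Lam V (ln c x)) := by
  have h1 := bev hη hr hb m V hm hg
  set s : ℂ := (c : ℂ) * I with hs
  have hst : ∀ v ∈ V.map (fun v => v - s), St v := by
    intro v hv
    obtain ⟨w, hw, rfl⟩ := List.mem_map.1 hv
    have h2 : (w - s).im = w.im - c := by rw [hs]; simp
    show |(w - s).im| < Real.pi / 2
    rw [h2]
    exact hV w hw
  have h2 := gas_pf hst (m := m) (by rw [List.length_map]; exact hm)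
  rw [Dl_shift, pf_shift p s _ V rfl] at h2
  have h3 : (fun θ : ℝ => Lam (V.map fun v => v - s) (θ : ℂ)) = fun x => Lam V (ln c x) := by
    funext x
    rw [Lam_shift]
    rfl
  rw [h3] at h2
  have hpi := Real.pi_pos
  have hpair : ∀ v ∈ V, ∀ w ∈ V, |(v - w).im| < Real.pi := by
    intro v hv w hw
    have a1 := abs_lt.1 (hV v hv)
    have a2 := abs_lt.1 (hV w hw)
    rw [Complex.sub_im, abs_lt]
    constructor <;> linarith [a1.1, a1.2, a2.1, a2.2]
  have h4 : PP (fun v w => hpol η (xx v) (xx w)) V * Dl V = PP (fun v w => xx v - xx w) V * PP u2 V := by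
    rw [Dl_PP, PP_mul, PP_mul]
    refine PP_congr fun v hv w hw => ?_
    have h5 := hpair v hv w hw
    refine u2_eq hr ?_ (h5.trans (by linarith))
    refine ne_of_re ?_
    have h6 : ((v - w) / 2).im = (v - w).im / 2 := by simp [Complex.div_im]
    rw [cosh_re, h6]
    refine mul_pos (Real.cosh_pos _) (Real.cos_pos_of_mem_Ioo ⟨?_, ?_⟩)
    · linarith [(abs_lt.1 h5).1]
    · linarith [(abs_lt.1 h5).2]
  have h5 : PP (fun v w => xx v - xx w) V ≠ 0 := by
    refine PP_ne ?_
    have := hg.2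
    rw [List.pairwise_map] at this
    refine this.imp fun {a b} h h0 => h 0 ?_
    rw [pow_zero, one_mul]
    exact sub_eq_zero.1 h0
  refine mul_right_cancel₀ h5 ?_
  rw [h1, ← h2]
  linear_combination (2 / 3) ^ m * gas (fun x => Lam V (ln c x)) * h4

/-! ### generic rows -/

theorem xx_deriv (z : ℂ) : HasDerivAt xx (3 / 4 * xx z) z := by
  have h1 : HasDerivAt (fun v : ℂ => 3 * v / 4) (3 / 4) z := by
    have := ((hasDerivAt_id z).const_mul (3 : ℂ)).div_const 4
    simpa using this
  have h2 := h1.cexp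
  rw [mul_comm] at h2
  exact h2

theorem gen_ev {η : ℂ} (hη : η ^ 4 = -1) {X : List ℂ} (hX : Gen η X) (z0 : ℂ) :
    ∀ᶠ z in 𝓝[≠] z0, Gen η (xx z :: X) := by
  have key : ∀ (k : ℕ) (x : ℂ), ∀ᶠ z in 𝓝[≠] z0, η ^ k * xx z ≠ x := by
    intro k x
    have hd : HasDerivAt (fun z => η ^ k * xx z) (η ^ k * (3 / 4 * xx z0)) z0 := (xx_deriv z0).const_mul _
    have hne : η ^ k * (3 / 4 * xx z0) ≠ 0 :=
      mul_ne_zero (pow_ne_zero _ (eta_ne hη)) (mul_ne_zero (by norm_num) (xx_ne z0))
    exact hd.eventually_ne hne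
  have h2 : ∀ᶠ z in 𝓝[≠] z0, ∀ x ∈ X, ∀ k < 8, η ^ k * xx z ≠ x := by
    have h3 : ∀ᶠ z in 𝓝[≠] z0, ∀ x ∈ X.toFinset, ∀ k ∈ Finset.range 8, η ^ k * xx z ≠ x := by
      rw [Filter.eventually_all_finset]
      intro x _
      rw [Filter.eventually_all_finset]
      intro k _
      exact key k x
    filter_upwards [h3] with z hz x hx k hk
    exact hz x (List.mem_toFinset.2 hx) k (Finset.mem_range.2 hk)
  filter_upwards [h2] with z hz
  refine ⟨?_, List.pairwise_cons.2 ⟨fun x hx k hk => ?_, hX.2⟩⟩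
  · intro y hy
    rcases List.mem_cons.1 hy with rfl | hy
    · exact xx_ne z
    · exact hX.1 y hy
  · rw [eta_pow_mod hη] at hk
    exact hz x hx _ (Nat.mod_lt _ (by norm_num)) hk

/-! ### one row -/

/-- the identity theorem in the window -/
theorem win_ext {c : ℝ} {f g : ℂ → ℂ} (hf : DifferentiableOn ℂ f (Win c)) (hg : DifferentiableOn ℂ g (Win c))
    {z0 : ℂ} (hz : z0 ∈ Win c) (h : ∀ᶠ z in 𝓝[≠] z0, f z = g z) : ∀ z ∈ Win c, f z = g z := by
  have h1 := hf.analyticOnNhd (Win_open c)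
  have h2 := hg.analyticOnNhd (Win_open c)
  exact h1.eqOn_of_preconnected_of_frequently_eq h2 (Win_conv c).isPreconnected hz h.frequently

/-- uniform class of the contents -/
theorem Lam_unif {c d R : ℝ} (hd : d < 5 * Real.pi / 6) (n : ℕ) : ∃ A : ℝ, 0 ≤ A ∧ ∀ I : List ℂ, I.length ≤ n →
    (∀ v ∈ I, |v.im - c| ≤ d ∧ |v.re| ≤ R) → (fun x => Lam I (ln c x)) ∈ Kc A := by
  obtain ⟨C, hC0, hC⟩ := tau_Kc (c := c) hd
  induction n with
  | zero =>
    refine ⟨0, le_rfl, fun I hI _ => ?_⟩
    have h0 : I = [] := List.length_eq_zero_iff.1 (Nat.le_zero.1 hI)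
    subst h0
    refine ⟨?_, fun x => ?_⟩
    · simp only [Lam_nil]; exact continuous_const
    · simp [Lam_nil]
  | succ n ih =>
    obtain ⟨A, hA0, hA⟩ := ih
    refine ⟨C * Real.exp R + A + C * Real.exp R * A, by positivity, fun I hI hv => ?_⟩
    match I, hI, hv with
    | [], _, _ =>
      refine ⟨?_, fun x => ?_⟩
      · simp only [Lam_nil]; exact continuous_const
      · simp only [Lam_nil, sub_self, norm_zero]; positivity
    | v :: I, hI, hv =>
      have h1 := hv v List.mem_cons_self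
      have h2 : (fun x => tau (v - ln c x)) ∈ Kc (C * Real.exp R) :=
        Kc_mono (mul_le_mul_of_nonneg_left (Real.exp_le_exp.2 h1.2) hC0) (hC v h1.1)
      have h3 := Kc_mul (by positivity) h2 (hA I (by simpa using hI) fun u hu => hv u (List.mem_cons_of_mem _ hu))
      simp only [Lam_cons]
      exact h3

theorem gas_row (hG : GHol) {c : ℝ} {L : List ℂ} (hL : Wn c L) :
    DifferentiableOn ℂ (fun v => gas (fun x => Lam (v :: L) (ln c x))) (Win c) := by
  intro v0 hv0
  have hv0' : |v0.im - c| < 5 * Real.pi / 6 := hv0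
  set d : ℝ := (|v0.im - c| + 5 * Real.pi / 6) / 2 with hd
  have hd1 : |v0.im - c| < d := by rw [hd]; linarith
  have hd2 : d < 5 * Real.pi / 6 := by rw [hd]; linarith
  set U : Set ℂ := {v | |v.im - c| < d ∧ |v.re| < |v0.re| + 1} with hU
  have hUo : IsOpen U := by
    have e : U = (fun v : ℂ => |v.im - c|) ⁻¹' Set.Iio d ∩ (fun v : ℂ => |v.re|) ⁻¹' Set.Iio (|v0.re| + 1) := rfl
    rw [e]
    exact (isOpen_Iio.preimage (by fun_prop)).inter (isOpen_Iio.preimage (by fun_prop))
  have hvU : v0 ∈ U := ⟨hd1, by linarith⟩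
  obtain ⟨C, hC0, hC⟩ := tau_Kc (c := c) hd2
  obtain ⟨A, hA0, hA⟩ := Lam_Kc hL
  have hB : 0 ≤ C * Real.exp (|v0.re| + 1) := by positivity
  have h1 : DifferentiableOn ℂ (fun v => gas (fun x => Lam (v :: L) (ln c x))) U := by
    refine hG (C * Real.exp (|v0.re| + 1) + A + C * Real.exp (|v0.re| + 1) * A) U _ hUo (fun v hv => ?_)
      fun x => ?_
    · have h2 : (fun x => tau (v - ln c x)) ∈ Kc (C * Real.exp (|v0.re| + 1)) :=
        Kc_mono (mul_le_mul_of_nonneg_left (Real.exp_le_exp.2 hv.2.le) hC0) (hC v hv.1.le)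
      have h3 := Kc_mul hB h2 hA
      simp only [Lam_cons]
      exact h3
    · simp only [Lam_cons]
      refine DifferentiableOn.mul_const ?_ _
      intro v hv
      have h4 : |(v - ln c x).im| < 5 * Real.pi / 6 := by
        rw [Complex.sub_im, ln_im]; exact hv.1.trans hd2
      exact (DifferentiableAt.comp (g := tau) (f := fun v => v - ln c x) v (tau_diffAt h4)
        (differentiableAt_id.sub_const _)).differentiableWithinAt
  exact ((h1 v0 hvU).differentiableAt (hUo.mem_nhds hvU)).differentiableWithinAt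

theorem S5_win {c : ℝ} {v w : ℂ} (hv : v ∈ Win c) (hw : w ∈ Win c) : S5 (v - w) := by
  have a1 := abs_lt.1 (show |v.im - c| < 5 * Real.pi / 6 from hv)
  have a2 := abs_lt.1 (show |w.im - c| < 5 * Real.pi / 6 from hw)
  show |(v - w).im| < 5 * Real.pi / 3
  rw [Complex.sub_im, abs_lt]
  constructor <;> linarith [a1.1, a1.2, a2.1, a2.2]

theorem u2_diff {c : ℝ} {w : ℂ} (hw : w ∈ Win c) : DifferentiableOn ℂ (fun v => u2 v w) (Win c) := by
  intro v hv
  have h1 := ku_diff (S5_win hv hw)
  have h2 : DifferentiableAt ℂ (fun v : ℂ => ku (v - w)) v :=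
    DifferentiableAt.comp (g := ku) (f := fun v => v - w) v h1 (differentiableAt_id.sub_const _)
  have h3 : DifferentiableAt ℂ (fun v : ℂ => exp (3 * (v + w) / 8)) v := by fun_prop
  exact (h3.mul h2).differentiableWithinAt

theorem u2row_diff {c : ℝ} {L : List ℂ} (hL : Wn c L) :
    DifferentiableOn ℂ (fun v => (L.map (u2 v)).prod) (Win c) := by
  induction L with
  | nil => simp only [List.map_nil, List.prod_nil]; exact differentiableOn_const _
  | cons w L ih =>
    simp only [List.map_cons, List.prod_cons]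
    exact (u2_diff (hL w List.mem_cons_self)).mul (ih fun u hu => hL u (List.mem_cons_of_mem _ hu))

theorem b_row {η κ ρ : ℂ} {b : List ℂ → ℂ} (hb : BT η κ ρ b) (X : List ℂ) :
    Differentiable ℂ fun v => b (xx v :: X) := by
  obtain ⟨P, _, _, _, hP⟩ := hb.poly X
  have h1 : (fun v => b (xx v :: X)) = fun v => P.eval (xx v) := funext fun v => hP _
  rw [h1]
  exact P.differentiable.comp fun z => (xx_deriv z).differentiableAt

/-! ### even lists -/

theorem bod_even {η ρ : ℂ} (hG : GHol) (hη : η ^ 4 = -1) (hr : η - η ^ 3 = ((Real.sqrt 2 : ℝ) : ℂ))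
    {b : List ℂ → ℂ} (hb : BT η (1 + η ^ 3) ρ b) {c : ℝ} {m : ℕ} : ∀ A C : List ℂ, Wn c A →
    (∀ v ∈ C, |v.im - c| < Real.pi / 2) → Gen η (C.map xx) → (A ++ C).length = 2 * m →
    b ((A ++ C).map xx) = (2 / 3) ^ m * PP u2 (A ++ C) * gas (fun x => Lam (A ++ C) (ln c x)) := by
  have hpi := Real.pi_pos
  intro A
  induction A with
  | nil =>
    intro C _ hC hg hm
    exact bod_base hη hr hb hC hm hg
  | cons a A ih =>
    intro C hA hC hg hm
    have hA' : Wn c A := fun u hu => hA u (List.mem_cons_of_mem _ hu)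
    have hAC : Wn c (A ++ C) := by
      intro u hu
      rcases List.mem_append.1 hu with hu | hu
      · exact hA' u hu
      · exact (hC u hu).trans (by linarith)
    have hz : ((c : ℂ) * I) ∈ Win c := by
      show |((c : ℂ) * I).im - c| < 5 * Real.pi / 6
      simp
      positivity
    have key := win_ext (c := c) (f := fun v => b ((v :: (A ++ C)).map xx))
      (g := fun v => (2 / 3) ^ m * PP u2 (v :: (A ++ C)) * gas (fun x => Lam (v :: (A ++ C)) (ln c x)))
      ?_ ?_ hz ?_ a (hA a List.mem_cons_self)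
    · exact key
    · simp only [List.map_cons]
      exact (b_row hb _).differentiableOn
    · simp only [PP_cons]
      refine DifferentiableOn.mul (DifferentiableOn.const_mul ?_ _) (gas_row hG hAC)
      exact (u2row_diff hAC).mul_const _
    · have h1 := gen_ev hη hg ((c : ℂ) * I)
      have h2 : ∀ᶠ z in 𝓝[≠] ((c : ℂ) * I), |z.im - c| < Real.pi / 2 := by
        have h3 : IsOpen {z : ℂ | |z.im - c| < Real.pi / 2} := by
          have : {z : ℂ | |z.im - c| < Real.pi / 2} = (fun v : ℂ => |v.im - c|) ⁻¹' Set.Iio (Real.pi / 2) := rfl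
          rw [this]
          exact isOpen_Iio.preimage (by fun_prop)
        refine nhdsWithin_le_nhds (h3.mem_nhds ?_)
        simp
        positivity
      filter_upwards [h1, h2] with z hz1 hz2
      have h3 := ih (z :: C) hA' (fun v hv => by
        rcases List.mem_cons.1 hv with rfl | hv
        · exact hz2
        · exact hC v hv) (by rw [List.map_cons]; exact hz1)
        (by simp only [List.cons_append, List.length_append, List.length_cons] at hm ⊢; omega)
      have hp : (A ++ z :: C).Perm (z :: (A ++ C)) := List.perm_middle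
      rw [hb.perm (hp.map xx), PP_perm u2_symm hp] at h3
      rw [h3]
      congr 2
      funext x
      unfold Lam
      exact (hp.map _).prod_eq

/-! ### odd lists: fusion -/

/-- `√(2/3)` -/
def KK : ℂ := ((Real.sqrt 2 : ℝ) : ℂ) / ((Real.sqrt 3 : ℝ) : ℂ)

theorem s2_sq : ((Real.sqrt 2 : ℝ) : ℂ) ^ 2 = 2 := by
  rw [← ofReal_pow, Real.sq_sqrt (by norm_num)]
  norm_num

theorem s3_sq : ((Real.sqrt 3 : ℝ) : ℂ) ^ 2 = 3 := by
  rw [← ofReal_pow, Real.sq_sqrt (by norm_num)]
  norm_num

theorem s2_ne : ((Real.sqrt 2 : ℝ) : ℂ) ≠ 0 := by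
  intro h
  have := s2_sq
  rw [h] at this
  norm_num at this

theorem s3_ne : ((Real.sqrt 3 : ℝ) : ℂ) ≠ 0 := by
  intro h
  have := s3_sq
  rw [h] at this
  norm_num at this

theorem KK_sq : KK ^ 2 = 2 / 3 := by
  unfold KK
  rw [div_pow, s2_sq, s3_sq]

theorem KK_ne : KK ≠ 0 := div_ne_zero s2_ne s3_ne

/-- `exp (i π / 4)` and its inverse are the only values of `η` -/
theorem eta_cases {η : ℂ} (hη : η ^ 4 = -1) (hr : η - η ^ 3 = ((Real.sqrt 2 : ℝ) : ℂ)) :
    η = xx (2 * a6) ∨ η = xx (-(2 * a6)) := by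
  have e1 : xx (2 * a6) * xx (-(2 * a6)) = 1 := by
    unfold xx
    rw [← exp_add]
    have : 3 * (2 * a6) / 4 + 3 * (-(2 * a6)) / 4 = 0 := by ring
    rw [this, exp_zero]
  have e2 : xx (2 * a6) + xx (-(2 * a6)) = ((Real.sqrt 2 : ℝ) : ℂ) := by
    have h1 : xx (2 * a6) + xx (-(2 * a6)) = 2 * cosh (((Real.pi / 4 : ℝ) : ℂ) * I) := by
      unfold xx cosh a6
      have a1 : 3 * (2 * (((Real.pi / 6 : ℝ) : ℂ) * I)) / 4 = ((Real.pi / 4 : ℝ) : ℂ) * I := by
        push_cast; ring
      have a2 : 3 * (-(2 * (((Real.pi / 6 : ℝ) : ℂ) * I))) / 4 = -(((Real.pi / 4 : ℝ) : ℂ) * I) := by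
        push_cast; ring
      rw [a1, a2]
      ring
    rw [h1, cosh_mul_I, ← ofReal_cos, Real.cos_pi_div_four]
    push_cast
    ring
  have h1 : (η - xx (2 * a6)) * (η - xx (-(2 * a6))) = 0 := by
    have h2 : η ^ 2 + 1 = ((Real.sqrt 2 : ℝ) : ℂ) * η := by linear_combination η * hr + hη
    linear_combination h2 - η * e2 + e1
  rcases mul_eq_zero.1 h1 with h | h
  · exact Or.inl (sub_eq_zero.1 h)
  · exact Or.inr (sub_eq_zero.1 h)

/-- the fusion of two rows at distance `2 i π / 3` -/
theorem fuse_pair {η : ℂ} (hη : η ^ 4 = -1) (hr : η - η ^ 3 = ((Real.sqrt 2 : ℝ) : ℂ))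
    {b : List ℂ → ℂ} (hb : BT η (1 + η ^ 3) (1 + η ^ 2) b) (v : ℂ) (X : List ℂ) :
    b (xx (v + 2 * a6) :: xx (v - 2 * a6) :: X) =
      ((Real.sqrt 2 : ℝ) : ℂ) * xx v * (X.map fun x => x + xx v).prod * b (xx v :: X) := by
  have a1 : xx (v + 2 * a6) = xx (2 * a6) * xx v := by
    unfold xx
    rw [← exp_add]
    congr 1
    ring
  have a2 : xx (v - 2 * a6) = xx (-(2 * a6)) * xx v := by
    unfold xx
    rw [← exp_add]
    congr 1
    ring
  have e1 : xx (2 * a6) * xx (-(2 * a6)) = 1 := by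
    unfold xx
    rw [← exp_add]
    have : 3 * (2 * a6) / 4 + 3 * (-(2 * a6)) / 4 = 0 := by ring
    rw [this, exp_zero]
  have h2 : η ^ 2 + 1 = ((Real.sqrt 2 : ℝ) : ℂ) * η := by linear_combination η * hr + hη
  rcases eta_cases hη hr with h | h
  · have hf := hb.fuse (xx (-(2 * a6)) * xx v) X
    have e2 : η ^ 2 * (xx (-(2 * a6)) * xx v) = xx (2 * a6) * xx v := by
      rw [h]; linear_combination xx (2 * a6) * xx v * e1
    have e3 : η * (xx (-(2 * a6)) * xx v) = xx v := by
      rw [h]; linear_combination xx v * e1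
    rw [e2, e3] at hf
    rw [a1, a2, hf]
    have e4 : (1 + η ^ 2) * (xx (-(2 * a6)) * xx v) = ((Real.sqrt 2 : ℝ) : ℂ) * xx v := by
      calc (1 + η ^ 2) * (xx (-(2 * a6)) * xx v) = ((Real.sqrt 2 : ℝ) : ℂ) * (η * (xx (-(2 * a6)) * xx v)) := by
            linear_combination (xx (-(2 * a6)) * xx v) * h2
        _ = _ := by rw [e3]
    rw [e4]
  · have hf := hb.fuse (xx (2 * a6) * xx v) X
    have e2 : η ^ 2 * (xx (2 * a6) * xx v) = xx (-(2 * a6)) * xx v := by
      rw [h]; linear_combination xx (-(2 * a6)) * xx v * e1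
    have e3 : η * (xx (2 * a6) * xx v) = xx v := by
      rw [h]; linear_combination xx v * e1
    rw [e2, e3] at hf
    rw [a1, a2, hb.perm (List.Perm.swap _ _ _), hf]
    have e4 : (1 + η ^ 2) * (xx (2 * a6) * xx v) = ((Real.sqrt 2 : ℝ) : ℂ) * xx v := by
      calc (1 + η ^ 2) * (xx (2 * a6) * xx v) = ((Real.sqrt 2 : ℝ) : ℂ) * (η * (xx (2 * a6) * xx v)) := by
            linear_combination (xx (2 * a6) * xx v) * h2
        _ = _ := by rw [e3]
    rw [e4]

/-- the pair factor at the distance `2 i π / 3` -/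
theorem ku_4a6 : ku (4 * a6) = ((Real.sqrt 3 : ℝ) : ℂ) := by
  have c4 : cosh (4 * a6 / 4) = ((Real.sqrt 3 : ℝ) : ℂ) / 2 := by
    have e : 4 * a6 / 4 = ((Real.pi / 6 : ℝ) : ℂ) * I := by unfold a6; ring
    rw [e, cosh_mul_I, ← ofReal_cos, Real.cos_pi_div_six]
    push_cast
    ring
  have c8 : cosh (4 * a6 / 8) = ((Real.sqrt 2 : ℝ) : ℂ) * (((Real.sqrt 3 : ℝ) : ℂ) + 1) / 4 := by
    have := cosh_b
    rwa [show 2 * a6 / 4 = 4 * a6 / 8 by ring] at this
  have h5 : S5 (4 * a6) := by
    show |(4 * a6).im| < 5 * Real.pi / 3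
    have : (4 * a6).im = 2 * Real.pi / 3 := by
      unfold a6
      simp
      ring
    have hp := Real.pi_pos
    rw [this, abs_of_pos (by positivity)]
    linarith
  have h1 := ku_mul_den h5
  have h2 := ku_den h5
  refine mul_right_cancel₀ h2 (h1.trans ?_)
  rw [c4, c8]
  have hs := s3_sq
  have hr := s2_sq
  set s := ((Real.sqrt 3 : ℝ) : ℂ)
  set r := ((Real.sqrt 2 : ℝ) : ℂ)
  linear_combination (s * (s + 1) * (r / 2)) * hs + (s * (s + 1) * (s / 2)) * hr

theorem tau_fuse {z : ℂ} (h : |z.im| < Real.pi / 2) : tau (z + 2 * a6) * tau (z - 2 * a6) = tau z := by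
  have hp := Real.pi_pos
  obtain ⟨h1, h2⟩ := abs_lt.1 h
  have a6i : a6.im = Real.pi / 6 := a6_im
  have ca : cosh ((z + 3 * a6) / 2) ≠ 0 := by
    refine ne_of_re ?_
    have e : ((z + 3 * a6) / 2).im = (z.im + Real.pi / 2) / 2 := by
      have : (3 * a6).im = Real.pi / 2 := by
        unfold a6
        simp
        ring
      rw [Complex.div_ofNat_im, Complex.add_im, this]
    rw [cosh_re, e]
    exact mul_pos (Real.cosh_pos _) (Real.cos_pos_of_mem_Ioo ⟨by linarith, by linarith⟩)
  have cb : cosh ((z - 3 * a6) / 2) ≠ 0 := by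
    refine ne_of_re ?_
    have e : ((z - 3 * a6) / 2).im = (z.im - Real.pi / 2) / 2 := by
      have : (3 * a6).im = Real.pi / 2 := by
        unfold a6
        simp
        ring
      rw [Complex.div_ofNat_im, Complex.sub_im, this]
    rw [cosh_re, e]
    exact mul_pos (Real.cosh_pos _) (Real.cos_pos_of_mem_Ioo ⟨by linarith, by linarith⟩)
  have key : t (z + 3 * a6) * t (z - 3 * a6) = 1 := by
    unfold t
    rw [tanh_eq_sinh_div_cosh, tanh_eq_sinh_div_cosh, div_mul_div_comm, div_eq_one_iff_eq (mul_ne_zero ca cb)]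
    have h3 := Complex.cosh_sub ((z + 3 * a6) / 2) ((z - 3 * a6) / 2)
    have e : (z + 3 * a6) / 2 - (z - 3 * a6) / 2 = ((Real.pi / 2 : ℝ) : ℂ) * I := by
      unfold a6
      push_cast
      ring
    rw [e, cosh_mul_I, ← ofReal_cos, Real.cos_pi_div_two, ofReal_zero] at h3
    linear_combination h3
  unfold tau
  rw [show z + 2 * a6 + a6 = z + 3 * a6 by ring, show z + 2 * a6 - a6 = z + a6 by ring,
    show z - 2 * a6 + a6 = z - a6 by ring, show z - 2 * a6 - a6 = z - 3 * a6 by ring]
  linear_combination (t (z + a6) * t (z - a6)) * key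

/-- the first row at distance `< π / 2` -/
theorem bod_odd0 {η : ℂ} (hG : GHol) (hη : η ^ 4 = -1) (hr : η - η ^ 3 = ((Real.sqrt 2 : ℝ) : ℂ))
    {b : List ℂ → ℂ} (hb : BT η (1 + η ^ 3) (1 + η ^ 2) b) {c : ℝ} {m : ℕ} {v : ℂ} {L : List ℂ}
    (hv : |v.im - c| < Real.pi / 2) (hL : Wn c L) (hm : (v :: L).length = 2 * m + 1) :
    b ((v :: L).map xx) = KK ^ (2 * m + 1) * PP u2 (v :: L) * gas (fun x => Lam (v :: L) (ln c x)) := by
  have hp := Real.pi_pos
  have ha : (2 * a6).im = Real.pi / 3 := by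
    unfold a6
    simp
    ring
  obtain ⟨hv1, hv2⟩ := abs_lt.1 hv
  have hW : Wn c ((v + 2 * a6) :: (v - 2 * a6) :: L) := by
    intro u hu
    rcases List.mem_cons.1 hu with rfl | hu
    · rw [Complex.add_im, ha, abs_lt]
      constructor <;> linarith
    rcases List.mem_cons.1 hu with rfl | hu
    · rw [Complex.sub_im, ha, abs_lt]
      constructor <;> linarith
    · exact hL u hu
  have h1 := bod_even hG hη hr hb (m := m + 1) ((v + 2 * a6) :: (v - 2 * a6) :: L) [] hW (by simp)
    ⟨by simp, by simp⟩ (by simp only [List.append_nil, List.length_cons] at hm ⊢; omega)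
  rw [List.append_nil, List.map_cons, List.map_cons, fuse_pair hη hr hb] at h1
  have hLam : (fun x => Lam ((v + 2 * a6) :: (v - 2 * a6) :: L) (ln c x)) = fun x => Lam (v :: L) (ln c x) := by
    funext x
    rw [Lam_cons, Lam_cons, Lam_cons]
    have h2 := tau_fuse (z := v - ln c x) (by rw [Complex.sub_im, ln_im]; exact hv)
    rw [show v + 2 * a6 - ln c x = v - ln c x + 2 * a6 by ring,
      show v - 2 * a6 - ln c x = v - ln c x - 2 * a6 by ring]
    linear_combination Lam L (ln c x) * h2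
  have hdiff : ∀ w ∈ L, |(v - w).im| < 4 * Real.pi / 3 := by
    intro w hw
    obtain ⟨b1, b2⟩ := abs_lt.1 (hL w hw)
    rw [Complex.sub_im, abs_lt]
    constructor <;> linarith
  have hu : PP u2 ((v + 2 * a6) :: (v - 2 * a6) :: L) =
      (xx v * ((Real.sqrt 3 : ℝ) : ℂ)) * ((L.map xx).map fun x => x + xx v).prod * PP u2 (v :: L) := by
    rw [PP_cons, PP_cons, PP_cons, List.map_cons, List.prod_cons]
    have e1 : u2 (v + 2 * a6) (v - 2 * a6) = xx v * ((Real.sqrt 3 : ℝ) : ℂ) := by
      unfold u2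
      rw [show v + 2 * a6 - (v - 2 * a6) = 4 * a6 by ring, ku_4a6]
      congr 1
      unfold xx
      congr 1
      ring
    have e2 : (L.map (u2 (v + 2 * a6))).prod * (L.map (u2 (v - 2 * a6))).prod =
        ((L.map xx).map fun x => x + xx v).prod * (L.map (u2 v)).prod := by
      rw [← List.prod_map_mul, List.map_map, ← List.prod_map_mul]
      congr 1
      refine List.map_congr_left fun w hw => ?_
      have h3 := hdiff w hw
      obtain ⟨b1, b2⟩ := abs_lt.1 h3
      refine u2_fuse (h3.trans (by linarith)) ?_ ?_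
      · show |(v - w + 2 * a6).im| < 5 * Real.pi / 3
        rw [Complex.add_im, ha, abs_lt]
        constructor <;> linarith
      · show |(v - w - 2 * a6).im| < 5 * Real.pi / 3
        rw [Complex.sub_im, ha, abs_lt]
        constructor <;> linarith
    rw [e1]
    linear_combination (xx v * ((Real.sqrt 3 : ℝ) : ℂ) * PP u2 L) * e2
  rw [hLam, hu] at h1
  have hne : ((L.map xx).map fun x => x + xx v).prod ≠ 0 := by
    intro hz
    rw [List.prod_eq_zero_iff, List.mem_map] at hz
    obtain ⟨x, hx, h0⟩ := hz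
    obtain ⟨w, hw, rfl⟩ := List.mem_map.1 hx
    have e1 : exp (3 * (w - v) / 4) = -1 := by
      have e2 : xx w = -xx v := by linear_combination h0
      have e3 : xx w = exp (3 * (w - v) / 4) * xx v := by
        unfold xx
        rw [← exp_add]
        congr 1
        ring
      rw [e3] at e2
      refine mul_right_cancel₀ (xx_ne v) ?_
      rw [e2]
      ring
    rw [← Complex.exp_pi_mul_I, Complex.exp_eq_exp_iff_exists_int] at e1
    obtain ⟨n, hn⟩ := e1
    have h3 := congrArg Complex.im hn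
    have h4 : (3 * (w - v) / 4).im = 3 * (w.im - v.im) / 4 := by
      rw [Complex.div_ofNat_im]
      simp
    have h5 : ((Real.pi : ℂ) * I + (n : ℂ) * (2 * Real.pi * I)).im = Real.pi + n * (2 * Real.pi) := by
      simp
    rw [h4, h5] at h3
    have h6 := hdiff w hw
    rw [Complex.sub_im, abs_lt] at h6
    obtain ⟨b1, b2⟩ := h6
    have h7 : (-1 : ℝ) < 1 + 2 * n := by
      by_contra hc
      push Not at hc
      nlinarith
    have h8 : (1 + 2 * n : ℝ) < 1 := by
      by_contra hc
      push Not at hc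
      nlinarith
    have h9 : (-1 : ℤ) < 1 + 2 * n := by exact_mod_cast h7
    have h10 : (1 + 2 * n : ℤ) < 1 := by exact_mod_cast h8
    omega
  have hs2 := s2_ne
  have hs3 := s3_ne
  have hx := xx_ne v
  have hK : KK ^ (2 * m + 1) * ((Real.sqrt 2 : ℝ) : ℂ) = (2 / 3) ^ (m + 1) * ((Real.sqrt 3 : ℝ) : ℂ) := by
    have e1 : KK ^ (2 * m + 1) * KK = (2 / 3) ^ (m + 1) := by
      rw [← pow_succ, show 2 * m + 1 + 1 = 2 * (m + 1) by ring, pow_mul, KK_sq]
    rw [← e1]
    have e2 : KK * ((Real.sqrt 3 : ℝ) : ℂ) = ((Real.sqrt 2 : ℝ) : ℂ) := by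
      unfold KK
      exact div_mul_cancel₀ _ hs3
    rw [mul_assoc, e2]
  refine mul_left_cancel₀ (mul_ne_zero (mul_ne_zero hs2 hx) hne) ?_
  rw [List.map_cons, h1]
  linear_combination (-(xx v * ((L.map xx).map fun x => x + xx v).prod * PP u2 (v :: L) *
    gas fun x => Lam (v :: L) (ln c x))) * hK

/-- **the two state sum in every window** -/
theorem bod {η : ℂ} (hG : GHol) (hη : η ^ 4 = -1) (hr : η - η ^ 3 = ((Real.sqrt 2 : ℝ) : ℂ))
    {b : List ℂ → ℂ} (hb : BT η (1 + η ^ 3) (1 + η ^ 2) b) {c : ℝ} {V : List ℂ} (hV : Wn c V) :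
    b (V.map xx) = KK ^ V.length * PP u2 V * gas (fun x => Lam V (ln c x)) := by
  have hpi := Real.pi_pos
  rcases Nat.even_or_odd' V.length with ⟨m, hm | hm⟩
  · have h1 := bod_even hG hη hr hb (m := m) V [] hV (by simp) ⟨by simp, by simp⟩
      (by rw [List.append_nil]; exact hm)
    rw [List.append_nil] at h1
    rw [h1, hm, pow_mul, KK_sq]
  · match V, hV, hm with
    | [], _, hm => simp at hm
    | v :: L, hV, hm =>
      have hL : Wn c L := fun u hu => hV u (List.mem_cons_of_mem _ hu)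
      have hz : ((c : ℂ) * I) ∈ Win c := by
        show |((c : ℂ) * I).im - c| < 5 * Real.pi / 6
        simp
        positivity
      rw [hm]
      refine win_ext (c := c) (f := fun v => b ((v :: L).map xx))
        (g := fun v => KK ^ (2 * m + 1) * PP u2 (v :: L) * gas (fun x => Lam (v :: L) (ln c x)))
        ?_ ?_ hz ?_ v (hV v List.mem_cons_self)
      · simp only [List.map_cons]
        exact (b_row hb _).differentiableOn
      · simp only [PP_cons]
        refine DifferentiableOn.mul (DifferentiableOn.const_mul ?_ _) (gas_row hG hL)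
        exact (u2row_diff hL).mul_const _
      · have h3 : IsOpen {z : ℂ | |z.im - c| < Real.pi / 2} := by
          have : {z : ℂ | |z.im - c| < Real.pi / 2} = (fun v : ℂ => |v.im - c|) ⁻¹' Set.Iio (Real.pi / 2) := rfl
          rw [this]
          exact isOpen_Iio.preimage (by fun_prop)
        have h2 : ∀ᶠ z in 𝓝[≠] ((c : ℂ) * I), |z.im - c| < Real.pi / 2 := by
          refine nhdsWithin_le_nhds (h3.mem_nhds ?_)
          simp
          positivity
        filter_upwards [h2] with z hz2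
        exact bod_odd0 hG hη hr hb hz2 hL hm

end DRX

end
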