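import Pool.Agent.DRX.Move

/-!
# DUAL-R, exact side (helper2): a real parameter in the operators (continuity only)

`CZ U K G`: `G z X Y` continuous in all variables, bounded on lists of fixed lengths in `K`; `FC`: weights.
-/

set_option autoImplicit false

noncomputable section

open Complex MeasureTheory Filter Topology

namespace DRX

open DUA DUA.Pf

/-- functions of a parameter and two lists -/
structure CZ {T : Type*} [TopologicalSpace T] (U : Set T) (K : Set ℂ) (G : T → List ℂ → List ℂ → ℂ) : Prop where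
  /-- continuity -/
  cont : ∀ p q : ℕ, ContinuousOn (fun z : T × (Fin p → ℂ) × (Fin q → ℂ) => G z.1 (List.ofFn z.2.1) (List.ofFn z.2.2))
    {z | z.1 ∈ U ∧ (∀ i, z.2.1 i ∈ K) ∧ ∀ j, z.2.2 j ∈ K}
  /-- bound -/
  bdd : ∀ p q : ℕ, ∃ M : ℝ, ∀ z ∈ U, ∀ (x : Fin p → ℂ) (y : Fin q → ℂ), (∀ i, x i ∈ K) → (∀ j, y j ∈ K) →
    ‖G z (List.ofFn x) (List.ofFn y)‖ ≤ M

/-- weights with a parameter -/
structure FC {T : Type*} [TopologicalSpace T] (U : Set T) (r : Fin 3 → ℝ) (f : T → ℂ → ℂ) : Prop where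
  /-- continuity -/
  cont : ∀ i, ContinuousOn (fun q : T × ℝ => f q.1 (sp r i q.2)) {q | q.1 ∈ U}
  /-- decay -/
  bdd : ∃ W : ℝ, ∀ z ∈ U, ∀ i t, ‖f z (sp r i t)‖ ≤ W * Real.exp (-|t|)

lemma FC.pow {T : Type*} [TopologicalSpace T] {U : Set T} {r : Fin 3 → ℝ} {f : T → ℂ → ℂ} (h : FC U r f) (j : ℕ) :
    FC U r fun z s => f z s ^ (j + 1) := by
  refine ⟨fun i => (h.cont i).pow _, ?_⟩
  obtain ⟨W, hW⟩ := h.bdd
  refine ⟨|W| ^ (j + 1), fun z hz i t => ?_⟩
  have h1 := hW z hz i t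
  have h2 : W * Real.exp (-|t|) ≤ |W| * Real.exp (-|t|) := by
    gcongr
    exact le_abs_self W
  have h3 : Real.exp (-|t|) ^ (j + 1) ≤ Real.exp (-|t|) := by
    have h4 : Real.exp (-|t|) ≤ 1 := Real.exp_le_one_iff.2 (by simp)
    exact pow_le_of_le_one (Real.exp_pos _).le h4 (by omega)
  rw [norm_pow]
  calc ‖f z (sp r i t)‖ ^ (j + 1) ≤ (|W| * Real.exp (-|t|)) ^ (j + 1) := by
        gcongr
        exact h1.trans h2
    _ = |W| ^ (j + 1) * Real.exp (-|t|) ^ (j + 1) := mul_pow _ _ _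
    _ ≤ |W| ^ (j + 1) * Real.exp (-|t|) := by gcongr

/-- swap of the two lists -/
lemma CZ.flip {T : Type*} [TopologicalSpace T] {U : Set T} {K : Set ℂ} {G : T → List ℂ → List ℂ → ℂ}
    (h : CZ U K G) : CZ U K fun z X Y => G z Y X := by
  refine ⟨fun p q => ?_, fun p q => ?_⟩
  · have h1 : ContinuousOn (fun z : T × (Fin p → ℂ) × (Fin q → ℂ) => ((z.1, z.2.2, z.2.1) : T × (Fin q → ℂ) × (Fin p → ℂ)))
        {z | z.1 ∈ U ∧ (∀ i, z.2.1 i ∈ K) ∧ ∀ j, z.2.2 j ∈ K} := by fun_prop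
    exact (h.cont q p).comp h1 fun z hz => ⟨hz.1, hz.2.2, hz.2.1⟩
  · obtain ⟨M, hM⟩ := h.bdd q p
    exact ⟨M, fun z hz x y hx hy => hM z hz y x hy hx⟩

/-- **the operator keeps the class** -/
theorem CZ.aop {T : Type*} [TopologicalSpace T] [FirstCountableTopology T] {U : Set T} {K : Set ℂ}
    {G : T → List ℂ → List ℂ → ℂ} (h : CZ U K G) {r : Fin 3 → ℝ} {e0 : ℝ}
    (he : 0 < e0) (hs : StIn K r e0) {f : T → ℂ → ℂ} (hf : FC U r f) :
    CZ U K fun z X Y => Aop r e0 (f z) (fun X' => G z X' Y) X := by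
  obtain ⟨W, hW⟩ := hf.bdd
  -- the integrand
  have key : ∀ (p q : ℕ) (i : Fin 3), ∃ B : ℝ × ℝ → ℝ, Integrable B m0 ∧
      (∀ z ∈ U, ∀ (x : Fin p → ℂ) (y : Fin q → ℂ), (∀ a, x a ∈ K) → (∀ b, y b ∈ K) → ∀ s : ℝ × ℝ,
        ‖f z (sp r i s.1) * (2 * Real.pi * circleMap 0 e0 s.2)⁻¹ * G z (st r e0 i s (List.ofFn x)) (List.ofFn y)‖ ≤ B s) := by
    intro p q i
    obtain ⟨M, hM⟩ := h.bdd (p + 2) q
    refine ⟨fun s => |W| * (2 * Real.pi * e0)⁻¹ * |M| * Real.exp (-|s.1|), ?_, fun z hz x y hx hy s => ?_⟩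
    · exact hz_int_exp.const_mul _
    · have h1 := hM z hz (Fin.cons (vp r i s.1) (Fin.cons (hz_fp r e0 i s) x)) y
        (hz_cons_in (hs i s.1 s.2).1 (hz_cons_in (hs i s.1 s.2).2 hx)) hy
      rw [← st_ofFn] at h1
      have h2 := hW z hz i s.1
      have h3 : ‖(2 * (Real.pi : ℂ) * circleMap 0 e0 s.2)⁻¹‖ = (2 * Real.pi * e0)⁻¹ := by
        rw [norm_inv, norm_mul, norm_mul, norm_circleMap_zero, Complex.norm_real, Real.norm_of_nonneg Real.pi_pos.le,
          abs_of_pos he]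
        simp
      rw [norm_mul, norm_mul, h3]
      have h4 : ‖f z (sp r i s.1)‖ ≤ |W| * Real.exp (-|s.1|) :=
        h2.trans (mul_le_mul_of_nonneg_right (le_abs_self W) (Real.exp_pos _).le)
      have h5 : ‖G z (st r e0 i s (List.ofFn x)) (List.ofFn y)‖ ≤ |M| := h1.trans (le_abs_self M)
      calc ‖f z (sp r i s.1)‖ * (2 * Real.pi * e0)⁻¹ * ‖G z (st r e0 i s (List.ofFn x)) (List.ofFn y)‖
          ≤ (|W| * Real.exp (-|s.1|)) * (2 * Real.pi * e0)⁻¹ * |M| := by gcongr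
        _ = |W| * (2 * Real.pi * e0)⁻¹ * |M| * Real.exp (-|s.1|) := by ring
  have hcirc : Continuous fun s : ℝ × ℝ => (2 * (Real.pi : ℂ) * circleMap 0 e0 s.2)⁻¹ := by
    refine Continuous.inv₀ ?_ fun s => ?_
    · exact continuous_const.mul ((continuous_circleMap 0 e0).comp continuous_snd)
    · refine mul_ne_zero (by simp [Real.pi_ne_zero]) ?_
      exact circleMap_ne_center he.ne'
  have hmeas : ∀ (p q : ℕ) (i : Fin 3), ∀ z ∈ U, ∀ (x : Fin p → ℂ) (y : Fin q → ℂ), (∀ a, x a ∈ K) → (∀ b, y b ∈ K) →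
      AEStronglyMeasurable (fun s : ℝ × ℝ => f z (sp r i s.1) * (2 * Real.pi * circleMap 0 e0 s.2)⁻¹ *
        G z (st r e0 i s (List.ofFn x)) (List.ofFn y)) m0 := by
    intro p q i z hz x y hx hy
    refine Continuous.aestronglyMeasurable ?_
    refine (Continuous.mul ?_ hcirc).mul ?_
    · exact (hf.cont i).comp_continuous (f := fun s : ℝ × ℝ => (z, s.1)) (by fun_prop) fun s => hz
    · have h1 := (h.cont (p + 2) q).comp_continuous (f := fun s : ℝ × ℝ => (z, ((Fin.cons (vp r i s.1)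
        (Fin.cons (hz_fp r e0 i s) x : Fin (p + 1) → ℂ) : Fin (p + 2) → ℂ), y)))
        (continuous_const.prodMk ((hz_cont_cons (hz_cont_vp r i) (hz_cont_cons (hz_cont_fp r e0 i) continuous_const)).prodMk
          continuous_const)) fun s => ⟨hz, hz_cons_in (hs i s.1 s.2).1 (hz_cons_in (hs i s.1 s.2).2 hx), hy⟩
      refine h1.congr fun s => ?_
      simp only [Function.comp, st_ofFn]
  refine ⟨fun p q => ?_, fun p q => ?_⟩
  · unfold Aop
    refine continuousOn_finsetSum _ fun i _ => ContinuousOn.mul continuousOn_const ?_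
    obtain ⟨B, hB, hb⟩ := key p q i
    intro a ha
    refine continuousWithinAt_of_dominated (bound := B) ?_ ?_ hB ?_
    · refine eventually_nhdsWithin_of_forall fun z hz => ?_
      exact hmeas p q i z.1 hz.1 z.2.1 z.2.2 hz.2.1 hz.2.2
    · refine eventually_nhdsWithin_of_forall fun z hz => ?_
      exact ae_of_all _ fun s => hb z.1 hz.1 z.2.1 z.2.2 hz.2.1 hz.2.2 s
    · refine ae_of_all _ fun s => ?_
      have c1 : ContinuousWithinAt (fun z : T × (Fin p → ℂ) × (Fin q → ℂ) => f z.1 (sp r i s.1))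
          {z | z.1 ∈ U ∧ (∀ i, z.2.1 i ∈ K) ∧ ∀ j, z.2.2 j ∈ K} a := by
        refine ((hf.cont i) (a.1, s.1) ha.1).comp (f := fun z : T × (Fin p → ℂ) × (Fin q → ℂ) => (z.1, s.1)) ?_ fun z hz => hz.1
        exact (by fun_prop : Continuous fun z : T × (Fin p → ℂ) × (Fin q → ℂ) => (z.1, s.1)).continuousWithinAt
      have c2 : ContinuousWithinAt (fun z : T × (Fin p → ℂ) × (Fin q → ℂ) => G z.1 (st r e0 i s (List.ofFn z.2.1))
          (List.ofFn z.2.2)) {z | z.1 ∈ U ∧ (∀ i, z.2.1 i ∈ K) ∧ ∀ j, z.2.2 j ∈ K} a := by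
        have h1 : Continuous fun z : T × (Fin p → ℂ) × (Fin q → ℂ) => (z.1, ((Fin.cons (vp r i s.1)
            (Fin.cons (hz_fp r e0 i s) z.2.1 : Fin (p + 1) → ℂ) : Fin (p + 2) → ℂ), z.2.2)) :=
          continuous_fst.prodMk ((hz_cont_cons continuous_const (hz_cont_cons continuous_const
            (continuous_fst.comp continuous_snd))).prodMk (continuous_snd.comp continuous_snd))
        have h2 := ((h.cont (p + 2) q) _ ⟨ha.1, hz_cons_in (hs i s.1 s.2).1 (hz_cons_in (hs i s.1 s.2).2 ha.2.1), ha.2.2⟩).comp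
          (f := fun z : T × (Fin p → ℂ) × (Fin q → ℂ) => (z.1, ((Fin.cons (vp r i s.1)
            (Fin.cons (hz_fp r e0 i s) z.2.1 : Fin (p + 1) → ℂ) : Fin (p + 2) → ℂ), z.2.2)))
          (s := {z | z.1 ∈ U ∧ (∀ i, z.2.1 i ∈ K) ∧ ∀ j, z.2.2 j ∈ K})
          (h1.continuousWithinAt (x := a))
          fun z hz => ⟨hz.1, hz_cons_in (hs i s.1 s.2).1 (hz_cons_in (hs i s.1 s.2).2 hz.2.1), hz.2.2⟩
        refine h2.congr (fun z _ => ?_) ?_
        · simp only [Function.comp, st_ofFn]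
        · simp only [Function.comp, st_ofFn]
      exact (c1.mul continuousWithinAt_const).mul c2
  · choose B hB hb using fun i => key p q i
    refine ⟨∑ i : Fin 3, ‖kc i‖ * ∫ s, B i s ∂m0, fun z hz x y hx hy => ?_⟩
    unfold Aop
    refine (norm_sum_le _ _).trans (Finset.sum_le_sum fun i _ => ?_)
    rw [norm_mul]
    refine mul_le_mul_of_nonneg_left ?_ (norm_nonneg _)
    exact norm_integral_le_of_norm_le (hB i) (ae_of_all _ fun s => hb i z hz x y hx hy s)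

lemma CZ.const_mul {T : Type*} [TopologicalSpace T] {U : Set T} {K : Set ℂ} {G : T → List ℂ → List ℂ → ℂ}
    (h : CZ U K G) (c : ℂ) : CZ U K fun z X Y => c * G z X Y := by
  refine ⟨fun p q => (h.cont p q).const_mul c, fun p q => ?_⟩
  obtain ⟨M, hM⟩ := h.bdd p q
  refine ⟨‖c‖ * M, fun z hz x y hx hy => ?_⟩
  rw [norm_mul]
  exact mul_le_mul_of_nonneg_left (hM z hz x y hx hy) (norm_nonneg _)

lemma CZ.sum {T : Type*} [TopologicalSpace T] {U : Set T} {K : Set ℂ} {ι : Type*} (s : Finset ι)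
    {G : ι → T → List ℂ → List ℂ → ℂ} (h : ∀ i ∈ s, CZ U K (G i)) : CZ U K fun z X Y => ∑ i ∈ s, G i z X Y := by
  refine ⟨fun p q => continuousOn_finsetSum _ fun i hi => (h i hi).cont p q, fun p q => ?_⟩
  choose! M hM using fun i (hi : i ∈ s) => (h i hi).bdd p q
  refine ⟨∑ i ∈ s, M i, fun z hz x y hx hy => ?_⟩
  exact (norm_sum_le _ _).trans (Finset.sum_le_sum fun i hi => hM i hi z hz x y hx hy)

/-- **the operators on the first list** -/
theorem CZ.wopX {T : Type*} [TopologicalSpace T] [FirstCountableTopology T] {U : Set T} {K : Set ℂ}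
    {G : T → List ℂ → List ℂ → ℂ} (h : CZ U K G) {r : Fin 3 → ℝ} {e0 : ℝ}
    (he : 0 < e0) (hs : StIn K r e0) {f : T → ℂ → ℂ} (hf : FC U r f) :
    ∀ k, CZ U K fun z X Y => WX r e0 (f z) k (G z) X Y := by
  intro k
  induction k using Nat.strong_induction_on with
  | _ k ih =>
    rcases k with _ | k
    · simp only [WX, Wop_zero]
      exact h
    · simp only [WX, Wop_succ]
      refine CZ.const_mul (CZ.sum _ fun j _ => CZ.const_mul ?_ _) _
      exact (ih (k - j) (by omega)).aop he hs (hf.pow j)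

/-- **the operators on the second list** -/
theorem CZ.wopY {T : Type*} [TopologicalSpace T] [FirstCountableTopology T] {U : Set T} {K : Set ℂ}
    {G : T → List ℂ → List ℂ → ℂ} (h : CZ U K G) {r : Fin 3 → ℝ} {e0 : ℝ}
    (he : 0 < e0) (hs : StIn K r e0) {f : T → ℂ → ℂ} (hf : FC U r f) (k : ℕ) :
    CZ U K fun z X Y => WY r e0 (f z) k (G z) X Y :=
  (h.flip.wopX he hs hf k).flip

end DRX

end
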