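import Pool.Agent.DUA.Gas

/-!
# DUAL-R, exact side: definitions (doc nu34/R5_71 v3)

DUA coordinates: `Im v` = place (`l = π / 3`), `Re v` = height; `x + 3` is `v + i π`.

* `Stp c d` closed strip, `Kc A` the class `K(A)`;
* `Fun f c Ψ`: the one sided functional (A1), (A3), (A4); `FunS`: all windows, with (A2);
* `FH F`: the hypotheses on the two sided function;
* `Aop`, `Wop`: the operators; `TT` the coefficients `T_{k k'}`.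
-/

set_option autoImplicit false

noncomputable section

open Complex MeasureTheory Filter Topology

namespace DRX

open DUA DUA.Pf

/-! ### sets and classes -/

/-- the closed strip `|Im v - c| ≤ d` -/
def Stp (c d : ℝ) : Set ℂ := {v | |v.im - c| ≤ d}

/-- all rows of the list are in the set -/
def In (K : Set ℂ) (I : List ℂ) : Prop := ∀ v ∈ I, v ∈ K

/-- all rows at distance `< 5 π / 6` of the line `Im = c` -/
def Wn (c : ℝ) (I : List ℂ) : Prop := ∀ v ∈ I, |v.im - c| < 5 * Real.pi / 6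

/-- the class `K(A)` -/
def Kc (A : ℝ) : Set (ℝ → ℂ) := {Λ | Continuous Λ ∧ ∀ x, ‖Λ x - 1‖ ≤ A * Real.exp (-|x|)}

/-- the point of the line `Im = c` -/
def ln (c x : ℝ) : ℂ := (x : ℂ) + (c : ℂ) * I

/-- **the one sided functional** `Ψ` of the list function `f` on the line `Im = c`: (A1), (A3), (A4) -/
structure Fun (f : List ℂ → ℂ) (c : ℝ) (Ψ : (ℝ → ℂ) → ℂ) : Prop where
  /-- (A1) -/
  con : ∀ I, Wn c I → f I = Ψ fun x => Lam I (ln c x)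
  /-- (A3) -/
  seq : ∀ (A : ℝ) (L : ℕ → ℝ → ℂ) (L0 : ℝ → ℂ), (∀ n, L n ∈ Kc A) → L0 ∈ Kc A →
    (∀ x, Tendsto (fun n => L n x) atTop (𝓝 (L0 x))) → Tendsto (fun n => Ψ (L n)) atTop (𝓝 (Ψ L0))
  /-- bounded on every class -/
  bdd : ∀ A : ℝ, ∃ M : ℝ, ∀ L ∈ Kc A, ‖Ψ L‖ ≤ M
  /-- (A4) bounded gradient -/
  grad : ∃ D : (ℝ → ℂ) → ℝ → ℂ, (∀ A : ℝ, ∃ M : ℝ, ∀ L ∈ Kc A, Measurable (D L) ∧ ∀ x, ‖D L x‖ ≤ M) ∧
    ∀ (A : ℝ) (U : Set ℂ) (L : ℂ → ℝ → ℂ), IsOpen U → (∀ v ∈ U, L v ∈ Kc A) →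
      (∀ x, DifferentiableOn ℂ (fun v => L v x) U) → ∀ v ∈ U,
        HasDerivAt (fun v => Ψ (L v)) (∫ x, deriv (fun u => L u x) v * D (L v) x) v

/-- all windows of one list function with a parameter list `J` -/
structure FunS (F : List ℂ → List ℂ → ℂ) (Ψ : List ℂ → ℝ → (ℝ → ℂ) → ℂ) : Prop where
  fn : ∀ J c, Wn c J → Fun (fun I => F I J) c (Ψ J c)
  /-- (A2) -/
  shift : ∀ (J : List ℂ) (c c' A : ℝ) (L : ℂ → ℂ), Wn c J → Wn c' J → c ≤ c' →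
    ContinuousOn L {z | c ≤ z.im ∧ z.im ≤ c'} → (∀ z : ℂ, c < z.im → z.im < c' → DifferentiableAt ℂ L z) →
    (∀ z : ℂ, c ≤ z.im → z.im ≤ c' → ‖L z - 1‖ ≤ A * Real.exp (-|z.re|)) →
    Ψ J c (fun x => L (ln c x)) = Ψ J c' (fun x => L (ln c' x))

/-- continuous and bounded on the lists of fixed length in `K` -/
structure Adm (K : Set ℂ) (G : List ℂ → List ℂ → ℂ) : Prop where
  cont : ∀ p q : ℕ, ContinuousOn (fun z : (Fin p → ℂ) × (Fin q → ℂ) => G (List.ofFn z.1) (List.ofFn z.2))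
    {z | (∀ i, z.1 i ∈ K) ∧ ∀ j, z.2 j ∈ K}
  bdd : ∀ p q : ℕ, ∃ M : ℝ, ∀ (x : Fin p → ℂ) (y : Fin q → ℂ), (∀ i, x i ∈ K) → (∀ j, y j ∈ K) →
    ‖G (List.ofFn x) (List.ofFn y)‖ ≤ M

/-- **the hypotheses on the two sided function** -/
structure FH (F : List ℂ → List ℂ → ℂ) : Prop where
  adm : ∀ c d : ℝ, d < 5 * Real.pi / 6 → Adm (Stp c d) F
  X : ∃ Ψ, FunS F Ψ
  Y : ∃ Ψ, FunS (fun J I => F I J) Ψ

/-! ### strands and operators -/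

/-- the three offsets -/
def off : Fin 3 → ℝ := ![Real.pi / 6, Real.pi / 2, 5 * Real.pi / 6]

/-- the three constants -/
def kc : Fin 3 → ℂ := ![-(2 * Real.pi * I)⁻¹, (2 * Real.pi * I)⁻¹, -(2 * Real.pi * I)⁻¹]

/-- point `s` of the line `i` -/
def sp (r : Fin 3 → ℝ) (i : Fin 3) (t : ℝ) : ℂ := ln (r i) t

/-- near row of the strand -/
def vp (r : Fin 3 → ℝ) (i : Fin 3) (t : ℝ) : ℂ := ln (r i - off i) t

/-- the list with one strand more; `p = (t, φ)` -/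
def st (r : Fin 3 → ℝ) (e0 : ℝ) (i : Fin 3) (p : ℝ × ℝ) (L : List ℂ) : List ℂ :=
  vp r i p.1 :: (vp r i p.1 + ip + circleMap 0 e0 p.2) :: L

/-- the measure of `(t, φ)` -/
def m0 : Measure (ℝ × ℝ) := (volume : Measure ℝ).prod (volume.restrict (Set.Ioc 0 (2 * Real.pi)))

/-- the operator `A[f]` -/
def Aop (r : Fin 3 → ℝ) (e0 : ℝ) (f : ℂ → ℂ) (g : List ℂ → ℂ) (L : List ℂ) : ℂ :=
  ∑ i : Fin 3, kc i * ∫ p : ℝ × ℝ, f (sp r i p.1) * (2 * Real.pi * circleMap 0 e0 p.2)⁻¹ * g (st r e0 i p L) ∂m0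

/-- **the operators** `W_k`: `W_0 = 1`, `(k + 1) W_{k+1} = ∑_{j ≤ k} (-1)^j A[w^{j+1}] W_{k-j}` -/
def Wop (r : Fin 3 → ℝ) (e0 : ℝ) (w : ℂ → ℂ) : ℕ → (List ℂ → ℂ) → List ℂ → ℂ
  | 0, g => g
  | k + 1, g => fun L => ((k : ℂ) + 1)⁻¹ * ∑ j : Fin (k + 1), (-1) ^ (j : ℕ) *
      Aop r e0 (fun s => w s ^ ((j : ℕ) + 1)) (Wop r e0 w (k - j) g) L
termination_by k => k
decreasing_by omega

theorem Wop_zero (r : Fin 3 → ℝ) (e0 : ℝ) (w : ℂ → ℂ) (g : List ℂ → ℂ) : Wop r e0 w 0 g = g := by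
  rw [Wop]

theorem Wop_succ (r : Fin 3 → ℝ) (e0 : ℝ) (w : ℂ → ℂ) (k : ℕ) (g : List ℂ → ℂ) (L : List ℂ) :
    Wop r e0 w (k + 1) g L = ((k : ℂ) + 1)⁻¹ * ∑ j : Fin (k + 1), (-1) ^ (j : ℕ) *
      Aop r e0 (fun s => w s ^ ((j : ℕ) + 1)) (Wop r e0 w (k - j) g) L := by
  rw [Wop]

/-- the operator on the first list -/
def WX (r : Fin 3 → ℝ) (e0 : ℝ) (w : ℂ → ℂ) (k : ℕ) (G : List ℂ → List ℂ → ℂ) (X Y : List ℂ) : ℂ :=
  Wop r e0 w k (fun X' => G X' Y) X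

/-- the operator on the second list -/
def WY (r : Fin 3 → ℝ) (e0 : ℝ) (w : ℂ → ℂ) (k : ℕ) (G : List ℂ → List ℂ → ℂ) (X Y : List ℂ) : ℂ :=
  Wop r e0 w k (fun Y' => G X Y') Y

/-- **the coefficients** `T_{k k'}` -/
def TT (r r' : Fin 3 → ℝ) (e0 : ℝ) (w w' : ℂ → ℂ) (k k' : ℕ) (F : List ℂ → List ℂ → ℂ) (X Y : List ℂ) : ℂ :=
  WX r e0 w k (WY r' e0 w' k' F) X Y

/-- all strands of the line system `r` are in `K` -/
def StIn (K : Set ℂ) (r : Fin 3 → ℝ) (e0 : ℝ) : Prop :=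
  ∀ (i : Fin 3) (t φ : ℝ), vp r i t ∈ K ∧ vp r i t + ip + circleMap 0 e0 φ ∈ K

end DRX

end
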