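import Pool.Agent.DUA.ShiftA
import Pool.Agent.DRX.Hyp

/-!
# The contour identity of the three lines (DUAL-R, CAU1)

`qs = 1 / sinh`, `phi z = qs (z + i π / 6) + qs (z - i π / 6) = tau' z / tau z`.
For `u` continuous and bounded on the closed strip `r 0 ≤ Im ≤ r 2`, analytic in the open strip, and `θ` in the open
strip with `|Im θ - r 1| < π / 3`, `|Im θ - r 0|, |Im θ - r 2| < 2 π / 3`:
`∑ i, ki i * ∫ u (t + i r_i) * phi (θ - (t + i r_i) + oi i) dt = u θ`.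
-/

set_option autoImplicit false

noncomputable section

open Complex MeasureTheory Set Filter Topology

namespace DUA

/-- `1 / sinh` -/
def qs (z : ℂ) : ℂ := 1 / Complex.sinh z

/-- the logarithmic derivative of `tau` -/
def phi (z : ℂ) : ℂ := qs (z + a6) + qs (z - a6)

/-- offsets of the three lines -/
def oi : Fin 3 → ℂ := ![a6, 3 * a6, 5 * a6]

/-- weights of the three lines -/
def ki : Fin 3 → ℂ := ![-(1 / (2 * (Real.pi : ℂ) * I)), 1 / (2 * (Real.pi : ℂ) * I), -(1 / (2 * (Real.pi : ℂ) * I))]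

theorem qs_neg (z : ℂ) : qs (-z) = -qs z := by
  unfold qs
  rw [Complex.sinh_neg, div_neg]

theorem phi_neg (z : ℂ) : phi (-z) = -phi z := by
  unfold phi
  rw [show -z + a6 = -(z - a6) by ring, show -z - a6 = -(z + a6) by ring, qs_neg, qs_neg]
  ring

theorem qs_pi (z : ℂ) : qs (z + 6 * a6) = -qs z := by
  unfold qs
  have e : z + 6 * a6 = z + (Real.pi : ℂ) * I := by
    unfold a6
    push_cast
    ring
  rw [e, Complex.sinh_add, Complex.cosh_mul_I, Complex.sinh_mul_I, Complex.cos_pi, Complex.sin_pi, zero_mul, mul_zero,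
    add_zero, mul_neg, mul_one, div_neg]

theorem phi_o0 (z : ℂ) : phi (z + oi 0) = qs z + qs (z + 2 * a6) := by
  show phi (z + a6) = _
  unfold phi
  rw [show z + a6 + a6 = z + 2 * a6 by ring, show z + a6 - a6 = z by ring]
  ring

theorem phi_o1 (z : ℂ) : phi (z + oi 1) = qs (z + 2 * a6) + qs (z + 4 * a6) := by
  show phi (z + 3 * a6) = _
  unfold phi
  rw [show z + 3 * a6 + a6 = z + 4 * a6 by ring, show z + 3 * a6 - a6 = z + 2 * a6 by ring]
  ring

theorem phi_o2 (z : ℂ) : phi (z + oi 2) = qs (z + 4 * a6) - qs z := by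
  show phi (z + 5 * a6) = _
  unfold phi
  rw [show z + 5 * a6 + a6 = z + 6 * a6 by ring, show z + 5 * a6 - a6 = z + 4 * a6 by ring, qs_pi]
  ring

/-! ### the logarithmic derivative -/

theorem t_log {z : ℂ} (hz : |z.im| < Real.pi) (hz0 : z ≠ 0) : t' z = t z * qs z := by
  have h1 := ShA.Sh.ne_half hz
  have h2 : Complex.sinh (z / 2) ≠ 0 := by
    refine ShA.Sh.sinh_ne (lt_of_eq_of_lt (ShA.Sh.im_half z) ?_) (by
      intro h
      apply hz0
      have := congrArg (fun w => w * 2) h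
      simpa using this)
    have := abs_nonneg z.im
    linarith
  have h3 : Complex.sinh z = 2 * Complex.sinh (z / 2) * Complex.cosh (z / 2) := by
    rw [← Complex.sinh_two_mul]
    congr 1
    ring
  unfold t' t qs
  rw [h3, Complex.tanh_eq_sinh_div_cosh]
  field_simp

/-- `tau' = tau * phi` off the zeros -/
theorem tau_hasDeriv {z : ℂ} (h1 : |(z + a6).im| < Real.pi) (h2 : |(z - a6).im| < Real.pi) (n1 : z + a6 ≠ 0)
    (n2 : z - a6 ≠ 0) : HasDerivAt tau (tau z * phi z) z := by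
  have d1 : HasDerivAt (fun z => t (z + a6)) (t' (z + a6)) z :=
    HasDerivAt.comp_add_const z a6 (ShA.hasDerivAt_t h1)
  have d2 : HasDerivAt (fun z => t (z - a6)) (t' (z - a6)) z :=
    HasDerivAt.comp_sub_const z a6 (ShA.hasDerivAt_t h2)
  have h := d1.mul d2
  refine h.congr_deriv ?_
  rw [t_log h1 n1, t_log h2 n2]
  unfold tau phi
  ring

namespace Cau

lemma low {x : ℝ} (hx : 1 ≤ |x|) {z : ℂ} (hz : z.re = x) : Real.exp |x| / 4 ≤ ‖Complex.sinh z‖ := by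
  have h1 := ShA.Sh.sinh_le_norm z
  rw [hz] at h1
  exact (ShA.Sh.sinh_abs_low hx).trans h1

/-- decay of `1 / sinh` -/
lemma qs_bd {z : ℂ} (hz : 1 ≤ |z.re|) : ‖qs z‖ ≤ 4 * Real.exp (-|z.re|) := by
  have h1 := low hz rfl
  have h2 := Real.exp_pos |z.re|
  unfold qs
  rw [norm_div, norm_one, Real.exp_neg]
  calc 1 / ‖Complex.sinh z‖ ≤ 1 / (Real.exp |z.re| / 4) := by gcongr
    _ = _ := by field_simp

lemma sinh_diff (z : ℂ) : DifferentiableAt ℂ Complex.sinh z := Complex.differentiable_sinh z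

/-- `∫ 1 / sinh (t + i a)` below the axis -/
theorem int_qs_neg {a : ℝ} (h1 : -Real.pi < a) (h2 : a < 0) : Integrable (fun s : ℝ => qs (s + a * I)) ∧
    ∫ s : ℝ, qs (s + a * I) = (Real.pi : ℂ) * I := by
  have hpi := Real.pi_pos
  have hne : ∀ z : ℂ, -Real.pi < z.im → z.im < 0 → Complex.sinh z ≠ 0 := by
    intro z h3 h4
    refine ShA.Sh.sinh_ne (abs_lt.2 ⟨h3, by linarith⟩) ?_
    intro h
    rw [h, Complex.zero_im] at h4
    exact lt_irrefl _ h4
  have hcs : ∀ α β : ℝ, -Real.pi < α → β < 0 → ContinuousOn qs {z : ℂ | α ≤ z.im ∧ z.im ≤ β} := by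
    intro α β hα hβ
    refine ContinuousOn.div continuousOn_const Complex.continuous_sinh.continuousOn ?_
    intro z hz
    exact hne z (lt_of_lt_of_le hα hz.1) (lt_of_le_of_lt hz.2 hβ)
  have hds : ∀ α β : ℝ, -Real.pi < α → β < 0 → ∀ z : ℂ, α < z.im → z.im < β → DifferentiableAt ℂ qs z := by
    intro α β hα hβ z hz1 hz2
    exact (differentiableAt_const _).div (sinh_diff z) (hne z (hα.trans hz1) (hz2.trans hβ))
  have hbs : ∀ α β : ℝ, ∀ z : ℂ, α ≤ z.im → z.im ≤ β → 1 ≤ |z.re| → ‖qs z‖ ≤ 4 * Real.exp (-1 * |z.re|) := by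
    intro α β z _ _ hz
    have := qs_bd hz
    rwa [neg_one_mul]
  have hm : ∫ s : ℝ, qs (s + ((-(Real.pi / 2) : ℝ) : ℂ) * I) = (Real.pi : ℂ) * I := by
    have e : ∀ s : ℝ, qs (s + ((-(Real.pi / 2) : ℝ) : ℂ) * I) = I * (((Real.cosh s)⁻¹ : ℝ) : ℂ) := by
      intro s
      unfold qs
      have e1 : Complex.sinh (s + ((-(Real.pi / 2) : ℝ) : ℂ) * I) = -(Complex.cosh s * I) := by
        rw [Complex.sinh_add, Complex.cosh_mul_I, Complex.sinh_mul_I, ← Complex.ofReal_cos, ← Complex.ofReal_sin,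
          Real.cos_neg, Real.sin_neg, Real.cos_pi_div_two, Real.sin_pi_div_two]
        push_cast
        ring
      rw [e1, ← Complex.ofReal_cosh, Complex.ofReal_inv]
      have h3 : ((Real.cosh s : ℝ) : ℂ) ≠ 0 := by exact_mod_cast (Real.cosh_pos s).ne'
      field_simp
      rw [Complex.I_sq]
    rw [integral_congr_ae (Eventually.of_forall e), integral_const_mul, integral_complex_ofReal, ShA.Sh.integral_inv_cosh]
    ring
  refine ⟨ShA.Sh.hint (a := a) (b := a) le_rfl le_rfl (hcs a a h1 h2) one_pos (hbs a a), ?_⟩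
  rw [← hm]
  rcases le_total a (-(Real.pi / 2)) with h | h
  · exact (ShA.Sh.hline h (hcs _ _ h1 (by linarith)) (hds _ _ h1 (by linarith)) one_pos (hbs _ _)).symm
  · exact ShA.Sh.hline h (hcs _ _ (by linarith) h2) (hds _ _ (by linarith) h2) one_pos (hbs _ _)

/-- `∫ 1 / sinh (t + i a)` above the axis -/
theorem int_qs_pos {a : ℝ} (h1 : 0 < a) (h2 : a < Real.pi) : Integrable (fun s : ℝ => qs (s + a * I)) ∧
    ∫ s : ℝ, qs (s + a * I) = -((Real.pi : ℂ) * I) := by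
  obtain ⟨i1, e1⟩ := int_qs_neg (a := -a) (by linarith) (by linarith)
  have e : ∀ s : ℝ, qs (s + a * I) = -qs (((-s : ℝ) : ℂ) + ((-a : ℝ) : ℂ) * I) := by
    intro s
    rw [← qs_neg]
    congr 1
    push_cast
    ring
  have ef : (fun s : ℝ => qs (s + a * I)) = fun s : ℝ => -(fun x : ℝ => qs ((x : ℂ) + ((-a : ℝ) : ℂ) * I)) (-s) := by
    funext s
    exact e s
  constructor
  · rw [ef]
    exact (i1.comp_neg).neg
  · rw [ef, integral_neg, integral_neg_eq_self (fun x : ℝ => qs ((x : ℂ) + ((-a : ℝ) : ℂ) * I)) volume, e1]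

lemma hasDerivAt_sh (ζ : ℂ) : HasDerivAt Complex.sinh (Complex.cosh ζ) ζ := Complex.hasDerivAt_sinh ζ

/-- Cauchy's formula for two lines with the kernel `1 / sinh` -/
theorem two_lines {g : ℂ → ℂ} {a b C : ℝ} (ha0 : a < 0) (hb0 : 0 < b) (ha : -Real.pi < a) (hb : b < Real.pi)
    (hc : ContinuousOn g {z : ℂ | a ≤ z.im ∧ z.im ≤ b}) (hd : ∀ z : ℂ, a < z.im → z.im < b → DifferentiableAt ℂ g z)
    (hbd : ∀ z : ℂ, a ≤ z.im → z.im ≤ b → ‖g z‖ ≤ C) :
    Integrable (fun s : ℝ => g (s + a * I) * qs (s + a * I)) ∧ Integrable (fun s : ℝ => g (s + b * I) * qs (s + b * I)) ∧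
    (∫ s : ℝ, g (s + a * I) * qs (s + a * I)) - (∫ s : ℝ, g (s + b * I) * qs (s + b * I)) =
      2 * (Real.pi : ℂ) * I * g 0 := by
  have hpi := Real.pi_pos
  set H : ℂ → ℂ := fun ζ => dslope g 0 ζ / dslope Complex.sinh 0 ζ with hH
  have hO : IsOpen {ζ : ℂ | a < ζ.im ∧ ζ.im < b} :=
    (isOpen_lt continuous_const Complex.continuous_im).inter (isOpen_lt Complex.continuous_im continuous_const)
  have h0O : (0:ℂ) ∈ {ζ : ℂ | a < ζ.im ∧ ζ.im < b} := by
    show a < (0:ℂ).im ∧ (0:ℂ).im < b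
    rw [Complex.zero_im]
    exact ⟨ha0, hb0⟩
  have hzo : {ζ : ℂ | a < ζ.im ∧ ζ.im < b} ∈ 𝓝 (0:ℂ) := hO.mem_nhds h0O
  have hzn : {ζ : ℂ | a ≤ ζ.im ∧ ζ.im ≤ b} ∈ 𝓝 (0:ℂ) :=
    mem_of_superset hzo fun ζ h => (⟨h.1.le, h.2.le⟩ : a ≤ ζ.im ∧ ζ.im ≤ b)
  have hsgne : ∀ ζ : ℂ, a ≤ ζ.im → ζ.im ≤ b → dslope Complex.sinh 0 ζ ≠ 0 := by
    intro ζ h1 h2
    by_cases e : ζ = 0
    · rw [e, dslope_same, (hasDerivAt_sh 0).deriv, Complex.cosh_zero]
      exact one_ne_zero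
    · rw [dslope_of_ne _ e, slope_def_field, Complex.sinh_zero, sub_zero, sub_zero]
      exact div_ne_zero (ShA.Sh.sinh_ne (abs_lt.2 ⟨by linarith, by linarith⟩) e) e
  have hcH : ContinuousOn H {ζ : ℂ | a ≤ ζ.im ∧ ζ.im ≤ b} := by
    refine ContinuousOn.div ?_ ?_ fun ζ h => hsgne ζ h.1 h.2
    · exact (continuousOn_dslope hzn).2 ⟨hc, hd 0 h0O.1 h0O.2⟩
    · refine (continuousOn_dslope hzn).2 ⟨Complex.continuous_sinh.continuousOn, (hasDerivAt_sh 0).differentiableAt⟩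
  have hdH : ∀ ζ : ℂ, a < ζ.im → ζ.im < b → DifferentiableAt ℂ H ζ := by
    intro ζ h1 h2
    have h3 : DifferentiableOn ℂ (dslope g 0) {ζ : ℂ | a < ζ.im ∧ ζ.im < b} :=
      (Complex.differentiableOn_dslope hzo).2 fun w hw => (hd w hw.1 hw.2).differentiableWithinAt
    have h4 : DifferentiableOn ℂ (dslope Complex.sinh 0) {ζ : ℂ | a < ζ.im ∧ ζ.im < b} :=
      (Complex.differentiableOn_dslope hzo).2 fun w _ => (hasDerivAt_sh w).differentiableAt.differentiableWithinAt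
    exact (h3.differentiableAt (hO.mem_nhds ⟨h1, h2⟩)).div (h4.differentiableAt (hO.mem_nhds ⟨h1, h2⟩))
      (hsgne ζ h1.le h2.le)
  have hHe : ∀ ζ : ℂ, ζ ≠ 0 → H ζ = (g ζ - g 0) * qs ζ := by
    intro ζ e
    show dslope g 0 ζ / dslope Complex.sinh 0 ζ = _
    rw [dslope_of_ne _ e, dslope_of_ne _ e, slope_def_field, slope_def_field, Complex.sinh_zero, sub_zero, sub_zero,
      div_div_div_cancel_right₀ e]
    unfold qs
    rw [mul_one_div]
  have hdec : ∀ ζ : ℂ, a ≤ ζ.im → ζ.im ≤ b → 1 ≤ |ζ.re| → ‖H ζ‖ ≤ 8 * C * Real.exp (-1 * |ζ.re|) := by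
    intro ζ h1 h2 h3
    have e : ζ ≠ 0 := by
      intro e
      rw [e, Complex.zero_re, abs_zero] at h3
      linarith
    rw [hHe ζ e, norm_mul]
    have h4 : ‖g ζ - g 0‖ ≤ 2 * C := by
      have h5 := norm_sub_le (g ζ) (g 0)
      have h6 := hbd ζ h1 h2
      have h7 := hbd 0 h0O.1.le h0O.2.le
      linarith
    have h5 := qs_bd h3
    have h6 : 0 ≤ 4 * Real.exp (-|ζ.re|) := by positivity
    calc ‖g ζ - g 0‖ * ‖qs ζ‖ ≤ 2 * C * (4 * Real.exp (-|ζ.re|)) :=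
          mul_le_mul h4 h5 (norm_nonneg _) ((norm_nonneg _).trans h4)
      _ = _ := by rw [neg_one_mul]; ring
  have key := ShA.Sh.hline (ha0.le.trans hb0.le) hcH hdH one_pos hdec
  have hIa : Integrable (fun s : ℝ => H (s + (a : ℂ) * I)) :=
    ShA.Sh.hint le_rfl (ha0.le.trans hb0.le) hcH one_pos hdec
  have hIb : Integrable (fun s : ℝ => H (s + (b : ℂ) * I)) :=
    ShA.Sh.hint (ha0.le.trans hb0.le) le_rfl hcH one_pos hdec
  obtain ⟨qa, ea⟩ := int_qs_neg ha ha0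
  obtain ⟨qb, eb⟩ := int_qs_pos hb0 hb
  have ne : ∀ c : ℝ, c ≠ 0 → ∀ s : ℝ, (s : ℂ) + c * I ≠ 0 := by
    intro c hc s h
    have := congrArg Complex.im h
    rw [ShA.Sh.hl_im, Complex.zero_im] at this
    exact hc this
  have fa : (fun s : ℝ => g (s + a * I) * qs (s + a * I)) =
      fun s : ℝ => H (s + (a : ℂ) * I) + g 0 * qs (s + a * I) := by
    funext s
    rw [hHe _ (ne a ha0.ne s)]
    ring
  have fb : (fun s : ℝ => g (s + b * I) * qs (s + b * I)) =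
      fun s : ℝ => H (s + (b : ℂ) * I) + g 0 * qs (s + b * I) := by
    funext s
    rw [hHe _ (ne b hb0.ne' s)]
    ring
  rw [fa, fb]
  refine ⟨hIa.add (qa.const_mul _), hIb.add (qb.const_mul _), ?_⟩
  rw [integral_add hIa (qa.const_mul _), integral_add hIb (qb.const_mul _), integral_const_mul, integral_const_mul,
    ea, eb, key]
  ring

/-- shift of `g (s) / sinh (c - s)` between two lines in a strip without poles -/
theorem shift_c {g : ℂ → ℂ} {a b c C : ℝ} (hab : a ≤ b) (h1 : c - Real.pi < a) (h2 : b < c)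
    (hc : ContinuousOn g {z : ℂ | a ≤ z.im ∧ z.im ≤ b}) (hd : ∀ z : ℂ, a < z.im → z.im < b → DifferentiableAt ℂ g z)
    (hbd : ∀ z : ℂ, a ≤ z.im → z.im ≤ b → ‖g z‖ ≤ C) :
    Integrable (fun s : ℝ => g (s + a * I) * qs (-(s + a * I) + c * I)) ∧
    Integrable (fun s : ℝ => g (s + b * I) * qs (-(s + b * I) + c * I)) ∧
    ∫ s : ℝ, g (s + a * I) * qs (-(s + a * I) + c * I) = ∫ s : ℝ, g (s + b * I) * qs (-(s + b * I) + c * I) := by
  have him : ∀ z : ℂ, (-z + (c : ℂ) * I).im = c - z.im := by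
    intro z
    simp
    ring
  have hre : ∀ z : ℂ, (-z + (c : ℂ) * I).re = -z.re := by
    intro z
    simp
  have hne : ∀ z : ℂ, a ≤ z.im → z.im ≤ b → Complex.sinh (-z + c * I) ≠ 0 := by
    intro z h3 h4
    refine ShA.Sh.sinh_ne (abs_lt.2 ⟨?_, ?_⟩) ?_
    · rw [him]
      linarith [Real.pi_pos]
    · rw [him]
      linarith
    · intro h
      have h5 := congrArg Complex.im h
      rw [him, Complex.zero_im] at h5
      linarith
  have hc' : ContinuousOn (fun z => g z * qs (-z + c * I)) {z : ℂ | a ≤ z.im ∧ z.im ≤ b} := by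
    refine hc.mul ?_
    refine ContinuousOn.div continuousOn_const ?_ fun z hz => hne z hz.1 hz.2
    exact (Complex.continuous_sinh.comp (by fun_prop)).continuousOn
  have hd' : ∀ z : ℂ, a < z.im → z.im < b → DifferentiableAt ℂ (fun z => g z * qs (-z + c * I)) z := by
    intro z h3 h4
    refine (hd z h3 h4).mul ?_
    refine (differentiableAt_const _).div ?_ (hne z h3.le h4.le)
    exact (sinh_diff _).comp z (by fun_prop)
  have hb' : ∀ z : ℂ, a ≤ z.im → z.im ≤ b → 1 ≤ |z.re| →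
      ‖(fun z => g z * qs (-z + c * I)) z‖ ≤ 4 * C * Real.exp (-1 * |z.re|) := by
    intro z h3 h4 h5
    show ‖g z * qs (-z + c * I)‖ ≤ _
    have h6 : 1 ≤ |(-z + (c : ℂ) * I).re| := by
      rw [hre, abs_neg]
      exact h5
    have h7 := qs_bd h6
    rw [hre, abs_neg] at h7
    have h8 := hbd z h3 h4
    rw [norm_mul]
    calc ‖g z‖ * ‖qs (-z + c * I)‖ ≤ C * (4 * Real.exp (-|z.re|)) :=
          mul_le_mul h8 h7 (norm_nonneg _) ((norm_nonneg _).trans h8)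
      _ = _ := by rw [neg_one_mul]; ring
  exact ⟨ShA.Sh.hint le_rfl hab hc' one_pos hb', ShA.Sh.hint hab le_rfl hc' one_pos hb',
    (ShA.Sh.hline hab hc' hd' one_pos hb').symm⟩

end Cau

open Cau

/-- the contour identity at `θ = 0` -/
theorem cau1_zero {g : ℂ → ℂ} {r : Fin 3 → ℝ} {C : ℝ} (h01 : r 0 ≤ r 1) (h12 : r 1 ≤ r 2) (hr0 : r 0 < 0) (hr2 : 0 < r 2)
    (hr0' : -(2 * Real.pi / 3) < r 0) (hr2' : r 2 < 2 * Real.pi / 3) (hr1 : |r 1| < Real.pi / 3)
    (hc : ContinuousOn g {z : ℂ | r 0 ≤ z.im ∧ z.im ≤ r 2})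
    (hd : ∀ z : ℂ, r 0 < z.im → z.im < r 2 → DifferentiableAt ℂ g z)
    (hbd : ∀ z : ℂ, r 0 ≤ z.im → z.im ≤ r 2 → ‖g z‖ ≤ C) :
    (∀ i, Integrable fun s : ℝ => g (s + r i * I) * phi (-(s + r i * I) + oi i)) ∧
    ∑ i, ki i * ∫ s : ℝ, g (s + r i * I) * phi (-(s + r i * I) + oi i) = g 0 := by
  have hpi := Real.pi_pos
  have hr1' := abs_lt.1 hr1
  have a2 : (2 : ℂ) * a6 = ((Real.pi / 3 : ℝ) : ℂ) * I := by
    unfold a6
    push_cast
    ring
  have a4 : (4 : ℂ) * a6 = ((2 * Real.pi / 3 : ℝ) : ℂ) * I := by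
    unfold a6
    push_cast
    ring
  obtain ⟨i1, i2, e1⟩ := two_lines hr0 hr2 (by linarith) (by linarith) hc hd hbd
  obtain ⟨j1, j2, e2⟩ := shift_c (c := Real.pi / 3) h01 (by linarith) hr1'.2
    (hc.mono fun z hz => (⟨hz.1, hz.2.trans h12⟩ : r 0 ≤ z.im ∧ z.im ≤ r 2))
    (fun z h1 h2 => hd z h1 (lt_of_lt_of_le h2 h12)) (fun z h1 h2 => hbd z h1 (h2.trans h12))
  obtain ⟨k1, k2, e3⟩ := shift_c (c := 2 * Real.pi / 3) h12 (by linarith) hr2'
    (hc.mono fun z hz => (⟨h01.trans hz.1, hz.2⟩ : r 0 ≤ z.im ∧ z.im ≤ r 2))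
    (fun z h1 h2 => hd z (lt_of_le_of_lt h01 h1) h2) (fun z h1 h2 => hbd z (h01.trans h1) h2)
  have f0 : (fun s : ℝ => g (s + r 0 * I) * phi (-(s + r 0 * I) + oi 0)) = fun s : ℝ =>
      -(g (s + r 0 * I) * qs (s + r 0 * I)) + g (s + r 0 * I) * qs (-(s + r 0 * I) + ((Real.pi / 3 : ℝ) : ℂ) * I) := by
    funext s
    rw [phi_o0, qs_neg, a2]
    ring
  have f1 : (fun s : ℝ => g (s + r 1 * I) * phi (-(s + r 1 * I) + oi 1)) = fun s : ℝ =>
      g (s + r 1 * I) * qs (-(s + r 1 * I) + ((Real.pi / 3 : ℝ) : ℂ) * I) +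
      g (s + r 1 * I) * qs (-(s + r 1 * I) + ((2 * Real.pi / 3 : ℝ) : ℂ) * I) := by
    funext s
    rw [phi_o1, a2, a4]
    ring
  have f2 : (fun s : ℝ => g (s + r 2 * I) * phi (-(s + r 2 * I) + oi 2)) = fun s : ℝ =>
      g (s + r 2 * I) * qs (-(s + r 2 * I) + ((2 * Real.pi / 3 : ℝ) : ℂ) * I) + g (s + r 2 * I) * qs (s + r 2 * I) := by
    funext s
    rw [phi_o2, qs_neg, a4]
    ring
  have I0 : Integrable (fun s : ℝ => g (s + r 0 * I) * phi (-(s + r 0 * I) + oi 0)) := by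
    rw [f0]
    exact i1.neg.add j1
  have I1 : Integrable (fun s : ℝ => g (s + r 1 * I) * phi (-(s + r 1 * I) + oi 1)) := by
    rw [f1]
    exact j2.add k1
  have I2 : Integrable (fun s : ℝ => g (s + r 2 * I) * phi (-(s + r 2 * I) + oi 2)) := by
    rw [f2]
    exact k2.add i2
  refine ⟨?_, ?_⟩
  · intro i
    fin_cases i
    · exact I0
    · exact I1
    · exact I2
  · have i1' : Integrable (fun s : ℝ => -(g (s + r 0 * I) * qs (s + r 0 * I))) := i1.neg
    have e4 : ∫ s : ℝ, -(g (s + r 0 * I) * qs (s + r 0 * I)) = -∫ s : ℝ, g (s + r 0 * I) * qs (s + r 0 * I) :=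
      integral_neg _
    rw [Fin.sum_univ_three, f0, f1, f2, integral_add i1' j1, integral_add j2 k1, integral_add k2 i2, ← e2, ← e3, e4]
    have hpc : (Real.pi : ℂ) ≠ 0 := by exact_mod_cast hpi.ne'
    have hk : ∀ x : ℂ, (1 / (2 * (Real.pi : ℂ) * I)) * (2 * (Real.pi : ℂ) * I * x) = x := by
      intro x
      field_simp
    show -(1 / (2 * (Real.pi : ℂ) * I)) * _ + 1 / (2 * (Real.pi : ℂ) * I) * _ + -(1 / (2 * (Real.pi : ℂ) * I)) * _ = g 0
    rw [← hk (g 0), ← e1]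
    ring

/-- **CAU1** -/
theorem cau1 {u : ℂ → ℂ} {r : Fin 3 → ℝ} {C : ℝ} {θ : ℂ} (h01 : r 0 ≤ r 1) (h12 : r 1 ≤ r 2) (hr0 : r 0 < θ.im)
    (hr2 : θ.im < r 2) (hr0' : θ.im - r 0 < 2 * Real.pi / 3) (hr2' : r 2 - θ.im < 2 * Real.pi / 3)
    (hr1 : |r 1 - θ.im| < Real.pi / 3) (hc : ContinuousOn u {z : ℂ | r 0 ≤ z.im ∧ z.im ≤ r 2})
    (hd : ∀ z : ℂ, r 0 < z.im → z.im < r 2 → DifferentiableAt ℂ u z)
    (hbd : ∀ z : ℂ, r 0 ≤ z.im → z.im ≤ r 2 → ‖u z‖ ≤ C) :
    (∀ i, Integrable fun s : ℝ => u (s + r i * I) * phi (θ - (s + r i * I) + oi i)) ∧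
    ∑ i, ki i * ∫ s : ℝ, u (s + r i * I) * phi (θ - (s + r i * I) + oi i) = u θ := by
  have him : ∀ z : ℂ, (z + θ).im = z.im + θ.im := fun z => by simp
  obtain ⟨h1, h2⟩ := cau1_zero (g := fun z => u (z + θ)) (r := fun i => r i - θ.im) (C := C) (by linarith) (by linarith)
    (by linarith) (by linarith) (by linarith) (by linarith) hr1
    (by
      refine hc.comp (by fun_prop) ?_
      intro z hz
      have h3 : r 0 - θ.im ≤ z.im ∧ z.im ≤ r 2 - θ.im := hz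
      show r 0 ≤ (z + θ).im ∧ (z + θ).im ≤ r 2
      rw [him]
      exact ⟨by linarith [h3.1], by linarith [h3.2]⟩)
    (by
      intro z h3 h4
      have h5 : DifferentiableAt ℂ u (z + θ) := hd _ (by rw [him]; linarith) (by rw [him]; linarith)
      exact (HasDerivAt.comp_add_const z θ h5.hasDerivAt).differentiableAt)
    (by
      intro z h3 h4
      exact hbd _ (by rw [him]; linarith) (by rw [him]; linarith))
  have e : ∀ i, (fun s : ℝ => u (s + ((r i - θ.im : ℝ) : ℂ) * I + θ) * phi (-(s + ((r i - θ.im : ℝ) : ℂ) * I) + oi i)) =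
      fun s : ℝ => (fun s : ℝ => u (s + r i * I) * phi (θ - (s + r i * I) + oi i)) (s + θ.re) := by
    intro i
    funext s
    have e1 : (s : ℂ) + ((r i - θ.im : ℝ) : ℂ) * I + θ = ((s + θ.re : ℝ) : ℂ) + r i * I := by
      apply Complex.ext <;> simp
    have e2 : -((s : ℂ) + ((r i - θ.im : ℝ) : ℂ) * I) = θ - (((s + θ.re : ℝ) : ℂ) + r i * I) := by
      rw [← e1]
      ring
    show u (s + ((r i - θ.im : ℝ) : ℂ) * I + θ) * phi (-(s + ((r i - θ.im : ℝ) : ℂ) * I) + oi i) =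
      u (((s + θ.re : ℝ) : ℂ) + r i * I) * phi (θ - (((s + θ.re : ℝ) : ℂ) + r i * I) + oi i)
    rw [e1, e2]
  constructor
  · intro i
    have h3 := h1 i
    have h4 : Integrable fun s : ℝ => (fun s : ℝ => u (s + r i * I) * phi (θ - (s + r i * I) + oi i)) (s + θ.re) := by
      rw [← e i]
      exact h3
    have h5 := h4.comp_add_right (-θ.re)
    refine h5.congr (Eventually.of_forall fun s => ?_)
    show u (((s + -θ.re + θ.re : ℝ) : ℂ) + r i * I) * phi (θ - (((s + -θ.re + θ.re : ℝ) : ℂ) + r i * I) + oi i) = _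
    rw [neg_add_cancel_right]
  · have h3 : ∀ i, ∫ s : ℝ, u (s + r i * I) * phi (θ - (s + r i * I) + oi i) =
        ∫ s : ℝ, u (s + ((r i - θ.im : ℝ) : ℂ) * I + θ) * phi (-(s + ((r i - θ.im : ℝ) : ℂ) * I) + oi i) := by
      intro i
      rw [e i, integral_add_right_eq_self (fun s : ℝ => u (s + r i * I) * phi (θ - (s + r i * I) + oi i))]
    simp only [h3]
    have h4 := h2
    rw [zero_add] at h4
    exact h4

end DUA

namespace DRX

open DUA DUA.Pf

theorem off_oi (i : Fin 3) : (off i : ℂ) * I = oi i := by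
  fin_cases i
  · show ((Real.pi / 6 : ℝ) : ℂ) * I = a6
    rfl
  · show ((Real.pi / 2 : ℝ) : ℂ) * I = 3 * a6
    unfold a6
    push_cast
    ring
  · show ((5 * Real.pi / 6 : ℝ) : ℂ) * I = 5 * a6
    unfold a6
    push_cast
    ring

theorem kc_ki (i : Fin 3) : kc i = ki i := by
  fin_cases i
  · show -(2 * (Real.pi : ℂ) * I)⁻¹ = -(1 / (2 * (Real.pi : ℂ) * I))
    rw [one_div]
  · show (2 * (Real.pi : ℂ) * I)⁻¹ = 1 / (2 * (Real.pi : ℂ) * I)
    rw [one_div]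
  · show -(2 * (Real.pi : ℂ) * I)⁻¹ = -(1 / (2 * (Real.pi : ℂ) * I))
    rw [one_div]

/-- **CAU1** for the strands `vp r i t` -/
theorem cau1_st {u : ℂ → ℂ} {r : Fin 3 → ℝ} {C : ℝ} {θ : ℂ} (h01 : r 0 ≤ r 1) (h12 : r 1 ≤ r 2) (hr0 : r 0 < θ.im)
    (hr2 : θ.im < r 2) (hr0' : θ.im - r 0 < 2 * Real.pi / 3) (hr2' : r 2 - θ.im < 2 * Real.pi / 3)
    (hr1 : |r 1 - θ.im| < Real.pi / 3) (hc : ContinuousOn u {z : ℂ | r 0 ≤ z.im ∧ z.im ≤ r 2})
    (hd : ∀ z : ℂ, r 0 < z.im → z.im < r 2 → DifferentiableAt ℂ u z)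
    (hbd : ∀ z : ℂ, r 0 ≤ z.im → z.im ≤ r 2 → ‖u z‖ ≤ C) :
    (∀ i, Integrable fun s : ℝ => u (sp r i s) * phi (θ - vp r i s)) ∧
    ∑ i, kc i * ∫ s : ℝ, u (sp r i s) * phi (θ - vp r i s) = u θ := by
  have h := cau1 h01 h12 hr0 hr2 hr0' hr2' hr1 hc hd hbd
  have e : ∀ i, (fun s : ℝ => u (s + r i * I) * phi (θ - (s + r i * I) + oi i)) =
      fun s : ℝ => u (sp r i s) * phi (θ - vp r i s) := by
    intro i
    funext s
    have e1 : θ - ((s : ℂ) + r i * I) + oi i = θ - vp r i s := by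
      rw [← off_oi]
      unfold vp ln
      push_cast
      ring
    rw [e1]
    rfl
  simp only [e] at h
  simp only [kc_ki]
  exact h

theorem tau_ip (z : ℂ) : tau (z + ip) = (tau z)⁻¹ := by
  unfold tau
  rw [show z + ip + a6 = z + a6 + ip by ring, show z + ip - a6 = z - a6 + ip by ring, t_ip, t_ip, mul_inv]

theorem t_ne {z : ℂ} (h : |z.im| < Real.pi) (h0 : z ≠ 0) : t z ≠ 0 := by
  intro h1
  have h2 := t_log h h0
  rw [h1, zero_mul] at h2
  unfold t' at h2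
  have h3 := ShA.Sh.ne_half h
  exact (div_ne_zero one_ne_zero (mul_ne_zero two_ne_zero (pow_ne_zero 2 h3))) h2

/-- the derivative of the factor of a strand: `tau z * tau (z + i π + ζ)` at `ζ = 0`, `z = v - θ` -/
theorem str_hasDeriv {z : ℂ} (h1 : -(5 * Real.pi / 6) < z.im) (h2 : z.im < -(Real.pi / 6)) :
    HasDerivAt (fun ζ => tau z * tau (z + ip + ζ)) (phi (-z)) 0 := by
  have hpi := Real.pi_pos
  have ea : a6.im = Real.pi / 6 := by
    unfold a6
    simp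
  have i1 : (z + a6).im = z.im + Real.pi / 6 := by rw [add_im, ea]
  have i2 : (z - a6).im = z.im - Real.pi / 6 := by rw [sub_im, ea]
  have b1 : |(z + a6).im| < Real.pi := by
    rw [i1]
    exact abs_lt.2 ⟨by linarith, by linarith⟩
  have b2 : |(z - a6).im| < Real.pi := by
    rw [i2]
    exact abs_lt.2 ⟨by linarith, by linarith⟩
  have n1 : z + a6 ≠ 0 := by
    intro h
    have := congrArg Complex.im h
    rw [i1, zero_im] at this
    linarith
  have n2 : z - a6 ≠ 0 := by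
    intro h
    have := congrArg Complex.im h
    rw [i2, zero_im] at this
    linarith
  have hn : tau z ≠ 0 := mul_ne_zero (t_ne b1 n1) (t_ne b2 n2)
  have hd := tau_hasDeriv b1 b2 n1 n2
  have hd0 : HasDerivAt (fun ζ => tau (z + ζ)) (tau z * phi z) 0 := by
    have h3 : HasDerivAt tau (tau z * phi z) (z + 0) := by rwa [add_zero]
    have h4 := HasDerivAt.comp_const_add z 0 h3
    exact h4
  have h3 := (hd0.inv (by rwa [add_zero])).const_mul (tau z)
  have e : (fun ζ => tau z * tau (z + ip + ζ)) = fun ζ => tau z * (tau (z + ζ))⁻¹ := by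
    funext ζ
    rw [show z + ip + ζ = z + ζ + ip by ring, tau_ip]
  rw [e]
  refine h3.congr_deriv ?_
  rw [add_zero, phi_neg]
  field_simp

end DRX

end
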