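import Pool.Agent.DRX.ReflC

/-!
# DUAL-R, exact side (helper2): the coefficients as one holomorphic function of the shift `z`

`w_z θ = η (θ - z) β θ`, `q = Lam X * β`; `CD X η β q`: the data of one group.

* `TR`: the coefficients on the lines `D = (.88, .94, 1) l`: holomorphic and bounded on `-.06 l < Im z < 1.53 l`;
* **`chart`**: one function `T`, holomorphic and bounded on `|Im z| < 1.53 l`, with the values at `0` and on `Im z = ± 1.5 l`.
-/

set_option autoImplicit false

noncomputable section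

open Complex MeasureTheory Filter Topology

namespace DRX

open DUA DUA.Pf

/-- bounded and holomorphic in a closed strip -/
structure BH (f : ℂ → ℂ) (a b : ℝ) : Prop where
  cont : ContinuousOn f {z | a ≤ z.im ∧ z.im ≤ b}
  diff : ∀ z : ℂ, a < z.im → z.im < b → DifferentiableAt ℂ f z
  bd : ∃ B : ℝ, ∀ z : ℂ, a ≤ z.im → z.im ≤ b → ‖f z‖ ≤ B

/-- the data of one group; `11 / 30 π = 1.1 l`, `11 / 15 π = 2.2 l` -/
structure CD (X : List ℂ) (η β q : ℂ → ℂ) : Prop where
  mem : ∀ v ∈ X, |v.im| ≤ Real.pi / 6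
  eta : HolE η (-(11 / 30 * Real.pi)) (11 / 30 * Real.pi)
  b0 : ∀ a b : ℝ, -(Real.pi / 6) < a → b < Real.pi / 6 → BH β a b
  b1 : ∀ a : ℝ, Real.pi / 6 < a → BH β a (11 / 15 * Real.pi)
  b2 : ∀ b : ℝ, b < -(Real.pi / 6) → BH β (-(11 / 15 * Real.pi)) b
  bq : BH q (-(11 / 30 * Real.pi)) (11 / 30 * Real.pi)
  eq : ∀ z : ℂ, |z.im| ≤ 11 / 30 * Real.pi → |z.im| ≠ Real.pi / 6 → q z = Lam X z * β z

/-- the weight -/
def wz (η β : ℂ → ℂ) (z θ : ℂ) : ℂ := η (θ - z) * β θ

lemma BH.mono {w : ℂ → ℂ} {a b a' b' : ℝ} (h : BH w a b) (ha : a ≤ a') (hb : b' ≤ b) : BH w a' b' := by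
  obtain ⟨W, hW⟩ := h.bd
  exact ⟨h.cont.mono fun z hz => ⟨ha.trans hz.1, hz.2.trans hb⟩,
    fun z h1 h2 => h.diff z (ha.trans_lt h1) (h2.trans_le hb), W, fun z h1 h2 => hW z (ha.trans h1) (h2.trans hb)⟩

/-- shift of `η` times a bounded function -/
lemma HolE.shMul {η β : ℂ → ℂ} {a b a' b' : ℝ} {z : ℂ} (h : HolE η a b) (h2 : BH β a' b') (ha : a + z.im ≤ a')
    (hb : b' ≤ b + z.im) : HolE (fun θ => η (θ - z) * β θ) a' b' := by
  obtain ⟨W, hW⟩ := h
  obtain ⟨B, hB⟩ := h2.bd
  refine ⟨|W| * Real.exp |z.re| * |B|, ?_, fun θ h3 h4 => ?_, fun θ h3 h4 => ?_⟩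
  · refine ContinuousOn.mul ?_ h2.cont
    refine hW.cont.comp (by fun_prop) fun θ hθ => ?_
    show a ≤ (θ - z).im ∧ (θ - z).im ≤ b
    rw [Complex.sub_im]
    exact ⟨by linarith [hθ.1], by linarith [hθ.2]⟩
  · refine DifferentiableAt.mul ?_ (h2.diff θ h3 h4)
    have h5 := hW.diff (θ - z) (by rw [Complex.sub_im]; linarith) (by rw [Complex.sub_im]; linarith)
    exact DifferentiableAt.comp (g := η) (f := fun θ => θ - z) θ h5 (by fun_prop)
  · have h5 := hW.bd (θ - z) (by rw [Complex.sub_im]; linarith) (by rw [Complex.sub_im]; linarith)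
    have h6 := hB θ h3 h4
    rw [norm_mul]
    have h7 : ‖η (θ - z)‖ ≤ |W| * Real.exp |z.re| * Real.exp (-|θ.re|) := by
      refine h5.trans ?_
      rw [mul_assoc, Complex.sub_re]
      have h8 := exp_shift z.re θ.re
      rw [abs_sub_comm] at h8
      calc W * Real.exp (-|θ.re - z.re|) ≤ |W| * Real.exp (-|θ.re - z.re|) :=
            mul_le_mul_of_nonneg_right (le_abs_self W) (Real.exp_pos _).le
        _ ≤ |W| * (Real.exp |z.re| * Real.exp (-|θ.re|)) := mul_le_mul_of_nonneg_left h8 (abs_nonneg W)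
    calc ‖η (θ - z)‖ * ‖β θ‖ ≤ (|W| * Real.exp |z.re| * Real.exp (-|θ.re|)) * |B| :=
          mul_le_mul h7 (h6.trans (le_abs_self B)) (norm_nonneg _) (by positivity)
      _ = |W| * Real.exp |z.re| * |B| * Real.exp (-|θ.re|) := by ring

section

variable {X : List ℂ} {η β q : ℂ → ℂ}

/-- near the real axis of `z` the data of the crossing -/
lemma CD.pd (h : CD X η β q) {z : ℂ} (hz : |z.im| < Real.pi / 50) : PD X (wz η β z) fun θ => η (θ - z) * q θ := by
  have hpi := Real.pi_pos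
  obtain ⟨z1, z2⟩ := abs_lt.1 hz
  refine ⟨h.mem, fun a b ha hb => ?_, fun a ha => ?_, ?_, fun θ t1 t2 t3 => ?_⟩
  · exact h.eta.shMul (h.b0 a b ha hb) (by linarith) (by linarith)
  · exact h.eta.shMul ((h.b1 a ha).mono le_rfl (by linarith)) (by linarith) (by linarith)
  · exact h.eta.shMul (h.bq.mono (by linarith) (by linarith)) (by linarith) (by linarith)
  · have e1 : |θ.im| = θ.im := abs_of_nonneg t1
    have := h.eq θ (by rw [e1]; linarith) (by rw [e1]; exact t3)
    simp only [wz]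
    rw [this]
    ring

lemma CD.wnX (h : CD X η β q) {c : ℝ} (h1 : -(Real.pi / 6) ≤ c) (h2 : c ≤ Real.pi / 2) : Wn c X := by
  intro v hv
  have h3 := abs_le.1 (h.mem v hv)
  have := Real.pi_pos
  rw [abs_lt]
  constructor <;> linarith [h3.1, h3.2]

/-- the weight on the lines `D` -/
lemma CD.hD (h : CD X η β q) {z : ℂ} (h1 : -(Real.pi / 50) < z.im) (h2 : z.im < 51 / 100 * Real.pi) :
    HolE (wz η β z) (lnD 0) (lnD 2) := by
  have hpi := Real.pi_pos
  have h3 : HolE (wz η β z) (22 / 75 * Real.pi) (Real.pi / 3) :=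
    h.eta.shMul ((h.b1 (22 / 75 * Real.pi) (by linarith)).mono le_rfl (by linarith)) (by linarith) (by linarith)
  exact h3

end

/-- the lines `(.9, 1.1, 2.1) l` -/
def lnE : Fin 3 → ℝ := ![3 / 10 * Real.pi, 11 / 30 * Real.pi, 7 / 10 * Real.pi]

lemma LS_D {e c : ℝ} (he : 0 < e) (h1 : 22 / 75 * Real.pi + e < c) (h2 : c < Real.pi / 3) (h3 : e < Real.pi / 50) :
    LS lnD c e := by
  have hpi := Real.pi_pos
  exact LS.mk3 (a := 22 / 75 * Real.pi) (b := 47 / 150 * Real.pi) (d := Real.pi / 3) rfl rfl rfl he (by linarith)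
    (by linarith) (by linarith) (by linarith) (by linarith) (by linarith) (by linarith)

lemma LS_E {e c : ℝ} (he : 0 < e) (h1 : 3 / 10 * Real.pi + e < c) (h2 : c < Real.pi / 3) : LS lnE c e := by
  have hpi := Real.pi_pos
  exact LS.mk3 (a := 3 / 10 * Real.pi) (b := 11 / 30 * Real.pi) (d := 7 / 10 * Real.pi) rfl rfl rfl he (by linarith)
    (by linarith) (by linarith) (by linarith) (by linarith) (by linarith) (by linarith)

section

variable {X Y : List ℂ} {η β q η' β' q' : ℂ → ℂ} {F : List ℂ → List ℂ → ℂ}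

/-- the coefficient on the right lines -/
def TR (F : List ℂ → List ℂ → ℂ) (η β η' β' : ℂ → ℂ) (k k' : ℕ) (X Y : List ℂ) (z : ℂ) : ℂ :=
  TT2 lnD lnD (Real.pi / 100) (Real.pi / 100) (wz η β z) (wz η' β' z) k k' F X Y

/-- weights with a parameter, on the lines `D` -/
lemma CD.fz (h : CD X η β q) (ρ : ℝ) : FZ {z : ℂ | -(Real.pi / 50) < z.im ∧ z.im < 51 / 100 * Real.pi ∧ |z.re| < ρ}
    lnD fun z s => wz η β z s := by
  have hpi := Real.pi_pos
  obtain ⟨W, hW⟩ := h.eta
  have hb := h.b1 (22 / 75 * Real.pi) (by linarith)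
  obtain ⟨B, hB⟩ := hb.bd
  have hl : ∀ i : Fin 3, 22 / 75 * Real.pi ≤ lnD i ∧ lnD i ≤ Real.pi / 3 := by
    have := (LS_D (e := Real.pi / 1000) (c := 47 / 150 * Real.pi) (by positivity) (by linarith) (by linarith)
      (by linarith)).mem
    exact this
  refine ⟨fun i => ?_, fun i t => ?_, |W| * Real.exp ρ * |B|, fun z hz i t => ?_⟩
  · refine ContinuousOn.mul ?_ ?_
    · refine hW.cont.comp (f := fun q : ℂ × ℝ => sp lnD i q.2 - q.1) ?_ fun p hp => ?_
      · refine Continuous.continuousOn ?_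
        unfold sp ln
        fun_prop
      · show -(11 / 30 * Real.pi) ≤ (sp lnD i p.2 - p.1).im ∧ (sp lnD i p.2 - p.1).im ≤ 11 / 30 * Real.pi
        rw [Complex.sub_im, sp_im]
        obtain ⟨z1, z2, -⟩ := hp
        exact ⟨by linarith [(hl i).1], by linarith [(hl i).2]⟩
    · refine hb.cont.comp (f := fun q : ℂ × ℝ => sp lnD i q.2) ?_ fun p hp => ?_
      · refine Continuous.continuousOn ?_
        unfold sp ln
        fun_prop
      · show 22 / 75 * Real.pi ≤ (sp lnD i p.2).im ∧ (sp lnD i p.2).im ≤ 11 / 15 * Real.pi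
        rw [sp_im]
        exact ⟨(hl i).1, by linarith [(hl i).2]⟩
  · intro z hz
    refine DifferentiableAt.differentiableWithinAt ?_
    refine DifferentiableAt.mul ?_ (differentiableAt_const _)
    have h5 := hW.diff (sp lnD i t - z) (by rw [Complex.sub_im, sp_im]; linarith [(hl i).1, hz.2.1])
      (by rw [Complex.sub_im, sp_im]; linarith [(hl i).2, hz.1])
    exact DifferentiableAt.comp (g := η) (f := fun z => sp lnD i t - z) z h5 (by fun_prop)
  · have h5 := hW.bd (sp lnD i t - z) (by rw [Complex.sub_im, sp_im]; linarith [(hl i).1, hz.2.1])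
      (by rw [Complex.sub_im, sp_im]; linarith [(hl i).2, hz.1])
    have h6 := hB (sp lnD i t) (by rw [sp_im]; exact (hl i).1) (by rw [sp_im]; linarith [(hl i).2])
    unfold wz
    rw [norm_mul]
    rw [Complex.sub_re, sp_re] at h5
    have h8 := exp_shift z.re t
    rw [abs_sub_comm] at h8
    have h9 : Real.exp |z.re| ≤ Real.exp ρ := Real.exp_le_exp.2 hz.2.2.le
    have h7 : ‖η (sp lnD i t - z)‖ ≤ |W| * Real.exp ρ * Real.exp (-|t|) := by
      refine h5.trans ?_
      calc W * Real.exp (-|t - z.re|) ≤ |W| * Real.exp (-|t - z.re|) :=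
            mul_le_mul_of_nonneg_right (le_abs_self W) (Real.exp_pos _).le
        _ ≤ |W| * (Real.exp |z.re| * Real.exp (-|t|)) := mul_le_mul_of_nonneg_left h8 (abs_nonneg W)
        _ ≤ |W| * (Real.exp ρ * Real.exp (-|t|)) := by gcongr
        _ = _ := by ring
    calc ‖η (sp lnD i t - z)‖ * ‖β (sp lnD i t)‖ ≤ (|W| * Real.exp ρ * Real.exp (-|t|)) * |B| :=
          mul_le_mul h7 (h6.trans (le_abs_self B)) (norm_nonneg _) (by positivity)
      _ = |W| * Real.exp ρ * |B| * Real.exp (-|t|) := by ring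

/-- the weights have uniformly bounded integrals -/
lemma CD.int (h : CD X η β q) (j : ℕ) : ∃ W : ℝ, ∀ z ∈ {z : ℂ | -(Real.pi / 50) < z.im ∧ z.im < 51 / 100 * Real.pi},
    Wt lnD (fun s => wz η β z s ^ (j + 1)) ∧ ∑ i, ∫ t, ‖wz η β z (sp lnD i t) ^ (j + 1)‖ ≤ W := by
  have hpi := Real.pi_pos
  obtain ⟨W, hW⟩ := h.eta
  have hb := h.b1 (22 / 75 * Real.pi) (by linarith)
  obtain ⟨B, hB⟩ := hb.bd
  have hl : ∀ i : Fin 3, 22 / 75 * Real.pi ≤ lnD i ∧ lnD i ≤ Real.pi / 3 := by
    have := (LS_D (e := Real.pi / 1000) (c := 47 / 150 * Real.pi) (by positivity) (by linarith) (by linarith)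
      (by linarith)).mem
    exact this
  obtain ⟨V, hV0, hV⟩ : ∃ V : ℝ, 0 ≤ V ∧ V = (|W| * |B|) ^ (j + 1) := ⟨_, by positivity, rfl⟩
  refine ⟨∑ _i : Fin 3, V * ∫ t : ℝ, Real.exp (-|t|), fun z hz => ⟨?_, ?_⟩⟩
  · exact ((h.hD hz.1 hz.2).wt (LS_D (e := Real.pi / 1000) (c := 47 / 150 * Real.pi) (by positivity) (by linarith)
      (by linarith) (by linarith))).pow j
  · refine Finset.sum_le_sum fun i _ => ?_
    have hbd : ∀ t : ℝ, ‖wz η β z (sp lnD i t) ^ (j + 1)‖ ≤ V * Real.exp (-|t - z.re|) := by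
      intro t
      have h5 := hW.bd (sp lnD i t - z) (by rw [Complex.sub_im, sp_im]; linarith [(hl i).1, hz.2])
        (by rw [Complex.sub_im, sp_im]; linarith [(hl i).2, hz.1])
      have h6 := hB (sp lnD i t) (by rw [sp_im]; exact (hl i).1) (by rw [sp_im]; linarith [(hl i).2])
      rw [Complex.sub_re, sp_re] at h5
      have h7 : ‖wz η β z (sp lnD i t)‖ ≤ |W| * |B| * Real.exp (-|t - z.re|) := by
        unfold wz
        rw [norm_mul]
        calc ‖η (sp lnD i t - z)‖ * ‖β (sp lnD i t)‖ ≤ (|W| * Real.exp (-|t - z.re|)) * |B| :=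
              mul_le_mul (h5.trans (mul_le_mul_of_nonneg_right (le_abs_self W) (Real.exp_pos _).le))
                (h6.trans (le_abs_self B)) (norm_nonneg _) (by positivity)
          _ = |W| * |B| * Real.exp (-|t - z.re|) := by ring
      rw [norm_pow]
      have h3 : Real.exp (-|t - z.re|) ^ (j + 1) ≤ Real.exp (-|t - z.re|) := by
        have h4 : Real.exp (-|t - z.re|) ≤ 1 := Real.exp_le_one_iff.2 (by simp)
        exact pow_le_of_le_one (Real.exp_pos _).le h4 (by omega)
      calc ‖wz η β z (sp lnD i t)‖ ^ (j + 1) ≤ (|W| * |B| * Real.exp (-|t - z.re|)) ^ (j + 1) := by gcongr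
        _ = V * Real.exp (-|t - z.re|) ^ (j + 1) := by rw [mul_pow, hV]
        _ ≤ V * Real.exp (-|t - z.re|) := by gcongr
    have hi : Integrable fun t : ℝ => V * Real.exp (-|t - z.re|) :=
      (int_exp.comp_sub_right z.re).const_mul V
    calc ∫ t, ‖wz η β z (sp lnD i t) ^ (j + 1)‖ ≤ ∫ t, V * Real.exp (-|t - z.re|) :=
          integral_mono_of_nonneg (Eventually.of_forall fun t => norm_nonneg _) hi (Eventually.of_forall hbd)
      _ = V * ∫ t : ℝ, Real.exp (-|t|) := by
          rw [integral_const_mul]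
          congr 1
          exact integral_sub_right_eq_self (fun t : ℝ => Real.exp (-|t|)) z.re

/-- **the right chart** -/
theorem TR_diff (hF : FH2 F) (hX : CD X η β q) (hY : CD Y η' β' q') (k k' : ℕ) :
    DifferentiableOn ℂ (TR F η β η' β' k k' X Y) {z | -(Real.pi / 50) < z.im ∧ z.im < 51 / 100 * Real.pi} ∧
      ∃ M : ℝ, ∀ z ∈ {z : ℂ | -(Real.pi / 50) < z.im ∧ z.im < 51 / 100 * Real.pi}, ‖TR F η β η' β' k k' X Y z‖ ≤ M := by
  have hpi := Real.pi_pos
  have LD : LS lnD (47 / 150 * Real.pi) (Real.pi / 100) := LS_D (by positivity) (by linarith) (by linarith) (by linarith)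
  obtain ⟨d, hd, a1, -, a3, a4⟩ := common LD LD (hX.wnX (c := 47 / 150 * Real.pi) (by linarith) (by linarith))
    (hY.wnX (c := 47 / 150 * Real.pi) (by linarith) (by linarith))
  have hA := hF.adm (47 / 150 * Real.pi) d hd
  constructor
  · intro z0 hz0
    obtain ⟨ρ, hρ⟩ : ∃ ρ, ρ = |z0.re| + 1 := ⟨_, rfl⟩
    obtain ⟨U, hU⟩ : ∃ U : Set ℂ, U = {z : ℂ | -(Real.pi / 50) < z.im ∧ z.im < 51 / 100 * Real.pi ∧ |z.re| < ρ} := ⟨_, rfl⟩
    have hUo : IsOpen U := by
      rw [hU]
      refine (isOpen_lt continuous_const Complex.continuous_im).inter ((isOpen_lt Complex.continuous_im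
        continuous_const).inter (isOpen_lt (continuous_abs.comp Complex.continuous_re) continuous_const))
    have hzU : z0 ∈ U := by
      rw [hU]
      exact ⟨hz0.1, hz0.2, by rw [hρ]; linarith⟩
    have hG : HZ U (Stp (47 / 150 * Real.pi) d) fun _ => F := by
      refine ⟨fun p q => ?_, fun X Y _ _ => differentiableOn_const _, fun p q => ?_⟩
      · exact (hA.cont p q).comp continuous_snd.continuousOn fun z hz => hz.2
      · obtain ⟨M, hM⟩ := hA.bdd p q
        exact ⟨M, fun z _ x y hx hy => hM x y hx hy⟩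
    have f1 := hX.fz ρ
    have f2 := hY.fz ρ
    rw [← hU] at f1 f2
    have hT := (hG.wopY hUo LD.e a1 f2 k').wopX hUo LD.e a1 f1 k
    have h1 := hT.diff X Y a3 a4 z0 hzU
    exact (h1.differentiableAt (hUo.mem_nhds hzU)).differentiableWithinAt
  · have hG : BZ {z : ℂ | -(Real.pi / 50) < z.im ∧ z.im < 51 / 100 * Real.pi} (Stp (47 / 150 * Real.pi) d) fun _ => F := by
      intro p q
      obtain ⟨M, hM⟩ := hA.bd_list p q
      exact ⟨M, fun z _ X Y h1 h2 h3 h4 => hM X Y h1 h2 h3 h4⟩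
    obtain ⟨M, hM⟩ := ((hG.wopY LD.e a1 (fun j => hY.int j) k').wopX LD.e a1 (fun j => hX.int j) k) X.length Y.length
    exact ⟨M, fun z hz => hM z hz X Y rfl rfl a3 a4⟩

/-! ### the reflected data -/

lemma HolE.rf {w : ℂ → ℂ} {a b : ℝ} (h : HolE w a b) : HolE (fun s => w (-s)) (-b) (-a) := by
  have him : ∀ z : ℂ, (-z).im = -z.im := fun z => Complex.neg_im z
  obtain ⟨W, hW⟩ := h
  refine ⟨W, ?_, fun z h1 h2 => ?_, fun z h1 h2 => ?_⟩
  · refine hW.cont.comp continuous_neg.continuousOn fun z hz => ?_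
    show a ≤ (-z).im ∧ (-z).im ≤ b
    rw [him]
    exact ⟨by linarith [hz.2], by linarith [hz.1]⟩
  · have h5 := hW.diff (-z) (by rw [him]; linarith) (by rw [him]; linarith)
    exact DifferentiableAt.comp (g := w) (f := fun z => -z) z h5 (by fun_prop)
  · have h5 := hW.bd (-z) (by rw [him]; linarith) (by rw [him]; linarith)
    rwa [Complex.neg_re, abs_neg] at h5

lemma BH.rf {w : ℂ → ℂ} {a b : ℝ} (h : BH w a b) : BH (fun s => w (-s)) (-b) (-a) := by
  have him : ∀ z : ℂ, (-z).im = -z.im := fun z => Complex.neg_im z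
  obtain ⟨W, hW⟩ := h.bd
  refine ⟨?_, fun z h1 h2 => ?_, W, fun z h1 h2 => ?_⟩
  · refine h.cont.comp continuous_neg.continuousOn fun z hz => ?_
    show a ≤ (-z).im ∧ (-z).im ≤ b
    rw [him]
    exact ⟨by linarith [hz.2], by linarith [hz.1]⟩
  · have h5 := h.diff (-z) (by rw [him]; linarith) (by rw [him]; linarith)
    exact DifferentiableAt.comp (g := w) (f := fun z => -z) z h5 (by fun_prop)
  · exact hW (-z) (by rw [him]; linarith) (by rw [him]; linarith)

theorem CD.rf (h : CD X η β q) : CD (ng X) (fun s => η (-s)) (fun s => β (-s)) fun s => q (-s) := by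
  refine ⟨fun v hv => ?_, ?_, fun a b ha hb => ?_, fun a ha => ?_, fun b hb => ?_, ?_, fun z h1 h2 => ?_⟩
  · unfold ng at hv
    rw [List.mem_map] at hv
    obtain ⟨u, hu, rfl⟩ := hv
    rw [Complex.neg_im, abs_neg]
    exact h.mem u hu
  · have := h.eta.rf
    rwa [neg_neg] at this
  · have := (h.b0 (-b) (-a) (by linarith) (by linarith)).rf
    rwa [neg_neg, neg_neg] at this
  · have := (h.b2 (-a) (by linarith)).rf
    rwa [neg_neg, neg_neg] at this
  · have := (h.b1 (-b) (by linarith)).rf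
    rwa [neg_neg] at this
  · have := h.bq.rf
    rwa [neg_neg] at this
  · have := h.eq (-z) (by rw [Complex.neg_im, abs_neg]; exact h1) (by rw [Complex.neg_im, abs_neg]; exact h2)
    rw [this, Lam_ng]

lemma wz_rf (η β : ℂ → ℂ) (z : ℂ) : wz (fun s => η (-s)) (fun s => β (-s)) (-z) = fun s => wz η β z (-s) := by
  funext θ
  unfold wz
  simp only
  rw [show -(θ - -z) = -θ - z by ring]

/-- the centre of the chart -/
theorem TR_C (hF : FH2 F) (hX : CD X η β q) (hY : CD Y η' β' q') (k k' : ℕ) {z : ℂ} (hz : |z.im| < Real.pi / 50)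
    {δ e : ℝ} (hδ : δ < Real.pi / 6) (he : 0 < e) (hed : e < δ) :
    TT2 (lnC δ) (lnC δ) e e (wz η β z) (wz η' β' z) k k' F X Y = TR F η β η' β' k k' X Y z := by
  have hpi := Real.pi_pos
  exact cross hF (hX.pd hz) (hY.pd hz) hδ he hed (by positivity) (by linarith) k k'

/-- the two charts agree near the real axis -/
theorem TR_rf (hs : StarP) (hF : FH F) (hX : CD X η β q) (hY : CD Y η' β' q') (k k' : ℕ) {z : ℂ}
    (hz : |z.im| < Real.pi / 50) : TR F η β η' β' k k' X Y z =
      TR (Fng F) (fun s => η (-s)) (fun s => β (-s)) (fun s => η' (-s)) (fun s => β' (-s)) k k' (ng X) (ng Y) (-z) := by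
  have hpi := Real.pi_pos
  have hz' : |(-z).im| < Real.pi / 50 := by rwa [Complex.neg_im, abs_neg]
  rw [← TR_C (FH2_of hs hF) hX hY k k' hz (δ := Real.pi / 12) (e := Real.pi / 100) (by linarith) (by positivity)
    (by linarith), ← TR_C (FH2_of hs hF.ng) hX.rf hY.rf k k' hz' (δ := Real.pi / 12) (e := Real.pi / 100) (by linarith)
    (by positivity) (by linarith), wz_rf, wz_rf]
  have hC : LS (lnC (Real.pi / 12)) 0 (Real.pi / 100) := LS_C (by linarith) (by positivity) (by linarith) (by linarith)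
  refine refl2 hs hF hC ?_ ?_ (hX.wnX (by linarith) (by linarith)) (hY.wnX (by linarith) (by linarith)) k k'
  · exact (hX.pd hz).lo _ _ (by linarith) (by linarith)
  · exact (hY.pd hz).lo _ _ (by linarith) (by linarith)

/-- the edge of the chart -/
theorem TR_E (hF : FH2 F) (hX : CD X η β q) (hY : CD Y η' β' q') (k k' : ℕ) {z : ℂ} (hz : z.im = Real.pi / 2)
    {e e' : ℝ} (he : 0 < e) (he1 : e < Real.pi / 60) (he' : 0 < e') (he1' : e' < Real.pi / 60) :
    TR F η β η' β' k k' X Y z = TT2 lnE lnE e e' (wz η β z) (wz η' β' z) k k' F X Y := by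
  have hpi := Real.pi_pos
  obtain ⟨c, hc⟩ : ∃ c, c = 19 / 60 * Real.pi := ⟨_, rfl⟩
  have LD : LS lnD c (Real.pi / 100) := LS_D (by positivity) (by linarith) (by linarith) (by linarith)
  have LE : LS lnE c e := LS_E he (by linarith) (by linarith)
  have LE' : LS lnE c e' := LS_E he' (by linarith) (by linarith)
  have wD : HolE (wz η β z) (lnD 0) (lnD 2) := hX.hD (by linarith) (by linarith)
  have wD' : HolE (wz η' β' z) (lnD 0) (lnD 2) := hY.hD (by linarith) (by linarith)
  have wE : HolE (wz η β z) (lnE 0) (lnE 2) := by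
    have h3 : HolE (wz η β z) (3 / 10 * Real.pi) (7 / 10 * Real.pi) :=
      hX.eta.shMul ((hX.b1 (3 / 10 * Real.pi) (by linarith)).mono le_rfl (by linarith)) (by linarith) (by linarith)
    exact h3
  have wE' : HolE (wz η' β' z) (lnE 0) (lnE 2) := by
    have h3 : HolE (wz η' β' z) (3 / 10 * Real.pi) (7 / 10 * Real.pi) :=
      hY.eta.shMul ((hY.b1 (3 / 10 * Real.pi) (by linarith)).mono le_rfl (by linarith)) (by linarith) (by linarith)
    exact h3
  have hXc : Wn c X := hX.wnX (by linarith) (by linarith)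
  have hYc : Wn c Y := hY.wnX (by linarith) (by linarith)
  have gX : HolE (fun θ => η (θ - z) * q θ) (min c c) (max c c) := by
    rw [min_self, max_self]
    exact hX.eta.shMul (hX.bq.mono (by linarith) (by linarith)) (by linarith) (by linarith)
  have gY : HolE (fun θ => η' (θ - z) * q' θ) (min c c) (max c c) := by
    rw [min_self, max_self]
    exact hY.eta.shMul (hY.bq.mono (by linarith) (by linarith)) (by linarith) (by linarith)
  have eX : ∀ x, η (ln c x - z) * q (ln c x) = Lam X (ln c x) * wz η β z (ln c x) := by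
    intro x
    have e1 : |(ln c x).im| = c := by rw [ln_im, abs_of_nonneg (by linarith)]
    rw [hX.eq (ln c x) (by rw [e1]; linarith) (by rw [e1]; intro h; linarith)]
    unfold wz
    ring
  have eY : ∀ x, η' (ln c x - z) * q' (ln c x) = Lam Y (ln c x) * wz η' β' z (ln c x) := by
    intro x
    have e1 : |(ln c x).im| = c := by rw [ln_im, abs_of_nonneg (by linarith)]
    rw [hY.eq (ln c x) (by rw [e1]; linarith) (by rw [e1]; intro h; linarith)]
    unfold wz
    ring
  unfold TR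
  rw [move_X (k := k) (k' := k') hF LD LE LD LD wD wE wD' hXc hXc hYc hYc gX eX eX,
    move_Y (k := k) (k' := k') hF LD LE' LE LE wD' wE' wE hXc hXc hYc hYc gY eY eY]

/-- **CHART**: the coefficients are the values of one bounded holomorphic function on `|Im z| < 1.53 l`; its value at `0`
is the coefficient on the central lines, its values on `Im z = ± 1.5 l` are coefficients on the lines `(.9, 1.1, 2.1) l`, of
`F` and of the reflected function. -/
theorem chart (hs : StarP) (hF : FH F) (hX : CD X η β q) (hY : CD Y η' β' q') (k k' : ℕ) : ∃ T : ℂ → ℂ,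
    DifferentiableOn ℂ T {z | |z.im| < 51 / 100 * Real.pi} ∧
    (∃ M : ℝ, ∀ z : ℂ, |z.im| < 51 / 100 * Real.pi → ‖T z‖ ≤ M) ∧
    (∀ δ e : ℝ, δ < Real.pi / 6 → 0 < e → e < δ →
      T 0 = TT2 (lnC δ) (lnC δ) e e (wz η β 0) (wz η' β' 0) k k' F X Y) ∧
    (∀ z : ℂ, z.im = Real.pi / 2 → ∀ e e' : ℝ, 0 < e → e < Real.pi / 60 → 0 < e' → e' < Real.pi / 60 →
      T z = TT2 lnE lnE e e' (wz η β z) (wz η' β' z) k k' F X Y) ∧
    (∀ z : ℂ, z.im = -(Real.pi / 2) → ∀ e e' : ℝ, 0 < e → e < Real.pi / 60 → 0 < e' → e' < Real.pi / 60 →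
      T z = TT2 lnE lnE e e' (wz (fun s => η (-s)) (fun s => β (-s)) (-z)) (wz (fun s => η' (-s)) (fun s => β' (-s)) (-z))
        k k' (Fng F) (ng X) (ng Y)) := by
  have hpi := Real.pi_pos
  obtain ⟨R, hR⟩ : ∃ R : ℂ → ℂ, R = TR F η β η' β' k k' X Y := ⟨_, rfl⟩
  obtain ⟨L, hL⟩ : ∃ L : ℂ → ℂ, L = fun z => TR (Fng F) (fun s => η (-s)) (fun s => β (-s)) (fun s => η' (-s))
    (fun s => β' (-s)) k k' (ng X) (ng Y) (-z) := ⟨_, rfl⟩
  have hRL : ∀ z : ℂ, |z.im| < Real.pi / 50 → R z = L z := fun z hz => by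
    rw [hR, hL]
    exact TR_rf hs hF hX hY k k' hz
  obtain ⟨R1, M1, R2⟩ := TR_diff (FH2_of hs hF) hX hY k k'
  obtain ⟨L1, M2, L2⟩ := TR_diff (FH2_of hs hF.ng) hX.rf hY.rf k k'
  rw [← hR] at R1
  have hT : ∀ z : ℂ, -(Real.pi / 50) < z.im → (if 0 ≤ z.im then R z else L z) = R z := by
    intro z hz
    split_ifs with h
    · rfl
    · rw [hRL z]
      rw [abs_lt]
      exact ⟨hz, by linarith⟩
  have hT' : ∀ z : ℂ, z.im < Real.pi / 50 → (if 0 ≤ z.im then R z else L z) = L z := by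
    intro z hz
    split_ifs with h
    · rw [hRL z]
      rw [abs_lt]
      exact ⟨by linarith, hz⟩
    · rfl
  refine ⟨fun z => if 0 ≤ z.im then R z else L z, fun z hz => ?_, ⟨max M1 M2, fun z hz => ?_⟩, fun δ e h1 h2 h3 => ?_,
    fun z hz e e' h1 h2 h3 h4 => ?_, fun z hz e e' h1 h2 h3 h4 => ?_⟩
  · obtain ⟨z1, z2⟩ := abs_lt.1 (show |z.im| < 51 / 100 * Real.pi from hz)
    refine DifferentiableAt.differentiableWithinAt ?_
    rcases lt_or_ge z.im 0 with h | h
    · -- left chart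
      have ho : IsOpen {u : ℂ | -(51 / 100 * Real.pi) < u.im ∧ u.im < Real.pi / 50} :=
        (isOpen_lt continuous_const Complex.continuous_im).inter (isOpen_lt Complex.continuous_im continuous_const)
      have hm : {u : ℂ | -(51 / 100 * Real.pi) < u.im ∧ u.im < Real.pi / 50} ∈ 𝓝 z := ho.mem_nhds ⟨z1, by linarith⟩
      have hd : DifferentiableAt ℂ L z := by
        have h5 : DifferentiableAt ℂ (TR (Fng F) (fun s => η (-s)) (fun s => β (-s)) (fun s => η' (-s))
            (fun s => β' (-s)) k k' (ng X) (ng Y)) (-z) := by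
          have ho2 : IsOpen {z : ℂ | -(Real.pi / 50) < z.im ∧ z.im < 51 / 100 * Real.pi} :=
            (isOpen_lt continuous_const Complex.continuous_im).inter (isOpen_lt Complex.continuous_im continuous_const)
          refine L1.differentiableAt (ho2.mem_nhds ?_)
          show -(Real.pi / 50) < (-z).im ∧ (-z).im < 51 / 100 * Real.pi
          rw [Complex.neg_im]
          exact ⟨by linarith, by linarith⟩
        rw [hL]
        exact DifferentiableAt.comp (g := TR (Fng F) (fun s => η (-s)) (fun s => β (-s)) (fun s => η' (-s))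
            (fun s => β' (-s)) k k' (ng X) (ng Y)) (f := fun z => -z) z h5 (by fun_prop)
      refine hd.congr_of_eventuallyEq ?_
      filter_upwards [hm] with u hu
      exact hT' u hu.2
    · have ho : IsOpen {u : ℂ | -(Real.pi / 50) < u.im ∧ u.im < 51 / 100 * Real.pi} :=
        (isOpen_lt continuous_const Complex.continuous_im).inter (isOpen_lt Complex.continuous_im continuous_const)
      have hm : {u : ℂ | -(Real.pi / 50) < u.im ∧ u.im < 51 / 100 * Real.pi} ∈ 𝓝 z := ho.mem_nhds ⟨by linarith, z2⟩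
      have hd : DifferentiableAt ℂ R z := R1.differentiableAt hm
      refine hd.congr_of_eventuallyEq ?_
      filter_upwards [hm] with u hu
      exact hT u hu.1
  · obtain ⟨z1, z2⟩ := abs_lt.1 hz
    simp only
    split_ifs with h
    · rw [hR]
      exact (R2 z ⟨by linarith, z2⟩).trans (le_max_left _ _)
    · rw [hL]
      refine (L2 (-z) ?_).trans (le_max_right _ _)
      show -(Real.pi / 50) < (-z).im ∧ (-z).im < 51 / 100 * Real.pi
      rw [Complex.neg_im]
      push Not at h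
      exact ⟨by linarith, by linarith⟩
  · simp only
    rw [hT 0 (by simp; positivity), hR]
    exact (TR_C (FH2_of hs hF) hX hY k k' (by simp; positivity) h1 h2 h3).symm
  · simp only
    rw [hT z (by linarith), hR]
    exact TR_E (FH2_of hs hF) hX hY k k' hz h1 h2 h3 h4
  · simp only
    rw [hT' z (by linarith), hL]
    exact TR_E (FH2_of hs hF.ng) hX.rf hY.rf k k' (by rw [Complex.neg_im, hz, neg_neg]) h1 h2 h3 h4

end

end DRX

end
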