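import Pool.Agent.DRX.Op

/-!
# Decay of `tau`, `Lam`; the classes `Kc`; coefficients as circle averages
-/

set_option autoImplicit false

noncomputable section

open Complex MeasureTheory Filter Topology

namespace DRX

open DUA DUA.Pf

/-! ### `tau` -/

/-- the denominator of `tau` -/
theorem tau_den (z : ℂ) : Complex.cosh z + ((Real.sqrt 3 / 2 : ℝ) : ℂ) =
    2 * (Complex.cosh ((z + a6) / 2) * Complex.cosh ((z - a6) / 2)) := by
  rw [← cosh_a6]
  have h1 := Complex.cosh_add ((z + a6) / 2) ((z - a6) / 2)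
  have h2 := Complex.cosh_sub ((z + a6) / 2) ((z - a6) / 2)
  rw [show (z + a6) / 2 + (z - a6) / 2 = z by ring] at h1
  rw [show (z + a6) / 2 - (z - a6) / 2 = a6 by ring] at h2
  rw [h1, h2]
  ring

theorem a6_im : a6.im = Real.pi / 6 := by
  unfold a6
  simp

theorem a6_re : a6.re = 0 := by
  unfold a6
  simp

/-- the denominator is at least `c e^{|Re z|}` -/
theorem tau_den_low {d : ℝ} (hd : d < 5 * Real.pi / 6) : ∃ m : ℝ, 0 < m ∧ ∀ z : ℂ, |z.im| ≤ d →
    m * Real.exp |z.re| ≤ ‖Complex.cosh z + ((Real.sqrt 3 / 2 : ℝ) : ℂ)‖ := by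
  set h : ℝ := max d 0 + Real.pi / 6 with hh
  have hpi := Real.pi_pos
  have h0 : 0 ≤ h := by have := le_max_right d 0; positivity
  have h1 : h < Real.pi := by
    rw [hh]
    rcases max_cases d 0 with ⟨h2, _⟩ | ⟨h2, _⟩ <;> rw [h2] <;> linarith
  have h2 := ker_cos_pos h0 h1
  refine ⟨(1 + Real.cos h) / 4, h2, fun z hz => ?_⟩
  have key : ∀ s : ℝ, |s| ≤ h → ∀ w : ℂ, w.im = s → w.re = z.re →
      (1 + Real.cos h) / 4 * Real.exp |z.re| ≤ 2 * ‖Complex.cosh (w / 2)‖ ^ 2 := by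
    intro s hs w hw1 hw2
    rw [ker_cosh_sq, hw1, hw2]
    have := ker_low h0 h1 hs z.re
    linarith
  have hzd : |z.im| ≤ max d 0 := hz.trans (le_max_left _ _)
  have e1 := key (z.im + Real.pi / 6) (by
    rw [hh]; refine (abs_add_le _ _).trans ?_; rw [abs_of_pos (by positivity : 0 < Real.pi / 6)]; linarith)
    (z + a6) (by rw [Complex.add_im, a6_im]) (by rw [Complex.add_re, a6_re, add_zero])
  have e2 := key (z.im - Real.pi / 6) (by
    rw [hh]; refine (abs_sub _ _).trans ?_; rw [abs_of_pos (by positivity : 0 < Real.pi / 6)]; linarith)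
    (z - a6) (by rw [Complex.sub_im, a6_im]) (by rw [Complex.sub_re, a6_re, sub_zero])
  rw [tau_den, norm_mul, norm_mul, Complex.norm_ofNat]
  have hp : 0 ≤ (1 + Real.cos h) / 4 * Real.exp |z.re| := by positivity
  set a := ‖Complex.cosh ((z + a6) / 2)‖
  set b := ‖Complex.cosh ((z - a6) / 2)‖
  have ha : 0 ≤ a := norm_nonneg _
  have hb : 0 ≤ b := norm_nonneg _
  by_contra hc
  push Not at hc
  have h3 : (2 * (a * b)) ^ 2 < ((1 + Real.cos h) / 4 * Real.exp |z.re|) ^ 2 :=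
    pow_lt_pow_left₀ hc (by positivity) two_ne_zero
  have h4 := mul_le_mul e1 e2 hp (by positivity)
  nlinarith

theorem tau_den_ne {z : ℂ} (hz : |z.im| < 5 * Real.pi / 6) :
    Complex.cosh z + ((Real.sqrt 3 / 2 : ℝ) : ℂ) ≠ 0 := by
  obtain ⟨m, hm, h⟩ := tau_den_low hz
  exact norm_pos_iff.1 (lt_of_lt_of_le (by positivity) (h z le_rfl))

theorem tau_diffAt {z : ℂ} (hz : |z.im| < 5 * Real.pi / 6) : DifferentiableAt ℂ tau z := by
  have h1 : tau = fun z => (Complex.cosh z - ((Real.sqrt 3 / 2 : ℝ) : ℂ)) /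
    (Complex.cosh z + ((Real.sqrt 3 / 2 : ℝ) : ℂ)) := funext tau_eq
  rw [h1]
  have hc : DifferentiableAt ℂ Complex.cosh z := (Complex.hasDerivAt_cosh z).differentiableAt
  exact (hc.sub_const _).div (hc.add_const _) (tau_den_ne hz)

/-- **decay of `tau - 1`** -/
theorem tau_dec {d : ℝ} (hd : d < 5 * Real.pi / 6) : ∃ C : ℝ, 0 ≤ C ∧ ∀ z : ℂ, |z.im| ≤ d →
    ‖tau z - 1‖ ≤ C * Real.exp (-|z.re|) := by
  obtain ⟨m, hm, h⟩ := tau_den_low hd
  refine ⟨2 / m, by positivity, fun z hz => ?_⟩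
  obtain ⟨s0, s1, s2⟩ := ker_s3
  have hl := h z hz
  have hp : 0 < ‖Complex.cosh z + ((Real.sqrt 3 / 2 : ℝ) : ℂ)‖ := lt_of_lt_of_le (by positivity) hl
  have hne : Complex.cosh z + ((Real.sqrt 3 / 2 : ℝ) : ℂ) ≠ 0 := norm_pos_iff.1 hp
  have h1 : tau z - 1 = -((Real.sqrt 3 : ℝ) : ℂ) / (Complex.cosh z + ((Real.sqrt 3 / 2 : ℝ) : ℂ)) := by
    rw [tau_eq, div_sub_one hne]
    congr 1
    push_cast
    ring
  rw [h1, norm_div, norm_neg, Complex.norm_real, Real.norm_of_nonneg s0.le, div_le_iff₀ hp]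
  have he : Real.exp (-|z.re|) * Real.exp |z.re| = 1 := by rw [← Real.exp_add]; simp
  calc Real.sqrt 3 ≤ 2 := s1
    _ = 2 / m * Real.exp (-|z.re|) * (m * Real.exp |z.re|) := by
        have : 2 / m * Real.exp (-|z.re|) * (m * Real.exp |z.re|) =
          2 / m * m * (Real.exp (-|z.re|) * Real.exp |z.re|) := by ring
        rw [this, he, div_mul_cancel₀ _ hm.ne', mul_one]
    _ ≤ _ := mul_le_mul_of_nonneg_left hl (by positivity)

/-! ### the line -/

@[simp] theorem ln_re (c x : ℝ) : (ln c x).re = x := by unfold ln; simp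

@[simp] theorem ln_im (c x : ℝ) : (ln c x).im = c := by unfold ln; simp

theorem cont_ln (c : ℝ) : Continuous (ln c) := by unfold ln; fun_prop

theorem ip_im : ip.im = Real.pi := by unfold ip; simp

theorem ip_re : ip.re = 0 := by unfold ip; simp

/-! ### the classes -/

theorem Kc_mono {A B : ℝ} (h : A ≤ B) : Kc A ⊆ Kc B := fun _ hL =>
  ⟨hL.1, fun x => (hL.2 x).trans (mul_le_mul_of_nonneg_right h (Real.exp_pos _).le)⟩

theorem Kc_mul {A B : ℝ} (hA : 0 ≤ A) {L L' : ℝ → ℂ} (h : L ∈ Kc A) (h' : L' ∈ Kc B) :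
    (fun x => L x * L' x) ∈ Kc (A + B + A * B) := by
  refine ⟨h.1.mul h'.1, fun x => ?_⟩
  have e : L x * L' x - 1 = (L x - 1) + (L' x - 1) + (L x - 1) * (L' x - 1) := by ring
  have h1 := h.2 x
  have h2 := h'.2 x
  have h3 : Real.exp (-|x|) ≤ 1 := Real.exp_le_one_iff.2 (neg_nonpos.2 (abs_nonneg x))
  have h4 := Real.exp_pos (-|x|)
  have hB : 0 ≤ B := by
    by_contra hc
    push Not at hc
    have := (norm_nonneg _).trans h2
    nlinarith
  have h5 : ‖(L x - 1) * (L' x - 1)‖ ≤ A * B * Real.exp (-|x|) := by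
    rw [norm_mul]
    calc ‖L x - 1‖ * ‖L' x - 1‖ ≤ (A * Real.exp (-|x|)) * (B * Real.exp (-|x|)) :=
          mul_le_mul h1 h2 (norm_nonneg _) (by positivity)
      _ = A * B * Real.exp (-|x|) * Real.exp (-|x|) := by ring
      _ ≤ A * B * Real.exp (-|x|) * 1 := mul_le_mul_of_nonneg_left h3 (by positivity)
      _ = _ := mul_one _
  rw [e]
  refine (norm_add₃_le).trans ?_
  have e2 : (A + B + A * B) * Real.exp (-|x|) = A * Real.exp (-|x|) + B * Real.exp (-|x|) +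
    A * B * Real.exp (-|x|) := by ring
  rw [e2]
  linarith

theorem exp_shift (t x : ℝ) : Real.exp (-|t - x|) ≤ Real.exp |t| * Real.exp (-|x|) := by
  rw [← Real.exp_add]
  refine Real.exp_le_exp.2 ?_
  have := abs_sub_abs_le_abs_sub x t
  rw [abs_sub_comm x t] at this
  linarith

/-- one row -/
theorem tau_Kc {c d : ℝ} (hd : d < 5 * Real.pi / 6) : ∃ C : ℝ, 0 ≤ C ∧ ∀ v : ℂ, |v.im - c| ≤ d →
    (fun x => tau (v - ln c x)) ∈ Kc (C * Real.exp |v.re|) := by
  obtain ⟨C, hC0, hC⟩ := tau_dec hd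
  refine ⟨C, hC0, fun v hv => ⟨?_, fun x => ?_⟩⟩
  · refine continuous_iff_continuousAt.2 fun x => ?_
    have h1 : |(v - ln c x).im| < 5 * Real.pi / 6 := by
      rw [Complex.sub_im, ln_im]; exact lt_of_le_of_lt hv hd
    have h2 : ContinuousAt tau (v - ln c x) := (tau_diffAt h1).continuousAt
    exact ContinuousAt.comp (f := fun x => v - ln c x) (g := tau) h2
      (continuous_const.sub (cont_ln c)).continuousAt
  · have h := hC (v - ln c x) (by rw [Complex.sub_im, ln_im]; exact hv)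
    rw [Complex.sub_re, ln_re] at h
    refine h.trans ?_
    rw [mul_assoc]
    exact mul_le_mul_of_nonneg_left (exp_shift _ _) hC0

theorem Lam_nil (θ : ℂ) : Lam [] θ = 1 := by simp [Lam]

theorem Lam_cons (v : ℂ) (I : List ℂ) (θ : ℂ) : Lam (v :: I) θ = tau (v - θ) * Lam I θ := by simp [Lam]

/-- **contents are in the class** -/
theorem Lam_Kc {c : ℝ} {I : List ℂ} (hI : Wn c I) : ∃ A : ℝ, 0 ≤ A ∧ (fun x => Lam I (ln c x)) ∈ Kc A := by
  induction I with
  | nil =>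
    refine ⟨0, le_rfl, ?_, fun x => ?_⟩
    · simp only [Lam_nil]; exact continuous_const
    · simp [Lam_nil]
  | cons v I ih =>
    obtain ⟨A, hA0, hA⟩ := ih fun u hu => hI u (List.mem_cons_of_mem _ hu)
    obtain ⟨C, hC0, hC⟩ := tau_Kc (c := c) (hI v List.mem_cons_self)
    have h1 := Kc_mul (by positivity) (hC v le_rfl) hA
    refine ⟨C * Real.exp |v.re| + A + C * Real.exp |v.re| * A, by positivity, ?_⟩
    simp only [Lam_cons]
    exact h1

/-! ### line systems, weights, the functions of STAR -/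

/-- a line system with its window point `c` and radius `e0` -/
structure LS (r : Fin 3 → ℝ) (c e0 : ℝ) : Prop where
  e : 0 < e0
  a : r 0 + e0 < c
  b : c < r 2
  m01 : r 0 ≤ r 1
  m12 : r 1 ≤ r 2
  wd : r 2 - r 0 < 2 * Real.pi / 3
  mid : |r 1 - c| + e0 < Real.pi / 3

/-- holomorphic with decay on the closed strip `a ≤ Im ≤ b` -/
structure Hol (w : ℂ → ℂ) (a b W : ℝ) : Prop where
  cont : ContinuousOn w {z | a ≤ z.im ∧ z.im ≤ b}
  diff : ∀ z : ℂ, a < z.im → z.im < b → DifferentiableAt ℂ w z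
  bd : ∀ z : ℂ, a ≤ z.im → z.im ≤ b → ‖w z‖ ≤ W * Real.exp (-|z.re|)

/-- the argument of the functional -/
def fam (c : ℝ) (w : ℂ → ℂ) (I : List ℂ) (τ : ℂ) (x : ℝ) : ℂ := Lam I (ln c x) * (1 + τ * w (ln c x))

/-- `τ ↦ Ψ (Lam_I (1 + τ w))` -/
def hh (Ψ : (ℝ → ℂ) → ℂ) (c : ℝ) (w : ℂ → ℂ) (I : List ℂ) (τ : ℂ) : ℂ := Ψ (fam c w I τ)

/-! ### coefficients -/

/-- the circle -/
def m1 : Measure ℝ := volume.restrict (Set.Ioc 0 (2 * Real.pi))

instance : IsFiniteMeasure m1 := by unfold m1; infer_instance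

theorem m0_eq : m0 = (volume : Measure ℝ).prod m1 := rfl

/-- the average over the circle of one strand of the line `i` at the height `t` -/
def HH (Ψ : (ℝ → ℂ) → ℂ) (c : ℝ) (w : ℂ → ℂ) (r : Fin 3 → ℝ) (e0 : ℝ) (I : List ℂ) (i : Fin 3) (t : ℝ) (τ : ℂ) : ℂ :=
  ∫ φ, (2 * Real.pi * circleMap 0 e0 φ)⁻¹ * hh Ψ c w (st r e0 i (t, φ) I) τ ∂m1

/-- Taylor coefficient as a circle average -/
def co (ρ : ℝ) (m : ℕ) (h : ℂ → ℂ) : ℂ :=
  ∫ ψ, (2 * Real.pi * circleMap 0 ρ ψ ^ m)⁻¹ * h (circleMap 0 ρ ψ) ∂m1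

theorem co_eq {ρ : ℝ} (hρ : 0 < ρ) (m : ℕ) (h : ℂ → ℂ) :
    co ρ m h = (2 * Real.pi * I)⁻¹ * ∮ z in C(0, ρ), (z ^ (m + 1))⁻¹ * h z := by
  unfold co m1
  rw [circleIntegral_def_Icc, integral_Icc_eq_integral_Ioc, ← integral_const_mul]
  refine integral_congr_ae (Eventually.of_forall fun ψ => ?_)
  simp only [deriv_circleMap, smul_eq_mul]
  have h1 : circleMap 0 ρ ψ ≠ 0 := circleMap_ne_center hρ.ne'
  have h2 : (Real.pi : ℂ) ≠ 0 := Complex.ofReal_ne_zero.2 Real.pi_pos.ne'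
  rw [pow_succ]
  have h3 : circleMap 0 ρ ψ ^ m ≠ 0 := pow_ne_zero _ h1
  field_simp

/-- the average of a holomorphic function -/
theorem co_zero {ρ R : ℝ} (hρ : 0 < ρ) (hR : ρ < R) {h : ℂ → ℂ} (hh : DifferentiableOn ℂ h (Metric.ball 0 R)) :
    co ρ 0 h = h 0 := by
  rw [co_eq hρ]
  have h1 : DiffContOnCl ℂ h (Metric.ball 0 ρ) :=
    hh.diffContOnCl_ball (Metric.closedBall_subset_ball hR)
  have h2 := h1.circleIntegral_sub_inv_smul (w := 0) (Metric.mem_ball_self hρ)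
  simp only [sub_zero, smul_eq_mul] at h2
  simp only [zero_add, pow_one]
  rw [h2]
  have h3 : (2 * (Real.pi : ℂ) * I) ≠ 0 := Complex.two_pi_I_ne_zero
  field_simp

/-- integration by parts -/
theorem co_deriv {ρ R : ℝ} (hρ : 0 < ρ) (hR : ρ < R) {h : ℂ → ℂ} (hh : DifferentiableOn ℂ h (Metric.ball 0 R))
    (m : ℕ) : ((m : ℂ) + 1) * co ρ (m + 1) h = co ρ m (deriv h) := by
  rw [co_eq hρ, co_eq hρ]
  have hsub : Metric.sphere (0 : ℂ) ρ ⊆ Metric.ball 0 R := fun z hz => by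
    rw [mem_sphere_zero_iff_norm] at hz
    rw [mem_ball_zero_iff, hz]
    exact hR
  have hne : ∀ z ∈ Metric.sphere (0 : ℂ) ρ, z ≠ 0 := fun z hz => by
    rw [mem_sphere_zero_iff_norm] at hz
    exact norm_pos_iff.1 (by rw [hz]; exact hρ)
  have hder : ∀ z ∈ Metric.sphere (0 : ℂ) ρ, HasDerivAt (fun z => (z ^ (m + 1))⁻¹ * h z)
      ((z ^ (m + 1))⁻¹ * deriv h z - ((m : ℂ) + 1) * ((z ^ (m + 2))⁻¹ * h z)) z := by
    intro z hz
    have h1 := hne z hz
    have h2 : HasDerivAt (fun z : ℂ => (z ^ (m + 1))⁻¹) (-(((m + 1 : ℕ) : ℂ) * z ^ m) / (z ^ (m + 1)) ^ 2) z := by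
      have h5 := (hasDerivAt_pow (m + 1) z).inv (pow_ne_zero _ h1)
      rw [Nat.add_sub_cancel] at h5
      exact h5
    have h3 := ((hh.differentiableAt (Metric.isOpen_ball.mem_nhds (hsub hz))).hasDerivAt)
    refine (h2.mul h3).congr_deriv ?_
    have e1 : z ^ (m + 1) = z ^ m * z := pow_succ z m
    have e2 : z ^ (m + 2) = z ^ m * z * z := by rw [pow_succ, pow_succ]
    have h4 : z ^ m ≠ 0 := pow_ne_zero _ h1
    rw [e1, e2]
    push_cast
    field_simp
    ring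
  have key := circleIntegral.integral_eq_zero_of_hasDerivWithinAt hρ.le
    (fun z hz => (hder z hz).hasDerivWithinAt (s := Metric.sphere 0 ρ))
  have hc1 : ContinuousOn (fun z : ℂ => (z ^ (m + 1))⁻¹ * deriv h z) (Metric.sphere 0 ρ) := by
    refine ContinuousOn.mul (ContinuousOn.inv₀ (by fun_prop) fun z hz => pow_ne_zero _ (hne z hz)) ?_
    exact ((hh.deriv Metric.isOpen_ball).continuousOn).mono hsub
  have hc2 : ContinuousOn (fun z : ℂ => ((m : ℂ) + 1) * ((z ^ (m + 2))⁻¹ * h z)) (Metric.sphere 0 ρ) := by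
    refine ContinuousOn.mul continuousOn_const (ContinuousOn.mul (ContinuousOn.inv₀ (by fun_prop)
      fun z hz => pow_ne_zero _ (hne z hz)) ?_)
    exact hh.continuousOn.mono hsub
  rw [circleIntegral.integral_sub (hc1.circleIntegrable hρ.le) (hc2.circleIntegrable hρ.le), sub_eq_zero,
    circleIntegral.integral_const_mul] at key
  rw [key]
  ring

theorem co_hol_zero {ρ R : ℝ} (hρ : 0 < ρ) (hR : ρ < R) {h : ℂ → ℂ} (hh : DifferentiableOn ℂ h (Metric.ball 0 R)) :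
    ∮ z in C(0, ρ), h z = 0 := by
  have h1 : DiffContOnCl ℂ h (Metric.ball 0 ρ) :=
    hh.diffContOnCl_ball (Metric.closedBall_subset_ball hR)
  exact circleIntegral_eq_zero_of_differentiable_on_off_countable hρ.le Set.countable_empty
    (hh.continuousOn.mono (Metric.closedBall_subset_ball hR)) fun z hz =>
      hh.differentiableAt (Metric.isOpen_ball.mem_nhds (Metric.ball_subset_ball hR.le hz.1))

end DRX

end
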