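import Pool.Agent.DRX.Chart
import Pool.Agent.IST43.Wgt10

/-!
# DUAL-R, exact side (helper2): the data of the chart for the ideal

`cd_ideal : CD (ideal m y) η (ibW m y) (iOmW m y)` for every `η` which is holomorphic with decay on `|Im| ≤ 1.1 l`.
-/

set_option autoImplicit false

noncomputable section

open Real

namespace DRX

open IST43

lemma ideal_im {m : ℕ} {y : ℝ} : ∀ v ∈ ideal m y, v.im = 0 := by
  intro v hv
  unfold ideal at hv
  rcases List.mem_cons.1 hv with h | hv
  · rw [h]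
    simp
  rcases List.mem_cons.1 hv with h | hv
  · rw [h]
    simp
  · rw [List.mem_replicate] at hv
    rw [hv.2]
    simp

lemma bh_ibW {m : ℕ} {y : ℝ} (hy : |y| ≤ 1) {a b : ℝ} (h : ∀ φ, a ≤ φ → φ ≤ b → Real.cos (2 * φ) ≠ 1 / 2) :
    BH (ibW m y) a b := by
  obtain ⟨B, -, hB⟩ := ibW_data h
  refine ⟨fun z hz => ?_, fun z h1 h2 => ?_, B ^ (m + 2), fun z h1 h2 => ?_⟩
  · exact (hB m y hy z hz.1 hz.2).1.continuousAt.continuousWithinAt
  · exact (hB m y hy z h1.le h2.le).1
  · exact (hB m y hy z h1 h2).2.2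

/-- **the data of the ideal** -/
theorem cd_ideal {m : ℕ} {y : ℝ} (hy : |y| ≤ 1) {η : ℂ → ℂ} (hη : HolE η (-(11 / 30 * π)) (11 / 30 * π)) :
    CD (ideal m y) η (ibW m y) (iOmW m y) := by
  have hpi := Real.pi_pos
  refine ⟨fun v hv => ?_, hη, fun a b ha hb => ?_, fun a ha => ?_, fun b hb => ?_, ?_, fun z h1 h2 => ?_⟩
  · rw [ideal_im v hv, abs_zero]
    positivity
  · refine bh_ibW hy fun φ h1 h2 => cos2_ne ?_ ?_
    · intro h
      have h3 : |φ| < π / 6 := abs_lt.2 ⟨by linarith, by linarith⟩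
      linarith
    · rw [abs_lt]
      constructor <;> linarith
  · refine bh_ibW hy fun φ h1 h2 => cos2_ne ?_ ?_
    · intro h
      have h3 : |φ| = φ := abs_of_nonneg (by linarith)
      linarith
    · rw [abs_lt]
      constructor <;> linarith
  · refine bh_ibW hy fun φ h1 h2 => cos2_ne ?_ ?_
    · intro h
      have h3 : |φ| = -φ := abs_of_nonpos (by linarith)
      linarith
    · rw [abs_lt]
      constructor <;> linarith
  · refine ⟨fun z hz => ?_, fun z h1 h2 => ?_, AI ^ (m + 2), fun z h1 h2 => ?_⟩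
    · exact (diff_iOmW (by rw [abs_le]; constructor <;> linarith [hz.1, hz.2])).continuousAt.continuousWithinAt
    · exact diff_iOmW (by rw [abs_le]; constructor <;> linarith)
    · exact (iOmW_bound hy (by rw [abs_le]; constructor <;> linarith)).2
  · refine (D5 (by linarith) (cos2_ne h2 (by linarith))).symm

/-- the data of a group -/
theorem cd_group {L : List ℂ} {m : ℕ} {y : ℝ} (hi : ∀ v ∈ L, |v.im| ≤ 5 * π / 12) (hr : ∀ v ∈ L, |v.re| ≤ 2)
    (hy : |y| ≤ 1) : CD (ideal m y) (etaL L m y) (ibW m y) (iOmW m y) := by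
  have h := D1 (m := m) hi hr hy
  rw [show 11 * π / 30 = 11 / 30 * π by ring] at h
  exact cd_ideal hy ⟨_, h⟩

end DRX

end
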