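import Pool.Agent.SPN.Span

/-!
# The circle representation, second form

`CR η b v0 v1 R0 c`: for every `F` in `Rul η (List.ofFn v0)` and every generic `X` the combination
`∑ S, (∑ e, c S e t * F (evL e)) * pr b S (v0 + t v1) X` is, for `0 < |t| ≤ R0`, an entire function `h t` with
`h 0 = F X`; the coefficients are holomorphic at every `t`, `0 < |t| ≤ R0`.
-/

set_option autoImplicit false

noncomputable section

open Polynomial

namespace DRX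

open SPN NUGas

variable {η κ ρ : ℂ} {b : List ℂ → ℂ} {r : ℕ}

/-- data of the circle representation -/
structure CR (η : ℂ) (b : List ℂ → ℂ) {r : ℕ} (v0 v1 : Fin r → ℂ) (R0 : ℝ) (c : Cf r → EvI r → ℂ → ℂ) : Prop where
  pos : 0 < R0
  diff : ∀ S e t, t ≠ 0 → ‖t‖ ≤ R0 → DifferentiableAt ℂ (c S e) t
  ent : ∀ F : List ℂ → ℂ, Rul η (List.ofFn v0) F → ∀ X : List ℂ, Gen η X → ∃ h : ℂ → ℂ, Differentiable ℂ h ∧
    h 0 = F X ∧ ∀ t : ℂ, t ≠ 0 → ‖t‖ ≤ R0 →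
      ∑ S : Cf r, (∑ e : EvI r, c S e t * F (evL e)) * pr b S.1 (List.ofFn (v0 + t • v1)) X = h t

theorem exists_CR (hη : η ^ 4 = -1) (hκ : κ ^ 2 = (2 - η + η ^ 3) * η ^ 3) (hρ : ρ ^ 2 = 2 * η ^ 2)
    (hκ0 : κ ≠ 0) (hρ0 : ρ ≠ 0) (hb : BT η κ ρ b) (r : ℕ) (v0 : Fin r → ℂ) :
    ∃ (v1 : Fin r → ℂ) (R0 : ℝ) (c : Cf r → EvI r → ℂ → ℂ), CR η b v0 v1 R0 c := by
  obtain ⟨D, A, hD, hA, hne, hDA⟩ := exists_D hη hκ hρ hκ0 hρ0 hb r
  obtain ⟨v1, R0, hR0, hcirc⟩ := circ hD hne v0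
  refine ⟨v1, R0, fun S e t => (D (v0 + t • v1))⁻¹ * A (v0 + t • v1) S e, hR0, fun S e t h1 h2 => ?_,
    fun F hF X hX => ?_⟩
  · exact ((hD.diff_line v0 v1 t).fun_inv (hcirc t h1 h2)).mul ((hA S e).diff_line v0 v1 t)
  · obtain ⟨L, hL1, hL2⟩ := ip_all hη r hX
    refine ⟨fun t => ∑ e, L e (v0 + t • v1) * F (evL e), ?_, ?_, fun t h1 h2 => ?_⟩
    · exact Differentiable.fun_sum fun e _ => ((hL1 e).diff_line v0 v1).mul_const _
    · simp only [zero_smul, add_zero]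
      exact (hL2 v0 F hF).symm
    · exact lift_eq hκ hρ hb (hcirc t h1 h2) (hDA (v0 + t • v1)) hL2 F

/-- for the two state sum -/
theorem exists_CR' (hη : η ^ 4 = -1) {b : List ℂ → ℂ} (hb : BT η (1 + η ^ 3) (1 + η ^ 2) b) (r : ℕ) (v0 : Fin r → ℂ) :
    ∃ (v1 : Fin r → ℂ) (R0 : ℝ) (c : Cf r → EvI r → ℂ → ℂ), CR η b v0 v1 R0 c :=
  exists_CR hη (kappa_sq hη) (rho_sq hη) (kappa_ne hη) (one_add_ne hη) hb r v0

end DRX

end
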