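import Pool.Agent.DRX.Op

/-!
# The operators of the two groups commute
-/

set_option autoImplicit false

noncomputable section

open Complex MeasureTheory Filter Topology

namespace DRX

open DUA DUA.Pf

/-! ### recursion -/

theorem WX_zero (r : Fin 3 → ℝ) (e0 : ℝ) (w : ℂ → ℂ) (G : List ℂ → List ℂ → ℂ) : WX r e0 w 0 G = G := by
  funext X Y
  unfold WX
  rw [Wop_zero]

theorem WY_zero (r : Fin 3 → ℝ) (e0 : ℝ) (w : ℂ → ℂ) (G : List ℂ → List ℂ → ℂ) : WY r e0 w 0 G = G := by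
  funext X Y
  unfold WY
  rw [Wop_zero]

theorem WX_succ (r : Fin 3 → ℝ) (e0 : ℝ) (w : ℂ → ℂ) (k : ℕ) (G : List ℂ → List ℂ → ℂ) (X Y : List ℂ) :
    WX r e0 w (k + 1) G X Y = ((k : ℂ) + 1)⁻¹ * ∑ j : Fin (k + 1), (-1) ^ (j : ℕ) *
      AX r e0 (fun s => w s ^ ((j : ℕ) + 1)) (WX r e0 w (k - j) G) X Y := by
  unfold WX
  rw [Wop_succ]
  rfl

theorem WY_succ (r : Fin 3 → ℝ) (e0 : ℝ) (w : ℂ → ℂ) (k : ℕ) (G : List ℂ → List ℂ → ℂ) (X Y : List ℂ) :
    WY r e0 w (k + 1) G X Y = ((k : ℂ) + 1)⁻¹ * ∑ j : Fin (k + 1), (-1) ^ (j : ℕ) *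
      AY r e0 (fun s => w s ^ ((j : ℕ) + 1)) (WY r e0 w (k - j) G) X Y := by
  unfold WY
  rw [Wop_succ]
  rfl

theorem WY_swap (r : Fin 3 → ℝ) (e0 : ℝ) (w : ℂ → ℂ) (k : ℕ) (G : List ℂ → List ℂ → ℂ) (X Y : List ℂ) :
    WY r e0 w k G X Y = WX r e0 w k (fun Y' X' => G X' Y') Y X := rfl

theorem AY_swap (r : Fin 3 → ℝ) (e0 : ℝ) (f : ℂ → ℂ) (G : List ℂ → List ℂ → ℂ) (X Y : List ℂ) :
    AY r e0 f G X Y = AX r e0 f (fun Y' X' => G X' Y') Y X := rfl

/-- `T_{k k'}` with two radii -/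
def TT2 (r r' : Fin 3 → ℝ) (e0 e0' : ℝ) (w w' : ℂ → ℂ) (k k' : ℕ) (F : List ℂ → List ℂ → ℂ) (X Y : List ℂ) : ℂ :=
  WX r e0 w k (WY r' e0' w' k' F) X Y

/-! ### sums -/

section

variable {K : Set ℂ} {G : List ℂ → List ℂ → ℂ} {r r' : Fin 3 → ℝ} {e0 e0' : ℝ} {f f' : ℂ → ℂ}

theorem Adm.sum {ι : Type*} {s : Finset ι} {c : ι → ℂ} {Gs : ι → List ℂ → List ℂ → ℂ}
    (h : ∀ a ∈ s, Adm K (Gs a)) : Adm K fun X Y => ∑ a ∈ s, c a * Gs a X Y := by
  classical
  refine ⟨fun p q => ?_, fun p q => ?_⟩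
  · exact continuousOn_finsetSum _ fun a ha => continuousOn_const.mul ((h a ha).cont p q)
  · have h1 : ∀ a ∈ s, ∃ M : ℝ, ∀ (x : Fin p → ℂ) (y : Fin q → ℂ), (∀ i, x i ∈ K) → (∀ j, y j ∈ K) →
        ‖Gs a (List.ofFn x) (List.ofFn y)‖ ≤ M := fun a ha => (h a ha).bdd p q
    choose! M hM using h1
    refine ⟨∑ a ∈ s, ‖c a‖ * M a, fun x y hx hy => (norm_sum_le _ _).trans (Finset.sum_le_sum fun a ha => ?_)⟩
    rw [norm_mul]
    exact mul_le_mul_of_nonneg_left (hM a ha x y hx hy) (norm_nonneg _)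

theorem Adm.smul (h : Adm K G) (c : ℂ) : Adm K fun X Y => c * G X Y := by
  have := Adm.sum (s := {()}) (c := fun _ => c) (Gs := fun _ => G) (fun _ _ => h)
  simpa using this

theorem AX_congr (hS : StIn K r e0) {G G' : List ℂ → List ℂ → ℂ} {X Y Y1 : List ℂ} (hX : In K X)
    (h : ∀ X', In K X' → G X' Y = G' X' Y1) : AX r e0 f G X Y = AX r e0 f G' X Y1 := by
  rw [AX_eq, AX_eq]
  refine Finset.sum_congr rfl fun i _ => ?_
  congr 2
  funext p
  rw [h _ (In_st hS i p hX)]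

theorem AX_sum (he : 0 < e0) (hS : StIn K r e0) (hf : Wt r f) {ι : Type*} {s : Finset ι} {c : ι → ℂ}
    {Gs : ι → List ℂ → List ℂ → ℂ} (h : ∀ a ∈ s, Adm K (Gs a)) {X Y : List ℂ} (hX : In K X) (hY : In K Y) :
    AX r e0 f (fun X Y => ∑ a ∈ s, c a * Gs a X Y) X Y = ∑ a ∈ s, c a * AX r e0 f (Gs a) X Y := by
  rw [AX_eq]
  have h1 : ∀ i : Fin 3, ∫ p, ker r e0 f i p * ∑ a ∈ s, c a * Gs a (st r e0 i p X) Y ∂m0 =
      ∑ a ∈ s, c a * ∫ p, ker r e0 f i p * Gs a (st r e0 i p X) Y ∂m0 := by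
    intro i
    have h2 : ∀ p, ker r e0 f i p * ∑ a ∈ s, c a * Gs a (st r e0 i p X) Y =
        ∑ a ∈ s, c a * (ker r e0 f i p * Gs a (st r e0 i p X) Y) := by
      intro p
      rw [Finset.mul_sum]
      exact Finset.sum_congr rfl fun a _ => by ring
    simp only [h2]
    rw [integral_finsetSum _ fun a ha => ((h a ha).int he hS hf i hX hY).const_mul (c a)]
    exact Finset.sum_congr rfl fun a _ => integral_const_mul _ _
  rw [Finset.sum_congr rfl fun i _ => by rw [h1 i]]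
  simp only [AX_eq, Finset.mul_sum]
  rw [Finset.sum_comm]
  exact Finset.sum_congr rfl fun a _ => Finset.sum_congr rfl fun i _ => by ring

theorem AX_smul (c : ℂ) (G : List ℂ → List ℂ → ℂ) (X Y : List ℂ) :
    AX r e0 f (fun X Y => c * G X Y) X Y = c * AX r e0 f G X Y := by
  rw [AX_eq, AX_eq, Finset.mul_sum]
  refine Finset.sum_congr rfl fun i _ => ?_
  rw [show (fun p => ker r e0 f i p * (c * G (st r e0 i p X) Y)) =
    fun p => c * (ker r e0 f i p * G (st r e0 i p X) Y) from funext fun p => by ring, integral_const_mul]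
  ring

theorem Adm.cont_pq (hG : Adm K G) (hS : StIn K r e0) (hS' : StIn K r' e0') (i i' : Fin 3) {X Y : List ℂ}
    (hX : In K X) (hY : In K Y) :
    Continuous fun z : (ℝ × ℝ) × (ℝ × ℝ) => G (st r e0 i z.1 X) (st r' e0' i' z.2 Y) := by
  have h := hG.cont (X.length + 2) (Y.length + 2)
  have hc : Continuous fun z : (ℝ × ℝ) × (ℝ × ℝ) =>
      ((cs r e0 i z.1 X.get, cs r' e0' i' z.2 Y.get) : (Fin (X.length + 2) → ℂ) × (Fin (Y.length + 2) → ℂ)) := by
    refine Continuous.prodMk ?_ ?_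
    · exact (cont_cs r e0 i X.length).comp (continuous_fst.prodMk continuous_const)
    · exact (cont_cs r' e0' i' Y.length).comp (continuous_snd.prodMk continuous_const)
  have h2 := h.comp_continuous hc fun z => ⟨cs_mem hS i z.1 (In_get hX), cs_mem hS' i' z.2 (In_get hY)⟩
  refine h2.congr fun z => ?_
  change G (List.ofFn (cs r e0 i z.1 X.get)) (List.ofFn (cs r' e0' i' z.2 Y.get)) = _
  rw [ofFn_cs, ofFn_cs, List.ofFn_get, List.ofFn_get]

/-- **the elementary operators commute** -/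
theorem AX_AY (hG : Adm K G) (he : 0 < e0) (he' : 0 < e0') (hS : StIn K r e0) (hS' : StIn K r' e0')
    (hf : Wt r f) (hf' : Wt r' f') {X Y : List ℂ} (hX : In K X) (hY : In K Y) :
    AX r e0 f (AY r' e0' f' G) X Y = AY r' e0' f' (AX r e0 f G) X Y := by
  set H : Fin 3 → Fin 3 → (ℝ × ℝ) → (ℝ × ℝ) → ℂ := fun i i' p q =>
    ker r e0 f i p * (ker r' e0' f' i' q * G (st r e0 i p X) (st r' e0' i' q Y)) with hH
  have hint : ∀ i i', Integrable (Function.uncurry (H i i')) (m0.prod m0) := by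
    intro i i'
    obtain ⟨M, hM⟩ := hG.bd_list (X.length + 2) (Y.length + 2)
    have hb := (ker_int (e0 := e0) hf i 1).mul_prod (ker_int (e0 := e0') hf' i' M)
    refine hb.mono' ?_ (Eventually.of_forall fun z => ?_)
    · refine Continuous.aestronglyMeasurable ?_
      exact ((ker_cont he hf i).comp continuous_fst).mul
        (((ker_cont he' hf' i').comp continuous_snd).mul (hG.cont_pq hS hS' i i' hX hY))
    · change ‖ker r e0 f i z.1 * (ker r' e0' f' i' z.2 * G (st r e0 i z.1 X) (st r' e0' i' z.2 Y))‖ ≤ _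
      rw [norm_mul, norm_mul, ker_norm he, ker_norm he', mul_one]
      refine mul_le_mul_of_nonneg_left ?_ (by positivity)
      exact mul_le_mul_of_nonneg_left (hM _ _ (by simp [st]) (by simp [st]) (In_st hS i _ hX) (In_st hS' i' _ hY))
        (by positivity)
  have hl : ∀ i i', Integrable (fun p => ∫ q, H i i' p q ∂m0) m0 := fun i i' => (hint i i').integral_prod_left
  have hr : ∀ i i', Integrable (fun q => ∫ p, H i i' p q ∂m0) m0 := fun i i' => (hint i i').integral_prod_right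
  have hL : AX r e0 f (AY r' e0' f' G) X Y = ∑ i, ∑ i', kc i * kc i' * ∫ p, ∫ q, H i i' p q ∂m0 ∂m0 := by
    rw [AX_eq]
    refine Finset.sum_congr rfl fun i _ => ?_
    have h1 : ∀ p, ker r e0 f i p * AY r' e0' f' G (st r e0 i p X) Y = ∑ i', kc i' * ∫ q, H i i' p q ∂m0 := by
      intro p
      rw [AY_eq, Finset.mul_sum]
      refine Finset.sum_congr rfl fun i' _ => ?_
      rw [hH]
      simp only
      rw [integral_const_mul]
      ring
    simp only [h1]
    rw [integral_finsetSum _ fun i' _ => (hl i i').const_mul (kc i'), Finset.mul_sum]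
    refine Finset.sum_congr rfl fun i' _ => ?_
    rw [integral_const_mul]
    change kc i * (kc i' * ∫ p, ∫ q, H i i' p q ∂m0 ∂m0) = _
    ring
  have hR : AY r' e0' f' (AX r e0 f G) X Y = ∑ i', ∑ i, kc i * kc i' * ∫ q, ∫ p, H i i' p q ∂m0 ∂m0 := by
    rw [AY_eq]
    refine Finset.sum_congr rfl fun i' _ => ?_
    have h1 : ∀ q, ker r' e0' f' i' q * AX r e0 f G X (st r' e0' i' q Y) = ∑ i, kc i * ∫ p, H i i' p q ∂m0 := by
      intro q
      rw [AX_eq, Finset.mul_sum]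
      refine Finset.sum_congr rfl fun i _ => ?_
      rw [show (fun p => H i i' p q) = fun p => ker r' e0' f' i' q *
        (ker r e0 f i p * G (st r e0 i p X) (st r' e0' i' q Y)) from funext fun p => by rw [hH]; ring,
        integral_const_mul]
      ring
    simp only [h1]
    rw [integral_finsetSum _ fun i _ => (hr i i').const_mul (kc i), Finset.mul_sum]
    refine Finset.sum_congr rfl fun i _ => ?_
    rw [integral_const_mul]
    change kc i' * (kc i * ∫ q, ∫ p, H i i' p q ∂m0 ∂m0) = _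
    ring
  rw [hL, hR, Finset.sum_comm]
  refine Finset.sum_congr rfl fun i' _ => Finset.sum_congr rfl fun i _ => ?_
  rw [integral_integral_swap (hint i i')]

end

/-! ### the operators `W` -/

section

variable {K : Set ℂ} {r r' : Fin 3 → ℝ} {e0 e0' : ℝ} {w w' : ℂ → ℂ}

theorem Adm.ay {G : List ℂ → List ℂ → ℂ} {f : ℂ → ℂ} (hG : Adm K G) (he : 0 < e0) (hS : StIn K r e0)
    (hf : Wt r f) : Adm K (AY r e0 f G) :=
  ((hG.swap.ax he hS hf).swap)

theorem Adm.wx (he : 0 < e0) (hS : StIn K r e0) (hw : WtP r w) (k : ℕ) :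
    ∀ G : List ℂ → List ℂ → ℂ, Adm K G → Adm K (WX r e0 w k G) := by
  induction k using Nat.strong_induction_on with
  | _ k ih =>
    intro G hG
    rcases k with _ | k
    · rw [WX_zero]; exact hG
    · have h1 : WX r e0 w (k + 1) G = fun X Y => ((k : ℂ) + 1)⁻¹ * ∑ j : Fin (k + 1), (-1) ^ (j : ℕ) *
          AX r e0 (fun s => w s ^ ((j : ℕ) + 1)) (WX r e0 w (k - j) G) X Y := by
        funext X Y; exact WX_succ r e0 w k G X Y
      rw [h1]
      refine Adm.smul (Adm.sum fun j _ => ?_) _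
      exact (ih (k - j) (by omega) G hG).ax he hS (hw.pow j)

theorem Adm.wy {G : List ℂ → List ℂ → ℂ} (he : 0 < e0) (hS : StIn K r e0) (hw : WtP r w) (k : ℕ) (hG : Adm K G) :
    Adm K (WY r e0 w k G) :=
  (Adm.wx he hS hw k _ hG.swap).swap

theorem WX_congr (hS : StIn K r e0) (k : ℕ) : ∀ {G G' : List ℂ → List ℂ → ℂ} {X Y Y1 : List ℂ}, In K X →
    (∀ X', In K X' → G X' Y = G' X' Y1) → WX r e0 w k G X Y = WX r e0 w k G' X Y1 := by
  induction k using Nat.strong_induction_on with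
  | _ k ih =>
    intro G G' X Y Y1 hX h
    rcases k with _ | k
    · rw [WX_zero, WX_zero]; exact h X hX
    · rw [WX_succ, WX_succ]
      congr 1
      refine Finset.sum_congr rfl fun j _ => ?_
      congr 1
      exact AX_congr hS hX fun X' hX' => ih (k - j) (by omega) hX' h

theorem WY_congr (hS : StIn K r e0) (k : ℕ) {G G' : List ℂ → List ℂ → ℂ} {X X1 Y : List ℂ} (hY : In K Y)
    (h : ∀ Y', In K Y' → G X Y' = G' X1 Y') : WY r e0 w k G X Y = WY r e0 w k G' X1 Y := by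
  rw [WY_swap, WY_swap]
  exact WX_congr hS k hY h

theorem WX_sum (he : 0 < e0) (hS : StIn K r e0) (hw : WtP r w) (k : ℕ) : ∀ {ι : Type} {s : Finset ι} {c : ι → ℂ}
    {Gs : ι → List ℂ → List ℂ → ℂ}, (∀ a ∈ s, Adm K (Gs a)) → ∀ {X Y : List ℂ}, In K X → In K Y →
    WX r e0 w k (fun X Y => ∑ a ∈ s, c a * Gs a X Y) X Y = ∑ a ∈ s, c a * WX r e0 w k (Gs a) X Y := by
  induction k using Nat.strong_induction_on with
  | _ k ih =>
    intro ι s c Gs h X Y hX hY
    rcases k with _ | k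
    · simp only [WX_zero]
    · rw [WX_succ]
      have h1 : ∀ j : Fin (k + 1), AX r e0 (fun s => w s ^ ((j : ℕ) + 1))
          (WX r e0 w (k - j) fun X Y => ∑ a ∈ s, c a * Gs a X Y) X Y =
          ∑ a ∈ s, c a * AX r e0 (fun s => w s ^ ((j : ℕ) + 1)) (WX r e0 w (k - j) (Gs a)) X Y := by
        intro j
        rw [AX_congr (G' := fun X Y => ∑ a ∈ s, c a * WX r e0 w (k - j) (Gs a) X Y) (Y1 := Y) hS hX
          fun X' hX' => ih (k - j) (by omega) h hX' hY]
        exact AX_sum he hS (hw.pow j) (fun a ha => Adm.wx he hS hw _ _ (h a ha)) hX hY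
      rw [Finset.sum_congr rfl fun j _ => by rw [h1 j]]
      have h2 : ∀ a ∈ s, c a * WX r e0 w (k + 1) (Gs a) X Y = ((k : ℂ) + 1)⁻¹ * ∑ j : Fin (k + 1),
          (-1) ^ (j : ℕ) * (c a * AX r e0 (fun s => w s ^ ((j : ℕ) + 1)) (WX r e0 w (k - j) (Gs a)) X Y) := by
        intro a _
        rw [WX_succ, Finset.mul_sum, Finset.mul_sum, Finset.mul_sum]
        exact Finset.sum_congr rfl fun j _ => by ring
      rw [Finset.sum_congr rfl h2, ← Finset.mul_sum, Finset.sum_comm]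
      congr 1
      refine Finset.sum_congr rfl fun j _ => ?_
      rw [Finset.mul_sum]

theorem WX_smul (c : ℂ) (k : ℕ) : ∀ (G : List ℂ → List ℂ → ℂ) (X Y : List ℂ),
    WX r e0 w k (fun X Y => c * G X Y) X Y = c * WX r e0 w k G X Y := by
  induction k using Nat.strong_induction_on with
  | _ k ih =>
    intro G X Y
    rcases k with _ | k
    · simp only [WX_zero]
    · rw [WX_succ, WX_succ, Finset.mul_sum, Finset.mul_sum, Finset.mul_sum]
      refine Finset.sum_congr rfl fun j _ => ?_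
      have h1 : (WX r e0 w (k - j) fun X Y => c * G X Y) = fun X Y => c * WX r e0 w (k - j) G X Y := by
        funext X' Y'
        exact ih (k - j) (by omega) G X' Y'
      rw [h1, AX_smul]
      ring

/-- `A` of the first group and `W` of the second commute -/
theorem AX_WY (he : 0 < e0) (he' : 0 < e0') (hS : StIn K r e0) (hS' : StIn K r' e0') {f : ℂ → ℂ} (hf : Wt r f)
    (hw' : WtP r' w') (k : ℕ) : ∀ {G : List ℂ → List ℂ → ℂ}, Adm K G → ∀ {X Y : List ℂ}, In K X → In K Y →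
    AX r e0 f (WY r' e0' w' k G) X Y = WY r' e0' w' k (AX r e0 f G) X Y := by
  induction k using Nat.strong_induction_on with
  | _ k ih =>
    intro G hG X Y hX hY
    rcases k with _ | k
    · rw [WY_zero, WY_zero]
    · have h1 : WY r' e0' w' (k + 1) G = fun X Y => ((k : ℂ) + 1)⁻¹ * ∑ j : Fin (k + 1), (-1) ^ (j : ℕ) *
          AY r' e0' (fun s => w' s ^ ((j : ℕ) + 1)) (WY r' e0' w' (k - j) G) X Y := by
        funext X Y; exact WY_succ r' e0' w' k G X Y
      rw [h1, AX_smul, AX_sum (s := Finset.univ) (c := fun j : Fin (k + 1) => (-1) ^ (j : ℕ))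
        (Gs := fun j => AY r' e0' (fun s => w' s ^ ((j : ℕ) + 1)) (WY r' e0' w' (k - j) G)) he hS hf
        (fun j _ => (Adm.wy he' hS' hw' _ hG).ay he' hS' (hw'.pow j)) hX hY, WY_succ]
      congr 1
      refine Finset.sum_congr rfl fun j _ => ?_
      congr 1
      rw [AX_AY (Adm.wy he' hS' hw' _ hG) he he' hS hS' hf (hw'.pow j) hX hY, AY_swap, AY_swap]
      exact AX_congr hS' hY fun Y' hY' => ih (k - j) (by omega) hG hX hY'

/-- **the operators of the two groups commute** -/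
theorem WX_WY (he : 0 < e0) (he' : 0 < e0') (hS : StIn K r e0) (hS' : StIn K r' e0') (hw : WtP r w)
    (hw' : WtP r' w') (k k' : ℕ) : ∀ {G : List ℂ → List ℂ → ℂ}, Adm K G → ∀ {X Y : List ℂ}, In K X → In K Y →
    WX r e0 w k (WY r' e0' w' k' G) X Y = WY r' e0' w' k' (WX r e0 w k G) X Y := by
  induction k using Nat.strong_induction_on with
  | _ k ih =>
    intro G hG X Y hX hY
    rcases k with _ | k
    · rw [WX_zero, WX_zero]
    · have h1 : WX r e0 w (k + 1) G = fun X Y => ((k : ℂ) + 1)⁻¹ * ∑ j : Fin (k + 1), (-1) ^ (j : ℕ) *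
          AX r e0 (fun s => w s ^ ((j : ℕ) + 1)) (WX r e0 w (k - j) G) X Y := by
        funext X Y; exact WX_succ r e0 w k G X Y
      rw [WX_succ, h1, WY_swap, WX_smul, WX_sum (s := Finset.univ) (c := fun j : Fin (k + 1) => (-1) ^ (j : ℕ))
        (Gs := fun j Y X => AX r e0 (fun s => w s ^ ((j : ℕ) + 1)) (WX r e0 w (k - j) G) X Y) he' hS' hw' k'
        (fun j _ => ((Adm.wx he hS hw (k - j) G hG).ax he hS (hw.pow j)).swap) hY hX]
      congr 1
      refine Finset.sum_congr rfl fun j _ => ?_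
      congr 1
      rw [AX_congr (G' := WY r' e0' w' k' (WX r e0 w (k - j) G)) (Y1 := Y) hS hX
          fun X' hX' => ih (k - j) (by omega) hG hX' hY,
        AX_WY he he' hS hS' (hw.pow j) hw' k' (Adm.wx he hS hw _ _ hG) hX hY]
      rfl

end

end DRX

end
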