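import Mathlib

/-!
# Neutral charges on a line (DUAL-R, F34)

`coul`: `∑ q i * q j * |h i - h j| ≤ 0` if `∑ q i = 0`.
-/

set_option autoImplicit false

noncomputable section

open MeasureTheory Finset

namespace DRX

/-- step function -/
def stp (a t : ℝ) : ℝ := if a < t then 1 else 0

theorem stp_sq_le {a b : ℝ} (h : a ≤ b) (t : ℝ) :
    (stp a t - stp b t) ^ 2 = (Set.Ioc a b).indicator (fun _ => (1:ℝ)) t := by
  unfold stp
  by_cases h1 : a < t
  · by_cases h2 : b < t
    · rw [if_pos h1, if_pos h2, Set.indicator_of_notMem (fun h3 => absurd h3.2 (not_le.2 h2))]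
      norm_num
    · rw [if_pos h1, if_neg h2, Set.indicator_of_mem (show t ∈ Set.Ioc a b from ⟨h1, not_lt.1 h2⟩)]
      norm_num
  · have h2 : ¬ b < t := fun h2 => h1 (lt_of_le_of_lt h h2)
    rw [if_neg h1, if_neg h2, Set.indicator_of_notMem (fun h3 => h1 h3.1)]
    norm_num

theorem stp_sq {a b : ℝ} (t : ℝ) :
    (stp a t - stp b t) ^ 2 = (Set.Ioc (min a b) (max a b)).indicator (fun _ => (1:ℝ)) t := by
  rcases le_total a b with h | h
  · rw [min_eq_left h, max_eq_right h, stp_sq_le h]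
  · rw [min_eq_right h, max_eq_left h, ← stp_sq_le h]
    ring

theorem stp_int {a b T : ℝ} (ha : |a| ≤ T) (hb : |b| ≤ T) :
    ∫ t in Set.Ioc (-T) T, (stp a t - stp b t) ^ 2 = |a - b| := by
  simp_rw [stp_sq]
  rw [setIntegral_indicator measurableSet_Ioc]
  have h1 := abs_le.1 ha
  have h2 := abs_le.1 hb
  have e : Set.Ioc (-T) T ∩ Set.Ioc (min a b) (max a b) = Set.Ioc (min a b) (max a b) := by
    refine Set.inter_eq_right.2 (Set.Ioc_subset_Ioc (le_min h1.1 h2.1) (max_le h1.2 h2.2))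
  rw [e, setIntegral_const, smul_eq_mul, mul_one, Measure.real, Real.volume_Ioc,
    ENNReal.toReal_ofReal (sub_nonneg.2 (min_le_max)), max_sub_min_eq_abs]
  exact abs_sub_comm b a

theorem stp_integrable (a b T : ℝ) :
    IntegrableOn (fun t => (stp a t - stp b t) ^ 2) (Set.Ioc (-T) T) := by
  simp_rw [stp_sq]
  refine (integrableOn_const (by simp)).indicator measurableSet_Ioc

/-- **neutral charges on a line** -/
theorem coul {ι : Type*} [Fintype ι] (h q : ι → ℝ) (h0 : ∑ i, q i = 0) :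
    ∑ i, ∑ j, q i * q j * |h i - h j| ≤ 0 := by
  obtain ⟨T, hT⟩ : ∃ T : ℝ, ∀ i, |h i| ≤ T :=
    ⟨∑ i, |h i|, fun i => single_le_sum (f := fun i => |h i|) (fun j _ => abs_nonneg _) (mem_univ i)⟩
  have e1 : ∑ i, ∑ j, q i * q j * |h i - h j| = ∫ t in Set.Ioc (-T) T,
      ∑ i, ∑ j, q i * q j * (stp (h i) t - stp (h j) t) ^ 2 := by
    rw [integral_finsetSum _ fun i _ => integrable_finsetSum _ fun j _ =>
      (stp_integrable (h i) (h j) T).const_mul _]
    refine sum_congr rfl fun i _ => ?_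
    rw [integral_finsetSum _ fun j _ => (stp_integrable (h i) (h j) T).const_mul _]
    refine sum_congr rfl fun j _ => ?_
    rw [integral_const_mul, stp_int (hT i) (hT j)]
  rw [e1]
  refine integral_nonpos fun t => ?_
  have e2 : ∑ i, ∑ j, q i * q j * (stp (h i) t - stp (h j) t) ^ 2 =
      -2 * (∑ i, q i * stp (h i) t) ^ 2 := by
    have e3 : ∀ i j, q i * q j * (stp (h i) t - stp (h j) t) ^ 2 =
        q i * stp (h i) t ^ 2 * q j + q i * (q j * stp (h j) t ^ 2) -
          2 * ((q i * stp (h i) t) * (q j * stp (h j) t)) := fun i j => by ring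
    simp_rw [e3, sum_sub_distrib, sum_add_distrib, ← mul_sum, h0, ← sum_mul, h0]
    ring
  rw [e2]
  have := sq_nonneg (∑ i, q i * stp (h i) t)
  show -2 * (∑ i, q i * stp (h i) t) ^ 2 ≤ 0
  linarith

end DRX

end
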