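import Pool.Agent.DRX.CZ

/-!
# DUAL-R, exact side (helper2): crossing the zeros at `Im = π / 6`

**`cross`**: the central lines `(-δ, 0, δ)` and the lines `(.88, .94, 1) l` of both groups give the same coefficients. Proof:
the second group is translated by `d > 0`, the first group crosses at `l / 2`, the second at `l / 2 + d`; then `d → 0`.
-/

set_option autoImplicit false

noncomputable section

open Complex MeasureTheory Filter Topology

namespace DRX

open DUA DUA.Pf

/-! ### translation of the second group -/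

theorem TT2_sh (r r' : Fin 3 → ℝ) (e e' : ℝ) (w w' : ℂ → ℂ) (k k' : ℕ) (F : List ℂ → List ℂ → ℂ) (X Y : List ℂ)
    (d : ℝ) : TT2 r (fun j => r' j + d) e e' w (fun s => w' (s - (d : ℂ) * I)) k k' F X (sh d Y) =
      TT2 r r' e e' w w' k k' (fun X Y => F X (sh d Y)) X Y := by
  unfold TT2 WX WY
  congr 1
  funext X'
  exact Wop_sh r' d e' w' k' (fun Y' => F X' Y') Y

lemma sh_zero (L : List ℂ) : sh 0 L = L := by
  unfold sh
  simp

/-- continuity in the translation -/
theorem TT2_cont {F : List ℂ → List ℂ → ℂ} {c d0 d1 : ℝ} (hF : Adm (Stp c d1) F) (h01 : d0 < d1)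
    {r r' : Fin 3 → ℝ} {e e' : ℝ} (he : 0 < e) (he' : 0 < e') (hS : StIn (Stp c d0) r e) (hS' : StIn (Stp c d0) r' e')
    {w w' : ℂ → ℂ} (hw : WtP r w) (hw' : WtP r' w') (k k' : ℕ) {X Y : List ℂ} (hX : In (Stp c d0) X)
    (hY : In (Stp c d0) Y) :
    ContinuousOn (fun t : ℝ => TT2 r r' e e' w w' k k' (fun X Y => F X (sh t Y)) X Y) {t | |t| ≤ d1 - d0} := by
  have hsub : ∀ {v : ℂ} {t : ℝ}, v ∈ Stp c d0 → |t| ≤ d1 - d0 → v + (t : ℂ) * I ∈ Stp c d1 := by
    intro v t hv ht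
    show |(v + (t : ℂ) * I).im - c| ≤ d1
    have h1 : |v.im - c| ≤ d0 := hv
    have h2 : (v + (t : ℂ) * I).im - c = (v.im - c) + t := by simp; ring
    rw [h2]
    calc |v.im - c + t| ≤ |v.im - c| + |t| := abs_add_le _ _
      _ ≤ d1 := by linarith
  have hG : CZ {t : ℝ | |t| ≤ d1 - d0} (Stp c d0) (fun t X Y => F X (sh t Y)) := by
    refine ⟨fun p q => ?_, fun p q => ?_⟩
    · have h1 : Continuous fun z : ℝ × (Fin p → ℂ) × (Fin q → ℂ) =>
          ((z.2.1, fun j => z.2.2 j + (z.1 : ℂ) * I) : (Fin p → ℂ) × (Fin q → ℂ)) := by fun_prop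
      have h2 := (hF.cont p q).comp (s := {z : ℝ × (Fin p → ℂ) × (Fin q → ℂ) | z.1 ∈ {t : ℝ | |t| ≤ d1 - d0} ∧
        (∀ i, z.2.1 i ∈ Stp c d0) ∧ ∀ j, z.2.2 j ∈ Stp c d0}) h1.continuousOn fun z hz =>
          ⟨fun i => ?_, fun j => hsub (hz.2.2 j) hz.1⟩
      · refine h2.congr fun z _ => ?_
        simp only [Function.comp, sh_ofFn]
      · have h3 : |(z.2.1 i).im - c| ≤ d0 := hz.2.1 i
        show |(z.2.1 i).im - c| ≤ d1
        linarith
    · obtain ⟨M, hM⟩ := hF.bdd p q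
      refine ⟨M, fun t ht x y hx hy => ?_⟩
      rw [sh_ofFn]
      refine hM x _ (fun i => ?_) fun j => hsub (hy j) ht
      have h3 : |(x i).im - c| ≤ d0 := hx i
      show |(x i).im - c| ≤ d1
      linarith
  have fc : ∀ {r : Fin 3 → ℝ} {w : ℂ → ℂ}, WtP r w → FC {t : ℝ | |t| ≤ d1 - d0} r fun _ => w := by
    intro r w hw
    obtain ⟨C, hC⟩ := hw.bd
    exact ⟨fun i => ((hw.cont i).comp continuous_snd).continuousOn, C, fun _ _ i t => hC i t⟩
  have hT := (hG.wopY he' hS' (fc hw') k').wopX he hS (fc hw) k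
  have h1 := hT.cont X.length Y.length
  have h2 := h1.comp (f := fun t : ℝ => (t, X.get, Y.get)) (s := {t : ℝ | |t| ≤ d1 - d0})
    (by fun_prop : Continuous fun t : ℝ => (t, X.get, Y.get)).continuousOn fun t ht =>
      ⟨ht, fun i => hX _ (List.get_mem X i), fun j => hY _ (List.get_mem Y j)⟩
  refine h2.congr fun t _ => ?_
  simp only [Function.comp, List.ofFn_get]
  rfl

/-! ### the data -/

/-- a perturbation `w` of the content `X` on the right side: `g = Lam X * w` is holomorphic across `Im = π / 6` -/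
structure PD (X : List ℂ) (w g : ℂ → ℂ) : Prop where
  mem : ∀ v ∈ X, |v.im| ≤ Real.pi / 6
  lo : ∀ a b : ℝ, -(Real.pi / 6) < a → b < Real.pi / 6 → HolE w a b
  hi : ∀ a : ℝ, Real.pi / 6 < a → HolE w a (Real.pi / 3)
  hg : HolE g 0 (Real.pi / 3)
  eq : ∀ z : ℂ, 0 ≤ z.im → z.im ≤ Real.pi / 3 → z.im ≠ Real.pi / 6 → g z = Lam X z * w z

/-- the central lines -/
def lnC (δ : ℝ) : Fin 3 → ℝ := ![-δ, 0, δ]

/-- the lines `(.88, .94, 1) l` -/
def lnD : Fin 3 → ℝ := ![22 / 75 * Real.pi, 47 / 150 * Real.pi, Real.pi / 3]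

lemma Lam_sh (d : ℝ) (L : List ℂ) (z : ℂ) : Lam (sh d L) z = Lam L (z - (d : ℂ) * I) := by
  unfold Lam sh
  rw [List.map_map]
  congr 1
  refine List.map_congr_left fun v _ => ?_
  simp only [Function.comp]
  congr 1
  ring

lemma HolE.sh {w : ℂ → ℂ} {a b : ℝ} (h : HolE w a b) (d : ℝ) :
    HolE (fun s => w (s - (d : ℂ) * I)) (a + d) (b + d) := by
  obtain ⟨W, hW⟩ := h
  have him : ∀ z : ℂ, (z - (d : ℂ) * I).im = z.im - d := fun z => by simp
  have hre : ∀ z : ℂ, (z - (d : ℂ) * I).re = z.re := fun z => by simp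
  refine ⟨W, ?_, fun z h1 h2 => ?_, fun z h1 h2 => ?_⟩
  · refine hW.cont.comp (by fun_prop) fun z hz => ?_
    show a ≤ (z - (d : ℂ) * I).im ∧ (z - (d : ℂ) * I).im ≤ b
    rw [him]
    exact ⟨by linarith [hz.1], by linarith [hz.2]⟩
  · have h3 := hW.diff (z - (d : ℂ) * I) (by rw [him]; linarith) (by rw [him]; linarith)
    exact DifferentiableAt.comp (g := w) (f := fun s => s - (d : ℂ) * I) z h3 (by fun_prop)
  · have h3 := hW.bd (z - (d : ℂ) * I) (by rw [him]; linarith) (by rw [him]; linarith)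
    rwa [hre] at h3

lemma PD.wn {X : List ℂ} {w g : ℂ → ℂ} (h : PD X w g) {c : ℝ} (h1 : -(Real.pi / 6) ≤ c) (h2 : c ≤ Real.pi / 2) :
    Wn c X := by
  intro v hv
  have h3 := abs_le.1 (h.mem v hv)
  have := Real.pi_pos
  rw [abs_lt]
  constructor <;> linarith [h3.1, h3.2]

lemma PD.wn_sh {X : List ℂ} {w g : ℂ → ℂ} (h : PD X w g) {c d : ℝ} (h0 : 0 ≤ d) (h1 : 0 ≤ c) (h2 : c ≤ Real.pi / 2)
    (hd : d ≤ Real.pi / 6) : Wn c (sh d X) := by
  intro v hv
  unfold sh at hv
  rw [List.mem_map] at hv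
  obtain ⟨u, hu, rfl⟩ := hv
  have h3 := abs_le.1 (h.mem u hu)
  have := Real.pi_pos
  have h4 : (u + (d : ℂ) * I).im = u.im + d := by simp
  rw [h4, abs_lt]
  constructor <;> linarith [h3.1, h3.2]

/-- `LS` for explicit lines -/
lemma LS.mk3 {r : Fin 3 → ℝ} {c e a b d : ℝ} (h0 : r 0 = a) (h1 : r 1 = b) (h2 : r 2 = d) (he : 0 < e) (q1 : a + e < c)
    (q2 : c < d) (q3 : a ≤ b) (q4 : b ≤ d) (q5 : d - a < 2 * Real.pi / 3) (q6 : b - c + e < Real.pi / 3)
    (q7 : c - b + e < Real.pi / 3) : LS r c e := by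
  refine ⟨he, by rw [h0]; exact q1, by rw [h2]; exact q2, by rw [h0, h1]; exact q3, by rw [h1, h2]; exact q4,
    by rw [h0, h2]; exact q5, ?_⟩
  rw [h1, ← lt_sub_iff_add_lt, abs_lt]
  constructor <;> linarith

lemma ln_sub (c x d : ℝ) : ln c x - (d : ℂ) * I = ln (c - d) x := by
  unfold ln
  push_cast
  ring

/-- the crossing for a translated second group -/
theorem cross_d {F : List ℂ → List ℂ → ℂ} (hF : FH2 F) {X Y : List ℂ} {w g w' g' : ℂ → ℂ} (hw : PD X w g)
    (hw' : PD Y w' g') {δ e e' d : ℝ} (hδ : δ < Real.pi / 6) (he : 0 < e) (he' : 0 < e')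
    (he1 : e' < Real.pi / 50) (hd : 0 < d) (hd1 : d + e < δ) (hd2 : d < Real.pi / 50) (k k' : ℕ) :
    TT2 (lnC δ) (fun j => lnC δ j + d) e e w (fun s => w' (s - (d : ℂ) * I)) k k' F X (sh d Y) =
      TT2 lnD (fun j => lnD j + d) e' e' w (fun s => w' (s - (d : ℂ) * I)) k k' F X (sh d Y) := by
  have hpi := Real.pi_pos
  obtain ⟨wd, hwd⟩ : ∃ wd : ℂ → ℂ, wd = fun s => w' (s - (d : ℂ) * I) := ⟨_, rfl⟩
  obtain ⟨gd, hgd⟩ : ∃ gd : ℂ → ℂ, gd = fun s => g' (s - (d : ℂ) * I) := ⟨_, rfl⟩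
  obtain ⟨A, hA⟩ : ∃ A : Fin 3 → ℝ, A = ![d - δ, d, Real.pi / 6 + d / 2] := ⟨_, rfl⟩
  obtain ⟨B, hB⟩ : ∃ B : Fin 3 → ℝ, B = ![Real.pi / 6 + d / 8, Real.pi / 4, Real.pi / 3] := ⟨_, rfl⟩
  have A0 : A 0 = d - δ := by rw [hA]; rfl
  have A1 : A 1 = d := by rw [hA]; rfl
  have A2 : A 2 = Real.pi / 6 + d / 2 := by rw [hA]; rfl
  have B0 : B 0 = Real.pi / 6 + d / 8 := by rw [hB]; rfl
  have B1 : B 1 = Real.pi / 4 := by rw [hB]; rfl
  have B2 : B 2 = Real.pi / 3 := by rw [hB]; rfl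
  obtain ⟨c1, hc1⟩ : ∃ c1, c1 = Real.pi / 6 + d / 4 := ⟨_, rfl⟩
  obtain ⟨c2, hc2⟩ : ∃ c2, c2 = 47 / 150 * Real.pi + d := ⟨_, rfl⟩
  obtain ⟨f, hf⟩ : ∃ f, f = d / 16 := ⟨_, rfl⟩
  rw [← hwd]
  -- line systems
  have LC : LS (lnC δ) d e := LS.mk3 (a := -δ) (b := 0) (d := δ) rfl rfl rfl he (by linarith) (by linarith)
    (by linarith) (by linarith) (by linarith) (by linarith) (by linarith)
  have LCd : LS (fun j => lnC δ j + d) d e := LS.mk3 (a := -δ + d) (b := 0 + d) (d := δ + d) rfl rfl rfl he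
    (by linarith) (by linarith) (by linarith) (by linarith) (by linarith) (by linarith) (by linarith)
  have LA : LS A d e := LS.mk3 A0 A1 A2 he (by linarith) (by linarith) (by linarith) (by linarith) (by linarith)
    (by linarith) (by linarith)
  have LA1 : LS A c1 e := LS.mk3 A0 A1 A2 he (by linarith) (by linarith) (by linarith) (by linarith) (by linarith)
    (by linarith) (by linarith)
  have LB1 : LS B c1 f := LS.mk3 B0 B1 B2 (by linarith) (by linarith) (by linarith) (by linarith) (by linarith)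
    (by linarith) (by linarith) (by linarith)
  have LB2 : LS B c2 f := LS.mk3 B0 B1 B2 (by linarith) (by linarith) (by linarith) (by linarith) (by linarith)
    (by linarith) (by linarith) (by linarith)
  have LDd : LS (fun j => lnD j + d) c2 e' := LS.mk3 (a := 22 / 75 * Real.pi + d) (b := 47 / 150 * Real.pi + d)
    (d := Real.pi / 3 + d) rfl rfl rfl he' (by linarith) (by linarith) (by linarith) (by linarith) (by linarith)
    (by linarith) (by linarith)
  have LD : LS lnD c2 e' := LS.mk3 (a := 22 / 75 * Real.pi) (b := 47 / 150 * Real.pi)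
    (d := Real.pi / 3) rfl rfl rfl he' (by linarith) (by linarith) (by linarith) (by linarith) (by linarith)
    (by linarith) (by linarith)
  -- weights
  have wC : HolE w (lnC δ 0) (lnC δ 2) := hw.lo (-δ) δ (by linarith) (by linarith)
  have wB : HolE w (B 0) (B 2) := by
    rw [B0, B2]
    exact hw.hi _ (by linarith)
  have wD : HolE w (lnD 0) (lnD 2) := hw.hi (22 / 75 * Real.pi) (by linarith)
  have wdC : HolE wd ((fun j => lnC δ j + d) 0) ((fun j => lnC δ j + d) 2) := by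
    rw [hwd]
    exact (hw'.lo (-δ) δ (by linarith) (by linarith)).sh d
  have wdA : HolE wd (A 0) (A 2) := by
    rw [hwd, A0, A2]
    have := (hw'.lo (-δ) (Real.pi / 6 - d / 2) (by linarith) (by linarith)).sh d
    exact this.mono (by linarith) (by linarith)
  have wdD : HolE wd ((fun j => lnD j + d) 0) ((fun j => lnD j + d) 2) := by
    rw [hwd]
    exact (hw'.hi (22 / 75 * Real.pi) (by linarith)).sh d
  have hgS : HolE gd d (Real.pi / 3 + d) := by
    rw [hgd]
    have := hw'.hg.sh d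
    rwa [zero_add] at this
  have eqd : ∀ c x : ℝ, d ≤ c → c ≤ Real.pi / 3 + d → c ≠ Real.pi / 6 + d →
      gd (ln c x) = Lam (sh d Y) (ln c x) * wd (ln c x) := by
    intro c x h1 h2 h3
    rw [hgd, hwd, Lam_sh]
    simp only
    rw [ln_sub]
    refine hw'.eq _ ?_ ?_ ?_
    · rw [ln_im]; linarith
    · rw [ln_im]; linarith
    · rw [ln_im]
      intro h4
      exact h3 (by linarith)
  have eqw : ∀ c x : ℝ, 0 ≤ c → c ≤ Real.pi / 3 → c ≠ Real.pi / 6 → g (ln c x) = Lam X (ln c x) * w (ln c x) := by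
    intro c x h1 h2 h3
    exact hw.eq _ (by rw [ln_im]; exact h1) (by rw [ln_im]; exact h2) (by rw [ln_im]; exact h3)
  have wX : ∀ c : ℝ, 0 ≤ c → c ≤ Real.pi / 2 → Wn c X := fun c h1 h2 => hw.wn (by linarith) h2
  have wY : ∀ c : ℝ, 0 ≤ c → c ≤ Real.pi / 2 → Wn c (sh d Y) := fun c h1 h2 => hw'.wn_sh hd.le h1 h2 (by linarith)
  -- the four moves
  have s1 : TT2 (lnC δ) (fun j => lnC δ j + d) e e w wd k k' F X (sh d Y) = TT2 (lnC δ) A e e w wd k k' F X (sh d Y) := by
    refine move_Y (g := gd) hF LCd LA LC LC wdC wdA wC (wX d (by linarith) (by linarith)) (wX d (by linarith) (by linarith))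
      (wY d (by linarith) (by linarith)) (wY d (by linarith) (by linarith)) ?_ (fun x => eqd d x le_rfl (by linarith) ?_)
      (fun x => eqd d x le_rfl (by linarith) ?_)
    · rw [min_self, max_self]
      exact hgS.mono le_rfl (by linarith)
    · intro h; linarith
    · intro h; linarith
  have s2 : TT2 (lnC δ) A e e w wd k k' F X (sh d Y) = TT2 B A f e w wd k k' F X (sh d Y) := by
    refine move_X (g := g) hF LC LB1 LA LA1 wC wB wdA (wX d (by linarith) (by linarith)) (wX c1 (by linarith) (by linarith))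
      (wY d (by linarith) (by linarith)) (wY c1 (by linarith) (by linarith)) ?_
      (fun x => eqw d x hd.le (by linarith) ?_) (fun x => eqw c1 x (by linarith) (by linarith) ?_)
    · rw [min_eq_left (by linarith), max_eq_right (by linarith)]
      exact hw.hg.mono hd.le (by linarith)
    · intro h; linarith
    · intro h; linarith
  have s3 : TT2 B A f e w wd k k' F X (sh d Y) = TT2 B (fun j => lnD j + d) f e' w wd k k' F X (sh d Y) := by
    refine move_Y (g := gd) hF LA1 LDd LB1 LB2 wdA wdD wB (wX c1 (by linarith) (by linarith)) (wX c2 (by linarith) (by linarith))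
      (wY c1 (by linarith) (by linarith)) (wY c2 (by linarith) (by linarith)) ?_
      (fun x => eqd c1 x (by linarith) (by linarith) ?_) (fun x => eqd c2 x (by linarith) (by linarith) ?_)
    · rw [min_eq_left (by linarith), max_eq_right (by linarith)]
      exact hgS.mono (by linarith) (by linarith)
    · intro h; linarith
    · intro h; linarith
  have s4 : TT2 B (fun j => lnD j + d) f e' w wd k k' F X (sh d Y) = TT2 lnD (fun j => lnD j + d) e' e' w wd k k' F X (sh d Y) := by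
    refine move_X (g := g) hF LB2 LD LDd LDd wB wD wdD (wX c2 (by linarith) (by linarith)) (wX c2 (by linarith) (by linarith))
      (wY c2 (by linarith) (by linarith)) (wY c2 (by linarith) (by linarith)) ?_
      (fun x => eqw c2 x (by linarith) (by linarith) ?_) (fun x => eqw c2 x (by linarith) (by linarith) ?_)
    · rw [min_self, max_self]
      exact hw.hg.mono (by linarith) (by linarith)
    · intro h; linarith
    · intro h; linarith
  rw [s1, s2, s3, s4]

/-- **CROSS** -/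
theorem cross {F : List ℂ → List ℂ → ℂ} (hF : FH2 F) {X Y : List ℂ} {w g w' g' : ℂ → ℂ} (hw : PD X w g)
    (hw' : PD Y w' g') {δ e e' : ℝ} (hδ : δ < Real.pi / 6) (he : 0 < e) (hed : e < δ) (he' : 0 < e')
    (he1 : e' < Real.pi / 50) (k k' : ℕ) :
    TT2 (lnC δ) (lnC δ) e e w w' k k' F X Y = TT2 lnD lnD e' e' w w' k k' F X Y := by
  have hpi := Real.pi_pos
  -- the two sides as functions of the translation
  have LC : LS (lnC δ) 0 e := LS.mk3 (a := -δ) (b := 0) (d := δ) rfl rfl rfl he (by linarith) (by linarith)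
    (by linarith) (by linarith) (by linarith) (by linarith) (by linarith)
  have LD : LS lnD (47 / 150 * Real.pi) e' := LS.mk3 (a := 22 / 75 * Real.pi) (b := 47 / 150 * Real.pi)
    (d := Real.pi / 3) rfl rfl rfl he' (by linarith) (by linarith) (by linarith) (by linarith) (by linarith)
    (by linarith) (by linarith)
  have wC : HolE w (lnC δ 0) (lnC δ 2) := hw.lo (-δ) δ (by linarith) (by linarith)
  have wC' : HolE w' (lnC δ 0) (lnC δ 2) := hw'.lo (-δ) δ (by linarith) (by linarith)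
  have wD : HolE w (lnD 0) (lnD 2) := hw.hi (22 / 75 * Real.pi) (by linarith)
  have wD' : HolE w' (lnD 0) (lnD 2) := hw'.hi (22 / 75 * Real.pi) (by linarith)
  obtain ⟨d0, h1, a1, a2, a3, a4⟩ := common LC LC (hw.wn (c := 0) (by linarith) (by linarith))
    (hw'.wn (c := 0) (by linarith) (by linarith))
  obtain ⟨d1, h2, b1, b2, b3, b4⟩ := common LD LD (hw.wn (c := 47 / 150 * Real.pi) (by linarith) (by linarith))
    (hw'.wn (c := 47 / 150 * Real.pi) (by linarith) (by linarith))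
  obtain ⟨d0', p1, p2⟩ := exists_between h1
  obtain ⟨d1', q1, q2⟩ := exists_between h2
  have C1 := TT2_cont (hF.adm 0 d0' p2) p1 he he a1 a2 (wC.wt LC) (wC'.wt LC) k k' a3 a4
  have C2 := TT2_cont (hF.adm (47 / 150 * Real.pi) d1' q2) q1 he' he' b1 b2 (wD.wt LD) (wD'.wt LD) k k' b3 b4
  obtain ⟨η, hη, hη1, hη2, hη3, hη4⟩ : ∃ η : ℝ, 0 < η ∧ η ≤ d0' - d0 ∧ η ≤ d1' - d1 ∧ η < Real.pi / 50 ∧ η + e < δ := by
    refine ⟨min (min (d0' - d0) (d1' - d1)) (min (Real.pi / 100) ((δ - e) / 2)), ?_, ?_, ?_, ?_, ?_⟩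
    · refine lt_min (lt_min ?_ ?_) (lt_min ?_ ?_) <;> linarith
    · exact (min_le_left _ _).trans (min_le_left _ _)
    · exact (min_le_left _ _).trans (min_le_right _ _)
    · have : min (min (d0' - d0) (d1' - d1)) (min (Real.pi / 100) ((δ - e) / 2)) ≤ Real.pi / 100 :=
        (min_le_right _ _).trans (min_le_left _ _)
      linarith
    · have : min (min (d0' - d0) (d1' - d1)) (min (Real.pi / 100) ((δ - e) / 2)) ≤ (δ - e) / 2 :=
        (min_le_right _ _).trans (min_le_right _ _)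
      linarith
  have hU : ∀ t ∈ Set.Ioc 0 η, TT2 (lnC δ) (lnC δ) e e w w' k k' (fun X Y => F X (sh t Y)) X Y =
      TT2 lnD lnD e' e' w w' k k' (fun X Y => F X (sh t Y)) X Y := by
    intro t ht
    rw [← TT2_sh, ← TT2_sh]
    exact cross_d hF hw hw' hδ he he' he1 ht.1 (by linarith [ht.2]) (by linarith [ht.2]) k k'
  have hsub0 : Set.Ioc 0 η ⊆ {t : ℝ | |t| ≤ d0' - d0} := fun t ht => by
    show |t| ≤ _
    rw [abs_of_pos ht.1]
    exact ht.2.trans hη1
  have hsub1 : Set.Ioc 0 η ⊆ {t : ℝ | |t| ≤ d1' - d1} := fun t ht => by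
    show |t| ≤ _
    rw [abs_of_pos ht.1]
    exact ht.2.trans hη2
  have t1 := ((C1 0 (by show |(0 : ℝ)| ≤ _; rw [abs_zero]; linarith)).mono hsub0).tendsto
  have t2 := ((C2 0 (by show |(0 : ℝ)| ≤ _; rw [abs_zero]; linarith)).mono hsub1).tendsto
  have hne : (𝓝[Set.Ioc 0 η] (0 : ℝ)).NeBot := by
    rw [nhdsWithin_Ioc_eq_nhdsGT hη]
    infer_instance
  have h3 := tendsto_nhds_unique (t1.congr' (eventually_nhdsWithin_of_forall hU)) t2
  simpa only [sh_zero] using h3

end DRX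

end
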