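import Mathlib

/-!
# DUAL-R, exact side (helper17): the disc `t = - κ log (1 - s)`

The disc `‖s‖ < rh`, `rh < 1`, is mapped into the neighbourhood `{|t - t0| < 10⁻⁹, t0 ∈ [0, 1]}`; `0 ↦ 0`, `s1 ↦ 1`.
-/

set_option autoImplicit false

noncomputable section

open Complex Metric

namespace DRX

/-- the map -/
def tt (s : ℂ) : ℂ := -((1 / 10 ^ 10 : ℝ) : ℂ) * Complex.log (1 - s)

/-- radius of the disc -/
def rh : ℝ := 1 - Real.exp (-(10 ^ 10 + 1))

/-- the preimage of `1` -/
def s1 : ℝ := 1 - Real.exp (-10 ^ 10)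

theorem s1_pos : 0 < s1 := by
  unfold s1
  have : Real.exp (-10 ^ 10) < 1 := Real.exp_lt_one_iff.2 (by norm_num)
  linarith

theorem s1_lt : s1 < rh := by
  unfold s1 rh
  have : Real.exp (-(10 ^ 10 + 1)) < Real.exp (-10 ^ 10) := Real.exp_lt_exp.2 (by norm_num)
  linarith

theorem rh_pos : 0 < rh := s1_pos.trans s1_lt

theorem rh_lt : rh < 1 := by
  unfold rh
  linarith [Real.exp_pos (-(10 ^ 10 + 1))]

theorem tt_zero : tt 0 = 0 := by
  unfold tt
  simp

theorem tt_one : tt s1 = 1 := by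
  unfold tt s1
  have h : (1 - ((1 - Real.exp (-10 ^ 10) : ℝ) : ℂ)) = ((Real.exp (-10 ^ 10) : ℝ) : ℂ) := by
    push_cast
    ring
  rw [h, ← Complex.ofReal_log (Real.exp_pos _).le, Real.log_exp]
  push_cast
  norm_num

theorem slit {s : ℂ} (hs : ‖s‖ < 1) : 1 - s ∈ Complex.slitPlane := by
  left
  rw [Complex.sub_re, Complex.one_re]
  have := Complex.re_le_norm s
  linarith

theorem tt_diff : DifferentiableOn ℂ tt (ball 0 rh) := by
  intro s hs
  rw [mem_ball_zero_iff] at hs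
  have h := slit (hs.trans rh_lt)
  unfold tt
  refine DifferentiableAt.differentiableWithinAt ?_
  exact (((differentiableAt_const 1).sub differentiableAt_id).clog h).const_mul _

theorem tt_near {s : ℂ} (hs : ‖s‖ < rh) : ∃ t0 ∈ Set.Icc (0 : ℝ) 1, ‖tt s - (t0 : ℂ)‖ < 1 / 10 ^ 9 := by
  have h1 : ‖s‖ < 1 := hs.trans rh_lt
  have hne : (1 : ℂ) - s ≠ 0 := Complex.slitPlane_ne_zero (slit h1)
  have hlow : Real.exp (-(10 ^ 10 + 1)) < ‖1 - s‖ := by
    have h2 := norm_sub_norm_le (1 : ℂ) s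
    rw [norm_one] at h2
    unfold rh at hs
    linarith
  have hup : ‖1 - s‖ ≤ Real.exp 1 := by
    have h2 := norm_sub_le (1 : ℂ) s
    rw [norm_one] at h2
    have := Real.add_one_le_exp 1
    linarith
  have hl1 : -(10 ^ 10 + 1) ≤ Real.log ‖1 - s‖ := by
    rw [Real.le_log_iff_exp_le (norm_pos_iff.2 hne)]
    exact hlow.le
  have hl2 : Real.log ‖1 - s‖ ≤ 1 := by
    rw [Real.log_le_iff_le_exp (norm_pos_iff.2 hne)]
    exact hup
  have hre : (tt s).re = -(1 / 10 ^ 10) * Real.log ‖1 - s‖ := by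
    unfold tt
    rw [← Complex.ofReal_neg, Complex.re_ofReal_mul, Complex.log_re]
  have him : |(tt s).im| ≤ 4 / 10 ^ 10 := by
    unfold tt
    rw [← Complex.ofReal_neg, Complex.im_ofReal_mul, Complex.log_im, abs_mul, abs_neg,
      abs_of_pos (by norm_num : (0 : ℝ) < 1 / 10 ^ 10)]
    have h3 := Complex.abs_arg_le_pi (1 - s)
    have h4 := Real.pi_lt_four
    calc 1 / 10 ^ 10 * |(1 - s).arg| ≤ 1 / 10 ^ 10 * 4 := by gcongr; linarith
      _ = 4 / 10 ^ 10 := by ring
  have b1 : -(1 / 10 ^ 10) ≤ (tt s).re := by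
    rw [hre]
    norm_num at hl2 ⊢
    linarith
  have b2 : (tt s).re ≤ 1 + 1 / 10 ^ 10 := by
    rw [hre]
    norm_num at hl1 ⊢
    linarith
  refine ⟨max 0 (min (tt s).re 1), ⟨le_max_left _ _, max_le zero_le_one (min_le_right _ _)⟩, ?_⟩
  have h5 : ‖tt s - ((max 0 (min (tt s).re 1) : ℝ) : ℂ)‖ ≤ |(tt s).re - max 0 (min (tt s).re 1)| + |(tt s).im| := by
    refine (Complex.norm_le_abs_re_add_abs_im _).trans (le_of_eq ?_)
    rw [Complex.sub_re, Complex.sub_im, Complex.ofReal_re, Complex.ofReal_im, sub_zero]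
  have h6 : |(tt s).re - max 0 (min (tt s).re 1)| ≤ 1 / 10 ^ 10 := by
    rw [abs_le]
    rcases le_total (tt s).re 0 with h7 | h7
    · rw [min_eq_left (by linarith), max_eq_left h7]
      constructor
      · linarith
      · have : (0 : ℝ) ≤ 1 / 10 ^ 10 := by positivity
        linarith
    · rcases le_total (tt s).re 1 with h8 | h8
      · rw [min_eq_left h8, max_eq_right h7]
        have : (0 : ℝ) ≤ 1 / 10 ^ 10 := by positivity
        constructor <;> linarith
      · rw [min_eq_right h8, max_eq_right zero_le_one]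
        have : (0 : ℝ) ≤ 1 / 10 ^ 10 := by positivity
        constructor <;> linarith
  norm_num at h5 h6 him ⊢
  linarith

end DRX

end
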