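import Pool.Agent.DRX.Comm

/-!
# DUAL-R, exact side (helper17): the bound of the coefficients on the edge lines

* `cc`: the numbers `choose (α + k - 1) k`, `cc_le : cc α k ≤ exp (α + k)`;
* `Stn r e0 X n L`: `L` is `X` with `n` strands more;
* `Wop_le`, **`TT2_le`**, **`edge`**: from the bound (R3) of `F` on the base with strands.
-/

set_option autoImplicit false

noncomputable section

open Complex MeasureTheory Filter Topology

namespace DRX

open DUA DUA.Pf

/-! ### the coefficients of `(1 - x) ^ (-α)` -/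

/-- the coefficients of `(1 - x) ^ (-α)` -/
def cc (α : ℝ) (k : ℕ) : ℝ := ∏ i ∈ Finset.range k, (α + i) / (i + 1)

theorem cc_zero (α : ℝ) : cc α 0 = 1 := by simp [cc]

theorem cc_succ (α : ℝ) (k : ℕ) : cc α (k + 1) = cc α k * ((α + k) / (k + 1)) := by
  unfold cc
  rw [Finset.prod_range_succ]

theorem cc_nonneg {α : ℝ} (hα : 0 ≤ α) (k : ℕ) : 0 ≤ cc α k :=
  Finset.prod_nonneg fun i _ => by positivity

/-- the recursion -/
theorem cc_sum (α : ℝ) (k : ℕ) : α * ∑ i ∈ Finset.range (k + 1), cc α i = (k + 1) * cc α (k + 1) := by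
  induction k with
  | zero => simp [cc_succ, cc_zero]
  | succ k ih =>
    rw [Finset.sum_range_succ, mul_add, ih, cc_succ α (k + 1)]
    have h : ((k : ℝ) + 1 + 1) ≠ 0 := by positivity
    push_cast
    field_simp
    ring

theorem cc_le_pow {α : ℝ} (hα : 0 ≤ α) (k : ℕ) : cc α k ≤ (α + k) ^ k / k.factorial := by
  have h1 : cc α k = (∏ i ∈ Finset.range k, (α + i)) / k.factorial := by
    unfold cc
    rw [Finset.prod_div_distrib]
    congr 1
    rw [← Finset.prod_range_add_one_eq_factorial]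
    push_cast
    rfl
  rw [h1]
  gcongr
  calc ∏ i ∈ Finset.range k, (α + i) ≤ ∏ _i ∈ Finset.range k, (α + k) := by
        refine Finset.prod_le_prod (fun i _ => by positivity) fun i hi => ?_
        have : (i : ℝ) ≤ k := by exact_mod_cast (Finset.mem_range.1 hi).le
        linarith
    _ = (α + k) ^ k := by rw [Finset.prod_const, Finset.card_range]

theorem cc_le {α : ℝ} (hα : 0 ≤ α) (k : ℕ) : cc α k ≤ Real.exp (α + k) :=
  (cc_le_pow hα k).trans (Real.pow_div_factorial_le_exp (α + k) (by positivity) k)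

/-! ### lists with strands -/

/-- `L` is the list `X` with `n` strands more -/
inductive Stn (r : Fin 3 → ℝ) (e0 : ℝ) (X : List ℂ) : ℕ → List ℂ → Prop
  | zero : Stn r e0 X 0 X
  | succ (n : ℕ) (L : List ℂ) (i : Fin 3) (p : ℝ × ℝ) : Stn r e0 X n L → Stn r e0 X (n + 1) (st r e0 i p L)

/-- weights: small and decaying on the lines, centre `t0` -/
structure WtQ (r : Fin 3 → ℝ) (q ε t0 : ℝ) (w : ℂ → ℂ) : Prop where
  cont : ∀ i, Continuous fun t => w (sp r i t)
  bd : ∀ i t, ‖w (sp r i t)‖ ≤ q * Real.exp (-(ε * |t - t0|))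

variable {r r' : Fin 3 → ℝ} {e0 q ε t0 t1 : ℝ} {w w' : ℂ → ℂ}

theorem int_exp_eps (hε : 0 < ε) (t0 : ℝ) : Integrable fun t : ℝ => Real.exp (-(ε * |t - t0|)) := by
  have h : Integrable fun t : ℝ => Real.exp (-(ε * |t|)) := by
    have h := int_exp_abs hε
    refine h.congr (Eventually.of_forall fun t => ?_)
    simp
  exact h.comp_sub_right t0

theorem int_exp_eps_val (hε : 0 < ε) (t0 : ℝ) : ∫ t : ℝ, Real.exp (-(ε * |t - t0|)) = 2 / ε := by
  rw [integral_sub_right_eq_self (μ := volume) (fun t : ℝ => Real.exp (-(ε * |t|))) t0]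
  have h1 : ∫ t : ℝ, Real.exp (-(ε * |t|)) = 2 * ∫ t in Set.Ioi (0 : ℝ), Real.exp (-(ε * t)) :=
    integral_comp_abs (f := fun t => Real.exp (-(ε * t)))
  rw [h1]
  have h2 : ∫ t in Set.Ioi (0 : ℝ), Real.exp (-(ε * t)) = 1 / ε := by
    have h3 := integral_exp_mul_Ioi (a := -ε) (by linarith) 0
    simp only [neg_mul] at h3
    rw [h3]
    simp
  rw [h2]
  ring

theorem WtQ.q_nonneg (h : WtQ r q ε t0 w) : 0 ≤ q := by
  by_contra hc
  push Not at hc
  have h1 := (norm_nonneg _).trans (h.bd 0 0)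
  have h2 := Real.exp_pos (-(ε * |(0 : ℝ) - t0|))
  nlinarith

theorem WtQ.pow_le (h : WtQ r q ε t0 w) (hε : 0 < ε) (j : ℕ) (i : Fin 3) (t : ℝ) :
    ‖w (sp r i t) ^ (j + 1)‖ ≤ q ^ (j + 1) * Real.exp (-(ε * |t - t0|)) := by
  have hq := h.q_nonneg
  have h1 : Real.exp (-(ε * |t - t0|)) ≤ 1 := Real.exp_le_one_iff.2 (by
    have := mul_nonneg hε.le (abs_nonneg (t - t0))
    linarith)
  rw [norm_pow]
  calc ‖w (sp r i t)‖ ^ (j + 1) ≤ (q * Real.exp (-(ε * |t - t0|))) ^ (j + 1) := by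
        gcongr
        exact h.bd i t
    _ = q ^ (j + 1) * Real.exp (-(ε * |t - t0|)) ^ (j + 1) := mul_pow _ _ _
    _ ≤ q ^ (j + 1) * Real.exp (-(ε * |t - t0|)) := by
        refine mul_le_mul_of_nonneg_left ?_ (by positivity)
        exact pow_le_of_le_one (Real.exp_pos _).le h1 (by omega)

theorem WtQ.wt (h : WtQ r q ε t0 w) (hε : 0 < ε) (j : ℕ) : Wt r fun s => w s ^ (j + 1) :=
  ⟨fun i => (h.cont i).pow _, fun i => ((int_exp_eps hε t0).const_mul (q ^ (j + 1))).mono'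
    ((h.cont i).pow _).aestronglyMeasurable (Eventually.of_forall fun t => h.pow_le hε j i t)⟩

theorem WtQ.int_le (h : WtQ r q ε t0 w) (hε : 0 < ε) (j : ℕ) (i : Fin 3) :
    ∫ t, ‖w (sp r i t) ^ (j + 1)‖ ≤ q ^ (j + 1) * (2 / ε) := by
  rw [← int_exp_eps_val hε t0, ← integral_const_mul]
  exact integral_mono_of_nonneg (Eventually.of_forall fun t => norm_nonneg _)
    ((int_exp_eps hε t0).const_mul _) (Eventually.of_forall fun t => h.pow_le hε j i t)

/-- the bound of one operator -/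
theorem Aop_le (he : 0 < e0) (hε : 0 < ε) (h : WtQ r q ε t0 w) (j : ℕ) {g : List ℂ → ℂ} {L : List ℂ} {M : ℝ}
    (hM : ∀ i p, ‖g (st r e0 i p L)‖ ≤ M) :
    ‖Aop r e0 (fun s => w s ^ (j + 1)) g L‖ ≤ 3 / (Real.pi * ε * e0) * q ^ (j + 1) * M := by
  have hM0 : 0 ≤ M := (norm_nonneg _).trans (hM 0 (0, 0))
  have h1 := AX_le (G := fun X' _ => g X') (X := L) (Y := []) he (h.wt hε j) hM
  refine h1.trans ?_
  have h2 : ∑ i, ∫ t, ‖w (sp r i t) ^ (j + 1)‖ ≤ 3 * (q ^ (j + 1) * (2 / ε)) := by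
    calc ∑ i, ∫ t, ‖w (sp r i t) ^ (j + 1)‖ ≤ ∑ _i : Fin 3, q ^ (j + 1) * (2 / ε) :=
          Finset.sum_le_sum fun i _ => h.int_le hε j i
      _ = 3 * (q ^ (j + 1) * (2 / ε)) := by simp
  have hpi := Real.pi_pos
  calc (2 * Real.pi)⁻¹ * (∑ i, ∫ t, ‖w (sp r i t) ^ (j + 1)‖) * e0⁻¹ * M
      ≤ (2 * Real.pi)⁻¹ * (3 * (q ^ (j + 1) * (2 / ε))) * e0⁻¹ * M := by gcongr
    _ = 3 / (Real.pi * ε * e0) * q ^ (j + 1) * M := by
        field_simp

/-- **the bound of `W_k g`** from the bound of `g` on the lists with strands -/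
theorem Wop_le (he : 0 < e0) (hε : 0 < ε) (h : WtQ r q ε t0 w) {g : List ℂ → ℂ} {X : List ℂ} {M : ℝ} :
    ∀ (k n : ℕ) (L : List ℂ), Stn r e0 X n L → (∀ n' L', n' ≤ n + k → Stn r e0 X n' L' → ‖g L'‖ ≤ M) →
      ‖Wop r e0 w k g L‖ ≤ M * (cc (3 / (Real.pi * ε * e0)) k * q ^ k) := by
  intro k
  induction k using Nat.strong_induction_on with
  | _ k ih =>
    intro n L hL hg
    have hpi := Real.pi_pos
    have hq := h.q_nonneg
    obtain ⟨α, hα⟩ : ∃ α, α = 3 / (Real.pi * ε * e0) := ⟨_, rfl⟩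
    have hα0 : 0 ≤ α := by rw [hα]; positivity
    rw [← hα]
    cases k with
    | zero =>
      rw [Wop_zero, cc_zero]
      simpa using hg n L (by omega) hL
    | succ k =>
      have hM0 : 0 ≤ M := (norm_nonneg _).trans (hg n L (by omega) hL)
      rw [Wop_succ, norm_mul]
      have h1 : ∀ j : Fin (k + 1), ‖(-1 : ℂ) ^ (j : ℕ) *
          Aop r e0 (fun s => w s ^ ((j : ℕ) + 1)) (Wop r e0 w (k - j) g) L‖ ≤
          α * (M * cc α (k - j) * q ^ (k + 1)) := by
        intro j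
        rw [norm_mul, norm_pow, norm_neg, norm_one, one_pow, one_mul]
        have hj := j.2
        have h2 := Aop_le (g := Wop r e0 w (k - j) g) (L := L) (M := M * (cc α (k - j) * q ^ (k - (j : ℕ)))) he hε h j
          (fun i p => by
            rw [hα]
            refine ih (k - j) (by omega) (n + 1) _ (Stn.succ n L i p hL) fun n' L' hn' hL' => hg n' L' (by omega) hL')
        refine h2.trans (le_of_eq ?_)
        rw [← hα]
        have h3 : q ^ (k + 1) = q ^ ((j : ℕ) + 1) * q ^ (k - (j : ℕ)) := by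
          rw [← pow_add]
          congr 1
          omega
        rw [h3]
        ring
      have h4 : ‖∑ j : Fin (k + 1), (-1 : ℂ) ^ (j : ℕ) *
          Aop r e0 (fun s => w s ^ ((j : ℕ) + 1)) (Wop r e0 w (k - j) g) L‖ ≤
          M * q ^ (k + 1) * ((k + 1) * cc α (k + 1)) := by
        refine (norm_sum_le _ _).trans ((Finset.sum_le_sum fun j _ => h1 j).trans (le_of_eq ?_))
        rw [Fin.sum_univ_eq_sum_range (fun j => α * (M * cc α (k - j) * q ^ (k + 1))) (k + 1)]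
        have h6 := Finset.sum_range_reflect (fun j => α * (M * cc α j * q ^ (k + 1))) (k + 1)
        simp only [Nat.add_sub_cancel] at h6
        rw [h6, ← cc_sum, Finset.mul_sum, Finset.mul_sum]
        refine Finset.sum_congr rfl fun j _ => ?_
        ring
      have h5 : ‖((k : ℂ) + 1)⁻¹‖ = ((k : ℝ) + 1)⁻¹ := by
        rw [norm_inv]
        congr 1
        have : ((k : ℂ) + 1) = ((k : ℝ) + 1 : ℝ) := by push_cast; rfl
        rw [this, Complex.norm_real, Real.norm_of_nonneg (by positivity)]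
      rw [h5]
      calc ((k : ℝ) + 1)⁻¹ * ‖∑ j : Fin (k + 1), (-1 : ℂ) ^ (j : ℕ) *
            Aop r e0 (fun s => w s ^ ((j : ℕ) + 1)) (Wop r e0 w (k - j) g) L‖
          ≤ ((k : ℝ) + 1)⁻¹ * (M * q ^ (k + 1) * ((k + 1) * cc α (k + 1))) := by gcongr
        _ = M * (cc α (k + 1) * q ^ (k + 1)) := by
            have : ((k : ℝ) + 1) ≠ 0 := by positivity
            field_simp

/-- **the bound of `T_{k k'}`** -/
theorem TT2_le (he : 0 < e0) (hε : 0 < ε) (h : WtQ r q ε t0 w) (h' : WtQ r' q ε t1 w') {F : List ℂ → List ℂ → ℂ}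
    {X Y : List ℂ} {M : ℝ} (k k' : ℕ) (hF : ∀ n n' L L', n ≤ k → n' ≤ k' → Stn r e0 X n L → Stn r' e0 Y n' L' →
      ‖F L L'‖ ≤ M) :
    ‖TT2 r r' e0 e0 w w' k k' F X Y‖ ≤ M * Real.exp (2 * (3 / (Real.pi * ε * e0)) + (k + k')) * q ^ (k + k') := by
  have hpi := Real.pi_pos
  have hq := h.q_nonneg
  obtain ⟨α, hα⟩ : ∃ α, α = 3 / (Real.pi * ε * e0) := ⟨_, rfl⟩
  have hα0 : 0 ≤ α := by rw [hα]; positivity
  have hM0 : 0 ≤ M := (norm_nonneg _).trans (hF 0 0 X Y (by omega) (by omega) Stn.zero Stn.zero)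
  have h1 : ‖TT2 r r' e0 e0 w w' k k' F X Y‖ ≤ M * (cc α k' * q ^ k') * (cc α k * q ^ k) := by
    unfold TT2 WX
    rw [hα]
    refine Wop_le he hε h k 0 X Stn.zero fun n L hn hL => ?_
    unfold WY
    refine Wop_le he hε h' k' 0 Y Stn.zero fun n' L' hn' hL' => ?_
    exact hF n n' L L' (by omega) (by omega) hL hL'
  refine h1.trans ?_
  rw [← hα]
  have h2 := cc_le hα0 k
  have h3 := cc_le hα0 k'
  have h4 := cc_nonneg hα0 k
  have h5 := cc_nonneg hα0 k'
  calc M * (cc α k' * q ^ k') * (cc α k * q ^ k) = M * (cc α k * cc α k') * q ^ (k + k') := by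
        rw [pow_add]
        ring
    _ ≤ M * (Real.exp (α + k) * Real.exp (α + k')) * q ^ (k + k') := by gcongr
    _ = M * Real.exp (2 * α + (k + k')) * q ^ (k + k') := by
        rw [← Real.exp_add]
        congr 3
        ring

/-- **the edge bound** with the radius `c / (1 + k + k')` -/
theorem edge {c B M : ℝ} (hc : 0 < c) (hε : 0 < ε) (h : WtQ r q ε t0 w) (h' : WtQ r' q ε t1 w')
    {F : List ℂ → List ℂ → ℂ} {X Y : List ℂ} (k k' : ℕ) (hF : ∀ n n' L L', n ≤ k → n' ≤ k' →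
      Stn r (c / (1 + k + k')) X n L → Stn r' (c / (1 + k + k')) Y n' L' → ‖F L L'‖ ≤ M * B ^ (k + k')) :
    ‖TT2 r r' (c / (1 + k + k')) (c / (1 + k + k')) w w' k k' F X Y‖ ≤
      M * Real.exp (6 / (Real.pi * ε * c)) * (B * Real.exp (1 + 6 / (Real.pi * ε * c)) * q) ^ (k + k') := by
  have hpi := Real.pi_pos
  have hq := h.q_nonneg
  have he : 0 < c / (1 + (k : ℝ) + k') := by positivity
  refine (TT2_le he hε h h' k k' hF).trans (le_of_eq ?_)
  have h1 : 2 * (3 / (Real.pi * ε * (c / (1 + (k : ℝ) + k')))) + ((k : ℝ) + k') =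
      6 / (Real.pi * ε * c) + ((k + k' : ℕ) : ℝ) * (1 + 6 / (Real.pi * ε * c)) := by
    have : (1 + (k : ℝ) + k') ≠ 0 := by positivity
    push_cast
    field_simp
    ring
  rw [h1, Real.exp_add, Real.exp_nat_mul]
  ring

end DRX

end
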