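import Pool.Agent.DRX.Par

/-!
# The expansion of `F (X_s) (Y_s)` in the coefficients `T_{k k'}` and its remainder
-/

set_option autoImplicit false

noncomputable section

open Complex MeasureTheory Filter Topology Metric

namespace DRX

open DUA DUA.Pf

/-! ### Taylor remainder -/

theorem co_indep {ρ r R : ℝ} (hρ : 0 < ρ) (hr : ρ ≤ r) (hR : r < R) {h : ℂ → ℂ}
    (hh : DifferentiableOn ℂ h (ball 0 R)) (k : ℕ) : co r k h = co ρ k h := by
  rw [co_eq hρ, co_eq (hρ.trans_le hr)]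
  congr 1
  refine circleIntegral_eq_of_differentiable_on_annulus_off_countable hρ hr Set.countable_empty ?_ ?_
  · refine ContinuousOn.mul (ContinuousOn.inv₀ (by fun_prop) ?_) ?_
    · rintro z ⟨_, h2⟩
      refine pow_ne_zero _ fun h0 => h2 ?_
      rw [h0]
      exact mem_ball_self hρ
    · exact hh.continuousOn.mono (Set.sdiff_subset.trans (closedBall_subset_ball hR))
  · rintro z ⟨⟨h1, h2⟩, _⟩
    have hz0 : z ≠ 0 := fun h0 => h2 (by rw [h0]; exact mem_closedBall_self hρ.le)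
    have h3 : DifferentiableAt ℂ h z := hh.differentiableAt (isOpen_ball.mem_nhds (ball_subset_ball hR.le h1))
    exact ((differentiableAt_id.pow (k + 1)).inv (pow_ne_zero _ hz0)).mul h3

theorem geo_inv {z : ℂ} (hz0 : z ≠ 0) (hz1 : z - 1 ≠ 0) (K : ℕ) :
    ∑ k ∈ Finset.range (K + 1), (z ^ (k + 1))⁻¹ = (1 - (z ^ (K + 1))⁻¹) * (z - 1)⁻¹ := by
  induction K with
  | zero =>
    simp only [zero_add, Finset.range_one, Finset.sum_singleton, pow_one]
    field_simp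
  | succ K ih =>
    rw [Finset.sum_range_succ, ih]
    have h6 : z ^ (K + 1) ≠ 0 := pow_ne_zero _ hz0
    rw [pow_succ z (K + 1)]
    field_simp
    ring

theorem taylor_rem {h : ℂ → ℂ} {R M : ℝ} (hR : 4 ≤ R) (hd : DifferentiableOn ℂ h (ball 0 R))
    (hb : ∀ z ∈ ball (0 : ℂ) R, ‖h z‖ ≤ M) {ρ : ℝ} (h0 : 0 < ρ) (h1 : ρ ≤ R / 2) (K : ℕ) :
    ‖h 1 - ∑ k ∈ Finset.range (K + 1), co ρ k h‖ ≤ 2 * M * (2 / R) ^ (K + 1) := by
  set r := R / 2 with hr
  have hr0 : 0 < r := by linarith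
  have hrR : r < R := by linarith
  have hr2 : 2 ≤ r := by linarith
  have e1 : h 1 = (2 * Real.pi * I : ℂ)⁻¹ * ∮ z in C(0, r), (z - 1)⁻¹ * h z := by
    have h2 : DiffContOnCl ℂ h (ball 0 r) := hd.diffContOnCl_ball (closedBall_subset_ball hrR)
    have h3 := h2.circleIntegral_sub_inv_smul (w := 1) (by rw [mem_ball_zero_iff, norm_one]; linarith)
    simp only [smul_eq_mul] at h3
    rw [h3]
    have h4 : (2 * (Real.pi : ℂ) * I) ≠ 0 := Complex.two_pi_I_ne_zero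
    field_simp
  have hcont : ContinuousOn h (sphere 0 r) := hd.continuousOn.mono fun z hz => by
    rw [mem_sphere_zero_iff_norm] at hz
    rw [mem_ball_zero_iff, hz]
    exact hrR
  have hne : ∀ z ∈ sphere (0 : ℂ) r, z ≠ 0 ∧ z - 1 ≠ 0 := by
    intro z hz
    rw [mem_sphere_zero_iff_norm] at hz
    refine ⟨norm_pos_iff.1 (by rw [hz]; exact hr0), fun h2 => ?_⟩
    rw [sub_eq_zero] at h2
    rw [h2, norm_one] at hz
    linarith
  have e2 : ∑ k ∈ Finset.range (K + 1), co ρ k h = (2 * Real.pi * I : ℂ)⁻¹ *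
      ∮ z in C(0, r), (∑ k ∈ Finset.range (K + 1), (z ^ (k + 1))⁻¹) * h z := by
    have h2 : ∀ k ∈ Finset.range (K + 1), co ρ k h = (2 * Real.pi * I : ℂ)⁻¹ *
        ∮ z in C(0, r), (z ^ (k + 1))⁻¹ * h z := fun k _ => by
      rw [← co_indep h0 h1 hrR hd k, co_eq hr0]
    rw [Finset.sum_congr rfl h2, ← Finset.mul_sum]
    congr 1
    rw [← circleIntegral.integral_fun_sum]
    · refine circleIntegral.integral_congr hr0.le fun z _ => ?_
      exact (Finset.sum_mul (Finset.range (K + 1)) (fun k => (z ^ (k + 1))⁻¹) (h z)).symm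
    · intro k _
      refine ContinuousOn.circleIntegrable hr0.le ?_
      exact ContinuousOn.mul (ContinuousOn.inv₀ (by fun_prop) fun z hz => pow_ne_zero _ (hne z hz).1) hcont
  have e3 : h 1 - ∑ k ∈ Finset.range (K + 1), co ρ k h = (2 * Real.pi * I : ℂ)⁻¹ *
      ∮ z in C(0, r), (z ^ (K + 1))⁻¹ * (z - 1)⁻¹ * h z := by
    rw [e1, e2, ← mul_sub, ← circleIntegral.integral_sub]
    · congr 1
      refine circleIntegral.integral_congr hr0.le fun z hz => ?_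
      obtain ⟨hz0, hz1⟩ := hne z hz
      rw [geo_inv hz0 hz1 K]
      ring
    · refine ContinuousOn.circleIntegrable hr0.le ?_
      exact ContinuousOn.mul (ContinuousOn.inv₀ (by fun_prop) fun z hz => (hne z hz).2) hcont
    · refine ContinuousOn.circleIntegrable hr0.le ?_
      refine ContinuousOn.mul (continuousOn_finsetSum _ fun k _ => ContinuousOn.inv₀ (by fun_prop)
        fun z hz => pow_ne_zero _ (hne z hz).1) hcont
  have hM : 0 ≤ M := (norm_nonneg _).trans (hb 0 (mem_ball_self (by linarith)))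
  rw [e3]
  have h7 : ∀ z ∈ sphere (0 : ℂ) r, ‖(z ^ (K + 1))⁻¹ * (z - 1)⁻¹ * h z‖ ≤ (r ^ (K + 1))⁻¹ * (r / 2)⁻¹ * M := by
    intro z hz
    have hz' := mem_sphere_zero_iff_norm.1 hz
    have h8 : r / 2 ≤ ‖z - 1‖ := by
      have := norm_sub_norm_le z 1
      rw [hz', norm_one] at this
      linarith
    rw [norm_mul, norm_mul, norm_inv, norm_inv, norm_pow, hz']
    have h9 : ‖z - 1‖⁻¹ ≤ (r / 2)⁻¹ := inv_anti₀ (by linarith) h8
    refine mul_le_mul (mul_le_mul_of_nonneg_left h9 (by positivity)) (hb z ?_) (norm_nonneg _) (by positivity)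
    rw [mem_ball_zero_iff, hz']
    exact hrR
  have h10 := circleIntegral.norm_two_pi_i_inv_smul_integral_le_of_norm_le_const hr0.le h7
  rw [smul_eq_mul] at h10
  refine h10.trans (le_of_eq ?_)
  have hRne : R ≠ 0 := by linarith
  rw [hr, div_pow, div_pow]
  field_simp

/-! ### one list -/

/-- the data of a path of lists: `Lam (J_s) = Lam J0 (1 + w_s)` on the line, `w_s` small with `s` -/
structure Pth (K : Set ℂ) (c ρ W : ℝ) (J0 : List ℂ) (J : ℂ → List ℂ) (w : ℂ → ℂ → ℂ) : Prop where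
  in0 : In K J0
  inK : ∀ s ∈ ball (0 : ℂ) ρ, In K (J s)
  len : ∃ n, ∀ s ∈ ball (0 : ℂ) ρ, (J s).length = n
  lam : ∀ s ∈ ball (0 : ℂ) ρ, ∀ x, Lam (J s) (ln c x) = Lam J0 (ln c x) * (1 + w s (ln c x))
  cont : ∀ s ∈ ball (0 : ℂ) ρ, Continuous fun x => w s (ln c x)
  hol : ∀ x, DifferentiableOn ℂ (fun s => w s (ln c x)) (ball 0 ρ)
  bd : ∀ s ∈ ball (0 : ℂ) ρ, ∀ x, ‖w s (ln c x)‖ ≤ W * ‖s‖ * Real.exp (-|x|)

section

variable {K : Set ℂ} {c ρ W : ℝ} {J0 : List ℂ} {J : ℂ → List ℂ} {w : ℂ → ℂ → ℂ}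
variable {f : List ℂ → ℂ} {Ψ : (ℝ → ℂ) → ℂ}

theorem one_KcE {g : ℝ → ℂ} (hg : Continuous g) {B : ℝ} (hb : ∀ x, ‖g x‖ ≤ B * Real.exp (-|x|)) :
    (fun x => 1 + g x) ∈ Kc B :=
  ⟨continuous_const.add hg, fun x => by rw [add_sub_cancel_left]; exact hb x⟩

theorem Pth.wn (h : Pth K c ρ W J0 J w) (hK : ∀ v ∈ K, |v.im - c| < 5 * Real.pi / 6) {s : ℂ}
    (hs : s ∈ ball (0 : ℂ) ρ) : Wn c (J s) := fun v hv => hK v (h.inK s hs v hv)

theorem Pth.wn0 (h : Pth K c ρ W J0 J w) (hK : ∀ v ∈ K, |v.im - c| < 5 * Real.pi / 6) : Wn c J0 :=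
  fun v hv => hK v (h.in0 v hv)

/-- holomorphy of `s ↦ f (J_s)` -/
theorem Pth.diff (hW : 0 ≤ W) (h : Pth K c ρ W J0 J w) (hK : ∀ v ∈ K, |v.im - c| < 5 * Real.pi / 6)
    (hF : Fun f c Ψ) : DifferentiableOn ℂ (fun s => f (J s)) (ball 0 ρ) := by
  obtain ⟨A, hA0, hA⟩ := Lam_Kc (h.wn0 hK)
  obtain ⟨D, _, hD⟩ := hF.grad
  have h1 : ∀ s ∈ ball (0 : ℂ) ρ, (fun x => Lam J0 (ln c x) * (1 + w s (ln c x))) ∈
      Kc (A + W * ρ + A * (W * ρ)) := by
    intro s hs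
    refine Kc_mul hA0 hA (one_KcE (h.cont s hs) fun x => (h.bd s hs x).trans ?_)
    have h2 : ‖s‖ ≤ ρ := (mem_ball_zero_iff.1 hs).le
    exact mul_le_mul_of_nonneg_right (mul_le_mul_of_nonneg_left h2 hW) (Real.exp_pos _).le
  have h2 := hD _ (ball (0 : ℂ) ρ) (fun s x => Lam J0 (ln c x) * (1 + w s (ln c x))) isOpen_ball h1
    (fun x => ((h.hol x).const_add _).const_mul _)
  intro s hs
  have h3 : DifferentiableWithinAt ℂ (fun s => Ψ fun x => Lam J0 (ln c x) * (1 + w s (ln c x))) (ball 0 ρ) s :=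
    (h2 s hs).differentiableAt.differentiableWithinAt
  refine h3.congr (fun u hu => ?_) ?_
  · rw [hF.con _ (h.wn hK hu)]
    congr 1
    funext x
    exact h.lam u hu x
  · rw [hF.con _ (h.wn hK hs)]
    congr 1
    funext x
    exact h.lam s hs x

/-- **the zero of order `N + 1`** for one list -/
theorem exp_one (hρ : 0 < ρ) (hW : 0 < W) (h : Pth K c ρ W J0 J w) (hK : ∀ v ∈ K, |v.im - c| < 5 * Real.pi / 6)
    (hF : Fun f c Ψ) {cf : ℂ → ℕ → ℂ} {ρ1 : ℝ} (hρ1 : 0 < ρ1)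
    (hco : ∀ s ∈ ball (0 : ℂ) ρ, ∀ k, cf s k = co ρ1 k (hh Ψ c (w s) J0)) (N : ℕ) :
    (fun s => f (J s) - ∑ k ∈ Finset.range (N + 1), cf s k) =O[𝓝[≠] 0] fun s => s ^ (N + 1) := by
  obtain ⟨A, hA0, hA⟩ := Lam_Kc (h.wn0 hK)
  obtain ⟨D, _, hD⟩ := hF.grad
  obtain ⟨M, hM⟩ := hF.bdd (A + 1 + A * 1)
  set s1 : ℝ := min ρ (min (1 / (4 * W)) (1 / (2 * ρ1 * W))) with hs1
  have hs10 : 0 < s1 := by rw [hs1]; positivity
  refine Asymptotics.IsBigO.of_bound (2 * M * (2 * W) ^ (N + 1)) ?_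
  rw [eventually_nhdsWithin_iff]
  filter_upwards [ball_mem_nhds (0 : ℂ) hs10] with s hs hs0
  rw [mem_ball_zero_iff] at hs
  have hsn : 0 < ‖s‖ := norm_pos_iff.2 hs0
  have hsρ : s ∈ ball (0 : ℂ) ρ := by
    rw [mem_ball_zero_iff]; exact hs.trans_le (min_le_left _ _)
  have hs2 : ‖s‖ < 1 / (4 * W) := hs.trans_le ((min_le_right _ _).trans (min_le_left _ _))
  have hs3 : ‖s‖ < 1 / (2 * ρ1 * W) := hs.trans_le ((min_le_right _ _).trans (min_le_right _ _))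
  set R := 1 / (W * ‖s‖) with hR
  have hWs : 0 < W * ‖s‖ := by positivity
  have hR4 : 4 ≤ R := by
    rw [hR, le_div_iff₀ hWs]
    rw [lt_div_iff₀ (by positivity)] at hs2
    nlinarith
  have hR1 : ρ1 ≤ R / 2 := by
    rw [hR, le_div_iff₀ (by norm_num), le_div_iff₀ hWs]
    rw [lt_div_iff₀ (by positivity)] at hs3
    nlinarith
  have h1 : ∀ τ ∈ ball (0 : ℂ) R, fam c (w s) J0 τ ∈ Kc (A + 1 + A * 1) := by
    intro τ hτ
    unfold fam
    refine Kc_mul hA0 hA (one_KcE (continuous_const.mul (h.cont s hsρ)) fun x => ?_)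
    change ‖τ * w s (ln c x)‖ ≤ _
    rw [norm_mul]
    rw [mem_ball_zero_iff] at hτ
    calc ‖τ‖ * ‖w s (ln c x)‖ ≤ R * (W * ‖s‖ * Real.exp (-|x|)) :=
          mul_le_mul hτ.le (h.bd s hsρ x) (norm_nonneg _) (by positivity)
      _ = 1 * Real.exp (-|x|) := by rw [hR, ← mul_assoc, one_div_mul_cancel hWs.ne']
  have h2 : DifferentiableOn ℂ (hh Ψ c (w s) J0) (ball 0 R) := by
    intro τ hτ
    refine DifferentiableAt.differentiableWithinAt ?_
    have h3 := hD _ (ball (0 : ℂ) R) (fun τ => fam c (w s) J0 τ) isOpen_ball h1 (fun x => by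
      unfold fam
      fun_prop) τ hτ
    exact h3.differentiableAt
  have h4 := taylor_rem hR4 h2 (fun τ hτ => hM _ (h1 τ hτ)) hρ1 hR1 N
  have h5 : f (J s) = hh Ψ c (w s) J0 1 := by
    unfold hh fam
    rw [hF.con _ (h.wn hK hsρ)]
    congr 1
    funext x
    rw [h.lam s hsρ x, one_mul]
  rw [Finset.sum_congr rfl fun k _ => hco s hsρ k, h5]
  refine h4.trans (le_of_eq ?_)
  have h6 : 2 / (1 / (W * ‖s‖)) = 2 * W * ‖s‖ := by field_simp
  rw [norm_pow, hR, h6, mul_pow]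
  ring

end

end DRX

end
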