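import Pool.Agent.DRX.Exp

/-!
# Two groups: the expansion of `F (X_s) (Y_s)` in `T_{k k'}`, remainder by the Schwarz lemma
-/

set_option autoImplicit false

noncomputable section

open Complex MeasureTheory Filter Topology Metric

namespace DRX

open DUA DUA.Pf

/-- one group: the path, the weights, and the coefficients of the functional as operators -/
structure Grp (K : Set ℂ) (c ρ W W1 ρ1 : ℝ) (r : Fin 3 → ℝ) (e0 : ℝ) (X0 : List ℂ) (X : ℂ → List ℂ)
    (w : ℂ → ℂ → ℂ) (G : List ℂ → List ℂ → ℂ) : Prop where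
  path : Pth K c ρ W X0 X w
  wts : PW (ball 0 ρ) r W1 w
  e : 0 < e0
  st : StIn K r e0
  fn : ∀ J, In K J → ∃ Ψ, Fun (fun I => G I J) c Ψ ∧
    ∀ s ∈ ball (0 : ℂ) ρ, ∀ k, WX r e0 (w s) k G X0 J = co ρ1 k (hh Ψ c (w s) X0)

section

variable {K : Set ℂ} {c ρ W W1 ρ1 W' W1' ρ1' : ℝ} {r r' : Fin 3 → ℝ} {e0 e0' : ℝ} {X0 Y0 : List ℂ}
variable {X Y : ℂ → List ℂ} {w w' : ℂ → ℂ → ℂ} {F G : List ℂ → List ℂ → ℂ}

/-- the remainder in one group, uniformly in the other list -/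
theorem Grp.rem (g : Grp K c ρ W W1 ρ1 r e0 X0 X w G) (hG : Adm K G) (hK : ∀ v ∈ K, |v.im - c| < 5 * Real.pi / 6)
    (hρ : 0 < ρ) (hW : 0 < W) (hρ1 : 0 < ρ1) (N q : ℕ) : ∃ C : ℝ, 0 ≤ C ∧ ∀ J, J.length = q → In K J →
      ∀ s ∈ ball (0 : ℂ) ρ, s ≠ 0 →
        ‖G (X s) J - ∑ k ∈ Finset.range (N + 1), WX r e0 (w s) k G X0 J‖ ≤ C * (‖s‖ / ρ) ^ (N + 1) := by
  obtain ⟨n, hn⟩ := g.path.len
  obtain ⟨M, hM⟩ := hG.bd_list n q
  have hub : ∀ k, UB K fun s : ball (0 : ℂ) ρ => WX r e0 (w s) k G := fun k =>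
    UB.wx g.e g.st (fun a : ball (0 : ℂ) ρ => g.wts.wt a a.2) k (G := fun _ => G) (PF.const (U := ball (0 : ℂ) ρ) hG).ub
  have hub2 := fun k => hub k X0.length q
  choose Mk hMk0 hMk using hub2
  refine ⟨|M| + ∑ k ∈ Finset.range (N + 1), Mk k, add_nonneg (abs_nonneg _) (Finset.sum_nonneg fun k _ => hMk0 k),
    fun J hJ hJK s hs hs0 => ?_⟩
  obtain ⟨Ψ, hΨ, hco⟩ := g.fn J hJK
  refine schw (f := fun s => G (X s) J - ∑ k ∈ Finset.range (N + 1), WX r e0 (w s) k G X0 J) ?_ ?_ ?_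
    (mem_ball_zero_iff.1 hs) hs0
  · refine DifferentiableOn.sub (g.path.diff hW.le hK hΨ) (DifferentiableOn.fun_sum fun k _ => ?_)
    exact (PF.wx isOpen_ball g.e g.st g.wts k (PF.const hG)).hol X0 J g.path.in0 hJK
  · intro z hz
    refine (norm_sub_le _ _).trans (add_le_add ?_ ((norm_sum_le _ _).trans (Finset.sum_le_sum fun k _ => ?_)))
    · exact (hM _ _ (hn z hz) hJ (g.path.inK z hz) hJK).trans (le_abs_self M)
    · exact hMk k ⟨z, hz⟩ X0 J rfl hJ g.path.in0 hJK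
  · exact exp_one hρ hW g.path hK hΨ hρ1 hco N

/-- **the expansion in both groups**: holomorphic, with a zero of order `N + 1` -/
theorem exp_two (gX : Grp K c ρ W W1 ρ1 r e0 X0 X w F)
    (gY : Grp K c ρ W' W1' ρ1' r' e0' Y0 Y w' fun J I => F I J) (hF : Adm K F)
    (hK : ∀ v ∈ K, |v.im - c| < 5 * Real.pi / 6) (hρ : 0 < ρ) (hW : 0 < W) (hW' : 0 < W') (hρ1 : 0 < ρ1)
    (hρ1' : 0 < ρ1') (N : ℕ) :
    DifferentiableOn ℂ (fun s => F (X s) (Y s) - ∑ k ∈ Finset.range (N + 1), ∑ k' ∈ Finset.range (N + 1),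
      TT2 r r' e0 e0' (w s) (w' s) k k' F X0 Y0) (ball 0 ρ) ∧
    (fun s => F (X s) (Y s) - ∑ k ∈ Finset.range (N + 1), ∑ k' ∈ Finset.range (N + 1),
      TT2 r r' e0 e0' (w s) (w' s) k k' F X0 Y0) =O[𝓝[≠] 0] fun s => s ^ (N + 1) := by
  constructor
  · refine DifferentiableOn.sub ?_ (DifferentiableOn.fun_sum fun k _ => DifferentiableOn.fun_sum fun k' _ => ?_)
    · obtain ⟨n, hn⟩ := gX.path.len
      obtain ⟨n', hn'⟩ := gY.path.len
      obtain ⟨M, hM⟩ := hF.bd_list n n'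
      refine diag (G := fun s t => F (X s) (Y t)) (C := M) ?_ ?_ ?_
      · intro t ht
        obtain ⟨Ψ, hΨ, _⟩ := gX.fn (Y t) (gY.path.inK t ht)
        exact gX.path.diff hW.le hK hΨ
      · intro s hs
        obtain ⟨Ψ, hΨ, _⟩ := gY.fn (X s) (gX.path.inK s hs)
        exact gY.path.diff hW'.le hK hΨ
      · intro s hs t ht
        exact hM _ _ (hn s hs) (hn' t ht) (gX.path.inK s hs) (gY.path.inK t ht)
    · have h1 : PF (ball 0 ρ) K fun s => WY r' e0' (w' s) k' F := PF.wy isOpen_ball gY.e gY.st gY.wts k' (PF.const hF)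
      exact (PF.wx isOpen_ball gX.e gX.st gX.wts k h1).hol X0 Y0 gX.path.in0 gY.path.in0
  · -- the two remainders
    obtain ⟨n, hn⟩ := gX.path.len
    obtain ⟨CY, hCY0, hCY⟩ := gY.rem hF.swap hK hρ hW' hρ1' N n
    -- the remainder in X as a family of functions of the second list
    set U : Set ℂ := ball (0 : ℂ) ρ \ {0} with hU
    set E : ℂ → List ℂ → List ℂ → ℂ := fun s _ J =>
      F (X s) J - ∑ k ∈ Finset.range (N + 1), WX r e0 (w s) k F X0 J with hE
    have hub : UB K fun s : U => fun I J => ((s : ℂ) ^ (N + 1))⁻¹ * E s I J := by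
      intro p q
      obtain ⟨C, hC0, hC⟩ := gX.rem hF hK hρ hW hρ1 N q
      refine ⟨C / ρ ^ (N + 1), by positivity, fun s I J _ hJ _ hJK => ?_⟩
      have hs0 : (s : ℂ) ≠ 0 := s.2.2
      have h1 := hC J hJ hJK s s.2.1 hs0
      have hsn : 0 < ‖(s : ℂ)‖ := norm_pos_iff.2 hs0
      rw [norm_mul, norm_inv, norm_pow]
      calc (‖(s : ℂ)‖ ^ (N + 1))⁻¹ * ‖E s I J‖ ≤ (‖(s : ℂ)‖ ^ (N + 1))⁻¹ * (C * (‖(s : ℂ)‖ / ρ) ^ (N + 1)) :=
            mul_le_mul_of_nonneg_left h1 (by positivity)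
        _ = C / ρ ^ (N + 1) := by
            rw [div_pow]
            field_simp
    have hub2 : ∀ k', UB K fun s : U => WY r' e0' (w' s) k' fun I J => ((s : ℂ) ^ (N + 1))⁻¹ * E s I J := fun k' =>
      UB.wy gY.e gY.st (fun a : U => gY.wts.wt a a.2.1) k' hub
    have hub3 := fun k' => hub2 k' X0.length Y0.length
    choose Mk hMk0 hMk using hub3
    -- the identity
    have key : ∀ s ∈ ball (0 : ℂ) ρ, F (X s) (Y s) - ∑ k ∈ Finset.range (N + 1), ∑ k' ∈ Finset.range (N + 1),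
        TT2 r r' e0 e0' (w s) (w' s) k k' F X0 Y0 =
        (F (X s) (Y s) - ∑ k' ∈ Finset.range (N + 1), WY r' e0' (w' s) k' F (X s) Y0) +
        ∑ k' ∈ Finset.range (N + 1), WY r' e0' (w' s) k' (E s) X0 Y0 := by
      intro s hs
      have hwX := (gX.wts.wt s hs).p
      have hwY := (gY.wts.wt s hs).p
      have h1 : ∀ k' ∈ Finset.range (N + 1), WY r' e0' (w' s) k' (E s) X0 Y0 =
          WY r' e0' (w' s) k' F (X s) Y0 - ∑ k ∈ Finset.range (N + 1), TT2 r r' e0 e0' (w s) (w' s) k k' F X0 Y0 := by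
        intro k' _
        -- the summands as functions of two lists
        set Gs : ℕ → List ℂ → List ℂ → ℂ := fun a => if a = 0 then fun J _ => F (X s) J else
          fun J _ => WX r e0 (w s) (a - 1) F X0 J with hGs
        set cs : ℕ → ℂ := fun a => if a = 0 then 1 else -1 with hcs
        have hAd1 : Adm K fun (J _I : List ℂ) => F (X s) J := by
          refine ⟨fun p q => ?_, fun p q => ?_⟩
          · have h2 := hF.cont (X s).length p
            refine h2.comp (t := {z | (∀ i, z.1 i ∈ K) ∧ ∀ j, z.2 j ∈ K})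
              (f := fun z : (Fin p → ℂ) × (Fin q → ℂ) => (((X s).get : Fin (X s).length → ℂ), z.1)) (by fun_prop) ?_ |>.congr ?_
            · rintro z ⟨h3, h4⟩
              exact ⟨In_get (gX.path.inK s hs), h3⟩
            · intro z _
              change F (X s) (List.ofFn z.1) = F (List.ofFn (X s).get) (List.ofFn z.1)
              rw [List.ofFn_get]
          · obtain ⟨M, hM⟩ := hF.bd_list (X s).length p
            exact ⟨M, fun x y hx hy => hM _ _ rfl (by simp) (gX.path.inK s hs) (List.forall_mem_ofFn_iff.2 hx)⟩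
        have hAd2 : ∀ k, Adm K fun (J _I : List ℂ) => WX r e0 (w s) k F X0 J := by
          intro k
          have hA := Adm.wx gX.e gX.st hwX k F hF
          refine ⟨fun p q => ?_, fun p q => ?_⟩
          · have h2 := hA.cont X0.length p
            refine h2.comp (t := {z | (∀ i, z.1 i ∈ K) ∧ ∀ j, z.2 j ∈ K})
              (f := fun z : (Fin p → ℂ) × (Fin q → ℂ) => ((X0.get : Fin X0.length → ℂ), z.1)) (by fun_prop) ?_ |>.congr ?_
            · rintro z ⟨h3, h4⟩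
              exact ⟨In_get gX.path.in0, h3⟩
            · intro z _
              change WX r e0 (w s) k F X0 (List.ofFn z.1) = WX r e0 (w s) k F (List.ofFn X0.get) (List.ofFn z.1)
              rw [List.ofFn_get]
          · obtain ⟨M, hM⟩ := hA.bd_list X0.length p
            exact ⟨M, fun x y hx hy => hM _ _ rfl (by simp) gX.path.in0 (List.forall_mem_ofFn_iff.2 hx)⟩
        have hAd : ∀ a ∈ Finset.range (N + 2), Adm K (Gs a) := by
          intro a _
          rw [hGs]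
          by_cases ha : a = 0
          · simp only [ha, if_true]; exact hAd1
          · simp only [ha, if_false]; exact hAd2 _
        have h2 := WX_sum (w := w' s) gY.e gY.st hwY k' (s := Finset.range (N + 2)) (c := cs) (Gs := Gs) hAd
          (X := Y0) (Y := X0) gY.path.in0 gX.path.in0
        have h3 : (fun (J I : List ℂ) => ∑ a ∈ Finset.range (N + 2), cs a * Gs a J I) = fun J I => E s I J := by
          funext J I
          rw [Finset.sum_range_succ']
          simp only [hGs, hcs, hE, if_true, Nat.add_eq_zero_iff, one_ne_zero, and_false, if_false,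
            Nat.add_sub_cancel, one_mul, neg_one_mul, Finset.sum_neg_distrib]
          ring
        rw [h3] at h2
        have h4 : WY r' e0' (w' s) k' (E s) X0 Y0 = WX r' e0' (w' s) k' (fun J I => E s I J) Y0 X0 := rfl
        rw [h4, h2, Finset.sum_range_succ']
        simp only [hGs, hcs, if_true, Nat.add_eq_zero_iff, one_ne_zero, and_false, if_false,
          Nat.add_sub_cancel, one_mul, neg_one_mul, Finset.sum_neg_distrib]
        have h5 : WX r' e0' (w' s) k' (fun J (_ : List ℂ) => F (X s) J) Y0 X0 = WY r' e0' (w' s) k' F (X s) Y0 :=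
          WX_congr gY.st k' (G' := fun Y' X' => F X' Y') (Y1 := X s) gY.path.in0 fun J _ => rfl
        have h6 : ∀ k ∈ Finset.range (N + 1), WX r' e0' (w' s) k' (fun J (_ : List ℂ) => WX r e0 (w s) k F X0 J) Y0 X0 =
            TT2 r r' e0 e0' (w s) (w' s) k k' F X0 Y0 := by
          intro k _
          unfold TT2
          rw [WX_WY gX.e gY.e gX.st gY.st hwX hwY k k' hF gX.path.in0 gY.path.in0]
          exact WX_congr gY.st k' (G' := fun Y' X' => WX r e0 (w s) k F X' Y') (Y1 := X0) gY.path.in0 fun J _ => rfl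
        rw [h5, Finset.sum_congr rfl h6]
        ring
      rw [Finset.sum_congr rfl h1, Finset.sum_sub_distrib, Finset.sum_comm]
      ring
    -- the bound
    refine Asymptotics.IsBigO.of_bound (CY / ρ ^ (N + 1) + ∑ k' ∈ Finset.range (N + 1), Mk k') ?_
    rw [eventually_nhdsWithin_iff]
    filter_upwards [ball_mem_nhds (0 : ℂ) hρ] with s hs hs0
    have hs0' : s ≠ 0 := hs0
    rw [key s hs]
    refine (norm_add_le _ _).trans ?_
    rw [add_mul]
    refine add_le_add ?_ ?_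
    · have h7 := hCY (X s) (hn s hs) (gX.path.inK s hs) s hs hs0'
      refine h7.trans (le_of_eq ?_)
      rw [norm_pow, div_pow]
      ring
    · refine (norm_sum_le _ _).trans ?_
      rw [Finset.sum_mul]
      refine Finset.sum_le_sum fun k' _ => ?_
      have h8 := hMk k' ⟨s, hs, hs0'⟩ X0 Y0 rfl rfl gX.path.in0 gY.path.in0
      have h9 : WY r' e0' (w' s) k' (fun I J => (s ^ (N + 1))⁻¹ * E s I J) X0 Y0 =
          (s ^ (N + 1))⁻¹ * WY r' e0' (w' s) k' (E s) X0 Y0 :=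
        WX_smul (s ^ (N + 1))⁻¹ k' (fun J I => E s I J) Y0 X0
      change ‖WY r' e0' (w' s) k' (fun I J => (s ^ (N + 1))⁻¹ * E s I J) X0 Y0‖ ≤ Mk k' at h8
      rw [h9, norm_mul, norm_inv] at h8
      have h10 : 0 < ‖s ^ (N + 1)‖ := norm_pos_iff.2 (pow_ne_zero _ hs0')
      rw [inv_mul_le_iff₀ h10] at h8
      linarith

/-! ### the final estimate -/

/-- sums of a geometric double family -/
theorem sum_geo {q B : ℝ} (hq : 0 ≤ q) (hq1 : q < 1) (hB : 0 ≤ B) {T : ℕ → ℕ → ℂ} (N : ℕ)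
    (hT : ∀ k ≤ N, ∀ k' ≤ N, ‖T k k'‖ ≤ B * q ^ (k + k')) :
    ‖∑ k ∈ Finset.range (N + 1), ∑ k' ∈ Finset.range (N + 1), T k k'‖ ≤ B / (1 - q) ^ 2 ∧
    ‖∑ k ∈ Finset.range (N + 1), ∑ k' ∈ Finset.range (N + 1), T k k' - T 0 0‖ ≤ 2 * B * q / (1 - q) ^ 2 := by
  have h1q : 0 < 1 - q := by linarith
  have hg : ∀ n : ℕ, ∑ k ∈ Finset.range n, q ^ k ≤ 1 / (1 - q) := by
    intro n
    rw [geom_sum_eq (by linarith), le_div_iff₀ h1q, ← neg_sub 1 q, div_neg, neg_mul, div_mul_cancel₀ _ h1q.ne']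
    have := pow_nonneg hq n
    linarith
  have hrow : ∀ k ≤ N, ‖∑ k' ∈ Finset.range (N + 1), T k k'‖ ≤ B * q ^ k / (1 - q) := by
    intro k hk
    refine (norm_sum_le _ _).trans ?_
    calc ∑ k' ∈ Finset.range (N + 1), ‖T k k'‖ ≤ ∑ k' ∈ Finset.range (N + 1), B * q ^ k * q ^ k' :=
          Finset.sum_le_sum fun k' hk' => (hT k hk k' (Nat.lt_succ_iff.1 (Finset.mem_range.1 hk'))).trans
            (le_of_eq (by rw [pow_add]; ring))
      _ = B * q ^ k * ∑ k' ∈ Finset.range (N + 1), q ^ k' := by rw [Finset.mul_sum]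
      _ ≤ B * q ^ k * (1 / (1 - q)) := mul_le_mul_of_nonneg_left (hg _) (by positivity)
      _ = _ := by ring
  constructor
  · refine (norm_sum_le _ _).trans ?_
    calc ∑ k ∈ Finset.range (N + 1), ‖∑ k' ∈ Finset.range (N + 1), T k k'‖
        ≤ ∑ k ∈ Finset.range (N + 1), B / (1 - q) * q ^ k :=
          Finset.sum_le_sum fun k hk => (hrow k (Nat.lt_succ_iff.1 (Finset.mem_range.1 hk))).trans
            (le_of_eq (by ring))
      _ = B / (1 - q) * ∑ k ∈ Finset.range (N + 1), q ^ k := by rw [Finset.mul_sum]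
      _ ≤ B / (1 - q) * (1 / (1 - q)) := mul_le_mul_of_nonneg_left (hg _) (by positivity)
      _ = _ := by field_simp
  · rw [Finset.sum_range_succ', Finset.sum_range_succ' (fun k' => T 0 k')]
    have e1 : ∑ k ∈ Finset.range N, ∑ k' ∈ Finset.range (N + 1), T (k + 1) k' +
        (∑ k' ∈ Finset.range N, T 0 (k' + 1) + T 0 0) - T 0 0 =
        ∑ k ∈ Finset.range N, ∑ k' ∈ Finset.range (N + 1), T (k + 1) k' + ∑ k' ∈ Finset.range N, T 0 (k' + 1) := by
      ring
    rw [e1]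
    refine (norm_add_le _ _).trans ?_
    have h2 : ‖∑ k ∈ Finset.range N, ∑ k' ∈ Finset.range (N + 1), T (k + 1) k'‖ ≤ B * q / (1 - q) ^ 2 := by
      refine (norm_sum_le _ _).trans ?_
      calc ∑ k ∈ Finset.range N, ‖∑ k' ∈ Finset.range (N + 1), T (k + 1) k'‖
          ≤ ∑ k ∈ Finset.range N, B * q / (1 - q) * q ^ k :=
            Finset.sum_le_sum fun k hk => (hrow (k + 1) (Finset.mem_range.1 hk)).trans
              (le_of_eq (by rw [pow_succ]; ring))
        _ = B * q / (1 - q) * ∑ k ∈ Finset.range N, q ^ k := by rw [Finset.mul_sum]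
        _ ≤ B * q / (1 - q) * (1 / (1 - q)) := mul_le_mul_of_nonneg_left (hg _) (by positivity)
        _ = _ := by field_simp
    have h3 : ‖∑ k' ∈ Finset.range N, T 0 (k' + 1)‖ ≤ B * q / (1 - q) ^ 2 := by
      refine (norm_sum_le _ _).trans ?_
      calc ∑ k' ∈ Finset.range N, ‖T 0 (k' + 1)‖ ≤ ∑ k' ∈ Finset.range N, B * q * q ^ k' :=
            Finset.sum_le_sum fun k' hk' => (hT 0 (Nat.zero_le _) (k' + 1) (Finset.mem_range.1 hk')).trans
              (le_of_eq (by rw [zero_add, pow_succ]; ring))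
        _ = B * q * ∑ k' ∈ Finset.range N, q ^ k' := by rw [Finset.mul_sum]
        _ ≤ B * q * (1 / (1 - q)) := mul_le_mul_of_nonneg_left (hg _) (by positivity)
        _ ≤ B * q / (1 - q) ^ 2 := by
            rw [mul_one_div]
            refine div_le_div_of_nonneg_left (by positivity) (by positivity) ?_
            nlinarith
    calc _ ≤ B * q / (1 - q) ^ 2 + B * q / (1 - q) ^ 2 := add_le_add h2 h3
      _ = _ := by ring

/-- **the final estimate**: `F (X_s) (Y_s)` against `F X0 Y0` -/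
theorem exp_main (gX : Grp K c ρ W W1 ρ1 r e0 X0 X w F)
    (gY : Grp K c ρ W' W1' ρ1' r' e0' Y0 Y w' fun J I => F I J) (hF : Adm K F)
    (hK : ∀ v ∈ K, |v.im - c| < 5 * Real.pi / 6) (hρ : 0 < ρ) (hW : 0 < W) (hW' : 0 < W') (hρ1 : 0 < ρ1)
    (hρ1' : 0 < ρ1') (N : ℕ) {A B q : ℝ} (hB : 0 ≤ B) (hq : 0 ≤ q) (hq1 : q < 1)
    (hA : ∀ s ∈ ball (0 : ℂ) ρ, ‖F (X s) (Y s)‖ ≤ A)
    (hT : ∀ s ∈ ball (0 : ℂ) ρ, ∀ k ≤ N, ∀ k' ≤ N,
      ‖TT2 r r' e0 e0' (w s) (w' s) k k' F X0 Y0‖ ≤ B * q ^ (k + k')) {s : ℂ} (hs : ‖s‖ < ρ) (hs0 : s ≠ 0) :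
    ‖F (X s) (Y s) - F X0 Y0‖ ≤ 2 * B * q / (1 - q) ^ 2 + (A + B / (1 - q) ^ 2) * (‖s‖ / ρ) ^ (N + 1) := by
  obtain ⟨h1, h2⟩ := exp_two gX gY hF hK hρ hW hW' hρ1 hρ1' N
  have h3 := schw h1 (C := A + B / (1 - q) ^ 2) (fun z hz => by
    refine (norm_sub_le _ _).trans (add_le_add (hA z hz) ?_)
    exact (sum_geo hq hq1 hB N (hT z hz)).1) h2 hs hs0
  have h4 := (sum_geo hq hq1 hB N (hT s (mem_ball_zero_iff.2 hs))).2
  have h5 : TT2 r r' e0 e0' (w s) (w' s) 0 0 F X0 Y0 = F X0 Y0 := by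
    unfold TT2
    rw [WX_zero, WY_zero]
  simp only [h5] at h4
  have h6 : F (X s) (Y s) - F X0 Y0 = (F (X s) (Y s) - ∑ k ∈ Finset.range (N + 1), ∑ k' ∈ Finset.range (N + 1),
      TT2 r r' e0 e0' (w s) (w' s) k k' F X0 Y0) + (∑ k ∈ Finset.range (N + 1), ∑ k' ∈ Finset.range (N + 1),
      TT2 r r' e0 e0' (w s) (w' s) k k' F X0 Y0 - F X0 Y0) := by ring
  rw [h6]
  refine (norm_add_le _ _).trans ?_
  rw [add_comm]
  exact add_le_add h4 h3

end

end DRX

end
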