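import Pool.Agent.DRX.Tot2

/-!
# The rules of the total two sided function in each list, for every other list (DUAL-R, F34)

`rul_X`, `rul_Y`, `exists_tot`.
-/

set_option autoImplicit false

noncomputable section

open Polynomial

namespace DRX

open SPN NUGas

variable {η : ℂ}

theorem pow_ne_one (hη : η ^ 4 = -1) {k : ℕ} (h0 : 0 < k) (h8 : k < 8) : η ^ k ≠ 1 := by
  intro h
  have h1 : (1 : ℂ) ≠ -1 := by norm_num
  have e8 : η ^ 8 = 1 := by
    rw [show (8 : ℕ) = 4 * 2 from rfl, pow_mul, hη]
    norm_num
  have e12 : η ^ 12 = -1 := by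
    rw [show (12 : ℕ) = 4 * 3 from rfl, pow_mul, hη]
    norm_num
  have key : ∀ j : ℕ, η ^ (k * j) = 1 := fun j => by rw [pow_mul, h, one_pow]
  interval_cases k
  · exact h1 ((key 4).symm.trans hη)
  · exact h1 ((key 2).symm.trans hη)
  · exact h1 ((key 4).symm.trans e12)
  · exact h1 (h.symm.trans hη)
  · have := key 4
    rw [show 5 * 4 = 8 + 12 from rfl, pow_add, e8, e12] at this
    exact h1 (by linear_combination -this)
  · exact h1 ((key 2).symm.trans e12)
  · have := key 4
    rw [show 7 * 4 = 8 + (8 + 12) from rfl, pow_add, pow_add, e8, e12] at this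
    exact h1 (by linear_combination -this)

theorem good_k (hη : η ^ 4 = -1) {q : ℂ} {X : List ℂ} (hg : Gen η (q :: X)) {k : ℕ} (h0 : 2 ≤ k)
    (h8 : k < 7) : Good η (η ^ k * q) (q :: X) := by
  have hq : q ≠ 0 := hg.1 q List.mem_cons_self
  have hη0 := eta_ne hη
  have n1 : ∀ j : ℕ, 0 < j → j < 8 → η ^ j * q ≠ q := by
    intro j hj hj8 h
    exact pow_ne_one hη hj hj8 (mul_right_cancel₀ hq (by rw [h, one_mul]))
  intro x hx
  obtain ⟨j, rfl⟩ : ∃ j, k = j + 1 := ⟨k - 1, by omega⟩
  rcases List.mem_cons.1 hx with rfl | hx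
  · refine ⟨n1 _ (by omega) (by omega), ?_, ?_⟩
    · rw [← mul_assoc, ← pow_succ']
      exact n1 _ (by omega) (by omega)
    · intro h
      refine n1 j (by omega) (by omega) (mul_left_cancel₀ hη0 ?_)
      rw [← h]
      ring
  · have hs := hg.sep hx
    refine ⟨hs _, ?_, ?_⟩
    · rw [← mul_assoc, ← pow_succ']
      exact hs _
    · intro h
      refine hs j (mul_left_cancel₀ hη0 ?_)
      rw [← h]
      ring

theorem good3 (hη : η ^ 4 = -1) {q : ℂ} {X : List ℂ} (hg : Gen η (q :: X)) :
    Good η (η ^ 3 * q) (q :: X) := good_k hη hg (by norm_num) (by norm_num)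

theorem good2 (hη : η ^ 4 = -1) {q : ℂ} {X : List ℂ} (hg : Gen η (q :: X)) :
    Good η (η ^ 2 * q) (q :: X) := good_k hη hg (by norm_num) (by norm_num)

theorem pf_prodL {n k : ℕ} {e : Fin k → (Fin n → ℂ) → ℂ} (he : ∀ i, PF n (e i))
    {g : ℂ → (Fin n → ℂ) → ℂ} (hg : ∀ f : (Fin n → ℂ) → ℂ, PF n f → PF n (fun v => g (f v) v)) :
    PF n (fun v => ((List.ofFn fun i => e i v).map fun x => g x v).prod) := PF.prodL hg he

/-- product over the spectators -/
theorem pf_prodZ {n q : ℕ} (Z : List ℂ) {f : Fin q → (Fin n → ℂ) → ℂ} (hf : ∀ j, PF n (f j))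
    {g : ℂ → (Fin n → ℂ) → ℂ} (hg : ∀ f : (Fin n → ℂ) → ℂ, PF n f → PF n (fun v => g (f v) v)) :
    PF n (fun v => (((Z ++ ((List.ofFn fun j => f j v) ++ List.ofFn fun j => f j v))).map
      fun x => g x v).prod) := by
  have h1 : PF n (fun v => (Z.map fun x => g x v).prod) := by
    have := PF.prodL (k := Z.length) (e := fun i _ => Z.get i) hg fun i => PF.const _
    refine this.congr fun v => ?_
    congr 2
    exact (List.ofFn_get Z).symm
  have h2 := PF.prodL (e := f) hg hf
  refine (h1.mul (h2.mul h2)).congr fun v => ?_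
  rw [List.map_append, List.prod_append, List.map_append, List.prod_append]

/-- **the rules in the first list for every second list** -/
theorem rul_X (hη : η ^ 4 = -1) {Z : List ℂ} (hZ : Gen η Z) {W G : List ℂ → List ℂ → ℂ}
    (h : TwoRul η Z W) (hG : PG G) (hGW : ∀ X Y, Gen η (X ++ (Y ++ Z)) → G X Y = W X Y) (Y : List ℂ) :
    Rul η (Z ++ (Y ++ Y)) fun X => G X Y where
  perm := by
    intro X X' hp
    obtain ⟨n, v, rfl⟩ : ∃ (n : ℕ) (v : Fin n → ℂ), X = List.ofFn v :=
      ⟨X.length, X.get, (List.ofFn_get X).symm⟩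
    have hn : X'.length = n := by rw [← hp.length_eq, List.length_ofFn]
    subst hn
    have h' : (List.ofFn v).Perm (List.ofFn X'.get) := by rw [List.ofFn_get]; exact hp
    obtain ⟨σ, hσ⟩ := exists_perm h'
    have h4 : List.ofFn v = List.ofFn fun i => X'.get (σ i) := by
      congr 1
      exact funext fun i => (hσ i).symm
    have key := ext2 hη hZ (A := fun X Y => G (List.ofFn fun i : Fin X'.length => X.getD (σ i) 0) Y)
      (B := G) (p := X'.length) (q := Y.length) ?_ ?_ ?_ (X := X') (Y := Y) rfl rfl
    · rw [h4, ← key]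
      congr 2
      funext i
      rw [List.getD_eq_getElem _ _ (σ i).2]
      rfl
    · refine (hG (X'.length + Y.length) X'.length Y.length
        (fun i v => v (Fin.castAdd _ (σ i))) (fun j v => v (Fin.natAdd _ j))
        (fun i => PF.var _) (fun j => PF.var _)).congr fun v => ?_
      congr 2
      funext i
      rw [List.getD_eq_getElem _ _ (by rw [List.length_ofFn]; exact (σ i).2), List.getElem_ofFn]
    · exact hG _ _ _ _ _ (fun i => PF.var _) (fun j => PF.var _)
    · intro X Y1 hX hY1 hg
      obtain ⟨F, hF, hW⟩ := h.X Y1 (gen_right hg)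
      have hpp : (List.ofFn fun i : Fin X'.length => X.getD (σ i) 0).Perm X := by
        have e1 : (List.ofFn fun i : Fin X'.length => X.getD (σ i) 0) =
            List.ofFn fun i : Fin X'.length => X.getD ((σ i : Fin X'.length) : ℕ) 0 := rfl
        have e2 : X = List.ofFn fun i : Fin X'.length => X.getD (i : ℕ) 0 := by
          refine List.ext_getElem (by rw [List.length_ofFn]; exact hX) fun i h1 h2 => ?_
          rw [List.getElem_ofFn, List.getD_eq_getElem _ _ h1]
        rw [e1]
        conv_rhs => rw [e2]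
        exact σ.ofFn_comp_perm (fun i : Fin X'.length => X.getD (i : ℕ) 0)
      have hg2 : Gen η ((List.ofFn fun i : Fin X'.length => X.getD (σ i) 0) ++ (Y1 ++ Z)) :=
        Gen.perm hη (List.Perm.append_right _ hpp.symm) hg
      rw [hGW _ _ hg, hGW _ _ hg2, hW _ hg, hW _ hg2]
      exact hF.perm hpp
  poly := by
    intro X _
    obtain ⟨d, hd⟩ : ∃ d : ℕ, d = 2 * X.length + (Z.length + 2 * Y.length) := ⟨_, rfl⟩
    have hlen : 2 * X.length + (Z ++ (Y ++ Y)).length = d := by
      rw [List.length_append, List.length_append, hd]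
      omega
    rw [hlen]
    -- the polynomial for generic lists
    have hgen : ∀ X1 Y1 : List ℂ, X1.length = X.length → Y1.length = Y.length →
        Gen η (X1 ++ (Y1 ++ Z)) → ∃ (F : List ℂ → ℂ) (P : ℂ[X]), (∀ X, Gen η (X ++ (Y1 ++ Z)) → W X Y1 = F X) ∧
          LP G d X1 Y1 = P ∧ P.coeff d = F X1 ∧
          P.coeff 0 = ((X1.map (fun x => x ^ 2)).prod * (Z ++ (Y1 ++ Y1)).prod) * F X1 ∧
          ∀ t, G (t :: X1) Y1 = P.eval t := by
      intro X1 Y1 h1 h2 hg
      obtain ⟨F, hF, hW⟩ := h.X Y1 (gen_right hg)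
      obtain ⟨P, p1, p2, p3, p4⟩ := hF.poly X1 (gen_left hg)
      have hl : 2 * X1.length + (Z ++ (Y1 ++ Y1)).length = d := by
        rw [List.length_append, List.length_append, h1, h2, hd]
        omega
      rw [hl] at p1 p2
      have he := eval_G hη hG hGW hW hg p4
      exact ⟨F, P, hW, LP_eq p1 he, p2, p3, he⟩
    refine ⟨LP G d X Y, LP_natDegree G d X Y, ?_, ?_, fun t _ => ?_⟩
    · refine ext2 hη hZ (A := fun X Y => (LP G d X Y).coeff d) (B := G)
        (LP_coeff_pf hG d d (fun i => PF.var _) fun j => PF.var _)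
        (hG _ _ _ _ _ (fun i => PF.var _) fun j => PF.var _) (fun X1 Y1 h1 h2 hg => ?_) rfl rfl
      obtain ⟨F, P, hW, e1, e2, -, -⟩ := hgen X1 Y1 h1 h2 hg
      rw [e1, e2, hGW _ _ hg, hW _ hg]
    · refine ext2 hη hZ (A := fun X Y => (LP G d X Y).coeff 0)
        (B := fun X Y => ((X.map (fun x => x ^ 2)).prod * (Z ++ (Y ++ Y)).prod) * G X Y)
        (LP_coeff_pf hG d 0 (fun i => PF.var _) fun j => PF.var _) ?_
        (fun X1 Y1 h1 h2 hg => ?_) rfl rfl
      · refine PF.mul (PF.mul ?_ ?_) (hG _ _ _ _ _ (fun i => PF.var _) fun j => PF.var _)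
        · exact pf_prodL (fun i => PF.var _) (g := fun x _ => x ^ 2) fun f hf => hf.pow 2
        · have := pf_prodZ Z (n := X.length + Y.length) (q := Y.length)
            (f := fun j v => v (Fin.natAdd _ j)) (fun j => PF.var _) (g := fun x _ => x)
            fun f hf => hf
          refine this.congr fun v => ?_
          rw [List.map_id']
      · obtain ⟨F, P, hW, e1, -, e3, -⟩ := hgen X1 Y1 h1 h2 hg
        rw [e1, e3, hGW _ _ hg, hW _ hg]
    · -- evaluation at every point
      have key := ext2 hη hZ (A := fun X Y => match X with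
          | [] => 0
          | t :: X' => G (t :: X') Y) (B := fun X Y => match X with
          | [] => 0
          | t :: X' => (LP G d X' Y).eval t) (p := X.length + 1) (q := Y.length) ?_ ?_ ?_
          (X := t :: X) (Y := Y) rfl rfl
      · exact key
      · refine (hG (X.length + 1 + Y.length) (X.length + 1) Y.length
          (fun i v => v (Fin.castAdd _ i)) (fun j v => v (Fin.natAdd _ j))
          (fun i => PF.var _) (fun j => PF.var _)).congr fun v => ?_
        rw [List.ofFn_succ]
      · refine (LP_eval_pf hG d (n := X.length + 1 + Y.length) (p := X.length) (q := Y.length)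
          (g := fun v => v (Fin.castAdd _ 0))
          (e := fun i v => v (Fin.castAdd _ i.succ)) (f := fun j v => v (Fin.natAdd _ j))
          (PF.var _) (fun i => PF.var _) (fun j => PF.var _)).congr fun v => ?_
        rw [List.ofFn_succ]
      · intro X1 Y1 h1 h2 hg
        cases X1 with
        | nil => rfl
        | cons t X' =>
          simp only
          have h1' : X'.length = X.length := by simpa using h1
          rw [List.cons_append] at hg
          obtain ⟨F, P, hW, e1, -, -, e4⟩ := hgen X' Y1 h1' h2 hg.tail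
          rw [e1, e4]
  cross := by
    intro q X _
    have key := ext2 hη hZ (A := fun X Y => match X with
        | [] => 0
        | q :: X => G (η ^ 3 * q :: q :: X) Y) (B := fun X Y => match X with
        | [] => 0
        | q :: X => (2 - η + η ^ 3) * η ^ 3 * q ^ 2 *
          ((X.map (fun x => ((x + η * q) * (x + η ^ 2 * q)) ^ 2)).prod *
          ((Z ++ (Y ++ Y)).map (fun y => (y + η * q) * (y + η ^ 2 * q))).prod) * G X Y)
        (p := X.length + 1) (q := Y.length) ?_ ?_ ?_ (X := q :: X) (Y := Y) rfl rfl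
    · exact key
    · refine (hG.consX2 (n := X.length + 1 + Y.length) (p := X.length) (q := Y.length)
        (g := fun v => η ^ 3 * v (Fin.castAdd _ 0)) (g' := fun v => v (Fin.castAdd _ 0))
        (e := fun i v => v (Fin.castAdd _ i.succ)) (f := fun j v => v (Fin.natAdd _ j))
        ((PF.const _).mul (PF.var _)) (PF.var _) (fun i => PF.var _) (fun j => PF.var _)).congr
        fun v => ?_
      rw [List.ofFn_succ]
    · have hq : PF (X.length + 1 + Y.length) fun v => v (Fin.castAdd Y.length (0 : Fin (X.length + 1))) :=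
        PF.var _
      have hlin : ∀ (c : ℂ) (f : (Fin (X.length + 1 + Y.length) → ℂ) → ℂ), PF _ f →
          PF _ fun v => f v + c * v (Fin.castAdd Y.length (0 : Fin (X.length + 1))) := fun c f hf =>
        hf.add ((PF.const c).mul hq)
      refine (PF.mul (PF.mul (PF.mul (PF.const ((2 - η + η ^ 3) * η ^ 3)) (hq.pow 2))
        (PF.mul (pf_prodL (n := X.length + 1 + Y.length) (k := X.length)
          (e := fun i v => v (Fin.castAdd _ i.succ)) (fun i => PF.var _)
          (g := fun x v => ((x + η * v (Fin.castAdd Y.length (0 : Fin (X.length + 1)))) *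
            (x + η ^ 2 * v (Fin.castAdd Y.length (0 : Fin (X.length + 1))))) ^ 2)
          fun f hf => ((hlin _ f hf).mul (hlin _ f hf)).pow 2)
        (pf_prodZ Z (n := X.length + 1 + Y.length) (q := Y.length)
          (f := fun j v => v (Fin.natAdd _ j)) (fun j => PF.var _)
          (g := fun x v => (x + η * v (Fin.castAdd Y.length (0 : Fin (X.length + 1)))) *
            (x + η ^ 2 * v (Fin.castAdd Y.length (0 : Fin (X.length + 1)))))
          fun f hf => (hlin _ f hf).mul (hlin _ f hf))))
        (hG (X.length + 1 + Y.length) X.length Y.length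
          (fun i v => v (Fin.castAdd _ i.succ)) (fun j v => v (Fin.natAdd _ j))
          (fun i => PF.var _) (fun j => PF.var _))).congr fun v => ?_
      rw [List.ofFn_succ]
    · intro X1 Y1 h1 h2 hg
      cases X1 with
      | nil => rfl
      | cons q X =>
        simp only
        obtain ⟨F, hF, hW⟩ := h.X Y1 (gen_right hg)
        obtain ⟨P, p1, p2, p3, p4⟩ := hF.poly (q :: X) (gen_left hg)
        have he := eval_G hη hG hGW hW hg p4
        have hg' := hg
        rw [List.cons_append] at hg'
        have hgood : Good η (η ^ 3 * q) (q :: X) := good3 hη (gen_left hg)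
        rw [he, ← p4 _ hgood, hF.cross q X (gen_left hg), hGW _ _ hg'.tail, hW _ hg'.tail]
  fuse := by
    intro q X _
    have key := ext2 hη hZ (A := fun X Y => match X with
        | [] => 0
        | q :: X => G (η ^ 2 * q :: q :: X) Y) (B := fun X Y => match X with
        | [] => 0
        | q :: X => 2 * (η * q) ^ 2 *
          ((X.map (fun x => (x + η * q) ^ 2)).prod *
          ((Z ++ (Y ++ Y)).map (fun y => y + η * q)).prod) * G (η * q :: X) Y)
        (p := X.length + 1) (q := Y.length) ?_ ?_ ?_ (X := q :: X) (Y := Y) rfl rfl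
    · exact key
    · refine (hG.consX2 (n := X.length + 1 + Y.length) (p := X.length) (q := Y.length)
        (g := fun v => η ^ 2 * v (Fin.castAdd _ 0)) (g' := fun v => v (Fin.castAdd _ 0))
        (e := fun i v => v (Fin.castAdd _ i.succ)) (f := fun j v => v (Fin.natAdd _ j))
        ((PF.const _).mul (PF.var _)) (PF.var _) (fun i => PF.var _) (fun j => PF.var _)).congr
        fun v => ?_
      rw [List.ofFn_succ]
    · have hq : PF (X.length + 1 + Y.length) fun v => v (Fin.castAdd Y.length (0 : Fin (X.length + 1))) :=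
        PF.var _
      have hlin : ∀ (c : ℂ) (f : (Fin (X.length + 1 + Y.length) → ℂ) → ℂ), PF _ f →
          PF _ fun v => f v + c * v (Fin.castAdd Y.length (0 : Fin (X.length + 1))) := fun c f hf =>
        hf.add ((PF.const c).mul hq)
      refine (PF.mul (PF.mul (PF.mul (PF.const 2) (((PF.const η).mul hq).pow 2))
        (PF.mul (pf_prodL (n := X.length + 1 + Y.length) (k := X.length)
          (e := fun i v => v (Fin.castAdd _ i.succ)) (fun i => PF.var _)
          (g := fun x v => (x + η * v (Fin.castAdd Y.length (0 : Fin (X.length + 1)))) ^ 2)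
          fun f hf => (hlin _ f hf).pow 2)
        (pf_prodZ Z (n := X.length + 1 + Y.length) (q := Y.length)
          (f := fun j v => v (Fin.natAdd _ j)) (fun j => PF.var _)
          (g := fun x v => x + η * v (Fin.castAdd Y.length (0 : Fin (X.length + 1))))
          fun f hf => hlin _ f hf)))
        (hG.consX (n := X.length + 1 + Y.length) (p := X.length) (q := Y.length)
          (g := fun v => η * v (Fin.castAdd _ 0))
          (e := fun i v => v (Fin.castAdd _ i.succ)) (f := fun j v => v (Fin.natAdd _ j))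
          ((PF.const _).mul (PF.var _)) (fun i => PF.var _) (fun j => PF.var _))).congr fun v => ?_
      rw [List.ofFn_succ]
    · intro X1 Y1 h1 h2 hg
      cases X1 with
      | nil => rfl
      | cons q X =>
        simp only
        obtain ⟨F, hF, hW⟩ := h.X Y1 (gen_right hg)
        obtain ⟨P, p1, p2, p3, p4⟩ := hF.poly (q :: X) (gen_left hg)
        have he := eval_G hη hG hGW hW hg p4
        have hg' := hg
        rw [List.cons_append] at hg'
        have hgood : Good η (η ^ 2 * q) (q :: X) := good2 hη (gen_left hg)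
        have hg2 : Gen η (η * q :: X ++ (Y1 ++ Z)) := by
          rw [List.cons_append]
          refine gen_cons hη (mul_ne_zero (eta_ne hη) (hg'.1 q List.mem_cons_self)) (fun x hx => ?_)
            hg'.tail
          have := (hg'.sep hx).mul_left 1
          rwa [pow_one] at this
        rw [he, ← p4 _ hgood, hF.fuse q X (gen_left hg), hGW _ _ hg2, hW _ hg2]

/-- **the rules in the second list for every first list** -/
theorem rul_Y (hη : η ^ 4 = -1) {Z : List ℂ} (hZ : Gen η Z) {W G : List ℂ → List ℂ → ℂ}
    (h : TwoRul η Z W) (hG : PG G) (hGW : ∀ X Y, Gen η (X ++ (Y ++ Z)) → G X Y = W X Y) (X : List ℂ) :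
    Rul η (Z ++ (X ++ X)) fun Y => G X Y :=
  rul_X hη hZ (h.swap hη) hG.swap
    (fun X Y hg => hGW Y X (Gen.perm hη (perm_swap _ _ _) hg)) X

/-- **the total function** -/
theorem exists_tot (hη : η ^ 4 = -1) {Z : List ℂ} (hZ : Gen η Z) {W : List ℂ → List ℂ → ℂ}
    (h : TwoRul η Z W) : ∃ G : List ℂ → List ℂ → ℂ, PG G ∧
      (∀ X Y, Gen η (X ++ (Y ++ Z)) → G X Y = W X Y) ∧
      (∀ Y, Rul η (Z ++ (Y ++ Y)) fun X => G X Y) ∧ ∀ X, Rul η (Z ++ (X ++ X)) fun Y => G X Y := by
  obtain ⟨G, hG, hGW⟩ := exists_total hη hZ h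
  exact ⟨G, hG, hGW, rul_X hη hZ h hG hGW, rul_Y hη hZ h hG hGW⟩

end DRX

end
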