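import Pool.Agent.DRX.FunA
import Pool.Agent.DRX.Tot2b

/-!
# Both groups of a total two sided function (A1) - (A4)
-/

set_option autoImplicit false

noncomputable section

open Complex MeasureTheory Filter Topology

namespace DRX

open DUA SPN NUGas

theorem PG.row {G : List ℂ → List ℂ → ℂ} (hG : PG G) (X Y : List ℂ) : Differentiable ℂ fun t => G (t :: X) Y := by
  have h1 : PF 1 fun v => G (List.ofFn fun i => (Fin.cons (fun v : Fin 1 → ℂ => v 0) (fun (j : Fin X.length) _ => X.get j) :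
      Fin (X.length + 1) → (Fin 1 → ℂ) → ℂ) i v) (List.ofFn fun j => (fun (j : Fin Y.length) (_ : Fin 1 → ℂ) => Y.get j) j v) := by
    refine hG 1 _ _ _ _ (fun i => ?_) fun j => PF.const _
    refine Fin.cases ?_ (fun j => ?_) i
    · exact PF.var 0
    · exact PF.const _
  have h2 := h1.diff_line 0 1
  refine h2.congr_fun' fun t => ?_
  simp only [List.ofFn_succ, Fin.cons_zero, Fin.cons_succ, List.ofFn_get]
  simp

/-- the normalisation of both lists (no ends) -/
def bb (V W : List ℂ) : ℂ := (2 / 3) ^ (V.length + W.length) * (PP (fun v w => u2 v w ^ 2) V *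
  PP (fun v w => u2 v w ^ 2) W * (V.map fun v => (W.map fun w => u2 v w ^ 2).prod).prod)

theorem prod_swap (f : ℂ → ℂ → ℂ) (V W : List ℂ) :
    (V.map fun v => (W.map fun w => f v w).prod).prod = (W.map fun w => (V.map fun v => f v w).prod).prod := by
  induction V with
  | nil => simp
  | cons v V ih =>
    simp only [List.map_cons, List.prod_cons]
    rw [ih, List.prod_map_mul]

theorem bb_swap (V W : List ℂ) : bb V W = bb W V := by
  unfold bb
  rw [prod_swap, add_comm V.length]
  have : (W.map fun w => (V.map fun v => u2 v w ^ 2).prod).prod = (W.map fun w => (V.map fun v => u2 w v ^ 2).prod).prod := by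
    congr 1
    refine List.map_congr_left fun w _ => ?_
    congr 1
    exact List.map_congr_left fun v _ => by rw [u2_symm]
  rw [this]
  ring

theorem bb_eq (V J : List ℂ) : bb V J = nrm V (J ++ J) * ((2 / 3) ^ J.length * PP (fun v w => u2 v w ^ 2) J) := by
  unfold bb nrm
  rw [XP_double, PP_sq V, pow_add]
  ring

/-- **both groups** -/
theorem exists_both {η : ℂ} (hη : η ^ 4 = -1) (hr : η - η ^ 3 = ((Real.sqrt 2 : ℝ) : ℂ))
    {G : List ℂ → List ℂ → ℂ} (hP : PG G) (hX : ∀ Y : List ℂ, Rul η (Y ++ Y) fun X => G X Y)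
    (hY : ∀ X : List ℂ, Rul η (X ++ X) fun Y => G X Y) :
    (∃ Ψ, FunS (fun V J => G (V.map xx) (J.map xx) / bb V J) Ψ) ∧
      ∃ Ψ, FunS (fun J V => G (V.map xx) (J.map xx) / bb V J) Ψ := by
  have key : ∀ {H : List ℂ → List ℂ → ℂ}, PG H → (∀ Y : List ℂ, Rul η (Y ++ Y) fun X => H X Y) →
      ∃ Ψ, FunS (fun V J => H (V.map xx) (J.map xx) / bb V J) Ψ := by
    intro H h1 h2
    obtain ⟨Ψ, h3⟩ := exists_funS hη hr h2 (fun X Y => h1.row X Y)
      fun J => ((2 / 3) ^ J.length * PP (fun v w => u2 v w ^ 2) J)⁻¹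
    refine ⟨Ψ, ?_⟩
    have e : (fun V J => ((2 / 3) ^ J.length * PP (fun v w => u2 v w ^ 2) J)⁻¹ *
        (H (V.map xx) (J.map xx) / nrm V (J ++ J))) = fun V J => H (V.map xx) (J.map xx) / bb V J := by
      funext V J
      rw [bb_eq, div_mul_eq_div_div, div_eq_inv_mul (H (V.map xx) (J.map xx) / nrm V (J ++ J))]
    rwa [e] at h3
  refine ⟨key hP hX, ?_⟩
  obtain ⟨Ψ, h⟩ := key hP.swap hY
  refine ⟨Ψ, ?_⟩
  have e : (fun V J => G (J.map xx) (V.map xx) / bb V J) = fun J V => G (V.map xx) (J.map xx) / bb V J := by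
    funext V J
    rw [bb_swap]
  rwa [e] at h

end DRX

end
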