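import Pool.Agent.DRX.FT
import Pool.Agent.DRX.FunB
import Pool.Agent.SPN.NRul
import Pool.Agent.NUF.Gas.Poly3

/-!
# The loop function (DUAL-R, F34)

* `Lp η σ om G`: `G` is the total function of `NUGas.N`;
* `exists_lp`;
* `Lp.crude`: `‖FT G [] V W‖ ≤ exp (C (|V| + |W| + 1) ^ 3)` in every strip narrower than the window;
* `Lp.adm`, `Lp.fh`.
-/

set_option autoImplicit false

noncomputable section

namespace DRX

open SPN NUGas Complex

variable {η σ om : ℂ}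

/-- the rules of the loop function -/
theorem twoRul_N (hη : η ^ 4 = -1) (hσ : σ ^ 2 = 2 - η + η ^ 3) (hom : om ≠ 0) :
    TwoRul η [] (N η σ om) where
  X Y hY := by
    rw [List.append_nil] at hY
    exact ⟨fun X => N η σ om X Y, rul_of_data (N_data hη hσ hom) hY, fun X _ => rfl⟩
  Y X hX := by
    rw [List.append_nil] at hX
    refine ⟨fun Y => N η σ om Y X, rul_of_data (N_data hη hσ hom) hX, fun Y _ => ?_⟩
    exact N_roles hη X Y

/-- the total loop function -/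
structure Lp (η σ om : ℂ) (G : List ℂ → List ℂ → ℂ) : Prop where
  pg : PG G
  gen : ∀ X Y, Gen η (X ++ Y) → G X Y = N η σ om X Y
  rX : ∀ Y, Rul η (Y ++ Y) fun X => G X Y
  rY : ∀ X, Rul η (X ++ X) fun Y => G X Y

/-- **the total loop function exists** -/
theorem exists_lp (hη : η ^ 4 = -1) (hσ : σ ^ 2 = 2 - η + η ^ 3) (hom : om ≠ 0) :
    ∃ G, Lp η σ om G := by
  obtain ⟨G, h1, h2, h3, h4⟩ := exists_tot hη (Z := []) ⟨by simp, List.Pairwise.nil⟩ (twoRul_N hη hσ hom)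
  refine ⟨G, h1, fun X Y h => h2 X Y ?_, fun Y => ?_, fun X => ?_⟩
  · rwa [List.append_nil]
  · exact h3 Y
  · exact h4 X

theorem sx_sep {κ : ℝ} (hκ : 0 < κ) {x y : ℂ} (h : Sx η κ x y) : Sep η x y := by
  intro k hk
  have h1 := h k
  unfold lin at h1
  rw [hk, sub_self, norm_zero] at h1
  have := mul_pos hκ (Real.exp_pos (Mx x y))
  linarith

theorem FT_nil (G : List ℂ → List ℂ → ℂ) (V W : List ℂ) :
    FT G [] V W = G (V.map xx) (W.map xx) / bb V W := by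
  unfold FT bulk2 bb
  simp

/-- **the bound on separated configurations** -/
theorem Lp.sep_bd (hη : η ^ 4 = -1) (hom : ‖om‖ = 1) {G : List ℂ → List ℂ → ℂ} (h : Lp η σ om G)
    {D : ℝ} (hD : D < 5 * Real.pi / 6) : ∃ C : ℝ, 0 < C ∧ ∀ (c ε L : ℝ), 0 < ε → ε ≤ 1 → 1 ≤ L →
      20 / ε ≤ Real.exp L → ∀ V W : List ℂ, (∀ v ∈ V, |v.im - c| ≤ D) → (∀ v ∈ W, |v.im - c| ≤ D) →
      (V ++ W).Pairwise (fun v w => ∀ s ∈ PS, ε ≤ ‖v - w - s‖) →
      ‖FT G [] V W‖ ≤ Real.exp (C * L * (((V.length + W.length : ℕ) : ℝ) + 1) ^ 2) := by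
  obtain ⟨k, hk, hk1, hb⟩ := bulk2_ge hD
  refine ⟨14 + 2 * ‖σ‖ + 1 / k, by positivity, fun c ε L hε hε1 hL hεL V W hV hW hs => ?_⟩
  obtain ⟨n, hn⟩ : ∃ n : ℕ, n = V.length + W.length := ⟨_, rfl⟩
  have hsx : (V ++ W).Pairwise (fun v w => Sx η (ε / 10) (xx v) (xx w)) := by
    refine List.Pairwise.imp_of_mem (fun {v w} hv hw hvw => ?_) hs
    have hin : ∀ u ∈ V ++ W, |u.im - c| ≤ D := by
      intro u hu
      rcases List.mem_append.1 hu with hu | hu
      · exact hV u hu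
      · exact hW u hu
    refine sx_q hη (d := 2 * D) (by linarith) hε hε1 ?_ hvw
    rw [Complex.sub_im]
    have e : v.im - w.im = (v.im - c) - (w.im - c) := by ring
    rw [e]
    refine (abs_sub _ _).trans ?_
    linarith [hin v hv, hin w hw]
  have hgen : Gen η (V.map xx ++ W.map xx) := by
    rw [← List.map_append]
    refine ⟨fun x hx => ?_, ?_⟩
    · obtain ⟨v, -, rfl⟩ := List.mem_map.1 hx
      exact xx_ne v
    · rw [List.pairwise_map]
      exact hsx.imp fun hvw => sx_sep (by positivity) hvw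
  obtain ⟨sV, sW, -⟩ := List.pairwise_append.1 hsx
  have hne : ∀ (U : List ℂ), ∀ x ∈ U.map xx, x ≠ 0 := by
    intro U x hx
    obtain ⟨v, -, rfl⟩ := List.mem_map.1 hx
    exact xx_ne v
  obtain ⟨K, hK⟩ : ∃ K : ℝ, K = (20 / ε) ^ 6 * (1 + ‖σ‖) := ⟨_, rfl⟩
  have h20 : (1 : ℝ) ≤ 20 / ε := by
    rw [le_div_iff₀ hε]
    linarith
  have h201 : (1 : ℝ) ≤ (20 / ε) ^ 6 := one_le_pow₀ h20
  have hσ0 := norm_nonneg σ
  have hN := N_le hη (σ := σ) hom (κ := ε / 10) (K := K) (by positivity) (by linarith)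
    (by
      rw [hK]
      have e : 2 / (ε / 10) = 20 / ε := by field_simp; norm_num
      rw [e]
      nlinarith)
    (by rw [hK]; nlinarith) (V.map xx) (W.map xx) (hne V) (hne W)
    (by rw [List.pairwise_map]; exact sV) (by rw [List.pairwise_map]; exact sW)
  have hB := hb c [] V W (by simp) hV hW
  simp only [List.length_map] at hN
  have hEZ : ∀ U : List ℂ, EZ (([] : List ℂ).map xx) U = 0 := by
    intro U
    unfold EZ
    simp
  rw [hEZ, hEZ, add_zero, add_zero, List.length_nil, add_zero] at hB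
  unfold FT
  rw [h.gen _ _ hgen, norm_div]
  obtain ⟨E, hE⟩ : ∃ E, E = Real.exp (En (V.map xx) (W.map xx)) := ⟨_, rfl⟩
  rw [← hE] at hN hB
  have hE0 : 0 < E := by rw [hE]; exact Real.exp_pos _
  have hBp : 0 < ‖bulk2 [] V W‖ := lt_of_lt_of_le (by positivity) hB
  rw [div_le_iff₀ hBp]
  refine hN.trans ?_
  -- the exponentials
  obtain ⟨a, ha⟩ : ∃ a : ℝ, a = (n : ℝ) + 1 := ⟨_, rfl⟩
  have ha1 : 1 ≤ a := by
    rw [ha]
    have : (0 : ℝ) ≤ n := by positivity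
    linarith
  have k3 : (3 : ℝ) ≤ Real.exp 2 := by
    have := Real.add_one_le_exp (2 : ℝ)
    linarith
  have m1 : (3 : ℝ) ^ V.length * 3 ^ W.length ≤ Real.exp (2 * a) := by
    rw [← pow_add, ← hn]
    calc (3 : ℝ) ^ n ≤ Real.exp 2 ^ n := by gcongr
      _ = Real.exp ((n : ℝ) * 2) := by rw [← Real.exp_nat_mul]
      _ ≤ _ := Real.exp_le_exp.2 (by rw [ha]; linarith)
  have hK1 : 1 ≤ K := by rw [hK]; nlinarith
  have hKL : K ≤ Real.exp (6 * L + ‖σ‖) := by
    rw [hK, Real.exp_add]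
    have h1 : (20 / ε) ^ 6 ≤ Real.exp (6 * L) := by
      calc (20 / ε) ^ 6 ≤ Real.exp L ^ 6 := by gcongr
        _ = _ := by rw [← Real.exp_nat_mul]; norm_num
    have h2 : 1 + ‖σ‖ ≤ Real.exp ‖σ‖ := by
      have := Real.add_one_le_exp ‖σ‖
      linarith
    gcongr
  have m2 : K ^ ((V.length + 1) ^ 2 + (W.length + 1) ^ 2 + W.length * V.length) ≤
      Real.exp (2 * a ^ 2 * (6 * L + ‖σ‖)) := by
    have h1 : (V.length + 1) ^ 2 + (W.length + 1) ^ 2 + W.length * V.length ≤ 2 * (n + 1) ^ 2 := by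
      rw [hn]
      nlinarith [Nat.zero_le (V.length * W.length), Nat.zero_le V.length, Nat.zero_le W.length]
    calc K ^ ((V.length + 1) ^ 2 + (W.length + 1) ^ 2 + W.length * V.length) ≤ K ^ (2 * (n + 1) ^ 2) :=
          pow_le_pow_right₀ hK1 h1
      _ ≤ Real.exp (6 * L + ‖σ‖) ^ (2 * (n + 1) ^ 2) := by gcongr
      _ = Real.exp (((2 * (n + 1) ^ 2 : ℕ) : ℝ) * (6 * L + ‖σ‖)) := by rw [← Real.exp_nat_mul]
      _ = _ := by
          congr 1
          rw [ha]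
          push_cast
          ring
  have m3 : Real.exp (-(1 / k * a ^ 2)) ≤ k ^ ((n + 1) ^ 2) := by
    have h1 : Real.exp (-(1 / k)) ≤ k := by
      have h2 : Real.exp (-(1 / k)) = (Real.exp (1 / k))⁻¹ := Real.exp_neg _
      rw [h2]
      have h3 : 1 / k ≤ Real.exp (1 / k) := by
        have := Real.add_one_le_exp (1 / k)
        linarith
      calc (Real.exp (1 / k))⁻¹ ≤ (1 / k)⁻¹ := inv_anti₀ (by positivity) h3
        _ = k := by rw [one_div, inv_inv]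
    calc Real.exp (-(1 / k * a ^ 2)) = Real.exp (((((n + 1) ^ 2 : ℕ)) : ℝ) * (-(1 / k))) := by
          congr 1
          rw [ha]
          push_cast
          ring
      _ = Real.exp (-(1 / k)) ^ ((n + 1) ^ 2) := by rw [← Real.exp_nat_mul]
      _ ≤ _ := by
          have := Real.exp_pos (-(1 / k))
          gcongr
  have hfin : 2 * a + 2 * a ^ 2 * (6 * L + ‖σ‖) ≤
      (14 + 2 * ‖σ‖ + 1 / k) * L * a ^ 2 + -(1 / k * a ^ 2) := by
    have hk0 : 0 < 1 / k := by positivity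
    have e1 : (14 + 2 * ‖σ‖ + 1 / k) * L * a ^ 2 + -(1 / k * a ^ 2) -
        (2 * a + 2 * a ^ 2 * (6 * L + ‖σ‖)) =
        2 * (a * (L * a - 1)) + 2 * ‖σ‖ * (L - 1) * a ^ 2 + 1 / k * (L - 1) * a ^ 2 := by ring
    have h1 : 0 ≤ L * a - 1 := by nlinarith
    have h2 : 0 ≤ L - 1 := by linarith
    have h3 : 0 ≤ a := by linarith
    have h4 : 0 ≤ 2 * (a * (L * a - 1)) + 2 * ‖σ‖ * (L - 1) * a ^ 2 + 1 / k * (L - 1) * a ^ 2 := by
      positivity
    linarith
  rw [← hn, ← ha]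
  rw [← hn] at hB
  calc (3 : ℝ) ^ V.length * (3 ^ W.length *
        (K ^ ((V.length + 1) ^ 2 + (W.length + 1) ^ 2 + W.length * V.length) * E)) =
        (3 ^ V.length * 3 ^ W.length) *
          K ^ ((V.length + 1) ^ 2 + (W.length + 1) ^ 2 + W.length * V.length) * E := by ring
    _ ≤ Real.exp (2 * a) * Real.exp (2 * a ^ 2 * (6 * L + ‖σ‖)) * E := by gcongr
    _ = Real.exp (2 * a + 2 * a ^ 2 * (6 * L + ‖σ‖)) * E := by rw [← Real.exp_add]
    _ ≤ Real.exp ((14 + 2 * ‖σ‖ + 1 / k) * L * a ^ 2 + -(1 / k * a ^ 2)) * E := by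
        gcongr
    _ = Real.exp ((14 + 2 * ‖σ‖ + 1 / k) * L * a ^ 2) * (Real.exp (-(1 / k * a ^ 2)) * E) := by
        rw [Real.exp_add]
        ring
    _ ≤ Real.exp ((14 + 2 * ‖σ‖ + 1 / k) * L * a ^ 2) * (k ^ ((n + 1) ^ 2) * E) := by gcongr
    _ ≤ _ := by gcongr

/-- **the crude bound**, uniform in the heights and in the place of the window -/
theorem Lp.crude (hη : η ^ 4 = -1) (hom : ‖om‖ = 1) {G : List ℂ → List ℂ → ℂ} (h : Lp η σ om G)
    {d : ℝ} (hd : d < 5 * Real.pi / 6) : ∃ C : ℝ, 0 < C ∧ ∀ (c : ℝ) (V W : List ℂ),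
      (∀ v ∈ V, |v.im - c| ≤ d) → (∀ v ∈ W, |v.im - c| ≤ d) →
      ‖FT G [] V W‖ ≤ Real.exp (C * (((V.length + W.length : ℕ) : ℝ) + 1) ^ 3) := by
  obtain ⟨D, hDe⟩ : ∃ D : ℝ, D = (d + 5 * Real.pi / 6) / 2 := ⟨_, rfl⟩
  have hD : D < 5 * Real.pi / 6 := by rw [hDe]; linarith
  have hdD : 0 < D - d := by rw [hDe]; linarith
  obtain ⟨C, hC, hbd⟩ := h.sep_bd hη hom hD
  obtain ⟨P, hP⟩ : ∃ P : ℕ, P = PS.card * 2 := ⟨_, rfl⟩
  obtain ⟨B, hB⟩ : ∃ B : ℝ, B = 20 + 80 * ((P : ℝ) + 1) / (D - d) := ⟨_, rfl⟩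
  have hB0 : 0 ≤ B := by rw [hB]; positivity
  refine ⟨C * (B + 2), by positivity, fun c V W hV hW => ?_⟩
  obtain ⟨n, hn⟩ : ∃ n : ℕ, n = V.length + W.length := ⟨_, rfl⟩
  obtain ⟨a, ha⟩ : ∃ a : ℝ, a = (n : ℝ) + 1 := ⟨_, rfl⟩
  have hn0 : (0 : ℝ) ≤ n := by positivity
  have ha1 : 1 ≤ a := by rw [ha]; linarith
  obtain ⟨r, hr⟩ : ∃ r : ℝ, r = (D - d) / a := ⟨_, rfl⟩
  have hr0 : 0 < r := by rw [hr]; positivity
  obtain ⟨s, hs⟩ : ∃ s : ℝ, s = r / (4 * (((n * P : ℕ) : ℝ) + 1)) := ⟨_, rfl⟩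
  have hs0 : 0 < s := by rw [hs]; positivity
  obtain ⟨ε, hε⟩ : ∃ ε : ℝ, ε = min 1 s := ⟨_, rfl⟩
  have hε0 : 0 < ε := by rw [hε]; exact lt_min one_pos hs0
  have hε1 : ε ≤ 1 := by rw [hε]; exact min_le_left _ _
  have hεs : ε ≤ s := by rw [hε]; exact min_le_right _ _
  have h20 : 20 / ε ≤ Real.exp ((B + 2) * a) := by
    have h1 : 20 / ε ≤ 20 + 20 / s := by
      rw [hε]
      rcases min_choice 1 s with hm | hm
      · rw [hm]
        have : 0 < 20 / s := by positivity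
        linarith
      · rw [hm]
        linarith
    have h2 : 20 / s = 80 * (((n * P : ℕ) : ℝ) + 1) * a / (D - d) := by
      rw [hs, hr]
      field_simp
      norm_num
    have h3 : ((n * P : ℕ) : ℝ) + 1 ≤ ((P : ℝ) + 1) * a := by
      rw [ha]
      push_cast
      have : (0 : ℝ) ≤ P := by positivity
      nlinarith
    have h4 : 20 / ε ≤ B * a ^ 2 := by
      refine h1.trans ?_
      rw [h2, hB]
      have h5 : 80 * (((n * P : ℕ) : ℝ) + 1) * a / (D - d) ≤ 80 * (((P : ℝ) + 1) * a) * a / (D - d) := by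
        gcongr
      have h6 : (20 : ℝ) ≤ 20 * a ^ 2 := by nlinarith
      calc 20 + 80 * (((n * P : ℕ) : ℝ) + 1) * a / (D - d) ≤
            20 * a ^ 2 + 80 * (((P : ℝ) + 1) * a) * a / (D - d) := add_le_add h6 h5
        _ = _ := by ring
    refine h4.trans ?_
    have h7 : B ≤ Real.exp (B * a) := by
      have h8 := Real.add_one_le_exp (B * a)
      nlinarith
    have h9 : a ^ 2 ≤ Real.exp (2 * a) := by
      have h10 := Real.add_one_le_exp a
      have h11 : a ≤ Real.exp a := by linarith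
      calc a ^ 2 ≤ Real.exp a ^ 2 := by gcongr
        _ = _ := by rw [← Real.exp_nat_mul]; norm_num
    calc B * a ^ 2 ≤ Real.exp (B * a) * Real.exp (2 * a) := by gcongr
      _ = _ := by rw [← Real.exp_add]; congr 1; ring
  have key := FT_rem h.pg (Z := []) (c := c) (d := d) (D := D) (r := r) (ε := ε)
    (M := Real.exp (C * ((B + 2) * a) * a ^ 2)) (by simp) hD hr0 V.length W.length ?_ ?_ ?_ V W rfl rfl
    hV hW
  · refine key.trans (Real.exp_le_exp.2 (le_of_eq ?_))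
    rw [← hn, ← ha]
    ring
  · rw [← hn, hr]
    have h1 : (n : ℝ) * ((D - d) / a) ≤ D - d := by
      rw [mul_div_assoc', div_le_iff₀ (by linarith)]
      rw [ha]
      nlinarith
    linarith
  · rw [← hn, ← hP]
    have e : QZ [] = ∅ := by
      unfold QZ
      simp
    rw [e, Finset.card_empty, add_zero]
    rw [hs] at hεs
    exact hεs
  · intro V' W' h1 h2 h3 h4 h5 _
    have h6 := hbd c ε ((B + 2) * a) hε0 hε1 (by nlinarith) h20 V' W' h3 h4 h5
    rw [h1, h2, ← hn, ← ha] at h6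
    exact h6

/-- **`Adm`** -/
theorem Lp.adm (hη : η ^ 4 = -1) (hom : ‖om‖ = 1) {G : List ℂ → List ℂ → ℂ} (h : Lp η σ om G)
    (c : ℝ) {d : ℝ} (hd : d < 5 * Real.pi / 6) : Adm (Stp c d) (FT G []) where
  cont p q z hz := by
    refine (FT_diffAt (E := (Fin p → ℂ) × (Fin q → ℂ)) h.pg (c := c) (Z := []) (a := fun i z => z.1 i)
      (b := fun j z => z.2 j) (by simp) (fun i => by fun_prop) (fun i => by fun_prop)
      (fun i => lt_of_le_of_lt (hz.1 i) hd)
      fun i => lt_of_le_of_lt (hz.2 i) hd).continuousAt.continuousWithinAt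
  bdd p q := by
    obtain ⟨C, -, hC⟩ := h.crude hη hom hd
    refine ⟨Real.exp (C * (((p + q : ℕ) : ℝ) + 1) ^ 3), fun x y hx hy => ?_⟩
    have h1 := hC c (List.ofFn x) (List.ofFn y) (fun v hv => by
      obtain ⟨i, rfl⟩ := (List.mem_ofFn' _ _).1 hv
      exact hx i) (fun v hv => by
      obtain ⟨i, rfl⟩ := (List.mem_ofFn' _ _).1 hv
      exact hy i)
    rw [List.length_ofFn, List.length_ofFn] at h1
    exact h1

/-- **the loop function satisfies all the hypotheses of the exact side** -/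
theorem Lp.fh (hη : η ^ 4 = -1) (hr : η - η ^ 3 = ((Real.sqrt 2 : ℝ) : ℂ)) (hom : ‖om‖ = 1)
    {G : List ℂ → List ℂ → ℂ} (h : Lp η σ om G) : FH (FT G []) := by
  have e : FT G [] = fun V W => G (V.map xx) (W.map xx) / bb V W := by
    funext V W
    exact FT_nil G V W
  obtain ⟨h1, h2⟩ := exists_both hη hr h.pg h.rX h.rY
  refine ⟨fun c d hd => h.adm hη hom c hd, ?_, ?_⟩
  · rw [e]
    exact h1
  · rw [e]
    exact h2

/-- the value on jointly generic lists -/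
theorem Lp.eq {G : List ℂ → List ℂ → ℂ} (h : Lp η σ om G) {V W : List ℂ}
    (hg : Gen η (V.map xx ++ W.map xx)) :
    FT G [] V W = N η σ om (V.map xx) (W.map xx) / bb V W := by
  rw [FT_nil, h.gen _ _ hg]

end DRX

end
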