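import Pool.Agent.DRX.LinB

/-!
# The bound of the charge sum (DUAL-R, F34)

`N_le`: for separated lines of each group,
`‖N η σ om X Y‖ ≤ K^(..) exp (prs (2 Mx) X + prs (2 Mx) Y + ∑ ∑ 2 Mx)`.
-/

set_option autoImplicit false

noncomputable section

namespace DRX

open NUGas SPN

variable {η : ℂ}

/-- exponent of the own factors -/
def Eo (e : List (ℂ × SignType)) : ℝ :=
  (e.map fun c => ((c.2 : ℝ)) ^ 2 * Hx c.1).sum +
    prs (fun c d => (dF c.2 d.2 : ℝ) * Mx c.1 d.1) e

/-- exponent of the cross factors -/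
def Ec (e f : List (ℂ × SignType)) : ℝ :=
  (e.map fun c => (f.map fun d => (dG c.2 d.2 : ℝ) * Mx c.1 d.1).sum).sum

theorem exp_pow_mul (n : ℕ) (x : ℝ) : Real.exp x ^ n = Real.exp ((n : ℝ) * x) := by
  rw [← Real.exp_nat_mul]

theorem wt_le {σ : ℂ} {K : ℝ} (hK : 1 ≤ K) (hσ : ‖σ‖ ≤ K) {x : ℂ} (hx : x ≠ 0) (a : SignType) :
    ‖wt σ a x‖ ≤ K * Real.exp (((a : ℝ)) ^ 2 * Hx x) := by
  have hx0 := norm_pos_iff.2 hx
  have e1 : Real.exp (Hx x) = ‖x‖ := Real.exp_log hx0
  rcases a with _ | _ | _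
  · simpa [wt] using hK
  · have e2 : (((SignType.neg : SignType) : ℝ)) ^ 2 * Hx x = Hx x := by norm_num
    simp only [wt]
    rw [e2, e1, norm_mul]
    exact mul_le_mul_of_nonneg_right hσ hx0.le
  · have e2 : (((SignType.pos : SignType) : ℝ)) ^ 2 * Hx x = Hx x := by norm_num
    simp only [wt]
    rw [e2, e1, norm_mul]
    exact mul_le_mul_of_nonneg_right hσ hx0.le

/-- **the own factors** -/
theorem own_le (hη : η ^ 4 = -1) {σ : ℂ} {κ K : ℝ} (hκ : 0 < κ) (hκ1 : κ ≤ 1) (hK : (2 / κ) ^ 6 ≤ K)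
    (hσ : ‖σ‖ ≤ K) (e : List (ℂ × SignType)) (h0 : ∀ c ∈ e, c.1 ≠ 0)
    (hs : e.Pairwise fun c d => Sx η κ c.1 d.1) :
    ‖own η σ e‖ ≤ K ^ ((e.length + 1) ^ 2) * Real.exp (Eo e) := by
  have h2 : (1 : ℝ) ≤ 2 / κ := by rw [le_div_iff₀ hκ]; linarith
  have hK1 : 1 ≤ K := (one_le_pow₀ h2).trans hK
  have hK0 : 0 ≤ K := by linarith
  induction e with
  | nil =>
    simp only [own, norm_one, Eo, List.map_nil, List.sum_nil, prs_nil, add_zero, Real.exp_zero,
      mul_one]
    exact one_le_pow₀ hK1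
  | cons c e ih =>
    have hc := h0 c List.mem_cons_self
    have h0' : ∀ d ∈ e, d.1 ≠ 0 := fun d hd => h0 d (List.mem_cons_of_mem _ hd)
    rw [List.pairwise_cons] at hs
    have i1 := ih h0' hs.2
    have i2 := prod_exp_le (f := fun d : ℂ × SignType => F η c.2 d.2 c.1 d.1)
      (g := fun d => (dF c.2 d.2 : ℝ) * Mx c.1 d.1) hK0 e (fun d hd => by
        refine (F_le hη hκ hκ1 hc (h0' d hd) (hs.1 d hd) c.2 d.2).trans ?_
        rw [exp_pow_mul]
        gcongr)
    have i3 := wt_le hK1 hσ hc c.2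
    have e1 : Eo (c :: e) = ((c.2 : ℝ)) ^ 2 * Hx c.1 +
        (e.map fun d => (dF c.2 d.2 : ℝ) * Mx c.1 d.1).sum + Eo e := by
      unfold Eo
      rw [List.map_cons, List.sum_cons, prs_cons]
      ring
    rw [e1, Real.exp_add, Real.exp_add]
    simp only [own, List.length_cons]
    rw [norm_mul, norm_mul]
    calc ‖wt σ c.2 c.1‖ * ‖(e.map fun d => F η c.2 d.2 c.1 d.1).prod‖ * ‖own η σ e‖ ≤
        (K * Real.exp (((c.2 : ℝ)) ^ 2 * Hx c.1)) *
          (K ^ e.length * Real.exp (e.map fun d => (dF c.2 d.2 : ℝ) * Mx c.1 d.1).sum) *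
          (K ^ ((e.length + 1) ^ 2) * Real.exp (Eo e)) := by gcongr
      _ = K ^ (1 + e.length + (e.length + 1) ^ 2) * (Real.exp (((c.2 : ℝ)) ^ 2 * Hx c.1) *
          Real.exp (e.map fun d => (dF c.2 d.2 : ℝ) * Mx c.1 d.1).sum * Real.exp (Eo e)) := by
          rw [pow_add, pow_add, pow_one]
          ring
      _ ≤ _ := by
          gcongr
          nlinarith

/-- **the cross factors** -/
theorem crs_le (hη : η ^ 4 = -1) {κ K : ℝ} (hκ : 0 < κ) (hκ1 : κ ≤ 1) (hK : (2 / κ) ^ 6 ≤ K)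
    (e f : List (ℂ × SignType)) (he : ∀ c ∈ e, c.1 ≠ 0) (hf : ∀ c ∈ f, c.1 ≠ 0) :
    ‖crs η e f‖ ≤ K ^ (f.length * e.length) * Real.exp (Ec e f) := by
  have h2 : (1 : ℝ) ≤ 2 / κ := by rw [le_div_iff₀ hκ]; linarith
  have hK0 : 0 ≤ K := by linarith [(one_le_pow₀ h2).trans hK]
  unfold crs Ec
  rw [pow_mul]
  refine prod_exp_le (pow_nonneg hK0 _) e fun c hc => ?_
  refine prod_exp_le hK0 f fun d hd => ?_
  refine (G_le hη hκ hκ1 (he c hc) (hf d hd) c.2 d.2).trans ?_
  rw [exp_pow_mul]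
  gcongr

/-- the real charge -/
theorem tot_real (e : List (ℂ × SignType)) : (e.map fun c => ((c.2 : ℝ))).sum = ((tot e : ℤ) : ℝ) := by
  induction e with
  | nil => simp [tot]
  | cons c e ih =>
    simp only [List.map_cons, List.sum_cons, tot] at ih ⊢
    rw [ih]
    push_cast
    congr 1

/-- the exponent of the normaliser -/
def En (X Y : List ℂ) : ℝ := prs (fun x y => 2 * Mx x y) X + prs (fun x y => 2 * Mx x y) Y +
  (X.map fun x => (Y.map fun y => 2 * Mx x y).sum).sum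

/-- **the energy of a term** -/
theorem E_le (e f : List (ℂ × SignType)) (h : tot e = tot f) :
    Eo e + Eo f + Ec e f ≤ En (e.map Prod.fst) (f.map Prod.fst) := by
  obtain ⟨L, hL⟩ : ∃ L : List (ℝ × ℝ), L = (e.map fun c => (Hx c.1, ((c.2 : ℝ)))) ++
    f.map fun c => (Hx c.1, -((c.2 : ℝ))) := ⟨_, rfl⟩
  have h0 : (L.map Prod.snd).sum = 0 := by
    rw [hL, List.map_append, List.sum_append, List.map_map, List.map_map]
    have e1 : (e.map (Prod.snd ∘ fun c : ℂ × SignType => (Hx c.1, ((c.2 : ℝ))))).sum =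
        ((tot e : ℤ) : ℝ) := tot_real e
    have e2 : (f.map (Prod.snd ∘ fun c : ℂ × SignType => (Hx c.1, -((c.2 : ℝ))))).sum =
        -((tot f : ℤ) : ℝ) := by
      rw [← tot_real]
      have := sum_map_mul' (-1) (fun c : ℂ × SignType => ((c.2 : ℝ))) f
      simp only [neg_mul, one_mul] at this
      exact this
    rw [e1, e2, h]
    ring
  have key := energy (Prod.fst : ℝ × ℝ → ℝ) Prod.snd L h0
  have k1 : (L.map fun c => c.2 ^ 2 * c.1).sum = (e.map fun c => ((c.2 : ℝ)) ^ 2 * Hx c.1).sum +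
      (f.map fun c => ((c.2 : ℝ)) ^ 2 * Hx c.1).sum := by
    rw [hL, List.map_append, List.sum_append, List.map_map, List.map_map]
    congr 1
    congr 1
    refine List.map_congr_left fun c _ => ?_
    simp
  have k2 : prs (fun c d : ℝ × ℝ => 2 * (c.2 * d.2) * max c.1 d.1) L =
      prs (fun c d : ℂ × SignType => 2 * ((c.2 : ℝ) * (d.2 : ℝ)) * Mx c.1 d.1) e +
      prs (fun c d : ℂ × SignType => 2 * ((c.2 : ℝ) * (d.2 : ℝ)) * Mx c.1 d.1) f +
      (e.map fun c => (f.map fun d => -(2 * ((c.2 : ℝ) * (d.2 : ℝ))) * Mx c.1 d.1).sum).sum := by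
    rw [hL, prs_append, prs_map, prs_map, List.map_map]
    congr 1
    · congr 1
      refine prs_congr f fun c _ d _ => ?_
      unfold Mx
      simp
    · congr 1
      refine List.map_congr_left fun c _ => ?_
      simp only [Function.comp_apply, List.map_map]
      congr 1
      refine List.map_congr_left fun d _ => ?_
      unfold Mx
      simp only [Function.comp_apply]
      ring
  rw [k1, k2] at key
  have d1 : ∀ g : List (ℂ × SignType), prs (fun c d => (dF c.2 d.2 : ℝ) * Mx c.1 d.1) g =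
      prs (fun c d : ℂ × SignType => 2 * ((c.2 : ℝ) * (d.2 : ℝ)) * Mx c.1 d.1) g +
        prs (fun x y => 2 * Mx x y) (g.map Prod.fst) := by
    intro g
    rw [prs_map, ← prs_add]
    refine prs_congr g fun c _ d _ => ?_
    rw [dF_eq]
    ring
  have d2 : Ec e f = (e.map fun c => (f.map fun d => -(2 * ((c.2 : ℝ) * (d.2 : ℝ))) * Mx c.1 d.1).sum).sum +
      ((e.map Prod.fst).map fun x => ((f.map Prod.fst).map fun y => 2 * Mx x y).sum).sum := by
    unfold Ec
    rw [List.map_map, ← sum_map_add']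
    congr 1
    refine List.map_congr_left fun c _ => ?_
    simp only [Function.comp_apply, List.map_map]
    rw [← sum_map_add']
    congr 1
    refine List.map_congr_left fun d _ => ?_
    rw [dG_eq]
    simp only [Function.comp_apply]
    ring
  unfold Eo En
  rw [d1 e, d1 f, d2]
  linarith

/-- sum over the charges -/
theorem sch_le {φ : List (ℂ × SignType) → ℂ} {B : ℝ} (X : List ℂ)
    (h : ∀ e, e.map Prod.fst = X → ‖φ e‖ ≤ B) : ‖sch X φ‖ ≤ 3 ^ X.length * B := by
  induction X generalizing φ with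
  | nil =>
    simpa [sch] using h [] rfl
  | cons p X ih =>
    simp only [sch, List.length_cons]
    refine (norm_sum_le _ _).trans ?_
    refine (Finset.sum_le_sum fun a _ => ih (φ := fun e => φ ((p, a) :: e))
      fun e he => h _ (by simp [he])).trans ?_
    rw [Finset.sum_const, Finset.card_univ, nsmul_eq_mul, pow_succ]
    have : (Fintype.card SignType : ℝ) = 3 := by
      have h3 : Fintype.card SignType = 3 := by decide
      rw [h3]
      norm_num
    rw [this]
    exact le_of_eq (by ring)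

/-- **the bound of the charge sum, uniform in the heights** -/
theorem N_le (hη : η ^ 4 = -1) {σ om : ℂ} (hom : ‖om‖ = 1) {κ K : ℝ} (hκ : 0 < κ) (hκ1 : κ ≤ 1)
    (hK : (2 / κ) ^ 6 ≤ K) (hσ : ‖σ‖ ≤ K) (X Y : List ℂ) (hX : ∀ x ∈ X, x ≠ 0)
    (hY : ∀ y ∈ Y, y ≠ 0) (sX : X.Pairwise (Sx η κ)) (sY : Y.Pairwise (Sx η κ)) :
    ‖N η σ om X Y‖ ≤ 3 ^ X.length * (3 ^ Y.length *
      (K ^ ((X.length + 1) ^ 2 + (Y.length + 1) ^ 2 + Y.length * X.length) * Real.exp (En X Y))) := by
  have h2 : (1 : ℝ) ≤ 2 / κ := by rw [le_div_iff₀ hκ]; linarith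
  have hK0 : 0 ≤ K := by linarith [(one_le_pow₀ h2).trans hK]
  unfold N
  refine sch_le X fun e he => sch_le Y fun f hf => ?_
  have le1 : e.length = X.length := by rw [← he, List.length_map]
  have le2 : f.length = Y.length := by rw [← hf, List.length_map]
  have e0 : ∀ c ∈ e, c.1 ≠ 0 := fun c hc => hX _ (by rw [← he]; exact List.mem_map_of_mem hc)
  have f0 : ∀ c ∈ f, c.1 ≠ 0 := fun c hc => hY _ (by rw [← hf]; exact List.mem_map_of_mem hc)
  have se : e.Pairwise fun c d => Sx η κ c.1 d.1 := by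
    rw [← he, List.pairwise_map] at sX
    exact sX
  have sf : f.Pairwise fun c d => Sx η κ c.1 d.1 := by
    rw [← hf, List.pairwise_map] at sY
    exact sY
  unfold term
  split_ifs with ht
  · rw [norm_mul, norm_mul, norm_mul, norm_zpow, hom, one_zpow, one_mul]
    have i1 := own_le hη hκ hκ1 hK hσ e e0 se
    have i2 := own_le hη hκ hκ1 hK hσ f f0 sf
    have i3 := crs_le hη hκ hκ1 hK e f e0 f0
    have i4 := E_le e f ht
    rw [he, hf] at i4
    rw [le1] at i1 i3
    rw [le2] at i2 i3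
    calc ‖own η σ e‖ * ‖own η σ f‖ * ‖crs η e f‖ ≤
        (K ^ ((X.length + 1) ^ 2) * Real.exp (Eo e)) * (K ^ ((Y.length + 1) ^ 2) * Real.exp (Eo f)) *
          (K ^ (Y.length * X.length) * Real.exp (Ec e f)) := by gcongr
      _ = K ^ ((X.length + 1) ^ 2 + (Y.length + 1) ^ 2 + Y.length * X.length) *
          Real.exp (Eo e + Eo f + Ec e f) := by
          rw [pow_add, pow_add, Real.exp_add, Real.exp_add]
          ring
      _ ≤ _ := by gcongr
  · rw [norm_zero]
    positivity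

end DRX

end
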