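import Pool.Agent.DRX.Rem

/-!
# Removable poles with explicit separation (DUAL-R, F34)

`rem_q`: as `rem_poles`, the same constant `M` for a separation `ε ≤ r / (4 (s + 1))`,
`s = 2 n |P| + |Q|`, `d + n r ≤ D`.
-/

set_option autoImplicit false

noncomputable section

open Finset Function

namespace DRX

variable {ι : Type*} [Fintype ι] [DecidableEq ι]

/-- **removable poles, explicit** -/
theorem rem_q (F : (ι → ℂ) → ℂ) (P Q : Finset ℂ) {c d D r ε M : ℝ} (hr0 : 0 < r)
    (hD : d + Fintype.card ι * r ≤ D)
    (hε : ε ≤ r / (4 * (((Fintype.card ι * (P.card * 2) + Q.card : ℕ) : ℝ) + 1)))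
    (hF : ∀ v : ι → ℂ, (∀ i, |(v i).im - c| ≤ D) → ∀ i,
      DifferentiableAt ℂ (fun z => F (update v i z)) (v i))
    (h0 : ∀ v : ι → ℂ, (∀ i, |(v i).im - c| ≤ D) →
      (∀ i j, i ≠ j → ∀ p ∈ P, ε ≤ ‖v i - v j - p‖) → (∀ i, ∀ p ∈ Q, ε ≤ ‖v i - p‖) → ‖F v‖ ≤ M) :
    ∀ v : ι → ℂ, (∀ i, |(v i).im - c| ≤ d) → ‖F v‖ ≤ M := by
  obtain ⟨s, hs⟩ : ∃ s : Finset ((ι × ℂ × Bool) ⊕ ℂ), s = (univ ×ˢ (P ×ˢ univ)).disjSum Q :=
    ⟨_, rfl⟩
  have hsc : s.card = Fintype.card ι * (P.card * 2) + Q.card := by
    rw [hs, Finset.card_disjSum, Finset.card_product, Finset.card_product, Finset.card_univ,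
      Finset.card_univ, Fintype.card_bool]
  rw [← hsc] at hε
  have key : ∀ S : Finset ι, ∀ v : ι → ℂ,
      (∀ i, |(v i).im - c| ≤ D - S.card * r) →
      (∀ i j, i ∉ S → j ∉ S → i ≠ j → ∀ p ∈ P, ε ≤ ‖v i - v j - p‖) →
      (∀ i, i ∉ S → ∀ p ∈ Q, ε ≤ ‖v i - p‖) → ‖F v‖ ≤ M := by
    intro S
    induction S using Finset.induction_on with
    | empty =>
      intro v hv hsep hq
      refine h0 v (fun i => ?_) (fun i j hij p hp => hsep i j (by simp) (by simp) hij p hp)
        fun i p hp => hq i (by simp) p hp
      simpa using hv i
    | insert a S ha ih =>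
      intro v hv hsep hq
      obtain ⟨d1, hd1⟩ : ∃ d1 : ℝ, d1 = D - (S.card : ℝ) * r := ⟨_, rfl⟩
      have hv1 : ∀ i, |(v i).im - c| ≤ d1 - r := by
        intro i
        have := hv i
        rw [Finset.card_insert_of_notMem ha, Nat.cast_succ] at this
        rw [hd1]
        linarith
      rw [← hd1] at ih
      have hd1D : d1 ≤ D := by
        rw [hd1]
        have : 0 ≤ (S.card : ℝ) * r := by positivity
        linarith
      obtain ⟨ρ, h1, h2, h3⟩ := exists_radius s (Sum.elim
        (fun x : ι × ℂ × Bool => ‖v x.1 + (if x.2.2 then x.2.1 else -x.2.1) - v a‖)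
        (fun x : ℂ => ‖x - v a‖)) hr0
      have hρ : 0 < ρ := by linarith
      have hre : ∀ z : ℂ, ‖z - v a‖ ≤ ρ → |z.im - c| ≤ d1 := by
        intro z hz
        have e : z.im - c = (z - v a).im + ((v a).im - c) := by
          rw [Complex.sub_im]
          ring
        rw [e]
        refine (abs_add_le _ _).trans ?_
        have := (Complex.abs_im_le_norm (z - v a)).trans (hz.trans h2)
        have := hv1 a
        linarith
      have hup : ∀ z : ℂ, ‖z - v a‖ ≤ ρ → ∀ i, |(update v a z i).im - c| ≤ d1 := by
        intro z hz i
        by_cases hi : i = a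
        · rw [hi, update_self]
          exact hre z hz
        · rw [update_of_ne hi]
          have := hv1 i
          linarith
      have hdc : DiffContOnCl ℂ (fun z => F (update v a z)) (Metric.ball (v a) ρ) := by
        refine DifferentiableOn.diffContOnCl ?_
        rw [closure_ball _ hρ.ne']
        intro z hz
        rw [Metric.mem_closedBall, dist_eq_norm] at hz
        have h4 := hF (update v a z) (fun i => (hup z hz i).trans hd1D) a
        simp only [update_idem, update_self] at h4
        exact h4.differentiableWithinAt
      have hbd : ∀ z ∈ frontier (Metric.ball (v a) ρ), ‖F (update v a z)‖ ≤ M := by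
        intro z hz
        rw [frontier_ball _ hρ.ne', Metric.mem_sphere, dist_eq_norm] at hz
        have hcirc : ∀ j : ι, ∀ p ∈ P, ∀ b : Bool, ε ≤ ‖z - (v j + (if b then p else -p))‖ := by
          intro j p hp b
          have h5 := h3 (Sum.inl (j, p, b)) (by rw [hs]; simp [hp])
          simp only [Sum.elim_inl] at h5
          refine hε.trans (h5.trans ?_)
          rw [abs_sub_comm, ← hz]
          refine (abs_norm_sub_norm_le _ _).trans (le_of_eq ?_)
          congr 1
          ring
        refine ih _ (hup z hz.le) ?_ ?_
        swap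
        · intro i hi p hp
          by_cases hia : i = a
          · rw [hia, update_self]
            have h5 := h3 (Sum.inr p) (by rw [hs]; simp [hp])
            simp only [Sum.elim_inr] at h5
            refine hε.trans (h5.trans ?_)
            rw [abs_sub_comm, ← hz]
            refine (abs_norm_sub_norm_le _ _).trans (le_of_eq ?_)
            congr 1
            ring
          · rw [update_of_ne hia]
            refine hq i ?_ p hp
            rw [Finset.mem_insert, not_or]
            exact ⟨hia, hi⟩
        intro i j hi hj hij p hp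
        by_cases hia : i = a
        · have hja : j ≠ a := fun h => hij (hia.trans h.symm)
          rw [hia, update_self, update_of_ne hja]
          have h6 := hcirc j p hp true
          simp only [if_true] at h6
          refine h6.trans (le_of_eq ?_)
          congr 1
          ring
        · by_cases hja : j = a
          · rw [hja, update_self, update_of_ne hia]
            have h6 := hcirc i p hp false
            simp only [Bool.false_eq_true, if_false] at h6
            refine h6.trans (le_of_eq ?_)
            rw [← norm_neg]
            congr 1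
            ring
          · rw [update_of_ne hia, update_of_ne hja]
            refine hsep i j ?_ ?_ hij p hp
            · rw [Finset.mem_insert, not_or]
              exact ⟨hia, hi⟩
            · rw [Finset.mem_insert, not_or]
              exact ⟨hja, hj⟩
      have h7 := Complex.norm_le_of_forall_mem_frontier_norm_le Metric.isBounded_ball hdc hbd
        (subset_closure (Metric.mem_ball_self hρ))
      simpa using h7
  intro v hv
  refine key Finset.univ v (fun i => ?_) (fun i j hi => absurd (Finset.mem_univ i) hi)
    fun i hi => absurd (Finset.mem_univ i) hi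
  rw [Finset.card_univ]
  have := hv i
  linarith

end DRX

end
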