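import Pool.Agent.DRX.KuB

/-!
# Distances from the poles, explicit (DUAL-R, F34)

* `expm_ge`: `2 / π exp (Re w / 2) ‖w‖ ≤ ‖exp w - 1‖` for `|Im w| ≤ π`;
* `sx_q`: rows at distance `≥ ε` from the poles are `Sx η (ε / 10)`.
-/

set_option autoImplicit false

noncomputable section

namespace DRX

open NUGas SPN Complex

variable {η : ℂ}

theorem sin_half_ge {y : ℝ} (h : |y| ≤ Real.pi) : |y| / Real.pi ≤ |Real.sin (y / 2)| := by
  have hp := Real.pi_pos
  have h1 : 2 / Real.pi * (|y| / 2) ≤ Real.sin (|y| / 2) :=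
    Real.mul_le_sin (by positivity) (by linarith)
  have h2 : Real.sin (|y| / 2) = |Real.sin (y / 2)| := by
    rw [Real.abs_sin_eq_sin_abs_of_abs_le_pi]
    · rw [abs_div, abs_of_pos (by norm_num : (0 : ℝ) < 2)]
    · rw [abs_div, abs_of_pos (by norm_num : (0 : ℝ) < 2)]
      linarith
  rw [← h2]
  refine le_trans (le_of_eq ?_) h1
  ring

theorem abs_le_sinh (x : ℝ) : |x| ≤ |Real.sinh x| := by
  rcases le_or_gt 0 x with h | h
  · rw [abs_of_nonneg h, abs_of_nonneg (Real.sinh_nonneg_iff.2 h)]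
    exact Real.self_le_sinh_iff.2 h
  · rw [abs_of_neg h, abs_of_neg (Real.sinh_neg_iff.2 h)]
    have := Real.self_le_sinh_iff.2 (by linarith : (0 : ℝ) ≤ -x)
    rw [Real.sinh_neg] at this
    exact this

theorem norm_sinh_sq (z : ℂ) : ‖sinh z‖ ^ 2 = Real.sinh z.re ^ 2 + Real.sin z.im ^ 2 := by
  have h1 : sinh z = ((Real.sinh z.re * Real.cos z.im : ℝ) : ℂ) +
      ((Real.cosh z.re * Real.sin z.im : ℝ) : ℂ) * I := by
    conv_lhs => rw [← Complex.re_add_im z]
    rw [sinh_add, sinh_mul_I, cosh_mul_I]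
    push_cast
    ring
  rw [h1, Complex.sq_norm, Complex.normSq_add_mul_I]
  have h2 := Real.cosh_sq z.re
  have h3 := Real.sin_sq_add_cos_sq z.im
  have h4 : Real.cos z.im ^ 2 = 1 - Real.sin z.im ^ 2 := by linarith
  rw [mul_pow, mul_pow, h2, h4]
  ring

/-- near one zero -/
theorem expm_ge {w : ℂ} (h : |w.im| ≤ Real.pi) :
    2 / Real.pi * Real.exp (w.re / 2) * ‖w‖ ≤ ‖exp w - 1‖ := by
  have hp := Real.pi_pos
  have e : exp w - 1 = 2 * exp (w / 2) * sinh (w / 2) := by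
    have h1 : exp w = exp (w / 2) * exp (w / 2) := by
      rw [← exp_add]
      congr 1
      ring
    have h2 : exp (w / 2) * exp (-(w / 2)) = 1 := by
      rw [← exp_add]
      simp
    rw [sinh, h1]
    linear_combination h2
  have hs : ‖w‖ / Real.pi ≤ ‖sinh (w / 2)‖ := by
    refine (sq_le_sq₀ (by positivity) (norm_nonneg _)).1 ?_
    rw [norm_sinh_sq]
    have r : (w / 2).re = w.re / 2 := by simp
    have i : (w / 2).im = w.im / 2 := by simp
    rw [r, i]
    have h1 : (w.re / Real.pi) ^ 2 ≤ Real.sinh (w.re / 2) ^ 2 := by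
      rw [sq_le_sq]
      refine le_trans ?_ (abs_le_sinh _)
      rw [abs_div, abs_div, abs_of_pos hp, abs_of_pos (by norm_num : (0 : ℝ) < 2)]
      refine div_le_div_of_nonneg_left (abs_nonneg _) (by norm_num) ?_
      linarith [Real.pi_gt_three]
    have h2 : (w.im / Real.pi) ^ 2 ≤ Real.sin (w.im / 2) ^ 2 := by
      rw [sq_le_sq]
      refine le_trans ?_ (sin_half_ge h)
      rw [abs_div, abs_of_pos hp]
    have h3 : (‖w‖ / Real.pi) ^ 2 = (w.re / Real.pi) ^ 2 + (w.im / Real.pi) ^ 2 := by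
      rw [div_pow, Complex.sq_norm, Complex.normSq_apply]
      ring
    rw [h3]
    linarith
  have hn : ‖exp (w / 2)‖ = Real.exp (w.re / 2) := by
    rw [Complex.norm_exp]
    simp
  rw [e, norm_mul, norm_mul, hn, show ‖(2 : ℂ)‖ = 2 by simp]
  calc 2 / Real.pi * Real.exp (w.re / 2) * ‖w‖ = 2 * Real.exp (w.re / 2) * (‖w‖ / Real.pi) := by ring
    _ ≤ _ := by gcongr

/-- a zero of `η ^ k exp (3 z / 4) - 1` near every point -/
theorem near_zero (hη : η ^ 4 = -1) (k : ℕ) (z : ℂ) : ∃ n : ℤ,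
    |((3 / 4 : ℝ) : ℂ).re * (z - ((Real.pi * (n : ℝ) / 3 : ℝ) : ℂ) * I).im| ≤ Real.pi ∧
      η ^ k * exp (3 * z / 4) = exp (((3 / 4 : ℝ) : ℂ) * (z - ((Real.pi * (n : ℝ) / 3 : ℝ) : ℂ) * I)) := by
  have hp := Real.pi_pos
  have h8 : (η ^ k) ^ 8 = 1 := by
    rw [← pow_mul, mul_comm, pow_mul, show (8 : ℕ) = 4 * 2 from rfl, pow_mul, hη]
    norm_num
  have hne : η ^ k ≠ 0 := by
    intro h
    rw [h] at h8
    norm_num at h8
  obtain ⟨m, hm⟩ : ∃ m : ℤ, exp (Complex.log (η ^ k)) = exp (((Real.pi * (m : ℝ) / 4 : ℝ) : ℂ) * I) := by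
    have h1 : exp (8 * Complex.log (η ^ k)) = 1 := by
      rw [← h8]
      conv_rhs => rw [← Complex.exp_log hne]
      rw [← exp_nat_mul]
      congr 1
    obtain ⟨m, hm⟩ := Complex.exp_eq_one_iff.1 h1
    refine ⟨m, ?_⟩
    congr 1
    push_cast
    linear_combination hm / 8
  rw [Complex.exp_log hne] at hm
  -- choose the nearest
  obtain ⟨j, hj⟩ : ∃ j : ℤ, |(m : ℝ) + 3 / Real.pi * z.im - 8 * j| ≤ 4 := by
    refine ⟨round (((m : ℝ) + 3 / Real.pi * z.im) / 8), ?_⟩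
    have h1 := abs_sub_round (((m : ℝ) + 3 / Real.pi * z.im) / 8)
    rw [abs_le] at h1 ⊢
    constructor <;> linarith [h1.1, h1.2]
  refine ⟨8 * j - m, ?_, ?_⟩
  · rw [Complex.ofReal_re, Complex.sub_im, Complex.im_ofReal_mul, Complex.I_im, mul_one]
    have e : (3 / 4 : ℝ) * (z.im - Real.pi * ((8 * j - m : ℤ) : ℝ) / 3) =
        Real.pi / 4 * ((m : ℝ) + 3 / Real.pi * z.im - 8 * j) := by
      push_cast
      field_simp
      ring
    rw [e, abs_mul, abs_of_pos (by positivity)]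
    calc Real.pi / 4 * |(m : ℝ) + 3 / Real.pi * z.im - 8 * j| ≤ Real.pi / 4 * 4 := by gcongr
      _ = Real.pi := by ring
  · rw [hm, ← exp_add, Complex.exp_eq_exp_iff_exists_int]
    refine ⟨j, ?_⟩
    push_cast
    ring

/-- one root of unity, explicit -/
theorem sep_q (hη : η ^ 4 = -1) {d ε : ℝ} (hd : d < 5 * Real.pi / 3) (hε : 0 < ε) (hε1 : ε ≤ 1) (k : ℕ)
    {z : ℂ} (hz : |z.im| ≤ d) (hp : ∀ p ∈ PS, ε ≤ ‖z - p‖) :
    ε / 10 * Real.exp (3 / 8 * z.re + 3 / 8 * |z.re|) ≤ ‖η ^ k * exp (3 * z / 4) - 1‖ := by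
  have hpi := Real.pi_pos
  have hpi3 := Real.pi_gt_three
  have hpi4 := Real.pi_le_four
  have hn : ‖η ^ k * exp (3 * z / 4)‖ = Real.exp (3 / 4 * z.re) := by
    rw [norm_mul, norm_etak hη, one_mul, Complex.norm_exp]
    congr 1
    have h : (3 * z / 4) = ((3 / 4 : ℝ) : ℂ) * z := by
      push_cast
      ring
    rw [h, Complex.re_ofReal_mul]
  have e3 : (2 : ℝ) ≤ Real.exp 1 := by
    have := Real.add_one_le_exp (1 : ℝ)
    linarith
  by_cases hr : |z.re| ≤ 4 / 3
  · obtain ⟨n, h1, h2⟩ := near_zero hη k z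
    obtain ⟨p, hpe⟩ : ∃ p : ℂ, p = ((Real.pi * (n : ℝ) / 3 : ℝ) : ℂ) * I := ⟨_, rfl⟩
    rw [← hpe] at h1 h2
    have h3 : ε ≤ ‖z - p‖ := by
      by_cases hn5 : p ∈ PS
      · exact hp p hn5
      · have h4 : 6 ≤ |(n : ℝ)| := by
          have h5 : ¬ (-5 ≤ n ∧ n ≤ 5) := by
            intro h5
            refine hn5 ?_
            unfold PS
            rw [Finset.mem_image]
            exact ⟨n, Finset.mem_Icc.2 h5, hpe.symm⟩
          have h6 : 6 ≤ |n| := by
            by_contra hc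
            refine h5 ?_
            rw [not_le] at hc
            have := abs_lt.1 hc
            omega
          exact_mod_cast h6
        refine hε1.trans (le_trans ?_ (Complex.abs_im_le_norm _))
        have e : (z - p).im = z.im - Real.pi * n / 3 := by
          rw [hpe, Complex.sub_im, Complex.im_ofReal_mul, Complex.I_im, mul_one]
        rw [e, abs_sub_comm]
        have h7 : |Real.pi * (n : ℝ) / 3| = Real.pi * |(n : ℝ)| / 3 := by
          rw [abs_div, abs_mul, abs_of_pos hpi, abs_of_pos (by norm_num : (0 : ℝ) < 3)]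
        have h8 := abs_sub_abs_le_abs_sub (Real.pi * (n : ℝ) / 3) z.im
        have h9 : Real.pi * 6 ≤ Real.pi * |(n : ℝ)| := by gcongr
        rw [h7] at h8
        linarith
    have h4 : |(((3 / 4 : ℝ) : ℂ) * (z - p)).im| ≤ Real.pi := by
      rw [Complex.im_ofReal_mul]
      exact h1
    have h5 := expm_ge h4
    rw [← h2] at h5
    refine le_trans ?_ h5
    have h6 : ((((3 / 4 : ℝ) : ℂ) * (z - p)).re / 2) = 3 / 8 * z.re := by
      rw [Complex.re_ofReal_mul, Complex.sub_re, hpe, Complex.re_ofReal_mul, Complex.I_re]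
      ring
    rw [h6, norm_mul, Complex.norm_real, Real.norm_of_nonneg (by norm_num : (0 : ℝ) ≤ 3 / 4), Real.exp_add]
    have h7 : Real.exp (3 / 8 * |z.re|) ≤ Real.exp (1 / 2) := by
      refine Real.exp_le_exp.2 ?_
      linarith
    have h8 : Real.exp (1 / 2) ≤ 2 := by
      have h9 : Real.exp (1 / 2) ^ 2 = Real.exp 1 := by
        rw [← Real.exp_nat_mul]
        norm_num
      have h10 := Real.exp_one_lt_d9
      nlinarith [Real.exp_pos (1 / 2 : ℝ)]
    have hE := Real.exp_pos (3 / 8 * z.re)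
    have h11 : 3 / 8 ≤ 2 / Real.pi * (3 / 4) := by
      rw [div_mul_eq_mul_div, le_div_iff₀ hpi]
      linarith
    calc ε / 10 * (Real.exp (3 / 8 * z.re) * Real.exp (3 / 8 * |z.re|)) ≤
          ε / 10 * (Real.exp (3 / 8 * z.re) * 2) := by gcongr; exact h7.trans h8
      _ ≤ 3 / 8 * (Real.exp (3 / 8 * z.re) * ε) := by
          have := mul_pos hE hε
          nlinarith
      _ ≤ (2 / Real.pi * (3 / 4)) * (Real.exp (3 / 8 * z.re) * ‖z - p‖) := by gcongr
      _ = _ := by ring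
  · rw [not_le] at hr
    rcases le_or_gt 0 z.re with h0 | h0
    · rw [abs_of_nonneg h0] at hr ⊢
      have e1 : 3 / 8 * z.re + 3 / 8 * z.re = 3 / 4 * z.re := by ring
      rw [e1]
      have h3 : Real.exp 1 ≤ Real.exp (3 / 4 * z.re) := Real.exp_le_exp.2 (by linarith)
      have h4 := norm_sub_norm_le (η ^ k * exp (3 * z / 4)) 1
      rw [hn, norm_one] at h4
      have h5 := Real.exp_pos (3 / 4 * z.re)
      nlinarith
    · rw [abs_of_neg h0] at hr ⊢
      have e1 : 3 / 8 * z.re + 3 / 8 * -z.re = 0 := by ring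
      rw [e1, Real.exp_zero, mul_one]
      have h3 : Real.exp (3 / 4 * z.re) ≤ Real.exp (-1) := Real.exp_le_exp.2 (by linarith)
      have h5 : Real.exp (-1) ≤ 1 / 2 := by
        rw [Real.exp_neg, inv_eq_one_div]
        exact one_div_le_one_div_of_le (by norm_num) e3
      have h4 := norm_sub_norm_le 1 (η ^ k * exp (3 * z / 4))
      rw [hn, norm_one, norm_sub_rev] at h4
      linarith

/-- **separated rows, explicit** -/
theorem sx_q (hη : η ^ 4 = -1) {d ε : ℝ} (hd : d < 5 * Real.pi / 3) (hε : 0 < ε) (hε1 : ε ≤ 1)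
    {v w : ℂ} (hvw : |(v - w).im| ≤ d) (hs : ∀ p ∈ PS, ε ≤ ‖v - w - p‖) :
    Sx η (ε / 10) (xx v) (xx w) := by
  intro k
  have e1 : lin η k (xx v) (xx w) = xx w * (η ^ k * exp (3 * (v - w) / 4) - 1) := by
    have e2 : xx w * exp (3 * (v - w) / 4) = xx v := by
      unfold xx
      rw [← exp_add]
      congr 1
      ring
    unfold lin
    rw [← e2]
    ring
  have e3 : ‖xx w‖ = Real.exp (3 / 4 * w.re) := by
    rw [← Hx_xx]
    exact (Real.exp_log (norm_pos_iff.2 (xx_ne w))).symm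
  rw [e1, norm_mul, e3, Mx_xx]
  have h1 := sep_q hη hd hε hε1 k hvw hs
  have e4 : 3 / 8 * (v.re + w.re) + 3 / 8 * |(v - w).re| =
      3 / 4 * w.re + (3 / 8 * (v - w).re + 3 / 8 * |(v - w).re|) := by
    rw [Complex.sub_re]
    ring
  rw [e4, Real.exp_add]
  calc ε / 10 * (Real.exp (3 / 4 * w.re) * Real.exp (3 / 8 * (v - w).re + 3 / 8 * |(v - w).re|)) =
        Real.exp (3 / 4 * w.re) * (ε / 10 * Real.exp (3 / 8 * (v - w).re + 3 / 8 * |(v - w).re|)) := by
        ring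
    _ ≤ _ := mul_le_mul_of_nonneg_left h1 (Real.exp_pos _).le

end DRX

end
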