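import Pool.Agent.DRX.Tot2b
import Pool.Agent.DRX.RemQ
import Pool.Agent.DRX.SxQ
import Pool.Agent.DRX.NB
import Pool.Agent.DRX.Hyp

/-!
# The divisor and the entire normalised function (DUAL-R, F34)

* `bulk2`, `FT`;
* `FT_diffAt`: joint holomorphy in the window;
* `bulk2_ge`: lower bound of the divisor;
* `FT_rem`: a bound on separated configurations is a bound.
-/

set_option autoImplicit false

noncomputable section

namespace DRX

open SPN NUGas Complex

/-- the divisor -/
def bulk2 (Z V W : List ℂ) : ℂ := (2 / 3) ^ (V.length + W.length) *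
  (PP (fun v w => u2 v w ^ 2) V * PP (fun v w => u2 v w ^ 2) W *
    (V.map fun v => (W.map fun w => u2 v w ^ 2).prod).prod *
    (V.map fun v => (Z.map fun z => u2 v z).prod).prod *
    (W.map fun w => (Z.map fun z => u2 w z).prod).prod)

/-- the normalised function -/
def FT (G : List ℂ → List ℂ → ℂ) (Z V W : List ℂ) : ℂ := G (V.map xx) (W.map xx) / bulk2 Z V W

/-! ### holomorphy -/

section diff

variable {E : Type*} [NormedAddCommGroup E] [NormedSpace ℂ E]

theorem prod_diff {α : Type*} (L : List α) {f : α → E → ℂ} {x : E}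
    (h : ∀ a ∈ L, DifferentiableAt ℂ (f a) x) :
    DifferentiableAt ℂ (fun z => (L.map fun a => f a z).prod) x := by
  induction L with
  | nil => simp
  | cons a L ih =>
    simp only [List.map_cons, List.prod_cons]
    exact (h a List.mem_cons_self).fun_mul (ih fun b hb => h b (List.mem_cons_of_mem _ hb))

theorem PP_diff (L : List (E → ℂ)) {g : ℂ → ℂ → ℂ} {x : E}
    (h : ∀ a ∈ L, ∀ b ∈ L, DifferentiableAt ℂ (fun z => g (a z) (b z)) x) :
    DifferentiableAt ℂ (fun z => PP g (L.map fun a => a z)) x := by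
  induction L with
  | nil => simp [PP]
  | cons a L ih =>
    simp only [List.map_cons, PP_cons, List.map_map]
    refine DifferentiableAt.fun_mul ?_ (ih fun b hb e he => h b (List.mem_cons_of_mem _ hb) e
      (List.mem_cons_of_mem _ he))
    exact prod_diff L (f := fun b z => g (a z) (b z)) fun b hb =>
      h a List.mem_cons_self b (List.mem_cons_of_mem _ hb)

theorem s5_of {v w : ℂ} {c : ℝ} (hv : |v.im - c| < 5 * Real.pi / 6) (hw : |w.im - c| < 5 * Real.pi / 6) :
    S5 (v - w) := by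
  unfold S5
  rw [Complex.sub_im]
  have e : v.im - w.im = (v.im - c) - (w.im - c) := by ring
  rw [e]
  refine lt_of_le_of_lt (abs_sub _ _) ?_
  linarith

theorem u2_diffAt {a b : E → ℂ} {x : E} (ha : DifferentiableAt ℂ a x) (hb : DifferentiableAt ℂ b x)
    (h : S5 (a x - b x)) : DifferentiableAt ℂ (fun z => u2 (a z) (b z)) x := by
  unfold u2
  have h1 : DifferentiableAt ℂ (fun z => exp (3 * (a z + b z) / 8)) x := by fun_prop
  have h2 : DifferentiableAt ℂ (fun z => a z - b z) x := ha.fun_sub hb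
  exact h1.fun_mul (DifferentiableAt.comp x (g := ku) (f := fun z => a z - b z) (ku_diff h) h2)

theorem u2sq_diffAt {a b : E → ℂ} {x : E} (ha : DifferentiableAt ℂ a x) (hb : DifferentiableAt ℂ b x)
    (h : S5 (a x - b x)) : DifferentiableAt ℂ (fun z => u2 (a z) (b z) ^ 2) x :=
  (u2_diffAt ha hb h).fun_pow 2

/-- double product -/
theorem cross_diff {α β : Type*} (L : List α) (M : List β) {f : α → β → E → ℂ} {x : E}
    (h : ∀ a ∈ L, ∀ b ∈ M, DifferentiableAt ℂ (f a b) x) :
    DifferentiableAt ℂ (fun z => (L.map fun a => (M.map fun b => f a b z).prod).prod) x :=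
  prod_diff L (f := fun a z => (M.map fun b => f a b z).prod) fun a ha => prod_diff M (f := f a) (h a ha)

theorem prod_ne {α : Type*} (L : List α) {f : α → ℂ} (h : ∀ a ∈ L, f a ≠ 0) : (L.map f).prod ≠ 0 := by
  induction L with
  | nil => simp
  | cons a L ih =>
    rw [List.map_cons, List.prod_cons]
    exact mul_ne_zero (h a List.mem_cons_self) (ih fun b hb => h b (List.mem_cons_of_mem _ hb))

theorem PP_nz (L : List ℂ) {g : ℂ → ℂ → ℂ} (h : ∀ a ∈ L, ∀ b ∈ L, g a b ≠ 0) : PP g L ≠ 0 := by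
  induction L with
  | nil => simp [PP]
  | cons a L ih =>
    rw [PP_cons]
    exact mul_ne_zero (prod_ne L fun b hb => h a List.mem_cons_self b (List.mem_cons_of_mem _ hb))
      (ih fun b hb e he => h b (List.mem_cons_of_mem _ hb) e (List.mem_cons_of_mem _ he))

/-- the divisor has no zeros in the window -/
theorem bulk2_ne {c : ℝ} {Z V W : List ℂ} (hZ : ∀ z ∈ Z, |z.im - c| < 5 * Real.pi / 6)
    (hV : ∀ z ∈ V, |z.im - c| < 5 * Real.pi / 6) (hW : ∀ z ∈ W, |z.im - c| < 5 * Real.pi / 6) :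
    bulk2 Z V W ≠ 0 := by
  unfold bulk2
  have h1 : ∀ {v w : ℂ}, |v.im - c| < 5 * Real.pi / 6 → |w.im - c| < 5 * Real.pi / 6 → u2 v w ^ 2 ≠ 0 :=
    fun hv hw => pow_ne_zero 2 (u2_ne (s5_of hv hw))
  refine mul_ne_zero (pow_ne_zero _ (by norm_num)) (mul_ne_zero (mul_ne_zero (mul_ne_zero (mul_ne_zero
    (PP_nz V fun a ha b hb => h1 (hV a ha) (hV b hb)) (PP_nz W fun a ha b hb => h1 (hW a ha) (hW b hb)))
    ?_) ?_) ?_)
  · exact prod_ne V fun a ha => prod_ne W fun b hb => h1 (hV a ha) (hW b hb)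
  · exact prod_ne V fun a ha => prod_ne Z fun b hb => u2_ne (s5_of (hV a ha) (hZ b hb))
  · exact prod_ne W fun a ha => prod_ne Z fun b hb => u2_ne (s5_of (hW a ha) (hZ b hb))

/-- the divisor is holomorphic in the window -/
theorem bulk2_diffAt {c : ℝ} {Z : List ℂ} {L M : List (E → ℂ)} {x : E}
    (hZ : ∀ z ∈ Z, |z.im - c| < 5 * Real.pi / 6)
    (dL : ∀ a ∈ L, DifferentiableAt ℂ a x) (dM : ∀ a ∈ M, DifferentiableAt ℂ a x)
    (hL : ∀ a ∈ L, |(a x).im - c| < 5 * Real.pi / 6) (hM : ∀ a ∈ M, |(a x).im - c| < 5 * Real.pi / 6) :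
    DifferentiableAt ℂ (fun z => bulk2 Z (L.map fun a => a z) (M.map fun a => a z)) x := by
  have h1 : DifferentiableAt ℂ (fun z => PP (fun v w => u2 v w ^ 2) (L.map fun a => a z)) x :=
    PP_diff L fun a ha b hb => u2sq_diffAt (dL a ha) (dL b hb) (s5_of (hL a ha) (hL b hb))
  have h2 : DifferentiableAt ℂ (fun z => PP (fun v w => u2 v w ^ 2) (M.map fun a => a z)) x :=
    PP_diff M fun a ha b hb => u2sq_diffAt (dM a ha) (dM b hb) (s5_of (hM a ha) (hM b hb))
  have h3 : DifferentiableAt ℂ (fun z => (L.map fun a => (M.map fun b => u2 (a z) (b z) ^ 2).prod).prod) x := by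
    refine cross_diff L M (f := fun a b z => u2 (a z) (b z) ^ 2) fun a ha b hb => ?_
    exact u2sq_diffAt (dL a ha) (dM b hb) (s5_of (hL a ha) (hM b hb))
  have h4 : DifferentiableAt ℂ (fun z => (L.map fun a => (Z.map fun b => u2 (a z) b).prod).prod) x := by
    refine cross_diff L Z (f := fun a b z => u2 (a z) b) fun a ha b hb => ?_
    exact u2_diffAt (dL a ha) (differentiableAt_const b) (s5_of (hL a ha) (hZ b hb))
  have h5 : DifferentiableAt ℂ (fun z => (M.map fun a => (Z.map fun b => u2 (a z) b).prod).prod) x := by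
    refine cross_diff M Z (f := fun a b z => u2 (a z) b) fun a ha b hb => ?_
    exact u2_diffAt (dM a ha) (differentiableAt_const b) (s5_of (hM a ha) (hZ b hb))
  have h6 := ((((h1.fun_mul h2).fun_mul h3).fun_mul h4).fun_mul h5).const_mul
    (((2 : ℂ) / 3) ^ (L.length + M.length))
  refine h6.congr_of_eventuallyEq (Filter.Eventually.of_forall fun z => ?_)
  show bulk2 Z (L.map fun a => a z) (M.map fun a => a z) = _
  unfold bulk2
  simp only [List.length_map, List.map_map, Function.comp_def]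

theorem mv_diff {n : ℕ} (P : MvPolynomial (Fin n) ℂ) :
    Differentiable ℂ fun v : Fin n → ℂ => MvPolynomial.eval v P := by
  induction P using MvPolynomial.induction_on with
  | C a => simp
  | add p q hp hq =>
    simp only [map_add]
    exact hp.fun_add hq
  | mul_X p i hp =>
    simp only [map_mul, MvPolynomial.eval_X]
    exact hp.fun_mul (differentiable_apply i)

theorem pf_diff {n : ℕ} {f : (Fin n → ℂ) → ℂ} (hf : PF n f) : Differentiable ℂ f := by
  obtain ⟨P, hP⟩ := hf
  have e : f = fun v => MvPolynomial.eval v P := funext hP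
  rw [e]
  exact mv_diff P

/-- **joint holomorphy in the window** -/
theorem FT_diffAt {G : List ℂ → List ℂ → ℂ} (hG : PG G) {c : ℝ} {Z : List ℂ} {p q : ℕ}
    {a : Fin p → E → ℂ} {b : Fin q → E → ℂ} {x : E} (hZ : ∀ z ∈ Z, |z.im - c| < 5 * Real.pi / 6)
    (da : ∀ i, DifferentiableAt ℂ (a i) x) (db : ∀ i, DifferentiableAt ℂ (b i) x)
    (ha : ∀ i, |(a i x).im - c| < 5 * Real.pi / 6) (hb : ∀ i, |(b i x).im - c| < 5 * Real.pi / 6) :
    DifferentiableAt ℂ (fun z => FT G Z (List.ofFn fun i => a i z) (List.ofFn fun i => b i z)) x := by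
  unfold FT
  have hL : ∀ z, (List.ofFn fun i => a i z) = (List.ofFn a).map fun f => f z := by
    intro z
    rw [List.map_ofFn]
    rfl
  have hM : ∀ z, (List.ofFn fun i => b i z) = (List.ofFn b).map fun f => f z := by
    intro z
    rw [List.map_ofFn]
    rfl
  have mL : ∀ {P : (E → ℂ) → Prop}, (∀ i, P (a i)) → ∀ f ∈ List.ofFn a, P f := by
    intro P h f hf
    obtain ⟨i, rfl⟩ := (List.mem_ofFn' _ _).1 hf
    exact h i
  have mM : ∀ {P : (E → ℂ) → Prop}, (∀ i, P (b i)) → ∀ f ∈ List.ofFn b, P f := by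
    intro P h f hf
    obtain ⟨i, rfl⟩ := (List.mem_ofFn' _ _).1 hf
    exact h i
  have hnum : DifferentiableAt ℂ (fun z => G ((List.ofFn fun i => a i z).map xx)
      ((List.ofFn fun i => b i z).map xx)) x := by
    have h1 := pf_diff (hG (p + q) p q (fun i v => v (Fin.castAdd q i)) (fun j v => v (Fin.natAdd p j))
      (fun i => PF.var _) (fun j => PF.var _))
    have h2 : DifferentiableAt ℂ (fun z : E => (Fin.append (fun i => xx (a i z)) (fun j => xx (b j z)) :
        Fin (p + q) → ℂ)) x := by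
      rw [differentiableAt_pi]
      intro k
      refine Fin.addCases (fun i => ?_) (fun j => ?_) k
      · simp only [Fin.append_left]
        have := da i
        unfold xx
        fun_prop
      · simp only [Fin.append_right]
        have := db j
        unfold xx
        fun_prop
    have h3 := DifferentiableAt.comp x
      (h1 (Fin.append (fun i => xx (a i x)) (fun j => xx (b j x)) : Fin (p + q) → ℂ)) h2
    refine h3.congr_of_eventuallyEq (Filter.Eventually.of_forall fun z => ?_)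
    simp only [Function.comp_apply, Fin.append_left, Fin.append_right, List.map_ofFn]
    rfl
  have hden : DifferentiableAt ℂ (fun z => bulk2 Z (List.ofFn fun i => a i z)
      (List.ofFn fun i => b i z)) x := by
    simp only [hL, hM]
    exact bulk2_diffAt hZ (mL da) (mM db) (mL ha) (mM hb)
  have hne : bulk2 Z (List.ofFn fun i => a i x) (List.ofFn fun i => b i x) ≠ 0 := by
    rw [hL, hM]
    refine bulk2_ne hZ ?_ ?_
    · intro z hz
      obtain ⟨f, hf, rfl⟩ := List.mem_map.1 hz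
      exact mL (P := fun f => |(f x).im - c| < 5 * Real.pi / 6) ha f hf
    · intro z hz
      obtain ⟨f, hf, rfl⟩ := List.mem_map.1 hz
      exact mM (P := fun f => |(f x).im - c| < 5 * Real.pi / 6) hb f hf
  simp only [div_eq_mul_inv]
  exact hnum.fun_mul (hden.fun_inv hne)

/-- holomorphic on the open window, literal form -/
theorem FT_diff {G : List ℂ → List ℂ → ℂ} (hG : PG G) {c : ℝ} {Z : List ℂ}
    (hZ : ∀ z ∈ Z, |z.im - c| < 5 * Real.pi / 6) (p q : ℕ) :
    DifferentiableOn ℂ (fun z : (Fin p → ℂ) × (Fin q → ℂ) => FT G Z (List.ofFn z.1) (List.ofFn z.2))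
      {z | (∀ i, |(z.1 i).im - c| < 5 * Real.pi / 6) ∧ ∀ j, |(z.2 j).im - c| < 5 * Real.pi / 6} := by
  intro z hz
  exact (FT_diffAt (E := (Fin p → ℂ) × (Fin q → ℂ)) hG (a := fun i z => z.1 i) (b := fun j z => z.2 j) hZ
    (fun i => by fun_prop) (fun i => by fun_prop) hz.1 hz.2).differentiableWithinAt

end diff

/-! ### the divisor from below -/

theorem le_PP {g : ℂ → ℂ → ℂ} {m : ℂ → ℂ → ℝ} {k : ℝ} (hk : 0 ≤ k) (hk1 : k ≤ 1) (L : List ℂ)
    (h : ∀ v ∈ L, ∀ w ∈ L, k * Real.exp (m v w) ≤ ‖g v w‖) :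
    k ^ (L.length ^ 2) * Real.exp (prs m L) ≤ ‖PP g L‖ := by
  induction L with
  | nil => simp [PP]
  | cons a L ih =>
    have h1 := ih fun b hb e he => h b (List.mem_cons_of_mem _ hb) e (List.mem_cons_of_mem _ he)
    have h2 := le_prod_exp (f := g a) (g := m a) hk L fun b hb =>
      h a List.mem_cons_self b (List.mem_cons_of_mem _ hb)
    rw [PP_cons, prs_cons, norm_mul, Real.exp_add, List.length_cons]
    have h3 : k ^ ((L.length + 1) ^ 2) ≤ k ^ (L.length + L.length ^ 2) :=
      pow_le_pow_of_le_one hk hk1 (by ring_nf; omega)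
    calc k ^ ((L.length + 1) ^ 2) * (Real.exp (L.map (m a)).sum * Real.exp (prs m L)) ≤
          k ^ (L.length + L.length ^ 2) * (Real.exp (L.map (m a)).sum * Real.exp (prs m L)) := by gcongr
      _ = (k ^ L.length * Real.exp (L.map (m a)).sum) * (k ^ (L.length ^ 2) * Real.exp (prs m L)) := by
          rw [pow_add]
          ring
      _ ≤ _ := mul_le_mul h2 h1 (by positivity) (norm_nonneg _)

/-- energy of the rows with the ends -/
def EZ (Z X : List ℂ) : ℝ := (X.map fun x => (Z.map fun z => Mx x z).sum).sum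

theorem le_cross {g : ℂ → ℂ → ℂ} {m : ℂ → ℂ → ℝ} {k : ℝ} (hk : 0 ≤ k) (V W : List ℂ)
    (h : ∀ v ∈ V, ∀ w ∈ W, k * Real.exp (m v w) ≤ ‖g v w‖) :
    k ^ (W.length * V.length) * Real.exp ((V.map fun v => (W.map fun w => m v w).sum).sum) ≤
      ‖(V.map fun v => (W.map fun w => g v w).prod).prod‖ := by
  rw [pow_mul]
  refine le_prod_exp (pow_nonneg hk _) V fun v hv => ?_
  exact le_prod_exp hk W fun w hw => h v hv w hw

/-- **the divisor from below** -/
theorem bulk2_ge {d : ℝ} (hd : d < 5 * Real.pi / 6) : ∃ k : ℝ, 0 < k ∧ k ≤ 1 ∧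
    ∀ (c : ℝ) (Z V W : List ℂ), (∀ z ∈ Z, |z.im - c| ≤ d) → (∀ z ∈ V, |z.im - c| ≤ d) →
      (∀ z ∈ W, |z.im - c| ≤ d) →
      k ^ ((V.length + W.length + Z.length + 1) ^ 2) * Real.exp (En (V.map xx) (W.map xx) +
        EZ (Z.map xx) (V.map xx) + EZ (Z.map xx) (W.map xx)) ≤ ‖bulk2 Z V W‖ := by
  obtain ⟨c0, hc0, hu⟩ := u2_ge (d := 2 * d) (by linarith)
  obtain ⟨c1, hc1⟩ : ∃ c1, c1 = min c0 1 := ⟨_, rfl⟩
  have hc1p : 0 < c1 := by rw [hc1]; exact lt_min hc0 one_pos
  have hc11 : c1 ≤ 1 := by rw [hc1]; exact min_le_right _ _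
  have hc1c : c1 ≤ c0 := by rw [hc1]; exact min_le_left _ _
  obtain ⟨k, hk⟩ : ∃ k, k = min (c1 ^ 2) (2 / 3) := ⟨_, rfl⟩
  have hkp : 0 < k := by rw [hk]; exact lt_min (by positivity) (by norm_num)
  have hk23 : k ≤ 2 / 3 := by rw [hk]; exact min_le_right _ _
  have hk1 : k ≤ 1 := by linarith
  have hk2 : k ≤ c1 ^ 2 := by rw [hk]; exact min_le_left _ _
  have hk3 : k ≤ c1 := hk2.trans (by nlinarith)
  refine ⟨k, hkp, hk1, fun c Z V W hZ hV hW => ?_⟩
  have hsub : ∀ {v w : ℂ}, |v.im - c| ≤ d → |w.im - c| ≤ d → |(v - w).im| ≤ 2 * d := by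
    intro v w hv hw
    rw [Complex.sub_im]
    have e : v.im - w.im = (v.im - c) - (w.im - c) := by ring
    rw [e]
    refine (abs_sub _ _).trans ?_
    linarith
  have f1 : ∀ {v w : ℂ}, |v.im - c| ≤ d → |w.im - c| ≤ d → k * Real.exp (Mx (xx v) (xx w)) ≤ ‖u2 v w‖ := by
    intro v w hv hw
    refine le_trans ?_ (hu v w (hsub hv hw))
    have := Real.exp_pos (Mx (xx v) (xx w))
    gcongr
    exact hk3.trans hc1c
  have f2 : ∀ {v w : ℂ}, |v.im - c| ≤ d → |w.im - c| ≤ d →
      k * Real.exp (2 * Mx (xx v) (xx w)) ≤ ‖u2 v w ^ 2‖ := by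
    intro v w hv hw
    have h1 := hu v w (hsub hv hw)
    have h2 := Real.exp_pos (Mx (xx v) (xx w))
    have h3 : c1 * Real.exp (Mx (xx v) (xx w)) ≤ ‖u2 v w‖ := by
      refine le_trans ?_ h1
      gcongr
    rw [norm_pow]
    calc k * Real.exp (2 * Mx (xx v) (xx w)) ≤ c1 ^ 2 * Real.exp (2 * Mx (xx v) (xx w)) := by gcongr
      _ = (c1 * Real.exp (Mx (xx v) (xx w))) ^ 2 := by
          rw [mul_pow, ← Real.exp_nat_mul]
          norm_num
      _ ≤ _ := by gcongr
  have g1 := le_PP (g := fun v w => u2 v w ^ 2) (m := fun v w => 2 * Mx (xx v) (xx w)) hkp.le hk1 V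
    fun v hv w hw => f2 (hV v hv) (hV w hw)
  have g2 := le_PP (g := fun v w => u2 v w ^ 2) (m := fun v w => 2 * Mx (xx v) (xx w)) hkp.le hk1 W
    fun v hv w hw => f2 (hW v hv) (hW w hw)
  have g3 := le_cross (g := fun v w => u2 v w ^ 2) (m := fun v w => 2 * Mx (xx v) (xx w)) hkp.le V W
    fun v hv w hw => f2 (hV v hv) (hW w hw)
  have g4 := le_cross (g := fun v w => u2 v w) (m := fun v w => Mx (xx v) (xx w)) hkp.le V Z
    fun v hv w hw => f1 (hV v hv) (hZ w hw)
  have g5 := le_cross (g := fun v w => u2 v w) (m := fun v w => Mx (xx v) (xx w)) hkp.le W Z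
    fun v hv w hw => f1 (hW v hv) (hZ w hw)
  have g0 : k ^ (V.length + W.length) ≤ ‖((2 : ℂ) / 3) ^ (V.length + W.length)‖ := by
    rw [norm_pow]
    have : ‖(2 : ℂ) / 3‖ = 2 / 3 := by simp
    rw [this]
    gcongr
  have eE : Real.exp (En (V.map xx) (W.map xx) + EZ (Z.map xx) (V.map xx) + EZ (Z.map xx) (W.map xx)) =
      Real.exp (prs (fun v w => 2 * Mx (xx v) (xx w)) V) * Real.exp (prs (fun v w => 2 * Mx (xx v) (xx w)) W) *
      Real.exp ((V.map fun v => (W.map fun w => 2 * Mx (xx v) (xx w)).sum).sum) *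
      Real.exp ((V.map fun v => (Z.map fun w => Mx (xx v) (xx w)).sum).sum) *
      Real.exp ((W.map fun v => (Z.map fun w => Mx (xx v) (xx w)).sum).sum) := by
    rw [← Real.exp_add, ← Real.exp_add, ← Real.exp_add, ← Real.exp_add]
    congr 1
    unfold En EZ
    rw [prs_map, prs_map]
    simp only [List.map_map, Function.comp_def]
  unfold bulk2
  simp only [norm_mul]
  rw [eE]
  have hexp : k ^ ((V.length + W.length + Z.length + 1) ^ 2) ≤
      k ^ (V.length + W.length) * (k ^ (V.length ^ 2) * k ^ (W.length ^ 2) * k ^ (W.length * V.length) *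
        k ^ (Z.length * V.length) * k ^ (Z.length * W.length)) := by
    rw [← pow_add, ← pow_add, ← pow_add, ← pow_add, ← pow_add]
    refine pow_le_pow_of_le_one hkp.le hk1 ?_
    nlinarith [Nat.zero_le (V.length * W.length), Nat.zero_le (Z.length * V.length),
      Nat.zero_le (Z.length * W.length), Nat.zero_le V.length, Nat.zero_le W.length, Nat.zero_le Z.length,
      Nat.zero_le (Z.length ^ 2), Nat.zero_le (V.length ^ 2)]
  obtain ⟨e1, he1⟩ : ∃ e, e = Real.exp (prs (fun v w => 2 * Mx (xx v) (xx w)) V) := ⟨_, rfl⟩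
  obtain ⟨e2, he2⟩ : ∃ e, e = Real.exp (prs (fun v w => 2 * Mx (xx v) (xx w)) W) := ⟨_, rfl⟩
  obtain ⟨e3, he3⟩ : ∃ e, e = Real.exp ((V.map fun v => (W.map fun w => 2 * Mx (xx v) (xx w)).sum).sum) :=
    ⟨_, rfl⟩
  obtain ⟨e4, he4⟩ : ∃ e, e = Real.exp ((V.map fun v => (Z.map fun w => Mx (xx v) (xx w)).sum).sum) :=
    ⟨_, rfl⟩
  obtain ⟨e5, he5⟩ : ∃ e, e = Real.exp ((W.map fun v => (Z.map fun w => Mx (xx v) (xx w)).sum).sum) :=
    ⟨_, rfl⟩
  rw [← he1] at g1
  rw [← he2] at g2
  rw [← he3] at g3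
  rw [← he4] at g4
  rw [← he5] at g5
  rw [← he1, ← he2, ← he3, ← he4, ← he5]
  have p1 : 0 < e1 := by rw [he1]; exact Real.exp_pos _
  have p2 : 0 < e2 := by rw [he2]; exact Real.exp_pos _
  have p3 : 0 < e3 := by rw [he3]; exact Real.exp_pos _
  have p4 : 0 < e4 := by rw [he4]; exact Real.exp_pos _
  have p5 : 0 < e5 := by rw [he5]; exact Real.exp_pos _
  calc k ^ ((V.length + W.length + Z.length + 1) ^ 2) * (e1 * e2 * e3 * e4 * e5) ≤
      (k ^ (V.length + W.length) * (k ^ (V.length ^ 2) * k ^ (W.length ^ 2) * k ^ (W.length * V.length) *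
        k ^ (Z.length * V.length) * k ^ (Z.length * W.length))) * (e1 * e2 * e3 * e4 * e5) := by gcongr
    _ = k ^ (V.length + W.length) * ((k ^ (V.length ^ 2) * e1) * (k ^ (W.length ^ 2) * e2) *
        (k ^ (W.length * V.length) * e3) * (k ^ (Z.length * V.length) * e4) *
        (k ^ (Z.length * W.length) * e5)) := by ring
    _ ≤ _ := by gcongr

/-! ### removable poles -/

/-- the places near the ends -/
def QZ (Z : List ℂ) : Finset ℂ := (Z.toFinset ×ˢ PS).image fun x => x.1 + x.2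

/-- **a bound on the separated configurations is a bound** -/
theorem FT_rem {G : List ℂ → List ℂ → ℂ} (hG : PG G) {Z : List ℂ} {c d D r ε M : ℝ}
    (hZ : ∀ z ∈ Z, |z.im - c| < 5 * Real.pi / 6) (hD : D < 5 * Real.pi / 6) (hr : 0 < r) (p q : ℕ)
    (hd : d + ((p + q : ℕ) : ℝ) * r ≤ D)
    (hε : ε ≤ r / (4 * ((((p + q) * (PS.card * 2) + (QZ Z).card : ℕ) : ℝ) + 1)))
    (h0 : ∀ V W : List ℂ, V.length = p → W.length = q → (∀ v ∈ V, |v.im - c| ≤ D) →
      (∀ v ∈ W, |v.im - c| ≤ D) → (V ++ W).Pairwise (fun v w => ∀ s ∈ PS, ε ≤ ‖v - w - s‖) →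
      (∀ v ∈ V ++ W, ∀ z ∈ Z, ∀ s ∈ PS, ε ≤ ‖v - z - s‖) → ‖FT G Z V W‖ ≤ M) :
    ∀ V W : List ℂ, V.length = p → W.length = q → (∀ v ∈ V, |v.im - c| ≤ d) →
      (∀ v ∈ W, |v.im - c| ≤ d) → ‖FT G Z V W‖ ≤ M := by
  classical
  obtain ⟨F, hF⟩ : ∃ F : ((Fin p ⊕ Fin q) → ℂ) → ℂ, F = fun v =>
    FT G Z (List.ofFn fun i => v (Sum.inl i)) (List.ofFn fun j => v (Sum.inr j)) := ⟨_, rfl⟩
  have hcard : Fintype.card (Fin p ⊕ Fin q) = p + q := by simp
  have key := rem_q F PS (QZ Z) (c := c) (d := d) (D := D) (r := r) (ε := ε) (M := M) hr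
    (by rw [hcard]; exact hd) (by rw [hcard]; exact hε) ?_ ?_
  · intro V W hV hW hVd hWd
    subst hV hW
    have h1 := key (Sum.elim V.get W.get) (fun i => by
      rcases i with i | j
      · exact hVd _ (List.get_mem _ _)
      · exact hWd _ (List.get_mem _ _))
    rw [hF] at h1
    simp only [Sum.elim_inl, Sum.elim_inr] at h1
    rw [List.ofFn_get, List.ofFn_get] at h1
    exact h1
  · intro v hv i
    rw [hF]
    refine FT_diffAt (E := ℂ) hG (c := c) (a := fun k z => Function.update v i z (Sum.inl k))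
      (b := fun k z => Function.update v i z (Sum.inr k)) hZ ?_ ?_ ?_ ?_
    · intro k
      by_cases h : Sum.inl k = i
      · subst h
        simp
      · simp [Function.update_of_ne h]
    · intro k
      by_cases h : Sum.inr k = i
      · subst h
        simp
      · simp [Function.update_of_ne h]
    · intro k
      rw [Function.update_eq_self]
      exact lt_of_le_of_lt (hv _) hD
    · intro k
      rw [Function.update_eq_self]
      exact lt_of_le_of_lt (hv _) hD
  · intro v hv hs hq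
    rw [hF]
    refine h0 _ _ (List.length_ofFn ..) (List.length_ofFn ..) ?_ ?_ ?_ ?_
    · intro x hx
      obtain ⟨i, rfl⟩ := (List.mem_ofFn' _ _).1 hx
      exact hv _
    · intro x hx
      obtain ⟨i, rfl⟩ := (List.mem_ofFn' _ _).1 hx
      exact hv _
    · rw [List.pairwise_append]
      refine ⟨?_, ?_, ?_⟩
      · rw [List.pairwise_ofFn]
        intro i j hij s hs'
        exact hs _ _ (fun h => hij.ne (Sum.inl_injective h)) s hs'
      · rw [List.pairwise_ofFn]
        intro i j hij s hs'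
        exact hs _ _ (fun h => hij.ne (Sum.inr_injective h)) s hs'
      · intro x hx y hy s hs'
        obtain ⟨i, rfl⟩ := (List.mem_ofFn' _ _).1 hx
        obtain ⟨j, rfl⟩ := (List.mem_ofFn' _ _).1 hy
        exact hs _ _ (by simp) s hs'
    · intro x hx z hz s hs'
      have hzs : z + s ∈ QZ Z := by
        unfold QZ
        rw [Finset.mem_image]
        exact ⟨(z, s), Finset.mem_product.2 ⟨List.mem_toFinset.2 hz, hs'⟩, rfl⟩
      have e : x - z - s = x - (z + s) := by ring
      rw [e]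
      rcases List.mem_append.1 hx with hx | hx
      · obtain ⟨i, rfl⟩ := (List.mem_ofFn' _ _).1 hx
        exact hq _ _ hzs
      · obtain ⟨i, rfl⟩ := (List.mem_ofFn' _ _).1 hx
        exact hq _ _ hzs

end DRX

end
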