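import Pool.Agent.DRX.FunR2

/-!
# All windows of a two sided function with the rules (A1) - (A4)

`exists_funZ`: `G` with the rules in the first list for every second list, spectators `Z ++ (J ++ J)`;
`exists_funS`: without `Z`.
-/

set_option autoImplicit false

noncomputable section

open Complex MeasureTheory Filter Topology

namespace DRX

open DUA SPN NUGas

theorem FunC.smul {Ψ : (ℝ → ℂ) → ℂ} (h : FunC Ψ) (k : ℂ) : FunC fun Λ => k * Ψ Λ := by
  obtain ⟨D, d1, d2⟩ := h.grad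
  refine ⟨fun A L L0 hL hL0 hl => (h.seq A L L0 hL hL0 hl).const_mul k, fun A => ?_,
    ⟨fun Λ x => k * D Λ x, fun A => ?_, fun A U L hU hL hd v hv => ?_⟩⟩
  · obtain ⟨M, hM⟩ := h.bdd A
    exact ⟨‖k‖ * M, fun L hL => by
      rw [norm_mul]
      exact mul_le_mul_of_nonneg_left (hM L hL) (norm_nonneg _)⟩
  · obtain ⟨M, hM⟩ := d1 A
    refine ⟨‖k‖ * M, fun L hL => ⟨(hM L hL).1.const_mul k, fun x => ?_⟩⟩
    rw [norm_mul]
    exact mul_le_mul_of_nonneg_left ((hM L hL).2 x) (norm_nonneg _)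
  · refine ((d2 A U L hU hL hd v hv).const_mul k).congr_deriv ?_
    rw [← integral_const_mul]
    refine integral_congr_ae (Eventually.of_forall fun x => ?_)
    simp only
    ring

/-- **all windows** -/
theorem exists_funZ {η : ℂ} (hη : η ^ 4 = -1) (hr : η - η ^ 3 = ((Real.sqrt 2 : ℝ) : ℂ)) (Z : List ℂ)
    {G : List ℂ → List ℂ → ℂ} (hG : ∀ Y : List ℂ, Rul η (Z.map xx ++ (Y ++ Y)) fun X => G X Y)
    (hrow : ∀ X Y : List ℂ, Differentiable ℂ fun t => G (t :: X) Y) (k : List ℂ → ℂ) :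
    ∃ Ψ : List ℂ → ℝ → (ℝ → ℂ) → ℂ,
      (∀ J c, Wn c Z → Wn c J →
        Fun (fun V => k J * (G (V.map xx) (J.map xx) / nrm V (Z ++ (J ++ J)))) c (Ψ J c)) ∧
      ∀ (J : List ℂ) (c c' A : ℝ) (L : ℂ → ℂ), Wn c Z → Wn c' Z → Wn c J → Wn c' J → c ≤ c' →
        ContinuousOn L {z | c ≤ z.im ∧ z.im ≤ c'} → (∀ z : ℂ, c < z.im → z.im < c' → DifferentiableAt ℂ L z) →
        (∀ z : ℂ, c ≤ z.im → z.im ≤ c' → ‖L z - 1‖ ≤ A * Real.exp (-|z.re|)) →
        Ψ J c (fun x => L (ln c x)) = Ψ J c' (fun x => L (ln c' x)) := by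
  obtain ⟨b, hb, -⟩ := exists_bt hη
  have hz : ∀ J : List ℂ, ∃ (r : ℕ) (z : Fin r → ℂ), List.ofFn z = Z ++ (J ++ J) := fun J =>
    ⟨_, (Z ++ (J ++ J)).get, List.ofFn_get _⟩
  choose r z hz using hz
  have hCR := fun J : List ℂ => exists_CR' hη hb (r J) (fun i => xx (z J i))
  choose v1 R0 cc hC using hCR
  have hW : ∀ (J : List ℂ) (c : ℝ), Wn c Z → Wn c J → ∀ i, z J i ∈ Win c := by
    intro J c h1 h2 i
    have h3 : z J i ∈ Z ++ (J ++ J) := by
      rw [← hz J, List.mem_ofFn]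
      exact ⟨i, rfl⟩
    rcases List.mem_append.1 h3 with h | h
    · exact h1 _ h
    · rcases List.mem_append.1 h with h | h <;> exact h2 _ h
  have hRad : ∀ (J : List ℂ) (c : ℝ), ∃ R1 : ℝ, Wn c Z → Wn c J →
      ∃ R d B, Rad (z J) (v1 J) c R d B ∧ R ≤ R0 J ∧ 0 < R1 ∧ R1 < R := by
    intro J c
    by_cases h : Wn c Z ∧ Wn c J
    · obtain ⟨R, d, B, hR⟩ := exists_Rad (v1 J) (hW J c h.1 h.2)
      have h0 : 0 < min R (R0 J) := lt_min hR.pos (hC J).pos
      exact ⟨min R (R0 J) / 2, fun _ _ => ⟨_, d, B, hR.mono h0 (min_le_left _ _), min_le_right _ _, by positivity,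
        by linarith⟩⟩
    · exact ⟨1, fun h1 h2 => absurd ⟨h1, h2⟩ h⟩
  choose R1 hR1 using hRad
  refine ⟨fun J c Λ => k J * Psi (cc J) (z J) (v1 J) (fun X => G X (J.map xx)) c (R1 J c) Λ, fun J c h1 h2 => ?_,
    fun J c c' A L h1 h1' h2 h2' hcc hc hd hb => ?_⟩
  · obtain ⟨R, d, B, a1, a2, a3, a4⟩ := hR1 J c h1 h2
    have hF : Rul η (List.ofFn fun i => xx (z J i)) fun X => G X (J.map xx) := by
      have e : (List.ofFn fun i => xx (z J i)) = Z.map xx ++ (J.map xx ++ J.map xx) := by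
        rw [← List.map_append, ← List.map_append, ← hz J, List.map_ofFn]
        rfl
      rw [e]
      exact hG _
    have h3 := fun_rul hη hr hb (hC J) a1 a2 hF (fun X => hrow X _) a3 a4
    rw [hz J] at h3
    refine ((h3.funC).smul (k J)).fun fun V hV => ?_
    rw [h3.con V hV]
  · obtain ⟨R, d, B, a1, a2, a3, a4⟩ := hR1 J c h1 h2
    obtain ⟨R', d', B', b1, b2, b3, b4⟩ := hR1 J c' h1' h2'
    simp only
    rw [Psi_shift (hC J) _ a1 b1 a2 b2 a3 a4 b3 b4 hcc hc hd hb]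

/-- **all windows, no further spectators** -/
theorem exists_funS {η : ℂ} (hη : η ^ 4 = -1) (hr : η - η ^ 3 = ((Real.sqrt 2 : ℝ) : ℂ))
    {G : List ℂ → List ℂ → ℂ} (hG : ∀ Y : List ℂ, Rul η (Y ++ Y) fun X => G X Y)
    (hrow : ∀ X Y : List ℂ, Differentiable ℂ fun t => G (t :: X) Y) (k : List ℂ → ℂ) :
    ∃ Ψ, FunS (fun V J => k J * (G (V.map xx) (J.map xx) / nrm V (J ++ J))) Ψ := by
  obtain ⟨Ψ, h1, h2⟩ := exists_funZ hη hr [] (fun Y => by simpa using hG Y) hrow k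
  have h0 : ∀ c, Wn c [] := fun c v hv => by simp at hv
  exact ⟨Ψ, fun J c hJ => by simpa using h1 J c (h0 c) hJ, fun J c c' A L hJ hJ' hcc hc hd hb =>
    h2 J c c' A L (h0 c) (h0 c') hJ hJ' hcc hc hd hb⟩

/-! ### the normalisation of both lists -/

theorem PP_sq (V : List ℂ) : PP (fun v w => u2 v w ^ 2) V = PP u2 V ^ 2 := by
  rw [sq, PP_mul]
  exact PP_congr fun v _ w _ => sq _

theorem XP_double (V J : List ℂ) : XP V (J ++ J) = (V.map fun v => (J.map fun w => u2 v w ^ 2).prod).prod := by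
  unfold XP
  congr 1
  refine List.map_congr_left fun v _ => ?_
  rw [List.map_append, List.prod_append, ← List.prod_map_mul]
  congr 1
  exact List.map_congr_left fun w _ => (sq _).symm

end DRX

end
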