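import Pool.Agent.DRX.GasC

/-!
# The class `FunC` is closed under products, sums, multiplication of the field and integrals over a parameter

`FunP S Ψ`: a family `Ψ w`, `w ∈ S`, of functionals, jointly (sequentially) continuous, with a jointly continuous gradient.
-/

set_option autoImplicit false

noncomputable section

open Complex MeasureTheory Filter Topology Finset

namespace DRX

open DUA

/-- a family of functionals -/
structure FunP (S : Set ℝ) (Ψ : ℝ → (ℝ → ℂ) → ℂ) : Prop where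
  seq : ∀ (A : ℝ) (L : ℕ → ℝ → ℂ) (L0 : ℝ → ℂ) (w : ℕ → ℝ) (w0 : ℝ), (∀ n, L n ∈ Kc A) → L0 ∈ Kc A →
    (∀ x, Tendsto (fun n => L n x) atTop (𝓝 (L0 x))) → (∀ n, w n ∈ S) → w0 ∈ S → Tendsto w atTop (𝓝 w0) →
    Tendsto (fun n => Ψ (w n) (L n)) atTop (𝓝 (Ψ w0 L0))
  bdd : ∀ A : ℝ, ∃ M : ℝ, ∀ w ∈ S, ∀ L ∈ Kc A, ‖Ψ w L‖ ≤ M
  grad : ∃ D : ℝ → (ℝ → ℂ) → ℝ → ℂ, (∀ A : ℝ, ∃ M : ℝ, ∀ w ∈ S, ∀ L ∈ Kc A, ∀ x, ‖D w L x‖ ≤ M) ∧
    (∀ (A : ℝ) (L : ℕ → ℝ → ℂ) (L0 : ℝ → ℂ) (w : ℕ → ℝ) (w0 : ℝ) (x : ℕ → ℝ) (x0 : ℝ), (∀ n, L n ∈ Kc A) →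
      L0 ∈ Kc A → (∀ y, Tendsto (fun n => L n y) atTop (𝓝 (L0 y))) → (∀ n, w n ∈ S) → w0 ∈ S →
      Tendsto w atTop (𝓝 w0) → Tendsto x atTop (𝓝 x0) →
      Tendsto (fun n => D (w n) (L n) (x n)) atTop (𝓝 (D w0 L0 x0))) ∧
    ∀ w ∈ S, ∀ (A : ℝ) (U : Set ℂ) (L : ℂ → ℝ → ℂ), IsOpen U → (∀ v ∈ U, L v ∈ Kc A) →
      (∀ x, DifferentiableOn ℂ (fun v => L v x) U) → ∀ v ∈ U,
        HasDerivAt (fun v => Ψ w (L v)) (∫ x, deriv (fun u => L u x) v * D w (L v) x) v

theorem contOn_of_seq {X Y : Type*} [TopologicalSpace X] [FirstCountableTopology X] [TopologicalSpace Y]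
    {f : X → Y} {s : Set X} (h : ∀ (u : ℕ → X) (x : X), (∀ n, u n ∈ s) → x ∈ s → Tendsto u atTop (𝓝 x) →
      Tendsto (fun n => f (u n)) atTop (𝓝 (f x))) : ContinuousOn f s := by
  rw [continuousOn_iff_continuous_restrict, continuous_iff_seqContinuous]
  intro u x hu
  exact h (fun n => (u n : X)) x (fun n => (u n).2) x.2 ((continuous_subtype_val.tendsto x).comp hu)

/-! ### continuity of the gradient of the gas -/

theorem dterm_seq {A : ℝ} {L : ℕ → ℝ → ℂ} {L0 : ℝ → ℂ} {x : ℕ → ℝ} {x0 : ℝ} (hL : ∀ n, L n ∈ Kc A)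
    (h : ∀ y, Tendsto (fun n => L n y) atTop (𝓝 (L0 y))) (hx : Tendsto x atTop (𝓝 x0)) (m : ℕ) :
    Tendsto (fun n => dterm (L n) m (x n)) atTop (𝓝 (dterm L0 m x0)) := by
  unfold dterm
  refine Tendsto.const_mul _ (Tendsto.const_mul _ ?_)
  refine tendsto_integral_of_dominated_convergence (fun θ => GM A m θ * (7 / 2) ^ (m + 1)) (fun n => ?_)
    ((GM_int A m).mul_const _) (fun n => Eventually.of_forall fun θ => dint_le (hL n) m (x n) θ)
    (Eventually.of_forall fun θ => ?_)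
  · exact ((prod_cont (hL n) m).mul ((rho_co (m + 1)).comp ((cons_cont m).comp
      (continuous_const.prodMk continuous_id)))).aestronglyMeasurable
  · refine Tendsto.mul (tendsto_finsetProd _ fun i _ => ?_) ?_
    · unfold gg
      exact ((h (θ i)).sub_const _).const_mul _
    · have h1 : Continuous fun y : ℝ => rho (m + 1) (Fin.cons y θ) :=
        (rho_co (m + 1)).comp ((cons_cont m).comp (continuous_id.prodMk continuous_const))
      exact (h1.tendsto x0).comp hx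

theorem Dg_seq {A : ℝ} {L : ℕ → ℝ → ℂ} {L0 : ℝ → ℂ} {x : ℕ → ℝ} {x0 : ℝ} (hL : ∀ n, L n ∈ Kc A)
    (h : ∀ y, Tendsto (fun n => L n y) atTop (𝓝 (L0 y))) (hx : Tendsto x atTop (𝓝 x0)) :
    Tendsto (fun n => Dg (L n) (x n)) atTop (𝓝 (Dg L0 x0)) := by
  unfold Dg
  exact tendsto_tsum_of_dominated_convergence ((gb_sum A).mul_left (z0 * (7 / 2)))
    (fun m => dterm_seq hL h hx m) (Eventually.of_forall fun n m => dterm_le (hL n) m _)

theorem FunP.gas (S : Set ℝ) : FunP S fun _ => DUA.gas where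
  seq := fun A L L0 _ _ hL _ h _ _ _ => gas_seq A L L0 hL h
  bdd := fun A => by
    obtain ⟨M, hM⟩ := gas_bdd A
    exact ⟨M, fun _ _ L hL => hM L hL⟩
  grad := ⟨fun _ => Dg, fun A => ⟨_, fun _ _ L hL x => Dg_le hL x⟩,
    fun A L L0 _ _ x x0 hL _ h _ _ _ hx => Dg_seq hL h hx,
    fun _ _ A U L hU hL hd v hv => gas_grad hU hL hd hv⟩

/-! ### algebra -/

variable {S : Set ℝ}

theorem FunP.const {c : ℝ → ℂ} (hS : IsCompact S) (hc : ContinuousOn c S) : FunP S fun w _ => c w := by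
  obtain ⟨M, hM⟩ := hS.exists_bound_of_continuousOn hc
  refine ⟨fun A L L0 w w0 _ _ _ hw hw0 h => ?_, fun A => ⟨M, fun w hw _ _ => hM w hw⟩,
    ⟨fun _ _ _ => 0, fun A => ⟨0, fun _ _ _ _ _ => by simp⟩, ?_, ?_⟩⟩
  · exact (hc w0 hw0).tendsto.comp (tendsto_nhdsWithin_iff.2 ⟨h, Eventually.of_forall hw⟩)
  · intro A L L0 w w0 x x0 _ _ _ _ _ _ _
    exact tendsto_const_nhds
  · intro w _ A U L _ _ _ v _
    simpa using hasDerivAt_const v (c w)

theorem int_grad {A M : ℝ} {U : Set ℂ} {L : ℂ → ℝ → ℂ} (hU : IsOpen U) (hL : ∀ v ∈ U, L v ∈ Kc A)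
    (hd : ∀ x, DifferentiableOn ℂ (fun v => L v x) U) {v : ℂ} (hv : v ∈ U) {D : ℝ → ℂ} (hD : Measurable D)
    (hM : ∀ x, ‖D x‖ ≤ M) : Integrable fun x => deriv (fun u => L u x) v * D x := by
  obtain ⟨r, hr, hrU⟩ := Metric.isOpen_iff.1 hU v hv
  have hr2 : 0 < r / 2 := by linarith
  have hcb : Metric.closedBall v (r / 2) ⊆ U := fun x hx =>
    hrU (Metric.mem_ball.2 ((Metric.mem_closedBall.1 hx).trans_lt (by linarith)))
  refine ((int_e.const_mul (A / (r / 2))).mul_const M).mono'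
    ((deriv_meas hU (fun z hz => (hL z hz).1) hd hv).mul hD).aestronglyMeasurable (Eventually.of_forall fun x => ?_)
  rw [norm_mul]
  refine mul_le_mul ?_ (hM x) (norm_nonneg _) ?_
  · have := fam_deriv hL hd hr2 hcb x
    calc _ ≤ A * Real.exp (-|x|) / (r / 2) := this
      _ = _ := by ring
  · exact mul_nonneg (div_nonneg (Kc_nonneg (hL v hv)) hr2.le) (Real.exp_pos _).le

/-- the gradient is measurable in `x` -/
theorem meas_of_seq {D : ℝ → (ℝ → ℂ) → ℝ → ℂ}
    (h : ∀ (A : ℝ) (L : ℕ → ℝ → ℂ) (L0 : ℝ → ℂ) (w : ℕ → ℝ) (w0 : ℝ) (x : ℕ → ℝ) (x0 : ℝ), (∀ n, L n ∈ Kc A) →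
      L0 ∈ Kc A → (∀ y, Tendsto (fun n => L n y) atTop (𝓝 (L0 y))) → (∀ n, w n ∈ S) → w0 ∈ S →
      Tendsto w atTop (𝓝 w0) → Tendsto x atTop (𝓝 x0) →
      Tendsto (fun n => D (w n) (L n) (x n)) atTop (𝓝 (D w0 L0 x0))) {A : ℝ} {L : ℝ → ℂ} (hL : L ∈ Kc A)
    {w : ℝ} (hw : w ∈ S) : Measurable (D w L) := by
  have : Continuous (D w L) := by
    rw [continuous_iff_seqContinuous]
    intro x x0 hx
    exact h A (fun _ => L) L (fun _ => w) w x x0 (fun _ => hL) hL (fun _ => tendsto_const_nhds) (fun _ => hw) hw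
      tendsto_const_nhds hx
  exact this.measurable

theorem FunP.add {Ψ Φ : ℝ → (ℝ → ℂ) → ℂ} (h : FunP S Ψ) (k : FunP S Φ) : FunP S fun w L => Ψ w L + Φ w L := by
  obtain ⟨D, d1, d2, d3⟩ := h.grad
  obtain ⟨E, e1, e2, e3⟩ := k.grad
  refine ⟨fun A L L0 w w0 a b c d e f => (h.seq A L L0 w w0 a b c d e f).add (k.seq A L L0 w w0 a b c d e f),
    fun A => ?_, ⟨fun w L x => D w L x + E w L x, fun A => ?_, ?_, ?_⟩⟩
  · obtain ⟨M, hM⟩ := h.bdd A
    obtain ⟨N, hN⟩ := k.bdd A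
    exact ⟨M + N, fun w hw L hL => (norm_add_le _ _).trans (add_le_add (hM w hw L hL) (hN w hw L hL))⟩
  · obtain ⟨M, hM⟩ := d1 A
    obtain ⟨N, hN⟩ := e1 A
    exact ⟨M + N, fun w hw L hL x => (norm_add_le _ _).trans (add_le_add (hM w hw L hL x) (hN w hw L hL x))⟩
  · intro A L L0 w w0 x x0 a b c d e f g
    exact (d2 A L L0 w w0 x x0 a b c d e f g).add (e2 A L L0 w w0 x x0 a b c d e f g)
  · intro w hw A U L hU hL hd v hv
    obtain ⟨M, hM⟩ := d1 A
    obtain ⟨N, hN⟩ := e1 A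
    have i1 := int_grad hU hL hd hv (meas_of_seq d2 (hL v hv) hw) (hM w hw _ (hL v hv))
    have i2 := int_grad hU hL hd hv (meas_of_seq e2 (hL v hv) hw) (hN w hw _ (hL v hv))
    have := (d3 w hw A U L hU hL hd v hv).add (e3 w hw A U L hU hL hd v hv)
    rw [← integral_add i1 i2] at this
    refine this.congr_deriv ?_
    refine integral_congr_ae (Eventually.of_forall fun x => ?_)
    simp only
    ring

theorem FunP.mul {Ψ Φ : ℝ → (ℝ → ℂ) → ℂ} (h : FunP S Ψ) (k : FunP S Φ) : FunP S fun w L => Ψ w L * Φ w L := by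
  obtain ⟨D, d1, d2, d3⟩ := h.grad
  obtain ⟨E, e1, e2, e3⟩ := k.grad
  refine ⟨fun A L L0 w w0 a b c d e f => (h.seq A L L0 w w0 a b c d e f).mul (k.seq A L L0 w w0 a b c d e f),
    fun A => ?_, ⟨fun w L x => D w L x * Φ w L + Ψ w L * E w L x, fun A => ?_, ?_, ?_⟩⟩
  · obtain ⟨M, hM⟩ := h.bdd A
    obtain ⟨N, hN⟩ := k.bdd A
    exact ⟨|M| * |N|, fun w hw L hL => by
      rw [norm_mul]
      exact mul_le_mul ((hM w hw L hL).trans (le_abs_self _)) ((hN w hw L hL).trans (le_abs_self _))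
        (norm_nonneg _) (abs_nonneg _)⟩
  · obtain ⟨M, hM⟩ := d1 A
    obtain ⟨N, hN⟩ := e1 A
    obtain ⟨M', hM'⟩ := h.bdd A
    obtain ⟨N', hN'⟩ := k.bdd A
    refine ⟨|M| * |N'| + |M'| * |N|, fun w hw L hL x => (norm_add_le _ _).trans (add_le_add ?_ ?_)⟩
    · rw [norm_mul]
      exact mul_le_mul ((hM w hw L hL x).trans (le_abs_self _)) ((hN' w hw L hL).trans (le_abs_self _))
        (norm_nonneg _) (abs_nonneg _)
    · rw [norm_mul]
      exact mul_le_mul ((hM' w hw L hL).trans (le_abs_self _)) ((hN w hw L hL x).trans (le_abs_self _))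
        (norm_nonneg _) (abs_nonneg _)
  · intro A L L0 w w0 x x0 a b c d e f g
    exact ((d2 A L L0 w w0 x x0 a b c d e f g).mul (k.seq A L L0 w w0 a b c d e f)).add
      ((h.seq A L L0 w w0 a b c d e f).mul (e2 A L L0 w w0 x x0 a b c d e f g))
  · intro w hw A U L hU hL hd v hv
    obtain ⟨M, hM⟩ := d1 A
    obtain ⟨N, hN⟩ := e1 A
    have i1 := int_grad hU hL hd hv (meas_of_seq d2 (hL v hv) hw) (hM w hw _ (hL v hv))
    have i2 := int_grad hU hL hd hv (meas_of_seq e2 (hL v hv) hw) (hN w hw _ (hL v hv))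
    have := (d3 w hw A U L hU hL hd v hv).mul (e3 w hw A U L hU hL hd v hv)
    rw [← integral_mul_const, ← integral_const_mul, ← integral_add (i1.mul_const _) (i2.const_mul _)] at this
    refine this.congr_deriv ?_
    refine integral_congr_ae (Eventually.of_forall fun x => ?_)
    simp only
    ring

theorem FunP.sum {ι : Type*} (s : Finset ι) {Ψ : ι → ℝ → (ℝ → ℂ) → ℂ} (hS : IsCompact S)
    (h : ∀ i ∈ s, FunP S (Ψ i)) : FunP S fun w L => ∑ i ∈ s, Ψ i w L := by
  classical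
  induction s using Finset.induction_on with
  | empty => simpa using FunP.const (c := fun _ => 0) hS continuousOn_const
  | insert a s ha ih =>
    simp only [Finset.sum_insert ha]
    exact (h a (Finset.mem_insert_self a s)).add (ih fun i hi => h i (Finset.mem_insert_of_mem hi))

theorem Kc_mul2 {A B : ℝ} {K L : ℝ → ℂ} (hK : K ∈ Kc B) (hL : L ∈ Kc A) :
    (fun x => K x * L x) ∈ Kc (B * (1 + A) + A) := by
  refine ⟨hK.1.mul hL.1, fun x => ?_⟩
  have hA := Kc_nonneg hL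
  have hB := Kc_nonneg hK
  have e : Real.exp (-|x|) ≤ 1 := Real.exp_le_one_iff.2 (by simp)
  have h1 : ‖L x‖ ≤ 1 + A := by
    calc ‖L x‖ = ‖1 + (L x - 1)‖ := by congr 1; ring
      _ ≤ ‖(1 : ℂ)‖ + ‖L x - 1‖ := norm_add_le _ _
      _ ≤ 1 + A := by
        rw [norm_one]
        exact add_le_add le_rfl ((hL.2 x).trans ((mul_le_mul_of_nonneg_left e hA).trans (by rw [mul_one])))
  calc ‖K x * L x - 1‖ = ‖(K x - 1) * L x + (L x - 1)‖ := by congr 1; ring
    _ ≤ ‖K x - 1‖ * ‖L x‖ + ‖L x - 1‖ := (norm_add_le _ _).trans (by rw [norm_mul])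
    _ ≤ (B * Real.exp (-|x|)) * (1 + A) + A * Real.exp (-|x|) :=
        add_le_add (mul_le_mul (hK.2 x) h1 (norm_nonneg _) (mul_nonneg hB (Real.exp_pos _).le)) (hL.2 x)
    _ = _ := by ring

theorem FunP.comp_mul {Ψ : ℝ → (ℝ → ℂ) → ℂ} {K : ℝ → ℝ → ℂ} {B : ℝ} (h : FunP S Ψ)
    (hK : ∀ w ∈ S, K w ∈ Kc B) (hKc : ContinuousOn (fun q : ℝ × ℝ => K q.1 q.2) (S ×ˢ Set.univ)) :
    FunP S fun w L => Ψ w fun x => K w x * L x := by
  obtain ⟨D, d1, d2, d3⟩ := h.grad
  have hKs : ∀ (w : ℕ → ℝ) (w0 : ℝ) (x : ℕ → ℝ) (x0 : ℝ), (∀ n, w n ∈ S) → w0 ∈ S → Tendsto w atTop (𝓝 w0) →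
      Tendsto x atTop (𝓝 x0) → Tendsto (fun n => K (w n) (x n)) atTop (𝓝 (K w0 x0)) := by
    intro w w0 x x0 hw hw0 h1 h2
    have h3 := (hKc (w0, x0) ⟨hw0, Set.mem_univ _⟩).tendsto
    have h4 : Tendsto (fun n => (w n, x n)) atTop (𝓝[S ×ˢ Set.univ] (w0, x0)) :=
      tendsto_nhdsWithin_iff.2 ⟨by rw [nhds_prod_eq]; exact h1.prodMk h2,
        Eventually.of_forall fun n => ⟨hw n, Set.mem_univ _⟩⟩
    exact h3.comp h4
  refine ⟨fun A L L0 w w0 hL hL0 hl hw hw0 ht => ?_, fun A => ?_,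
    ⟨fun w L x => K w x * D w (fun y => K w y * L y) x, fun A => ?_, ?_, ?_⟩⟩
  · exact h.seq (B * (1 + A) + A) _ _ w w0 (fun n => Kc_mul2 (hK _ (hw n)) (hL n)) (Kc_mul2 (hK _ hw0) hL0)
      (fun x => (hKs w w0 (fun _ => x) x hw hw0 ht tendsto_const_nhds).mul (hl x)) hw hw0 ht
  · obtain ⟨M, hM⟩ := h.bdd (B * (1 + A) + A)
    exact ⟨M, fun w hw L hL => hM w hw _ (Kc_mul2 (hK w hw) hL)⟩
  · obtain ⟨M, hM⟩ := d1 (B * (1 + A) + A)
    refine ⟨(1 + |B|) * |M|, fun w hw L hL x => ?_⟩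
    rw [norm_mul]
    refine mul_le_mul ?_ ((hM w hw _ (Kc_mul2 (hK w hw) hL) x).trans (le_abs_self _)) (norm_nonneg _) (by positivity)
    have e : Real.exp (-|x|) ≤ 1 := Real.exp_le_one_iff.2 (by simp)
    calc ‖K w x‖ = ‖1 + (K w x - 1)‖ := by congr 1; ring
      _ ≤ ‖(1 : ℂ)‖ + ‖K w x - 1‖ := norm_add_le _ _
      _ ≤ 1 + |B| := by
        rw [norm_one]
        refine add_le_add le_rfl (((hK w hw).2 x).trans ?_)
        exact (mul_le_mul_of_nonneg_left e (Kc_nonneg (hK w hw))).trans (by rw [mul_one]; exact le_abs_self _)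
  · intro A L L0 w w0 x x0 hL hL0 hl hw hw0 ht hx
    refine (hKs w w0 x x0 hw hw0 ht hx).mul ?_
    exact d2 (B * (1 + A) + A) _ _ w w0 x x0 (fun n => Kc_mul2 (hK _ (hw n)) (hL n)) (Kc_mul2 (hK _ hw0) hL0)
      (fun y => (hKs w w0 (fun _ => y) y hw hw0 ht tendsto_const_nhds).mul (hl y)) hw hw0 ht hx
  · intro w hw A U L hU hL hd v hv
    have := d3 w hw (B * (1 + A) + A) U (fun v x => K w x * L v x) hU (fun v hv => Kc_mul2 (hK w hw) (hL v hv))
      (fun x => (hd x).const_mul _) v hv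
    refine this.congr_deriv ?_
    refine integral_congr_ae (Eventually.of_forall fun x => ?_)
    simp only
    have hdx : DifferentiableAt ℂ (fun u => L u x) v := (hd x v hv).differentiableAt (hU.mem_nhds hv)
    rw [deriv_const_mul _ hdx]
    ring

/-! ### from families to functionals -/

theorem FunP.at {Ψ : ℝ → (ℝ → ℂ) → ℂ} (h : FunP S Ψ) {w : ℝ} (hw : w ∈ S) : FunC (Ψ w) := by
  obtain ⟨D, d1, d2, d3⟩ := h.grad
  refine ⟨fun A L L0 hL hL0 hl => h.seq A L L0 (fun _ => w) w hL hL0 hl (fun _ => hw) hw tendsto_const_nhds,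
    fun A => ?_, ⟨D w, fun A => ?_, fun A U L hU hL hd v hv => d3 w hw A U L hU hL hd v hv⟩⟩
  · obtain ⟨M, hM⟩ := h.bdd A
    exact ⟨M, fun L hL => hM w hw L hL⟩
  · obtain ⟨M, hM⟩ := d1 A
    exact ⟨M, fun L hL => ⟨meas_of_seq d2 hL hw, hM w hw L hL⟩⟩

/-- **integral over the parameter** -/
theorem FunP.integral {a b : ℝ} {Ψ : ℝ → (ℝ → ℂ) → ℂ} (h : FunP (Set.Icc a b) Ψ) :
    FunC fun L => ∫ w in Set.Ioc a b, Ψ w L := by
  obtain ⟨D, d1, d2, d3⟩ := h.grad
  have hsub : Set.Ioc a b ⊆ Set.Icc a b := Set.Ioc_subset_Icc_self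
  have hae : ∀ (P : ℝ → Prop), (∀ w ∈ Set.Icc a b, P w) → ∀ᵐ w ∂(volume.restrict (Set.Ioc a b)), P w := by
    intro P hP
    exact (ae_restrict_iff' measurableSet_Ioc).2 (Eventually.of_forall fun w hw => hP w (hsub hw))
  have hcw : ∀ (A : ℝ) (L : ℝ → ℂ), L ∈ Kc A → ContinuousOn (fun w => Ψ w L) (Set.Icc a b) := by
    intro A L hL
    refine contOn_of_seq fun u x hu hx ht => ?_
    exact h.seq A (fun _ => L) L u x (fun _ => hL) hL (fun _ => tendsto_const_nhds) hu hx ht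
  have hms : ∀ (A : ℝ) (L : ℝ → ℂ), L ∈ Kc A → AEStronglyMeasurable (fun w => Ψ w L) (volume.restrict (Set.Ioc a b)) :=
    fun A L hL => ((hcw A L hL).mono hsub).aestronglyMeasurable measurableSet_Ioc
  have hDw : ∀ (A : ℝ) (L : ℝ → ℂ) (x : ℝ), L ∈ Kc A → AEStronglyMeasurable (fun w => D w L x) (volume.restrict (Set.Ioc a b)) := by
    intro A L x hL
    refine ContinuousOn.aestronglyMeasurable (ContinuousOn.mono (contOn_of_seq fun u y hu hy ht => ?_) hsub)
      measurableSet_Ioc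
    exact d2 A (fun _ => L) L u y (fun _ => x) x (fun _ => hL) hL (fun _ => tendsto_const_nhds) hu hy ht
      tendsto_const_nhds
  refine ⟨fun A L L0 hL hL0 hl => ?_, fun A => ?_, ⟨fun L x => ∫ w in Set.Ioc a b, D w L x, fun A => ?_, ?_⟩⟩
  · obtain ⟨M, hM⟩ := h.bdd A
    refine tendsto_integral_of_dominated_convergence (fun _ => M) (fun n => hms A _ (hL n)) (integrable_const _)
      (fun n => hae _ fun w hw => hM w hw _ (hL n)) (hae _ fun w hw => ?_)
    exact h.seq A L L0 (fun _ => w) w hL hL0 hl (fun _ => hw) hw tendsto_const_nhds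
  · obtain ⟨M, hM⟩ := h.bdd A
    refine ⟨∫ _w in Set.Ioc a b, M, fun L hL => ?_⟩
    exact norm_integral_le_of_norm_le (integrable_const _) (hae _ fun w hw => hM w hw L hL)
  · obtain ⟨M, hM⟩ := d1 A
    refine ⟨∫ _w in Set.Ioc a b, M, fun L hL => ⟨?_, fun x => ?_⟩⟩
    · have : Continuous fun x => ∫ w in Set.Ioc a b, D w L x := by
        refine continuous_of_dominated (bound := fun _ => M) (fun x => hDw A L x hL)
          (fun x => hae _ fun w hw => hM w hw L hL x) (integrable_const _) (hae _ fun w hw => ?_)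
        rw [continuous_iff_seqContinuous]
        intro x x0 hx
        exact d2 A (fun _ => L) L (fun _ => w) w x x0 (fun _ => hL) hL (fun _ => tendsto_const_nhds) (fun _ => hw) hw
          tendsto_const_nhds hx
      exact this.measurable
    · exact norm_integral_le_of_norm_le (integrable_const _) (hae _ fun w hw => hM w hw L hL x)
  · intro A U L hU hL hd v hv
    obtain ⟨M, hM⟩ := h.bdd A
    obtain ⟨N, hN⟩ := d1 A
    set f : ℂ → ℝ → ℂ := fun u w => Ψ (if w ∈ Set.Icc a b then w else a) (L u) with hf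
    by_cases hab : a ≤ b
    swap
    · have : Set.Ioc a b = ∅ := Set.Ioc_eq_empty (by linarith [not_le.1 hab] : ¬ a < b)
      simp only [this, Measure.restrict_empty, integral_zero_measure, mul_zero, integral_zero]
      exact hasDerivAt_const v (0 : ℂ)
    have hif : ∀ w, (if w ∈ Set.Icc a b then w else a) ∈ Set.Icc a b := by
      intro w
      split_ifs with h1
      · exact h1
      · exact ⟨le_rfl, hab⟩
    have hfe : ∀ u, ∫ w in Set.Ioc a b, Ψ w (L u) = ∫ w in Set.Ioc a b, f u w := by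
      intro u
      refine integral_congr_ae ((ae_restrict_iff' measurableSet_Ioc).2 (Eventually.of_forall fun w hw => ?_))
      rw [hf]
      simp only
      rw [if_pos (hsub hw)]
    have key := holo_int (μ := volume.restrict (Set.Ioc a b)) hU (f := f) (g := fun _ => M) (integrable_const _)
      (fun u hu => ?_) (fun u hu w => hM _ (hif w) _ (hL u hu))
      (fun w u hu => ((d3 _ (hif w) A U L hU hL hd u hu).differentiableAt).differentiableWithinAt) hv
    swap
    · refine (hms A _ (hL u hu)).congr ((ae_restrict_iff' measurableSet_Ioc).2 (Eventually.of_forall fun w hw => ?_))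
      rw [hf]
      simp only
      rw [if_pos (hsub hw)]
    have e1 : (fun u => ∫ w in Set.Ioc a b, f u w) = fun u => ∫ w in Set.Ioc a b, Ψ w (L u) :=
      funext fun u => (hfe u).symm
    rw [e1] at key
    refine key.congr_deriv ?_
    have e2 : ∫ w in Set.Ioc a b, deriv (fun u => f u w) v =
        ∫ w in Set.Ioc a b, ∫ x, deriv (fun u => L u x) v * D w (L v) x := by
      refine integral_congr_ae ((ae_restrict_iff' measurableSet_Ioc).2 (Eventually.of_forall fun w hw => ?_))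
      have := (d3 _ (hif w) A U L hU hL hd v hv).deriv
      rw [if_pos (hsub hw)] at this
      rw [hf]
      simp only
      rw [if_pos (hsub hw)]
      exact this
    rw [e2]
    have hmd := deriv_meas hU (fun z hz => (hL z hz).1) hd hv
    have hjc : ContinuousOn (fun q : ℝ × ℝ => D q.1 (L v) q.2) (Set.Icc a b ×ˢ Set.univ) := by
      refine contOn_of_seq fun u q hu hq ht => ?_
      exact d2 A (fun _ => L v) (L v) (fun n => (u n).1) q.1 (fun n => (u n).2) q.2 (fun _ => hL v hv) (hL v hv)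
        (fun _ => tendsto_const_nhds) (fun n => (hu n).1) hq.1 ((continuous_fst.tendsto q).comp ht)
        ((continuous_snd.tendsto q).comp ht)
    have hjm : AEStronglyMeasurable (fun q : ℝ × ℝ => D q.1 (L v) q.2)
        ((volume.restrict (Set.Ioc a b)).prod volume) := by
      have h1 : (volume.restrict (Set.Ioc a b)).prod (volume : Measure ℝ) =
          ((volume : Measure ℝ).prod volume).restrict (Set.Ioc a b ×ˢ Set.univ) := by
        rw [← Measure.prod_restrict, Measure.restrict_univ]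
      rw [h1]
      exact (hjc.mono (Set.prod_mono hsub subset_rfl)).aestronglyMeasurable (measurableSet_Ioc.prod MeasurableSet.univ)
    obtain ⟨r, hr, hrU⟩ := Metric.isOpen_iff.1 hU v hv
    have hr2 : 0 < r / 2 := by linarith
    have hcb : Metric.closedBall v (r / 2) ⊆ U := fun x hx =>
      hrU (Metric.mem_ball.2 ((Metric.mem_closedBall.1 hx).trans_lt (by linarith)))
    have hint : Integrable (fun q : ℝ × ℝ => deriv (fun u => L u q.2) v * D q.1 (L v) q.2)
        ((volume.restrict (Set.Ioc a b)).prod volume) := by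
      have hmaj : Integrable (fun q : ℝ × ℝ => N * (A / (r / 2) * Real.exp (-|q.2|)))
          ((volume.restrict (Set.Ioc a b)).prod volume) :=
        (integrable_const N).mul_prod (int_e.const_mul (A / (r / 2)))
      refine hmaj.mono' ((hmd.comp measurable_snd).aestronglyMeasurable.mul hjm) ?_
      have h2 : ∀ᵐ q : ℝ × ℝ ∂((volume.restrict (Set.Ioc a b)).prod volume), q.1 ∈ Set.Icc a b := by
        have h1 : (volume.restrict (Set.Ioc a b)).prod (volume : Measure ℝ) =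
            ((volume : Measure ℝ).prod volume).restrict (Set.Ioc a b ×ˢ Set.univ) := by
          rw [← Measure.prod_restrict, Measure.restrict_univ]
        rw [h1]
        exact (ae_restrict_iff' (measurableSet_Ioc.prod MeasurableSet.univ)).2
          (Eventually.of_forall fun q hq => hsub hq.1)
      filter_upwards [h2] with q hq
      rw [norm_mul, mul_comm]
      refine mul_le_mul (hN q.1 hq _ (hL v hv) q.2) ?_ (norm_nonneg _) ((norm_nonneg _).trans (hN q.1 hq _ (hL v hv) q.2))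
      have := fam_deriv hL hd hr2 hcb q.2
      calc _ ≤ A * Real.exp (-|q.2|) / (r / 2) := this
        _ = _ := by ring
    rw [integral_integral_swap hint]
    refine integral_congr_ae (Eventually.of_forall fun x => ?_)
    simp only
    rw [integral_const_mul]

end DRX

end
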