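import Pool.Agent.DRX.Circ2
import Pool.Agent.DRX.Bod
import Pool.Agent.DRX.GasD

/-!
# The one sided functional of a family with the rules

`fun_rul`: `F0` in `Rul η (Z.map xx)`, `Z` in the window of `c`: the list function
`V ↦ F0 (V.map xx) / ((2/3)^|V| (PP u2 V)^2 ∏_{V × Z} u2)` is given on the line `Im = c` by a functional of the class
`FunC`; `psi_shift`: the functionals of two windows agree on analytic fields (A2).
-/

set_option autoImplicit false

noncomputable section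

open Complex MeasureTheory Filter Topology

namespace DRX

open DUA SPN NUGas

/-- holomorphy of the gas functional -/
theorem gHol : GHol := fun A U L hU hL hd v hv => by
  obtain ⟨D, _, h⟩ := funC_gas.grad
  exact (h A U L hU hL hd v hv).differentiableAt.differentiableWithinAt

theorem FunC.hol {Ψ : (ℝ → ℂ) → ℂ} (h : FunC Ψ) {A : ℝ} {U : Set ℂ} {L : ℂ → ℝ → ℂ} (hU : IsOpen U)
    (hL : ∀ v ∈ U, L v ∈ Kc A) (hd : ∀ x, DifferentiableOn ℂ (fun v => L v x) U) :
    DifferentiableOn ℂ (fun v => Ψ (L v)) U := fun v hv => by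
  obtain ⟨D, _, h⟩ := h.grad
  exact (h A U L hU hL hd v hv).differentiableAt.differentiableWithinAt

/-- a functional of the class is holomorphic in every row -/
theorem FunC.row {Ψ : (ℝ → ℂ) → ℂ} (hΨ : FunC Ψ) {c : ℝ} {L : List ℂ} (hL : Wn c L) :
    DifferentiableOn ℂ (fun v => Ψ (fun x => Lam (v :: L) (ln c x))) (Win c) := by
  intro v0 hv0
  have hv0' : |v0.im - c| < 5 * Real.pi / 6 := hv0
  set d : ℝ := (|v0.im - c| + 5 * Real.pi / 6) / 2 with hd
  have hd1 : |v0.im - c| < d := by rw [hd]; linarith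
  have hd2 : d < 5 * Real.pi / 6 := by rw [hd]; linarith
  set U : Set ℂ := {v | |v.im - c| < d ∧ |v.re| < |v0.re| + 1} with hU
  have hUo : IsOpen U := by
    have e : U = (fun v : ℂ => |v.im - c|) ⁻¹' Set.Iio d ∩ (fun v : ℂ => |v.re|) ⁻¹' Set.Iio (|v0.re| + 1) := rfl
    rw [e]
    exact (isOpen_Iio.preimage (by fun_prop)).inter (isOpen_Iio.preimage (by fun_prop))
  have hvU : v0 ∈ U := ⟨hd1, by linarith⟩
  obtain ⟨C, hC0, hC⟩ := tau_Kc (c := c) hd2
  obtain ⟨A, hA0, hA⟩ := Lam_Kc hL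
  have hB : 0 ≤ C * Real.exp (|v0.re| + 1) := by positivity
  have h1 : DifferentiableOn ℂ (fun v => Ψ (fun x => Lam (v :: L) (ln c x))) U := by
    refine hΨ.hol (A := C * Real.exp (|v0.re| + 1) + A + C * Real.exp (|v0.re| + 1) * A) hUo (fun v hv => ?_)
      fun x => ?_
    · have h2 : (fun x => tau (v - ln c x)) ∈ Kc (C * Real.exp (|v0.re| + 1)) :=
        Kc_mono (mul_le_mul_of_nonneg_left (Real.exp_le_exp.2 hv.2.le) hC0) (hC v hv.1.le)
      have h3 := Kc_mul hB h2 hA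
      simp only [Lam_cons]
      exact h3
    · simp only [Lam_cons]
      refine DifferentiableOn.mul_const ?_ _
      intro v hv
      have h4 : |(v - ln c x).im| < 5 * Real.pi / 6 := by
        rw [Complex.sub_im, ln_im]; exact hv.1.trans hd2
      exact (DifferentiableAt.comp (g := tau) (f := fun v => v - ln c x) v (tau_diffAt h4)
        (differentiableAt_id.sub_const _)).differentiableWithinAt
  exact ((h1 v0 hvU).differentiableAt (hUo.mem_nhds hvU)).differentiableWithinAt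

/-! ### selections -/

theorem mem_sel {s : Bool} {v : ℂ} : ∀ {c : List Bool} {Y : List ℂ}, v ∈ sel s c Y → v ∈ Y
  | [], Y, h => by simp at h
  | a :: c, [], h => by simp at h
  | a :: c, y :: Y, h => by
    rw [sel_cons] at h
    split_ifs at h
    · rcases List.mem_cons.1 h with rfl | h
      · exact List.mem_cons_self
      · exact List.mem_cons_of_mem _ (mem_sel h)
    · exact List.mem_cons_of_mem _ (mem_sel h)

theorem sel_map (f : ℂ → ℂ) (s : Bool) : ∀ (c : List Bool) (Y : List ℂ), sel s c (Y.map f) = (sel s c Y).map f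
  | [], Y => by simp
  | a :: c, [] => by simp
  | a :: c, y :: Y => by
    rw [List.map_cons, sel_cons, sel_cons, sel_map f s c Y]
    split_ifs <;> simp

theorem len_sel (s : Bool) : ∀ (c : List Bool) (Y : List ℂ), (sel s c Y).length ≤ Y.length
  | [], Y => by simp
  | a :: c, [] => by simp
  | a :: c, y :: Y => by
    rw [sel_cons]
    have := len_sel s c Y
    split_ifs
    · simp only [List.length_cons]; omega
    · simp only [List.length_cons]; omega

/-! ### moved rows -/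

variable {r : ℕ}

/-- the rows whose multiplicative coordinates are `xx z + t v1` -/
def zt (z v1 : Fin r → ℂ) (t : ℂ) (i : Fin r) : ℂ := z i + 4 / 3 * Complex.log (1 + t * v1 i / xx (z i))

theorem zt_zero (z v1 : Fin r → ℂ) : zt z v1 0 = z := by
  funext i
  simp [zt]

theorem xx_zt {z v1 : Fin r → ℂ} {t : ℂ} {i : Fin r} (h : 1 + t * v1 i / xx (z i) ≠ 0) :
    xx (zt z v1 t i) = xx (z i) + t * v1 i := by
  have h1 := xx_ne (z i)
  have e : xx (zt z v1 t i) = xx (z i) * (1 + t * v1 i / xx (z i)) := by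
    unfold zt
    conv_rhs => rw [← Complex.exp_log h]
    unfold xx
    rw [← exp_add]
    congr 1
    ring
  rw [e]
  field_simp

/-- admissible radius for the window of `c` -/
structure Rad (z v1 : Fin r → ℂ) (c R d B : ℝ) : Prop where
  pos : 0 < R
  hd : d < 5 * Real.pi / 6
  sl : ∀ i t, ‖t‖ ≤ R → ‖t * v1 i / xx (z i)‖ < 1
  im : ∀ i t, ‖t‖ ≤ R → |(zt z v1 t i).im - c| ≤ d
  re : ∀ i t, ‖t‖ ≤ R → |(zt z v1 t i).re| ≤ B

theorem Rad.mono {z v1 : Fin r → ℂ} {c R R' d B : ℝ} (h : Rad z v1 c R d B) (h0 : 0 < R') (hR : R' ≤ R) :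
    Rad z v1 c R' d B :=
  ⟨h0, h.hd, fun i t ht => h.sl i t (ht.trans hR), fun i t ht => h.im i t (ht.trans hR),
    fun i t ht => h.re i t (ht.trans hR)⟩

theorem slit_of {u : ℂ} (h : ‖u‖ < 1) : 1 + u ∈ slitPlane := by
  left
  have h1 := (abs_le.1 (Complex.abs_re_le_norm u)).1
  rw [Complex.add_re, Complex.one_re]
  linarith

theorem zt_diffAt {z v1 : Fin r → ℂ} {t : ℂ} {i : Fin r} (h : ‖t * v1 i / xx (z i)‖ < 1) :
    DifferentiableAt ℂ (fun t => zt z v1 t i) t := by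
  unfold zt
  refine DifferentiableAt.const_add _ (DifferentiableAt.const_mul ?_ _)
  exact DifferentiableAt.clog (by fun_prop) (slit_of h)

theorem exists_Rad {z : Fin r → ℂ} (v1 : Fin r → ℂ) {c : ℝ} (hz : ∀ i, z i ∈ Win c) :
    ∃ R d B, Rad z v1 c R d B := by
  have hd : ∃ d : ℝ, d < 5 * Real.pi / 6 ∧ ∀ i, |(z i).im - c| < d := by
    have h1 : ∀ᶠ d in 𝓝[<] (5 * Real.pi / 6), ∀ i, |(z i).im - c| < d := by
      rw [eventually_all]
      intro i
      have h2 : |(z i).im - c| < 5 * Real.pi / 6 := hz i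
      exact Filter.mem_of_superset (Ioo_mem_nhdsLT h2) fun d hd => hd.1
    have h2 : ∀ᶠ d in 𝓝[<] (5 * Real.pi / 6), d < 5 * Real.pi / 6 := self_mem_nhdsWithin
    obtain ⟨d, h3, h4⟩ := (h1.and h2).exists
    exact ⟨d, h4, h3⟩
  obtain ⟨d, hd1, hd2⟩ := hd
  set B : ℝ := ∑ i, |(z i).re| + 1 with hB
  have hB2 : ∀ i, |(z i).re| < B := by
    intro i
    have := Finset.single_le_sum (f := fun i => |(z i).re|) (fun i _ => abs_nonneg _) (Finset.mem_univ i)
    rw [hB]
    linarith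
  have hct : ∀ i, ContinuousAt (fun t => zt z v1 t i) 0 := fun i => (zt_diffAt (by simp)).continuousAt
  have hev : ∀ᶠ t in 𝓝 (0 : ℂ), ∀ i, ‖t * v1 i / xx (z i)‖ < 1 ∧ |(zt z v1 t i).im - c| < d ∧ |(zt z v1 t i).re| < B := by
    rw [eventually_all]
    intro i
    have h1 : ∀ᶠ t in 𝓝 (0 : ℂ), ‖t * v1 i / xx (z i)‖ < 1 := by
      have hc : ContinuousAt (fun t : ℂ => ‖t * v1 i / xx (z i)‖) 0 := by fun_prop
      refine hc.eventually_lt continuousAt_const ?_
      simp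
    have h2 : ∀ᶠ t in 𝓝 (0 : ℂ), |(zt z v1 t i).im - c| < d := by
      have hc : ContinuousAt (fun t : ℂ => |(zt z v1 t i).im - c|) 0 :=
        (((Complex.continuous_im.continuousAt).comp (hct i)).sub continuousAt_const).abs
      refine hc.eventually_lt continuousAt_const ?_
      rw [zt_zero]
      exact hd2 i
    have h3 : ∀ᶠ t in 𝓝 (0 : ℂ), |(zt z v1 t i).re| < B := by
      have hc : ContinuousAt (fun t : ℂ => |(zt z v1 t i).re|) 0 :=
        ((Complex.continuous_re.continuousAt).comp (hct i)).abs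
      refine hc.eventually_lt continuousAt_const ?_
      rw [zt_zero]
      exact hB2 i
    filter_upwards [h1, h2, h3] with t a b e
    exact ⟨a, b, e⟩
  obtain ⟨R, hR, h⟩ := Metric.eventually_nhds_iff.1 hev
  refine ⟨R / 2, d, B, by positivity, hd1, fun i t ht => ?_, fun i t ht => ?_, fun i t ht => ?_⟩
  all_goals
    have h1 := h (y := t) (by rw [dist_zero_right]; linarith) i
  · exact h1.1
  · exact h1.2.1.le
  · exact h1.2.2.le

theorem Rad.win {z v1 : Fin r → ℂ} {c R d B : ℝ} (h : Rad z v1 c R d B) {t : ℂ} (ht : ‖t‖ ≤ R) (i : Fin r) :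
    zt z v1 t i ∈ Win c := lt_of_le_of_lt (h.im i t ht) h.hd

theorem Rad.map_xx {z v1 : Fin r → ℂ} {c R d B : ℝ} (h : Rad z v1 c R d B) {t : ℂ} (ht : ‖t‖ ≤ R) :
    (List.ofFn (zt z v1 t)).map xx = List.ofFn ((fun i => xx (z i)) + t • v1) := by
  rw [List.map_ofFn]
  congr 1
  funext i
  have h1 := h.sl i t ht
  simp only [Function.comp_apply, Pi.add_apply, Pi.smul_apply, smul_eq_mul]
  exact xx_zt (slitPlane_ne_zero (slit_of h1))

/-! ### the functional -/

/-- products over `V × Z` -/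
def XP (V Z : List ℂ) : ℂ := (V.map fun v => (Z.map (u2 v)).prod).prod

/-- one product of two gases -/
def TS (c : ℝ) (u : Fin r → ℂ) (S : List Bool) (Λ : ℝ → ℂ) : ℂ :=
  PP u2 (sel true S (List.ofFn u)) * PP u2 (sel false S (List.ofFn u)) *
    (gas (fun x => Lam (sel true S (List.ofFn u)) (ln c x) * Λ x) *
      gas (fun x => Lam (sel false S (List.ofFn u)) (ln c x) * Λ x))

/-- the integrand of the circle average -/
def Ph (cc : Cf r → EvI r → ℂ → ℂ) (z v1 : Fin r → ℂ) (F0 : List ℂ → ℂ) (c : ℝ) (Λ : ℝ → ℂ) (t : ℂ) : ℂ :=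
  KK ^ r * ∑ S : Cf r, (∑ e : EvI r, cc S e t * F0 (evL e)) * TS c (zt z v1 t) S.1 Λ

/-- the functional -/
def Psi (cc : Cf r → EvI r → ℂ → ℂ) (z v1 : Fin r → ℂ) (F0 : List ℂ → ℂ) (c R : ℝ) (Λ : ℝ → ℂ) : ℂ :=
  co R 0 (Ph cc z v1 F0 c Λ)

/-! ### regularity in `t` -/

theorem Lam_ofFn {k : ℕ} (u : Fin k → ℂ) (θ : ℂ) : Lam (List.ofFn u) θ = ∏ j, tau (u j - θ) := by
  unfold Lam
  rw [List.map_ofFn, List.prod_ofFn]
  rfl

theorem PP_ofFn_diff {k : ℕ} {u : ℂ → Fin k → ℂ} {t : ℂ} {c : ℝ} (hu : ∀ j, DifferentiableAt ℂ (fun t => u t j) t)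
    (hw : ∀ j, u t j ∈ Win c) : DifferentiableAt ℂ (fun t => PP u2 (List.ofFn (u t))) t := by
  have hpair : ∀ a b : ℂ → ℂ, DifferentiableAt ℂ a t → DifferentiableAt ℂ b t → a t ∈ Win c → b t ∈ Win c →
      DifferentiableAt ℂ (fun t => u2 (a t) (b t)) t := by
    intro a b ha hb wa wb
    unfold u2
    refine DifferentiableAt.mul ?_ ?_
    · exact (((ha.add hb).const_mul 3).div_const 8).cexp
    · exact DifferentiableAt.comp (g := ku) (f := fun t => a t - b t) t (ku_diff (S5_win wa wb)) (ha.sub hb)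
  induction k with
  | zero =>
    simp only [List.ofFn_zero]
    exact differentiableAt_const _
  | succ k ih =>
    simp only [List.ofFn_succ, PP_cons]
    refine DifferentiableAt.mul ?_ ?_
    · simp only [List.map_ofFn, List.prod_ofFn]
      exact DifferentiableAt.fun_finset_prod fun j _ => hpair _ _ (hu 0) (hu j.succ) (hw 0) (hw j.succ)
    · exact ih (u := fun t j => u t j.succ) (fun j => hu j.succ) fun j => hw j.succ

theorem Rad.PP_diff {z v1 : Fin r → ℂ} {c R d B : ℝ} (h : Rad z v1 c R d B) (s : Bool) (S : List Bool) {t : ℂ}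
    (ht : ‖t‖ ≤ R) : DifferentiableAt ℂ (fun t => PP u2 (sel s S (List.ofFn (zt z v1 t)))) t := by
  obtain ⟨k, idx, hk⟩ := sel_ofFn s S r
  simp only [hk]
  exact PP_ofFn_diff (c := c) (u := fun t j => zt z v1 t (idx j)) (fun j => zt_diffAt (h.sl _ t ht))
    fun j => h.win ht _

theorem Rad.cls {z v1 : Fin r → ℂ} {c R d B : ℝ} (h : Rad z v1 c R d B) : ∃ A : ℝ, 0 ≤ A ∧
    ∀ (s : Bool) (S : List Bool) (t : ℂ), ‖t‖ ≤ R →
      (fun x => Lam (sel s S (List.ofFn (zt z v1 t))) (ln c x)) ∈ Kc A := by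
  obtain ⟨A, hA0, hA⟩ := Lam_unif (c := c) (R := B) h.hd r
  refine ⟨A, hA0, fun s S t ht => hA _ ?_ fun v hv => ?_⟩
  · refine (len_sel s S _).trans ?_
    rw [List.length_ofFn]
  · have h1 := mem_sel hv
    rw [List.mem_ofFn] at h1
    obtain ⟨i, rfl⟩ := h1
    exact ⟨h.im i t ht, h.re i t ht⟩

theorem Rad.Lam_diff {z v1 : Fin r → ℂ} {c R d B : ℝ} (h : Rad z v1 c R d B) (s : Bool) (S : List Bool) {t : ℂ}
    (ht : ‖t‖ ≤ R) (x : ℝ) : DifferentiableAt ℂ (fun t => Lam (sel s S (List.ofFn (zt z v1 t))) (ln c x)) t := by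
  obtain ⟨k, idx, hk⟩ := sel_ofFn s S r
  simp only [hk, Lam_ofFn]
  refine DifferentiableAt.fun_finset_prod fun j _ => ?_
  have h4 : |(zt z v1 t (idx j) - ln c x).im| < 5 * Real.pi / 6 := by
    rw [Complex.sub_im, ln_im]
    exact h.win ht _
  exact DifferentiableAt.comp (g := tau) (f := fun t => zt z v1 t (idx j) - ln c x) t (tau_diffAt h4)
    ((zt_diffAt (h.sl _ t ht)).sub_const _)

theorem Rad.gas_diff {z v1 : Fin r → ℂ} {c R d B : ℝ} (h : Rad z v1 c R d B) (s : Bool) (S : List Bool) {A : ℝ}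
    {Λ : ℝ → ℂ} (hΛ : Λ ∈ Kc A) : DifferentiableOn ℂ
      (fun t => gas (fun x => Lam (sel s S (List.ofFn (zt z v1 t))) (ln c x) * Λ x)) (Metric.ball 0 R) := by
  obtain ⟨A0, h0, hK⟩ := h.cls
  refine gHol (A0 * (1 + A) + A) _ _ Metric.isOpen_ball (fun t ht => ?_) fun x t ht => ?_
  · exact Kc_mul2 (hK s S t (mem_ball_zero_iff.1 ht).le) hΛ
  · exact ((h.Lam_diff s S (mem_ball_zero_iff.1 ht).le x).mul_const _).differentiableWithinAt

theorem Rad.TS_diff {z v1 : Fin r → ℂ} {c R d B : ℝ} (h : Rad z v1 c R d B) (S : List Bool) {A : ℝ}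
    {Λ : ℝ → ℂ} (hΛ : Λ ∈ Kc A) : DifferentiableOn ℂ (fun t => TS c (zt z v1 t) S Λ) (Metric.ball 0 R) := by
  unfold TS
  refine DifferentiableOn.mul (DifferentiableOn.mul ?_ ?_) ((h.gas_diff true S hΛ).mul (h.gas_diff false S hΛ))
  · exact fun t ht => (h.PP_diff true S (mem_ball_zero_iff.1 ht).le).differentiableWithinAt
  · exact fun t ht => (h.PP_diff false S (mem_ball_zero_iff.1 ht).le).differentiableWithinAt

theorem Ph_diffAt {η : ℂ} {b : List ℂ → ℂ} {z v1 : Fin r → ℂ} {R0 : ℝ} {cc : Cf r → EvI r → ℂ → ℂ}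
    (hC : CR η b (fun i => xx (z i)) v1 R0 cc) {c R d B : ℝ} (h : Rad z v1 c R d B) (hR : R ≤ R0)
    (F0 : List ℂ → ℂ) {A : ℝ} {Λ : ℝ → ℂ} (hΛ : Λ ∈ Kc A) {t : ℂ} (ht0 : t ≠ 0) (ht : ‖t‖ < R) :
    DifferentiableAt ℂ (Ph cc z v1 F0 c Λ) t := by
  unfold Ph
  refine DifferentiableAt.const_mul ?_ _
  refine DifferentiableAt.fun_sum fun S _ => DifferentiableAt.mul ?_ ?_
  · exact DifferentiableAt.fun_sum fun e _ => (hC.diff S e t ht0 (ht.le.trans hR)).mul_const _
  · exact (h.TS_diff S.1 hΛ t (mem_ball_zero_iff.2 ht)).differentiableAt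
      (Metric.isOpen_ball.mem_nhds (mem_ball_zero_iff.2 ht))

/-- the functional does not depend on the radius -/
theorem Psi_rad {η : ℂ} {b : List ℂ → ℂ} {z v1 : Fin r → ℂ} {R0 : ℝ} {cc : Cf r → EvI r → ℂ → ℂ}
    (hC : CR η b (fun i => xx (z i)) v1 R0 cc) {c R d B : ℝ} (h : Rad z v1 c R d B) (hR : R ≤ R0)
    (F0 : List ℂ → ℂ) {A : ℝ} {Λ : ℝ → ℂ} (hΛ : Λ ∈ Kc A) {R1 R2 : ℝ} (h1 : 0 < R1) (h12 : R1 ≤ R2) (h2 : R2 < R) :
    Psi cc z v1 F0 c R2 Λ = Psi cc z v1 F0 c R1 Λ := by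
  unfold Psi
  have h02 : 0 < R2 := h1.trans_le h12
  rw [co_eq h02, co_eq h1]
  congr 1
  have hd : ∀ t : ℂ, R1 ≤ ‖t‖ → ‖t‖ ≤ R2 → DifferentiableAt ℂ (Ph cc z v1 F0 c Λ) t := by
    intro t a1 a2
    refine Ph_diffAt hC h hR F0 hΛ ?_ (a2.trans_lt h2)
    exact norm_pos_iff.1 (h1.trans_le a1)
  have key := Complex.circleIntegral_sub_center_inv_smul_eq_of_differentiable_on_annulus_off_countable
    (c := (0 : ℂ)) h1 h12 (f := Ph cc z v1 F0 c Λ) Set.countable_empty (fun t ht => ?_) fun t ht => ?_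
  · simpa using key
  · refine (hd t ?_ ?_).continuousAt.continuousWithinAt
    · have := ht.2
      rw [mem_ball_zero_iff, not_lt] at this
      exact this
    · exact mem_closedBall_zero_iff.1 ht.1
  · refine hd t ?_ ?_
    · have := ht.1.2
      rw [mem_closedBall_zero_iff, not_le] at this
      exact this.le
    · exact (mem_ball_zero_iff.1 ht.1.1).le

end DRX

end
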