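import Pool.Agent.DRX.FunR

/-!
# The one sided functional of a family with the rules, part 2

* `Psi_funC`: the functional is of the class `FunC`;
* `fun_rul`: its values on contents;
* `Psi_shift`: two windows.
-/

set_option autoImplicit false

noncomputable section

open Complex MeasureTheory Filter Topology

namespace DRX

open DUA SPN NUGas

variable {r : ℕ}

theorem cm_norm {R : ℝ} (hR : 0 < R) (w : ℝ) : ‖circleMap 0 R w‖ = R := by
  rw [norm_circleMap_zero, abs_of_pos hR]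

theorem cm_ne {R : ℝ} (hR : 0 < R) (w : ℝ) : circleMap 0 R w ≠ 0 :=
  norm_pos_iff.1 (by rw [cm_norm hR]; exact hR)

/-- **the functional is of the class `FunC`** -/
theorem Psi_funC {η : ℂ} {b : List ℂ → ℂ} {z v1 : Fin r → ℂ} {R0 : ℝ} {cc : Cf r → EvI r → ℂ → ℂ}
    (hC : CR η b (fun i => xx (z i)) v1 R0 cc) {c R d B : ℝ} (h : Rad z v1 c R d B) (hR : R ≤ R0)
    (F0 : List ℂ → ℂ) {R' : ℝ} (h0 : 0 < R') (hR' : R' ≤ R) : FunC (Psi cc z v1 F0 c R') := by
  have hS : IsCompact (Set.Icc (0 : ℝ) (2 * Real.pi)) := isCompact_Icc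
  have hcm : Continuous (circleMap 0 R') := continuous_circleMap 0 R'
  have hle : ∀ w : ℝ, ‖circleMap 0 R' w‖ ≤ R := fun w => by rw [cm_norm h0]; exact hR'
  have hne : ∀ w : ℝ, circleMap 0 R' w ≠ 0 := cm_ne h0
  obtain ⟨A0, hA0, hK⟩ := h.cls
  have hgas : ∀ (s : Bool) (S : List Bool), FunP (Set.Icc (0 : ℝ) (2 * Real.pi)) fun w Λ =>
      gas (fun x => Lam (sel s S (List.ofFn (zt z v1 (circleMap 0 R' w)))) (ln c x) * Λ x) := by
    intro s S
    refine FunP.comp_mul (K := fun w x => Lam (sel s S (List.ofFn (zt z v1 (circleMap 0 R' w)))) (ln c x))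
      (B := A0) (FunP.gas _) (fun w _ => hK s S _ (hle w)) ?_
    obtain ⟨k, idx, hk⟩ := sel_ofFn s S r
    simp only [hk, Lam_ofFn]
    refine continuousOn_finsetProd _ fun j _ => ?_
    intro q _
    refine ContinuousAt.continuousWithinAt ?_
    have h4 : |(zt z v1 (circleMap 0 R' q.1) (idx j) - ln c q.2).im| < 5 * Real.pi / 6 := by
      rw [Complex.sub_im, ln_im]
      exact h.win (hle _) _
    have h5 : ContinuousAt (fun q : ℝ × ℝ => zt z v1 (circleMap 0 R' q.1) (idx j) - ln c q.2) q := by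
      refine ContinuousAt.sub ?_ ?_
      · have h6 : ContinuousAt (fun t => zt z v1 t (idx j)) (circleMap 0 R' q.1) :=
          (zt_diffAt (h.sl _ _ (hle _))).continuousAt
        exact ContinuousAt.comp (g := fun t => zt z v1 t (idx j)) (f := fun q : ℝ × ℝ => circleMap 0 R' q.1) h6
          (hcm.comp continuous_fst).continuousAt
      · exact ((cont_ln c).comp continuous_snd).continuousAt
    exact ContinuousAt.comp (g := tau) (f := fun q : ℝ × ℝ => zt z v1 (circleMap 0 R' q.1) (idx j) - ln c q.2)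
      (tau_diffAt h4).continuousAt h5
  have hPP : ∀ (s : Bool) (S : List Bool), FunP (Set.Icc (0 : ℝ) (2 * Real.pi)) fun w _ =>
      PP u2 (sel s S (List.ofFn (zt z v1 (circleMap 0 R' w)))) := by
    intro s S
    refine FunP.const hS fun w _ => ContinuousAt.continuousWithinAt ?_
    exact ContinuousAt.comp (g := fun t => PP u2 (sel s S (List.ofFn (zt z v1 t)))) (f := circleMap 0 R')
      (h.PP_diff s S (hle w)).continuousAt hcm.continuousAt
  have hcc : ∀ (S : Cf r), FunP (Set.Icc (0 : ℝ) (2 * Real.pi)) fun w _ =>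
      ∑ e : EvI r, cc S e (circleMap 0 R' w) * F0 (evL e) := by
    intro S
    refine FunP.const hS (continuousOn_finsetSum _ fun e _ => ContinuousOn.mul (fun w _ => ?_) continuousOn_const)
    refine ContinuousAt.continuousWithinAt ?_
    exact ContinuousAt.comp (g := cc S e) (f := circleMap 0 R')
      (hC.diff S e _ (hne w) ((hle w).trans hR)).continuousAt hcm.continuousAt
  have hTS : ∀ S : Cf r, FunP (Set.Icc (0 : ℝ) (2 * Real.pi)) fun w Λ =>
      (∑ e : EvI r, cc S e (circleMap 0 R' w) * F0 (evL e)) * TS c (zt z v1 (circleMap 0 R' w)) S.1 Λ := by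
    intro S
    unfold TS
    exact (hcc S).mul (((hPP true S.1).mul (hPP false S.1)).mul ((hgas true S.1).mul (hgas false S.1)))
  have hpre : FunP (Set.Icc (0 : ℝ) (2 * Real.pi)) fun w _ => (2 * (Real.pi : ℂ) * circleMap 0 R' w ^ 0)⁻¹ := by
    refine FunP.const hS ?_
    simp only [pow_zero]
    exact continuousOn_const
  have hKK : FunP (Set.Icc (0 : ℝ) (2 * Real.pi)) fun _ _ => KK ^ r := FunP.const hS continuousOn_const
  have hsum := FunP.sum (S := Set.Icc (0 : ℝ) (2 * Real.pi)) Finset.univ hS fun (S : Cf r) _ => hTS S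
  exact (hpre.mul (hKK.mul hsum)).integral

/-! ### values on contents -/

theorem Lam_append (V W : List ℂ) (θ : ℂ) : Lam (V ++ W) θ = Lam V θ * Lam W θ := by
  unfold Lam
  rw [List.map_append, List.prod_append]

theorem XP_nil (V : List ℂ) : XP V [] = 1 := by
  unfold XP
  simp

theorem XP_append (V Z W : List ℂ) : XP V (Z ++ W) = XP V Z * XP V W := by
  unfold XP
  rw [← List.prod_map_mul]
  simp only [List.map_append, List.prod_append]

theorem XP_cons (v : ℂ) (V Z : List ℂ) : XP (v :: V) Z = (Z.map (u2 v)).prod * XP V Z := by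
  unfold XP
  rw [List.map_cons, List.prod_cons]

theorem XP_perm (V : List ℂ) {Z W : List ℂ} (h : Z.Perm W) : XP V Z = XP V W := by
  unfold XP
  congr 1
  exact List.map_congr_left fun v _ => (h.map _).prod_eq

theorem row_ne {c : ℝ} {v : ℂ} {L : List ℂ} (hv : v ∈ Win c) (hL : Wn c L) : (L.map (u2 v)).prod ≠ 0 := by
  intro hz
  rw [List.prod_eq_zero_iff, List.mem_map] at hz
  obtain ⟨w, hw, h0⟩ := hz
  exact u2_ne (S5_win hv (hL w hw)) h0

theorem PPu_ne {c : ℝ} {V : List ℂ} (hV : Wn c V) : PP u2 V ≠ 0 := by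
  induction V with
  | nil => rw [PP]; exact one_ne_zero
  | cons v V ih =>
    rw [PP_cons]
    exact mul_ne_zero (row_ne (hV v List.mem_cons_self) fun u hu => hV u (List.mem_cons_of_mem _ hu))
      (ih fun u hu => hV u (List.mem_cons_of_mem _ hu))

theorem XP_ne {c : ℝ} {V Z : List ℂ} (hV : Wn c V) (hZ : Wn c Z) : XP V Z ≠ 0 := by
  induction V with
  | nil => unfold XP; simp
  | cons v V ih =>
    rw [XP_cons]
    exact mul_ne_zero (row_ne (hV v List.mem_cons_self) hZ) (ih fun u hu => hV u (List.mem_cons_of_mem _ hu))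

/-- one product of two `b` in the window -/
theorem pr_eq {η : ℂ} (hη : η ^ 4 = -1) (hr : η - η ^ 3 = ((Real.sqrt 2 : ℝ) : ℂ)) {b : List ℂ → ℂ}
    (hb : BT η (1 + η ^ 3) (1 + η ^ 2) b) {c : ℝ} {V : List ℂ} (hV : Wn c V) {u : Fin r → ℂ}
    (hu : ∀ i, u i ∈ Win c) {S : List Bool} (hS : S.length = r) :
    pr b S ((List.ofFn u).map xx) (V.map xx) = ((2 / 3) ^ V.length * (PP u2 V ^ 2 * XP V (List.ofFn u))) *
      (KK ^ r * TS c u S (fun x => Lam V (ln c x))) := by
  have hW : ∀ s : Bool, Wn c (V ++ sel s S (List.ofFn u)) := by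
    intro s v hv
    rcases List.mem_append.1 hv with hv | hv
    · exact hV v hv
    · have h1 := mem_sel hv
      rw [List.mem_ofFn] at h1
      obtain ⟨i, rfl⟩ := h1
      exact hu i
  have hg : ∀ s : Bool, gas (fun x => Lam (V ++ sel s S (List.ofFn u)) (ln c x)) =
      gas (fun x => Lam (sel s S (List.ofFn u)) (ln c x) * Lam V (ln c x)) := by
    intro s
    congr 1
    funext x
    rw [Lam_append, mul_comm]
  have hX : ∀ s : Bool, (V.map fun v => ((sel s S (List.ofFn u)).map (u2 v)).prod).prod = XP V (sel s S (List.ofFn u)) :=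
    fun _ => rfl
  have h1 : ∀ s : Bool, b (V.map xx ++ sel s S ((List.ofFn u).map xx)) =
      KK ^ (V.length + (sel s S (List.ofFn u)).length) * (PP u2 V * XP V (sel s S (List.ofFn u)) *
        PP u2 (sel s S (List.ofFn u))) *
        gas (fun x => Lam (sel s S (List.ofFn u)) (ln c x) * Lam V (ln c x)) := by
    intro s
    rw [sel_map, ← List.map_append, bod gHol hη hr hb (hW s), PP_append, hX, List.length_append, hg]
  have hp := sel_perm S (List.ofFn u) (by rw [List.length_ofFn]; exact hS)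
  have hXP : XP V (List.ofFn u) = XP V (sel true S (List.ofFn u)) * XP V (sel false S (List.ofFn u)) := by
    rw [← XP_append]
    exact (XP_perm V hp).symm
  have hl : (sel true S (List.ofFn u)).length + (sel false S (List.ofFn u)).length = r := by
    have := hp.length_eq
    rwa [List.length_append, List.length_ofFn] at this
  have hK : KK ^ (V.length + (sel true S (List.ofFn u)).length) * KK ^ (V.length + (sel false S (List.ofFn u)).length) =
      (2 / 3) ^ V.length * KK ^ r := by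
    rw [← KK_sq, ← pow_mul, ← pow_add, ← pow_add]
    congr 1
    omega
  unfold pr two
  rw [h1, h1, hXP]
  unfold TS
  linear_combination ((PP u2 V * XP V (sel true S (List.ofFn u)) * PP u2 (sel true S (List.ofFn u))) *
    gas (fun x => Lam (sel true S (List.ofFn u)) (ln c x) * Lam V (ln c x)) *
    ((PP u2 V * XP V (sel false S (List.ofFn u)) * PP u2 (sel false S (List.ofFn u))) *
    gas (fun x => Lam (sel false S (List.ofFn u)) (ln c x) * Lam V (ln c x)))) * hK

/-- the normalisation -/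
def nrm (V Z : List ℂ) : ℂ := (2 / 3) ^ V.length * (PP u2 V ^ 2 * XP V Z)

theorem nrm_ne {c : ℝ} {V Z : List ℂ} (hV : Wn c V) (hZ : Wn c Z) : nrm V Z ≠ 0 :=
  mul_ne_zero (pow_ne_zero _ (by norm_num)) (mul_ne_zero (pow_ne_zero _ (PPu_ne hV)) (XP_ne hV hZ))

theorem XP_ofFn (V : List ℂ) {k : ℕ} (u : Fin k → ℂ) : XP V (List.ofFn u) = (V.map fun v => ∏ i, u2 v (u i)).prod := by
  unfold XP
  congr 1
  refine List.map_congr_left fun v _ => ?_
  rw [List.map_ofFn, List.prod_ofFn]
  rfl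

theorem XP_ofFn_diff {c : ℝ} {V : List ℂ} (hV : Wn c V) {u : ℂ → Fin r → ℂ} {t : ℂ}
    (hu : ∀ j, DifferentiableAt ℂ (fun t => u t j) t) (hw : ∀ j, u t j ∈ Win c) :
    DifferentiableAt ℂ (fun t => XP V (List.ofFn (u t))) t := by
  induction V with
  | nil =>
    simp only [XP_ofFn, List.map_nil, List.prod_nil]
    exact differentiableAt_const _
  | cons v V ih =>
    simp only [XP_cons]
    refine DifferentiableAt.mul ?_ (ih fun u hu => hV u (List.mem_cons_of_mem _ hu))
    simp only [List.map_ofFn, List.prod_ofFn]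
    refine DifferentiableAt.fun_finset_prod fun j _ => ?_
    simp only [Function.comp_apply]
    unfold u2
    refine DifferentiableAt.mul ?_ ?_
    · exact ((((hu j).const_add v).const_mul 3).div_const 8).cexp
    · exact DifferentiableAt.comp (g := ku) (f := fun t => v - u t j) t (ku_diff (S5_win (hV v List.mem_cons_self) (hw j)))
        ((hu j).const_sub v)

theorem len_Cf' (S : Cf r) : S.1.length = r := len_Cf _ _ S.2

/-- the functional on generic contents -/
theorem Psi_gen {η : ℂ} (hη : η ^ 4 = -1) (hr : η - η ^ 3 = ((Real.sqrt 2 : ℝ) : ℂ)) {b : List ℂ → ℂ}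
    (hb : BT η (1 + η ^ 3) (1 + η ^ 2) b) {z v1 : Fin r → ℂ} {R0 : ℝ} {cc : Cf r → EvI r → ℂ → ℂ}
    (hC : CR η b (fun i => xx (z i)) v1 R0 cc) {c R d B : ℝ} (h : Rad z v1 c R d B) (hR : R ≤ R0)
    {F0 : List ℂ → ℂ} (hF : Rul η (List.ofFn fun i => xx (z i)) F0) {R' : ℝ} (h0 : 0 < R') (hR' : R' < R)
    {V : List ℂ} (hV : Wn c V) (hg : Gen η (V.map xx)) :
    Psi cc z v1 F0 c R' (fun x => Lam V (ln c x)) = F0 (V.map xx) / nrm V (List.ofFn z) := by
  obtain ⟨f, hf, hf0, hft⟩ := hC.ent F0 hF (V.map xx) hg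
  have hWz : ∀ t : ℂ, ‖t‖ ≤ R → Wn c (List.ofFn (zt z v1 t)) := by
    intro t ht v hv
    rw [List.mem_ofFn] at hv
    obtain ⟨i, rfl⟩ := hv
    exact h.win ht i
  have hPh : ∀ t : ℂ, t ≠ 0 → ‖t‖ ≤ R →
      Ph cc z v1 F0 c (fun x => Lam V (ln c x)) t = f t / nrm V (List.ofFn (zt z v1 t)) := by
    intro t ht0 ht
    have h1 := hft t ht0 (ht.trans hR)
    rw [← h.map_xx ht] at h1
    have h2 : ∀ S : Cf r, (∑ e : EvI r, cc S e t * F0 (evL e)) *
        pr b S.1 ((List.ofFn (zt z v1 t)).map xx) (V.map xx) =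
        nrm V (List.ofFn (zt z v1 t)) * (KK ^ r * ((∑ e : EvI r, cc S e t * F0 (evL e)) *
          TS c (zt z v1 t) S.1 (fun x => Lam V (ln c x)))) := by
      intro S
      rw [pr_eq hη hr hb hV (fun i => h.win ht i) (len_Cf' S)]
      unfold nrm
      ring
    rw [Finset.sum_congr rfl fun S _ => h2 S, ← Finset.mul_sum, ← Finset.mul_sum] at h1
    rw [eq_div_iff (nrm_ne hV (hWz t ht)), ← h1]
    unfold Ph
    ring
  have hco : Psi cc z v1 F0 c R' (fun x => Lam V (ln c x)) =
      co R' 0 (fun t => f t / nrm V (List.ofFn (zt z v1 t))) := by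
    unfold Psi co
    refine integral_congr_ae (Eventually.of_forall fun w => ?_)
    simp only
    rw [hPh _ (cm_ne h0 w) (by rw [cm_norm h0]; exact hR'.le)]
  have hd : DifferentiableOn ℂ (fun t => f t / nrm V (List.ofFn (zt z v1 t))) (Metric.ball 0 R) := by
    intro t ht
    have ht' : ‖t‖ ≤ R := (mem_ball_zero_iff.1 ht).le
    refine DifferentiableAt.differentiableWithinAt (DifferentiableAt.fun_div (hf t) ?_ (nrm_ne hV (hWz t ht')))
    unfold nrm
    exact ((XP_ofFn_diff hV (fun j => zt_diffAt (h.sl j t ht')) fun j => h.win ht' j).const_mul _).const_mul _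
  rw [hco, co_zero h0 hR' hd, hf0, zt_zero]

theorem nrm_cons (v : ℂ) (V Z : List ℂ) : nrm (v :: V) Z = (2 / 3) * ((V.map (u2 v)).prod ^ 2 * (Z.map (u2 v)).prod) * nrm V Z := by
  unfold nrm
  rw [PP_cons, XP_cons, List.length_cons, pow_succ]
  ring

theorem nrm_perm {V W : List ℂ} (h : V.Perm W) (Z : List ℂ) : nrm V Z = nrm W Z := by
  unfold nrm XP
  rw [PP_perm u2_symm h, h.length_eq, (h.map _).prod_eq]

/-- **the functional on all contents** -/
theorem Psi_con {η : ℂ} (hη : η ^ 4 = -1) (hr : η - η ^ 3 = ((Real.sqrt 2 : ℝ) : ℂ)) {b : List ℂ → ℂ}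
    (hb : BT η (1 + η ^ 3) (1 + η ^ 2) b) {z v1 : Fin r → ℂ} {R0 : ℝ} {cc : Cf r → EvI r → ℂ → ℂ}
    (hC : CR η b (fun i => xx (z i)) v1 R0 cc) {c R d B : ℝ} (h : Rad z v1 c R d B) (hR : R ≤ R0)
    {F0 : List ℂ → ℂ} (hF : Rul η (List.ofFn fun i => xx (z i)) F0)
    (hrow : ∀ X : List ℂ, Differentiable ℂ fun t => F0 (t :: X)) {R' : ℝ} (h0 : 0 < R') (hR' : R' < R) :
    ∀ A C : List ℂ, Wn c A → Wn c C → Gen η (C.map xx) →
    F0 ((A ++ C).map xx) / nrm (A ++ C) (List.ofFn z) = Psi cc z v1 F0 c R' (fun x => Lam (A ++ C) (ln c x)) := by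
  have hpi := Real.pi_pos
  have hfc := Psi_funC hC h hR F0 h0 hR'.le
  have hWz : Wn c (List.ofFn z) := by
    intro v hv
    rw [List.mem_ofFn] at hv
    obtain ⟨i, rfl⟩ := hv
    have := h.win (t := 0) (by rw [norm_zero]; exact h.pos.le) i
    rwa [zt_zero] at this
  intro A
  induction A with
  | nil =>
    intro C _ hC' hg
    rw [List.nil_append]
    exact (Psi_gen hη hr hb hC h hR hF h0 hR' hC' hg).symm
  | cons a A ih =>
    intro C hA hC' hg
    have hA' : Wn c A := fun u hu => hA u (List.mem_cons_of_mem _ hu)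
    have hAC : Wn c (A ++ C) := by
      intro u hu
      rcases List.mem_append.1 hu with hu | hu
      · exact hA' u hu
      · exact hC' u hu
    have hz : ((c : ℂ) * I) ∈ Win c := by
      show |((c : ℂ) * I).im - c| < 5 * Real.pi / 6
      simp
      positivity
    have key := win_ext (c := c) (f := fun v => F0 ((v :: (A ++ C)).map xx) / nrm (v :: (A ++ C)) (List.ofFn z))
      (g := fun v => Psi cc z v1 F0 c R' (fun x => Lam (v :: (A ++ C)) (ln c x)))
      ?_ (hfc.row hAC) hz ?_ a (hA a List.mem_cons_self)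
    · exact key
    · intro v hv
      refine DifferentiableWithinAt.fun_div ?_ ?_ ?_
      · simp only [List.map_cons]
        exact (DifferentiableAt.comp (g := fun t => F0 (t :: (A ++ C).map xx)) (f := xx) v (hrow _ _)
          (xx_deriv v).differentiableAt).differentiableWithinAt
      · simp only [nrm_cons]
        refine DifferentiableWithinAt.mul_const (DifferentiableWithinAt.const_mul ?_ _) _
        exact ((u2row_diff hAC v hv).pow 2).mul (u2row_diff hWz v hv)
      · refine nrm_ne (c := c) ?_ hWz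
        intro u hu
        rcases List.mem_cons.1 hu with rfl | hu
        · exact hv
        · exact hAC u hu
    · have h1 := gen_ev hη hg ((c : ℂ) * I)
      have h2 : ∀ᶠ z in 𝓝[≠] ((c : ℂ) * I), z ∈ Win c := nhdsWithin_le_nhds ((Win_open c).mem_nhds hz)
      filter_upwards [h1, h2] with z hz1 hz2
      have h3 := ih (z :: C) hA' (fun v hv => by
        rcases List.mem_cons.1 hv with rfl | hv
        · exact hz2
        · exact hC' v hv) (by rw [List.map_cons]; exact hz1)
      have hp : (A ++ z :: C).Perm (z :: (A ++ C)) := List.perm_middle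
      rw [hF.perm (hp.map xx), nrm_perm hp] at h3
      rw [h3]
      congr 1
      funext x
      unfold Lam
      exact (hp.map _).prod_eq

/-- **the one sided functional of a family with the rules** -/
theorem fun_rul {η : ℂ} (hη : η ^ 4 = -1) (hr : η - η ^ 3 = ((Real.sqrt 2 : ℝ) : ℂ)) {b : List ℂ → ℂ}
    (hb : BT η (1 + η ^ 3) (1 + η ^ 2) b) {z v1 : Fin r → ℂ} {R0 : ℝ} {cc : Cf r → EvI r → ℂ → ℂ}
    (hC : CR η b (fun i => xx (z i)) v1 R0 cc) {c R d B : ℝ} (h : Rad z v1 c R d B) (hR : R ≤ R0)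
    {F0 : List ℂ → ℂ} (hF : Rul η (List.ofFn fun i => xx (z i)) F0)
    (hrow : ∀ X : List ℂ, Differentiable ℂ fun t => F0 (t :: X)) {R' : ℝ} (h0 : 0 < R') (hR' : R' < R) :
    Fun (fun V => F0 (V.map xx) / nrm V (List.ofFn z)) c (Psi cc z v1 F0 c R') := by
  refine (Psi_funC hC h hR F0 h0 hR'.le).fun fun V hV => ?_
  have := Psi_con hη hr hb hC h hR hF hrow h0 hR' V [] hV (fun v hv => by simp at hv) ⟨by simp, by simp⟩
  rwa [List.append_nil] at this

/-! ### two windows -/

theorem Lam_strip {c c' : ℝ} {I : List ℂ} (h : Wn c I) (h' : Wn c' I) : ∃ A : ℝ, 0 ≤ A ∧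
    ∀ w : ℂ, c ≤ w.im → w.im ≤ c' → DifferentiableAt ℂ (Lam I) w ∧ ‖Lam I w - 1‖ ≤ A * Real.exp (-|w.re|) := by
  induction I with
  | nil =>
    refine ⟨0, le_rfl, fun w _ _ => ⟨?_, ?_⟩⟩
    · have : Lam [] = fun _ : ℂ => (1 : ℂ) := funext fun θ => Lam_nil θ
      rw [this]
      exact differentiableAt_const _
    · simp [Lam_nil]
  | cons v I ih =>
    obtain ⟨A, hA0, hA⟩ := ih (fun u hu => h u (List.mem_cons_of_mem _ hu)) fun u hu => h' u (List.mem_cons_of_mem _ hu)
    set d : ℝ := max |v.im - c| |v.im - c'| with hd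
    have hd1 : d < 5 * Real.pi / 6 := max_lt (h v List.mem_cons_self) (h' v List.mem_cons_self)
    obtain ⟨C, hC0, hC⟩ := tau_dec hd1
    refine ⟨C * Real.exp |v.re| * (1 + A) + A, by positivity, fun w hw hw' => ?_⟩
    have him : |(v - w).im| ≤ d := by
      rw [Complex.sub_im, abs_le]
      have a1 := neg_abs_le (v.im - c')
      have a2 := le_abs_self (v.im - c)
      have a3 : |v.im - c| ≤ d := le_max_left _ _
      have a4 : |v.im - c'| ≤ d := le_max_right _ _
      constructor <;> linarith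
    obtain ⟨h1, h2⟩ := hA w hw hw'
    have h3 := hC (v - w) him
    rw [Complex.sub_re] at h3
    have h4 : ‖tau (v - w) - 1‖ ≤ C * Real.exp |v.re| * Real.exp (-|w.re|) := by
      refine h3.trans ?_
      rw [mul_assoc]
      exact mul_le_mul_of_nonneg_left (exp_shift _ _) hC0
    have hfun : Lam (v :: I) = fun θ => tau (v - θ) * Lam I θ := funext fun θ => Lam_cons v I θ
    constructor
    · rw [hfun]
      refine DifferentiableAt.mul ?_ h1
      exact DifferentiableAt.comp (g := tau) (f := fun w => v - w) w (tau_diffAt (him.trans_lt hd1))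
        (differentiableAt_id.const_sub v)
    · rw [Lam_cons]
      have e1 : Real.exp (-|w.re|) ≤ 1 := Real.exp_le_one_iff.2 (by simp)
      have e2 : ‖Lam I w‖ ≤ 1 + A := by
        calc ‖Lam I w‖ = ‖1 + (Lam I w - 1)‖ := by congr 1; ring
          _ ≤ ‖(1 : ℂ)‖ + ‖Lam I w - 1‖ := norm_add_le _ _
          _ ≤ 1 + A := by
            rw [norm_one]
            exact add_le_add le_rfl (h2.trans ((mul_le_mul_of_nonneg_left e1 hA0).trans (by rw [mul_one])))
      calc ‖tau (v - w) * Lam I w - 1‖ = ‖(tau (v - w) - 1) * Lam I w + (Lam I w - 1)‖ := by congr 1; ring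
        _ ≤ ‖tau (v - w) - 1‖ * ‖Lam I w‖ + ‖Lam I w - 1‖ := (norm_add_le _ _).trans (by rw [norm_mul])
        _ ≤ (C * Real.exp |v.re| * Real.exp (-|w.re|)) * (1 + A) + A * Real.exp (-|w.re|) :=
            add_le_add (mul_le_mul h4 e2 (norm_nonneg _) (by positivity)) h2
        _ = _ := by ring

theorem gas_two {c c' A : ℝ} {J : List ℂ} (h : Wn c J) (h' : Wn c' J) {L : ℂ → ℂ} (hcc : c ≤ c')
    (hc : ContinuousOn L {z | c ≤ z.im ∧ z.im ≤ c'})
    (hd : ∀ z : ℂ, c < z.im → z.im < c' → DifferentiableAt ℂ L z)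
    (hb : ∀ z : ℂ, c ≤ z.im → z.im ≤ c' → ‖L z - 1‖ ≤ A * Real.exp (-|z.re|)) :
    gas (fun x => Lam J (ln c x) * L (ln c x)) = gas (fun x => Lam J (ln c' x) * L (ln c' x)) := by
  obtain ⟨A1, hA1, hA⟩ := Lam_strip h h'
  have hA0 : 0 ≤ A := by
    have := (norm_nonneg _).trans (hb ((c : ℂ) * I) (by simp) (by simpa using hcc))
    simpa using this
  refine gas_shift (A := A1 * (1 + A) + A) (L := fun w => Lam J w * L w) hcc ?_ (fun w h1 h2 => ?_) fun w h1 h2 => ?_
  · refine ContinuousOn.mul (fun w hw => ?_) hc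
    exact (hA w hw.1 hw.2).1.continuousAt.continuousWithinAt
  · exact (hA w h1.le h2.le).1.mul (hd w h1 h2)
  · have h3 := (hA w h1 h2).2
    have h4 := hb w h1 h2
    have e1 : Real.exp (-|w.re|) ≤ 1 := Real.exp_le_one_iff.2 (by simp)
    have e2 : ‖L w‖ ≤ 1 + A := by
      calc ‖L w‖ = ‖1 + (L w - 1)‖ := by congr 1; ring
        _ ≤ ‖(1 : ℂ)‖ + ‖L w - 1‖ := norm_add_le _ _
        _ ≤ 1 + A := by
          rw [norm_one]
          exact add_le_add le_rfl (h4.trans ((mul_le_mul_of_nonneg_left e1 hA0).trans (by rw [mul_one])))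
    calc ‖Lam J w * L w - 1‖ = ‖(Lam J w - 1) * L w + (L w - 1)‖ := by congr 1; ring
      _ ≤ ‖Lam J w - 1‖ * ‖L w‖ + ‖L w - 1‖ := (norm_add_le _ _).trans (by rw [norm_mul])
      _ ≤ (A1 * Real.exp (-|w.re|)) * (1 + A) + A * Real.exp (-|w.re|) :=
          add_le_add (mul_le_mul h3 e2 (norm_nonneg _) (by positivity)) h4
      _ = _ := by ring

theorem Ph_shift (cc : Cf r → EvI r → ℂ → ℂ) (F0 : List ℂ → ℂ) {z v1 : Fin r → ℂ} {c R d B c' R₂ d' B' : ℝ}
    (h : Rad z v1 c R d B) (h' : Rad z v1 c' R₂ d' B') {A : ℝ} {L : ℂ → ℂ} (hcc : c ≤ c')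
    (hc : ContinuousOn L {z | c ≤ z.im ∧ z.im ≤ c'})
    (hd : ∀ z : ℂ, c < z.im → z.im < c' → DifferentiableAt ℂ L z)
    (hb : ∀ z : ℂ, c ≤ z.im → z.im ≤ c' → ‖L z - 1‖ ≤ A * Real.exp (-|z.re|)) {t : ℂ} (ht : ‖t‖ ≤ R)
    (ht' : ‖t‖ ≤ R₂) :
    Ph cc z v1 F0 c (fun x => L (ln c x)) t = Ph cc z v1 F0 c' (fun x => L (ln c' x)) t := by
  have key : ∀ (s : Bool) (S : List Bool),
      gas (fun x => Lam (sel s S (List.ofFn (zt z v1 t))) (ln c x) * L (ln c x)) =
      gas (fun x => Lam (sel s S (List.ofFn (zt z v1 t))) (ln c' x) * L (ln c' x)) := by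
    intro s S
    refine gas_two (fun v hv => ?_) (fun v hv => ?_) hcc hc hd hb
    · have a1 := mem_sel hv
      rw [List.mem_ofFn] at a1
      obtain ⟨i, rfl⟩ := a1
      exact h.win ht i
    · have a1 := mem_sel hv
      rw [List.mem_ofFn] at a1
      obtain ⟨i, rfl⟩ := a1
      exact h'.win ht' i
  have hTS : ∀ S : List Bool, TS c (zt z v1 t) S (fun x => L (ln c x)) = TS c' (zt z v1 t) S (fun x => L (ln c' x)) := by
    intro S
    unfold TS
    rw [key true S, key false S]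
  unfold Ph
  refine congrArg (fun y => KK ^ r * y) (Finset.sum_congr rfl fun S _ => ?_)
  rw [hTS S.1]

/-- **(A2)** -/
theorem Psi_shift {η : ℂ} {b : List ℂ → ℂ} {z v1 : Fin r → ℂ} {R0 : ℝ} {cc : Cf r → EvI r → ℂ → ℂ}
    (hC : CR η b (fun i => xx (z i)) v1 R0 cc) (F0 : List ℂ → ℂ) {c R d B c' R₂ d' B' : ℝ} (h : Rad z v1 c R d B)
    (h' : Rad z v1 c' R₂ d' B') (hR : R ≤ R0) (hR2 : R₂ ≤ R0) {R1 R1' : ℝ} (h1 : 0 < R1) (h2 : R1 < R)
    (h1' : 0 < R1') (h2' : R1' < R₂) {A : ℝ} {L : ℂ → ℂ} (hcc : c ≤ c')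
    (hc : ContinuousOn L {z | c ≤ z.im ∧ z.im ≤ c'})
    (hd : ∀ z : ℂ, c < z.im → z.im < c' → DifferentiableAt ℂ L z)
    (hb : ∀ z : ℂ, c ≤ z.im → z.im ≤ c' → ‖L z - 1‖ ≤ A * Real.exp (-|z.re|)) :
    Psi cc z v1 F0 c R1 (fun x => L (ln c x)) = Psi cc z v1 F0 c' R1' (fun x => L (ln c' x)) := by
  have hmem : ∀ a, c ≤ a → a ≤ c' → (fun x => L (ln a x)) ∈ Kc A := by
    intro a e1 e2
    refine ⟨?_, fun x => ?_⟩
    · exact hc.comp_continuous (cont_ln a) fun x => ⟨by rw [ln_im]; exact e1, by rw [ln_im]; exact e2⟩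
    · have := hb (ln a x) (by rw [ln_im]; exact e1) (by rw [ln_im]; exact e2)
      rwa [ln_re] at this
  have h3 : 0 < min R1 R1' := lt_min h1 h1'
  have e1 := Psi_rad hC h hR F0 (hmem c le_rfl hcc) h3 (min_le_left _ _) h2
  have e2 := Psi_rad hC h' hR2 F0 (hmem c' hcc le_rfl) h3 (min_le_right _ _) h2'
  rw [e1, e2]
  have key : ∀ w : ℝ, Ph cc z v1 F0 c (fun x => L (ln c x)) (circleMap 0 (min R1 R1') w) =
      Ph cc z v1 F0 c' (fun x => L (ln c' x)) (circleMap 0 (min R1 R1') w) := by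
    intro w
    refine Ph_shift cc F0 h h' hcc hc hd hb ?_ ?_
    · rw [cm_norm h3]; exact (min_le_left _ _).trans h2.le
    · rw [cm_norm h3]; exact (min_le_right _ _).trans h2'.le
  show (∫ w, _ ∂m1) = ∫ w, _ ∂m1
  refine integral_congr_ae (Eventually.of_forall fun w => ?_)
  show _ * _ = _ * _
  rw [key w]

end DRX

end
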