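import Pool.Agent.DRX.Hyp

/-!
# The gas functional on the classes `K(A)`, part 1: dominated integrals, bounds, continuity

* `FunC Ψ`: the properties `seq`, `bdd`, `grad` of `DRX.Fun`, without the values on contents.
-/

set_option autoImplicit false

noncomputable section

open Complex MeasureTheory Filter Topology Finset

namespace DRX

open DUA

/-- `seq`, `bdd`, `grad` of `DRX.Fun` -/
structure FunC (Ψ : (ℝ → ℂ) → ℂ) : Prop where
  seq : ∀ (A : ℝ) (L : ℕ → ℝ → ℂ) (L0 : ℝ → ℂ), (∀ n, L n ∈ Kc A) → L0 ∈ Kc A →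
    (∀ x, Tendsto (fun n => L n x) atTop (𝓝 (L0 x))) → Tendsto (fun n => Ψ (L n)) atTop (𝓝 (Ψ L0))
  bdd : ∀ A : ℝ, ∃ M : ℝ, ∀ L ∈ Kc A, ‖Ψ L‖ ≤ M
  grad : ∃ D : (ℝ → ℂ) → ℝ → ℂ, (∀ A : ℝ, ∃ M : ℝ, ∀ L ∈ Kc A, Measurable (D L) ∧ ∀ x, ‖D L x‖ ≤ M) ∧
    ∀ (A : ℝ) (U : Set ℂ) (L : ℂ → ℝ → ℂ), IsOpen U → (∀ v ∈ U, L v ∈ Kc A) →
      (∀ x, DifferentiableOn ℂ (fun v => L v x) U) → ∀ v ∈ U,
        HasDerivAt (fun v => Ψ (L v)) (∫ x, deriv (fun u => L u x) v * D (L v) x) v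

theorem FunC.fun {f : List ℂ → ℂ} {c : ℝ} {Ψ : (ℝ → ℂ) → ℂ} (h : FunC Ψ)
    (hc : ∀ I, Wn c I → f I = Ψ fun x => Lam I (ln c x)) : Fun f c Ψ := ⟨hc, h.seq, h.bdd, h.grad⟩

theorem Fun.funC {f : List ℂ → ℂ} {c : ℝ} {Ψ : (ℝ → ℂ) → ℂ} (h : Fun f c Ψ) : FunC Ψ := ⟨h.seq, h.bdd, h.grad⟩

/-! ### holomorphic families -/

section abs

variable {Ω : Type*} [MeasurableSpace Ω]

/-- the derivative of a holomorphic family of measurable functions is measurable -/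
theorem deriv_aesm {μ : Measure Ω} {U : Set ℂ} (hU : IsOpen U) {f : ℂ → Ω → ℂ}
    (hm : ∀ z ∈ U, AEStronglyMeasurable (f z) μ)
    (hd : ∀ ω, DifferentiableOn ℂ (fun z => f z ω) U) {z : ℂ} (hz : z ∈ U) :
    AEStronglyMeasurable (fun ω => deriv (fun z => f z ω) z) μ := by
  have hev : ∀ᶠ n : ℕ in atTop, z + ((1 / ((n : ℝ) + 1) : ℝ) : ℂ) ∈ U := by
    have h1 : Tendsto (fun n : ℕ => z + ((1 / ((n : ℝ) + 1) : ℝ) : ℂ)) atTop (𝓝 (z + ((0 : ℝ) : ℂ))) := by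
      refine tendsto_const_nhds.add ?_
      exact (Complex.continuous_ofReal.tendsto 0).comp tendsto_one_div_add_atTop_nhds_zero_nat
    rw [Complex.ofReal_zero, add_zero] at h1
    exact h1 (hU.mem_nhds hz)
  obtain ⟨N, hN⟩ := eventually_atTop.1 hev
  refine aestronglyMeasurable_of_tendsto_ae (u := atTop)
    (f := fun (n : ℕ) ω => (((1 / (((n + N : ℕ) : ℝ) + 1) : ℝ) : ℂ))⁻¹ •
      (f (z + ((1 / (((n + N : ℕ) : ℝ) + 1) : ℝ) : ℂ)) ω - f z ω)) ?_ ?_
  · intro n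
    exact ((hm _ (hN (n + N) (by omega))).sub (hm z hz)).const_smul ((((1 / (((n + N : ℕ) : ℝ) + 1) : ℝ) : ℂ))⁻¹)
  · refine Eventually.of_forall fun ω => ?_
    have h1 := (((hd ω z hz).differentiableAt (hU.mem_nhds hz)).hasDerivAt).tendsto_slope_zero
    have h3 : Tendsto (fun n : ℕ => ((1 / (((n + N : ℕ) : ℝ) + 1) : ℝ) : ℂ)) atTop (𝓝[≠] 0) := by
      refine tendsto_nhdsWithin_iff.2 ⟨?_, Eventually.of_forall fun n => ?_⟩
      · have h4 : Tendsto (fun n : ℕ => ((1 / ((n : ℝ) + 1) : ℝ) : ℂ)) atTop (𝓝 ((0 : ℝ) : ℂ)) :=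
          (Complex.continuous_ofReal.tendsto 0).comp tendsto_one_div_add_atTop_nhds_zero_nat
        rw [Complex.ofReal_zero] at h4
        exact (tendsto_add_atTop_iff_nat N).2 h4
      · rw [Set.mem_compl_iff, Set.mem_singleton_iff, Complex.ofReal_eq_zero]
        positivity
    exact h1.comp h3

/-- the same for continuous functions and plain measurability -/
theorem deriv_meas {U : Set ℂ} (hU : IsOpen U) {f : ℂ → ℝ → ℂ} (hm : ∀ z ∈ U, Continuous (f z))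
    (hd : ∀ ω, DifferentiableOn ℂ (fun z => f z ω) U) {z : ℂ} (hz : z ∈ U) :
    Measurable (fun ω => deriv (fun z => f z ω) z) := by
  have hev : ∀ᶠ n : ℕ in atTop, z + ((1 / ((n : ℝ) + 1) : ℝ) : ℂ) ∈ U := by
    have h1 : Tendsto (fun n : ℕ => z + ((1 / ((n : ℝ) + 1) : ℝ) : ℂ)) atTop (𝓝 (z + ((0 : ℝ) : ℂ))) := by
      refine tendsto_const_nhds.add ?_
      exact (Complex.continuous_ofReal.tendsto 0).comp tendsto_one_div_add_atTop_nhds_zero_nat
    rw [Complex.ofReal_zero, add_zero] at h1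
    exact h1 (hU.mem_nhds hz)
  obtain ⟨N, hN⟩ := eventually_atTop.1 hev
  refine measurable_of_tendsto_metrizable
    (f := fun (n : ℕ) ω => (((1 / (((n + N : ℕ) : ℝ) + 1) : ℝ) : ℂ))⁻¹ •
      (f (z + ((1 / (((n + N : ℕ) : ℝ) + 1) : ℝ) : ℂ)) ω - f z ω)) ?_ ?_
  · intro n
    have h1 := hm _ (hN (n + N) (by omega))
    have h2 := hm z hz
    exact ((h1.sub h2).const_smul ((((1 / (((n + N : ℕ) : ℝ) + 1) : ℝ) : ℂ))⁻¹)).measurable
  · rw [tendsto_pi_nhds]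
    intro ω
    have h1 := (((hd ω z hz).differentiableAt (hU.mem_nhds hz)).hasDerivAt).tendsto_slope_zero
    have h3 : Tendsto (fun n : ℕ => ((1 / (((n + N : ℕ) : ℝ) + 1) : ℝ) : ℂ)) atTop (𝓝[≠] 0) := by
      refine tendsto_nhdsWithin_iff.2 ⟨?_, Eventually.of_forall fun n => ?_⟩
      · have h4 : Tendsto (fun n : ℕ => ((1 / ((n : ℝ) + 1) : ℝ) : ℂ)) atTop (𝓝 ((0 : ℝ) : ℂ)) :=
          (Complex.continuous_ofReal.tendsto 0).comp tendsto_one_div_add_atTop_nhds_zero_nat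
        rw [Complex.ofReal_zero] at h4
        exact (tendsto_add_atTop_iff_nat N).2 h4
      · rw [Set.mem_compl_iff, Set.mem_singleton_iff, Complex.ofReal_eq_zero]
        positivity
    exact h1.comp h3

/-- the Cauchy estimate for a family in `K(A)` -/
theorem fam_deriv {A : ℝ} {U : Set ℂ} {L : ℂ → ℝ → ℂ} (hL : ∀ v ∈ U, L v ∈ Kc A)
    (hd : ∀ x, DifferentiableOn ℂ (fun v => L v x) U) {v : ℂ} {r : ℝ} (hr : 0 < r)
    (hs : Metric.closedBall v r ⊆ U) (x : ℝ) :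
    ‖deriv (fun u => L u x) v‖ ≤ A * Real.exp (-|x|) / r := by
  have h0 : deriv (fun u => L u x) v = deriv (fun u => L u x - 1) v := by
    rw [deriv_sub_const]
  rw [h0]
  refine Complex.norm_deriv_le_of_forall_mem_sphere_norm_le hr ?_ fun w hw => ?_
  · refine DifferentiableOn.diffContOnCl ?_
    rw [closure_ball _ hr.ne']
    exact ((hd x).mono hs).sub_const _
  · exact (hL w (hs (Metric.sphere_subset_closedBall hw))).2 x

/-- a dominated integral of holomorphic functions: derivative under the integral -/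
theorem holo_int {μ : Measure Ω} {U : Set ℂ} (hU : IsOpen U) {f : ℂ → Ω → ℂ} {g : Ω → ℝ} (hg : Integrable g μ)
    (hm : ∀ z ∈ U, AEStronglyMeasurable (f z) μ) (hb : ∀ z ∈ U, ∀ ω, ‖f z ω‖ ≤ g ω)
    (hd : ∀ ω, DifferentiableOn ℂ (fun z => f z ω) U) {z : ℂ} (hz : z ∈ U) :
    HasDerivAt (fun z => ∫ ω, f z ω ∂μ) (∫ ω, deriv (fun z => f z ω) z ∂μ) z := by
  obtain ⟨r, hr, hrU⟩ := Metric.isOpen_iff.1 hU z hz
  have hr2 : 0 < r / 2 := by linarith
  have hsub : ∀ w ∈ Metric.ball z (r / 2), Metric.closedBall w (r / 2) ⊆ Metric.ball z r := by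
    intro w hw x hx
    have h1 := Metric.mem_ball.1 hw
    have h2 := Metric.mem_closedBall.1 hx
    exact Metric.mem_ball.2 ((dist_triangle x w z).trans_lt (by linarith))
  have hfd : ∀ ω, ∀ w ∈ Metric.ball z (r / 2), HasDerivAt (fun z => f z ω) (deriv (fun z => f z ω) w) w := by
    intro ω w hw
    have hwU : w ∈ U := hrU (hsub w hw (Metric.mem_closedBall_self hr2.le))
    exact ((hd ω w hwU).differentiableAt (hU.mem_nhds hwU)).hasDerivAt
  refine (hasDerivAt_integral_of_dominated_loc_of_deriv_le (μ := μ) (𝕜 := ℂ)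
    (F := f) (F' := fun w ω => deriv (fun z => f z ω) w) (x₀ := z) (s := Metric.ball z (r / 2))
    (bound := fun ω => g ω / (r / 2)) (Metric.ball_mem_nhds z hr2) ?_ ?_ (deriv_aesm hU hm hd hz) ?_
    (hg.div_const _) ?_).2
  · exact Filter.eventually_of_mem (Metric.ball_mem_nhds z hr2) fun w hw =>
      hm w (hrU (hsub w hw (Metric.mem_closedBall_self hr2.le)))
  · exact hg.mono' (hm z hz) (Eventually.of_forall fun ω => hb z hz ω)
  · refine Eventually.of_forall fun ω w hw => ?_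
    refine Complex.norm_deriv_le_of_forall_mem_sphere_norm_le hr2 ?_ fun x hx => ?_
    · refine DifferentiableOn.diffContOnCl ?_
      rw [closure_ball _ hr2.ne']
      exact (hd ω).mono fun x hx => hrU (hsub w hw hx)
    · exact hb x (hrU (hsub w hw (Metric.sphere_subset_closedBall hx))) ω
  · exact Eventually.of_forall fun ω w hw => hfd ω w hw

end abs

/-! ### one body integrals -/

/-- `∫ exp (-|x|)` -/
def E1 : ℝ := ∫ x : ℝ, Real.exp (-|x|)

theorem int_e : Integrable fun x : ℝ => Real.exp (-|x|) := by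
  have := int_exp_abs one_pos
  simpa using this

theorem E1_nonneg : 0 ≤ E1 := integral_nonneg fun _ => (Real.exp_pos _).le

/-- the one body factor -/
def gg (L : ℝ → ℂ) (x : ℝ) : ℂ := -(z0 : ℂ) * (L x - 1)

theorem gg_le {A : ℝ} {L : ℝ → ℂ} (hL : L ∈ Kc A) (x : ℝ) : ‖gg L x‖ ≤ z0 * A * Real.exp (-|x|) := by
  unfold gg
  rw [norm_mul, norm_neg, Complex.norm_real, Real.norm_of_nonneg z0_pos.le, mul_assoc]
  exact mul_le_mul_of_nonneg_left (hL.2 x) z0_pos.le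

theorem gg_cont {A : ℝ} {L : ℝ → ℂ} (hL : L ∈ Kc A) : Continuous (gg L) := by
  unfold gg
  exact continuous_const.mul (hL.1.sub continuous_const)

theorem Kc_nonneg {A : ℝ} {L : ℝ → ℂ} (hL : L ∈ Kc A) : 0 ≤ A := by
  have := (norm_nonneg _).trans (hL.2 0)
  simpa using this

/-- the majorant of the products -/
def GM (A : ℝ) (m : ℕ) (θ : Fin m → ℝ) : ℝ := ∏ i, (z0 * A * Real.exp (-|θ i|))

theorem GM_int (A : ℝ) (m : ℕ) : Integrable (GM A m) := by
  unfold GM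
  exact Integrable.fintype_prod (f := fun _ x => z0 * A * Real.exp (-|x|)) fun _ => int_e.const_mul _

theorem GM_val (A : ℝ) (m : ℕ) : ∫ θ, GM A m θ = (z0 * A * E1) ^ m := by
  unfold GM
  rw [integral_fintype_prod_volume_eq_pow (fun x : ℝ => z0 * A * Real.exp (-|x|)), Fintype.card_fin,
    integral_const_mul]
  rfl

theorem GM_nonneg {A : ℝ} (hA : 0 ≤ A) (m : ℕ) (θ : Fin m → ℝ) : 0 ≤ GM A m θ :=
  prod_nonneg fun _ _ => mul_nonneg (mul_nonneg z0_pos.le hA) (Real.exp_pos _).le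

theorem prod_le {A : ℝ} {L : ℝ → ℂ} (hL : L ∈ Kc A) (m : ℕ) (θ : Fin m → ℝ) :
    ‖∏ i, gg L (θ i)‖ ≤ GM A m θ := by
  rw [norm_prod]
  exact prod_le_prod (fun _ _ => norm_nonneg _) fun i _ => gg_le hL _

theorem prod_cont {A : ℝ} {L : ℝ → ℂ} (hL : L ∈ Kc A) (m : ℕ) : Continuous fun θ : Fin m → ℝ => ∏ i, gg L (θ i) :=
  continuous_finsetProd _ fun i _ => (gg_cont hL).comp (continuous_apply i)

theorem rho_bd (m : ℕ) (θ : Fin m → ℝ) : ‖rho m θ‖ ≤ (7 / 2) ^ m := rho_le kerH pfrS m θ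

theorem rho_co (m : ℕ) : Continuous (rho m) := rho_cont kerH pfrS m

theorem rho_pm (m : ℕ) (σ : Equiv.Perm (Fin m)) (θ : Fin m → ℝ) : rho m (θ ∘ σ) = rho m θ := rho_perm kerH pfrS m σ θ

theorem gterm_eq (L : ℝ → ℂ) (m : ℕ) :
    gterm L m = (1 / (m.factorial : ℂ)) * ∫ θ : Fin m → ℝ, (∏ i, gg L (θ i)) * rho m θ := rfl

/-- the bound of the terms -/
def gb (A : ℝ) (m : ℕ) : ℝ := (z0 * A * E1 * (7 / 2)) ^ m / m.factorial

theorem gb_sum (A : ℝ) : Summable (gb A) := Real.summable_pow_div_factorial _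

theorem integrand_le {A : ℝ} {L : ℝ → ℂ} (hL : L ∈ Kc A) (m : ℕ) (θ : Fin m → ℝ) :
    ‖(∏ i, gg L (θ i)) * rho m θ‖ ≤ GM A m θ * (7 / 2) ^ m := by
  rw [norm_mul]
  exact mul_le_mul (prod_le hL m θ) (rho_bd m θ) (norm_nonneg _) (GM_nonneg (Kc_nonneg hL) m θ)

theorem gterm_le {A : ℝ} {L : ℝ → ℂ} (hL : L ∈ Kc A) (m : ℕ) : ‖gterm L m‖ ≤ gb A m := by
  rw [gterm_eq, norm_mul, norm_div, norm_one, Complex.norm_natCast]
  have h : ‖∫ θ : Fin m → ℝ, (∏ i, gg L (θ i)) * rho m θ‖ ≤ (z0 * A * E1 * (7 / 2)) ^ m := by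
    refine (norm_integral_le_of_norm_le ((GM_int A m).mul_const _)
      (Eventually.of_forall fun θ => integrand_le hL m θ)).trans ?_
    rw [integral_mul_const, GM_val, mul_pow (z0 * A * E1)]
  unfold gb
  rw [one_div, div_eq_inv_mul]
  exact mul_le_mul_of_nonneg_left h (by positivity)

theorem gas_bdd (A : ℝ) : ∃ M : ℝ, ∀ L ∈ Kc A, ‖gas L‖ ≤ M :=
  ⟨∑' m, gb A m, fun L hL => tsum_of_norm_bounded (gb_sum A).hasSum fun m => gterm_le hL m⟩

theorem gterm_seq {A : ℝ} {L : ℕ → ℝ → ℂ} {L0 : ℝ → ℂ} (hL : ∀ n, L n ∈ Kc A)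
    (h : ∀ x, Tendsto (fun n => L n x) atTop (𝓝 (L0 x))) (m : ℕ) :
    Tendsto (fun n => gterm (L n) m) atTop (𝓝 (gterm L0 m)) := by
  simp only [gterm_eq]
  refine Tendsto.const_mul _ ?_
  refine tendsto_integral_of_dominated_convergence (fun θ => GM A m θ * (7 / 2) ^ m) (fun n => ?_)
    ((GM_int A m).mul_const _) (fun n => Eventually.of_forall fun θ => integrand_le (hL n) m θ)
    (Eventually.of_forall fun θ => ?_)
  · exact ((prod_cont (hL n) m).mul (rho_co m)).aestronglyMeasurable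
  · refine Tendsto.mul_const _ (tendsto_finsetProd _ fun i _ => ?_)
    unfold gg
    exact ((h (θ i)).sub_const _).const_mul _

theorem gas_seq (A : ℝ) (L : ℕ → ℝ → ℂ) (L0 : ℝ → ℂ) (hL : ∀ n, L n ∈ Kc A)
    (h : ∀ x, Tendsto (fun n => L n x) atTop (𝓝 (L0 x))) : Tendsto (fun n => gas (L n)) atTop (𝓝 (gas L0)) := by
  unfold gas
  exact tendsto_tsum_of_dominated_convergence (gb_sum A) (fun m => gterm_seq hL h m)
    (Eventually.of_forall fun n m => gterm_le (hL n) m)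

end DRX

end
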