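import Pool.Agent.DRX.GasA

/-!
# The gas functional on the classes `K(A)`, part 2: the gradient
-/

set_option autoImplicit false

noncomputable section

open Complex MeasureTheory Filter Topology Finset

namespace DRX

open DUA

/-- the terms of the gradient -/
def dterm (L : ℝ → ℂ) (m : ℕ) (x : ℝ) : ℂ :=
  (1 / (m.factorial : ℂ)) * (-(z0 : ℂ) * ∫ θ : Fin m → ℝ, (∏ i, gg L (θ i)) * rho (m + 1) (Fin.cons x θ))

/-- **the gradient of the gas functional** -/
def Dg (L : ℝ → ℂ) (x : ℝ) : ℂ := ∑' m, dterm L m x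

theorem dint_le {A : ℝ} {L : ℝ → ℂ} (hL : L ∈ Kc A) (m : ℕ) (x : ℝ) (θ : Fin m → ℝ) :
    ‖(∏ i, gg L (θ i)) * rho (m + 1) (Fin.cons x θ)‖ ≤ GM A m θ * (7 / 2) ^ (m + 1) := by
  rw [norm_mul]
  exact mul_le_mul (prod_le hL m θ) (rho_bd _ _) (norm_nonneg _) (GM_nonneg (Kc_nonneg hL) m θ)

theorem cons_cont (m : ℕ) : Continuous fun p : ℝ × (Fin m → ℝ) => (Fin.cons p.1 p.2 : Fin (m + 1) → ℝ) := by
  refine continuous_pi fun i => ?_
  refine Fin.cases ?_ (fun j => ?_) i
  · simpa using continuous_fst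
  · simp only [Fin.cons_succ]
    exact (continuous_apply j).comp continuous_snd

theorem dterm_le {A : ℝ} {L : ℝ → ℂ} (hL : L ∈ Kc A) (m : ℕ) (x : ℝ) :
    ‖dterm L m x‖ ≤ z0 * (7 / 2) * gb A m := by
  unfold dterm
  rw [norm_mul, norm_div, norm_one, Complex.norm_natCast, norm_mul, norm_neg, Complex.norm_real,
    Real.norm_of_nonneg z0_pos.le]
  have h : ‖∫ θ : Fin m → ℝ, (∏ i, gg L (θ i)) * rho (m + 1) (Fin.cons x θ)‖ ≤
      (z0 * A * E1 * (7 / 2)) ^ m * (7 / 2) := by
    refine (norm_integral_le_of_norm_le ((GM_int A m).mul_const _)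
      (Eventually.of_forall fun θ => dint_le hL m x θ)).trans ?_
    rw [integral_mul_const, GM_val]
    exact le_of_eq (by ring)
  unfold gb
  calc _ ≤ 1 / (m.factorial : ℝ) * (z0 * ((z0 * A * E1 * (7 / 2)) ^ m * (7 / 2))) :=
        mul_le_mul_of_nonneg_left (mul_le_mul_of_nonneg_left h z0_pos.le) (by positivity)
    _ = _ := by ring

theorem dterm_cont {A : ℝ} {L : ℝ → ℂ} (hL : L ∈ Kc A) (m : ℕ) : Continuous (dterm L m) := by
  unfold dterm
  refine continuous_const.mul (continuous_const.mul ?_)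
  refine continuous_of_dominated (bound := fun θ => GM A m θ * (7 / 2) ^ (m + 1)) (fun x => ?_)
    (fun x => Eventually.of_forall fun θ => dint_le hL m x θ) ((GM_int A m).mul_const _)
    (Eventually.of_forall fun θ => ?_)
  · exact ((prod_cont hL m).mul ((rho_co (m + 1)).comp ((cons_cont m).comp
      (continuous_const.prodMk continuous_id)))).aestronglyMeasurable
  · exact continuous_const.mul ((rho_co (m + 1)).comp ((cons_cont m).comp (continuous_id.prodMk continuous_const)))

theorem Dg_cont {A : ℝ} {L : ℝ → ℂ} (hL : L ∈ Kc A) : Continuous (Dg L) :=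
  continuous_tsum (dterm_cont hL) ((gb_sum A).mul_left (z0 * (7 / 2))) fun m x => dterm_le hL m x

theorem Dg_le {A : ℝ} {L : ℝ → ℂ} (hL : L ∈ Kc A) (x : ℝ) : ‖Dg L x‖ ≤ ∑' m, z0 * (7 / 2) * gb A m :=
  tsum_of_norm_bounded ((gb_sum A).mul_left _).hasSum fun m => dterm_le hL m x

/-! ### one term -/

/-- all the `m + 1` terms of the product rule are equal -/
theorem sym_term {A B : ℝ} {L : ℝ → ℂ} {h : ℝ → ℂ} (hL : L ∈ Kc A) (hh : Measurable h)
    (hb : ∀ x, ‖h x‖ ≤ B * Real.exp (-|x|)) (m : ℕ) (j : Fin (m + 1)) :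
    Integrable (fun θ : Fin (m + 1) → ℝ => (∏ i ∈ univ.erase j, gg L (θ i)) * h (θ j) * rho (m + 1) θ) ∧
    ∫ θ : Fin (m + 1) → ℝ, (∏ i ∈ univ.erase j, gg L (θ i)) * h (θ j) * rho (m + 1) θ =
      ∫ x : ℝ, h x * ∫ θ : Fin m → ℝ, (∏ i, gg L (θ i)) * rho (m + 1) (Fin.cons x θ) := by
  have hB0 : 0 ≤ B := by
    have := (norm_nonneg _).trans (hb 0)
    simpa using this
  set f : ℝ × (Fin m → ℝ) → ℂ := fun p => h p.1 * ((∏ i, gg L (p.2 i)) * rho (m + 1) (Fin.cons p.1 p.2)) with hf
  have hfi : Integrable f (volume.prod volume) := by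
    have hmaj : Integrable (fun p : ℝ × (Fin m → ℝ) => (B * Real.exp (-|p.1|)) * (GM A m p.2 * (7 / 2) ^ (m + 1)))
        (volume.prod volume) := (int_e.const_mul B).mul_prod ((GM_int A m).mul_const _)
    refine hmaj.mono' ?_ (Eventually.of_forall fun p => ?_)
    · refine Measurable.aestronglyMeasurable ?_
      refine (hh.comp measurable_fst).mul (Continuous.measurable ?_)
      exact ((prod_cont hL m).comp continuous_snd).mul ((rho_co (m + 1)).comp (cons_cont m))
    · rw [hf]
      simp only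
      rw [norm_mul]
      exact mul_le_mul (hb p.1) (dint_le hL m p.1 p.2) (norm_nonneg _)
        (mul_nonneg hB0 (Real.exp_pos _).le)
  have he : ∀ θ : Fin (m + 1) → ℝ, (∏ i ∈ univ.erase j, gg L (θ i)) * h (θ j) * rho (m + 1) θ =
      f (MeasurableEquiv.piFinSuccAbove (fun _ => ℝ) j θ) := by
    intro θ
    rw [hf]
    simp only
    have e1 : (MeasurableEquiv.piFinSuccAbove (fun _ => ℝ) j θ).1 = θ j := rfl
    have e2 : (MeasurableEquiv.piFinSuccAbove (fun _ => ℝ) j θ).2 = fun k => θ (j.succAbove k) := rfl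
    rw [e1, e2]
    have e3 : rho (m + 1) (Fin.cons (θ j) fun k => θ (j.succAbove k)) = rho (m + 1) θ := by
      rw [← rho_pm (m + 1) j.cycleRange (Fin.cons (θ j) fun k => θ (j.succAbove k)), Fin.cons_comp_cycleRange]
      congr 1
      exact Fin.insertNth_self_removeNth j θ
    have e4 : ∏ i ∈ univ.erase j, gg L (θ i) = ∏ k, gg L (θ (j.succAbove k)) := by
      have h1 := Fin.prod_univ_succAbove (fun i => if i = j then (1 : ℂ) else gg L (θ i)) j
      rw [if_pos rfl, one_mul] at h1
      rw [← Finset.mul_prod_erase _ _ (mem_univ j), if_pos rfl, one_mul] at h1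
      rw [Finset.prod_congr rfl fun i hi => (if_neg (Finset.ne_of_mem_erase hi)).symm, h1]
      exact Finset.prod_congr rfl fun k _ => if_neg (Fin.succAbove_ne j k)
    rw [e3, e4]
    ring
  have hmp := volume_preserving_piFinSuccAbove (fun _ : Fin (m + 1) => ℝ) j
  constructor
  · rw [show (fun θ : Fin (m + 1) → ℝ => (∏ i ∈ univ.erase j, gg L (θ i)) * h (θ j) * rho (m + 1) θ) =
      f ∘ (MeasurableEquiv.piFinSuccAbove (fun _ => ℝ) j) from funext he]
    exact (hmp.integrable_comp_emb (MeasurableEquiv.measurableEmbedding _)).2 hfi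
  · rw [integral_congr_ae (Eventually.of_forall he)]
    rw [hmp.integral_comp' (g := f)]
    rw [show (volume : Measure (ℝ × (Fin m → ℝ))) = volume.prod volume from rfl, integral_prod _ hfi]
    refine integral_congr_ae (Eventually.of_forall fun x => ?_)
    simp only [hf]
    rw [integral_const_mul]

/-- the derivative of the `m + 1`-st term along a holomorphic family -/
theorem gterm_deriv {A : ℝ} {U : Set ℂ} {L : ℂ → ℝ → ℂ} (hU : IsOpen U) (hL : ∀ v ∈ U, L v ∈ Kc A)
    (hd : ∀ x, DifferentiableOn ℂ (fun v => L v x) U) {v : ℂ} (hv : v ∈ U) (m : ℕ) :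
    HasDerivAt (fun v => gterm (L v) (m + 1)) (∫ x, deriv (fun u => L u x) v * dterm (L v) m x) v := by
  obtain ⟨r, hr, hrU⟩ := Metric.isOpen_iff.1 hU v hv
  have hr2 : 0 < r / 2 := by linarith
  have hcb : Metric.closedBall v (r / 2) ⊆ U := fun x hx =>
    hrU (Metric.mem_ball.2 ((Metric.mem_closedBall.1 hx).trans_lt (by linarith)))
  set h : ℝ → ℂ := fun x => -(z0 : ℂ) * deriv (fun u => L u x) v with hh
  have hhm : Measurable h := (deriv_meas hU (fun z hz => (hL z hz).1) hd hv).const_mul _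
  have hhb : ∀ x, ‖h x‖ ≤ z0 * (A / (r / 2)) * Real.exp (-|x|) := by
    intro x
    rw [hh]
    simp only
    rw [norm_mul, norm_neg, Complex.norm_real, Real.norm_of_nonneg z0_pos.le]
    have := fam_deriv hL hd hr2 hcb x
    calc _ ≤ z0 * (A * Real.exp (-|x|) / (r / 2)) := mul_le_mul_of_nonneg_left this z0_pos.le
      _ = _ := by ring
  have hg : ∀ x, HasDerivAt (fun u => gg (L u) x) (h x) v := by
    intro x
    have h1 : HasDerivAt (fun u => L u x) (deriv (fun u => L u x) v) v :=
      ((hd x v hv).differentiableAt (hU.mem_nhds hv)).hasDerivAt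
    exact (h1.sub_const 1).const_mul _
  have hp : ∀ θ : Fin (m + 1) → ℝ, HasDerivAt (fun u => (∏ i, gg (L u) (θ i)) * rho (m + 1) θ)
      (∑ j, (∏ i ∈ univ.erase j, gg (L v) (θ i)) * h (θ j) * rho (m + 1) θ) v := by
    intro θ
    have h1 := (HasDerivAt.fun_finsetProd (u := univ) (f := fun (i : Fin (m + 1)) u => gg (L u) (θ i))
      (f' := fun i => h (θ i)) (x := v) fun i _ => hg (θ i)).mul_const (rho (m + 1) θ)
    rw [Finset.sum_mul] at h1
    simpa [smul_eq_mul] using h1
  have key := holo_int (μ := volume) hU (f := fun u (θ : Fin (m + 1) → ℝ) => (∏ i, gg (L u) (θ i)) * rho (m + 1) θ)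
    (g := fun θ => GM A (m + 1) θ * (7 / 2) ^ (m + 1)) ((GM_int A (m + 1)).mul_const _)
    (fun z hz => ((prod_cont (hL z hz) _).mul (rho_co _)).aestronglyMeasurable)
    (fun z hz θ => integrand_le (hL z hz) _ θ) (fun θ => ?_) hv
  swap
  · refine DifferentiableOn.mul_const ?_ _
    refine DifferentiableOn.fun_finsetProd fun i _ => ?_
    exact ((hd (θ i)).sub_const 1).const_mul _
  have e1 : ∫ θ : Fin (m + 1) → ℝ, deriv (fun u => (∏ i, gg (L u) (θ i)) * rho (m + 1) θ) v =
      ((m : ℂ) + 1) * ∫ x : ℝ, h x * ∫ θ : Fin m → ℝ, (∏ i, gg (L v) (θ i)) * rho (m + 1) (Fin.cons x θ) := by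
    rw [integral_congr_ae (Eventually.of_forall fun θ => (hp θ).deriv)]
    rw [integral_finsetSum _ fun j _ => (sym_term (hL v hv) hhm hhb m j).1]
    rw [Finset.sum_congr rfl fun j _ => (sym_term (hL v hv) hhm hhb m j).2, Finset.sum_const, card_univ,
      Fintype.card_fin, nsmul_eq_mul]
    push_cast
    ring
  have e2 : ∫ x, deriv (fun u => L u x) v * dterm (L v) m x = (1 / ((m + 1).factorial : ℂ)) *
      ∫ θ : Fin (m + 1) → ℝ, deriv (fun u => (∏ i, gg (L u) (θ i)) * rho (m + 1) θ) v := by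
    rw [e1, ← mul_assoc, ← integral_const_mul]
    refine integral_congr_ae (Eventually.of_forall fun x => ?_)
    simp only [hh, dterm]
    have hm1 : ((m : ℂ) + 1) ≠ 0 := by
      have : ((m + 1 : ℕ) : ℂ) ≠ 0 := Nat.cast_ne_zero.2 (by omega)
      simpa using this
    have hf : ((m.factorial : ℕ) : ℂ) ≠ 0 := Nat.cast_ne_zero.2 m.factorial_ne_zero
    rw [Nat.factorial_succ]
    push_cast
    field_simp
  rw [e2]
  exact key.const_mul _

/-- **(A4) for the gas** -/
theorem gas_grad {A : ℝ} {U : Set ℂ} {L : ℂ → ℝ → ℂ} (hU : IsOpen U) (hL : ∀ v ∈ U, L v ∈ Kc A)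
    (hd : ∀ x, DifferentiableOn ℂ (fun v => L v x) U) {v : ℂ} (hv : v ∈ U) :
    HasDerivAt (fun v => gas (L v)) (∫ x, deriv (fun u => L u x) v * Dg (L v) x) v := by
  obtain ⟨r, hr, hrU⟩ := Metric.isOpen_iff.1 hU v hv
  have hr2 : 0 < r / 2 := by linarith
  have hcb : Metric.closedBall v (r / 2) ⊆ U := fun x hx =>
    hrU (Metric.mem_ball.2 ((Metric.mem_closedBall.1 hx).trans_lt (by linarith)))
  have h0 : ∀ u, gterm (L u) 0 = gterm (L v) 0 := fun u => by simp [gterm]
  have hdiff : ∀ m, DifferentiableOn ℂ (fun u => gterm (L u) m) U := by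
    intro m
    cases m with
    | zero => exact (differentiableOn_const (gterm (L v) 0)).congr fun u _ => h0 u
    | succ m => exact fun u hu => (gterm_deriv hU hL hd hu m).differentiableAt.differentiableWithinAt
  have hs := hasSum_deriv_of_summable_norm (gb_sum A) hdiff hU (fun m w hw => gterm_le (hL w hw) m) hv
  have hD := differentiableOn_tsum_of_summable_norm (gb_sum A) hdiff hU (fun m w hw => gterm_le (hL w hw) m)
  have hda : HasDerivAt (fun w => ∑' m, gterm (L w) m) (deriv (fun w => ∑' m, gterm (L w) m) v) v :=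
    ((hD v hv).differentiableAt (hU.mem_nhds hv)).hasDerivAt
  have e : deriv (fun w => ∑' m, gterm (L w) m) v = ∫ x, deriv (fun u => L u x) v * Dg (L v) x := by
    have hs1 := (hasSum_nat_add_iff' 1).2 hs
    rw [Finset.sum_range_one] at hs1
    have hz : deriv (fun u => gterm (L u) 0) v = 0 := by
      rw [show (fun u => gterm (L u) 0) = fun _ => gterm (L v) 0 from funext h0]
      exact deriv_const _ _
    rw [hz, sub_zero] at hs1
    have hs2 : HasSum (fun m => ∫ x, deriv (fun u => L u x) v * dterm (L v) m x)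
        (deriv (fun w => ∑' m, gterm (L w) m) v) := by
      refine hs1.congr_fun ?_ 
      intro m
      exact ((gterm_deriv hU hL hd hv m).deriv).symm
    have hmd := deriv_meas hU (fun z hz => (hL z hz).1) hd hv
    have hint : ∀ m, Integrable fun x => deriv (fun u => L u x) v * dterm (L v) m x := by
      intro m
      refine ((int_e.const_mul (A / (r / 2))).mul_const (z0 * (7 / 2) * gb A m)).mono'
        ((hmd.mul (dterm_cont (hL v hv) m).measurable).aestronglyMeasurable) (Eventually.of_forall fun x => ?_)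
      rw [norm_mul]
      refine mul_le_mul ?_ (dterm_le (hL v hv) m x) (norm_nonneg _) ?_
      · have := fam_deriv hL hd hr2 hcb x
        calc _ ≤ A * Real.exp (-|x|) / (r / 2) := this
          _ = _ := by ring
      · exact mul_nonneg (div_nonneg (Kc_nonneg (hL v hv)) hr2.le) (Real.exp_pos _).le
    have hsn : Summable fun m => ∫ x, ‖deriv (fun u => L u x) v * dterm (L v) m x‖ := by
      refine Summable.of_nonneg_of_le (fun m => integral_nonneg fun x => norm_nonneg _) (fun m => ?_)
        ((gb_sum A).mul_left (A / (r / 2) * E1 * (z0 * (7 / 2))))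
      calc _ ≤ ∫ x, (A / (r / 2) * Real.exp (-|x|)) * (z0 * (7 / 2) * gb A m) := by
            refine integral_mono (hint m).norm ((int_e.const_mul (A / (r / 2))).mul_const _) fun x => ?_
            simp only
            rw [norm_mul]
            refine mul_le_mul ?_ (dterm_le (hL v hv) m x) (norm_nonneg _) ?_
            · have := fam_deriv hL hd hr2 hcb x
              calc _ ≤ A * Real.exp (-|x|) / (r / 2) := this
                _ = _ := by ring
            · exact mul_nonneg (div_nonneg (Kc_nonneg (hL v hv)) hr2.le) (Real.exp_pos _).le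
        _ = _ := by
            rw [integral_mul_const, integral_const_mul]
            unfold E1
            ring
    have hs3 := hasSum_integral_of_summable_integral_norm hint hsn
    rw [hs2.unique hs3]
    refine integral_congr_ae (Eventually.of_forall fun x => ?_)
    simp only
    rw [tsum_mul_left]
    rfl
  rw [e] at hda
  exact hda

/-- **the gas functional is of class `FunC`** -/
theorem funC_gas : FunC gas where
  seq := fun A L L0 hL _ h => gas_seq A L L0 hL h
  bdd := gas_bdd
  grad := ⟨Dg, fun A => ⟨∑' m, z0 * (7 / 2) * gb A m, fun L hL => ⟨(Dg_cont hL).measurable, Dg_le hL⟩⟩,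
    fun A U L hU hL hd v hv => gas_grad hU hL hd hv⟩

end DRX

end
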