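import Pool.Agent.DRX.GasB

/-!
# The gas functional on the classes `K(A)`, part 3: (A2), independence of the line
-/

set_option autoImplicit false

noncomputable section

open Complex MeasureTheory Filter Topology Finset

namespace DRX

open DUA

/-- the Pfaffian depends on differences only -/
theorem pf_trans (a : ℂ → ℂ) (s : ℂ) : ∀ (n : ℕ) (l : List ℂ), l.length = n → pf a (l.map (· + s)) = pf a l := by
  intro n
  induction n using Nat.strong_induction_on with
  | _ n ih =>
    intro l hl
    match l, hl with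
    | [], _ => simp
    | x :: l, hl =>
      rw [List.map_cons, pf, pf]
      have hlen : (l.map (· + s)).length = l.length := List.length_map _
      rw [← Equiv.sum_comp (finCongr hlen)]
      refine Finset.sum_congr rfl fun i _ => ?_
      have h1 : (l.map (· + s)).get i = l.get (finCongr hlen i) + s := by
        simp
      have h2 : (l.map (· + s)).eraseIdx i = (l.eraseIdx (finCongr hlen i)).map (· + s) := by
        simp [List.eraseIdx_map]
      rw [h1, h2, ih (l.eraseIdx (finCongr hlen i)).length ?_ _ rfl]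
      · simp
      · simp only [List.length_cons] at hl
        rw [List.length_eraseIdx_of_lt (finCongr hlen i).2]
        omega

theorem prs_trans (s : ℝ) : ∀ l : List ℝ, prs (l.map (· + s)) = (prs l).map (· + (s : ℂ)) := by
  intro l
  induction l with
  | nil => rfl
  | cons a l ih =>
    simp only [List.map_cons, prs, ih]
    congr 1
    · push_cast; ring
    · congr 1
      push_cast; ring

theorem rho_trans (m : ℕ) (θ : Fin m → ℝ) (s : ℝ) : rho m (fun i => θ i + s) = rho m θ := by
  unfold rho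
  rw [show List.ofFn (fun i => θ i + s) = (List.ofFn θ).map (· + s) from by rw [List.map_ofFn]; rfl, prs_trans,
    pf_trans p (s : ℂ) _ _ rfl]

/-- the shear `(s, x) ↦ (s, x + s)` preserves the measure -/
theorem shear_mp (m : ℕ) : MeasurePreserving (fun q : ℝ × (Fin m → ℝ) => (q.1, fun k => q.2 k + q.1))
    ((volume : Measure ℝ).prod volume) ((volume : Measure ℝ).prod volume) := by
  refine MeasurePreserving.skew_product (f := id) (g := fun (s : ℝ) (x : Fin m → ℝ) k => x k + s)
    (MeasurePreserving.id _) ?_ (Eventually.of_forall fun s => ?_)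
  · refine measurable_pi_lambda _ fun k => ?_
    exact ((measurable_pi_apply k).comp measurable_snd).add measurable_fst
  · exact (measurePreserving_add_right (volume : Measure (Fin m → ℝ)) (fun _ => s)).map_eq

/-- one term as an integral over differences -/
theorem gterm_shear {A : ℝ} {L : ℝ → ℂ} (hL : L ∈ Kc A) (m : ℕ) :
    ∫ θ : Fin (m + 1) → ℝ, (∏ i, gg L (θ i)) * rho (m + 1) θ =
      ∫ x : Fin m → ℝ, rho (m + 1) (Fin.cons 0 x) * ∫ s : ℝ, gg L s * ∏ k, gg L (x k + s) := by
  set F : ℝ × (Fin m → ℝ) → ℂ := fun q => (gg L q.1 * ∏ k, gg L (q.2 k)) * rho (m + 1) (Fin.cons q.1 q.2) with hF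
  have hFc : Continuous F := by
    rw [hF]
    exact (((gg_cont hL).comp continuous_fst).mul ((prod_cont hL m).comp continuous_snd)).mul
      ((rho_co (m + 1)).comp (cons_cont m))
  have hFi : Integrable F (volume.prod volume) := by
    have hmaj : Integrable (fun q : ℝ × (Fin m → ℝ) => (z0 * A * Real.exp (-|q.1|)) * (GM A m q.2 * (7 / 2) ^ (m + 1)))
        (volume.prod volume) := (int_e.const_mul _).mul_prod ((GM_int A m).mul_const _)
    refine hmaj.mono' hFc.aestronglyMeasurable (Eventually.of_forall fun q => ?_)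
    rw [hF]
    simp only
    rw [norm_mul, norm_mul, mul_assoc]
    refine mul_le_mul (gg_le hL _) ?_ (by positivity)
      (mul_nonneg (mul_nonneg z0_pos.le (Kc_nonneg hL)) (Real.exp_pos _).le)
    exact mul_le_mul (prod_le hL m q.2) (rho_bd _ _) (norm_nonneg _) (GM_nonneg (Kc_nonneg hL) m _)
  have hsh := shear_mp m
  have e1 : ∫ θ : Fin (m + 1) → ℝ, (∏ i, gg L (θ i)) * rho (m + 1) θ = ∫ q, F q ∂(volume.prod volume) := by
    have hmp := volume_preserving_piFinSuccAbove (fun _ : Fin (m + 1) => ℝ) 0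
    have he : ∀ θ : Fin (m + 1) → ℝ, (∏ i, gg L (θ i)) * rho (m + 1) θ =
        F (MeasurableEquiv.piFinSuccAbove (fun _ => ℝ) 0 θ) := by
      intro θ
      have e1 : (MeasurableEquiv.piFinSuccAbove (fun _ => ℝ) (0 : Fin (m + 1)) θ).1 = θ 0 := rfl
      have e2 : (MeasurableEquiv.piFinSuccAbove (fun _ => ℝ) (0 : Fin (m + 1)) θ).2 = fun k => θ k.succ := rfl
      rw [hF]
      simp only
      rw [e1, e2, Fin.prod_univ_succ]
      congr 2
      exact (Fin.cons_self_tail θ).symm
    rw [integral_congr_ae (Eventually.of_forall he)]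
    exact hmp.integral_comp' (g := F)
  have e2 : ∫ q, F q ∂(volume.prod volume) =
      ∫ q : ℝ × (Fin m → ℝ), F (q.1, fun k => q.2 k + q.1) ∂(volume.prod volume) := by
    have h := integral_map (μ := (volume : Measure ℝ).prod (volume : Measure (Fin m → ℝ)))
      hsh.measurable.aemeasurable (f := F) (by rw [hsh.map_eq]; exact hFi.aestronglyMeasurable)
    rw [hsh.map_eq] at h
    exact h
  have hFi2 : Integrable (fun q : ℝ × (Fin m → ℝ) => F (q.1, fun k => q.2 k + q.1)) (volume.prod volume) := by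
    have := (integrable_map_measure (μ := (volume : Measure ℝ).prod (volume : Measure (Fin m → ℝ)))
      (f := fun q : ℝ × (Fin m → ℝ) => (q.1, fun k => q.2 k + q.1)) (g := F)
      (by rw [hsh.map_eq]; exact hFi.aestronglyMeasurable) hsh.measurable.aemeasurable).1
      (by rw [hsh.map_eq]; exact hFi)
    exact this
  rw [e1, e2, integral_prod_symm _ hFi2]
  refine integral_congr_ae (Eventually.of_forall fun x => ?_)
  simp only [hF]
  rw [← integral_const_mul]
  refine integral_congr_ae (Eventually.of_forall fun s => ?_)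
  simp only
  have h3 : rho (m + 1) (Fin.cons s fun k => x k + s) = rho (m + 1) (Fin.cons 0 x) := by
    rw [← rho_trans (m + 1) (Fin.cons 0 x) s]
    congr 1
    funext i
    refine Fin.cases ?_ (fun j => ?_) i
    · simp
    · simp
  rw [h3]
  ring

/-- the shift of one product -/
theorem prod_shift {c c' A : ℝ} {L : ℂ → ℂ} (hcc : c ≤ c') (hA : 0 ≤ A)
    (hc : ContinuousOn L {z | c ≤ z.im ∧ z.im ≤ c'})
    (hd : ∀ z : ℂ, c < z.im → z.im < c' → DifferentiableAt ℂ L z)
    (hb : ∀ z : ℂ, c ≤ z.im → z.im ≤ c' → ‖L z - 1‖ ≤ A * Real.exp (-|z.re|)) (m : ℕ) (x : Fin m → ℝ) :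
    ∫ s : ℝ, gg (fun y => L (ln c y)) s * ∏ k, gg (fun y => L (ln c y)) (x k + s) =
      ∫ s : ℝ, gg (fun y => L (ln c' y)) s * ∏ k, gg (fun y => L (ln c' y)) (x k + s) := by
  set G : ℂ → ℂ := fun z => -(z0 : ℂ) * (L z - 1) with hG
  set Φ : ℂ → ℂ := fun z => G (z + (c : ℂ) * I) * ∏ k, G ((x k : ℂ) + (z + (c : ℂ) * I)) with hΦ
  have hGb : ∀ z : ℂ, c ≤ z.im → z.im ≤ c' → ‖G z‖ ≤ z0 * A * Real.exp (-|z.re|) := by
    intro z h1 h2
    rw [hG]
    simp only
    rw [norm_mul, norm_neg, Complex.norm_real, Real.norm_of_nonneg z0_pos.le, mul_assoc]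
    exact mul_le_mul_of_nonneg_left (hb z h1 h2) z0_pos.le
  have hGc : ContinuousOn G {z | c ≤ z.im ∧ z.im ≤ c'} := by
    rw [hG]
    exact continuousOn_const.mul (hc.sub continuousOn_const)
  have hGd : ∀ z : ℂ, c < z.im → z.im < c' → DifferentiableAt ℂ G z := by
    intro z h1 h2
    rw [hG]
    exact ((hd z h1 h2).sub_const 1).const_mul _
  have him : ∀ (a : ℝ) (z : ℂ), ((a : ℂ) + (z + (c : ℂ) * I)).im = z.im + c := by
    intro a z; simp
  have him0 : ∀ z : ℂ, (z + (c : ℂ) * I).im = z.im + c := by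
    intro z; simp
  have key := hshift (Φ := Φ) (θ := c' - c) (C := z0 * A * (z0 * A) ^ m) (κ := 1) (by linarith) one_pos ?_ ?_ ?_
  · have h3 := key.2.2
    have e1 : ∀ s : ℝ, Φ s = gg (fun y => L (ln c y)) s * ∏ k, gg (fun y => L (ln c y)) (x k + s) := by
      intro s
      rw [hΦ]
      simp only
      rw [hG]
      unfold gg ln
      simp only
      congr 1
      refine Finset.prod_congr rfl fun k _ => ?_
      rw [show ((x k : ℂ) + ((s : ℂ) + (c : ℂ) * I)) = ((x k + s : ℝ) : ℂ) + (c : ℂ) * I by push_cast; ring]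
    have e2 : ∀ s : ℝ, Φ (s + ((c' - c : ℝ) : ℂ) * I) =
        gg (fun y => L (ln c' y)) s * ∏ k, gg (fun y => L (ln c' y)) (x k + s) := by
      intro s
      rw [hΦ]
      simp only
      rw [hG]
      unfold gg ln
      simp only
      rw [show (s : ℂ) + ((c' - c : ℝ) : ℂ) * I + (c : ℂ) * I = (s : ℂ) + (c' : ℂ) * I by push_cast; ring]
      congr 1
      refine Finset.prod_congr rfl fun k _ => ?_
      rw [show ((x k : ℂ) + ((s : ℂ) + (c' : ℂ) * I)) = ((x k + s : ℝ) : ℂ) + (c' : ℂ) * I by push_cast; ring]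
    rw [← integral_congr_ae (Eventually.of_forall e1), ← integral_congr_ae (Eventually.of_forall e2)]
    exact h3
  · rw [hΦ]
    refine ContinuousOn.mul ?_ (continuousOn_finsetProd _ fun k _ => ?_)
    · refine hGc.comp (by fun_prop) fun z hz => ?_
      rw [Set.mem_ofPred_eq, him0]
      exact ⟨by linarith [hz.1], by linarith [hz.2]⟩
    · refine hGc.comp (by fun_prop) fun z hz => ?_
      rw [Set.mem_ofPred_eq, him]
      exact ⟨by linarith [hz.1], by linarith [hz.2]⟩
  · intro z h1 h2
    rw [hΦ]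
    refine DifferentiableAt.mul ?_ (DifferentiableAt.fun_finsetProd fun k _ => ?_)
    · have h5 : DifferentiableAt ℂ (G ∘ fun z : ℂ => z + (c : ℂ) * I) z :=
        DifferentiableAt.comp z (hGd (z + (c : ℂ) * I) (by rw [him0]; linarith) (by rw [him0]; linarith))
          (by fun_prop)
      exact h5
    · have h5 : DifferentiableAt ℂ (G ∘ fun z : ℂ => (x k : ℂ) + (z + (c : ℂ) * I)) z :=
        DifferentiableAt.comp z (hGd ((x k : ℂ) + (z + (c : ℂ) * I)) (by rw [him]; linarith)
          (by rw [him]; linarith)) (by fun_prop)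
      exact h5
  · intro z h1 h2 _
    rw [hΦ]
    simp only
    rw [norm_mul, norm_prod]
    have h3 : ‖G (z + (c : ℂ) * I)‖ ≤ z0 * A * Real.exp (-|z.re|) := by
      have := hGb (z + (c : ℂ) * I) (by rw [him0]; linarith) (by rw [him0]; linarith)
      simpa using this
    have h4 : ∏ k, ‖G ((x k : ℂ) + (z + (c : ℂ) * I))‖ ≤ (z0 * A) ^ m := by
      calc _ ≤ ∏ _k : Fin m, z0 * A := by
            refine Finset.prod_le_prod (fun _ _ => norm_nonneg _) fun k _ => ?_
            refine (hGb _ (by rw [him]; linarith) (by rw [him]; linarith)).trans ?_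
            have : Real.exp (-|((x k : ℂ) + (z + (c : ℂ) * I)).re|) ≤ 1 := Real.exp_le_one_iff.2 (by simp)
            exact (mul_le_mul_of_nonneg_left this (mul_nonneg z0_pos.le hA)).trans (by rw [mul_one])
        _ = _ := by rw [Finset.prod_const, card_univ, Fintype.card_fin]
    calc _ ≤ (z0 * A * Real.exp (-|z.re|)) * (z0 * A) ^ m :=
          mul_le_mul h3 h4 (Finset.prod_nonneg fun _ _ => norm_nonneg _)
            (mul_nonneg (mul_nonneg z0_pos.le hA) (Real.exp_pos _).le)
      _ = _ := by rw [neg_one_mul]; ring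

/-- **(A2) for the gas** -/
theorem gas_shift {c c' A : ℝ} {L : ℂ → ℂ} (hcc : c ≤ c')
    (hc : ContinuousOn L {z | c ≤ z.im ∧ z.im ≤ c'})
    (hd : ∀ z : ℂ, c < z.im → z.im < c' → DifferentiableAt ℂ L z)
    (hb : ∀ z : ℂ, c ≤ z.im → z.im ≤ c' → ‖L z - 1‖ ≤ A * Real.exp (-|z.re|)) :
    gas (fun x => L (ln c x)) = gas (fun x => L (ln c' x)) := by
  have hmem : ∀ a, c ≤ a → a ≤ c' → (fun x => L (ln a x)) ∈ Kc A := by
    intro a h1 h2
    refine ⟨?_, fun x => ?_⟩
    · refine hc.comp_continuous (by unfold ln; fun_prop) fun x => ?_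
      rw [Set.mem_ofPred_eq]
      unfold ln
      simp [h1, h2]
    · have := hb (ln a x) (by unfold ln; simpa using h1) (by unfold ln; simpa using h2)
      simpa [ln] using this
  have hA : 0 ≤ A := Kc_nonneg (hmem c le_rfl hcc)
  unfold gas
  refine tsum_congr fun m => ?_
  cases m with
  | zero => simp [gterm]
  | succ m =>
    rw [gterm_eq, gterm_eq, gterm_shear (hmem c le_rfl hcc), gterm_shear (hmem c' hcc le_rfl)]
    congr 1
    refine integral_congr_ae (Eventually.of_forall fun x => ?_)
    simp only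
    rw [prod_shift hcc hA hc hd hb m x]

end DRX

end
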