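import Pool.Agent.DRX.GasD

/-!
# The gradient of the gas functional is the gas functional with one pair of half rows

`Dg L s = -z₀ * gas (L * V (s - ·))`, `V (s - x) = τ (s + iπ/6 - x) τ (s - iπ/6 - x)`.
-/

set_option autoImplicit false

noncomputable section

open Complex MeasureTheory Filter Topology Finset

namespace DRX

open DUA

/-- the pair factor as a field -/
def Vf (s x : ℝ) : ℂ := (V (s - x) : ℂ)

theorem V_cont : Continuous V := by
  unfold V
  refine Continuous.mul (Continuous.pow ?_ 2) (Continuous.div ?_ ?_ fun x => ?_)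
  · simp only [Real.tanh_eq_sinh_div_cosh]
    exact (Real.continuous_sinh.comp (continuous_id.div_const 2)).div
      (Real.continuous_cosh.comp (continuous_id.div_const 2)) fun x => (Real.cosh_pos _).ne'
  · exact (continuous_const.mul Real.continuous_cosh).sub continuous_const
  · exact (continuous_const.mul Real.continuous_cosh).add continuous_const
  · have := Real.cosh_pos x
    positivity

theorem V_sub_le (s : ℝ) : |V s - 1| ≤ 6 * Real.exp (-|s|) := by
  have h := V_one_sub s
  have h1 := Real.one_le_cosh s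
  have h0 := V_le_one s
  rw [abs_sub_comm, abs_of_nonneg (by linarith), h]
  have hc : Real.exp |s| / 2 ≤ Real.cosh s := by
    rw [← Real.cosh_abs, Real.cosh_eq]
    have := Real.exp_pos (-|s|)
    linarith
  have hp : 0 < Real.cosh s := by linarith
  calc 6 * Real.cosh s / ((Real.cosh s + 1) * (2 * Real.cosh s + 1)) ≤ 3 / Real.cosh s := by
        rw [div_le_div_iff₀ (by positivity) hp]
        nlinarith
    _ ≤ 3 / (Real.exp |s| / 2) := div_le_div_of_nonneg_left (by norm_num) (by positivity) hc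
    _ = 6 * Real.exp (-|s|) := by rw [Real.exp_neg]; field_simp; norm_num

theorem Vf_Kc (s : ℝ) : Vf s ∈ Kc (6 * Real.exp |s|) := by
  refine ⟨Complex.continuous_ofReal.comp (V_cont.comp (continuous_const.sub continuous_id)), fun x => ?_⟩
  unfold Vf
  rw [show ((V (s - x) : ℝ) : ℂ) - 1 = ((V (s - x) - 1 : ℝ) : ℂ) by push_cast; ring, Complex.norm_real,
    Real.norm_eq_abs]
  refine (V_sub_le _).trans ?_
  rw [mul_assoc, ← Real.exp_add]
  refine mul_le_mul_of_nonneg_left (Real.exp_le_exp.2 ?_) (by norm_num)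
  have := abs_sub_abs_le_abs_sub x s
  rw [abs_sub_comm] at this
  linarith

theorem kc_ew {A : ℝ} {L : ℝ → ℂ} (hL : L ∈ Kc A) (x : ℝ) : ‖L x - 1‖ ≤ A * ew 0 x := by
  have := hL.2 x
  unfold ew
  rwa [zero_sub, abs_neg]

/-- the grid ratio with one pair inserted -/
theorem Z_ins (n : ℕ) (L : ℝ → ℂ) (s : ℝ) :
    Z V (Gd n) (fun x => kap n * (L x * Vf s x)) / Z V (Gd n) (fun _ => kap n) =
      ∑ S ∈ (Gd n).powerset, (∏ i ∈ S, kap n * (L i - 1)) * RR n (s :: S.toList) := by
  classical
  have e0 : (fun x => kap n * (L x * Vf s x)) = fun x => kap n * Vf s x + (kap n * (L x - 1)) * Vf s x := by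
    funext x; ring
  rw [e0, Z_add V_even V_zero, sum_div]
  refine sum_congr rfl fun S _ => ?_
  by_cases hs : s ∈ S
  · have h1 : ∏ i ∈ S, (kap n * (L i - 1)) * Vf s i = 0 := by
      refine prod_eq_zero hs ?_
      unfold Vf
      rw [sub_self, V_zero]
      simp
    rw [h1, RR_zero n fun h => (List.nodup_cons.1 h).1 (Finset.mem_toList.2 hs)]
    simp
  · have hn : (s :: S.toList).Nodup := List.nodup_cons.2 ⟨fun h => hs (Finset.mem_toList.1 h), S.nodup_toList⟩
    rw [RR_eq n hn, List.toFinset_cons, toList_toFinset]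
    unfold rr
    rw [pV_insert V_even hs, prod_mul_distrib]
    have h2 : (fun b => kap n * Vf s b * (VT V S b : ℂ)) = fun b => kap n * (VT V (insert s S) b : ℂ) := by
      funext b
      rw [VT_insert V hs]
      unfold Vf
      push_cast
      ring
    have h3 : ∏ i ∈ S, Vf s i = (VT V S s : ℂ) := by
      unfold Vf VT
      rw [Complex.ofReal_prod]
      refine prod_congr rfl fun i _ => ?_
      rw [← V_even (s - i), neg_sub]
    rw [h2, h3]
    push_cast
    ring

/-- the series of the field with one pair -/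
theorem gas_ins {A : ℝ} {L : ℝ → ℂ} (hL : L ∈ Kc A) (s : ℝ) :
    gas (fun x => L x * Vf s x) = ∑' m, (1 / (m.factorial : ℂ)) *
      ∫ θ : Fin m → ℝ, (∏ i, gg L (θ i)) * rho (m + 1) (Fin.cons s θ) := by
  classical
  have hz := z0_pos
  have hA := Kc_nonneg hL
  have hK := Kc_mul2 hL (Vf_Kc s)
  have hl1 := (gas_series hK.1 (Kc_nonneg hK) (kc_ew hK)).2.2.2
  have hgA : ∀ x, ‖gg L x‖ ≤ (z0 * A) * ew 0 x := by
    intro x
    have := gg_le hL x
    unfold ew
    rwa [zero_sub, abs_neg]
  set R : (m : ℕ) → ℕ → (Fin m → ℝ) → ℂ := fun m n θ => if 20 ≤ n then RR n (s :: List.ofFn θ) else 0 with hR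
  have hRle : ∀ m n θ, ‖R m n θ‖ ≤ (7 / 2) ^ (m + 1) := by
    intro m n θ
    rw [hR]
    simp only
    split_ifs with hn
    · have := RR_le hn (s :: List.ofFn θ)
      rwa [List.length_cons, List.length_ofFn] at this
    · rw [norm_zero]; positivity
  have hRlim : ∀ m (θ : Fin m → ℝ) (u : ℕ → Fin m → ℝ), Tendsto u atTop (𝓝 θ) →
      Tendsto (fun n => R m n (u n)) atTop (𝓝 (rho (m + 1) (Fin.cons s θ))) := by
    intro m θ u hu
    have h1 := RR_clim kerH pfrS (m := m + 1) (Fin.cons s θ) (fun n => Fin.cons s (u n))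
      (((cons_cont m).comp (continuous_const.prodMk continuous_id)).tendsto θ |>.comp hu)
    refine h1.congr' ?_
    filter_upwards [eventually_ge_atTop 20] with n hn
    rw [hR]
    simp only
    rw [if_pos hn]
    congr 1
    rw [List.ofFn_cons]
  set T : ℕ → ℕ → ℂ := fun n m => (1 / (m.factorial : ℂ)) *
    ∑ θ ∈ Fintype.piFinset (fun _ : Fin m => Gd n), (∏ i, (((1 / (n : ℝ) : ℝ) : ℂ) * gg L (θ i))) * R m n θ with hT
  have hTb : ∀ n m, ‖T n m‖ ≤ (7 / 2) * ((6 * (z0 * A) * (7 / 2)) ^ m / m.factorial) := by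
    intro n m
    rw [hT]
    simp only
    rw [norm_mul, norm_div, norm_one, Complex.norm_natCast, one_div_mul_eq_div, ← mul_div_assoc]
    refine div_le_div_of_nonneg_right ?_ (by positivity)
    by_cases hn : 20 ≤ n
    swap
    · have e : ∀ θ ∈ Fintype.piFinset (fun _ : Fin m => Gd n),
          (∏ i, (((1 / (n : ℝ) : ℝ) : ℂ) * gg L (θ i))) * R m n θ = 0 := by
        intro θ _
        rw [hR]
        simp only
        rw [if_neg hn, mul_zero]
      rw [sum_congr rfl e, sum_const_zero, norm_zero]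
      positivity
    refine (norm_sum_le _ _).trans ?_
    have h1 : ∀ θ ∈ Fintype.piFinset (fun _ : Fin m => Gd n),
        ‖(∏ i, (((1 / (n : ℝ) : ℝ) : ℂ) * gg L (θ i))) * R m n θ‖ ≤
          (∏ i, (1 / (n : ℝ) * ‖gg L (θ i)‖)) * (7 / 2) ^ (m + 1) := by
      intro θ _
      rw [norm_mul, norm_prod]
      refine mul_le_mul (le_of_eq (prod_congr rfl fun i _ => ?_)) (hRle m n θ) (norm_nonneg _)
        (prod_nonneg fun i _ => by positivity)
      rw [norm_mul, Complex.norm_real, Real.norm_of_nonneg (by positivity)]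
    refine (sum_le_sum h1).trans ?_
    rw [← Finset.sum_mul, Finset.sum_prod_piFinset (Gd n) (fun _ x => 1 / (n : ℝ) * ‖gg L x‖), prod_const, card_univ,
      Fintype.card_fin, pow_succ, ← mul_assoc, ← mul_pow, mul_comm (7 / 2 : ℝ)]
    refine mul_le_mul_of_nonneg_right (pow_le_pow_left₀ (mul_nonneg (sum_nonneg fun _ _ => by positivity)
      (by norm_num)) ?_ m) (by norm_num)
    refine mul_le_mul_of_nonneg_right ?_ (by norm_num)
    have h2 : ∀ x ∈ Gd n, 1 / (n : ℝ) * ‖gg L x‖ ≤ z0 * A * (1 / (n : ℝ) * ew 0 x) := by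
      intro x _
      calc 1 / (n : ℝ) * ‖gg L x‖ ≤ 1 / (n : ℝ) * (z0 * A * ew 0 x) := mul_le_mul_of_nonneg_left (hgA x) (by positivity)
        _ = _ := by ring
    refine (sum_le_sum h2).trans ?_
    rw [← Finset.mul_sum, mul_comm 6]
    exact mul_le_mul_of_nonneg_left (gsum_ew (by omega) 0) (by positivity)
  have hl : ∀ m, Tendsto (fun n => T n m) atTop (𝓝 ((1 / (m.factorial : ℂ)) *
      ∫ θ : Fin m → ℝ, (∏ i, gg L (θ i)) * rho (m + 1) (Fin.cons s θ))) := by
    intro m
    have := (riem_multi m (gg_cont hL) hgA (hRle m) (hRlim m)).2.2.2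
    exact this.const_mul _
  have hM : Tendsto (fun n : ℕ => 2 * n ^ 2) atTop atTop := by
    refine tendsto_atTop_mono (fun n => ?_) tendsto_id
    show n ≤ 2 * n ^ 2
    nlinarith [Nat.zero_le n, sq_nonneg n]
  have hser : Tendsto (fun n => ∑ m ∈ Finset.range (2 * n ^ 2 + 1), T n m) atTop (𝓝 (∑' m, (1 / (m.factorial : ℂ)) *
      ∫ θ : Fin m → ℝ, (∏ i, gg L (θ i)) * rho (m + 1) (Fin.cons s θ))) := by
    have h1 := series_lim (T := fun n m => (2 / 7 : ℂ) * T n m) (C := 6 * (z0 * A) * (7 / 2)) (fun n m => ?_)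
      (fun m => (hl m).const_mul (2 / 7 : ℂ)) hM
    · have h2 := h1.2.2.const_mul (7 / 2 : ℂ)
      rw [← tsum_mul_left] at h2
      refine (h2.congr fun n => ?_).trans (le_of_eq ?_)
      · rw [Finset.mul_sum]
        exact sum_congr rfl fun m _ => by ring
      · congr 1
        exact tsum_congr fun m => by ring
    · rw [norm_mul]
      have := hTb n m
      have e : ‖(2 / 7 : ℂ)‖ = 2 / 7 := by norm_num
      rw [e]
      linarith
  refine tendsto_nhds_unique hl1 (hser.congr' ?_)
  filter_upwards [eventually_ge_atTop 20] with n hn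
  rw [Z_ins n L s]
  have e1 : ∀ S ∈ (Gd n).powerset, (∏ i ∈ S, kap n * (L i - 1)) * RR n (s :: S.toList) =
      (∏ i ∈ S, (((1 / (n : ℝ) : ℝ) : ℂ) * gg L i)) * RR n (s :: S.toList) := by
    intro S _
    congr 1
    refine prod_congr rfl fun i _ => ?_
    unfold kap gg
    push_cast
    ring
  have hcard : (Gd n).card ≤ 2 * n ^ 2 := by
    unfold Gd
    exact card_image_le.trans (by rw [card_range])
  rw [sum_congr rfl e1, sum_sets (R := fun l => RR n (s :: l)) (fun l l' h => RR_perm n (h.cons s))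
    (fun l h => RR_zero n fun h2 => h (List.nodup_cons.1 h2).2) hcard]
  refine sum_congr rfl fun m _ => ?_
  rw [hT]
  simp only
  rw [hR]
  simp only [if_pos hn]

/-- **the gradient is the functional with one pair of half rows** -/
theorem Dg_eq {A : ℝ} {L : ℝ → ℂ} (hL : L ∈ Kc A) (s : ℝ) :
    Dg L s = -(z0 : ℂ) * gas (fun x => L x * Vf s x) := by
  rw [gas_ins hL s]
  unfold Dg dterm
  rw [← tsum_mul_left]
  exact tsum_congr fun m => by ring

/-- the pair factor on the line is the field of the pair of half rows -/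
theorem Vf_Lam (s x : ℝ) : Vf s x = Lam [(s : ℂ) + a6, (s : ℂ) - a6] (x : ℂ) := by
  unfold Vf Lam
  rw [V_tau]
  simp only [List.map_cons, List.map_nil, List.prod_cons, List.prod_nil, mul_one]
  push_cast
  rw [show (s : ℂ) - x + a6 = s + a6 - x by ring, show (s : ℂ) - x - a6 = s - a6 - x by ring]

end DRX

end
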