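import Pool.Agent.DRX.Comm

/-!
# DUAL-R, exact side (helper2): a parameter in the operators

`HZ U K G`: `G z X Y` is continuous in all variables, holomorphic in `z ∈ U`, bounded on lists of fixed lengths in `K`.

* `HZ.aop`, `HZ.wopX`, `HZ.wopY`: this class is stable under the operators with weights that depend on `z`;
* `Wop_congr`, `Wop_sh` (translation).
-/

set_option autoImplicit false

noncomputable section

open Complex MeasureTheory Filter Topology

namespace DRX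

open DUA DUA.Pf

/-! ### a parameter integral -/

/-- integrals of holomorphic functions with an integrable bound are holomorphic -/
lemma diff_param {α : Type*} [MeasurableSpace α] {μ : Measure α} {U : Set ℂ} (hU : IsOpen U) {f : ℂ → α → ℂ}
    {B : α → ℝ} (hB : Integrable B μ) (hm : ∀ z ∈ U, AEStronglyMeasurable (f z) μ)
    (hd : ∀ a, DifferentiableOn ℂ (fun z => f z a) U) (hb : ∀ z ∈ U, ∀ a, ‖f z a‖ ≤ B a) :
    DifferentiableOn ℂ (fun z => ∫ a, f z a ∂μ) U := by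
  intro z0 hz0
  obtain ⟨ρ, hρ, hρU⟩ := Metric.isOpen_iff.1 hU z0 hz0
  have hρ2 : 0 < ρ / 2 := by positivity
  have hball : ∀ z ∈ Metric.ball z0 (ρ / 2), Metric.closedBall z (ρ / 4) ⊆ U := by
    intro z hz x hx
    refine hρU ?_
    rw [Metric.mem_ball] at hz ⊢
    rw [Metric.mem_closedBall] at hx
    calc dist x z0 ≤ dist x z + dist z z0 := dist_triangle _ _ _
      _ < ρ := by linarith
  have hder : ∀ a, ∀ z ∈ Metric.ball z0 (ρ / 2), HasDerivAt (fun z => f z a) (deriv (fun z => f z a) z) z := by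
    intro a z hz
    have hzU : z ∈ U := hball z hz (Metric.mem_closedBall_self (by positivity))
    exact ((hd a z hzU).differentiableAt (hU.mem_nhds hzU)).hasDerivAt
  have hbd : ∀ a, ∀ z ∈ Metric.ball z0 (ρ / 2), ‖deriv (fun z => f z a) z‖ ≤ B a / (ρ / 4) := by
    intro a z hz
    refine Complex.norm_deriv_le_of_forall_mem_sphere_norm_le (by positivity) ?_ ?_
    · refine DifferentiableOn.diffContOnCl ?_
      refine (hd a).mono ?_
      rw [closure_ball z (by positivity)]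
      exact hball z hz
    · intro x hx
      exact hb x (hball z hz (Metric.sphere_subset_closedBall hx)) a
  have hz0b : z0 ∈ Metric.ball z0 (ρ / 2) := Metric.mem_ball_self hρ2
  have hmeas' : AEStronglyMeasurable (fun a => deriv (fun z => f z a) z0) μ := by
    have hlim : ∀ a, Tendsto (fun n : ℕ => ((ρ / 4 : ℝ) * (1 / ((n : ℝ) + 1)) : ℂ)⁻¹ *
        (f (z0 + ((ρ / 4 : ℝ) * (1 / ((n : ℝ) + 1)) : ℂ)) a - f z0 a)) atTop (𝓝 (deriv (fun z => f z a) z0)) := by
      intro a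
      have h1 := (hder a z0 hz0b).tendsto_slope_zero
      have h2 : Tendsto (fun n : ℕ => ((ρ / 4 : ℝ) * (1 / ((n : ℝ) + 1)) : ℂ)) atTop (𝓝[≠] 0) := by
        refine tendsto_nhdsWithin_iff.2 ⟨?_, Eventually.of_forall fun n => ?_⟩
        · have h3 : Tendsto (fun n : ℕ => ((ρ / 4) * (1 / ((n : ℝ) + 1)) : ℝ)) atTop (𝓝 0) := by
            have := tendsto_one_div_add_atTop_nhds_zero_nat (𝕜 := ℝ)
            simpa using this.const_mul (ρ / 4)
          have h4 := (Complex.continuous_ofReal.tendsto 0).comp h3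
          rw [Complex.ofReal_zero] at h4
          refine h4.congr fun n => ?_
          simp
        · have h5 : (0 : ℝ) < ρ / 4 * (1 / ((n : ℝ) + 1)) := by positivity
          have h6 : ((ρ / 4 : ℝ) * (1 / ((n : ℝ) + 1)) : ℂ) = ((ρ / 4 * (1 / ((n : ℝ) + 1)) : ℝ) : ℂ) := by
            push_cast
            ring
          rw [Set.mem_compl_iff, Set.mem_singleton_iff, h6, Complex.ofReal_eq_zero]
          exact h5.ne'
      refine (h1.comp h2).congr fun n => ?_
      simp only [Function.comp, smul_eq_mul]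
    refine aestronglyMeasurable_of_tendsto_ae atTop (fun n => ?_) (ae_of_all _ hlim)
    have hin : z0 + ((ρ / 4 : ℝ) * (1 / ((n : ℝ) + 1)) : ℂ) ∈ U := by
      refine hball z0 hz0b ?_
      rw [Metric.mem_closedBall, dist_eq_norm, add_sub_cancel_left]
      have h6 : ((ρ / 4 : ℝ) * (1 / ((n : ℝ) + 1)) : ℂ) = ((ρ / 4 * (1 / ((n : ℝ) + 1)) : ℝ) : ℂ) := by
        push_cast
        ring
      rw [h6, Complex.norm_real, Real.norm_of_nonneg (by positivity)]
      have h7 : 1 / ((n : ℝ) + 1) ≤ 1 := by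
        rw [div_le_one (by positivity)]
        have : (0 : ℝ) ≤ n := Nat.cast_nonneg n
        linarith
      calc ρ / 4 * (1 / ((n : ℝ) + 1)) ≤ ρ / 4 * 1 := by gcongr
        _ = ρ / 4 := mul_one _
    exact (((hm _ hin).sub (hm z0 (hρU (Metric.mem_ball_self hρ)))).const_mul _)
  have hmain := hasDerivAt_integral_of_dominated_loc_of_deriv_le (μ := μ) (𝕜 := ℂ) (F := f)
    (F' := fun z a => deriv (fun z => f z a) z) (x₀ := z0) (s := Metric.ball z0 (ρ / 2)) (bound := fun a => B a / (ρ / 4))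
    (Metric.ball_mem_nhds z0 hρ2) ?_ ?_ hmeas' ?_ ?_ ?_
  · exact hmain.2.differentiableAt.differentiableWithinAt
  · filter_upwards [hU.mem_nhds hz0] with z hz
    exact hm z hz
  · exact hB.mono' (hm z0 hz0) (ae_of_all _ fun a => hb z0 hz0 a)
  · exact ae_of_all _ fun a z hz => hbd a z hz
  · exact hB.div_const _
  · exact ae_of_all _ fun a z hz => hder a z hz

/-! ### strands -/

/-- shorthand: the far row -/
def hz_fp (r : Fin 3 → ℝ) (e0 : ℝ) (i : Fin 3) (p : ℝ × ℝ) : ℂ := vp r i p.1 + ip + circleMap 0 e0 p.2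

lemma st_ofFn (r : Fin 3 → ℝ) (e0 : ℝ) (i : Fin 3) (p : ℝ × ℝ) {n : ℕ} (x : Fin n → ℂ) :
    st r e0 i p (List.ofFn x) = List.ofFn (Fin.cons (vp r i p.1) (Fin.cons (hz_fp r e0 i p) x : Fin (n + 1) → ℂ) :
      Fin (n + 2) → ℂ) := by
  rw [List.ofFn_cons, List.ofFn_cons]
  rfl

lemma hz_st_in {K : Set ℂ} {r : Fin 3 → ℝ} {e0 : ℝ} (hs : StIn K r e0) (i : Fin 3) (p : ℝ × ℝ) {L : List ℂ} (hL : In K L) :
    In K (st r e0 i p L) := by
  intro v hv
  unfold st at hv
  rcases List.mem_cons.1 hv with h | h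
  · rw [h]
    exact (hs i p.1 p.2).1
  · rcases List.mem_cons.1 h with h | h
    · rw [h]
      exact (hs i p.1 p.2).2
    · exact hL v h

lemma hz_in_ofFn {K : Set ℂ} {n : ℕ} {x : Fin n → ℂ} : In K (List.ofFn x) ↔ ∀ i, x i ∈ K := by
  unfold In
  simp only [List.mem_ofFn]
  constructor
  · intro h i
    exact h _ ⟨i, rfl⟩
  · rintro h v ⟨i, rfl⟩
    exact h i

lemma hz_cont_vp (r : Fin 3 → ℝ) (i : Fin 3) : Continuous fun p : ℝ × ℝ => vp r i p.1 := by
  unfold vp ln
  fun_prop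

lemma hz_cont_fp (r : Fin 3 → ℝ) (e0 : ℝ) (i : Fin 3) : Continuous fun p : ℝ × ℝ => hz_fp r e0 i p := by
  unfold hz_fp
  exact ((hz_cont_vp r i).add continuous_const).add ((continuous_circleMap 0 e0).comp continuous_snd)

lemma hz_cont_cons {α : Type*} [TopologicalSpace α] {n : ℕ} {a : α → ℂ} {x : α → Fin n → ℂ} (ha : Continuous a)
    (hx : Continuous x) : Continuous fun q => (Fin.cons (a q) (x q) : Fin (n + 1) → ℂ) := by
  refine continuous_pi fun i => ?_
  refine Fin.cases ?_ (fun j => ?_) i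
  · simpa using ha
  · simpa [Function.comp_def] using (continuous_apply j).comp hx

lemma hz_cons_in {K : Set ℂ} {n : ℕ} {a : ℂ} {x : Fin n → ℂ} (ha : a ∈ K) (hx : ∀ i, x i ∈ K) :
    ∀ i, (Fin.cons a x : Fin (n + 1) → ℂ) i ∈ K := by
  intro i
  refine Fin.cases ?_ (fun j => ?_) i
  · simpa using ha
  · simpa using hx j

/-! ### the class -/

/-- functions of a parameter and two lists -/
structure HZ (U K : Set ℂ) (G : ℂ → List ℂ → List ℂ → ℂ) : Prop where
  /-- continuity -/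
  cont : ∀ p q : ℕ, ContinuousOn (fun z : ℂ × (Fin p → ℂ) × (Fin q → ℂ) => G z.1 (List.ofFn z.2.1) (List.ofFn z.2.2))
    {z | z.1 ∈ U ∧ (∀ i, z.2.1 i ∈ K) ∧ ∀ j, z.2.2 j ∈ K}
  /-- holomorphy -/
  diff : ∀ X Y, In K X → In K Y → DifferentiableOn ℂ (fun z => G z X Y) U
  /-- bound -/
  bdd : ∀ p q : ℕ, ∃ M : ℝ, ∀ z ∈ U, ∀ (x : Fin p → ℂ) (y : Fin q → ℂ), (∀ i, x i ∈ K) → (∀ j, y j ∈ K) →
    ‖G z (List.ofFn x) (List.ofFn y)‖ ≤ M

/-- weights with a parameter -/
structure FZ (U : Set ℂ) (r : Fin 3 → ℝ) (f : ℂ → ℂ → ℂ) : Prop where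
  /-- continuity -/
  cont : ∀ i, ContinuousOn (fun q : ℂ × ℝ => f q.1 (sp r i q.2)) {q | q.1 ∈ U}
  /-- holomorphy -/
  diff : ∀ i t, DifferentiableOn ℂ (fun z => f z (sp r i t)) U
  /-- decay -/
  bdd : ∃ W : ℝ, ∀ z ∈ U, ∀ i t, ‖f z (sp r i t)‖ ≤ W * Real.exp (-|t|)

lemma FZ.pow {U : Set ℂ} {r : Fin 3 → ℝ} {f : ℂ → ℂ → ℂ} (h : FZ U r f) (j : ℕ) :
    FZ U r fun z s => f z s ^ (j + 1) := by
  refine ⟨fun i => (h.cont i).pow _, fun i t => (h.diff i t).pow _, ?_⟩
  obtain ⟨W, hW⟩ := h.bdd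
  refine ⟨|W| ^ (j + 1), fun z hz i t => ?_⟩
  have h1 := hW z hz i t
  have h2 : W * Real.exp (-|t|) ≤ |W| * Real.exp (-|t|) := by
    gcongr
    exact le_abs_self W
  have h3 : Real.exp (-|t|) ^ (j + 1) ≤ Real.exp (-|t|) := by
    have h4 : Real.exp (-|t|) ≤ 1 := Real.exp_le_one_iff.2 (by simp)
    exact pow_le_of_le_one (Real.exp_pos _).le h4 (by omega)
  rw [norm_pow]
  calc ‖f z (sp r i t)‖ ^ (j + 1) ≤ (|W| * Real.exp (-|t|)) ^ (j + 1) := by
        gcongr
        exact h1.trans h2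
    _ = |W| ^ (j + 1) * Real.exp (-|t|) ^ (j + 1) := mul_pow _ _ _
    _ ≤ |W| ^ (j + 1) * Real.exp (-|t|) := by gcongr

lemma hz_int_exp : Integrable (fun p : ℝ × ℝ => Real.exp (-|p.1|)) m0 := by
  have h := int_exp_abs one_pos
  have h1 : Integrable (fun y : ℝ => Real.exp (-|y|)) := by simpa using h
  have : IsFiniteMeasure ((volume : Measure ℝ).restrict (Set.Ioc 0 (2 * Real.pi))) := by
    refine ⟨?_⟩
    rw [Measure.restrict_apply_univ, Real.volume_Ioc]
    exact ENNReal.ofReal_lt_top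
  exact h1.comp_fst _

/-- swap of the two lists -/
lemma HZ.flip {U K : Set ℂ} {G : ℂ → List ℂ → List ℂ → ℂ} (h : HZ U K G) : HZ U K fun z X Y => G z Y X := by
  refine ⟨fun p q => ?_, fun X Y hX hY => h.diff Y X hY hX, fun p q => ?_⟩
  · have h1 : ContinuousOn (fun z : ℂ × (Fin p → ℂ) × (Fin q → ℂ) => ((z.1, z.2.2, z.2.1) : ℂ × (Fin q → ℂ) × (Fin p → ℂ)))
        {z | z.1 ∈ U ∧ (∀ i, z.2.1 i ∈ K) ∧ ∀ j, z.2.2 j ∈ K} := by fun_prop
    exact (h.cont q p).comp h1 fun z hz => ⟨hz.1, hz.2.2, hz.2.1⟩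
  · obtain ⟨M, hM⟩ := h.bdd q p
    exact ⟨M, fun z hz x y hx hy => hM z hz y x hy hx⟩

/-- **the operator keeps the class** -/
theorem HZ.aop {U K : Set ℂ} {G : ℂ → List ℂ → List ℂ → ℂ} (h : HZ U K G) (hU : IsOpen U) {r : Fin 3 → ℝ} {e0 : ℝ}
    (he : 0 < e0) (hs : StIn K r e0) {f : ℂ → ℂ → ℂ} (hf : FZ U r f) :
    HZ U K fun z X Y => Aop r e0 (f z) (fun X' => G z X' Y) X := by
  obtain ⟨W, hW⟩ := hf.bdd
  -- the integrand
  have key : ∀ (p q : ℕ) (i : Fin 3), ∃ B : ℝ × ℝ → ℝ, Integrable B m0 ∧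
      (∀ z ∈ U, ∀ (x : Fin p → ℂ) (y : Fin q → ℂ), (∀ a, x a ∈ K) → (∀ b, y b ∈ K) → ∀ s : ℝ × ℝ,
        ‖f z (sp r i s.1) * (2 * Real.pi * circleMap 0 e0 s.2)⁻¹ * G z (st r e0 i s (List.ofFn x)) (List.ofFn y)‖ ≤ B s) := by
    intro p q i
    obtain ⟨M, hM⟩ := h.bdd (p + 2) q
    refine ⟨fun s => |W| * (2 * Real.pi * e0)⁻¹ * |M| * Real.exp (-|s.1|), ?_, fun z hz x y hx hy s => ?_⟩
    · exact hz_int_exp.const_mul _
    · have h1 := hM z hz (Fin.cons (vp r i s.1) (Fin.cons (hz_fp r e0 i s) x)) y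
        (hz_cons_in (hs i s.1 s.2).1 (hz_cons_in (hs i s.1 s.2).2 hx)) hy
      rw [← st_ofFn] at h1
      have h2 := hW z hz i s.1
      have h3 : ‖(2 * (Real.pi : ℂ) * circleMap 0 e0 s.2)⁻¹‖ = (2 * Real.pi * e0)⁻¹ := by
        rw [norm_inv, norm_mul, norm_mul, norm_circleMap_zero, Complex.norm_real, Real.norm_of_nonneg Real.pi_pos.le,
          abs_of_pos he]
        simp
      rw [norm_mul, norm_mul, h3]
      have h4 : ‖f z (sp r i s.1)‖ ≤ |W| * Real.exp (-|s.1|) :=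
        h2.trans (mul_le_mul_of_nonneg_right (le_abs_self W) (Real.exp_pos _).le)
      have h5 : ‖G z (st r e0 i s (List.ofFn x)) (List.ofFn y)‖ ≤ |M| := h1.trans (le_abs_self M)
      calc ‖f z (sp r i s.1)‖ * (2 * Real.pi * e0)⁻¹ * ‖G z (st r e0 i s (List.ofFn x)) (List.ofFn y)‖
          ≤ (|W| * Real.exp (-|s.1|)) * (2 * Real.pi * e0)⁻¹ * |M| := by gcongr
        _ = |W| * (2 * Real.pi * e0)⁻¹ * |M| * Real.exp (-|s.1|) := by ring
  have hcirc : Continuous fun s : ℝ × ℝ => (2 * (Real.pi : ℂ) * circleMap 0 e0 s.2)⁻¹ := by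
    refine Continuous.inv₀ ?_ fun s => ?_
    · exact continuous_const.mul ((continuous_circleMap 0 e0).comp continuous_snd)
    · refine mul_ne_zero (by simp [Real.pi_ne_zero]) ?_
      exact circleMap_ne_center he.ne'
  have hmeas : ∀ (p q : ℕ) (i : Fin 3), ∀ z ∈ U, ∀ (x : Fin p → ℂ) (y : Fin q → ℂ), (∀ a, x a ∈ K) → (∀ b, y b ∈ K) →
      AEStronglyMeasurable (fun s : ℝ × ℝ => f z (sp r i s.1) * (2 * Real.pi * circleMap 0 e0 s.2)⁻¹ *
        G z (st r e0 i s (List.ofFn x)) (List.ofFn y)) m0 := by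
    intro p q i z hz x y hx hy
    refine Continuous.aestronglyMeasurable ?_
    refine (Continuous.mul ?_ hcirc).mul ?_
    · exact (hf.cont i).comp_continuous (f := fun s : ℝ × ℝ => (z, s.1)) (by fun_prop) fun s => hz
    · have h1 := (h.cont (p + 2) q).comp_continuous (f := fun s : ℝ × ℝ => (z, ((Fin.cons (vp r i s.1)
        (Fin.cons (hz_fp r e0 i s) x : Fin (p + 1) → ℂ) : Fin (p + 2) → ℂ), y)))
        (continuous_const.prodMk ((hz_cont_cons (hz_cont_vp r i) (hz_cont_cons (hz_cont_fp r e0 i) continuous_const)).prodMk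
          continuous_const)) fun s => ⟨hz, hz_cons_in (hs i s.1 s.2).1 (hz_cons_in (hs i s.1 s.2).2 hx), hy⟩
      refine h1.congr fun s => ?_
      simp only [Function.comp, st_ofFn]
  refine ⟨fun p q => ?_, fun X Y hX hY => ?_, fun p q => ?_⟩
  · unfold Aop
    refine continuousOn_finsetSum _ fun i _ => ContinuousOn.mul continuousOn_const ?_
    obtain ⟨B, hB, hb⟩ := key p q i
    intro a ha
    refine continuousWithinAt_of_dominated (bound := B) ?_ ?_ hB ?_
    · refine eventually_nhdsWithin_of_forall fun z hz => ?_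
      exact hmeas p q i z.1 hz.1 z.2.1 z.2.2 hz.2.1 hz.2.2
    · refine eventually_nhdsWithin_of_forall fun z hz => ?_
      exact ae_of_all _ fun s => hb z.1 hz.1 z.2.1 z.2.2 hz.2.1 hz.2.2 s
    · refine ae_of_all _ fun s => ?_
      have c1 : ContinuousWithinAt (fun z : ℂ × (Fin p → ℂ) × (Fin q → ℂ) => f z.1 (sp r i s.1))
          {z | z.1 ∈ U ∧ (∀ i, z.2.1 i ∈ K) ∧ ∀ j, z.2.2 j ∈ K} a := by
        refine ((hf.cont i) (a.1, s.1) ha.1).comp (f := fun z : ℂ × (Fin p → ℂ) × (Fin q → ℂ) => (z.1, s.1)) ?_ fun z hz => hz.1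
        exact (by fun_prop : Continuous fun z : ℂ × (Fin p → ℂ) × (Fin q → ℂ) => (z.1, s.1)).continuousWithinAt
      have c2 : ContinuousWithinAt (fun z : ℂ × (Fin p → ℂ) × (Fin q → ℂ) => G z.1 (st r e0 i s (List.ofFn z.2.1))
          (List.ofFn z.2.2)) {z | z.1 ∈ U ∧ (∀ i, z.2.1 i ∈ K) ∧ ∀ j, z.2.2 j ∈ K} a := by
        have h1 : Continuous fun z : ℂ × (Fin p → ℂ) × (Fin q → ℂ) => (z.1, ((Fin.cons (vp r i s.1)
            (Fin.cons (hz_fp r e0 i s) z.2.1 : Fin (p + 1) → ℂ) : Fin (p + 2) → ℂ), z.2.2)) :=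
          continuous_fst.prodMk ((hz_cont_cons continuous_const (hz_cont_cons continuous_const
            (continuous_fst.comp continuous_snd))).prodMk (continuous_snd.comp continuous_snd))
        have h2 := ((h.cont (p + 2) q) _ ⟨ha.1, hz_cons_in (hs i s.1 s.2).1 (hz_cons_in (hs i s.1 s.2).2 ha.2.1), ha.2.2⟩).comp
          (f := fun z : ℂ × (Fin p → ℂ) × (Fin q → ℂ) => (z.1, ((Fin.cons (vp r i s.1)
            (Fin.cons (hz_fp r e0 i s) z.2.1 : Fin (p + 1) → ℂ) : Fin (p + 2) → ℂ), z.2.2)))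
          (s := {z | z.1 ∈ U ∧ (∀ i, z.2.1 i ∈ K) ∧ ∀ j, z.2.2 j ∈ K})
          (h1.continuousWithinAt (x := a))
          fun z hz => ⟨hz.1, hz_cons_in (hs i s.1 s.2).1 (hz_cons_in (hs i s.1 s.2).2 hz.2.1), hz.2.2⟩
        refine h2.congr (fun z _ => ?_) ?_
        · simp only [Function.comp, st_ofFn]
        · simp only [Function.comp, st_ofFn]
      exact (c1.mul continuousWithinAt_const).mul c2
  · have eX : List.ofFn (fun a : Fin X.length => X.get a) = X := List.ofFn_get X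
    have eY : List.ofFn (fun a : Fin Y.length => Y.get a) = Y := List.ofFn_get Y
    have hx : ∀ a, X.get a ∈ K := fun a => hX _ (List.get_mem X a)
    have hy : ∀ a, Y.get a ∈ K := fun a => hY _ (List.get_mem Y a)
    unfold Aop
    refine DifferentiableOn.fun_sum fun i _ => DifferentiableOn.const_mul ?_ _
    obtain ⟨B, hB, hb⟩ := key X.length Y.length i
    refine diff_param hU hB ?_ ?_ ?_
    · intro z hz
      have := hmeas X.length Y.length i z hz _ _ hx hy
      rwa [eX, eY] at this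
    · intro s
      refine ((hf.diff i s.1).mul (differentiableOn_const _)).mul ?_
      exact h.diff _ _ (hz_st_in hs i s hX) hY
    · intro z hz s
      have := hb z hz _ _ hx hy s
      rwa [eX, eY] at this
  · choose B hB hb using fun i => key p q i
    refine ⟨∑ i : Fin 3, ‖kc i‖ * ∫ s, B i s ∂m0, fun z hz x y hx hy => ?_⟩
    unfold Aop
    refine (norm_sum_le _ _).trans (Finset.sum_le_sum fun i _ => ?_)
    rw [norm_mul]
    refine mul_le_mul_of_nonneg_left ?_ (norm_nonneg _)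
    exact norm_integral_le_of_norm_le (hB i) (ae_of_all _ fun s => hb i z hz x y hx hy s)

lemma HZ.const_mul {U K : Set ℂ} {G : ℂ → List ℂ → List ℂ → ℂ} (h : HZ U K G) (c : ℂ) :
    HZ U K fun z X Y => c * G z X Y := by
  refine ⟨fun p q => (h.cont p q).const_mul c, fun X Y hX hY => (h.diff X Y hX hY).const_mul c, fun p q => ?_⟩
  obtain ⟨M, hM⟩ := h.bdd p q
  refine ⟨‖c‖ * M, fun z hz x y hx hy => ?_⟩
  rw [norm_mul]
  exact mul_le_mul_of_nonneg_left (hM z hz x y hx hy) (norm_nonneg _)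

lemma HZ.sum {U K : Set ℂ} {ι : Type*} (s : Finset ι) {G : ι → ℂ → List ℂ → List ℂ → ℂ} (h : ∀ i ∈ s, HZ U K (G i)) :
    HZ U K fun z X Y => ∑ i ∈ s, G i z X Y := by
  refine ⟨fun p q => continuousOn_finsetSum _ fun i hi => (h i hi).cont p q,
    fun X Y hX hY => DifferentiableOn.fun_sum fun i hi => (h i hi).diff X Y hX hY, fun p q => ?_⟩
  choose! M hM using fun i (hi : i ∈ s) => (h i hi).bdd p q
  refine ⟨∑ i ∈ s, M i, fun z hz x y hx hy => ?_⟩
  exact (norm_sum_le _ _).trans (Finset.sum_le_sum fun i hi => hM i hi z hz x y hx hy)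

/-- **the operators on the first list** -/
theorem HZ.wopX {U K : Set ℂ} {G : ℂ → List ℂ → List ℂ → ℂ} (h : HZ U K G) (hU : IsOpen U) {r : Fin 3 → ℝ} {e0 : ℝ}
    (he : 0 < e0) (hs : StIn K r e0) {f : ℂ → ℂ → ℂ} (hf : FZ U r f) :
    ∀ k, HZ U K fun z X Y => WX r e0 (f z) k (G z) X Y := by
  intro k
  induction k using Nat.strong_induction_on with
  | _ k ih =>
    rcases k with _ | k
    · simp only [WX, Wop_zero]
      exact h
    · simp only [WX, Wop_succ]
      refine HZ.const_mul (HZ.sum _ fun j _ => HZ.const_mul ?_ _) _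
      exact (ih (k - j) (by omega)).aop hU he hs (hf.pow j)

/-- **the operators on the second list** -/
theorem HZ.wopY {U K : Set ℂ} {G : ℂ → List ℂ → List ℂ → ℂ} (h : HZ U K G) (hU : IsOpen U) {r : Fin 3 → ℝ} {e0 : ℝ}
    (he : 0 < e0) (hs : StIn K r e0) {f : ℂ → ℂ → ℂ} (hf : FZ U r f) (k : ℕ) :
    HZ U K fun z X Y => WY r e0 (f z) k (G z) X Y :=
  (h.flip.wopX hU he hs hf k).flip

/-! ### congruence and translation -/

/-- the operators see only lists in `K` -/
theorem Wop_congr {K : Set ℂ} {r : Fin 3 → ℝ} {e0 : ℝ} (hs : StIn K r e0) {w : ℂ → ℂ} : ∀ (k : ℕ) {g g' : List ℂ → ℂ},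
    (∀ L, In K L → g L = g' L) → ∀ {L : List ℂ}, In K L → Wop r e0 w k g L = Wop r e0 w k g' L := by
  intro k
  induction k using Nat.strong_induction_on with
  | _ k ih =>
    intro g g' h L hL
    rcases k with _ | k
    · rw [Wop_zero, Wop_zero]
      exact h L hL
    · rw [Wop_succ, Wop_succ]
      congr 1
      refine Finset.sum_congr rfl fun j _ => ?_
      congr 1
      unfold Aop
      refine Finset.sum_congr rfl fun i _ => ?_
      congr 1
      refine integral_congr_ae (ae_of_all _ fun p => ?_)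
      simp only [ih (k - j) (by omega) h (hz_st_in hs i p hL)]

/-- translated list -/
def sh (d : ℝ) (L : List ℂ) : List ℂ := L.map fun v => v + (d : ℂ) * I

lemma sh_ofFn (d : ℝ) {n : ℕ} (x : Fin n → ℂ) : sh d (List.ofFn x) = List.ofFn fun i => x i + (d : ℂ) * I := by
  unfold sh
  rw [List.map_ofFn]
  rfl

lemma sp_sh (r : Fin 3 → ℝ) (d : ℝ) (i : Fin 3) (t : ℝ) : sp (fun j => r j + d) i t = sp r i t + (d : ℂ) * I := by
  unfold sp ln
  push_cast
  ring

lemma vp_sh (r : Fin 3 → ℝ) (d : ℝ) (i : Fin 3) (t : ℝ) : vp (fun j => r j + d) i t = vp r i t + (d : ℂ) * I := by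
  unfold vp ln
  push_cast
  ring

lemma st_sh (r : Fin 3 → ℝ) (d e0 : ℝ) (i : Fin 3) (p : ℝ × ℝ) (L : List ℂ) :
    st (fun j => r j + d) e0 i p (sh d L) = sh d (st r e0 i p L) := by
  unfold st
  rw [vp_sh]
  unfold sh
  rw [List.map_cons, List.map_cons]
  congr 1
  congr 1
  ring

/-- **translation** -/
theorem Wop_sh (r : Fin 3 → ℝ) (d e0 : ℝ) (w : ℂ → ℂ) : ∀ (k : ℕ) (g : List ℂ → ℂ) (L : List ℂ),
    Wop (fun j => r j + d) e0 (fun s => w (s - (d : ℂ) * I)) k g (sh d L) = Wop r e0 w k (fun L => g (sh d L)) L := by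
  intro k
  induction k using Nat.strong_induction_on with
  | _ k ih =>
    intro g L
    rcases k with _ | k
    · rw [Wop_zero, Wop_zero]
    · rw [Wop_succ, Wop_succ]
      congr 1
      refine Finset.sum_congr rfl fun j _ => ?_
      congr 1
      unfold Aop
      refine Finset.sum_congr rfl fun i _ => ?_
      congr 1
      refine integral_congr_ae (ae_of_all _ fun p => ?_)
      simp only [sp_sh, add_sub_cancel_right, st_sh, ih (k - j) (by omega)]

end DRX

end
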