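import Pool.Agent.DRX.Prs
import Pool.Agent.NUF.Gas.Defs
import Pool.Agent.SPN.Sol

/-!
# The bound of the charge sum, uniform in the heights (DUAL-R, F34)

For lines `X`, `Y` with the lines of each group pairwise at distance `κ max |x| |y|` from the poles,
`‖N η σ om X Y‖ ≤ K exp (prs (2 max) X + prs (2 max) Y + ∑ 2 max)`.
-/

set_option autoImplicit false
set_option linter.unusedVariables false

noncomputable section

namespace DRX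

open NUGas SPN

variable {η : ℂ}

/-- logarithmic height -/
def Hx (x : ℂ) : ℝ := Real.log ‖x‖

/-- the maximum of two heights -/
def Mx (x y : ℂ) : ℝ := max (Hx x) (Hx y)

theorem exp_Mx {x y : ℂ} (hx : x ≠ 0) (hy : y ≠ 0) : Real.exp (Mx x y) = max ‖x‖ ‖y‖ := by
  unfold Mx Hx
  rw [Real.exp_monotone.map_max, Real.exp_log (norm_pos_iff.2 hx), Real.exp_log (norm_pos_iff.2 hy)]

/-- away from the poles -/
def Sx (η : ℂ) (κ : ℝ) (x y : ℂ) : Prop := ∀ k : ℕ, κ * Real.exp (Mx x y) ≤ ‖lin η k x y‖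

theorem lin_le (hη : η ^ 4 = -1) {x y : ℂ} (hx : x ≠ 0) (hy : y ≠ 0) (k : ℕ) :
    ‖lin η k x y‖ ≤ 2 * Real.exp (Mx x y) := by
  rw [exp_Mx hx hy]
  unfold lin
  refine (norm_sub_le _ _).trans ?_
  rw [norm_mul, norm_pow, norm_eta hη, one_pow, one_mul]
  have h1 := le_max_left ‖x‖ ‖y‖
  have h2 := le_max_right ‖x‖ ‖y‖
  linarith

/-- the degree inside a group -/
def dF : SignType → SignType → ℕ
  | .pos, .pos => 4
  | .neg, .neg => 4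
  | .zero, .zero => 2
  | .zero, .pos => 2
  | .neg, .zero => 2
  | .pos, .zero => 2
  | .zero, .neg => 2
  | .neg, .pos => 0
  | .pos, .neg => 0

/-- the degree across -/
def dG : SignType → SignType → ℕ
  | .pos, .pos => 0
  | .neg, .neg => 0
  | .zero, .zero => 2
  | .zero, .pos => 2
  | .neg, .zero => 2
  | .pos, .zero => 2
  | .zero, .neg => 2
  | .neg, .pos => 4
  | .pos, .neg => 4

theorem dF_eq (a b : SignType) : (dF a b : ℝ) = 2 + 2 * ((a : ℝ) * (b : ℝ)) := by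
  rcases a with _ | _ | _ <;> rcases b with _ | _ | _ <;> norm_num [dF]

theorem dG_eq (a b : SignType) : (dG a b : ℝ) = 2 + -(2 * ((a : ℝ) * (b : ℝ))) := by
  rcases a with _ | _ | _ <;> rcases b with _ | _ | _ <;> norm_num [dG]

section
variable {κ M : ℝ}

theorem q40 (hκ : 0 < κ) (hκ1 : κ ≤ 1) (hM : 0 < M) {a b c d : ℝ} (ha0 : 0 ≤ a) (hb0 : 0 ≤ b)
    (hc0 : 0 ≤ c) (hd0 : 0 ≤ d) (ha : a ≤ 2 * M) (hb : b ≤ 2 * M)
    (hc : c ≤ 2 * M) (hd : d ≤ 2 * M) : a * b * c * d ≤ (2 / κ) ^ 6 * M ^ 4 := by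
  have h1 : 1 ≤ 2 / κ := by rw [le_div_iff₀ hκ]; linarith
  have h2 : (2 : ℝ) ≤ 2 / κ := by rw [le_div_iff₀ hκ]; linarith
  calc a * b * c * d ≤ (2 * M) * (2 * M) * (2 * M) * (2 * M) := by gcongr
    _ = 2 ^ 4 * M ^ 4 := by ring
    _ ≤ (2 / κ) ^ 4 * M ^ 4 := by gcongr
    _ ≤ (2 / κ) ^ 6 * M ^ 4 := by gcongr <;> norm_num

theorem q42 (hκ : 0 < κ) (hκ1 : κ ≤ 1) (hM : 0 < M) {a b c d e f : ℝ} (ha0 : 0 ≤ a) (hb0 : 0 ≤ b)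
    (hc0 : 0 ≤ c) (hd0 : 0 ≤ d) (ha : a ≤ 2 * M) (hb : b ≤ 2 * M)
    (hc : c ≤ 2 * M) (hd : d ≤ 2 * M) (he : κ * M ≤ e) (hf : κ * M ≤ f) :
    a * b * c * d / (e * f) ≤ (2 / κ) ^ 6 * M ^ 2 := by
  have hκM : 0 < κ * M := mul_pos hκ hM
  have he0 : 0 ≤ e := hκM.le.trans he
  calc a * b * c * d / (e * f) ≤ (2 * M) * (2 * M) * (2 * M) * (2 * M) / ((κ * M) * (κ * M)) := by
        gcongr
    _ = 2 ^ 4 / κ ^ 2 * M ^ 2 := by field_simp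
    _ ≤ (2 / κ) ^ 6 * M ^ 2 := by
        gcongr
        rw [div_pow]
        have h1 : κ ^ 6 ≤ κ ^ 2 := pow_le_pow_of_le_one hκ.le hκ1 (by norm_num)
        calc (2 : ℝ) ^ 4 / κ ^ 2 ≤ 2 ^ 4 / κ ^ 6 := by gcongr
          _ ≤ 2 ^ 6 / κ ^ 6 := by gcongr <;> norm_num

theorem q31 (hκ : 0 < κ) (hκ1 : κ ≤ 1) (hM : 0 < M) {a b c e : ℝ} (ha0 : 0 ≤ a) (hb0 : 0 ≤ b)
    (hc0 : 0 ≤ c) (ha : a ≤ 2 * M) (hb : b ≤ 2 * M)
    (hc : c ≤ 2 * M) (he : κ * M ≤ e) :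
    a * b * c / e ≤ (2 / κ) ^ 6 * M ^ 2 := by
  have hκM : 0 < κ * M := mul_pos hκ hM
  calc a * b * c / e ≤ (2 * M) * (2 * M) * (2 * M) / (κ * M) := by
        gcongr
    _ = 2 ^ 3 / κ * M ^ 2 := by field_simp
    _ ≤ (2 / κ) ^ 6 * M ^ 2 := by
        gcongr
        rw [div_pow]
        have h1 : κ ^ 6 ≤ κ := by
          calc κ ^ 6 ≤ κ ^ 1 := pow_le_pow_of_le_one hκ.le hκ1 (by norm_num)
            _ = κ := pow_one κ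
        calc (2 : ℝ) ^ 3 / κ ≤ 2 ^ 3 / κ ^ 6 := by gcongr
          _ ≤ 2 ^ 6 / κ ^ 6 := by gcongr <;> norm_num

theorem q22 (hκ : 0 < κ) (hκ1 : κ ≤ 1) (hM : 0 < M) {a b e f : ℝ} (ha0 : 0 ≤ a) (hb0 : 0 ≤ b)
    (ha : a ≤ 2 * M) (hb : b ≤ 2 * M) (he : κ * M ≤ e) (hf : κ * M ≤ f) :
    a * b / (e * f) ≤ (2 / κ) ^ 6 * M ^ 0 := by
  have hκM : 0 < κ * M := mul_pos hκ hM
  have he0 : 0 ≤ e := hκM.le.trans he
  calc a * b / (e * f) ≤ (2 * M) * (2 * M) / ((κ * M) * (κ * M)) := by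
        gcongr
    _ = 2 ^ 2 / κ ^ 2 * M ^ 0 := by field_simp
    _ ≤ (2 / κ) ^ 6 * M ^ 0 := by
        gcongr
        rw [div_pow]
        have h1 : κ ^ 6 ≤ κ ^ 2 := pow_le_pow_of_le_one hκ.le hκ1 (by norm_num)
        calc (2 : ℝ) ^ 2 / κ ^ 2 ≤ 2 ^ 2 / κ ^ 6 := by gcongr
          _ ≤ 2 ^ 6 / κ ^ 6 := by gcongr <;> norm_num

theorem q20 (hκ : 0 < κ) (hκ1 : κ ≤ 1) (hM : 0 < M) {a : ℝ} (ha0 : 0 ≤ a)
    (ha : a ≤ 2 * M) : a ^ 2 ≤ (2 / κ) ^ 6 * M ^ 2 := by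
  have h2 : (2 : ℝ) ≤ 2 / κ := by rw [le_div_iff₀ hκ]; linarith
  have h1 : (1 : ℝ) ≤ 2 / κ := by linarith
  calc a ^ 2 ≤ (2 * M) ^ 2 := by gcongr
    _ = 2 ^ 2 * M ^ 2 := by ring
    _ ≤ (2 / κ) ^ 2 * M ^ 2 := by gcongr
    _ ≤ (2 / κ) ^ 6 * M ^ 2 := by gcongr <;> norm_num

end

theorem norm_etak (hη : η ^ 4 = -1) (k : ℕ) : ‖η ^ k‖ = 1 := by
  rw [norm_pow, norm_eta hη, one_pow]

theorem norm_eta1 (hη : η ^ 4 = -1) : ‖η‖ = 1 := norm_eta hη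

/-- **inside a group** -/
theorem F_le (hη : η ^ 4 = -1) {κ : ℝ} (hκ : 0 < κ) (hκ1 : κ ≤ 1) {x y : ℂ} (hx : x ≠ 0) (hy : y ≠ 0)
    (hs : Sx η κ x y) (a b : SignType) :
    ‖F η a b x y‖ ≤ (2 / κ) ^ 6 * Real.exp (Mx x y) ^ dF a b := by
  have hM := Real.exp_pos (Mx x y)
  obtain ⟨M, hMd⟩ : ∃ M, M = Real.exp (Mx x y) := ⟨_, rfl⟩
  have u : ∀ k, ‖lin η k x y‖ ≤ 2 * M := fun k => by rw [hMd]; exact lin_le hη hx hy k
  have lo : ∀ k, κ * M ≤ ‖lin η k x y‖ := fun k => by rw [hMd]; exact hs k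
  have n : ∀ k, 0 ≤ ‖lin η k x y‖ := fun k => norm_nonneg _
  rw [← hMd] at hM ⊢
  rcases a with _ | _ | _ <;> rcases b with _ | _ | _ <;>
    simp only [F, dF, norm_mul, norm_div, norm_etak hη, norm_eta1 hη, one_mul]
  · exact q42 hκ hκ1 hM (n _) (n _) (n _) (n _) (u _) (u _) (u _) (u _) (lo _) (lo _)
  · exact q31 hκ hκ1 hM (n _) (n _) (n _) (u _) (u _) (u _) (lo _)
  · exact q31 hκ hκ1 hM (n _) (n _) (n _) (u _) (u _) (u _) (lo _)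
  · exact q31 hκ hκ1 hM (n _) (n _) (n _) (u _) (u _) (u _) (lo _)
  · exact q40 hκ hκ1 hM (n _) (n _) (n _) (n _) (u _) (u _) (u _) (u _)
  · exact q22 hκ hκ1 hM (n _) (n _) (u _) (u _) (lo _) (lo _)
  · exact q31 hκ hκ1 hM (n _) (n _) (n _) (u _) (u _) (u _) (lo _)
  · exact q22 hκ hκ1 hM (n _) (n _) (u _) (u _) (lo _) (lo _)
  · exact q40 hκ hκ1 hM (n _) (n _) (n _) (n _) (u _) (u _) (u _) (u _)

/-- **across** -/
theorem G_le (hη : η ^ 4 = -1) {κ : ℝ} (hκ : 0 < κ) (hκ1 : κ ≤ 1) {x y : ℂ} (hx : x ≠ 0) (hy : y ≠ 0)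
    (a b : SignType) : ‖G η a b x y‖ ≤ (2 / κ) ^ 6 * Real.exp (Mx x y) ^ dG a b := by
  have hM := Real.exp_pos (Mx x y)
  obtain ⟨M, hMd⟩ : ∃ M, M = Real.exp (Mx x y) := ⟨_, rfl⟩
  have u : ∀ k, ‖lin η k x y‖ ≤ 2 * M := fun k => by rw [hMd]; exact lin_le hη hx hy k
  have n : ∀ k, 0 ≤ ‖lin η k x y‖ := fun k => norm_nonneg _
  have h2 : (1 : ℝ) ≤ 2 / κ := by rw [le_div_iff₀ hκ]; linarith
  rw [← hMd] at hM ⊢
  have h4 : ∀ j k, (‖lin η j x y‖ * ‖lin η k x y‖) ^ 2 ≤ (2 / κ) ^ 6 * M ^ 4 := by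
    intro j k
    have := q40 hκ hκ1 hM (n j) (n k) (n j) (n k) (u j) (u k) (u j) (u k)
    refine le_trans (le_of_eq ?_) this
    ring
  rcases a with _ | _ | _ <;> rcases b with _ | _ | _ <;>
    simp only [G, dG, norm_mul, norm_pow, norm_eta1 hη, one_mul, one_pow, norm_one]
  · exact q20 hκ hκ1 hM (n _) (u _)
  · exact q20 hκ hκ1 hM (n _) (u _)
  · exact q20 hκ hκ1 hM (n _) (u _)
  · exact q20 hκ hκ1 hM (n _) (u _)
  · rw [pow_zero, mul_one]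
    exact one_le_pow₀ h2
  · exact h4 _ _
  · exact q20 hκ hκ1 hM (n _) (u _)
  · exact h4 _ _
  · rw [pow_zero, mul_one]
    exact one_le_pow₀ h2

end DRX

end
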