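import Pool.Agent.DRX.U2
import Pool.Agent.DRX.LinB

/-!
# Lower bounds of the pair factor and of the distances from the poles (DUAL-R, F34)

* `ku_ge`, `u2_ge`: `c exp (Mx (xx v) (xx w)) ≤ ‖u2 v w‖` for `|Im (v - w)| ≤ d < 5 π / 3`;
* `sx_of`: separated rows are `Sx`.
-/

set_option autoImplicit false

noncomputable section

namespace DRX

open NUGas SPN Complex

variable {η : ℂ}

theorem Hx_xx (v : ℂ) : Hx (xx v) = 3 / 4 * v.re := by
  unfold Hx xx
  rw [Complex.norm_exp, Real.log_exp]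
  have : (3 * v / 4).re = 3 / 4 * v.re := by
    have h : (3 * v / 4) = ((3 / 4 : ℝ) : ℂ) * v := by
      push_cast
      ring
    rw [h, Complex.re_ofReal_mul]
  exact this

theorem Mx_xx (v w : ℂ) : Mx (xx v) (xx w) = 3 / 8 * (v.re + w.re) + 3 / 8 * |(v - w).re| := by
  unfold Mx
  rw [Hx_xx, Hx_xx, Complex.sub_re, max_def]
  split_ifs with h
  · rw [abs_of_nonpos (by linarith)]
    ring
  · rw [abs_of_nonneg (by linarith)]
    ring

theorem half_exp_le_cosh (x : ℝ) : Real.exp |x| / 2 ≤ Real.cosh x := by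
  rw [← Real.cosh_abs, Real.cosh_eq]
  have := Real.exp_pos (-|x|)
  linarith

theorem norm_cosh_le (z : ℂ) : ‖cosh z‖ ≤ Real.cosh z.re := by
  rw [cosh, norm_div, Real.cosh_eq]
  have h1 : ‖exp z + exp (-z)‖ ≤ Real.exp z.re + Real.exp (-z.re) := by
    refine (norm_add_le _ _).trans ?_
    rw [Complex.norm_exp, Complex.norm_exp, Complex.neg_re]
  have h2 : ‖(2 : ℂ)‖ = 2 := by simp
  rw [h2]
  gcongr

/-- `ku` from below -/
theorem ku_ge {d : ℝ} (hd : d < 5 * Real.pi / 3) : ∃ c : ℝ, 0 < c ∧ ∀ z : ℂ, |z.im| ≤ d →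
    c * Real.exp (3 / 8 * |z.re|) ≤ ‖ku z‖ := by
  have hp := Real.pi_pos
  by_cases hd0 : d < 0
  · exact ⟨1, one_pos, fun z hz => absurd ((abs_nonneg _).trans hz) (not_le.2 hd0)⟩
  rw [not_lt] at hd0
  obtain ⟨c8, h8⟩ : ∃ c, c = Real.cos (d / 8) := ⟨_, rfl⟩
  obtain ⟨c4, h4⟩ : ∃ c, c = Real.cos (d / 4) - Real.cos (5 * Real.pi / 12) := ⟨_, rfl⟩
  have hc8 : 0 < c8 := by
    rw [h8]
    exact Real.cos_pos_of_mem_Ioo ⟨by linarith, by linarith⟩
  have hc5 := cos5_pos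
  have hc4 : 0 < c4 := by
    rw [h4, sub_pos]
    exact Real.cos_lt_cos_of_nonneg_of_le_pi (by linarith) (by linarith) (by linarith)
  refine ⟨c8 * c4 ^ 3 / 16, by positivity, fun z hz => ?_⟩
  have hS : S5 z := lt_of_le_of_lt hz hd
  obtain ⟨A, hA⟩ : ∃ A, A = Real.cosh (z.re / 8) := ⟨_, rfl⟩
  obtain ⟨B, hB⟩ : ∃ B, B = Real.cosh (z.re / 4) := ⟨_, rfl⟩
  have hA1 : 1 ≤ A := by rw [hA]; exact Real.one_le_cosh _
  have hB1 : 1 ≤ B := by rw [hB]; exact Real.one_le_cosh _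
  have r8 : (z / 8).re = z.re / 8 := by simp
  have i8 : (z / 8).im = z.im / 8 := by simp
  have r4 : (z / 4).re = z.re / 4 := by simp
  have i4 : (z / 4).im = z.im / 4 := by simp
  have n8 : c8 * A ≤ ‖cosh (z / 8)‖ := by
    refine le_trans ?_ (Complex.re_le_norm _)
    rw [cosh_re, r8, i8, ← hA, mul_comm]
    have : c8 ≤ Real.cos (z.im / 8) := by
      rw [h8, ← Real.cos_abs (z.im / 8)]
      refine Real.cos_le_cos_of_nonneg_of_le_pi (abs_nonneg _) (by linarith) ?_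
      rw [abs_div, abs_of_pos (by norm_num : (0 : ℝ) < 8)]
      linarith
    gcongr
  have hcos : Real.cos (d / 4) ≤ Real.cos (z.im / 4) := by
    rw [← Real.cos_abs (z.im / 4)]
    refine Real.cos_le_cos_of_nonneg_of_le_pi (abs_nonneg _) (by linarith) ?_
    rw [abs_div, abs_of_pos (by norm_num : (0 : ℝ) < 4)]
    linarith
  have hre : (c4 + Real.cos (5 * Real.pi / 12)) * B ≤ (cosh (z / 4)).re := by
    rw [cosh_re, r4, i4, ← hB, mul_comm, h4, sub_add_cancel]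
    gcongr
  have m4 : c4 * B ≤ ‖cosh (z / 4)‖ := by
    refine le_trans ?_ (Complex.re_le_norm _)
    nlinarith
  have m5 : c4 * B ≤ ‖cosh (z / 4) - ((Real.cos (5 * Real.pi / 12) : ℝ) : ℂ)‖ := by
    refine le_trans ?_ (Complex.re_le_norm _)
    rw [sub_re, ofReal_re]
    nlinarith
  have m6 : c4 * B ≤ ‖cosh (z / 4) + (((Real.sqrt 6 + Real.sqrt 2) / 4 : ℝ) : ℂ)‖ := by
    refine le_trans ?_ (Complex.re_le_norm _)
    rw [add_re, ofReal_re]
    have h6 := Real.sqrt_nonneg 6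
    have h2 := Real.sqrt_nonneg 2
    nlinarith
  have hs2 : Real.sqrt 2 ≤ 2 := by
    rw [Real.sqrt_le_left (by norm_num)]
    norm_num
  have nC : ‖cosh (z / 4)‖ ≤ B := by
    rw [hB, ← r4]
    exact norm_cosh_le _
  have d1 : ‖2 * cosh (z / 4) + 1‖ ≤ 4 * B := by
    refine (norm_add_le _ _).trans ?_
    rw [norm_mul, norm_one, show ‖(2 : ℂ)‖ = 2 by simp]
    linarith
  have d2 : ‖2 * cosh (z / 4) + ((Real.sqrt 2 : ℝ) : ℂ)‖ ≤ 4 * B := by
    refine (norm_add_le _ _).trans ?_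
    rw [norm_mul, norm_real, Real.norm_of_nonneg (Real.sqrt_nonneg 2), show ‖(2 : ℂ)‖ = 2 by simp]
    linarith
  have hden := ku_den hS
  obtain ⟨g1, g2⟩ := mul_ne_zero_iff.1 hden
  have p1 := norm_pos_iff.2 g1
  have p2 := norm_pos_iff.2 g2
  have hq : ‖ku z‖ = 4 * ‖cosh (z / 8)‖ * ‖cosh (z / 4)‖ *
      (4 * ‖cosh (z / 4) - ((Real.cos (5 * Real.pi / 12) : ℝ) : ℂ)‖ *
        ‖cosh (z / 4) + (((Real.sqrt 6 + Real.sqrt 2) / 4 : ℝ) : ℂ)‖) /
      (‖2 * cosh (z / 4) + 1‖ * ‖2 * cosh (z / 4) + ((Real.sqrt 2 : ℝ) : ℂ)‖) := by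
    unfold ku
    rw [quad_fac]
    simp only [norm_div, norm_mul]
    rw [show ‖(4 : ℂ)‖ = 4 by simp]
  have hE : Real.exp (3 / 8 * |z.re|) ≤ 4 * (A * B) := by
    have e1 := half_exp_le_cosh (z.re / 8)
    have e2 := half_exp_le_cosh (z.re / 4)
    rw [← hA] at e1
    rw [← hB] at e2
    have e3 : 3 / 8 * |z.re| = |z.re / 8| + |z.re / 4| := by
      rw [abs_div, abs_div, abs_of_pos (by norm_num : (0 : ℝ) < 8), abs_of_pos (by norm_num : (0 : ℝ) < 4)]
      ring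
    rw [e3, Real.exp_add]
    have e4 := Real.exp_pos |z.re / 8|
    have e5 := Real.exp_pos |z.re / 4|
    calc Real.exp |z.re / 8| * Real.exp |z.re / 4| ≤ (2 * A) * (2 * B) :=
          mul_le_mul (by linarith) (by linarith) e5.le (by linarith)
      _ = _ := by ring
  rw [hq, le_div_iff₀ (mul_pos p1 p2)]
  have hA0 : 0 < A := by linarith
  have hB0 : 0 < B := by linarith
  calc c8 * c4 ^ 3 / 16 * Real.exp (3 / 8 * |z.re|) *
        (‖2 * cosh (z / 4) + 1‖ * ‖2 * cosh (z / 4) + ((Real.sqrt 2 : ℝ) : ℂ)‖) ≤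
      c8 * c4 ^ 3 / 16 * (4 * (A * B)) * ((4 * B) * (4 * B)) := by gcongr
    _ = 4 * (c8 * A) * (c4 * B) * ((c4 * B) * (c4 * B)) := by ring
    _ ≤ 4 * (c8 * A) * (c4 * B) * (4 * (c4 * B) * (c4 * B)) := by
        have h1 : 0 ≤ 4 * (c8 * A) * (c4 * B) := by positivity
        have h2 : 0 ≤ (c4 * B) * (c4 * B) := by positivity
        refine mul_le_mul_of_nonneg_left ?_ h1
        linarith
    _ ≤ _ := by gcongr

/-- **`u2` from below** -/
theorem u2_ge {d : ℝ} (hd : d < 5 * Real.pi / 3) : ∃ c : ℝ, 0 < c ∧ ∀ v w : ℂ, |(v - w).im| ≤ d →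
    c * Real.exp (Mx (xx v) (xx w)) ≤ ‖u2 v w‖ := by
  obtain ⟨c, hc, h⟩ := ku_ge hd
  refine ⟨c, hc, fun v w hvw => ?_⟩
  unfold u2
  rw [norm_mul, Complex.norm_exp, Mx_xx, Real.exp_add]
  have e : (3 * (v + w) / 8).re = 3 / 8 * (v.re + w.re) := by
    have h : (3 * (v + w) / 8) = ((3 / 8 : ℝ) : ℂ) * (v + w) := by
      push_cast
      ring
    rw [h, Complex.re_ofReal_mul, Complex.add_re]
  rw [e]
  calc c * (Real.exp (3 / 8 * (v.re + w.re)) * Real.exp (3 / 8 * |(v - w).re|)) =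
        Real.exp (3 / 8 * (v.re + w.re)) * (c * Real.exp (3 / 8 * |(v - w).re|)) := by ring
    _ ≤ _ := by
        refine mul_le_mul_of_nonneg_left (h _ hvw) (Real.exp_pos _).le

/-- the poles of the differences -/
def PS : Finset ℂ := (Finset.Icc (-5 : ℤ) 5).image fun n : ℤ => ((Real.pi * (n : ℝ) / 3 : ℝ) : ℂ) * I

theorem mem_PS {z : ℂ} {d : ℝ} (hd : d < 5 * Real.pi / 3) (hz : |z.im| ≤ d) (hη : η ^ 4 = -1) {k : ℕ}
    (h : η ^ k * exp (3 * z / 4) = 1) : z ∈ PS := by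
  have h8 : η ^ 8 = 1 := by
    rw [show (8 : ℕ) = 4 * 2 from rfl, pow_mul, hη]
    norm_num
  have h1 : exp (6 * z) = 1 := by
    have h2 : (η ^ k * exp (3 * z / 4)) ^ 8 = 1 := by rw [h, one_pow]
    rw [mul_pow, ← pow_mul, mul_comm k, pow_mul, h8, one_pow, one_mul, ← exp_nat_mul] at h2
    rw [← h2]
    congr 1
    push_cast
    ring
  obtain ⟨n, hn⟩ := Complex.exp_eq_one_iff.1 h1
  have hz2 : z = ((Real.pi * n / 3 : ℝ) : ℂ) * I := by
    push_cast
    linear_combination hn / 6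
  have him : z.im = Real.pi * n / 3 := by
    rw [hz2, Complex.im_ofReal_mul, Complex.I_im, mul_one]
  have hp := Real.pi_pos
  rw [him] at hz
  have h3 := abs_le.1 hz
  have h4 : (n : ℝ) < 5 := by
    by_contra hc
    rw [not_lt] at hc
    have : Real.pi * 5 ≤ Real.pi * n := by gcongr
    linarith [h3.2]
  have h5 : (-5 : ℝ) < n := by
    by_contra hc
    rw [not_lt] at hc
    have : Real.pi * n ≤ Real.pi * (-5) := by gcongr
    linarith [h3.1]
  unfold PS
  rw [Finset.mem_image]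
  refine ⟨n, ?_, hz2.symm⟩
  rw [Finset.mem_Icc]
  have h6 : n < 5 := by exact_mod_cast h4
  have h7 : -5 < n := by exact_mod_cast h5
  omega

/-- one root of unity -/
theorem sep_k (hη : η ^ 4 = -1) {d ε : ℝ} (hd : d < 5 * Real.pi / 3) (hε : 0 < ε) (k : ℕ) :
    ∃ κ : ℝ, 0 < κ ∧ ∀ z : ℂ, |z.im| ≤ d → (∀ p ∈ PS, ε ≤ ‖z - p‖) →
      κ * Real.exp (3 / 8 * z.re + 3 / 8 * |z.re|) ≤ ‖η ^ k * exp (3 * z / 4) - 1‖ := by
  obtain ⟨K, hK⟩ : ∃ K : Set ℂ, K = {z | |z.im| ≤ d ∧ |z.re| ≤ 4 ∧ ∀ p ∈ PS, ε ≤ ‖z - p‖} := ⟨_, rfl⟩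
  have hcl : IsClosed K := by
    rw [hK]
    refine (isClosed_le (continuous_abs.comp continuous_im) continuous_const).inter
      ((isClosed_le (continuous_abs.comp continuous_re) continuous_const).inter ?_)
    have : {z : ℂ | ∀ p ∈ PS, ε ≤ ‖z - p‖} = ⋂ p ∈ PS, {z : ℂ | ε ≤ ‖z - p‖} := by
      ext z
      simp
    show IsClosed {z : ℂ | ∀ p ∈ PS, ε ≤ ‖z - p‖}
    rw [this]
    exact isClosed_biInter fun p _ => isClosed_le continuous_const (by fun_prop)
  have hcomp : IsCompact K := by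
    refine Metric.isCompact_of_isClosed_isBounded hcl ?_
    refine (Metric.isBounded_closedBall (x := (0 : ℂ)) (r := 4 + d)).subset fun z hz => ?_
    rw [hK] at hz
    rw [Metric.mem_closedBall, dist_zero_right]
    refine (Complex.norm_le_abs_re_add_abs_im z).trans ?_
    linarith [hz.1, hz.2.1]
  obtain ⟨m, hm0, hm⟩ : ∃ m : ℝ, 0 < m ∧ ∀ z ∈ K, m ≤ ‖η ^ k * exp (3 * z / 4) - 1‖ := by
    by_cases hne : K.Nonempty
    · have hcont : ContinuousOn (fun z => ‖η ^ k * exp (3 * z / 4) - 1‖) K := by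
        refine Continuous.continuousOn ?_
        fun_prop
      obtain ⟨z0, hz0, hmin⟩ := hcomp.exists_isMinOn hne hcont
      refine ⟨‖η ^ k * exp (3 * z0 / 4) - 1‖, ?_, fun z hz => hmin hz⟩
      rw [norm_pos_iff]
      intro h0
      rw [hK] at hz0
      have h1 := mem_PS hd hz0.1 hη (sub_eq_zero.1 h0)
      have h2 := hz0.2.2 _ h1
      rw [sub_self, norm_zero] at h2
      linarith
    · exact ⟨1, one_pos, fun z hz => absurd ⟨z, hz⟩ hne⟩
  refine ⟨min (1 / 2) (m * Real.exp (-3)), lt_min (by norm_num) (by positivity), fun z hz hp => ?_⟩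
  have hn : ‖η ^ k * exp (3 * z / 4)‖ = Real.exp (3 / 4 * z.re) := by
    rw [norm_mul, norm_etak hη, one_mul, Complex.norm_exp]
    congr 1
    have h : (3 * z / 4) = ((3 / 4 : ℝ) : ℂ) * z := by
      push_cast
      ring
    rw [h, Complex.re_ofReal_mul]
  by_cases hr : |z.re| ≤ 4
  · have h1 := hm z (by rw [hK]; exact ⟨hz, hr, hp⟩)
    refine le_trans ?_ h1
    have h2 : Real.exp (3 / 8 * z.re + 3 / 8 * |z.re|) ≤ Real.exp 3 := by
      refine Real.exp_le_exp.2 ?_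
      linarith [le_abs_self z.re]
    calc min (1 / 2) (m * Real.exp (-3)) * Real.exp (3 / 8 * z.re + 3 / 8 * |z.re|) ≤
          (m * Real.exp (-3)) * Real.exp 3 := by
          gcongr
          exact min_le_right _ _
      _ = m := by
          rw [mul_assoc, ← Real.exp_add]
          simp
  · rw [not_le] at hr
    have e3 : (2 : ℝ) ≤ Real.exp 3 := by
      have := Real.add_one_le_exp (3 : ℝ)
      linarith
    rcases le_or_gt 0 z.re with h0 | h0
    · rw [abs_of_nonneg h0] at hr ⊢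
      have e1 : 3 / 8 * z.re + 3 / 8 * z.re = 3 / 4 * z.re := by ring
      rw [e1]
      have h3 : Real.exp 3 ≤ Real.exp (3 / 4 * z.re) := Real.exp_le_exp.2 (by linarith)
      have h4 := norm_sub_norm_le (η ^ k * exp (3 * z / 4)) 1
      rw [hn, norm_one] at h4
      calc min (1 / 2) (m * Real.exp (-3)) * Real.exp (3 / 4 * z.re) ≤
            1 / 2 * Real.exp (3 / 4 * z.re) := by
            gcongr
            exact min_le_left _ _
        _ ≤ Real.exp (3 / 4 * z.re) - 1 := by linarith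
        _ ≤ _ := h4
    · rw [abs_of_neg h0] at hr ⊢
      have e1 : 3 / 8 * z.re + 3 / 8 * -z.re = 0 := by ring
      rw [e1, Real.exp_zero, mul_one]
      have h3 : Real.exp (3 / 4 * z.re) ≤ Real.exp (-3) := Real.exp_le_exp.2 (by linarith)
      have h5 : Real.exp (-3) ≤ 1 / 2 := by
        rw [Real.exp_neg, inv_eq_one_div]
        exact one_div_le_one_div_of_le (by norm_num) e3
      have h4 := norm_sub_norm_le 1 (η ^ k * exp (3 * z / 4))
      rw [hn, norm_one, norm_sub_rev] at h4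
      refine (min_le_left _ _).trans ?_
      linarith

/-- **separated rows** -/
theorem sx_of (hη : η ^ 4 = -1) {d ε : ℝ} (hd : d < 5 * Real.pi / 3) (hε : 0 < ε) :
    ∃ κ : ℝ, 0 < κ ∧ κ ≤ 1 ∧ ∀ v w : ℂ, |(v - w).im| ≤ d → (∀ p ∈ PS, ε ≤ ‖v - w - p‖) →
      Sx η κ (xx v) (xx w) := by
  choose κ hκ h using fun k => sep_k hη hd hε k
  have h8 : η ^ 8 = 1 := by
    rw [show (8 : ℕ) = 4 * 2 from rfl, pow_mul, hη]
    norm_num
  obtain ⟨κ0, hκ0⟩ : ∃ κ0 : ℝ, κ0 = min 1 ((Finset.range 8).inf' ⟨0, by simp⟩ κ) := ⟨_, rfl⟩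
  refine ⟨κ0, ?_, ?_, fun v w hvw hs k => ?_⟩
  · rw [hκ0]
    refine lt_min one_pos ?_
    rw [Finset.lt_inf'_iff]
    exact fun k _ => hκ k
  · rw [hκ0]
    exact min_le_left _ _
  · have hk : κ0 ≤ κ (k % 8) := by
      rw [hκ0]
      exact (min_le_right _ _).trans (Finset.inf'_le _ (Finset.mem_range.2 (Nat.mod_lt _ (by norm_num))))
    have e0 : η ^ k = η ^ (k % 8) := by
      conv_lhs => rw [← Nat.div_add_mod k 8]
      rw [pow_add, pow_mul, h8, one_pow, one_mul]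
    have e1 : lin η k (xx v) (xx w) = xx w * (η ^ (k % 8) * exp (3 * (v - w) / 4) - 1) := by
      have e2 : xx w * exp (3 * (v - w) / 4) = xx v := by
        unfold xx
        rw [← exp_add]
        congr 1
        ring
      unfold lin
      rw [e0, ← e2]
      ring
    have e3 : ‖xx w‖ = Real.exp (3 / 4 * w.re) := by
      rw [← Hx_xx]
      exact (Real.exp_log (norm_pos_iff.2 (xx_ne w))).symm
    rw [e1, norm_mul, e3, Mx_xx]
    have h1 := h (k % 8) (v - w) hvw hs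
    have e4 : 3 / 8 * (v.re + w.re) + 3 / 8 * |(v - w).re| =
        3 / 4 * w.re + (3 / 8 * (v - w).re + 3 / 8 * |(v - w).re|) := by
      rw [Complex.sub_re]
      ring
    rw [e4, Real.exp_add]
    calc κ0 * (Real.exp (3 / 4 * w.re) * Real.exp (3 / 8 * (v - w).re + 3 / 8 * |(v - w).re|)) =
          Real.exp (3 / 4 * w.re) * (κ0 * Real.exp (3 / 8 * (v - w).re + 3 / 8 * |(v - w).re|)) := by
          ring
      _ ≤ Real.exp (3 / 4 * w.re) *
          (κ (k % 8) * Real.exp (3 / 8 * (v - w).re + 3 / 8 * |(v - w).re|)) := by gcongr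
      _ ≤ _ := mul_le_mul_of_nonneg_left h1 (Real.exp_pos _).le

end DRX

end
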