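import Pool.Agent.DRX.PathW

/-!
# DUAL-R, exact side (helper17): the assembly

* `R3`: the bound of `F` on the base with strands (both sides);
* `wtQ_R`, `wtQ_L`: the weights on the edge lines (R4);
* `cen_le`: the coefficients at the centre (chart, three lines, edge);
* **`dual`**: `F (stair | stair')` against `F (base | base')`.
-/

set_option autoImplicit false

noncomputable section

open Complex MeasureTheory Filter Topology Metric

namespace DRX

open DUA DUA.Pf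

/-- **(R3)** the bound on the base with strands on the edge lines, right and left -/
structure R3 (F : List ℂ → List ℂ → ℂ) (m m' : ℕ) (y y' c0 B M : ℝ) (K : ℕ) : Prop where
  rt : ∀ k ≤ K, ∀ k' ≤ K, ∀ n n' L L', n ≤ k → n' ≤ k' → Stn lnE (c0 / (1 + k + k')) (bas m y) n L →
    Stn lnE (c0 / (1 + k + k')) (bas m' y') n' L' → ‖F L L'‖ ≤ M * B ^ (k + k')
  lt : ∀ k ≤ K, ∀ k' ≤ K, ∀ n n' L L', n ≤ k → n' ≤ k' → Stn lnE (c0 / (1 + k + k')) (ng (bas m y)) n L →
    Stn lnE (c0 / (1 + k + k')) (ng (bas m' y')) n' L' → ‖Fng F L L'‖ ≤ M * B ^ (k + k')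

theorem WtQ.mono {r : Fin 3 → ℝ} {q q' ε t0 : ℝ} {w : ℂ → ℂ} (h : WtQ r q ε t0 w) (hq : q ≤ q') :
    WtQ r q' ε t0 w :=
  ⟨h.cont, fun i t => (h.bd i t).trans (mul_le_mul_of_nonneg_right hq (Real.exp_pos _).le)⟩

theorem lnE_mem (i : Fin 3) : 3 * Real.pi / 10 ≤ lnE i ∧ lnE i ≤ 7 * Real.pi / 10 := by
  have hpi := Real.pi_pos
  unfold lnE
  fin_cases i
  · simp only [Fin.zero_eta, Matrix.cons_val_zero]
    constructor <;> linarith
  · simp only [Fin.mk_one, Matrix.cons_val_one, Matrix.cons_val_zero]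
    constructor <;> linarith
  · simp only [Fin.reduceFinMk, Matrix.cons_val]
    constructor <;> linarith

section

variable {L : List ℂ} {m : ℕ} {y : ℝ}

theorem cont_spE (r : Fin 3 → ℝ) (i : Fin 3) : Continuous fun t => sp r i t := by
  unfold sp
  exact cont_ln _

/-- weights on the right edge -/
theorem wtQ_R (G : IST43.GrpL L m y) {C ε : ℝ} (hC : ∀ z : ℂ, |z.im| ≤ Real.pi / 5 →
      ‖IST43.etaL L m y z‖ ≤ C * ((L.length : ℝ) + m + 2) ^ (-(3 / 2) + ε) * Real.exp (-(ε * |z.re|)))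
    {z : ℂ} (hz : z.im = Real.pi / 2) :
    WtQ lnE (C * ((L.length : ℝ) + m + 2) ^ (-(3 / 2) + ε)) ε z.re (wz (IST43.etaL L m y) (IST43.ibW m y) z) := by
  have hpi := Real.pi_pos
  have him : ∀ i t, |(sp lnE i t - z).im| ≤ Real.pi / 5 := fun i t => by
    rw [Complex.sub_im, sp_im, hz, abs_le]
    have := lnE_mem i
    constructor <;> linarith [this.1, this.2]
  have hre : ∀ i t, (sp lnE i t - z).re = t - z.re := fun i t => by
    rw [Complex.sub_re, sp_re]
  have habs : ∀ i t, |(sp lnE i t).im| = lnE i := fun i t => by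
    rw [sp_im, abs_of_nonneg]
    linarith [(lnE_mem i).1]
  obtain ⟨B, -, hB⟩ := IST43.ibW_data (a := 3 * Real.pi / 10) (b := 7 * Real.pi / 10) fun φ h1 h2 =>
    IST43.cos2_ne (by rw [abs_of_nonneg (by linarith)]; intro h; linarith) (by rw [abs_of_nonneg (by linarith)]; linarith)
  refine ⟨fun i => ?_, fun i t => ?_⟩
  · unfold wz
    refine Continuous.mul ?_ ?_
    · have h1 : Continuous fun t => sp lnE i t - z := (cont_spE lnE i).sub continuous_const
      refine continuous_iff_continuousAt.2 fun t => ?_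
      refine ContinuousAt.comp (g := IST43.etaL L m y) (f := fun t => sp lnE i t - z) ?_ h1.continuousAt
      exact (IST43.D1' G.im_le (by have := him i t; linarith)).continuousAt
    · refine continuous_iff_continuousAt.2 fun t => ?_
      refine ContinuousAt.comp (g := IST43.ibW m y) (f := fun t => sp lnE i t) ?_ (cont_spE lnE i).continuousAt
      exact (hB m y G.y_le (sp lnE i t) (by rw [sp_im]; exact (lnE_mem i).1) (by rw [sp_im]; exact (lnE_mem i).2)).1.continuousAt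
  · unfold wz
    rw [norm_mul]
    have h2 := hC _ (him i t)
    rw [hre] at h2
    have h3 : ‖IST43.ibW m y (sp lnE i t)‖ ≤ 1 :=
      IST43.D3 (by rw [habs]; exact (lnE_mem i).1) (by rw [habs]; exact (lnE_mem i).2)
    calc ‖IST43.etaL L m y (sp lnE i t - z)‖ * ‖IST43.ibW m y (sp lnE i t)‖
        ≤ ‖IST43.etaL L m y (sp lnE i t - z)‖ * 1 := mul_le_mul_of_nonneg_left h3 (norm_nonneg _)
      _ ≤ _ := by rw [mul_one]; exact h2

/-- weights on the left edge -/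
theorem wtQ_L (G : IST43.GrpL L m y) {C ε : ℝ} (hC : ∀ z : ℂ, |z.im| ≤ Real.pi / 5 →
      ‖IST43.etaL L m y z‖ ≤ C * ((L.length : ℝ) + m + 2) ^ (-(3 / 2) + ε) * Real.exp (-(ε * |z.re|)))
    {z : ℂ} (hz : z.im = -(Real.pi / 2)) :
    WtQ lnE (C * ((L.length : ℝ) + m + 2) ^ (-(3 / 2) + ε)) ε (-z.re)
      (wz (fun s => IST43.etaL L m y (-s)) (fun s => IST43.ibW m y (-s)) (-z)) := by
  have hpi := Real.pi_pos
  have him : ∀ i t, |(-(sp lnE i t - -z)).im| ≤ Real.pi / 5 := fun i t => by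
    rw [Complex.neg_im, Complex.sub_im, sp_im, Complex.neg_im, hz, abs_neg, neg_neg, abs_le]
    have := lnE_mem i
    constructor <;> linarith [this.1, this.2]
  have hre : ∀ i t, |(-(sp lnE i t - -z)).re| = |t - -z.re| := fun i t => by
    rw [Complex.neg_re, Complex.sub_re, sp_re, Complex.neg_re, abs_neg]
  have habs : ∀ i t, |(-(sp lnE i t)).im| = lnE i := fun i t => by
    rw [Complex.neg_im, abs_neg, sp_im, abs_of_nonneg]
    linarith [(lnE_mem i).1]
  obtain ⟨B, -, hB⟩ := IST43.ibW_data (a := -(7 * Real.pi / 10)) (b := -(3 * Real.pi / 10)) fun φ h1 h2 =>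
    IST43.cos2_ne (by rw [abs_of_nonpos (by linarith)]; intro h; linarith) (by rw [abs_of_nonpos (by linarith)]; linarith)
  refine ⟨fun i => ?_, fun i t => ?_⟩
  · unfold wz
    refine Continuous.mul ?_ ?_
    · have h1 : Continuous fun t => -(sp lnE i t - -z) := ((cont_spE lnE i).sub continuous_const).neg
      refine continuous_iff_continuousAt.2 fun t => ?_
      refine ContinuousAt.comp (g := IST43.etaL L m y) (f := fun t => -(sp lnE i t - -z)) ?_ h1.continuousAt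
      exact (IST43.D1' G.im_le (by have := him i t; linarith)).continuousAt
    · refine continuous_iff_continuousAt.2 fun t => ?_
      refine ContinuousAt.comp (g := IST43.ibW m y) (f := fun t => -(sp lnE i t)) ?_ (cont_spE lnE i).neg.continuousAt
      exact (hB m y G.y_le (-(sp lnE i t)) (by rw [Complex.neg_im, sp_im]; linarith [(lnE_mem i).2])
        (by rw [Complex.neg_im, sp_im]; linarith [(lnE_mem i).1])).1.continuousAt
  · unfold wz
    rw [norm_mul]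
    have h2 := hC _ (him i t)
    rw [hre] at h2
    have h3 : ‖IST43.ibW m y (-(sp lnE i t))‖ ≤ 1 :=
      IST43.D3 (by rw [habs]; exact (lnE_mem i).1) (by rw [habs]; exact (lnE_mem i).2)
    calc ‖IST43.etaL L m y (-(sp lnE i t - -z))‖ * ‖IST43.ibW m y (-(sp lnE i t))‖
        ≤ ‖IST43.etaL L m y (-(sp lnE i t - -z))‖ * 1 := mul_le_mul_of_nonneg_left h3 (norm_nonneg _)
      _ ≤ _ := by rw [mul_one]; exact h2

end

/-- **the coefficients at the centre** -/
theorem cen_le {F : List ℂ → List ℂ → ℂ} (hF : FH F) {L L' : List ℂ} {m m' : ℕ} {y y' : ℝ} (G : IST43.GrpL L m y)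
    (G' : IST43.GrpL L' m' y') {C ε n0 : ℝ} (hC0 : 0 ≤ C) (hε : 0 < ε) (hε1 : ε ≤ 1)
    (hC : ∀ (L : List ℂ) (m : ℕ) (y : ℝ), IST43.GrpL L m y → ∀ z : ℂ, |z.im| ≤ Real.pi / 5 →
      ‖IST43.etaL L m y z‖ ≤ C * ((L.length : ℝ) + m + 2) ^ (-(3 / 2) + ε) * Real.exp (-(ε * |z.re|)))
    (hn : 0 < n0) (h1 : n0 ≤ (L.length : ℝ) + m + 2) (h2 : n0 ≤ (L'.length : ℝ) + m' + 2)
    {c0 B M : ℝ} {K : ℕ} (hc : 0 < c0) (hc1 : c0 < Real.pi / 60) (hR : R3 F m m' y y' c0 B M K) {k k' : ℕ}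
    (hk : k ≤ K) (hk' : k' ≤ K) :
    ‖TT2 lC lC (Real.pi / 60) (Real.pi / 60) (wz (IST43.etaL L m y) (IST43.ibW m y) 0)
        (wz (IST43.etaL L' m' y') (IST43.ibW m' y') 0) k k' F (bas m y) (bas m' y')‖ ≤
      M * Real.exp (6 / (Real.pi * ε * c0)) *
        (B * Real.exp (1 + 6 / (Real.pi * ε * c0)) * (C * n0 ^ (-(3 / 2) + ε))) ^ (k + k') := by
  have hpi := Real.pi_pos
  have hX : CD (bas m y) (IST43.etaL L m y) (IST43.ibW m y) (IST43.iOmW m y) := cd_group G.im_le G.re_le G.y_le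
  have hY : CD (bas m' y') (IST43.etaL L' m' y') (IST43.ibW m' y') (IST43.iOmW m' y') :=
    cd_group G'.im_le G'.re_le G'.y_le
  obtain ⟨T, T1, ⟨MT, T2⟩, T3, T4, T5⟩ := chart starP hF hX hY k k'
  have hop : IsOpen {z : ℂ | |z.im| < 51 / 100 * Real.pi} :=
    isOpen_lt (Complex.continuous_im.abs) continuous_const
  have hle : 0 < c0 / (1 + (k : ℝ) + k') := by positivity
  have hle1 : c0 / (1 + (k : ℝ) + k') < Real.pi / 60 := by
    refine lt_of_le_of_lt ?_ hc1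
    refine div_le_self hc.le ?_
    have a1 : (0 : ℝ) ≤ k := by positivity
    have a2 : (0 : ℝ) ≤ k' := by positivity
    linarith
  have hmono : ∀ x : ℝ, n0 ≤ x → C * x ^ (-(3 / 2) + ε) ≤ C * n0 ^ (-(3 / 2) + ε) := fun x hx => by
    refine mul_le_mul_of_nonneg_left ?_ hC0
    exact Real.rpow_le_rpow_of_nonpos hn hx (by linarith)
  have h3 := three (T := T) (σ := Real.pi / 2) (A := MT) (z := 0)
    (M := M * Real.exp (6 / (Real.pi * ε * c0)) *
        (B * Real.exp (1 + 6 / (Real.pi * ε * c0)) * (C * n0 ^ (-(3 / 2) + ε))) ^ (k + k')) (by positivity)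
    (T1.continuousOn.mono fun z hz => by
      show |z.im| < 51 / 100 * Real.pi
      have : |z.im| ≤ Real.pi / 2 := hz
      linarith)
    (fun z hz => T1.differentiableAt (hop.mem_nhds (by show |z.im| < 51 / 100 * Real.pi; linarith)))
    (fun z hz => T2 z (by linarith))
    (fun z hz => by
      rcases (abs_eq (by positivity)).1 hz with h | h
      · rw [T4 z h _ _ hle hle1 hle hle1]
        exact edge hc hε ((wtQ_R G (hC L m y G) h).mono (hmono _ h1)) ((wtQ_R G' (hC L' m' y' G') h).mono (hmono _ h2))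
          k k' (hR.rt k hk k' hk')
      · rw [T5 z h _ _ hle hle1 hle hle1]
        exact edge hc hε ((wtQ_L G (hC L m y G) h).mono (hmono _ h1)) ((wtQ_L G' (hC L' m' y' G') h).mono (hmono _ h2))
          k k' (hR.lt k hk k' hk'))
    (by simp; positivity)
  rw [T3 (Real.pi / 12) (Real.pi / 60) (by linarith) (by positivity) (by linarith)] at h3
  exact h3

/-- rows of the stair are in the window -/
theorem Lam_congr {F : List ℂ → List ℂ → ℂ} {Ψ : List ℂ → ℝ → (ℝ → ℂ) → ℂ} (hF : FunS F Ψ) {I I' J : List ℂ}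
    (hI : Wn 0 I) (hI' : Wn 0 I') (hJ : Wn 0 J) (h : ∀ x : ℝ, Lam I (ln 0 x) = Lam I' (ln 0 x)) : F I J = F I' J := by
  rw [(hF.fn J 0 hJ).con I hI, (hF.fn J 0 hJ).con I' hI']
  congr 1
  exact funext h

theorem stair_wn {a b : ℕ} {c : ℝ} (h0 : 0 ≤ c) (h1 : c ≤ Real.pi / 6) : Wn 0 (stair a b c) := by
  intro v hv
  have hpi := Real.pi_pos
  unfold stair at hv
  rw [List.mem_append, List.mem_replicate, List.mem_replicate] at hv
  unfold yy at hv
  rcases hv with ⟨_, rfl⟩ | ⟨_, rfl⟩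
  · have : (-(((Real.pi / 6 - c : ℝ) : ℂ) * I)).im = -(Real.pi / 6 - c) := by
      rw [Complex.neg_im, Complex.im_ofReal_mul, Complex.I_im, mul_one]
    rw [this, sub_zero, abs_neg, abs_of_nonneg (by linarith)]
    linarith
  · have : ((((Real.pi / 6 + c : ℝ) : ℂ)) * I).im = Real.pi / 6 + c := by
      rw [Complex.im_ofReal_mul, Complex.I_im, mul_one]
    rw [this, sub_zero, abs_of_nonneg (by linarith)]
    linarith

/-- the two groups of the target -/
structure Tgt (e nB nD o m : ℕ) (c y : ℝ) (a b : ℕ) : Prop where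
  sd : SD e nB nD o m c y
  hb : b = e + nB + 1
  ha : a = e + nB + 1 + 2 * nD + o

/-- **DUAL-R, the exact side.**  `C` depends only on `ε`. -/
theorem dual {ε : ℝ} (hε : 0 < ε) (hε1 : ε ≤ 1) : ∃ C : ℝ, 0 < C ∧ ∀ (F : List ℂ → List ℂ → ℂ), FH F →
    ∀ (e nB nD o m : ℕ) (c y : ℝ) (a b : ℕ) (e' nB' nD' o' m' : ℕ) (c' y' : ℝ) (a' b' : ℕ),
    Tgt e nB nD o m c y a b → Tgt e' nB' nD' o' m' c' y' a' b' →
    ∀ (c0 B M A n0 : ℝ) (K : ℕ), 0 < c0 → c0 < Real.pi / 60 → 0 ≤ B → 0 ≤ M → R3 F m m' y y' c0 B M K →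
    (∀ X Y : List ℂ, X.length = nr e nB nD o → Y.length = nr e' nB' nD' o' →
      (∀ v ∈ X, |v.im| ≤ 5 * Real.pi / 12 ∧ |v.re| ≤ 2) → (∀ v ∈ Y, |v.im| ≤ 5 * Real.pi / 12 ∧ |v.re| ≤ 2) →
      ‖F X Y‖ ≤ A) →
    0 < n0 → n0 ≤ (nr e nB nD o : ℝ) + m + 2 → n0 ≤ (nr e' nB' nD' o' : ℝ) + m' + 2 →
    B * Real.exp (1 + 6 / (Real.pi * ε * c0)) * (C * n0 ^ (-(3 / 2) + ε)) < 1 →
    ‖F (stair a b c) (stair a' b' c') - F (bas m y) (bas m' y')‖ ≤
      2 * (M * Real.exp (6 / (Real.pi * ε * c0))) *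
        (B * Real.exp (1 + 6 / (Real.pi * ε * c0)) * (C * n0 ^ (-(3 / 2) + ε))) /
        (1 - B * Real.exp (1 + 6 / (Real.pi * ε * c0)) * (C * n0 ^ (-(3 / 2) + ε))) ^ 2 +
      (A + M * Real.exp (6 / (Real.pi * ε * c0)) /
        (1 - B * Real.exp (1 + 6 / (Real.pi * ε * c0)) * (C * n0 ^ (-(3 / 2) + ε))) ^ 2) * (s1 / rh) ^ (K + 1) := by
  have hpi := Real.pi_pos
  obtain ⟨C, hC, hD2⟩ := IST43.D2 hε hε1
  refine ⟨C, hC, ?_⟩
  intro F hF e nB nD o m c y a b e' nB' nD' o' m' c' y' a' b' hX hY c0 B M A n0 K hc hc1 hB hM hR hA hn h1 h2 hq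
  obtain ⟨q, hqd⟩ : ∃ q, q = B * Real.exp (1 + 6 / (Real.pi * ε * c0)) * (C * n0 ^ (-(3 / 2) + ε)) := ⟨_, rfl⟩
  obtain ⟨M1, hM1⟩ : ∃ M1, M1 = M * Real.exp (6 / (Real.pi * ε * c0)) := ⟨_, rfl⟩
  rw [← hqd] at hq
  rw [← hqd, ← hM1]
  have hq0 : 0 ≤ q := by
    rw [hqd]
    have := Real.rpow_nonneg hn.le (-(3 / 2) + ε)
    positivity
  have hM10 : 0 ≤ M1 := by rw [hM1]; positivity
  obtain ⟨d, hd, hd1, hS⟩ := exists_win
  have hAdm := hF.adm 0 d hd
  obtain ⟨Ψ, hΨ⟩ := hF.X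
  obtain ⟨Ψ', hΨ'⟩ := hF.Y
  obtain ⟨W, W1, ρ1, hW, hρ1, gX⟩ := hX.sd.grp hd hd1 hS hAdm hΨ
  obtain ⟨W', W1', ρ1', hW', hρ1', gY⟩ := hY.sd.grp hd hd1 hS hAdm.swap hΨ'
  have hK : ∀ v ∈ Stp 0 d, |v.im - 0| < 5 * Real.pi / 6 := fun v hv => lt_of_le_of_lt hv hd
  have key := exp_main gX gY hAdm hK rh_pos hW hW' hρ1 hρ1' K (A := A) (B := M1) (q := q) hM10 hq0 hq
    (fun s hs => hA _ _ (lst_len _ _ _ _ _ _ _) (lst_len _ _ _ _ _ _ _) (hX.sd.rows (tt_dom hs)) (hY.sd.rows (tt_dom hs)))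
    (fun s hs k hk k' hk' => by
      have G := hX.sd.grpL (tt_dom hs)
      have G' := hY.sd.grpL (tt_dom hs)
      have := cen_le hF G G' hC.le hε hε1 hD2 hn (by rw [lst_len]; exact h1) (by rw [lst_len]; exact h2) hc hc1 hR hk hk'
      rw [hM1, hqd]
      exact this)
    (s := (s1 : ℂ)) (by rw [Complex.norm_real, Real.norm_of_nonneg s1_pos.le]; exact s1_lt)
    (Complex.ofReal_ne_zero.2 s1_pos.ne')
  rw [Complex.norm_real, Real.norm_of_nonneg s1_pos.le, tt_one] at key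
  have hwX : Wn 0 (lst e nB nD o c y 1) := fun v hv => by
    have := (hX.sd.rows one_dom v hv).1
    rw [sub_zero]
    linarith
  have hwY : Wn 0 (lst e' nB' nD' o' c' y' 1) := fun v hv => by
    have := (hY.sd.rows one_dom v hv).1
    rw [sub_zero]
    linarith
  have hsX : Wn 0 (stair a b c) := stair_wn hX.sd.c0 hX.sd.c1
  have hsY : Wn 0 (stair a' b' c') := stair_wn hY.sd.c0 hY.sd.c1
  have e1 : F (lst e nB nD o c y 1) (lst e' nB' nD' o' c' y' 1) = F (stair a b c) (lst e' nB' nD' o' c' y' 1) :=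
    Lam_congr hΨ hwX hsX hwY fun x => by rw [hX.sd.one, hX.hb, hX.ha]
  have e2 : F (stair a b c) (lst e' nB' nD' o' c' y' 1) = F (stair a b c) (stair a' b' c') :=
    Lam_congr (F := fun J I => F I J) hΨ' hwY hsY hsX fun x => by rw [hY.sd.one, hY.hb, hY.ha]
  rw [e1, e2] at key
  exact key

end DRX

end
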