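import Pool.Agent.DRX.HZ
import Pool.Agent.DRX.Lem

/-!
# DUAL-R, exact side (helper2): moving the lines

* `HolE`: weights;
* `StarX`: STAR with a parameter list;
* `FH2`: the hypotheses with STAR;
* **`move_X`, `move_Y`**.
-/

set_option autoImplicit false

noncomputable section

open Complex MeasureTheory Filter Topology

namespace DRX

open DUA DUA.Pf

/-- holomorphic in a horizontal strip, continuous up to the boundary, exponential decay -/
def HolE (w : ℂ → ℂ) (a b : ℝ) : Prop := ∃ W : ℝ, Hol w a b W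

lemma HolE.mono {w : ℂ → ℂ} {a b a' b' : ℝ} (h : HolE w a b) (ha : a ≤ a') (hb : b' ≤ b) : HolE w a' b' := by
  obtain ⟨W, hW⟩ := h
  exact ⟨W, hW.cont.mono fun z hz => ⟨ha.trans hz.1, hz.2.trans hb⟩,
    fun z h1 h2 => hW.diff z (ha.trans_lt h1) (h2.trans_le hb), fun z h1 h2 => hW.bd z (ha.trans h1) (h2.trans hb)⟩

lemma sp_im (r : Fin 3 → ℝ) (i : Fin 3) (t : ℝ) : (sp r i t).im = r i := by
  unfold sp ln
  simp

lemma sp_re (r : Fin 3 → ℝ) (i : Fin 3) (t : ℝ) : (sp r i t).re = t := by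
  unfold sp ln
  simp

lemma LS.mem {r : Fin 3 → ℝ} {c e : ℝ} (h : LS r c e) (i : Fin 3) : r 0 ≤ r i ∧ r i ≤ r 2 := by
  have h1 := h.m01
  have h2 := h.m12
  fin_cases i
  · exact ⟨le_rfl, h1.trans h2⟩
  · exact ⟨h1, h2⟩
  · exact ⟨h1.trans h2, le_rfl⟩

/-- the weight on the lines -/
lemma HolE.wt {w : ℂ → ℂ} {r : Fin 3 → ℝ} {c e : ℝ} (hr : LS r c e) (h : HolE w (r 0) (r 2)) : WtP r w := by
  obtain ⟨W, hW⟩ := h
  refine ⟨fun i => ?_, W, fun i t => ?_⟩
  · refine hW.cont.comp_continuous ?_ fun t => ?_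
    · unfold sp ln
      fun_prop
    · show r 0 ≤ (sp r i t).im ∧ (sp r i t).im ≤ r 2
      rw [sp_im]
      exact hr.mem i
  · have := hW.bd (sp r i t) (by rw [sp_im]; exact (hr.mem i).1) (by rw [sp_im]; exact (hr.mem i).2)
    rwa [sp_re] at this

lemma vp_im (r : Fin 3 → ℝ) (i : Fin 3) (t : ℝ) : (vp r i t).im = r i - off i := by
  unfold vp
  rw [ln_im]

lemma far_im (r : Fin 3 → ℝ) (i : Fin 3) (t e φ : ℝ) :
    |(vp r i t + ip + circleMap 0 e φ).im - (r i - off i + Real.pi)| ≤ |e| := by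
  have h1 : (vp r i t + ip + circleMap 0 e φ).im = r i - off i + Real.pi + (circleMap 0 e φ).im := by
    rw [add_im, add_im, vp_im]
    unfold ip
    simp
  rw [h1, add_sub_cancel_left]
  refine (Complex.abs_im_le_norm _).trans ?_
  rw [norm_circleMap_zero]

/-- the rows of the strands are in the window of the marked line -/
lemma LS.stIn {r : Fin 3 → ℝ} {c e : ℝ} (h : LS r c e) : ∃ d : ℝ, d < 5 * Real.pi / 6 ∧ ∀ d', d ≤ d' →
    StIn (Stp c d') r e := by
  obtain ⟨he, h0, h2, h01, h12, hw, hm⟩ := h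
  have hpi := Real.pi_pos
  rw [← lt_sub_iff_add_lt, abs_lt] at hm
  obtain ⟨m1, m2⟩ := hm
  have hoff : off 0 = Real.pi / 6 ∧ off 1 = Real.pi / 2 ∧ off 2 = 5 * Real.pi / 6 := ⟨rfl, rfl, rfl⟩
  have key : ∀ i : Fin 3, |r i - off i - c| < 5 * Real.pi / 6 ∧ |r i - off i + Real.pi - c| + e < 5 * Real.pi / 6 := by
    intro i
    rw [← lt_sub_iff_add_lt, abs_lt, abs_lt]
    fin_cases i
    · simp only [Fin.zero_eta, hoff.1]
      refine ⟨⟨?_, ?_⟩, ?_, ?_⟩ <;> linarith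
    · simp only [Fin.mk_one, hoff.2.1]
      refine ⟨⟨?_, ?_⟩, ?_, ?_⟩ <;> linarith
    · simp only [Fin.reduceFinMk, hoff.2.2]
      refine ⟨⟨?_, ?_⟩, ?_, ?_⟩ <;> linarith
  obtain ⟨d, hd1, hd2⟩ : ∃ d, d < 5 * Real.pi / 6 ∧ ∀ i : Fin 3, |r i - off i - c| ≤ d ∧
      |r i - off i + Real.pi - c| + e ≤ d := by
    refine ⟨Finset.univ.sup' Finset.univ_nonempty fun i : Fin 3 =>
      max |r i - off i - c| (|r i - off i + Real.pi - c| + e), ?_, fun i => ?_⟩
    · rw [Finset.sup'_lt_iff]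
      exact fun i _ => max_lt (key i).1 (key i).2
    · have := Finset.le_sup' (fun i : Fin 3 => max |r i - off i - c| (|r i - off i + Real.pi - c| + e))
        (Finset.mem_univ i)
      exact ⟨(le_max_left _ _).trans this, (le_max_right _ _).trans this⟩
  refine ⟨d, hd1, fun d' hd' i t φ => ⟨?_, ?_⟩⟩
  · show |(vp r i t).im - c| ≤ d'
    rw [vp_im]
    exact (hd2 i).1.trans hd'
  · show |(vp r i t + ip + circleMap 0 e φ).im - c| ≤ d'
    have h1 := far_im r i t e φ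
    rw [abs_of_pos he] at h1
    have h2 : |(vp r i t + ip + circleMap 0 e φ).im - c| ≤
        |(vp r i t + ip + circleMap 0 e φ).im - (r i - off i + Real.pi)| + |r i - off i + Real.pi - c| := by
      have := abs_add_le ((vp r i t + ip + circleMap 0 e φ).im - (r i - off i + Real.pi)) (r i - off i + Real.pi - c)
      rwa [sub_add_sub_cancel] at this
    have := (hd2 i).2
    linarith

lemma Wn.stp {c : ℝ} {L : List ℂ} (h : Wn c L) : ∃ d : ℝ, d < 5 * Real.pi / 6 ∧ ∀ d', d ≤ d' → In (Stp c d') L := by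
  induction L with
  | nil => exact ⟨0, by have := Real.pi_pos; positivity, fun d' _ v hv => by simp at hv⟩
  | cons a L ih =>
    obtain ⟨d, hd, hi⟩ := ih fun v hv => h v (List.mem_cons_of_mem _ hv)
    refine ⟨max d |a.im - c|, max_lt hd (h a List.mem_cons_self), fun d' hd' v hv => ?_⟩
    rcases List.mem_cons.1 hv with rfl | hv
    · exact (le_max_right _ _).trans hd'
    · exact hi d' ((le_max_left _ _).trans hd') v hv

lemma In.wn {c d : ℝ} (hd : d < 5 * Real.pi / 6) {L : List ℂ} (h : In (Stp c d) L) : Wn c L :=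
  fun v hv => (h v hv).trans_lt hd

/-- one width for two line systems and two lists -/
lemma common {c : ℝ} {r r' : Fin 3 → ℝ} {e e' : ℝ} {X Y : List ℂ} (h : LS r c e) (h' : LS r' c e') (hX : Wn c X)
    (hY : Wn c Y) : ∃ d : ℝ, d < 5 * Real.pi / 6 ∧ StIn (Stp c d) r e ∧ StIn (Stp c d) r' e' ∧ In (Stp c d) X ∧
      In (Stp c d) Y := by
  obtain ⟨d1, a1, b1⟩ := h.stIn
  obtain ⟨d2, a2, b2⟩ := h'.stIn
  obtain ⟨d3, a3, b3⟩ := hX.stp
  obtain ⟨d4, a4, b4⟩ := hY.stp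
  refine ⟨max (max d1 d2) (max d3 d4), max_lt (max_lt a1 a2) (max_lt a3 a4), b1 _ ?_, b2 _ ?_, b3 _ ?_, b4 _ ?_⟩
  · exact (le_max_left _ _).trans (le_max_left _ _)
  · exact (le_max_right _ _).trans (le_max_left _ _)
  · exact (le_max_left _ _).trans (le_max_right _ _)
  · exact (le_max_right _ _).trans (le_max_right _ _)

/-! ### STAR -/

/-- STAR for the first list -/
def StarX (F : List ℂ → List ℂ → ℂ) (Ψ : List ℂ → ℝ → (ℝ → ℂ) → ℂ) : Prop :=
  ∀ (J X : List ℂ) (c d e : ℝ) (r : Fin 3 → ℝ) (w : ℂ → ℂ) (W : ℝ) (k : ℕ) (ρ : ℝ), LS r c e → Hol w (r 0) (r 2) W →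
    d < 5 * Real.pi / 6 → StIn (Stp c d) r e → In (Stp c d) X → In (Stp c d) J → 0 < ρ → ρ * W < 1 →
    WX r e w k F X J = co ρ k (hh (Ψ J c) c w X)

/-- the hypotheses with STAR -/
structure FH2 (F : List ℂ → List ℂ → ℂ) : Prop where
  adm : ∀ c d : ℝ, d < 5 * Real.pi / 6 → Adm (Stp c d) F
  X : ∃ Ψ, FunS F Ψ ∧ StarX F Ψ
  Y : ∃ Ψ, FunS (fun J I => F I J) Ψ ∧ StarX (fun J I => F I J) Ψ

lemma FH2.swap {F : List ℂ → List ℂ → ℂ} (h : FH2 F) : FH2 fun J I => F I J :=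
  ⟨fun c d hd => (h.adm c d hd).swap, h.Y, h.X⟩

/-- the field of a list is holomorphic in every strip inside its window and tends to one -/
theorem lamH (L : List ℂ) (a b : ℝ) (ha : Wn a L) (hb : Wn b L) : ∃ A : ℝ, 0 ≤ A ∧ Hol (fun z => Lam L z - 1) a b A := by
  induction L with
  | nil =>
    refine ⟨0, le_rfl, ?_, fun z _ _ => ?_, fun z _ _ => ?_⟩
    · simp only [Lam_nil, sub_self]
      exact continuousOn_const
    · simp only [Lam_nil, sub_self]
      exact differentiableAt_const _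
    · simp [Lam_nil]
  | cons v L ih =>
    obtain ⟨A, hA0, hA⟩ := ih (fun u hu => ha u (List.mem_cons_of_mem _ hu)) fun u hu => hb u (List.mem_cons_of_mem _ hu)
    have h1 := ha v List.mem_cons_self
    have h2 := hb v List.mem_cons_self
    obtain ⟨d, hd, d1, d2⟩ : ∃ d, d < 5 * Real.pi / 6 ∧ |v.im - a| ≤ d ∧ |v.im - b| ≤ d :=
      ⟨max |v.im - a| |v.im - b|, max_lt h1 h2, le_max_left _ _, le_max_right _ _⟩
    have hin : ∀ z : ℂ, a ≤ z.im → z.im ≤ b → |(v - z).im| ≤ d := by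
      intro z z1 z2
      rw [Complex.sub_im]
      rw [abs_le] at d1 d2 ⊢
      constructor <;> linarith [d1.1, d1.2, d2.1, d2.2]
    obtain ⟨C, hC0, hC⟩ := tau_dec hd
    have hdf : ∀ z : ℂ, a ≤ z.im → z.im ≤ b → DifferentiableAt ℂ (fun z => tau (v - z)) z := by
      intro z z1 z2
      have h3 : DifferentiableAt ℂ tau (v - z) := tau_diffAt ((hin z z1 z2).trans_lt hd)
      exact DifferentiableAt.comp (g := tau) (f := fun z => v - z) z h3 (by fun_prop)
    obtain ⟨B, hB⟩ : ∃ B, B = C * Real.exp |v.re| := ⟨_, rfl⟩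
    have hB0 : 0 ≤ B := by rw [hB]; positivity
    have hbt : ∀ z : ℂ, a ≤ z.im → z.im ≤ b → ‖tau (v - z) - 1‖ ≤ B * Real.exp (-|z.re|) := by
      intro z z1 z2
      have := hC _ (hin z z1 z2)
      rw [Complex.sub_re] at this
      refine this.trans ?_
      rw [hB, mul_assoc]
      exact mul_le_mul_of_nonneg_left (exp_shift _ _) hC0
    refine ⟨B + A + B * A, by positivity, ?_, fun z z1 z2 => ?_, fun z z1 z2 => ?_⟩
    · simp only [Lam_cons]
      refine ContinuousOn.sub (ContinuousOn.mul ?_ ?_) continuousOn_const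
      · exact fun z hz => (hdf z hz.1 hz.2).continuousAt.continuousWithinAt
      · have := hA.cont.add (continuousOn_const (c := (1 : ℂ)))
        refine this.congr fun z _ => ?_
        simp
    · simp only [Lam_cons]
      refine DifferentiableAt.sub_const (DifferentiableAt.mul (hdf z z1.le z2.le) ?_) _
      have := (hA.diff z z1 z2).add_const 1
      simpa using this
    · simp only [Lam_cons]
      have e : tau (v - z) * Lam L z - 1 = (tau (v - z) - 1) + (Lam L z - 1) + (tau (v - z) - 1) * (Lam L z - 1) := by ring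
      rw [e]
      have q1 := hbt z z1 z2
      have q2 := hA.bd z z1 z2
      have h3 : Real.exp (-|z.re|) ≤ 1 := Real.exp_le_one_iff.2 (neg_nonpos.2 (abs_nonneg _))
      have h4 := Real.exp_pos (-|z.re|)
      have h5 : ‖(tau (v - z) - 1) * (Lam L z - 1)‖ ≤ B * A * Real.exp (-|z.re|) := by
        rw [norm_mul]
        calc ‖tau (v - z) - 1‖ * ‖Lam L z - 1‖ ≤ (B * Real.exp (-|z.re|)) * (A * Real.exp (-|z.re|)) :=
              mul_le_mul q1 q2 (norm_nonneg _) (by positivity)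
          _ = B * A * Real.exp (-|z.re|) * Real.exp (-|z.re|) := by ring
          _ ≤ B * A * Real.exp (-|z.re|) * 1 := mul_le_mul_of_nonneg_left h3 (by positivity)
          _ = _ := mul_one _
      refine norm_add₃_le.trans ?_
      have e2 : (B + A + B * A) * Real.exp (-|z.re|) = B * Real.exp (-|z.re|) + A * Real.exp (-|z.re|) +
        B * A * Real.exp (-|z.re|) := by ring
      rw [e2]
      linarith

/-- **MOVE**, one sided -/
theorem move1 {F : List ℂ → List ℂ → ℂ} {Ψ : List ℂ → ℝ → (ℝ → ℂ) → ℂ} (hF : FunS F Ψ)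
    (hS : StarX F Ψ) {X J : List ℂ} {c c' e e' : ℝ} {r s : Fin 3 → ℝ} {w g : ℂ → ℂ} {k : ℕ} (hr : LS r c e)
    (hs : LS s c' e') (hcc : c ≤ c') (hw : HolE w (r 0) (r 2)) (hw' : HolE w (s 0) (s 2)) (hX : Wn c X) (hX' : Wn c' X)
    (hJ : Wn c J) (hJ' : Wn c' J) (hg : HolE g c c') (h1 : ∀ x, g (ln c x) = Lam X (ln c x) * w (ln c x))
    (h2 : ∀ x, g (ln c' x) = Lam X (ln c' x) * w (ln c' x)) : WX r e w k F X J = WX s e' w k F X J := by
  obtain ⟨W1, hW1⟩ := hw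
  obtain ⟨W2, hW2⟩ := hw'
  obtain ⟨d, hd, a1, -, a3, a4⟩ := common hr hr hX hJ
  obtain ⟨d', hd', b1, -, b3, b4⟩ := common hs hs hX' hJ'
  obtain ⟨ρ, hρ, hρe⟩ : ∃ ρ : ℝ, 0 < ρ ∧ ρ = 1 / (2 * (|W1| + |W2| + 1)) := ⟨_, by positivity, rfl⟩
  have hWρ : ∀ W : ℝ, W ≤ |W1| + |W2| → ρ * W < 1 := by
    intro W hW
    rw [hρe, div_mul_eq_mul_div, one_mul, div_lt_one (by positivity)]
    have := abs_nonneg W1
    have := abs_nonneg W2
    linarith
  rw [hS J X c d e r w W1 k ρ hr hW1 hd a1 a3 a4 hρ (hWρ W1 (by linarith [le_abs_self W1, abs_nonneg W2])),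
    hS J X c' d' e' s w W2 k ρ hs hW2 hd' b1 b3 b4 hρ (hWρ W2 (by linarith [le_abs_self W2, abs_nonneg W1]))]
  unfold co
  refine integral_congr_ae (Eventually.of_forall fun ψ => ?_)
  simp only [hh]
  obtain ⟨τ, hτ⟩ : ∃ τ, τ = circleMap 0 ρ ψ := ⟨_, rfl⟩
  rw [← hτ]
  congr 1
  obtain ⟨A, -, hA⟩ := lamH X c c' hX hX'
  obtain ⟨W, hW⟩ := hg
  have hsh := hF.shift J c c' (A + ‖τ‖ * W) (fun z => Lam X z + τ * g z) hJ hJ' hcc ?_ ?_ ?_
  · have e1 : fam c w X τ = fun x => Lam X (ln c x) + τ * g (ln c x) := by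
      funext x
      unfold fam
      rw [h1]
      ring
    have e2 : fam c' w X τ = fun x => Lam X (ln c' x) + τ * g (ln c' x) := by
      funext x
      unfold fam
      rw [h2]
      ring
    rw [e1, e2]
    exact hsh
  · have := hA.cont.add (continuousOn_const (c := (1 : ℂ)))
    refine ContinuousOn.add ?_ (hW.cont.const_mul τ)
    refine this.congr fun z _ => ?_
    simp
  · intro z a b
    have h3 := (hA.diff z a b).add_const 1
    refine DifferentiableAt.add ?_ ((hW.diff z a b).const_mul τ)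
    simpa using h3
  · intro z a b
    calc ‖Lam X z + τ * g z - 1‖ = ‖(Lam X z - 1) + τ * g z‖ := by ring_nf
      _ ≤ ‖Lam X z - 1‖ + ‖τ * g z‖ := norm_add_le _ _
      _ ≤ A * Real.exp (-|z.re|) + ‖τ‖ * (W * Real.exp (-|z.re|)) := by
          rw [norm_mul]
          gcongr
          · exact hA.bd z a b
          · exact hW.bd z a b
      _ = (A + ‖τ‖ * W) * Real.exp (-|z.re|) := by ring

/-- **MOVE**, one sided, both orders of the marked lines -/
theorem move1' {F : List ℂ → List ℂ → ℂ} {Ψ : List ℂ → ℝ → (ℝ → ℂ) → ℂ} (hF : FunS F Ψ)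
    (hS : StarX F Ψ) {X J : List ℂ} {c c' e e' : ℝ} {r s : Fin 3 → ℝ} {w g : ℂ → ℂ} {k : ℕ} (hr : LS r c e)
    (hs : LS s c' e') (hw : HolE w (r 0) (r 2)) (hw' : HolE w (s 0) (s 2)) (hX : Wn c X) (hX' : Wn c' X)
    (hJ : Wn c J) (hJ' : Wn c' J) (hg : HolE g (min c c') (max c c'))
    (h1 : ∀ x, g (ln c x) = Lam X (ln c x) * w (ln c x))
    (h2 : ∀ x, g (ln c' x) = Lam X (ln c' x) * w (ln c' x)) : WX r e w k F X J = WX s e' w k F X J := by
  rcases le_total c c' with h | h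
  · rw [min_eq_left h, max_eq_right h] at hg
    exact move1 hF hS hr hs h hw hw' hX hX' hJ hJ' hg h1 h2
  · rw [min_eq_right h, max_eq_left h] at hg
    exact (move1 hF hS hs hr h hw' hw hX' hX hJ' hJ hg h2 h1).symm

/-- **MOVE** of the lines of the first group -/
theorem move_X {F : List ℂ → List ℂ → ℂ} (hF : FH2 F) {X Y : List ℂ} {c c' e e' f : ℝ}
    {r s r' : Fin 3 → ℝ} {w w' g : ℂ → ℂ} {k k' : ℕ} (hr : LS r c e) (hs : LS s c' f) (h1 : LS r' c e')
    (h2 : LS r' c' e') (hw : HolE w (r 0) (r 2)) (hw1 : HolE w (s 0) (s 2)) (hw' : HolE w' (r' 0) (r' 2))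
    (hX : Wn c X) (hX' : Wn c' X) (hY : Wn c Y) (hY' : Wn c' Y) (hg : HolE g (min c c') (max c c'))
    (g1 : ∀ x, g (ln c x) = Lam X (ln c x) * w (ln c x))
    (g2 : ∀ x, g (ln c' x) = Lam X (ln c' x) * w (ln c' x)) :
    TT2 r r' e e' w w' k k' F X Y = TT2 s r' f e' w w' k k' F X Y := by
  obtain ⟨Ψ, hΨ, hS⟩ := hF.X
  obtain ⟨d, hd, a1, a2, a3, a4⟩ := common hr h1 hX hY
  obtain ⟨d', hd', b1, b2, b3, b4⟩ := common hs h2 hX' hY'
  unfold TT2
  rw [WX_WY hr.e h1.e a1 a2 (hw.wt hr) (hw'.wt h1) k k' (hF.adm c d hd) a3 a4,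
    WX_WY hs.e h2.e b1 b2 (hw1.wt hs) (hw'.wt h2) k k' (hF.adm c' d' hd') b3 b4]
  refine WY_congr (K := Stp c d ∩ Stp c' d') (fun i t φ => ⟨⟨(a2 i t φ).1, (b2 i t φ).1⟩, (a2 i t φ).2, (b2 i t φ).2⟩) k'
    (fun v hv => ⟨a4 v hv, b4 v hv⟩) fun Y' hY1 => ?_
  have e1 : Wn c Y' := In.wn hd fun v hv => (hY1 v hv).1
  have e2 : Wn c' Y' := In.wn hd' fun v hv => (hY1 v hv).2
  exact move1' hΨ hS hr hs hw hw1 hX hX' e1 e2 hg g1 g2

/-- the two orders of the operators -/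
lemma TT2_swap {F : List ℂ → List ℂ → ℂ} (hF : FH2 F) {X Y : List ℂ} {c e e' : ℝ}
    {r r' : Fin 3 → ℝ} {w w' : ℂ → ℂ} {k k' : ℕ} (hr : LS r c e) (h1 : LS r' c e') (hw : HolE w (r 0) (r 2))
    (hw' : HolE w' (r' 0) (r' 2)) (hX : Wn c X) (hY : Wn c Y) :
    TT2 r r' e e' w w' k k' F X Y = TT2 r' r e' e w' w k' k (fun J I => F I J) Y X := by
  obtain ⟨d, hd, a1, a2, a3, a4⟩ := common hr h1 hX hY
  unfold TT2
  rw [WX_WY hr.e h1.e a1 a2 (hw.wt hr) (hw'.wt h1) k k' (hF.adm c d hd) a3 a4]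
  rfl

/-- **MOVE** of the lines of the second group -/
theorem move_Y {F : List ℂ → List ℂ → ℂ} (hF : FH2 F) {X Y : List ℂ} {c c' e e' f : ℝ}
    {r r' s : Fin 3 → ℝ} {w w' g : ℂ → ℂ} {k k' : ℕ} (hr : LS r' c e') (hs : LS s c' f) (h1 : LS r c e)
    (h2 : LS r c' e) (hw' : HolE w' (r' 0) (r' 2)) (hw1 : HolE w' (s 0) (s 2)) (hw : HolE w (r 0) (r 2))
    (hX : Wn c X) (hX' : Wn c' X) (hY : Wn c Y) (hY' : Wn c' Y) (hg : HolE g (min c c') (max c c'))
    (g1 : ∀ x, g (ln c x) = Lam Y (ln c x) * w' (ln c x))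
    (g2 : ∀ x, g (ln c' x) = Lam Y (ln c' x) * w' (ln c' x)) :
    TT2 r r' e e' w w' k k' F X Y = TT2 r s e f w w' k k' F X Y := by
  rw [TT2_swap hF h1 hr hw hw' hX hY, TT2_swap hF h2 hs hw hw1 hX' hY']
  exact move_X hF.swap hr hs h1 h2 hw' hw1 hw hY hY' hX hX' hg g1 g2

end DRX

end
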