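import Pool.Agent.SPN.Tot

/-!
# From generic points to a polynomial in all variables (DUAL-R, F34)

`mvpoly`: a function of `n` variables, defined on generic points and a polynomial of bounded degree
in each variable, is a polynomial.
-/

set_option autoImplicit false

noncomputable section

open Polynomial

namespace DRX

open SPN NUGas

variable {η : ℂ}

theorem gen_nodes (hη : η ^ 4 = -1) {Z : List ℂ} (hZ : Gen η Z) {K : ℕ}
    (hK : ∀ i ≥ K, ∀ x ∈ Z, Sep η (nd i) x) {n : ℕ} {a : Fin n → ℕ} (ha : Function.Injective a)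
    (haK : ∀ i, K ≤ a i) : Gen η (List.ofFn (fun i => nd (a i)) ++ Z) := by
  refine ⟨fun x hx => ?_, List.pairwise_append.2 ⟨(gen_inj hη ha).2, hZ.2, ?_⟩⟩
  · rcases List.mem_append.1 hx with hx | hx
    · exact (gen_inj hη ha).1 x hx
    · exact hZ.1 x hx
  · intro x hx y hy
    obtain ⟨i, rfl⟩ := (List.mem_ofFn' _ _).1 hx
    exact hK _ (haK i) y hy

/-- **generic points to a polynomial** -/
theorem mvpoly (hη : η ^ 4 = -1) (d : ℕ) : ∀ (n : ℕ) (Z : List ℂ) (V : (Fin n → ℂ) → ℂ), Gen η Z →
    (∀ (i : Fin n) (v : Fin n → ℂ), Gen η (List.ofFn v ++ Z) → ∃ P : ℂ[X], P.natDegree ≤ d ∧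
      ∀ t, Gen η (List.ofFn (Function.update v i t) ++ Z) → V (Function.update v i t) = P.eval t) →
    ∃ f : (Fin n → ℂ) → ℂ, PF n f ∧ ∀ v, Gen η (List.ofFn v ++ Z) → V v = f v := by
  intro n
  induction n with
  | zero =>
    intro Z V _ _
    refine ⟨fun _ => V Fin.elim0, PF.const _, fun v _ => ?_⟩
    congr 1
    exact Subsingleton.elim _ _
  | succ n ih =>
    intro Z V hZ hV
    obtain ⟨K0, hK0⟩ := exists_sep Z hη
    -- the node in the first place
    have hperm : ∀ (x : ℂ) (v : Fin n → ℂ),
        (List.ofFn v ++ x :: Z).Perm (List.ofFn (Fin.cons x v : Fin (n + 1) → ℂ) ++ Z) := by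
      intro x v
      rw [List.ofFn_succ]
      simp only [Fin.cons_zero, Fin.cons_succ, List.cons_append]
      exact List.perm_middle
    have hF : ∀ (K : ℕ) (j : ℕ), ∃ f : (Fin n → ℂ) → ℂ, PF n f ∧ (K0 ≤ K →
        ∀ v : Fin n → ℂ, Gen η (List.ofFn v ++ nd (K + j) :: Z) →
          V (Fin.cons (nd (K + j)) v) = f v) := by
      intro K j
      by_cases hK : K0 ≤ K
      · obtain ⟨f, h1, h2⟩ := ih (nd (K + j) :: Z) (fun v => V (Fin.cons (nd (K + j)) v))
          (gen_cons hη (nd_ne _) (hK0 _ (by omega)) hZ) (fun i v hv => by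
            obtain ⟨P, hP1, hP2⟩ := hV i.succ (Fin.cons (nd (K + j)) v) (Gen.perm hη (hperm _ _) hv)
            refine ⟨P, hP1, fun t ht => ?_⟩
            have e : (Function.update (Fin.cons (nd (K + j)) v : Fin (n + 1) → ℂ) i.succ t) =
                Fin.cons (nd (K + j)) (Function.update v i t) := by
              rw [Fin.cons_update]
            rw [← e]
            refine hP2 t ?_
            rw [e]
            exact Gen.perm hη (hperm _ _) ht)
        exact ⟨f, h1, fun _ => h2⟩
      · exact ⟨fun _ => 0, PF.const 0, fun h => absurd h hK⟩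
    choose F hF1 hF2 using hF
    obtain ⟨R, hR⟩ : ∃ R : ℕ → (Fin (n + 1) → ℂ) → ℂ, R = fun K v => ∑ j ∈ Finset.range (d + 1),
      F K j (fun i => v i.succ) *
        (Lagrange.basis (Finset.range (d + 1)) (fun j => nd (K + j)) j).eval (v 0) := ⟨_, rfl⟩
    have hRP : ∀ K, PF (n + 1) (R K) := fun K => by
      rw [hR]
      exact PF.sum _ fun j _ => ((hF1 K j).comp fun i => PF.var i.succ).mul ((PF.var 0).eval _)
    have key : ∀ K ≥ K0, ∀ v : Fin (n + 1) → ℂ, Gen η (List.ofFn v ++ Z) →
        (∀ j ≤ d, ∀ x ∈ List.ofFn v, Sep η (nd (K + j)) x) → V v = R K v := by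
      intro K hK v hv hs
      obtain ⟨P, hP1, hP2⟩ := hV 0 v hv
      have hv0 : V v = P.eval (v 0) := by
        have := hP2 (v 0) (by rw [Function.update_eq_self]; exact hv)
        rwa [Function.update_eq_self] at this
      have hup : ∀ x : ℂ, Function.update v 0 x = Fin.cons x (fun i : Fin n => v i.succ) := by
        intro x
        conv_lhs => rw [← Fin.cons_self_tail v]
        rw [Fin.update_cons_zero]
        rfl
      have hmem : ∀ x ∈ (List.ofFn fun i : Fin n => v i.succ), x ∈ List.ofFn v := by
        intro x hx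
        rw [List.ofFn_succ]
        exact List.mem_cons_of_mem _ hx
      have htail : Gen η ((List.ofFn fun i : Fin n => v i.succ) ++ Z) := by
        rw [List.ofFn_succ, List.cons_append] at hv
        exact hv.tail
      have hg : ∀ j ≤ d, Gen η ((List.ofFn fun i : Fin n => v i.succ) ++ nd (K + j) :: Z) := by
        intro j hj
        refine Gen.perm hη List.perm_middle.symm (gen_cons hη (nd_ne _) (fun x hx => ?_) htail)
        rcases List.mem_append.1 hx with hx | hx
        · exact hs j hj x (hmem x hx)
        · exact hK0 _ (by omega) x hx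
      have hn : ∀ j ≤ d, P.eval (nd (K + j)) = F K j (fun i => v i.succ) := by
        intro j hj
        rw [← hF2 K j hK _ (hg j hj), ← hup, hP2]
        rw [hup]
        exact Gen.perm hη (hperm _ _) (hg j hj)
      have hinj : Set.InjOn (fun j : ℕ => nd (K + j)) (Finset.range (d + 1)) := by
        intro i _ j _ hij
        have := nd_inj hij
        omega
      have hdeg : P.degree < (Finset.range (d + 1)).card := by
        rw [Finset.card_range]
        refine lt_of_le_of_lt Polynomial.degree_le_natDegree ?_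
        exact_mod_cast Nat.lt_succ_of_le hP1
      have h5 := Lagrange.eq_interpolate hinj hdeg
      rw [hv0, hR]
      conv_lhs => rw [h5]
      rw [Lagrange.interpolate_apply, Polynomial.eval_finsetSum]
      refine Finset.sum_congr rfl fun j hj => ?_
      rw [Finset.mem_range] at hj
      rw [Polynomial.eval_mul, Polynomial.eval_C]
      congr 1
      exact hn j (by omega)
    have heq : ∀ K ≥ K0, ∀ v, R K v = R K0 v := by
      intro K hK
      refine PF.ext_nd (hRP K) (hRP K0) (K + d + 1) fun a ha haK => ?_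
      have hgen : Gen η (List.ofFn (fun i => nd (a i)) ++ Z) :=
        gen_nodes hη hZ hK0 ha fun i => by
          have := haK i
          omega
      have hsep : ∀ K1 ≤ K, ∀ j ≤ d, ∀ x ∈ List.ofFn (fun i => nd (a i)),
          Sep η (nd (K1 + j)) x := by
        intro K1 hK1 j hj x hx
        obtain ⟨i, rfl⟩ := (List.mem_ofFn' _ _).1 hx
        have := haK i
        exact sep_nd hη (by omega)
      rw [← key K hK _ hgen (hsep K le_rfl), ← key K0 le_rfl _ hgen (hsep K0 hK)]
    refine ⟨R K0, hRP K0, fun v hv => ?_⟩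
    obtain ⟨K1, hK1⟩ := exists_sep (List.ofFn v) hη
    rw [← heq (max K0 K1) (le_max_left _ _)]
    exact key _ (le_max_left _ _) v hv fun j _ => hK1 _ (by
      have := le_max_right K0 K1
      omega)

end DRX

end
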