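import Pool.Agent.DRX.Hyp

/-!
# The operators `A`, `W` preserve `Adm`; the operators of the two groups commute
-/

set_option autoImplicit false

noncomputable section

open Complex MeasureTheory Filter Topology

namespace DRX

open DUA DUA.Pf

instance : SFinite m0 := by unfold m0; infer_instance

/-! ### weights -/

/-- continuous and integrable on the three lines -/
structure Wt (r : Fin 3 → ℝ) (f : ℂ → ℂ) : Prop where
  cont : ∀ i, Continuous fun t => f (sp r i t)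
  int : ∀ i, Integrable fun t => f (sp r i t)

/-- continuous with exponential decay on the three lines -/
structure WtP (r : Fin 3 → ℝ) (w : ℂ → ℂ) : Prop where
  cont : ∀ i, Continuous fun t => w (sp r i t)
  bd : ∃ C : ℝ, ∀ i t, ‖w (sp r i t)‖ ≤ C * Real.exp (-|t|)

theorem int_exp : Integrable fun t : ℝ => Real.exp (-|t|) := by
  have h := int_exp_abs (b := 1) one_pos
  simpa using h

theorem WtP.pow {r : Fin 3 → ℝ} {w : ℂ → ℂ} (h : WtP r w) (j : ℕ) : Wt r fun s => w s ^ (j + 1) := by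
  obtain ⟨C, hC⟩ := h.bd
  refine ⟨fun i => (h.cont i).pow _, fun i => ?_⟩
  refine (int_exp.const_mul (C ^ (j + 1))).mono' ((h.cont i).pow _).aestronglyMeasurable
    (Eventually.of_forall fun t => ?_)
  rw [norm_pow]
  have h1 : Real.exp (-|t|) ≤ 1 := Real.exp_le_one_iff.2 (neg_nonpos.2 (abs_nonneg t))
  have h0 := Real.exp_pos (-|t|)
  have hC0 : 0 ≤ C := by
    by_contra hc
    push Not at hc
    have := (norm_nonneg _).trans (hC i t)
    nlinarith
  calc ‖w (sp r i t)‖ ^ (j + 1) ≤ (C * Real.exp (-|t|)) ^ (j + 1) :=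
        pow_le_pow_left₀ (norm_nonneg _) (hC i t) _
    _ = C ^ (j + 1) * Real.exp (-|t|) ^ (j + 1) := mul_pow _ _ _
    _ ≤ C ^ (j + 1) * Real.exp (-|t|) := by
        refine mul_le_mul_of_nonneg_left ?_ (pow_nonneg hC0 _)
        rw [pow_succ]
        have := pow_le_one₀ (n := j) h0.le h1
        nlinarith

/-- the kernel -/
def ker (r : Fin 3 → ℝ) (e0 : ℝ) (f : ℂ → ℂ) (i : Fin 3) (p : ℝ × ℝ) : ℂ :=
  f (sp r i p.1) * (2 * Real.pi * circleMap 0 e0 p.2)⁻¹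

theorem ker_norm {r : Fin 3 → ℝ} {e0 : ℝ} (he : 0 < e0) (f : ℂ → ℂ) (i : Fin 3) (p : ℝ × ℝ) :
    ‖ker r e0 f i p‖ = ‖f (sp r i p.1)‖ * (2 * Real.pi * e0)⁻¹ := by
  unfold ker
  rw [norm_mul, norm_inv, norm_mul, norm_mul, norm_circleMap_zero, Complex.norm_real, Complex.norm_ofNat,
    Real.norm_of_nonneg Real.pi_pos.le, abs_of_pos he]

theorem ker_cont {r : Fin 3 → ℝ} {e0 : ℝ} (he : 0 < e0) {f : ℂ → ℂ} (hf : Wt r f) (i : Fin 3) :
    Continuous (ker r e0 f i) := by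
  unfold ker
  refine ((hf.cont i).comp continuous_fst).mul (Continuous.inv₀ ?_ fun p => ?_)
  · exact continuous_const.mul ((continuous_circleMap 0 e0).comp continuous_snd)
  · have h1 : circleMap 0 e0 p.2 ≠ 0 := circleMap_ne_center he.ne'
    have h2 : (Real.pi : ℂ) ≠ 0 := Complex.ofReal_ne_zero.2 Real.pi_pos.ne'
    exact mul_ne_zero (mul_ne_zero two_ne_zero h2) h1

theorem int_m0 {h : ℝ → ℝ} (hh : Integrable h) : Integrable (fun p : ℝ × ℝ => h p.1) m0 := by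
  have h1 : Integrable (fun _ : ℝ => (1 : ℝ)) (volume.restrict (Set.Ioc 0 (2 * Real.pi))) :=
    integrable_const _
  have h2 := hh.mul_prod h1
  simp only [mul_one] at h2
  exact h2

theorem ker_int {r : Fin 3 → ℝ} {e0 : ℝ} {f : ℂ → ℂ} (hf : Wt r f) (i : Fin 3) (M : ℝ) :
    Integrable (fun p : ℝ × ℝ => ‖f (sp r i p.1)‖ * (2 * Real.pi * e0)⁻¹ * M) m0 :=
  ((int_m0 (hf.int i).norm).mul_const _).mul_const _

/-! ### the tuples -/

/-- row tuple with one strand more -/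
def cs (r : Fin 3 → ℝ) (e0 : ℝ) (i : Fin 3) (p : ℝ × ℝ) {n : ℕ} (x : Fin n → ℂ) : Fin (n + 2) → ℂ :=
  Fin.cons (vp r i p.1) (Fin.cons (vp r i p.1 + ip + circleMap 0 e0 p.2) x : Fin (n + 1) → ℂ)

theorem ofFn_cs (r : Fin 3 → ℝ) (e0 : ℝ) (i : Fin 3) (p : ℝ × ℝ) {n : ℕ} (x : Fin n → ℂ) :
    List.ofFn (cs r e0 i p x) = st r e0 i p (List.ofFn x) := by
  unfold cs st
  rw [List.ofFn_succ, List.ofFn_succ]
  simp

theorem cont_vp (r : Fin 3 → ℝ) (i : Fin 3) : Continuous (vp r i) := by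
  unfold vp ln
  fun_prop

theorem cont_cs (r : Fin 3 → ℝ) (e0 : ℝ) (i : Fin 3) (n : ℕ) :
    Continuous fun q : (ℝ × ℝ) × (Fin n → ℂ) => cs r e0 i q.1 q.2 := by
  refine continuous_pi fun j => ?_
  unfold cs
  refine Fin.cases ?_ (fun j => ?_) j
  · simp only [Fin.cons_zero]
    exact (cont_vp r i).comp (continuous_fst.comp continuous_fst)
  · simp only [Fin.cons_succ]
    refine Fin.cases ?_ (fun j => ?_) j
    · simp only [Fin.cons_zero]
      exact (((cont_vp r i).comp (continuous_fst.comp continuous_fst)).add continuous_const).add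
        ((continuous_circleMap 0 e0).comp (continuous_snd.comp continuous_fst))
    · simp only [Fin.cons_succ]
      exact (continuous_apply j).comp continuous_snd

theorem cs_mem {K : Set ℂ} {r : Fin 3 → ℝ} {e0 : ℝ} (hS : StIn K r e0) (i : Fin 3) (p : ℝ × ℝ) {n : ℕ}
    {x : Fin n → ℂ} (hx : ∀ j, x j ∈ K) : ∀ j, cs r e0 i p x j ∈ K := by
  intro j
  unfold cs
  refine Fin.cases ?_ (fun j => ?_) j
  · simp only [Fin.cons_zero]
    exact (hS i p.1 p.2).1
  · simp only [Fin.cons_succ]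
    refine Fin.cases ?_ (fun j => ?_) j
    · simp only [Fin.cons_zero]
      exact (hS i p.1 p.2).2
    · simp only [Fin.cons_succ]
      exact hx j

theorem In_st {K : Set ℂ} {r : Fin 3 → ℝ} {e0 : ℝ} (hS : StIn K r e0) (i : Fin 3) (p : ℝ × ℝ) {L : List ℂ}
    (hL : In K L) : In K (st r e0 i p L) := by
  intro v hv
  unfold st at hv
  rcases List.mem_cons.1 hv with rfl | hv
  · exact (hS i p.1 p.2).1
  rcases List.mem_cons.1 hv with rfl | hv
  · exact (hS i p.1 p.2).2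
  · exact hL v hv

theorem In_get {K : Set ℂ} {L : List ℂ} (hL : In K L) : ∀ i, L.get i ∈ K := fun i => hL _ (List.get_mem _ _)

/-! ### `Adm` -/

section Adm

variable {K : Set ℂ} {G : List ℂ → List ℂ → ℂ}

theorem Adm.bd_list (hG : Adm K G) (p q : ℕ) : ∃ M : ℝ, ∀ X Y : List ℂ, X.length = p → Y.length = q → In K X →
    In K Y → ‖G X Y‖ ≤ M := by
  obtain ⟨M, hM⟩ := hG.bdd p q
  refine ⟨M, ?_⟩
  rintro X Y rfl rfl hX hY
  have h := hM X.get Y.get (In_get hX) (In_get hY)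
  rwa [List.ofFn_get, List.ofFn_get] at h

theorem Adm.swap (hG : Adm K G) : Adm K fun Y X => G X Y := by
  refine ⟨fun p q => ?_, fun p q => ?_⟩
  · have h := hG.cont q p
    refine h.comp (t := {z | (∀ i, z.1 i ∈ K) ∧ ∀ j, z.2 j ∈ K})
      (f := fun z : (Fin p → ℂ) × (Fin q → ℂ) => (z.2, z.1)) (by fun_prop) ?_
    rintro z ⟨h1, h2⟩
    exact ⟨h2, h1⟩
  · obtain ⟨M, hM⟩ := hG.bdd q p
    exact ⟨M, fun x y hx hy => hM y x hy hx⟩

theorem Adm.cont_st (hG : Adm K G) {r : Fin 3 → ℝ} {e0 : ℝ} (hS : StIn K r e0) (i : Fin 3) (n q : ℕ) :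
    ContinuousOn (fun z : (ℝ × ℝ) × ((Fin n → ℂ) × (Fin q → ℂ)) =>
      G (st r e0 i z.1 (List.ofFn z.2.1)) (List.ofFn z.2.2)) {z | (∀ j, z.2.1 j ∈ K) ∧ ∀ j, z.2.2 j ∈ K} := by
  have h := hG.cont (n + 2) q
  have hc : Continuous fun z : (ℝ × ℝ) × ((Fin n → ℂ) × (Fin q → ℂ)) =>
      ((cs r e0 i z.1 z.2.1, z.2.2) : (Fin (n + 2) → ℂ) × (Fin q → ℂ)) := by
    refine Continuous.prodMk ?_ (by fun_prop)
    exact (cont_cs r e0 i n).comp (continuous_fst.prodMk (continuous_fst.comp continuous_snd))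
  have h2 := h.comp (t := {z : (Fin (n + 2) → ℂ) × (Fin q → ℂ) | (∀ i, z.1 i ∈ K) ∧ ∀ j, z.2 j ∈ K})
    (s := {z : (ℝ × ℝ) × ((Fin n → ℂ) × (Fin q → ℂ)) | (∀ j, z.2.1 j ∈ K) ∧ ∀ j, z.2.2 j ∈ K}) hc.continuousOn (by
      rintro z ⟨h1, h2⟩
      exact ⟨cs_mem hS i z.1 h1, h2⟩)
  refine h2.congr fun z _ => ?_
  simp only [Function.comp]
  rw [ofFn_cs]

/-- continuity in the strand at fixed lists -/
theorem Adm.cont_p (hG : Adm K G) {r : Fin 3 → ℝ} {e0 : ℝ} (hS : StIn K r e0) (i : Fin 3) {X Y : List ℂ}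
    (hX : In K X) (hY : In K Y) : Continuous fun p => G (st r e0 i p X) Y := by
  have h := hG.cont_st hS i X.length Y.length
  have hc : Continuous fun p : ℝ × ℝ => ((p, (X.get, Y.get)) : (ℝ × ℝ) × ((Fin X.length → ℂ) × (Fin Y.length → ℂ))) := by
    fun_prop
  have h2 := h.comp_continuous hc fun p => ⟨In_get hX, In_get hY⟩
  refine h2.congr fun p => ?_
  change G (st r e0 i p (List.ofFn X.get)) (List.ofFn Y.get) = _
  rw [List.ofFn_get, List.ofFn_get]

theorem Adm.int (hG : Adm K G) {r : Fin 3 → ℝ} {e0 : ℝ} (he : 0 < e0) (hS : StIn K r e0) {f : ℂ → ℂ}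
    (hf : Wt r f) (i : Fin 3) {X Y : List ℂ} (hX : In K X) (hY : In K Y) :
    Integrable (fun p => ker r e0 f i p * G (st r e0 i p X) Y) m0 := by
  obtain ⟨M, hM⟩ := hG.bd_list (X.length + 2) Y.length
  refine (ker_int (e0 := e0) hf i M).mono' ((ker_cont he hf i).mul (hG.cont_p hS i hX hY)).aestronglyMeasurable
    (Eventually.of_forall fun p => ?_)
  rw [norm_mul, ker_norm he]
  exact mul_le_mul_of_nonneg_left (hM _ _ (by simp [st]) rfl (In_st hS i p hX) hY) (by positivity)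

end Adm

/-! ### the operator on the first list -/

/-- `A[f]` on the first list -/
def AX (r : Fin 3 → ℝ) (e0 : ℝ) (f : ℂ → ℂ) (G : List ℂ → List ℂ → ℂ) (X Y : List ℂ) : ℂ :=
  Aop r e0 f (fun X' => G X' Y) X

/-- `A[f]` on the second list -/
def AY (r : Fin 3 → ℝ) (e0 : ℝ) (f : ℂ → ℂ) (G : List ℂ → List ℂ → ℂ) (X Y : List ℂ) : ℂ :=
  Aop r e0 f (fun Y' => G X Y') Y

theorem AX_eq (r : Fin 3 → ℝ) (e0 : ℝ) (f : ℂ → ℂ) (G : List ℂ → List ℂ → ℂ) (X Y : List ℂ) :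
    AX r e0 f G X Y = ∑ i, kc i * ∫ p, ker r e0 f i p * G (st r e0 i p X) Y ∂m0 := rfl

theorem AY_eq (r : Fin 3 → ℝ) (e0 : ℝ) (f : ℂ → ℂ) (G : List ℂ → List ℂ → ℂ) (X Y : List ℂ) :
    AY r e0 f G X Y = ∑ i, kc i * ∫ p, ker r e0 f i p * G X (st r e0 i p Y) ∂m0 := rfl

theorem kc_norm (i : Fin 3) : ‖kc i‖ = (2 * Real.pi)⁻¹ := by
  have h : ‖(2 * (Real.pi : ℂ) * I)⁻¹‖ = (2 * Real.pi)⁻¹ := by
    rw [norm_inv, norm_mul, norm_mul, Complex.norm_I, Complex.norm_real, Complex.norm_ofNat,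
      Real.norm_of_nonneg Real.pi_pos.le, mul_one]
  unfold kc
  fin_cases i
  · simpa using h
  · simpa using h
  · simpa using h

section

variable {K : Set ℂ} {G : List ℂ → List ℂ → ℂ} {r : Fin 3 → ℝ} {e0 : ℝ} {f : ℂ → ℂ}

/-- bound of `A[f]` by the sup over the lists with one strand more -/
theorem AX_le (he : 0 < e0) (hf : Wt r f) {X Y : List ℂ} {M : ℝ}
    (hM : ∀ i p, ‖G (st r e0 i p X) Y‖ ≤ M) :
    ‖AX r e0 f G X Y‖ ≤ (2 * Real.pi)⁻¹ * (∑ i, ∫ t, ‖f (sp r i t)‖) * e0⁻¹ * M := by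
  rw [AX_eq]
  have h1 : ∀ i : Fin 3, ‖kc i * ∫ p, ker r e0 f i p * G (st r e0 i p X) Y ∂m0‖ ≤
      (2 * Real.pi)⁻¹ * (∫ t, ‖f (sp r i t)‖) * e0⁻¹ * M := by
    intro i
    rw [norm_mul, kc_norm]
    have h2 : ‖∫ p, ker r e0 f i p * G (st r e0 i p X) Y ∂m0‖ ≤
        ∫ p, ‖f (sp r i p.1)‖ * (2 * Real.pi * e0)⁻¹ * M ∂m0 := by
      refine norm_integral_le_of_norm_le (ker_int (e0 := e0) hf i M) (Eventually.of_forall fun p => ?_)
      rw [norm_mul, ker_norm he]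
      exact mul_le_mul_of_nonneg_left (hM i p) (by positivity)
    have h3 : ∫ p, ‖f (sp r i p.1)‖ * (2 * Real.pi * e0)⁻¹ * M ∂m0 = (∫ t, ‖f (sp r i t)‖) * e0⁻¹ * M := by
      have h4 : ∫ p : ℝ × ℝ, ‖f (sp r i p.1)‖ * ((2 * Real.pi * e0)⁻¹ * M) ∂m0 =
          (∫ t, ‖f (sp r i t)‖) * ∫ _φ in Set.Ioc 0 (2 * Real.pi), (2 * Real.pi * e0)⁻¹ * M :=
        integral_prod_mul (fun t : ℝ => ‖f (sp r i t)‖) fun _ : ℝ => (2 * Real.pi * e0)⁻¹ * M
      simp only [mul_assoc] at h4 ⊢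
      rw [h4, setIntegral_const]
      have h5 : (volume : Measure ℝ).real (Set.Ioc 0 (2 * Real.pi)) = 2 * Real.pi := by
        rw [measureReal_def, Real.volume_Ioc, ENNReal.toReal_ofReal (by have := Real.pi_pos; linarith)]
        ring
      rw [h5, smul_eq_mul]
      have := Real.pi_pos
      field_simp
    have h6 : 0 ≤ (2 * Real.pi)⁻¹ := by have := Real.pi_pos; positivity
    calc (2 * Real.pi)⁻¹ * ‖∫ p, ker r e0 f i p * G (st r e0 i p X) Y ∂m0‖
        ≤ (2 * Real.pi)⁻¹ * ((∫ t, ‖f (sp r i t)‖) * e0⁻¹ * M) := by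
          rw [← h3]; exact mul_le_mul_of_nonneg_left h2 h6
      _ = _ := by ring
  refine (norm_sum_le _ _).trans ((Finset.sum_le_sum fun i _ => h1 i).trans (le_of_eq ?_))
  rw [← Finset.sum_mul, ← Finset.sum_mul, Finset.mul_sum]

theorem Adm.ax (hG : Adm K G) (he : 0 < e0) (hS : StIn K r e0) (hf : Wt r f) : Adm K (AX r e0 f G) := by
  refine ⟨fun n q => ?_, fun n q => ?_⟩
  · simp only [AX_eq]
    refine continuousOn_finsetSum _ fun i _ => continuousOn_const.mul ?_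
    obtain ⟨M, hM⟩ := hG.bd_list (n + 2) q
    refine continuousOn_of_dominated (bound := fun p => ‖f (sp r i p.1)‖ * (2 * Real.pi * e0)⁻¹ * M) ?_ ?_
      (ker_int (e0 := e0) hf i M) ?_
    · rintro z ⟨h1, h2⟩
      exact ((ker_cont he hf i).mul (hG.cont_p hS i (List.forall_mem_ofFn_iff.2 h1)
        (List.forall_mem_ofFn_iff.2 h2))).aestronglyMeasurable
    · rintro z ⟨h1, h2⟩
      refine Eventually.of_forall fun p => ?_
      rw [norm_mul, ker_norm he]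
      refine mul_le_mul_of_nonneg_left (hM _ _ (by simp [st]) (by simp)
        (In_st hS i p (List.forall_mem_ofFn_iff.2 h1)) (List.forall_mem_ofFn_iff.2 h2)) (by positivity)
    · refine Eventually.of_forall fun p => ?_
      refine continuousOn_const.mul ?_
      have h := hG.cont_st hS i n q
      refine h.comp (f := fun z : (Fin n → ℂ) × (Fin q → ℂ) => (p, z)) (by fun_prop) ?_
      rintro z hz
      exact hz
  · obtain ⟨M, hM⟩ := hG.bd_list (n + 2) q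
    refine ⟨(2 * Real.pi)⁻¹ * (∑ i, ∫ t, ‖f (sp r i t)‖) * e0⁻¹ * |M|, fun x y hx hy => ?_⟩
    refine AX_le he hf fun i p => ?_
    exact (hM _ _ (by simp [st]) (by simp) (In_st hS i p (List.forall_mem_ofFn_iff.2 hx))
      (List.forall_mem_ofFn_iff.2 hy)).trans (le_abs_self M)

end

end DRX

end
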