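import Mathlib

/-!
# DUAL-R: pure complex analysis

* `three`: a bounded holomorphic function on a strip is bounded by its edge values (three lines);
* `schw`: Schwarz lemma with a zero of order `n` on a disc;
* `taylor_rem`: remainder of the Taylor series at `1` of a function bounded on a large disc;
* `diag`: a bounded separately holomorphic function is holomorphic on the diagonal.
-/

set_option autoImplicit false

noncomputable section

open Complex MeasureTheory Filter Topology Metric Set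

namespace DRX

/-- **three lines**, bounded form -/
theorem three {T : ℂ → ℂ} {σ A M : ℝ} (hσ : 0 < σ) (hc : ContinuousOn T {z | |z.im| ≤ σ})
    (hd : ∀ z : ℂ, |z.im| < σ → DifferentiableAt ℂ T z) (hA : ∀ z : ℂ, |z.im| < σ → ‖T z‖ ≤ A)
    (he : ∀ z : ℂ, |z.im| = σ → ‖T z‖ ≤ M) {z : ℂ} (hz : |z.im| ≤ σ) : ‖T z‖ ≤ M := by
  have hcl : closure (im ⁻¹' Ioo (-σ) σ) ⊆ {z : ℂ | |z.im| ≤ σ} := by
    refine closure_minimal ?_ (isClosed_le (by fun_prop) continuous_const)
    rintro w ⟨h1, h2⟩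
    exact (abs_lt.2 ⟨h1, h2⟩).le
  refine PhragmenLindelof.horizontal_strip (a := -σ) (b := σ) (f := T) (C := M) ?_ ?_ ?_ ?_ (abs_le.1 hz).1
    (abs_le.1 hz).2
  · refine ⟨fun w hw => (hd w (abs_lt.2 hw)).differentiableWithinAt, hc.mono hcl⟩
  · refine ⟨0, div_pos Real.pi_pos (by linarith), 0, ?_⟩
    refine Asymptotics.IsBigO.of_bound |A| ?_
    filter_upwards [mem_inf_of_right (mem_principal_self _)] with w hw
    have h1 := hA w (abs_lt.2 hw)
    simp only [zero_mul, Real.exp_zero, norm_one, mul_one]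
    exact h1.trans (le_abs_self A)
  · intro w hw
    exact he w (by rw [hw, abs_neg, abs_of_pos hσ])
  · intro w hw
    exact he w (by rw [hw, abs_of_pos hσ])

/-- division by `z ^ n` -/
theorem quot_pow {f : ℂ → ℂ} {ρ : ℝ} {n : ℕ} (hρ : 0 < ρ) (hd : DifferentiableOn ℂ f (ball 0 ρ))
    (h0 : f =O[𝓝[≠] 0] fun z => z ^ n) :
    ∃ g : ℂ → ℂ, DifferentiableOn ℂ g (ball 0 ρ) ∧ ∀ z ∈ ball (0 : ℂ) ρ, z ≠ 0 → f z = z ^ n * g z := by
  set g0 : ℂ → ℂ := fun z => f z / z ^ n with hg0
  have h1 : DifferentiableOn ℂ g0 (ball 0 ρ \ {0}) := by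
    refine (hd.mono sdiff_subset).div (by fun_prop) ?_
    rintro z ⟨_, hz⟩
    exact pow_ne_zero _ hz
  obtain ⟨c, hc⟩ := h0.bound
  rw [eventually_nhdsWithin_iff, Metric.eventually_nhds_iff] at hc
  obtain ⟨ε, hε, hc⟩ := hc
  set δ := min ε ρ with hδ
  have hδ0 : 0 < δ := lt_min hε hρ
  have hb : BddAbove (norm ∘ g0 '' (ball 0 δ \ {0})) := by
    refine ⟨c, ?_⟩
    rintro _ ⟨z, ⟨hz, hz0⟩, rfl⟩
    have h3 : dist z 0 < ε := lt_of_lt_of_le (mem_ball.1 hz) (min_le_left _ _)
    have h4 := hc h3 hz0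
    simp only [Function.comp, hg0, norm_div]
    rw [div_le_iff₀ (norm_pos_iff.2 (pow_ne_zero _ hz0))]
    exact h4
  have h5 := differentiableOn_update_limUnder_of_bddAbove (ball_mem_nhds (0 : ℂ) hδ0)
    (h1.mono (sdiff_subset_sdiff_left (ball_subset_ball (min_le_right _ _)))) hb
  refine ⟨Function.update g0 0 (limUnder (𝓝[≠] 0) g0), ?_, ?_⟩
  · intro z hz
    by_cases hz0 : z = 0
    · subst hz0
      have h6 := (h5 0 (mem_ball_self hδ0)).differentiableAt (ball_mem_nhds (0 : ℂ) hδ0)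
      exact h6.differentiableWithinAt
    · have h6 : DifferentiableAt ℂ g0 z := (h1 z ⟨hz, hz0⟩).differentiableAt
        ((isOpen_ball.sdiff isClosed_singleton).mem_nhds ⟨hz, hz0⟩)
      refine DifferentiableAt.differentiableWithinAt ?_
      refine h6.congr_of_eventuallyEq ?_
      filter_upwards [isOpen_ne.mem_nhds hz0] with w hw
      rw [Function.update_of_ne hw]
  · intro z _ hz0
    rw [Function.update_of_ne hz0]
    simp only [hg0]
    rw [mul_div_cancel₀ _ (pow_ne_zero _ hz0)]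

/-- **Schwarz lemma with a zero of order `n`** -/
theorem schw {f : ℂ → ℂ} {ρ C : ℝ} {n : ℕ} (hd : DifferentiableOn ℂ f (ball 0 ρ))
    (hb : ∀ z ∈ ball (0 : ℂ) ρ, ‖f z‖ ≤ C) (h0 : f =O[𝓝[≠] 0] fun z => z ^ n) {z : ℂ} (hz : ‖z‖ < ρ)
    (hz0 : z ≠ 0) : ‖f z‖ ≤ C * (‖z‖ / ρ) ^ n := by
  have hρ : 0 < ρ := (norm_nonneg z).trans_lt hz
  obtain ⟨g, hg, hfg⟩ := quot_pow hρ hd h0
  -- bound of `g` on the smaller closed balls
  have hC : 0 ≤ C := (norm_nonneg _).trans (hb 0 (mem_ball_self hρ))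
  have key : ∀ r : ℝ, ‖z‖ < r → r < ρ → ‖g z‖ ≤ C / r ^ n := by
    intro r h1 h2
    have hr0 : 0 < r := (norm_nonneg z).trans_lt h1
    have hcl : closedBall (0 : ℂ) r ⊆ ball 0 ρ := closedBall_subset_ball h2
    refine norm_le_of_forall_mem_frontier_norm_le (U := ball (0 : ℂ) r) isBounded_ball ?_ ?_ (subset_closure ?_)
    · refine ⟨hg.mono (ball_subset_ball h2.le), ?_⟩
      rw [closure_ball _ hr0.ne']
      exact hg.continuousOn.mono hcl
    · intro w hw
      rw [frontier_ball _ hr0.ne', mem_sphere_zero_iff_norm] at hw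
      have hw0 : w ≠ 0 := by
        intro h
        rw [h, norm_zero] at hw
        exact hr0.ne hw
      have hwb : w ∈ ball (0 : ℂ) ρ := by rw [mem_ball_zero_iff, hw]; exact h2
      have h3 := hb w hwb
      rw [hfg w hwb hw0, norm_mul, norm_pow, hw] at h3
      rw [le_div_iff₀ (pow_pos hr0 n), mul_comm]
      exact h3
    · rw [mem_ball_zero_iff]
      exact h1
  have h3 : ‖g z‖ ≤ C / ρ ^ n := by
    have ht : Tendsto (fun r : ℝ => C / r ^ n) (𝓝[<] ρ) (𝓝 (C / ρ ^ n)) := by
      refine Tendsto.mono_left ?_ nhdsWithin_le_nhds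
      exact (tendsto_const_nhds.div ((continuous_pow n).tendsto ρ) (pow_pos hρ n).ne')
    refine ge_of_tendsto ht ?_
    filter_upwards [Ioo_mem_nhdsLT hz] with r hr
    exact key r hr.1 hr.2
  rw [hfg z (by rw [mem_ball_zero_iff]; exact hz) hz0, norm_mul, norm_pow]
  calc ‖z‖ ^ n * ‖g z‖ ≤ ‖z‖ ^ n * (C / ρ ^ n) := mul_le_mul_of_nonneg_left h3 (by positivity)
    _ = C * (‖z‖ / ρ) ^ n := by rw [div_pow]; ring

/-- **holomorphic parameter integrals** -/
theorem par_int {α : Type*} [MeasurableSpace α] {μ : Measure α} {U : Set ℂ} (hU : IsOpen U) {Φ : ℂ → α → ℂ}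
    {b : α → ℝ} (hm : ∀ s ∈ U, AEStronglyMeasurable (Φ s) μ)
    (hd : ∀ a, DifferentiableOn ℂ (fun s => Φ s a) U) (hb : ∀ s ∈ U, ∀ a, ‖Φ s a‖ ≤ b a)
    (hi : Integrable b μ) : DifferentiableOn ℂ (fun s => ∫ a, Φ s a ∂μ) U := by
  intro s0 hs0
  obtain ⟨r, hr, hrU⟩ := Metric.isOpen_iff.1 hU s0 hs0
  have hr2 : 0 < r / 2 := by linarith
  -- Cauchy bound of the derivative
  have hder : ∀ a, ∀ s ∈ ball s0 (r / 2), ‖deriv (fun s => Φ s a) s‖ ≤ b a / (r / 4) := by
    intro a s hs
    refine norm_deriv_le_of_forall_mem_sphere_norm_le (by linarith) ?_ ?_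
    · have h1 : closedBall s (r / 4) ⊆ U := by
        refine subset_trans ?_ hrU
        intro w hw
        rw [mem_ball]
        rw [mem_closedBall] at hw
        rw [mem_ball] at hs
        have := dist_triangle w s s0
        linarith
      refine ⟨(hd a).mono (ball_subset_closedBall.trans h1), ?_⟩
      rw [closure_ball _ (by linarith)]
      exact (hd a).continuousOn.mono h1
    · intro w hw
      refine hb w (hrU ?_) a
      rw [mem_sphere] at hw
      rw [mem_ball] at hs ⊢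
      have := dist_triangle w s s0
      linarith
  have hU2 : ball s0 (r / 2) ⊆ U := (ball_subset_ball (by linarith)).trans hrU
  have hda : ∀ a, ∀ s ∈ ball s0 (r / 2), HasDerivAt (fun s => Φ s a) (deriv (fun s => Φ s a) s) s := by
    intro a s hs
    exact ((hd a s (hU2 hs)).differentiableAt (hU.mem_nhds (hU2 hs))).hasDerivAt
  have hF'm : AEStronglyMeasurable (fun a => deriv (fun s => Φ s a) s0) μ := by
    set sn : ℕ → ℂ := fun n => s0 + ((r / (n + 3) : ℝ) : ℂ) with hsn
    have hpos : ∀ n : ℕ, 0 < r / ((n : ℝ) + 3) := fun n => by positivity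
    have hlt : ∀ n : ℕ, r / ((n : ℝ) + 3) < r / 2 := fun n =>
      div_lt_div_of_pos_left hr (by norm_num) (by have : (0 : ℝ) ≤ n := Nat.cast_nonneg n; linarith)
    have hmem : ∀ n, sn n ∈ U := by
      intro n
      refine hU2 ?_
      rw [mem_ball, dist_eq_norm, hsn]
      simp only [add_sub_cancel_left]
      rw [Complex.norm_real, Real.norm_of_nonneg (hpos n).le]
      exact hlt n
    have hne : ∀ n, sn n ≠ s0 := by
      intro n h
      have h1 : ((r / ((n : ℝ) + 3) : ℝ) : ℂ) = 0 := by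
        have h2 : s0 + ((r / ((n : ℝ) + 3) : ℝ) : ℂ) = s0 := h
        simpa using h2
      exact (hpos n).ne' (by exact_mod_cast h1)
    have hlim : Tendsto sn atTop (𝓝[≠] s0) := by
      refine tendsto_nhdsWithin_iff.2 ⟨?_, Eventually.of_forall hne⟩
      have h1 : Tendsto (fun n : ℕ => r / ((n : ℝ) + 3)) atTop (𝓝 0) := by
        refine Tendsto.div_atTop tendsto_const_nhds ?_
        exact tendsto_atTop_add_const_right _ _ tendsto_natCast_atTop_atTop
      have h2 : Tendsto (fun n : ℕ => s0 + ((r / ((n : ℝ) + 3) : ℝ) : ℂ)) atTop (𝓝 (s0 + ((0 : ℝ) : ℂ))) :=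
        tendsto_const_nhds.add ((Complex.continuous_ofReal.tendsto 0).comp h1)
      have h3 : s0 + ((0 : ℝ) : ℂ) = s0 := by simp
      rw [h3] at h2
      exact h2
    refine aestronglyMeasurable_of_tendsto_ae (f := fun n a => slope (fun s => Φ s a) s0 (sn n)) atTop ?_ ?_
    · intro n
      simp only [slope, vsub_eq_sub]
      exact ((hm _ (hmem n)).sub (hm _ hs0)).const_smul (sn n - s0)⁻¹
    · refine Eventually.of_forall fun a => ?_
      have h1 := hasDerivAt_iff_tendsto_slope.1 (hda a s0 (mem_ball_self hr2))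
      exact h1.comp hlim
  have key := hasDerivAt_integral_of_dominated_loc_of_deriv_le (μ := μ) (𝕜 := ℂ) (F := Φ)
    (F' := fun s a => deriv (fun s => Φ s a) s) (x₀ := s0) (bound := fun a => b a / (r / 4))
    (s := ball s0 (r / 2)) (ball_mem_nhds s0 hr2)
    (by filter_upwards [hU.mem_nhds hs0] with s hs using hm s hs)
    (hi.mono' (hm s0 hs0) (Eventually.of_forall fun a => hb s0 hs0 a)) hF'm
    (Eventually.of_forall fun a s hs => hder a s hs) (hi.div_const _)
    (Eventually.of_forall fun a s hs => hda a s hs)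
  exact key.2.differentiableAt.differentiableWithinAt

/-- **a bounded separately holomorphic function is holomorphic on the diagonal** -/
theorem diag {G : ℂ → ℂ → ℂ} {ρ C : ℝ} (h1 : ∀ t ∈ ball (0 : ℂ) ρ, DifferentiableOn ℂ (fun s => G s t) (ball 0 ρ))
    (h2 : ∀ s ∈ ball (0 : ℂ) ρ, DifferentiableOn ℂ (G s) (ball 0 ρ))
    (hb : ∀ s ∈ ball (0 : ℂ) ρ, ∀ t ∈ ball (0 : ℂ) ρ, ‖G s t‖ ≤ C) :
    DifferentiableOn ℂ (fun s => G s s) (ball 0 ρ) := by
  intro s0 hs0
  have hs : ‖s0‖ < ρ := by rwa [mem_ball_zero_iff] at hs0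
  obtain ⟨r, hr1, hr2⟩ := exists_between hs
  have hr0 : 0 < r := (norm_nonneg _).trans_lt hr1
  have hmem : ∀ θ : ℝ, circleMap 0 r θ ∈ ball (0 : ℂ) ρ := by
    intro θ
    rw [mem_ball_zero_iff, norm_circleMap_zero, abs_of_pos hr0]
    exact hr2
  obtain ⟨r1, hr3, hr4⟩ := exists_between hr1
  have hr10 : 0 < r1 := (norm_nonneg _).trans_lt hr3
  -- Cauchy formula in the second variable
  have hC : ∀ s ∈ ball (0 : ℂ) r1, G s s = (2 * Real.pi * I : ℂ)⁻¹ •
      ∮ z in C(0, r), (z - s)⁻¹ • G s z := by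
    intro s hs'
    have hsr : s ∈ ball (0 : ℂ) r := ball_subset_ball hr4.le hs'
    have hsρ : s ∈ ball (0 : ℂ) ρ := ball_subset_ball hr2.le hsr
    refine (DiffContOnCl.two_pi_i_inv_smul_circleIntegral_sub_inv_smul (f := G s) ?_ hsr).symm
    refine ⟨(h2 s hsρ).mono (ball_subset_ball hr2.le), ?_⟩
    rw [closure_ball _ hr0.ne']
    exact (h2 s hsρ).continuousOn.mono (closedBall_subset_ball hr2)
  have hD : DifferentiableOn ℂ (fun s => ∮ z in C(0, r), (z - s)⁻¹ • G s z) (ball 0 r1) := by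
    have hgap : ∀ s ∈ ball (0 : ℂ) r1, ∀ θ : ℝ, r - r1 ≤ ‖circleMap 0 r θ - s‖ := by
      intro s hs' θ
      have h3 : ‖circleMap 0 r θ‖ = r := by rw [norm_circleMap_zero, abs_of_pos hr0]
      have h4 := norm_sub_norm_le (circleMap 0 r θ) s
      rw [mem_ball_zero_iff] at hs'
      linarith
    have hne : ∀ s ∈ ball (0 : ℂ) r1, ∀ θ : ℝ, circleMap 0 r θ - s ≠ 0 := by
      intro s hs' θ h
      have := hgap s hs' θ
      rw [h, norm_zero] at this
      linarith
    have hρ' : ball (0 : ℂ) r1 ⊆ ball 0 ρ := ball_subset_ball (by linarith)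
    have hint := par_int (μ := volume.restrict (Set.Ioc 0 (2 * Real.pi))) (U := ball (0 : ℂ) r1) isOpen_ball
      (Φ := fun s θ => deriv (circleMap 0 r) θ • ((circleMap 0 r θ - s)⁻¹ • G s (circleMap 0 r θ)))
      (b := fun _ => r * ((r - r1)⁻¹ * C)) ?_ ?_ ?_ (integrable_const _)
    · refine hint.congr fun s _ => ?_
      rw [circleIntegral, intervalIntegral.integral_of_le (by have := Real.pi_pos; linarith)]
    · intro s hs'
      refine ContinuousOn.aestronglyMeasurable (s := Set.Ioc 0 (2 * Real.pi)) ?_ measurableSet_Ioc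
      refine Continuous.continuousOn ?_
      have hc1 : Continuous fun θ : ℝ => G s (circleMap 0 r θ) :=
        (h2 s (hρ' hs')).continuousOn.comp_continuous (continuous_circleMap 0 r) hmem
      have hc2 : Continuous (deriv (circleMap 0 r)) := by
        have : deriv (circleMap 0 r) = fun θ => circleMap 0 r θ * I := funext fun θ => deriv_circleMap 0 r θ
        rw [this]
        exact (continuous_circleMap 0 r).mul continuous_const
      exact hc2.smul ((((continuous_circleMap 0 r).sub continuous_const).inv₀ (hne s hs')).smul hc1)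
    · intro θ
      have h5 : DifferentiableOn ℂ (fun s => (circleMap 0 r θ - s)⁻¹) (ball 0 r1) :=
        DifferentiableOn.inv (by fun_prop) fun s hs' => hne s hs' θ
      have h6 := (h5.mul ((h1 _ (hmem θ)).mono hρ')).const_mul (deriv (circleMap 0 r) θ)
      exact h6
    · intro s hs' θ
      rw [norm_smul, norm_smul, deriv_circleMap, norm_mul, norm_circleMap_zero, Complex.norm_I, mul_one,
        abs_of_pos hr0, norm_inv]
      have hg := hgap s hs' θ
      have h3 : ‖circleMap 0 r θ - s‖⁻¹ ≤ (r - r1)⁻¹ := inv_anti₀ (by linarith) hg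
      refine mul_le_mul_of_nonneg_left ?_ hr0.le
      exact mul_le_mul h3 (hb s (hρ' hs') _ (hmem θ)) (norm_nonneg _) (by
        rw [inv_nonneg]; linarith)
  have h3 : DifferentiableAt ℂ (fun s => (2 * Real.pi * I : ℂ)⁻¹ • ∮ z in C(0, r), (z - s)⁻¹ • G s z) s0 :=
    ((hD s0 (by rwa [mem_ball_zero_iff])).differentiableAt (isOpen_ball.mem_nhds (by rwa [mem_ball_zero_iff]))).const_mul _
  refine DifferentiableAt.differentiableWithinAt ?_
  refine h3.congr_of_eventuallyEq ?_
  filter_upwards [isOpen_ball.mem_nhds (show s0 ∈ ball (0 : ℂ) r1 by rwa [mem_ball_zero_iff])] with s hs'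
  exact hC s hs'

end DRX

end
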