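import Pool.Agent.DRX.Comm
import Pool.Agent.DRX.Lem
import Pool.Agent.DRX.Three

/-!
# Uniform bounds of the operators `W` and holomorphic dependence on a parameter
-/

set_option autoImplicit false

noncomputable section

open Complex MeasureTheory Filter Topology

namespace DRX

open DUA DUA.Pf

/-- weights with the bound `W e^{-|t|}` on the three lines -/
structure WtB (r : Fin 3 → ℝ) (W : ℝ) (w : ℂ → ℂ) : Prop where
  cont : ∀ i, Continuous fun t => w (sp r i t)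
  bd : ∀ i t, ‖w (sp r i t)‖ ≤ W * Real.exp (-|t|)

section

variable {K : Set ℂ} {r : Fin 3 → ℝ} {e0 W : ℝ}

theorem WtB.p {w : ℂ → ℂ} (h : WtB r W w) : WtP r w := ⟨h.cont, W, h.bd⟩

theorem WtB.nonneg {w : ℂ → ℂ} (h : WtB r W w) : 0 ≤ W := by
  by_contra hc
  push Not at hc
  have := (norm_nonneg _).trans (h.bd 0 0)
  have h0 := Real.exp_pos (-|(0 : ℝ)|)
  nlinarith

theorem WtB.pow_le {w : ℂ → ℂ} (h : WtB r W w) (j : ℕ) (i : Fin 3) (t : ℝ) :
    ‖w (sp r i t) ^ (j + 1)‖ ≤ W ^ (j + 1) * Real.exp (-|t|) := by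
  rw [norm_pow]
  have h1 : Real.exp (-|t|) ≤ 1 := Real.exp_le_one_iff.2 (neg_nonpos.2 (abs_nonneg t))
  have h0 := Real.exp_pos (-|t|)
  have hW := h.nonneg
  calc ‖w (sp r i t)‖ ^ (j + 1) ≤ (W * Real.exp (-|t|)) ^ (j + 1) :=
        pow_le_pow_left₀ (norm_nonneg _) (h.bd i t) _
    _ = W ^ (j + 1) * Real.exp (-|t|) ^ (j + 1) := mul_pow _ _ _
    _ ≤ W ^ (j + 1) * Real.exp (-|t|) := by
        refine mul_le_mul_of_nonneg_left ?_ (pow_nonneg hW _)
        rw [pow_succ]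
        have := pow_le_one₀ (n := j) h0.le h1
        nlinarith

/-- `∫ e^{-|t|}` -/
def J0 : ℝ := ∫ t : ℝ, Real.exp (-|t|)

theorem J0_nonneg : 0 ≤ J0 := integral_nonneg fun _ => (Real.exp_pos _).le

theorem WtB.int_pow {w : ℂ → ℂ} (h : WtB r W w) (j : ℕ) (i : Fin 3) :
    ∫ t, ‖w (sp r i t) ^ (j + 1)‖ ≤ W ^ (j + 1) * J0 := by
  unfold J0
  rw [← integral_const_mul]
  exact integral_mono ((h.p.pow j).int i).norm (int_exp.const_mul _) fun t => h.pow_le j i t

/-- a family of functions of two lists, bounded uniformly on the lists of fixed length -/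
def UB {ι : Type*} (K : Set ℂ) (G : ι → List ℂ → List ℂ → ℂ) : Prop :=
  ∀ p q : ℕ, ∃ M : ℝ, 0 ≤ M ∧ ∀ a X Y, X.length = p → Y.length = q → In K X → In K Y → ‖G a X Y‖ ≤ M

theorem UB.swap {ι : Type*} {G : ι → List ℂ → List ℂ → ℂ} (h : UB K G) : UB K fun a Y X => G a X Y := by
  intro p q
  obtain ⟨M, hM0, hM⟩ := h q p
  exact ⟨M, hM0, fun a X Y hX hY h1 h2 => hM a Y X hY hX h2 h1⟩

theorem UB.ax {ι : Type*} {G : ι → List ℂ → List ℂ → ℂ} (h : UB K G) (he : 0 < e0) (hS : StIn K r e0)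
    {w : ι → ℂ → ℂ} (hw : ∀ a, WtB r W (w a)) (j : ℕ) :
    UB K fun a => AX r e0 (fun s => w a s ^ (j + 1)) (G a) := by
  intro p q
  obtain ⟨M, hM0, hM⟩ := h (p + 2) q
  refine ⟨(2 * Real.pi)⁻¹ * (3 * (|W| ^ (j + 1) * J0)) * e0⁻¹ * M, by
    have := J0_nonneg; have := Real.pi_pos; positivity, fun a X Y hX hY h1 h2 => ?_⟩
  refine (AX_le he ((hw a).p.pow j) (M := M) fun i p' =>
    hM a _ _ (by simp [st, hX]) hY (In_st hS i p' h1) h2).trans ?_
  have hW := (hw a).nonneg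
  have h3 : ∑ i, ∫ t, ‖w a (sp r i t) ^ (j + 1)‖ ≤ 3 * (|W| ^ (j + 1) * J0) := by
    calc ∑ i, ∫ t, ‖w a (sp r i t) ^ (j + 1)‖ ≤ ∑ _i : Fin 3, W ^ (j + 1) * J0 :=
          Finset.sum_le_sum fun i _ => (hw a).int_pow j i
      _ = 3 * (|W| ^ (j + 1) * J0) := by
          rw [Finset.sum_const, Finset.card_univ, Fintype.card_fin, nsmul_eq_mul, abs_of_nonneg hW]
          norm_num
  have hpi := Real.pi_pos
  have he' : 0 ≤ e0⁻¹ := by positivity
  refine mul_le_mul_of_nonneg_right (mul_le_mul_of_nonneg_right (mul_le_mul_of_nonneg_left h3 (by positivity))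
    he') hM0

theorem UB.smulsum {ι κ : Type*} {s : Finset κ} {c : κ → ℂ} {G : κ → ι → List ℂ → List ℂ → ℂ}
    (h : ∀ j ∈ s, UB K (G j)) : UB K fun a X Y => ∑ j ∈ s, c j * G j a X Y := by
  classical
  intro p q
  have h1 : ∀ j ∈ s, ∃ M : ℝ, 0 ≤ M ∧ ∀ a X Y, X.length = p → Y.length = q → In K X → In K Y → ‖G j a X Y‖ ≤ M :=
    fun j hj => h j hj p q
  choose! M hM using h1
  refine ⟨∑ j ∈ s, ‖c j‖ * M j, Finset.sum_nonneg fun j hj => mul_nonneg (norm_nonneg _) (hM j hj).1,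
    fun a X Y hX hY h2 h3 => (norm_sum_le _ _).trans (Finset.sum_le_sum fun j hj => ?_)⟩
  rw [norm_mul]
  exact mul_le_mul_of_nonneg_left ((hM j hj).2 a X Y hX hY h2 h3) (norm_nonneg _)

/-- **uniform bound of the operators** -/
theorem UB.wx {ι : Type*} (he : 0 < e0) (hS : StIn K r e0) {w : ι → ℂ → ℂ} (hw : ∀ a, WtB r W (w a)) (k : ℕ) :
    ∀ {G : ι → List ℂ → List ℂ → ℂ}, UB K G → UB K fun a => WX r e0 (w a) k (G a) := by
  induction k using Nat.strong_induction_on with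
  | _ k ih =>
    intro G hG
    rcases k with _ | k
    · simp only [WX_zero]; exact hG
    · have h1 : (fun a => WX r e0 (w a) (k + 1) (G a)) = fun a X Y => ∑ j : Fin (k + 1),
          (((k : ℂ) + 1)⁻¹ * (-1) ^ (j : ℕ)) * AX r e0 (fun s => w a s ^ ((j : ℕ) + 1)) (WX r e0 (w a) (k - j) (G a)) X Y := by
        funext a X Y
        rw [WX_succ, Finset.mul_sum]
        exact Finset.sum_congr rfl fun j _ => by ring
      rw [h1]
      refine UB.smulsum (G := fun j : Fin (k + 1) => fun a =>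
        AX r e0 (fun s => w a s ^ ((j : ℕ) + 1)) (WX r e0 (w a) (k - j) (G a))) fun j _ => ?_
      exact UB.ax (ih (k - j) (by omega) hG) he hS hw j

theorem UB.wy {ι : Type*} (he : 0 < e0) (hS : StIn K r e0) {w : ι → ℂ → ℂ} (hw : ∀ a, WtB r W (w a)) (k : ℕ)
    {G : ι → List ℂ → List ℂ → ℂ} (hG : UB K G) : UB K fun a => WY r e0 (w a) k (G a) :=
  (UB.wx he hS hw k hG.swap).swap

/-! ### families with a holomorphic parameter -/

/-- a holomorphic family of functions of two lists -/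
structure PF (U K : Set ℂ) (G : ℂ → List ℂ → List ℂ → ℂ) : Prop where
  adm : ∀ s ∈ U, Adm K (G s)
  hol : ∀ X Y, In K X → In K Y → DifferentiableOn ℂ (fun s => G s X Y) U
  ub : UB K fun s : U => G s

/-- a holomorphic family of weights -/
structure PW (U : Set ℂ) (r : Fin 3 → ℝ) (W : ℝ) (w : ℂ → ℂ → ℂ) : Prop where
  wt : ∀ s ∈ U, WtB r W (w s)
  hol : ∀ i t, DifferentiableOn ℂ (fun s => w s (sp r i t)) U

variable {U : Set ℂ}

theorem PF.swap {G : ℂ → List ℂ → List ℂ → ℂ} (h : PF U K G) : PF U K fun s Y X => G s X Y :=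
  ⟨fun s hs => (h.adm s hs).swap, fun X Y hX hY => h.hol Y X hY hX, h.ub.swap⟩

theorem PF.const {G : List ℂ → List ℂ → ℂ} (h : Adm K G) : PF U K fun _ => G := by
  refine ⟨fun _ _ => h, fun X Y _ _ => differentiableOn_const _, fun p q => ?_⟩
  obtain ⟨M, hM⟩ := h.bd_list p q
  exact ⟨|M|, abs_nonneg _, fun _ X Y hX hY h1 h2 => (hM X Y hX hY h1 h2).trans (le_abs_self _)⟩

theorem PF.ax {G : ℂ → List ℂ → List ℂ → ℂ} (h : PF U K G) (hU : IsOpen U) (he : 0 < e0) (hS : StIn K r e0)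
    {w : ℂ → ℂ → ℂ} (hw : PW U r W w) (j : ℕ) : PF U K fun s => AX r e0 (fun z => w s z ^ (j + 1)) (G s) := by
  refine ⟨fun s hs => (h.adm s hs).ax he hS ((hw.wt s hs).p.pow j), fun X Y hX hY => ?_, ?_⟩
  · simp only [AX_eq]
    refine DifferentiableOn.fun_sum fun i _ => DifferentiableOn.const_mul ?_ _
    obtain ⟨M, hM0, hM⟩ := h.ub (X.length + 2) Y.length
    have hst : ∀ s ∈ U, ∀ p, ‖G s (st r e0 i p X) Y‖ ≤ M := fun s hs p =>
      hM ⟨s, hs⟩ _ _ (by simp [st]) rfl (In_st hS i p hX) hY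
    refine par_int hU (b := fun p : ℝ × ℝ => (W ^ (j + 1) * Real.exp (-|p.1|)) * ((2 * Real.pi * e0)⁻¹ * M))
      ?_ ?_ ?_ ?_
    · intro s hs
      exact ((ker_cont he ((hw.wt s hs).p.pow j) i).mul ((h.adm s hs).cont_p hS i hX hY)).aestronglyMeasurable
    · intro p
      unfold ker
      refine DifferentiableOn.mul (DifferentiableOn.mul ?_ (differentiableOn_const _))
        (h.hol _ _ (In_st hS i p hX) hY)
      exact (hw.hol i p.1).pow (j + 1)
    · intro s hs p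
      rw [norm_mul, ker_norm he]
      have h1 := (hw.wt s hs).pow_le j i p.1
      have h2 := hst s hs p
      have hpi := Real.pi_pos
      calc ‖w s (sp r i p.1) ^ (j + 1)‖ * (2 * Real.pi * e0)⁻¹ * ‖G s (st r e0 i p X) Y‖
          ≤ (W ^ (j + 1) * Real.exp (-|p.1|)) * (2 * Real.pi * e0)⁻¹ * M :=
            mul_le_mul (mul_le_mul_of_nonneg_right h1 (by positivity)) h2 (norm_nonneg _) (by
              have := (norm_nonneg _).trans h1
              positivity)
        _ = _ := by ring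
    · exact (int_m0 (int_exp.const_mul (W ^ (j + 1)))).mul_const _
  · exact UB.ax h.ub he hS (fun a : U => hw.wt a a.2) j

theorem PF.smulsum {κ : Type*} {t : Finset κ} {c : κ → ℂ} {G : κ → ℂ → List ℂ → List ℂ → ℂ}
    (h : ∀ j ∈ t, PF U K (G j)) : PF U K fun s X Y => ∑ j ∈ t, c j * G j s X Y := by
  refine ⟨fun s hs => Adm.sum fun j hj => (h j hj).adm s hs, fun X Y hX hY => ?_, ?_⟩
  · exact DifferentiableOn.fun_sum fun j hj => ((h j hj).hol X Y hX hY).const_mul _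
  · exact UB.smulsum (G := fun j => fun s : U => G j s) fun j hj => (h j hj).ub

/-- **the operators preserve holomorphic families** -/
theorem PF.wx (hU : IsOpen U) (he : 0 < e0) (hS : StIn K r e0) {w : ℂ → ℂ → ℂ} (hw : PW U r W w) (k : ℕ) :
    ∀ {G : ℂ → List ℂ → List ℂ → ℂ}, PF U K G → PF U K fun s => WX r e0 (w s) k (G s) := by
  induction k using Nat.strong_induction_on with
  | _ k ih =>
    intro G hG
    rcases k with _ | k
    · simp only [WX_zero]; exact hG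
    · have h1 : (fun s => WX r e0 (w s) (k + 1) (G s)) = fun s X Y => ∑ j : Fin (k + 1),
          (((k : ℂ) + 1)⁻¹ * (-1) ^ (j : ℕ)) * AX r e0 (fun z => w s z ^ ((j : ℕ) + 1)) (WX r e0 (w s) (k - j) (G s)) X Y := by
        funext a X Y
        rw [WX_succ, Finset.mul_sum]
        exact Finset.sum_congr rfl fun j _ => by ring
      rw [h1]
      refine PF.smulsum (G := fun j : Fin (k + 1) => fun s =>
        AX r e0 (fun z => w s z ^ ((j : ℕ) + 1)) (WX r e0 (w s) (k - j) (G s))) fun j _ => ?_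
      exact PF.ax (ih (k - j) (by omega) hG) hU he hS hw j

theorem PF.wy (hU : IsOpen U) (he : 0 < e0) (hS : StIn K r e0) {w : ℂ → ℂ → ℂ} (hw : PW U r W w) (k : ℕ)
    {G : ℂ → List ℂ → List ℂ → ℂ} (hG : PF U K G) : PF U K fun s => WY r e0 (w s) k (G s) :=
  (PF.wx hU he hS hw k hG.swap).swap

end

end DRX

end
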