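import Mathlib

/-!
# DUAL-R, exact side (helper17): pairs of rows given by `ζ_± = exp (± v₁) + exp (± v₂)`

* `x1`, `x2`: the roots of `X² - ζ_+ X + ζ_+ / ζ_-`;
* `Rts R ζ`: both roots of the real configuration have modulus in `[1/R, R]` and argument `≤ arccos (7/20)`;
* `unit_roots`, `rts_A`, `rts_ge` (`Re ζ ≥ 34/25`), `rts_big` (`|ζ| > 2`);
* `root_near`, `row_near`: complex perturbation.
-/

set_option autoImplicit false

noncomputable section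

open Complex

namespace DRX

/-- a square root of the discriminant -/
def sqd (p m : ℂ) : ℂ := (p ^ 2 - 4 * (p / m)) ^ (((2 : ℕ) : ℂ)⁻¹)

/-- the first root -/
def x1 (p m : ℂ) : ℂ := (p + sqd p m) / 2

/-- the second root -/
def x2 (p m : ℂ) : ℂ := (p - sqd p m) / 2

theorem sqd_sq (p m : ℂ) : sqd p m ^ 2 = p ^ 2 - 4 * (p / m) :=
  Complex.cpow_nat_inv_pow _ two_ne_zero

theorem x_add (p m : ℂ) : x1 p m + x2 p m = p := by
  unfold x1 x2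
  ring

theorem x_mul (p m : ℂ) : x1 p m * x2 p m = p / m := by
  unfold x1 x2
  linear_combination (-1 / 4) * sqd_sq p m

theorem x1_root (p m : ℂ) : x1 p m ^ 2 - p * x1 p m + p / m = 0 := by
  linear_combination -(x_mul p m) + x1 p m * x_add p m

theorem x2_root (p m : ℂ) : x2 p m ^ 2 - p * x2 p m + p / m = 0 := by
  linear_combination -(x_mul p m) + x2 p m * x_add p m

/-- both roots of the real configuration -/
def Rts (R : ℝ) (ζ : ℂ) : Prop := ∃ X1 X2 : ℂ, X1 + X2 = ζ ∧ X1 * X2 = ζ / (starRingEnd ℂ) ζ ∧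
  (R⁻¹ ≤ ‖X1‖ ∧ ‖X1‖ ≤ R ∧ 7 / 20 * ‖X1‖ ≤ X1.re) ∧ (R⁻¹ ≤ ‖X2‖ ∧ ‖X2‖ ≤ R ∧ 7 / 20 * ‖X2‖ ≤ X2.re)

/-- roots on the unit circle -/
theorem unit_roots {ζ : ℂ} (h2 : ‖ζ‖ ≤ 2) (hu : 7 / 10 ≤ ζ.re)
    (hq : 2 * (7 / 20) * ζ.re + 2 * (15 / 16) * |ζ.im| ≤ ζ.re ^ 2 + ζ.im ^ 2) : Rts 1 ζ := by
  obtain ⟨r, hr⟩ : ∃ r, r = ‖ζ‖ := ⟨_, rfl⟩
  have hr2 : r ^ 2 = ζ.re ^ 2 + ζ.im ^ 2 := by
    rw [hr, Complex.sq_norm, Complex.normSq_apply]
    ring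
  have hζ0 : ζ ≠ 0 := by
    intro h
    rw [h, Complex.zero_re] at hu
    norm_num at hu
  have hr0 : 0 < r := by rw [hr]; exact norm_pos_iff.2 hζ0
  have hq0 : 0 ≤ 1 - r ^ 2 / 4 := by
    have h3 : r ^ 2 ≤ 4 := by nlinarith [hr ▸ h2]
    linarith
  obtain ⟨q, hqd⟩ : ∃ q, q = Real.sqrt (1 - r ^ 2 / 4) / r := ⟨_, rfl⟩
  have hq1 : q ^ 2 * r ^ 2 = 1 - r ^ 2 / 4 := by
    rw [hqd, div_pow, Real.sq_sqrt hq0, div_mul_cancel₀ _ (by positivity)]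
  have hq2 : 0 ≤ q := by rw [hqd]; positivity
  have hc : ζ * (starRingEnd ℂ) ζ = ((r ^ 2 : ℝ) : ℂ) := by
    rw [Complex.mul_conj, Complex.normSq_eq_norm_sq, ← hr]
  have hcn : (starRingEnd ℂ) ζ ≠ 0 := by
    rwa [Ne, map_eq_zero]
  -- the key inequality
  have key : |ζ.im| * q ≤ ζ.re / 2 - 7 / 20 := by
    refine abs_le_of_sq_le_sq' ?_ (by linarith) |>.2
    have h3 : |ζ.im| ^ 2 = ζ.im ^ 2 := sq_abs _
    have h4 : (|ζ.im| * q) ^ 2 * r ^ 2 ≤ (ζ.re / 2 - 7 / 20) ^ 2 * r ^ 2 := by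
      have e1 : (|ζ.im| * q) ^ 2 * r ^ 2 = ζ.im ^ 2 * (1 - r ^ 2 / 4) := by
        rw [mul_pow, h3, mul_assoc, hq1]
      have e2 : (ζ.re / 2 - 7 / 20) ^ 2 * r ^ 2 - ζ.im ^ 2 * (1 - r ^ 2 / 4) =
          (r ^ 2 / 2 - 7 / 20 * ζ.re) ^ 2 - 351 / 400 * ζ.im ^ 2 := by
        rw [hr2]
        ring
      have e3 : 15 / 16 * |ζ.im| ≤ r ^ 2 / 2 - 7 / 20 * ζ.re := by
        rw [hr2]
        linarith
      have e4 : (15 / 16 * |ζ.im|) ^ 2 ≤ (r ^ 2 / 2 - 7 / 20 * ζ.re) ^ 2 :=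
        pow_le_pow_left₀ (by positivity) e3 2
      rw [mul_pow, h3] at e4
      rw [e1]
      nlinarith [sq_nonneg ζ.im]
    exact le_of_mul_le_mul_right h4 (by positivity)
  have hI : (I : ℂ) ^ 2 = -1 := Complex.I_sq
  have hqc : (q : ℂ) ^ 2 * (r : ℂ) ^ 2 = 1 - (r : ℂ) ^ 2 / 4 := by exact_mod_cast congrArg (fun x : ℝ => (x : ℂ)) hq1
  have nrm : ∀ s : ℝ, s ^ 2 = q ^ 2 → ‖ζ * (1 / 2 + (s : ℂ) * I)‖ = 1 := by
    intro s hs
    rw [norm_mul, ← hr]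
    have h5 : ‖(1 / 2 + (s : ℂ) * I : ℂ)‖ ^ 2 = 1 / 4 + s ^ 2 := by
      rw [Complex.sq_norm, Complex.normSq_apply]
      simp
      ring
    have h6 : (r * ‖(1 / 2 + (s : ℂ) * I : ℂ)‖) ^ 2 = 1 := by
      rw [mul_pow, h5, hs]
      linarith
    nlinarith [norm_nonneg (1 / 2 + (s : ℂ) * I : ℂ), mul_nonneg hr0.le (norm_nonneg (1 / 2 + (s : ℂ) * I : ℂ))]
  have re : ∀ s : ℝ, (ζ * (1 / 2 + (s : ℂ) * I)).re = ζ.re / 2 - ζ.im * s := by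
    intro s
    rw [Complex.mul_re]
    simp
    ring
  refine ⟨ζ * (1 / 2 + (q : ℂ) * I), ζ * (1 / 2 + ((-q : ℝ) : ℂ) * I), ?_, ?_, ⟨?_, ?_, ?_⟩, ?_, ?_, ?_⟩
  · push_cast
    ring
  · rw [eq_div_iff hcn]
    have h7 : ζ * (1 / 2 + (q : ℂ) * I) * (ζ * (1 / 2 + ((-q : ℝ) : ℂ) * I)) * (starRingEnd ℂ) ζ =
        ζ * ((ζ * (starRingEnd ℂ) ζ) * (1 / 4 + (q : ℂ) ^ 2)) := by
      push_cast
      linear_combination (-ζ ^ 2 * (starRingEnd ℂ) ζ * (q : ℂ) ^ 2) * hI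
    rw [h7, hc]
    push_cast
    linear_combination ζ * hqc
  · rw [nrm q rfl]; norm_num
  · rw [nrm q rfl]
  · rw [nrm q rfl, re]
    have := le_abs_self ζ.im
    nlinarith [mul_le_mul_of_nonneg_right this hq2]
  · rw [nrm (-q) (by ring)]; norm_num
  · rw [nrm (-q) (by ring)]
  · rw [nrm (-q) (by ring), re]
    have := neg_abs_le ζ.im
    nlinarith [mul_le_mul_of_nonneg_right this hq2]

theorem rts_ge {ζ : ℂ} (h2 : ‖ζ‖ ≤ 2) (hu : 34 / 25 ≤ ζ.re) : Rts 1 ζ := by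
  refine unit_roots h2 (by linarith) ?_
  have h := sq_abs ζ.im
  nlinarith [sq_nonneg (|ζ.im| - 15 / 16), mul_nonneg (by linarith : 0 ≤ ζ.re - 34 / 25) (by linarith : 0 ≤ ζ.re - 34 / 25)]

theorem Rts.mono {R R' : ℝ} {ζ : ℂ} (h : Rts R ζ) (hR : 0 < R) (hRR : R ≤ R') : Rts R' ζ := by
  obtain ⟨X1, X2, h1, h2, ⟨a1, a2, a3⟩, b1, b2, b3⟩ := h
  have hi : R'⁻¹ ≤ R⁻¹ := inv_anti₀ hR hRR
  exact ⟨X1, X2, h1, h2, ⟨hi.trans a1, a2.trans hRR, a3⟩, hi.trans b1, b2.trans hRR, b3⟩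

/-- the roots for `|ζ| > 2` -/
theorem rts_big {ζ : ℂ} (h2 : 2 ≤ ‖ζ‖) (h5 : ‖ζ‖ ≤ 5) (hu : 7 / 20 * ‖ζ‖ ≤ ζ.re) : Rts 5 ζ := by
  obtain ⟨r, hr⟩ : ∃ r, r = ‖ζ‖ := ⟨_, rfl⟩
  rw [← hr] at h2 h5 hu
  have hr0 : 0 < r := by linarith
  have hζ0 : ζ ≠ 0 := by
    intro h
    rw [h, norm_zero] at hr
    linarith
  have hq0 : 0 ≤ r ^ 2 / 4 - 1 := by nlinarith
  obtain ⟨q, hqd⟩ : ∃ q, q = Real.sqrt (r ^ 2 / 4 - 1) := ⟨_, rfl⟩
  have hq1 : q ^ 2 = r ^ 2 / 4 - 1 := by rw [hqd, Real.sq_sqrt hq0]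
  have hq2 : 0 ≤ q := by rw [hqd]; positivity
  have hq3 : q ≤ r / 2 := by nlinarith
  have hq4 : q < r / 2 := by
    rcases lt_or_eq_of_le hq3 with h | h
    · exact h
    · nlinarith
  have hc : ζ * (starRingEnd ℂ) ζ = ((r ^ 2 : ℝ) : ℂ) := by
    rw [Complex.mul_conj, Complex.normSq_eq_norm_sq, ← hr]
  have hcn : (starRingEnd ℂ) ζ ≠ 0 := by
    rwa [Ne, map_eq_zero]
  have hrc : (r : ℂ) ≠ 0 := Complex.ofReal_ne_zero.2 hr0.ne'
  have hqc : (q : ℂ) ^ 2 = (r : ℂ) ^ 2 / 4 - 1 := by exact_mod_cast congrArg (fun x : ℝ => (x : ℂ)) hq1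
  have hp : (r / 2 + q) * (r / 2 - q) = 1 := by nlinarith
  have hp1 : r / 2 + q ≤ 5 := by linarith
  have hp2 : 1 ≤ r / 2 + q := by linarith
  have hp3 : 0 < r / 2 - q := by linarith
  have hp4 : 5⁻¹ ≤ r / 2 - q := by
    have : r / 2 - q = (r / 2 + q)⁻¹ := eq_inv_of_mul_eq_one_right hp
    rw [this]
    exact inv_anti₀ (by linarith) hp1
  have hp5 : r / 2 - q ≤ 5 := by linarith
  have nrm : ∀ s : ℝ, 0 ≤ s → ‖ζ * ((s / r : ℝ) : ℂ)‖ = s := by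
    intro s hs
    rw [norm_mul, ← hr, Complex.norm_real, Real.norm_of_nonneg (by positivity)]
    field_simp
  have re : ∀ s : ℝ, 0 ≤ s → 7 / 20 * s ≤ (ζ * ((s / r : ℝ) : ℂ)).re := by
    intro s hs
    rw [Complex.mul_re, Complex.ofReal_re, Complex.ofReal_im, mul_zero, sub_zero]
    have h6 : 7 / 20 * s = (7 / 20 * r) * (s / r) := by field_simp
    rw [h6]
    exact mul_le_mul_of_nonneg_right hu (by positivity)
  refine ⟨ζ * (((r / 2 + q) / r : ℝ) : ℂ), ζ * (((r / 2 - q) / r : ℝ) : ℂ), ?_, ?_, ⟨?_, ?_, ?_⟩, ?_, ?_, ?_⟩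
  · push_cast
    field_simp
    ring
  · rw [eq_div_iff hcn]
    have h7 : ζ * (((r / 2 + q) / r : ℝ) : ℂ) * (ζ * (((r / 2 - q) / r : ℝ) : ℂ)) * (starRingEnd ℂ) ζ =
        ζ * ((ζ * (starRingEnd ℂ) ζ) * ((((r / 2 + q) * (r / 2 - q)) / r ^ 2 : ℝ) : ℂ)) := by
      push_cast
      ring
    rw [h7, hc, hp]
    push_cast
    field_simp
  · rw [nrm _ (by linarith)]; norm_num; linarith
  · rw [nrm _ (by linarith)]; exact hp1
  · rw [nrm _ (by linarith)]; exact re _ (by linarith)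
  · rw [nrm _ hp3.le]; exact hp4
  · rw [nrm _ hp3.le]; exact hp5
  · rw [nrm _ hp3.le]; exact re _ hp3.le

/-- the chord from `1` -/
theorem rts_A {a b t : ℝ} (ha : 3 / 2 ≤ a) (hb : 0 ≤ b) (hab : a ^ 2 + b ^ 2 = 3) (h0 : 0 ≤ t) (h1 : t ≤ 1) :
    Rts 1 (⟨1 + t * (a - 1), t * b⟩ : ℂ) := by
  have ha2 : a ≤ 1733 / 1000 := by nlinarith
  obtain ⟨h, hh⟩ : ∃ h, h = Real.sqrt 3 / 2 := ⟨_, rfl⟩
  have hh2 : h ^ 2 = 3 / 4 := by
    rw [hh, div_pow, Real.sq_sqrt (by norm_num)]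
    norm_num
  have hh0 : 0 ≤ h := by rw [hh]; positivity
  have hh3 : h ≤ 8661 / 10000 := by nlinarith
  have hbh : b ≤ h := by nlinarith
  have hd : (a - 3 / 2) * 3 ≤ (h - b) * (9 / 5) := by nlinarith
  have hr2 : (1 + t * (a - 1)) ^ 2 + (t * b) ^ 2 = 1 + 2 * t * (a - 1) + t ^ 2 * (4 - 2 * a) := by
    have : b ^ 2 = 3 - a ^ 2 := by linarith
    rw [mul_pow, this]
    ring
  refine unit_roots ?_ ?_ ?_
  · have h3 : ‖(⟨1 + t * (a - 1), t * b⟩ : ℂ)‖ ^ 2 ≤ 4 := by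
      rw [Complex.sq_norm, Complex.normSq_apply]
      have : (1 + t * (a - 1)) * (1 + t * (a - 1)) + t * b * (t * b) =
          1 + 2 * t * (a - 1) + t ^ 2 * (4 - 2 * a) := by rw [← hr2]; ring
      simp only
      rw [this]
      have : t ^ 2 ≤ 1 := by nlinarith
      nlinarith
    nlinarith [norm_nonneg (⟨1 + t * (a - 1), t * b⟩ : ℂ)]
  · simp only
    nlinarith
  · simp only
    rw [hr2, abs_of_nonneg (by positivity)]
    have e1 : 0 ≤ t * ((h - b) * (9 / 5) - (a - 3 / 2) * 3) := by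
      refine mul_nonneg h0 ?_
      linarith
    have e2 : 0 ≤ t * (a - 3 / 2) := mul_nonneg h0 (by linarith)
    have e3 : 0 ≤ t * (h - b) := mul_nonneg h0 (by linarith)
    have e4 : 0 ≤ t * (8661 / 10000 - h) := mul_nonneg h0 (by linarith)
    have e5 : 0 ≤ t * (a - 3 / 2) * (1 - t) := mul_nonneg e2 (by linarith)
    nlinarith [sq_nonneg (t - 12 / 25)]

/-- a root of the perturbed polynomial is near a root -/
theorem root_near {p m ζ X X1 X2 : ℂ} {ε : ℝ} (hX : X ^ 2 - p * X + p / m = 0) (h1 : X1 + X2 = ζ)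
    (h2 : X1 * X2 = ζ / (starRingEnd ℂ) ζ) (hζ : 1 ≤ ‖ζ‖) (hζ' : ‖ζ‖ ≤ 4) (hp : ‖p - ζ‖ ≤ ε)
    (hm : ‖m - (starRingEnd ℂ) ζ‖ ≤ ε) (hε : ε ≤ 1 / 10 ^ 8) : ‖X - X1‖ ≤ 1 / 2000 ∨ ‖X - X2‖ ≤ 1 / 2000 := by
  have hε0 : 0 ≤ ε := (norm_nonneg _).trans hp
  have hcn : ‖(starRingEnd ℂ) ζ‖ = ‖ζ‖ := RCLike.norm_conj ζ
  have hζ0 : ζ ≠ 0 := norm_pos_iff.1 (by linarith)
  have hc0 : (starRingEnd ℂ) ζ ≠ 0 := norm_pos_iff.1 (by rw [hcn]; linarith)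
  have hmn : 9 / 10 ≤ ‖m‖ := by
    have h3 := norm_sub_norm_le ((starRingEnd ℂ) ζ) m
    rw [hcn] at h3
    have h4 : ‖(starRingEnd ℂ) ζ - m‖ ≤ ε := by rw [norm_sub_rev]; exact hm
    have : ε ≤ 1 / 10 := hε.trans (by norm_num)
    linarith
  have hm0 : m ≠ 0 := norm_pos_iff.1 (by linarith)
  have hpn : ‖p‖ ≤ 41 / 10 := by
    have h3 := norm_sub_norm_le p ζ
    have : ε ≤ 1 / 10 := hε.trans (by norm_num)
    linarith
  have hXn : ‖X‖ ≤ 6 := by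
    by_contra hc
    push Not at hc
    have h3 : X ^ 2 = p * X - p / m := by linear_combination hX
    have h4 : ‖X‖ ^ 2 ≤ ‖p‖ * ‖X‖ + ‖p‖ / ‖m‖ := by
      rw [← norm_pow, h3]
      refine (norm_sub_le _ _).trans ?_
      rw [norm_mul, norm_div]
    have h5 : ‖p‖ / ‖m‖ ≤ 5 := by
      rw [div_le_iff₀ (by linarith)]
      linarith
    have h6 : ‖p‖ * ‖X‖ ≤ 41 / 10 * ‖X‖ := mul_le_mul_of_nonneg_right hpn (norm_nonneg _)
    nlinarith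
  have hdiff : ‖ζ / (starRingEnd ℂ) ζ - p / m‖ ≤ 3 * ε := by
    have h3 : ζ / (starRingEnd ℂ) ζ - p / m =
        (ζ * (m - (starRingEnd ℂ) ζ) + (starRingEnd ℂ) ζ * (ζ - p)) / ((starRingEnd ℂ) ζ * m) := by
      field_simp
      ring
    rw [h3, norm_div, norm_mul ((starRingEnd ℂ) ζ) m, hcn, div_le_iff₀ (by positivity)]
    have h4 : ‖ζ * (m - (starRingEnd ℂ) ζ) + (starRingEnd ℂ) ζ * (ζ - p)‖ ≤ ‖ζ‖ * ε + ‖ζ‖ * ε := by
      refine (norm_add_le _ _).trans ?_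
      rw [norm_mul, norm_mul, hcn, norm_sub_rev ζ p]
      gcongr
    refine h4.trans ?_
    have h5 : 0 ≤ ‖ζ‖ * ε := by positivity
    nlinarith
  have hprod : ‖X - X1‖ * ‖X - X2‖ ≤ 9 * ε := by
    rw [← norm_mul]
    have h3 : (X - X1) * (X - X2) = (p - ζ) * X + (ζ / (starRingEnd ℂ) ζ - p / m) := by
      rw [← h2]
      linear_combination hX - X * h1
    rw [h3]
    refine (norm_add_le _ _).trans ?_
    rw [norm_mul]
    have h4 : ‖p - ζ‖ * ‖X‖ ≤ ε * 6 := by gcongr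
    linarith
  by_contra hc
  push Not at hc
  have h5 : (1 / 2000 : ℝ) * (1 / 2000) < ‖X - X1‖ * ‖X - X2‖ :=
    mul_lt_mul'' hc.1 hc.2 (by norm_num) (by norm_num)
  have h6 : 9 * ε ≤ 9 / 10 ^ 8 := by linarith
  norm_num at h5 h6
  linarith

theorem cos_75 : Real.cos (5 * Real.pi / 12) ≤ 13 / 50 := by
  have h : (5 * Real.pi / 12 : ℝ) = Real.pi / 4 + Real.pi / 6 := by ring
  rw [h, Real.cos_add, Real.cos_pi_div_four, Real.cos_pi_div_six, Real.sin_pi_div_four, Real.sin_pi_div_six]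
  have h2 : Real.sqrt 2 ≤ 14143 / 10000 := by
    rw [Real.sqrt_le_left (by norm_num)]
    norm_num
  have h3 : Real.sqrt 3 ≤ 17321 / 10000 := by
    rw [Real.sqrt_le_left (by norm_num)]
    norm_num
  have h4 : 1 ≤ Real.sqrt 3 := Real.one_le_sqrt.2 (by norm_num)
  have h5 := Real.sqrt_nonneg 2
  have h6 : Real.sqrt 2 * (Real.sqrt 3 - 1) ≤ 14143 / 10000 * (7321 / 10000) := by
    refine mul_le_mul h2 ?_ ?_ ?_ <;> linarith
  nlinarith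

/-- the row of a root near a root -/
theorem row_near {X X0 : ℂ} {R : ℝ} (hR0 : 0 < R) (hR : R ≤ 5) (h : ‖X - X0‖ ≤ 1 / 2000) (h1 : R⁻¹ ≤ ‖X0‖)
    (h2 : ‖X0‖ ≤ R) (h3 : 7 / 20 * ‖X0‖ ≤ X0.re) : X ≠ 0 ∧ |(Complex.log X).im| ≤ 5 * Real.pi / 12 ∧
      |(Complex.log X).re| ≤ 2 ∧ (R = 1 → |(Complex.log X).re| ≤ 1 / 1000) := by
  have hR5 : (5 : ℝ)⁻¹ ≤ R⁻¹ := inv_anti₀ hR0 hR
  have h4 : ‖X0‖ - 1 / 2000 ≤ ‖X‖ := by
    have := norm_sub_norm_le X0 X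
    rw [norm_sub_rev] at this
    linarith
  have h5 : ‖X‖ ≤ ‖X0‖ + 1 / 2000 := by
    have := norm_sub_norm_le X X0
    linarith
  have h6 : X0.re - 1 / 2000 ≤ X.re := by
    have h7 := (Complex.abs_re_le_norm (X - X0)).trans h
    rw [Complex.sub_re] at h7
    linarith [(abs_le.1 h7).1]
  norm_num at hR5
  have h7 : 1 / 6 < ‖X‖ := by linarith
  have hX : X ≠ 0 := norm_pos_iff.1 (by linarith)
  have h8 : 13 / 50 * ‖X‖ ≤ X.re := by linarith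
  have e2 : (6 : ℝ) ≤ Real.exp 2 := by
    have e1 := Real.exp_one_gt_d9
    have : Real.exp 2 = Real.exp 1 ^ 2 := by rw [← Real.exp_nat_mul]; norm_num
    rw [this]
    nlinarith
  refine ⟨hX, ?_, ?_, fun hR1 => ?_⟩
  · rw [Complex.log_im]
    by_contra hc
    push Not at hc
    have h9 := Real.cos_lt_cos_of_nonneg_of_le_pi (by have := Real.pi_pos; positivity) (Complex.abs_arg_le_pi X) hc
    rw [Real.cos_abs, Complex.cos_arg hX] at h9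
    have h10 : 13 / 50 ≤ X.re / ‖X‖ := by rwa [le_div_iff₀ (by linarith)]
    linarith [cos_75]
  · rw [Complex.log_re, abs_le]
    constructor
    · rw [Real.le_log_iff_exp_le (by linarith), Real.exp_neg]
      have : (Real.exp 2)⁻¹ ≤ 6⁻¹ := inv_anti₀ (by norm_num) e2
      refine this.trans ?_
      norm_num
      linarith
    · rw [Real.log_le_iff_le_exp (by linarith)]
      linarith
  · subst hR1
    have h9 : ‖X0‖ = 1 := le_antisymm h2 (by simpa using h1)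
    rw [h9] at h4 h5
    rw [Complex.log_re, abs_le]
    constructor
    · have := Real.one_sub_inv_le_log_of_pos (x := ‖X‖) (by linarith)
      have h10 : ‖X‖⁻¹ ≤ 1 + 1 / 1000 := by
        rw [inv_le_comm₀ (by linarith) (by norm_num)]
        refine le_trans ?_ h4
        norm_num
      linarith
    · have := Real.log_le_sub_one_of_pos (x := ‖X‖) (by linarith)
      linarith

end DRX

end
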