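import Pool.Agent.DRX.Path
import Pool.Agent.DRX.Lem

/-!
# DUAL-R, exact side (helper17): paths of pairs

* `PPt R p m`: a path of pairs, `p = ζ_+`, `m = ζ_-`; `dom` = neighbourhood of `[0, 1]`;
* `prsT p m`: the two rows; `PPt.rows`: places, heights, sums;
* `Lam_pair`: `Lam [v₁, v₂]` is rational in `ζ_±`; `PPt.diff`: holomorphic in `t`.
-/

set_option autoImplicit false

noncomputable section

open Complex MeasureTheory Filter Topology

namespace DRX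

open DUA DUA.Pf

/-! ### one pair -/

/-- the rational function -/
def nq (σ p m z : ℂ) : ℂ := Complex.exp (2 * z) * (m / p) + Complex.exp (-(2 * z)) * (p / m) + p * m + 1 +
  σ * ((Real.sqrt 3 : ℝ) : ℂ) * (Complex.exp z * m + Complex.exp (-z) * p)

theorem nq_eq (σ v1 v2 z : ℂ) (hσ : σ ^ 2 = 1) (hp : Complex.exp v1 + Complex.exp v2 ≠ 0) :
    nq σ (Complex.exp v1 + Complex.exp v2) (Complex.exp (-v1) + Complex.exp (-v2)) z =
      (2 * Complex.cosh (z - v1) + σ * ((Real.sqrt 3 : ℝ) : ℂ)) *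
        (2 * Complex.cosh (z - v2) + σ * ((Real.sqrt 3 : ℝ) : ℂ)) := by
  have h1 := Complex.exp_ne_zero v1
  have h2 := Complex.exp_ne_zero v2
  have hz := Complex.exp_ne_zero z
  have h3 : ((Real.sqrt 3 : ℝ) : ℂ) ^ 2 = 3 := by
    rw [← Complex.ofReal_pow, Real.sq_sqrt (by norm_num)]
    norm_num
  have hm : Complex.exp (-v1) + Complex.exp (-v2) =
      (Complex.exp v1 + Complex.exp v2) / (Complex.exp v1 * Complex.exp v2) := by
    rw [Complex.exp_neg, Complex.exp_neg]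
    field_simp
    ring
  have e1 : 2 * Complex.cosh (z - v1) = Complex.exp z / Complex.exp v1 + Complex.exp v1 / Complex.exp z := by
    rw [Complex.cosh, Complex.exp_sub, neg_sub, Complex.exp_sub]
    ring
  have e2 : 2 * Complex.cosh (z - v2) = Complex.exp z / Complex.exp v2 + Complex.exp v2 / Complex.exp z := by
    rw [Complex.cosh, Complex.exp_sub, neg_sub, Complex.exp_sub]
    ring
  have e3 : Complex.exp (2 * z) = Complex.exp z ^ 2 := by
    rw [← Complex.exp_nat_mul]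
    norm_num
  have e4 : Complex.exp (-(2 * z)) = (Complex.exp z ^ 2)⁻¹ := by rw [Complex.exp_neg, e3]
  rw [e1, e2]
  unfold nq
  rw [hm, e3, e4, Complex.exp_neg z]
  generalize Complex.exp v1 = a at *
  generalize Complex.exp v2 = b at *
  generalize Complex.exp z = x at *
  generalize ((Real.sqrt 3 : ℝ) : ℂ) = q at *
  have e5 : (a + b) / (a * b) / (a + b) = 1 / (a * b) := by
    field_simp
  have e6 : (a + b) / ((a + b) / (a * b)) = a * b := by
    field_simp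
  rw [e5, e6]
  have e7 : (a + b) * ((a + b) / (a * b)) = a / b + b / a + 2 := by
    field_simp
    ring
  rw [e7]
  have e8 : σ ^ 2 * q ^ 2 = 3 := by rw [hσ, h3, one_mul]
  field_simp
  linear_combination (-(a * b * x ^ 2)) * e8

theorem nq_ne {v1 v2 z : ℂ} (hp : Complex.exp v1 + Complex.exp v2 ≠ 0) (h1 : |(z - v1).im| < 5 * Real.pi / 6)
    (h2 : |(z - v2).im| < 5 * Real.pi / 6) :
    nq 1 (Complex.exp v1 + Complex.exp v2) (Complex.exp (-v1) + Complex.exp (-v2)) z ≠ 0 := by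
  rw [nq_eq 1 v1 v2 z (by norm_num) hp]
  have key : ∀ v : ℂ, |(z - v).im| < 5 * Real.pi / 6 → 2 * Complex.cosh (z - v) + 1 * ((Real.sqrt 3 : ℝ) : ℂ) ≠ 0 := by
    intro v hv h
    refine tau_den_ne hv ?_
    push_cast
    linear_combination h / 2
  exact mul_ne_zero (key v1 h1) (key v2 h2)

theorem tau_two (v z : ℂ) : tau (v - z) = (2 * Complex.cosh (z - v) + -1 * ((Real.sqrt 3 : ℝ) : ℂ)) /
    (2 * Complex.cosh (z - v) + 1 * ((Real.sqrt 3 : ℝ) : ℂ)) := by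
  rw [tau_eq, show Complex.cosh (v - z) = Complex.cosh (z - v) by rw [← Complex.cosh_neg, neg_sub],
    ← mul_div_mul_left _ _ (by norm_num : (2 : ℂ) ≠ 0)]
  congr 1
  · push_cast
    ring
  · push_cast
    ring

/-- **`Lam` of a pair** -/
theorem Lam_pair {v1 v2 z : ℂ} (hp : Complex.exp v1 + Complex.exp v2 ≠ 0) :
    Lam [v1, v2] z = nq (-1) (Complex.exp v1 + Complex.exp v2) (Complex.exp (-v1) + Complex.exp (-v2)) z /
      nq 1 (Complex.exp v1 + Complex.exp v2) (Complex.exp (-v1) + Complex.exp (-v2)) z := by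
  rw [nq_eq 1 v1 v2 z (by norm_num) hp, nq_eq (-1) v1 v2 z (by norm_num) hp]
  unfold Lam
  simp only [List.map_cons, List.map_nil, List.prod_cons, List.prod_nil, mul_one]
  rw [tau_two, tau_two, div_mul_div_comm]

/-! ### paths of pairs -/

/-- neighbourhood of `[0, 1]` -/
def dom : Set ℂ := {t | ∃ t0 ∈ Set.Icc (0 : ℝ) 1, ‖t - (t0 : ℂ)‖ < 1 / 10 ^ 9}

theorem dom_open : IsOpen dom := by
  have : dom = ⋃ t0 ∈ Set.Icc (0 : ℝ) 1, Metric.ball (t0 : ℂ) (1 / 10 ^ 9) := by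
    ext t
    simp only [dom, Set.mem_setOf_eq, Set.mem_iUnion, Metric.mem_ball, dist_eq_norm, exists_prop]
  rw [this]
  exact isOpen_biUnion fun _ _ => Metric.isOpen_ball

/-- a path of pairs -/
structure PPt (R : ℝ) (p m : ℂ → ℂ) : Prop where
  R0 : 0 < R
  R5 : R ≤ 5
  dp : Differentiable ℂ p
  dm : Differentiable ℂ m
  lp : ∀ t0 ∈ Set.Icc (0 : ℝ) 1, ∀ t : ℂ, ‖t - (t0 : ℂ)‖ ≤ 1 / 10 ^ 9 → ‖p t - p t0‖ ≤ 1 / 10 ^ 8
  lm : ∀ t0 ∈ Set.Icc (0 : ℝ) 1, ∀ t : ℂ, ‖t - (t0 : ℂ)‖ ≤ 1 / 10 ^ 9 → ‖m t - m t0‖ ≤ 1 / 10 ^ 8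
  cj : ∀ t0 ∈ Set.Icc (0 : ℝ) 1, m t0 = (starRingEnd ℂ) (p t0)
  ge : ∀ t0 ∈ Set.Icc (0 : ℝ) 1, 1 ≤ ‖p t0‖
  le : ∀ t0 ∈ Set.Icc (0 : ℝ) 1, ‖p t0‖ ≤ 4
  rts : ∀ t0 ∈ Set.Icc (0 : ℝ) 1, Rts R (p t0)

/-- the two rows -/
def prsT (p m : ℂ) : List ℂ := [Complex.log (x1 p m), Complex.log (x2 p m)]

variable {R : ℝ} {p m : ℂ → ℂ}

theorem PPt.ne (h : PPt R p m) {t : ℂ} (ht : t ∈ dom) : p t ≠ 0 ∧ m t ≠ 0 := by
  obtain ⟨t0, h0, h1⟩ := ht
  have a1 := h.lp t0 h0 t h1.le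
  have a2 := h.lm t0 h0 t h1.le
  have a3 := h.ge t0 h0
  have a4 : 1 ≤ ‖m t0‖ := by rw [h.cj t0 h0, RCLike.norm_conj]; exact a3
  have a5 := norm_sub_norm_le (p t0) (p t)
  have a6 := norm_sub_norm_le (m t0) (m t)
  rw [norm_sub_rev] at a5 a6
  have a7 : (1 / 10 ^ 8 : ℝ) < 1 := by norm_num
  exact ⟨norm_pos_iff.1 (by linarith), norm_pos_iff.1 (by linarith)⟩

theorem PPt.near (h : PPt R p m) {t X : ℂ} (ht : t ∈ dom) (hX : X ^ 2 - p t * X + p t / m t = 0) :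
    X ≠ 0 ∧ |(Complex.log X).im| ≤ 5 * Real.pi / 12 ∧
      |(Complex.log X).re| ≤ 2 ∧ (R = 1 → |(Complex.log X).re| ≤ 1 / 1000) := by
  obtain ⟨t0, h0, h1⟩ := ht
  obtain ⟨X1, X2, e1, e2, ⟨b1, b2, b3⟩, c1, c2, c3⟩ := h.rts t0 h0
  have hm := h.lm t0 h0 t h1.le
  rw [h.cj t0 h0] at hm
  rcases root_near hX e1 e2 (h.ge t0 h0) (h.le t0 h0) (h.lp t0 h0 t h1.le) hm le_rfl with hn | hn
  · exact row_near h.R0 h.R5 hn b1 b2 b3
  · exact row_near h.R0 h.R5 hn c1 c2 c3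

/-- places and heights of the rows -/
theorem PPt.rows (h : PPt R p m) {t : ℂ} (ht : t ∈ dom) : ∀ v ∈ prsT (p t) (m t),
    |v.im| ≤ 5 * Real.pi / 12 ∧ |v.re| ≤ 2 ∧ (R = 1 → |v.re| ≤ 1 / 1000) := by
  intro v hv
  simp only [prsT, List.mem_cons, List.not_mem_nil, or_false] at hv
  rcases hv with rfl | rfl
  · exact (h.near ht (x1_root _ _)).2
  · exact (h.near ht (x2_root _ _)).2

theorem PPt.exp_log (h : PPt R p m) {t : ℂ} (ht : t ∈ dom) :
    Complex.exp (Complex.log (x1 (p t) (m t))) + Complex.exp (Complex.log (x2 (p t) (m t))) = p t ∧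
    Complex.exp (-Complex.log (x1 (p t) (m t))) + Complex.exp (-Complex.log (x2 (p t) (m t))) = m t := by
  have h1 := (h.near ht (x1_root (p t) (m t))).1
  have h2 := (h.near ht (x2_root (p t) (m t))).1
  have h3 := x_add (p t) (m t)
  have h4 := x_mul (p t) (m t)
  obtain ⟨hp, hm⟩ := h.ne ht
  rw [Complex.exp_neg, Complex.exp_neg, Complex.exp_log h1, Complex.exp_log h2]
  refine ⟨h3, ?_⟩
  generalize x1 (p t) (m t) = a at *
  generalize x2 (p t) (m t) = b at *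
  have h5 : a⁻¹ + b⁻¹ = (a + b) / (a * b) := by
    field_simp
    ring
  rw [h5, h3, h4]
  field_simp

theorem PPt.sums (h : PPt R p m) {t : ℂ} (ht : t ∈ dom) :
    ((prsT (p t) (m t)).map fun v => Complex.exp v).sum = p t ∧
    ((prsT (p t) (m t)).map fun v => Complex.exp (-v)).sum = m t := by
  obtain ⟨h1, h2⟩ := h.exp_log ht
  unfold prsT
  simp only [List.map_cons, List.map_nil, List.sum_cons, List.sum_nil, add_zero]
  exact ⟨h1, h2⟩

theorem PPt.Lam_eq (h : PPt R p m) {t : ℂ} (ht : t ∈ dom) (z : ℂ) :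
    Lam (prsT (p t) (m t)) z = nq (-1) (p t) (m t) z / nq 1 (p t) (m t) z := by
  obtain ⟨h1, h2⟩ := h.exp_log ht
  unfold prsT
  rw [Lam_pair (by rw [h1]; exact (h.ne ht).1), h1, h2]

theorem PPt.nq_ne (h : PPt R p m) {t z : ℂ} (ht : t ∈ dom) (hz : |z.im| ≤ 11 * Real.pi / 30) :
    nq 1 (p t) (m t) z ≠ 0 := by
  obtain ⟨h1, h2⟩ := h.exp_log ht
  have hr := h.rows ht
  simp only [prsT, List.mem_cons, List.not_mem_nil, or_false, forall_eq_or_imp, forall_eq] at hr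
  have hpi := Real.pi_pos
  have key : ∀ v : ℂ, |v.im| ≤ 5 * Real.pi / 12 → |(z - v).im| < 5 * Real.pi / 6 := by
    intro v hv
    rw [Complex.sub_im]
    refine (abs_sub _ _).trans_lt ?_
    linarith
  have := DRX.nq_ne (v1 := Complex.log (x1 (p t) (m t))) (v2 := Complex.log (x2 (p t) (m t))) (z := z)
    (by rw [h1]; exact (h.ne ht).1) (key _ hr.1.1) (key _ hr.2.1)
  rwa [h1, h2] at this

/-- **holomorphic in the parameter** -/
theorem PPt.diff (h : PPt R p m) {z : ℂ} (hz : |z.im| ≤ 11 * Real.pi / 30) :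
    DifferentiableOn ℂ (fun t => Lam (prsT (p t) (m t)) z) dom := by
  have h1 : ∀ t ∈ dom, Lam (prsT (p t) (m t)) z = nq (-1) (p t) (m t) z / nq 1 (p t) (m t) z :=
    fun t ht => h.Lam_eq ht z
  refine DifferentiableOn.congr ?_ h1
  have h2 : ∀ σ : ℂ, DifferentiableOn ℂ (fun t => nq σ (p t) (m t) z) dom := by
    intro σ t ht
    obtain ⟨hp, hm⟩ := h.ne ht
    have dp := h.dp t
    have dm := h.dm t
    unfold nq
    refine DifferentiableAt.differentiableWithinAt ?_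
    fun_prop (disch := assumption)
  exact (h2 (-1)).div (h2 1) fun t ht => h.nq_ne ht hz

end DRX

end
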