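import Pool.Agent.DRX.Path2

/-!
# DUAL-R, exact side (helper17): the four families of pairs

`y0 = π/6 - c`, `y1 = π/6 + c`, `P1 c = exp (- i y0) + exp (i y1) = √3 exp (i c)`, `0 ≤ c ≤ π/6`.
A: `1 → P1`, B: `2 → P1`, D: `2 → 2 exp (- i y0)`, C: `2 cosh y → P1` with the correction of the single row.
-/

set_option autoImplicit false

noncomputable section

open Complex MeasureTheory Filter Topology

namespace DRX

open DUA DUA.Pf

/-- `exp (- i y0) + exp (i y1)` -/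
def P1 (c : ℝ) : ℂ := ⟨Real.sqrt 3 * Real.cos c, Real.sqrt 3 * Real.sin c⟩

theorem s3 : Real.sqrt 3 ^ 2 = 3 ∧ 0 ≤ Real.sqrt 3 ∧ Real.sqrt 3 ≤ 17321 / 10000 ∧ 17320 / 10000 ≤ Real.sqrt 3 := by
  have h := Real.sq_sqrt (show (0 : ℝ) ≤ 3 by norm_num)
  have h0 := Real.sqrt_nonneg 3
  refine ⟨h, h0, ?_, ?_⟩ <;> nlinarith

theorem P1_re {c : ℝ} (h0 : 0 ≤ c) (h1 : c ≤ Real.pi / 6) : 3 / 2 ≤ (P1 c).re ∧ (P1 c).re ≤ 17321 / 10000 := by
  obtain ⟨a1, a2, a3, a4⟩ := s3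
  have h2 : Real.sqrt 3 / 2 ≤ Real.cos c := by
    rw [← Real.cos_pi_div_six]
    exact Real.cos_le_cos_of_nonneg_of_le_pi h0 (by have := Real.pi_pos; linarith) h1
  have h3 := Real.cos_le_one c
  unfold P1
  simp only
  constructor <;> nlinarith

theorem P1_im {c : ℝ} (h0 : 0 ≤ c) (h1 : c ≤ Real.pi / 6) : 0 ≤ (P1 c).im := by
  unfold P1
  simp only
  exact mul_nonneg (Real.sqrt_nonneg 3) (Real.sin_nonneg_of_nonneg_of_le_pi h0 (by have := Real.pi_pos; linarith))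

theorem P1_sq (c : ℝ) : (P1 c).re ^ 2 + (P1 c).im ^ 2 = 3 := by
  unfold P1
  simp only
  rw [mul_pow, mul_pow, s3.1]
  linear_combination 3 * Real.cos_sq_add_sin_sq c

theorem P1_norm (c : ℝ) : ‖P1 c‖ ≤ 17321 / 10000 := by
  have h : ‖P1 c‖ ^ 2 = 3 := by
    rw [Complex.sq_norm, Complex.normSq_apply]
    linarith [P1_sq c]
  nlinarith [norm_nonneg (P1 c), s3.1, s3.2.2.1]

/-- place of the other row -/
def yy (c : ℝ) : ℝ := Real.pi / 6 - c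

theorem yy_bd {c : ℝ} (h0 : 0 ≤ c) (h1 : c ≤ Real.pi / 6) : 0 ≤ yy c ∧ yy c ≤ 5236 / 10000 ∧ yy c ≤ Real.pi / 6 := by
  unfold yy
  have := Real.pi_lt_d4
  refine ⟨?_, ?_, ?_⟩ <;> linarith

theorem P1_eq (c : ℝ) : Complex.exp (-((yy c : ℝ) * I)) + Complex.exp (((Real.pi / 6 + c : ℝ) : ℂ) * I) = P1 c := by
  have h1 : -((yy c : ℝ) * I : ℂ) = ((-yy c : ℝ) : ℂ) * I := by push_cast; ring
  rw [h1, Complex.exp_mul_I, Complex.exp_mul_I, ← Complex.ofReal_cos, ← Complex.ofReal_sin, ← Complex.ofReal_cos,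
    ← Complex.ofReal_sin, Real.cos_neg, Real.sin_neg]
  unfold yy P1
  rw [Real.cos_sub, Real.sin_sub, Real.cos_add, Real.sin_add, Real.cos_pi_div_six, Real.sin_pi_div_six]
  apply Complex.ext
  · simp [-Complex.ofReal_cos, -Complex.ofReal_sin]
    ring
  · simp [-Complex.ofReal_cos, -Complex.ofReal_sin]
    ring

theorem P1_conj (c : ℝ) : Complex.exp ((yy c : ℝ) * I) + Complex.exp (-(((Real.pi / 6 + c : ℝ) : ℂ) * I)) =
    (starRingEnd ℂ) (P1 c) := by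
  rw [← P1_eq, map_add, ← Complex.exp_conj, ← Complex.exp_conj]
  simp only [map_neg, map_mul, Complex.conj_ofReal, Complex.conj_I, mul_neg, neg_neg]

/-! ### linear families -/

theorem PP_lin {R : ℝ} {A B : ℂ} (R0 : 0 < R) (R5 : R ≤ 5) (hAB : ‖B - A‖ ≤ 10)
    (ge : ∀ t0 ∈ Set.Icc (0 : ℝ) 1, 1 ≤ ‖(1 - (t0 : ℂ)) * A + t0 * B‖)
    (le : ∀ t0 ∈ Set.Icc (0 : ℝ) 1, ‖(1 - (t0 : ℂ)) * A + t0 * B‖ ≤ 4)
    (rts : ∀ t0 ∈ Set.Icc (0 : ℝ) 1, Rts R ((1 - (t0 : ℂ)) * A + t0 * B)) :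
    PPt R (fun t => (1 - t) * A + t * B) fun t => (1 - t) * (starRingEnd ℂ) A + t * (starRingEnd ℂ) B := by
  refine ⟨R0, R5, by fun_prop, by fun_prop, fun t0 _ t ht => ?_, fun t0 _ t ht => ?_, fun t0 _ => ?_, ge, le, rts⟩
  · have h : (1 - t) * A + t * B - ((1 - (t0 : ℂ)) * A + t0 * B) = (t - t0) * (B - A) := by ring
    rw [h, norm_mul]
    calc ‖t - (t0 : ℂ)‖ * ‖B - A‖ ≤ 1 / 10 ^ 9 * 10 := by gcongr
      _ = 1 / 10 ^ 8 := by norm_num
  · have h : (1 - t) * (starRingEnd ℂ) A + t * (starRingEnd ℂ) B -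
        ((1 - (t0 : ℂ)) * (starRingEnd ℂ) A + t0 * (starRingEnd ℂ) B) = (t - t0) * (starRingEnd ℂ) (B - A) := by
      rw [map_sub]
      ring
    rw [h, norm_mul, RCLike.norm_conj]
    calc ‖t - (t0 : ℂ)‖ * ‖B - A‖ ≤ 1 / 10 ^ 9 * 10 := by gcongr
      _ = 1 / 10 ^ 8 := by norm_num
  · simp

/-- norm on a segment -/
theorem seg_norm {A B : ℂ} {a b t0 : ℝ} (hA : ‖A‖ ≤ a) (hB : ‖B‖ ≤ b) (h0 : 0 ≤ t0) (h1 : t0 ≤ 1) :
    ‖(1 - (t0 : ℂ)) * A + t0 * B‖ ≤ (1 - t0) * a + t0 * b := by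
  refine (norm_add_le _ _).trans ?_
  have e1 : ‖(1 - (t0 : ℂ))‖ = 1 - t0 := by
    have : (1 - (t0 : ℂ)) = ((1 - t0 : ℝ) : ℂ) := by push_cast; rfl
    rw [this, Complex.norm_real, Real.norm_of_nonneg (by linarith)]
  rw [norm_mul, norm_mul, e1, Complex.norm_real, Real.norm_of_nonneg h0]
  have : 0 ≤ 1 - t0 := by linarith
  gcongr

theorem seg_re (A B : ℂ) (t0 : ℝ) : ((1 - (t0 : ℂ)) * A + t0 * B).re = (1 - t0) * A.re + t0 * B.re := by
  simp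

/-- family A -/
theorem PP_A {c : ℝ} (h0 : 0 ≤ c) (h1 : c ≤ Real.pi / 6) :
    PPt 1 (fun t => (1 - t) * 1 + t * P1 c) fun t => (1 - t) * (starRingEnd ℂ) 1 + t * (starRingEnd ℂ) (P1 c) := by
  obtain ⟨a1, a2⟩ := P1_re h0 h1
  have hn := P1_norm c
  refine PP_lin one_pos (by norm_num) ?_ (fun t0 ht => ?_) (fun t0 ht => ?_) fun t0 ht => ?_
  · have := norm_sub_le (P1 c) 1
    rw [norm_one] at this
    linarith
  · refine le_trans ?_ (Complex.re_le_norm _)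
    rw [seg_re, Complex.one_re]
    nlinarith [ht.1, ht.2]
  · refine (seg_norm (a := 1) (b := 17321 / 10000) (by simp) hn ht.1 ht.2).trans ?_
    linarith [ht.1, ht.2]
  · have := rts_A a1 (P1_im h0 h1) (P1_sq c) ht.1 ht.2
    have e : (1 - (t0 : ℂ)) * 1 + t0 * P1 c = (⟨1 + t0 * ((P1 c).re - 1), t0 * (P1 c).im⟩ : ℂ) := by
      apply Complex.ext
      · simp
        ring
      · simp
    rw [e]
    exact this

/-- family B -/
theorem PP_B {c : ℝ} (h0 : 0 ≤ c) (h1 : c ≤ Real.pi / 6) :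
    PPt 1 (fun t => (1 - t) * 2 + t * P1 c) fun t => (1 - t) * (starRingEnd ℂ) 2 + t * (starRingEnd ℂ) (P1 c) := by
  obtain ⟨a1, a2⟩ := P1_re h0 h1
  have hn := P1_norm c
  have h2 : ‖(2 : ℂ)‖ ≤ 2 := by simp
  have hre : ∀ t0 ∈ Set.Icc (0 : ℝ) 1, 3 / 2 ≤ ((1 - (t0 : ℂ)) * 2 + t0 * P1 c).re := by
    intro t0 ht
    rw [seg_re]
    have : (2 : ℂ).re = 2 := by simp
    rw [this]
    nlinarith [ht.1, ht.2]
  refine PP_lin one_pos (by norm_num) ?_ (fun t0 ht => ?_) (fun t0 ht => ?_) fun t0 ht => ?_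
  · have := norm_sub_le (P1 c) 2
    linarith
  · exact le_trans (by linarith [hre t0 ht]) (Complex.re_le_norm _)
  · refine (seg_norm h2 hn ht.1 ht.2).trans ?_
    linarith [ht.1, ht.2]
  · refine rts_ge ?_ (by linarith [hre t0 ht])
    refine (seg_norm h2 hn ht.1 ht.2).trans ?_
    linarith [ht.1, ht.2]

theorem exp_yy_norm (x : ℝ) : ‖Complex.exp (-((x : ℝ) * I))‖ = 1 := by
  have : -((x : ℝ) * I : ℂ) = ((-x : ℝ) : ℂ) * I := by push_cast; ring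
  rw [this]
  exact Complex.norm_exp_ofReal_mul_I _

theorem exp_yy_re (x : ℝ) : (Complex.exp (-((x : ℝ) * I))).re = Real.cos x := by
  have : -((x : ℝ) * I : ℂ) = ((-x : ℝ) : ℂ) * I := by push_cast; ring
  rw [this, Complex.exp_ofReal_mul_I_re, Real.cos_neg]

/-- family D -/
theorem PP_D {c : ℝ} (h0 : 0 ≤ c) (h1 : c ≤ Real.pi / 6) :
    PPt 1 (fun t => (1 - t) * 2 + t * (2 * Complex.exp (-((yy c : ℝ) * I))))
      fun t => (1 - t) * (starRingEnd ℂ) 2 + t * (starRingEnd ℂ) (2 * Complex.exp (-((yy c : ℝ) * I))) := by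
  obtain ⟨y1, y2, y3⟩ := yy_bd h0 h1
  obtain ⟨s1, s2, s3', s4⟩ := s3
  have hn : ‖2 * Complex.exp (-((yy c : ℝ) * I))‖ ≤ 2 := by
    rw [norm_mul, exp_yy_norm]
    simp
  have h2 : ‖(2 : ℂ)‖ ≤ 2 := by simp
  have hc : Real.sqrt 3 / 2 ≤ Real.cos (yy c) := by
    rw [← Real.cos_pi_div_six]
    exact Real.cos_le_cos_of_nonneg_of_le_pi y1 (by have := Real.pi_pos; linarith) y3
  have hre : ∀ t0 ∈ Set.Icc (0 : ℝ) 1, 3 / 2 ≤ ((1 - (t0 : ℂ)) * 2 + t0 * (2 * Complex.exp (-((yy c : ℝ) * I)))).re := by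
    intro t0 ht
    rw [seg_re]
    have : (2 : ℂ).re = 2 := by simp
    rw [this]
    have e : (2 * Complex.exp (-((yy c : ℝ) * I))).re = 2 * Real.cos (yy c) := by
      rw [Complex.mul_re, exp_yy_re]
      simp
    rw [e]
    nlinarith [ht.1, ht.2]
  refine PP_lin one_pos (by norm_num) ?_ (fun t0 ht => ?_) (fun t0 ht => ?_) fun t0 ht => ?_
  · have := norm_sub_le (2 * Complex.exp (-((yy c : ℝ) * I))) 2
    linarith
  · exact le_trans (by linarith [hre t0 ht]) (Complex.re_le_norm _)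
  · refine (seg_norm h2 hn ht.1 ht.2).trans ?_
    linarith [ht.1, ht.2]
  · refine rts_ge ?_ (by linarith [hre t0 ht])
    refine (seg_norm h2 hn ht.1 ht.2).trans ?_
    linarith [ht.1, ht.2]

/-! ### the special pair -/

/-- the correction of the single row -/
def br (y : ℝ) (t : ℂ) : ℂ := (1 - t) + t * Complex.exp (-((y : ℂ) * I)) - Complex.exp (-((y : ℂ) * I * t))

/-- the conjugate correction -/
def br' (y : ℝ) (t : ℂ) : ℂ := (1 - t) + t * Complex.exp ((y : ℂ) * I) - Complex.exp ((y : ℂ) * I * t)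

theorem norm_exp_I_sub (x : ℝ) : ‖Complex.exp (-((x : ℂ) * I)) - 1‖ ≤ |x| := by
  have := Real.norm_exp_I_mul_ofReal_sub_one_le (x := -x)
  rw [Real.norm_eq_abs, abs_neg] at this
  have e : I * ((-x : ℝ) : ℂ) = -((x : ℂ) * I) := by push_cast; ring
  rwa [e] at this

theorem exp_diff {y t0 : ℝ} (hy : |y| ≤ 1) {t : ℂ} (ht : ‖t - (t0 : ℂ)‖ ≤ 1 / 10 ^ 9) :
    ‖Complex.exp (-((y : ℂ) * I * t)) - Complex.exp (-((y : ℂ) * I * t0))‖ ≤ 2 * (1 / 10 ^ 9) := by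
  have e1 : Complex.exp (-((y : ℂ) * I * t)) - Complex.exp (-((y : ℂ) * I * t0)) =
      Complex.exp (-(((y * t0 : ℝ) : ℂ) * I)) * (Complex.exp (-((y : ℂ) * I * (t - t0))) - 1) := by
    rw [mul_sub, ← Complex.exp_add, mul_one]
    congr 2
    · push_cast; ring
    · push_cast; ring
  rw [e1, norm_mul, exp_yy_norm, one_mul]
  have e2 : ‖-((y : ℂ) * I * (t - t0))‖ ≤ 1 / 10 ^ 9 := by
    rw [norm_neg, norm_mul, norm_mul, Complex.norm_I, mul_one, Complex.norm_real, Real.norm_eq_abs]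
    calc |y| * ‖t - (t0 : ℂ)‖ ≤ 1 * (1 / 10 ^ 9) := by gcongr
      _ = _ := one_mul _
  refine (Complex.norm_exp_sub_one_le (e2.trans (by norm_num))).trans ?_
  gcongr

theorem br_diff {y t0 : ℝ} (hy : |y| ≤ 1) {t : ℂ} (ht : ‖t - (t0 : ℂ)‖ ≤ 1 / 10 ^ 9) :
    ‖br y t - br y t0‖ ≤ 3 * (1 / 10 ^ 9) := by
  have e : br y t - br y t0 = (t - t0) * (Complex.exp (-((y : ℂ) * I)) - 1) -
      (Complex.exp (-((y : ℂ) * I * t)) - Complex.exp (-((y : ℂ) * I * t0))) := by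
    unfold br
    ring
  rw [e]
  refine (norm_sub_le _ _).trans ?_
  rw [norm_mul]
  have h1 := norm_exp_I_sub y
  have h2 := exp_diff hy ht
  have h3 : ‖t - (t0 : ℂ)‖ * ‖Complex.exp (-((y : ℂ) * I)) - 1‖ ≤ 1 / 10 ^ 9 * 1 := by
    gcongr
    exact h1.trans hy
  linarith

theorem br'_eq (y : ℝ) (t : ℂ) : br' y t = br (-y) t := by
  unfold br br'
  push_cast
  congr 2
  · congr 2
    ring
  · ring

theorem br_conj (y t0 : ℝ) : br' y t0 = (starRingEnd ℂ) (br y t0) := by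
  unfold br br'
  simp only [map_sub, map_add, map_mul, map_one, Complex.conj_ofReal, ← Complex.exp_conj, map_neg, Complex.conj_I]
  congr 2
  · congr 2
    ring
  · ring

theorem br_norm {y t0 : ℝ} (hy : 0 ≤ y) (hy1 : y ≤ 5236 / 10000) (h0 : 0 ≤ t0) :
    ‖br y t0‖ ≤ 10472 / 10000 * t0 := by
  have e : br y t0 = (t0 : ℂ) * (Complex.exp (-((y : ℂ) * I)) - 1) - (Complex.exp (-(((y * t0 : ℝ) : ℂ) * I)) - 1) := by
    unfold br
    push_cast
    have : (y : ℂ) * (t0 : ℂ) * I = (y : ℂ) * I * (t0 : ℂ) := by ring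
    rw [this]
    ring
  rw [e]
  refine (norm_sub_le _ _).trans ?_
  rw [norm_mul, Complex.norm_real, Real.norm_of_nonneg h0]
  have h2 := norm_exp_I_sub y
  have h3 := norm_exp_I_sub (y * t0)
  rw [abs_of_nonneg hy] at h2
  rw [abs_of_nonneg (mul_nonneg hy h0)] at h3
  nlinarith

theorem br_re {y t0 : ℝ} (hy : 0 ≤ y) (hy1 : y ≤ 5236 / 10000) (h0 : 0 ≤ t0) :
    -(1371 / 10000 * t0) ≤ (br y t0).re := by
  have e : (br y t0).re = (1 - t0) + t0 * Real.cos y - Real.cos (y * t0) := by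
    unfold br
    have e1 : (y : ℂ) * I * (t0 : ℂ) = ((y * t0 : ℝ) : ℂ) * I := by push_cast; ring
    rw [e1, Complex.sub_re, Complex.add_re, exp_yy_re, Complex.re_ofReal_mul, exp_yy_re]
    simp
  rw [e]
  have h2 := Real.one_sub_sq_div_two_le_cos (x := y)
  have h3 := Real.cos_le_one (y * t0)
  have h4 : y ^ 2 / 2 ≤ 1371 / 10000 := by nlinarith
  nlinarith [mul_le_mul_of_nonneg_left h2 h0, mul_le_mul_of_nonneg_left h4 h0]

theorem two_cosh {y : ℝ} (hy : |y| ≤ 1) : 2 ≤ 2 * Real.cosh y ∧ 2 * Real.cosh y ≤ 33 / 10 := by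
  have h1 := Real.one_le_cosh y
  have h2 := Real.cosh_le_exp_half_sq y
  have h3 : Real.exp (y ^ 2 / 2) ≤ 33 / 20 := by
    have h4 : y ^ 2 ≤ 1 := by
      rw [← sq_abs]
      nlinarith [abs_nonneg y]
    have h5 : Real.exp (y ^ 2 / 2) ^ 2 ≤ (33 / 20) ^ 2 := by
      rw [← Real.exp_nat_mul]
      have h6 : Real.exp (((2 : ℕ) : ℝ) * (y ^ 2 / 2)) ≤ Real.exp 1 := by
        apply Real.exp_le_exp.2
        push_cast
        linarith
      have h7 := Real.exp_one_lt_d9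
      have h8 : (2.7182818286 : ℝ) ≤ (33 / 20) ^ 2 := by norm_num
      exact h6.trans (h7.le.trans h8)
    nlinarith [Real.exp_pos (y ^ 2 / 2)]
  constructor <;> linarith

/-- family C (special), `o = 0` or `o = 1` -/
theorem PP_C {c y o : ℝ} (h0 : 0 ≤ c) (h1 : c ≤ Real.pi / 6) (hy : |y| ≤ 1) (ho0 : 0 ≤ o) (ho1 : o ≤ 1) :
    PPt 5 (fun t => (1 - t) * ((2 * Real.cosh y : ℝ) : ℂ) + t * P1 c + o * br (yy c) t)
      fun t => (1 - t) * ((2 * Real.cosh y : ℝ) : ℂ) + t * (starRingEnd ℂ) (P1 c) + o * br' (yy c) t := by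
  obtain ⟨a1, a2⟩ := P1_re h0 h1
  obtain ⟨y1, y2, y3⟩ := yy_bd h0 h1
  have hn := P1_norm c
  obtain ⟨c1, c2⟩ := two_cosh hy
  have hyy : |yy c| ≤ 1 := by rw [abs_of_nonneg y1]; linarith
  have hC : ‖((2 * Real.cosh y : ℝ) : ℂ)‖ ≤ 33 / 10 := by
    rw [Complex.norm_real, Real.norm_of_nonneg (by linarith)]
    exact c2
  have hon : ‖(o : ℂ)‖ ≤ 1 := by
    rw [Complex.norm_real, Real.norm_of_nonneg ho0]
    exact ho1
  have hre : ∀ t0 ∈ Set.Icc (0 : ℝ) 1,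
      34 / 25 ≤ ((1 - (t0 : ℂ)) * ((2 * Real.cosh y : ℝ) : ℂ) + t0 * P1 c + o * br (yy c) t0).re := by
    intro t0 ht
    have hb := br_re y1 y2 ht.1
    rw [Complex.add_re, seg_re, Complex.re_ofReal_mul, Complex.ofReal_re]
    have e1 : -(1371 / 10000 * t0) ≤ o * (br (yy c) t0).re := by
      have e2 : 0 ≤ 1371 / 10000 * t0 := by have := ht.1; positivity
      nlinarith
    nlinarith [ht.1, ht.2, mul_nonneg (by linarith [ht.2] : 0 ≤ 1 - t0) (by linarith : 0 ≤ 2 * Real.cosh y - 2),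
      mul_nonneg ht.1 (by linarith : 0 ≤ (P1 c).re - 3 / 2)]
  have hle : ∀ t0 ∈ Set.Icc (0 : ℝ) 1,
      ‖(1 - (t0 : ℂ)) * ((2 * Real.cosh y : ℝ) : ℂ) + t0 * P1 c + o * br (yy c) t0‖ ≤ 33 / 10 := by
    intro t0 ht
    have hb := br_norm y1 y2 ht.1
    refine (norm_add_le _ _).trans ?_
    have e1 := seg_norm hC hn ht.1 ht.2
    rw [norm_mul]
    have e2 : ‖(o : ℂ)‖ * ‖br (yy c) t0‖ ≤ 1 * (10472 / 10000 * t0) := by gcongr
    nlinarith [ht.1, ht.2]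
  have lip : ∀ (B : ℂ) (u : ℝ), ‖B‖ ≤ 17321 / 10000 → |u| ≤ 1 → ∀ (t0 : ℝ) (t : ℂ), ‖t - (t0 : ℂ)‖ ≤ 1 / 10 ^ 9 →
      ‖(1 - t) * ((2 * Real.cosh y : ℝ) : ℂ) + t * B + o * br u t -
        ((1 - (t0 : ℂ)) * ((2 * Real.cosh y : ℝ) : ℂ) + t0 * B + o * br u t0)‖ ≤ 1 / 10 ^ 8 := by
    intro B u hB hu t0 t ht
    have e1 : (1 - t) * ((2 * Real.cosh y : ℝ) : ℂ) + t * B + o * br u t -
        ((1 - (t0 : ℂ)) * ((2 * Real.cosh y : ℝ) : ℂ) + t0 * B + o * br u t0) =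
        (t - t0) * (B - ((2 * Real.cosh y : ℝ) : ℂ)) + o * (br u t - br u t0) := by ring
    rw [e1]
    refine (norm_add_le _ _).trans ?_
    rw [norm_mul, norm_mul]
    have e2 : ‖t - (t0 : ℂ)‖ * ‖B - ((2 * Real.cosh y : ℝ) : ℂ)‖ ≤ 1 / 10 ^ 9 * 6 := by
      gcongr
      refine (norm_sub_le _ _).trans ?_
      linarith
    have e3 : ‖(o : ℂ)‖ * ‖br u t - br u t0‖ ≤ 1 * (3 * (1 / 10 ^ 9)) := by
      gcongr
      exact br_diff hu ht
    norm_num at e2 e3 ⊢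
    linarith
  refine ⟨by norm_num, le_rfl, ?_, ?_, fun t0 _ t ht => lip _ _ hn hyy t0 t ht, fun t0 _ t ht => ?_, fun t0 _ => ?_,
    fun t0 ht => ?_, fun t0 ht => ?_, fun t0 ht => ?_⟩
  · unfold br
    fun_prop
  · unfold br'
    fun_prop
  · simp only [br'_eq]
    exact lip _ _ (by rw [RCLike.norm_conj]; exact hn) (by rw [abs_neg]; exact hyy) t0 t ht
  · simp only [map_add, map_mul, map_sub, map_one, Complex.conj_ofReal, br_conj]
  · exact le_trans (by linarith [hre t0 ht]) (Complex.re_le_norm _)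
  · exact (hle t0 ht).trans (by norm_num)
  · have h2 := hre t0 ht
    have h3 := hle t0 ht
    rcases le_total ‖(1 - (t0 : ℂ)) * ((2 * Real.cosh y : ℝ) : ℂ) + t0 * P1 c + o * br (yy c) t0‖ 2 with h4 | h4
    · exact (rts_ge h4 h2).mono one_pos (by norm_num)
    · exact rts_big h4 (h3.trans (by norm_num)) (by linarith)

end DRX

end
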