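import Pool.Agent.DRX.Path3

/-!
# DUAL-R, exact side (helper17): the list of rows along the path

* `SD e nB nD o m c y`: numbers of the pairs; `lst`: the rows at parameter `t`;
* `SD.rows`, `SD.sums`, `SD.len`, **`SD.diff`**, **`SD.zero`**, **`SD.one`**.
-/

set_option autoImplicit false

noncomputable section

open Complex MeasureTheory Filter Topology

namespace DRX

open DUA DUA.Pf

/-! ### repeated lists -/

/-- the list repeated `n` times -/
def plist (n : ℕ) (L : List ℂ) : List ℂ := (List.replicate n L).flatten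

theorem plist_zero (L : List ℂ) : plist 0 L = [] := rfl

theorem plist_succ (n : ℕ) (L : List ℂ) : plist (n + 1) L = L ++ plist n L := by
  unfold plist
  rw [List.replicate_succ, List.flatten_cons]

theorem mem_plist {n : ℕ} {L : List ℂ} {v : ℂ} (h : v ∈ plist n L) : v ∈ L := by
  induction n with
  | zero => simp [plist_zero] at h
  | succ n ih =>
    rw [plist_succ, List.mem_append] at h
    exact h.elim id ih

theorem plist_len (n : ℕ) (L : List ℂ) : (plist n L).length = n * L.length := by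
  induction n with
  | zero => simp [plist_zero]
  | succ n ih =>
    rw [plist_succ, List.length_append, ih]
    ring

theorem plist_sum (n : ℕ) (L : List ℂ) (f : ℂ → ℂ) : ((plist n L).map f).sum = n * (L.map f).sum := by
  induction n with
  | zero => simp [plist_zero]
  | succ n ih =>
    rw [plist_succ, List.map_append, List.sum_append, ih]
    push_cast
    ring

theorem Lam_app (L L' : List ℂ) (z : ℂ) : Lam (L ++ L') z = Lam L z * Lam L' z := by
  unfold Lam
  rw [List.map_append, List.prod_append]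

theorem Lam_plist (n : ℕ) (L : List ℂ) (z : ℂ) : Lam (plist n L) z = Lam L z ^ n := by
  induction n with
  | zero => simp [plist_zero, Lam]
  | succ n ih => rw [plist_succ, Lam_app, ih, pow_succ']

theorem Lam_rep (n : ℕ) (v z : ℂ) : Lam (List.replicate n v) z = tau (v - z) ^ n := by
  unfold Lam
  rw [List.map_replicate, List.prod_replicate]

/-! ### the data -/

/-- the numbers of pairs -/
structure SD (e nB nD o m : ℕ) (c y : ℝ) : Prop where
  c0 : 0 ≤ c
  c1 : c ≤ Real.pi / 6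
  hy : |y| ≤ 1
  ho : o ≤ 1
  hm : m = e + 2 * nB + 2 * nD + o
  hV : ((e : ℂ) + nB + 1) * P1 c + (2 * nD + o) * Complex.exp (-((yy c : ℝ) * I)) = ((m + 2 * Real.cosh y : ℝ) : ℂ)

/-- `ζ_+` of the family A -/
def pA (c : ℝ) (t : ℂ) : ℂ := (1 - t) * 1 + t * P1 c

/-- `ζ_-` of the family A -/
def mA (c : ℝ) (t : ℂ) : ℂ := (1 - t) * (starRingEnd ℂ) 1 + t * (starRingEnd ℂ) (P1 c)

/-- `ζ_+` of the family B -/
def pB (c : ℝ) (t : ℂ) : ℂ := (1 - t) * 2 + t * P1 c

/-- `ζ_-` of the family B -/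
def mB (c : ℝ) (t : ℂ) : ℂ := (1 - t) * (starRingEnd ℂ) 2 + t * (starRingEnd ℂ) (P1 c)

/-- `ζ_+` of the family D -/
def pD (c : ℝ) (t : ℂ) : ℂ := (1 - t) * 2 + t * (2 * Complex.exp (-((yy c : ℝ) * I)))

/-- `ζ_-` of the family D -/
def mD (c : ℝ) (t : ℂ) : ℂ :=
  (1 - t) * (starRingEnd ℂ) 2 + t * (starRingEnd ℂ) (2 * Complex.exp (-((yy c : ℝ) * I)))

/-- `ζ_+` of the special pair -/
def pC (c y o : ℝ) (t : ℂ) : ℂ := (1 - t) * ((2 * Real.cosh y : ℝ) : ℂ) + t * P1 c + o * br (yy c) t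

/-- `ζ_-` of the special pair -/
def mC (c y o : ℝ) (t : ℂ) : ℂ :=
  (1 - t) * ((2 * Real.cosh y : ℝ) : ℂ) + t * (starRingEnd ℂ) (P1 c) + o * br' (yy c) t

/-- the ordinary pairs -/
def lsO (e nB nD : ℕ) (c : ℝ) (t : ℂ) : List ℂ :=
  plist e (prsT (pA c t) (mA c t)) ++ (plist nB (prsT (pB c t) (mB c t)) ++ plist nD (prsT (pD c t) (mD c t)))

/-- the single row -/
def lsS (o : ℕ) (c : ℝ) (t : ℂ) : List ℂ := List.replicate o (-((yy c : ℂ) * I * t))

/-- **the rows at parameter `t`** -/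
def lst (e nB nD o : ℕ) (c y : ℝ) (t : ℂ) : List ℂ :=
  prsT (pC c y o t) (mC c y o t) ++ (lsO e nB nD c t ++ lsS o c t)

variable {e nB nD o m : ℕ} {c y : ℝ}

theorem SD.A (h : SD e nB nD o m c y) : PPt 1 (pA c) (mA c) := PP_A h.c0 h.c1

theorem SD.B (h : SD e nB nD o m c y) : PPt 1 (pB c) (mB c) := PP_B h.c0 h.c1

theorem SD.D (h : SD e nB nD o m c y) : PPt 1 (pD c) (mD c) := PP_D h.c0 h.c1

theorem SD.C (h : SD e nB nD o m c y) : PPt 5 (pC c y o) (mC c y o) :=
  PP_C h.c0 h.c1 h.hy (by positivity) (by exact_mod_cast h.ho)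

theorem dom_bd {t : ℂ} (ht : t ∈ dom) : |t.re| ≤ 11 / 10 ∧ |t.im| ≤ 1 / 10 ^ 9 := by
  obtain ⟨t0, h0, h1⟩ := ht
  have h2 := (Complex.abs_re_le_norm (t - t0)).trans h1.le
  have h3 := (Complex.abs_im_le_norm (t - t0)).trans h1.le
  simp only [Complex.sub_re, Complex.ofReal_re, Complex.sub_im, Complex.ofReal_im, sub_zero] at h2 h3
  refine ⟨?_, h3⟩
  have h4 := abs_le.1 h2
  have : (1 / 10 ^ 9 : ℝ) ≤ 1 / 10 := by norm_num
  rw [abs_le]
  constructor <;> linarith [h0.1, h0.2, h4.1, h4.2]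

/-- ordinary rows -/
theorem SD.rowsO (h : SD e nB nD o m c y) {t : ℂ} (ht : t ∈ dom) : ∀ v ∈ lsO e nB nD c t ++ lsS o c t,
    |v.im| ≤ 5 * Real.pi / 12 ∧ |v.re| ≤ 1 / 1000 := by
  intro v hv
  unfold lsO lsS at hv
  simp only [List.mem_append] at hv
  rcases hv with (hv | hv | hv) | hv
  · obtain ⟨a, b, d⟩ := h.A.rows ht v (mem_plist hv)
    exact ⟨a, d rfl⟩
  · obtain ⟨a, b, d⟩ := h.B.rows ht v (mem_plist hv)
    exact ⟨a, d rfl⟩
  · obtain ⟨a, b, d⟩ := h.D.rows ht v (mem_plist hv)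
    exact ⟨a, d rfl⟩
  · rw [List.mem_replicate] at hv
    obtain ⟨_, rfl⟩ := hv
    obtain ⟨b1, b2⟩ := dom_bd ht
    obtain ⟨y1, y2, y3⟩ := yy_bd h.c0 h.c1
    have hpi := Real.pi_gt_three
    have e1 : (-((yy c : ℂ) * I * t)).im = -(yy c * t.re) := by simp
    have e2 : (-((yy c : ℂ) * I * t)).re = yy c * t.im := by simp
    rw [e1, e2, abs_neg, abs_mul, abs_mul, abs_of_nonneg y1]
    constructor
    · calc yy c * |t.re| ≤ 5236 / 10000 * (11 / 10) := by gcongr
        _ ≤ 5 * Real.pi / 12 := by linarith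
    · calc yy c * |t.im| ≤ 5236 / 10000 * (1 / 10 ^ 9) := by gcongr
        _ ≤ 1 / 1000 := by norm_num

/-- all rows -/
theorem SD.rows (h : SD e nB nD o m c y) {t : ℂ} (ht : t ∈ dom) : ∀ v ∈ lst e nB nD o c y t,
    |v.im| ≤ 5 * Real.pi / 12 ∧ |v.re| ≤ 2 := by
  intro v hv
  unfold lst at hv
  rw [List.mem_append] at hv
  rcases hv with hv | hv
  · obtain ⟨a, b, _⟩ := h.C.rows ht v hv
    exact ⟨a, b⟩
  · obtain ⟨a, b⟩ := h.rowsO ht v hv
    exact ⟨a, b.trans (by norm_num)⟩

/-- the number of rows -/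
theorem lst_len (e nB nD o : ℕ) (c y : ℝ) (t : ℂ) : (lst e nB nD o c y t).length = 2 + (2 * e + 2 * nB + 2 * nD + o) := by
  unfold lst lsO lsS
  simp only [List.length_append, plist_len, List.length_replicate]
  simp only [prsT, List.length_cons, List.length_nil]
  ring

/-- the two sums -/
theorem SD.sums (h : SD e nB nD o m c y) {t : ℂ} (ht : t ∈ dom) :
    ((lst e nB nD o c y t).map fun v => Complex.exp v).sum = ((m + 2 * Real.cosh y : ℝ) : ℂ) ∧
    ((lst e nB nD o c y t).map fun v => Complex.exp (-v)).sum = ((m + 2 * Real.cosh y : ℝ) : ℂ) := by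
  have hm : (m : ℂ) = e + 2 * nB + 2 * nD + o := by
    have := h.hm
    rw [this]
    push_cast
    ring
  have hV := h.hV
  have hV' := congrArg (starRingEnd ℂ) hV
  simp only [map_add, map_mul, map_one, map_natCast, Complex.conj_ofReal, map_ofNat] at hV'
  have e1 : (starRingEnd ℂ) (Complex.exp (-((yy c : ℝ) * I))) = Complex.exp ((yy c : ℝ) * I) := by
    rw [← Complex.exp_conj]
    simp
  rw [e1] at hV'
  unfold lst lsO lsS
  simp only [List.map_append, List.sum_append, plist_sum, List.map_replicate, List.sum_replicate,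
    (h.A.sums ht).1, (h.A.sums ht).2, (h.B.sums ht).1, (h.B.sums ht).2, (h.C.sums ht).1, (h.C.sums ht).2,
    (h.D.sums ht).1, (h.D.sums ht).2, nsmul_eq_mul, neg_neg]
  constructor
  · unfold pA pB pC pD br
    push_cast at hV ⊢
    linear_combination t * hV - (1 - t) * hm
  · unfold mA mB mC mD br'
    simp only [map_one, map_ofNat, map_mul, e1]
    push_cast at hV' ⊢
    linear_combination t * hV' - (1 - t) * hm

/-- **holomorphic in the parameter** -/
theorem SD.diff (h : SD e nB nD o m c y) {z : ℂ} (hz : |z.im| ≤ 11 * Real.pi / 30) :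
    DifferentiableOn ℂ (fun t => Lam (lst e nB nD o c y t) z) dom := by
  unfold lst lsO lsS
  simp only [Lam_app, Lam_plist, Lam_rep]
  refine (h.C.diff hz).mul (((h.A.diff hz).pow _).mul (((h.B.diff hz).pow _).mul ((h.D.diff hz).pow _)) |>.mul ?_)
  refine DifferentiableOn.pow ?_ _
  intro t ht
  refine DifferentiableAt.differentiableWithinAt ?_
  have hpi := Real.pi_pos
  have h1 : |(-((yy c : ℂ) * I * t) - z).im| < 5 * Real.pi / 6 := by
    obtain ⟨b1, b2⟩ := dom_bd ht
    obtain ⟨y1, y2, y3⟩ := yy_bd h.c0 h.c1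
    have e1 : (-((yy c : ℂ) * I * t) - z).im = -(yy c * t.re) - z.im := by simp
    have h3 := Real.pi_gt_three
    rw [e1]
    refine (abs_sub _ _).trans_lt ?_
    rw [abs_neg, abs_mul, abs_of_nonneg y1]
    have : yy c * |t.re| ≤ 5236 / 10000 * (11 / 10) := by gcongr
    linarith
  have h2 := tau_diffAt h1
  exact DifferentiableAt.comp (g := tau) (f := fun t : ℂ => -((yy c : ℂ) * I * t) - z) t h2 (by fun_prop)

/-! ### the ends of the path -/

theorem tau_two_neg (z : ℂ) : tau (-z) = (2 * Complex.cosh z + -1 * ((Real.sqrt 3 : ℝ) : ℂ)) /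
    (2 * Complex.cosh z + 1 * ((Real.sqrt 3 : ℝ) : ℂ)) := by
  have := tau_two 0 z
  rwa [zero_sub, sub_zero] at this

theorem zero_dom : (0 : ℂ) ∈ dom := ⟨0, by simp, by simp⟩

theorem one_dom : (1 : ℂ) ∈ dom := ⟨1, by simp, by simp⟩

/-- `Lam` of a pair from its sums -/
theorem PPt.Lam_of {R : ℝ} {p q : ℂ → ℂ} (h : PPt R p q) {t v1 v2 : ℂ} (ht : t ∈ dom)
    (h1 : Complex.exp v1 + Complex.exp v2 = p t) (h2 : Complex.exp (-v1) + Complex.exp (-v2) = q t) (z : ℂ) :
    Lam (prsT (p t) (q t)) z = tau (v1 - z) * tau (v2 - z) := by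
  rw [h.Lam_eq ht]
  have h3 : Complex.exp v1 + Complex.exp v2 ≠ 0 := by rw [h1]; exact (h.ne ht).1
  rw [← h1, ← h2, ← Lam_pair h3]
  unfold Lam
  simp

/-- fusion of the pair `± 60` degrees -/
theorem fuse60 {z : ℂ} (hz : |z.im| ≤ 11 * Real.pi / 30) :
    tau ((Real.pi / 3 : ℝ) * I - z) * tau (-((Real.pi / 3 : ℝ) * I) - z) = tau (-z) := by
  have hpi := Real.pi_pos
  have h3 : ((Real.sqrt 3 : ℝ) : ℂ) ^ 2 = 3 := by
    rw [← Complex.ofReal_pow, Real.sq_sqrt (by norm_num)]
    norm_num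
  have hc : Complex.cosh z ≠ 0 := by
    intro h
    have h4 : |z.im| < 5 * Real.pi / 6 := by linarith
    -- cosh z = cos (z I)
    have h5 : Complex.cos (z * I) = 0 := by rw [Complex.cos_mul_I, h]
    rw [Complex.cos_eq_zero_iff] at h5
    obtain ⟨k, hk⟩ := h5
    have h6 := congrArg Complex.re hk
    rw [Complex.mul_I_re] at h6
    have h7 : (((2 * (k : ℂ) + 1) * Real.pi / 2)).re = (2 * k + 1) * Real.pi / 2 := by
      have : ((2 * (k : ℂ) + 1) * Real.pi / 2) = (((2 * (k : ℝ) + 1) * Real.pi / 2 : ℝ) : ℂ) := by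
        push_cast
        ring
      rw [this, Complex.ofReal_re]
    rw [h7] at h6
    have h8 : |(2 * (k : ℝ) + 1) * Real.pi / 2| ≤ 11 * Real.pi / 30 := by rw [← h6, abs_neg]; exact hz
    have h9 : (1 : ℝ) ≤ |2 * (k : ℝ) + 1| := by
      have : (1 : ℤ) ≤ |2 * k + 1| := Int.one_le_abs (by omega)
      exact_mod_cast this
    rw [abs_div, abs_mul, abs_of_pos hpi, abs_of_pos (by norm_num : (0 : ℝ) < 2)] at h8
    nlinarith
  -- the two sums of the pair are 1
  have e1 : Complex.exp ((Real.pi / 3 : ℝ) * I) + Complex.exp (-((Real.pi / 3 : ℝ) * I)) = 1 := by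
    have := Complex.two_cos (((Real.pi / 3 : ℝ)) : ℂ)
    have h10 : Complex.cos ((Real.pi / 3 : ℝ) : ℂ) = 1 / 2 := by
      rw [← Complex.ofReal_cos, Real.cos_pi_div_three]
      norm_num
    rw [h10] at this
    rw [← neg_mul]
    linear_combination -this
  have e2 : Complex.exp (-((Real.pi / 3 : ℝ) * I)) + Complex.exp (-(-((Real.pi / 3 : ℝ) * I))) = 1 := by
    rw [neg_neg, add_comm]
    exact e1
  have h11 := Lam_pair (v1 := (Real.pi / 3 : ℝ) * I) (v2 := -((Real.pi / 3 : ℝ) * I)) (z := z) (by rw [e1]; exact one_ne_zero)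
  rw [e1, e2] at h11
  have h12 : Lam [((Real.pi / 3 : ℝ) : ℂ) * I, -((Real.pi / 3 : ℝ) * I)] z =
      tau ((Real.pi / 3 : ℝ) * I - z) * tau (-((Real.pi / 3 : ℝ) * I) - z) := by
    unfold Lam
    simp
  rw [← h12, h11, tau_two_neg]
  have e3 : ∀ σ : ℂ, nq σ 1 1 z = (2 * Complex.cosh z) * (2 * Complex.cosh z + σ * ((Real.sqrt 3 : ℝ) : ℂ)) := by
    intro σ
    unfold nq
    have e4 : 2 * Complex.cosh z = Complex.exp z + Complex.exp (-z) := by
      rw [Complex.cosh]
      ring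
    have e5 : Complex.exp (2 * z) = Complex.exp z ^ 2 := by
      rw [← Complex.exp_nat_mul]
      norm_num
    have e6 : Complex.exp (-(2 * z)) = Complex.exp (-z) ^ 2 := by
      rw [← Complex.exp_nat_mul]
      congr 1
      push_cast
      ring
    have e7 : Complex.exp z * Complex.exp (-z) = 1 := by
      rw [← Complex.exp_add]
      simp
    rw [e4, e5, e6]
    linear_combination (-2) * e7
  rw [e3, e3, mul_div_mul_left _ _ (mul_ne_zero two_ne_zero hc)]

/-- the base -/
def bas (m : ℕ) (y : ℝ) : List ℂ := (y : ℂ) :: (-(y : ℂ)) :: List.replicate m 0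

/-- the stair: `a` rows at `- y0`, `b` rows at `y1` -/
def stair (a b : ℕ) (c : ℝ) : List ℂ :=
  List.replicate a (-((yy c : ℝ) * I)) ++ List.replicate b (((Real.pi / 6 + c : ℝ) : ℂ) * I)

/-- **the start of the path** -/
theorem SD.zero (h : SD e nB nD o m c y) {z : ℂ} (hz : |z.im| ≤ 11 * Real.pi / 30) :
    Lam (lst e nB nD o c y 0) z = Lam (bas m y) z := by
  have hA : Lam (prsT (pA c 0) (mA c 0)) z = tau (-z) := by
    rw [← fuse60 hz]
    have e1 : Complex.exp ((Real.pi / 3 : ℝ) * I) + Complex.exp (-((Real.pi / 3 : ℝ) * I)) = 1 := by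
      have := Complex.two_cos (((Real.pi / 3 : ℝ)) : ℂ)
      have h10 : Complex.cos ((Real.pi / 3 : ℝ) : ℂ) = 1 / 2 := by
        rw [← Complex.ofReal_cos, Real.cos_pi_div_three]
        norm_num
      rw [h10] at this
      rw [← neg_mul]
      linear_combination -this
    refine h.A.Lam_of zero_dom ?_ ?_ z
    · rw [e1]
      unfold pA
      ring
    · rw [neg_neg, add_comm, e1]
      unfold mA
      simp
  have hB : Lam (prsT (pB c 0) (mB c 0)) z = tau (0 - z) * tau (0 - z) := by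
    refine h.B.Lam_of zero_dom ?_ ?_ z
    · unfold pB
      simp
      norm_num
    · unfold mB
      rw [map_ofNat]
      simp
      norm_num
  have hD : Lam (prsT (pD c 0) (mD c 0)) z = tau (0 - z) * tau (0 - z) := by
    refine h.D.Lam_of zero_dom ?_ ?_ z
    · unfold pD
      simp
      norm_num
    · unfold mD
      rw [map_ofNat]
      simp
      norm_num
  have hC : Lam (prsT (pC c y o 0) (mC c y o 0)) z = tau (y - z) * tau (-(y : ℂ) - z) := by
    have e1 : Complex.exp (y : ℂ) + Complex.exp (-(y : ℂ)) = ((2 * Real.cosh y : ℝ) : ℂ) := by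
      push_cast
      rw [Complex.cosh]
      ring
    refine h.C.Lam_of zero_dom ?_ ?_ z
    · rw [e1]
      unfold pC br
      simp
    · rw [neg_neg, add_comm, e1]
      unfold mC br'
      simp
  unfold lst lsO lsS
  rw [Lam_app, Lam_app, Lam_app, Lam_app, Lam_plist, Lam_plist, Lam_plist, Lam_rep, hA, hB, hC, hD]
  have e2 : Lam (bas m y) z = tau (y - z) * (tau (-(y : ℂ) - z) * tau (0 - z) ^ m) := by
    unfold bas Lam
    rw [List.map_cons, List.map_cons, List.prod_cons, List.prod_cons, List.map_replicate, List.prod_replicate]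
  rw [e2, h.hm]
  simp only [mul_zero, neg_zero, zero_sub]
  ring

/-- **the end of the path** -/
theorem SD.one (h : SD e nB nD o m c y) (z : ℂ) :
    Lam (lst e nB nD o c y 1) z = Lam (stair (e + nB + 1 + 2 * nD + o) (e + nB + 1) c) z := by
  have hA : Lam (prsT (pA c 1) (mA c 1)) z = tau (-((yy c : ℝ) * I) - z) * tau (((Real.pi / 6 + c : ℝ) : ℂ) * I - z) := by
    refine h.A.Lam_of one_dom ?_ ?_ z
    · rw [P1_eq]
      unfold pA
      ring
    · rw [neg_neg, P1_conj]
      unfold mA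
      ring
  have hB : Lam (prsT (pB c 1) (mB c 1)) z = tau (-((yy c : ℝ) * I) - z) * tau (((Real.pi / 6 + c : ℝ) : ℂ) * I - z) := by
    refine h.B.Lam_of one_dom ?_ ?_ z
    · rw [P1_eq]
      unfold pB
      ring
    · rw [neg_neg, P1_conj]
      unfold mB
      ring
  have hD : Lam (prsT (pD c 1) (mD c 1)) z = tau (-((yy c : ℝ) * I) - z) * tau (-((yy c : ℝ) * I) - z) := by
    refine h.D.Lam_of one_dom ?_ ?_ z
    · unfold pD
      ring
    · unfold mD
      simp only [map_mul, map_ofNat]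
      rw [← Complex.exp_conj]
      simp
      ring
  have hC : Lam (prsT (pC c y o 1) (mC c y o 1)) z =
      tau (-((yy c : ℝ) * I) - z) * tau (((Real.pi / 6 + c : ℝ) : ℂ) * I - z) := by
    refine h.C.Lam_of one_dom ?_ ?_ z
    · rw [P1_eq]
      unfold pC br
      simp
    · rw [neg_neg, P1_conj]
      unfold mC br'
      simp
  unfold lst lsO lsS stair
  rw [Lam_app, Lam_app, Lam_app, Lam_app, Lam_app, Lam_plist, Lam_plist, Lam_plist, Lam_rep, Lam_rep,
    Lam_rep, hA, hB, hC, hD, mul_one]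
  ring

end DRX

end
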