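import Pool.Agent.DRX.Path4
import Pool.Agent.DRX.Disc
import Pool.Agent.DRX.ChartI

/-!
# DUAL-R, exact side (helper17): the rows along the path form a group of R4

* `SD.grpL`: the sum rules and the sizes of `IST43.GrpL`;
* `etaS`: the weight along the disc; `etaS_hol`: holomorphic in `s`, `etaS_bd`: Schwarz.
-/

set_option autoImplicit false

noncomputable section

open Complex MeasureTheory Filter Topology Metric

namespace DRX

open DUA DUA.Pf

variable {e nB nD o m : ℕ} {c y : ℝ}

theorem bas_eq (m : ℕ) (y : ℝ) : bas m y = IST43.ideal m y := rfl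

/-- sums over ordinary rows -/
theorem spc_zero {L : List ℂ} (h : ∀ v ∈ L, |v.re| ≤ 1 / 1000) :
    (L.map fun v => if |v.re| ≤ 1 / 10 then 0 else 1).sum = 0 := by
  induction L with
  | nil => simp
  | cons a L ih =>
    have h1 := h a List.mem_cons_self
    rw [List.map_cons, List.sum_cons, ih fun v hv => h v (List.mem_cons_of_mem _ hv), if_pos (h1.trans (by norm_num))]

theorem res_le {L : List ℂ} (h : ∀ v ∈ L, |v.re| ≤ 1 / 1000) :
    (L.map fun v => if |v.re| ≤ 1 / 10 then |v.re| else 0).sum ≤ L.length * (1 / 1000) := by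
  induction L with
  | nil => simp
  | cons a L ih =>
    have h1 := h a List.mem_cons_self
    have h2 := ih fun v hv => h v (List.mem_cons_of_mem _ hv)
    rw [List.map_cons, List.sum_cons, if_pos (h1.trans (by norm_num)), List.length_cons]
    push_cast
    linarith

/-- **the rows are a group** -/
theorem SD.grpL (h : SD e nB nD o m c y) {t : ℂ} (ht : t ∈ dom) : IST43.GrpL (lst e nB nD o c y t) m y := by
  have hr := h.rows ht
  have hO := h.rowsO ht
  have hl : ((lsO e nB nD c t ++ lsS o c t).length : ℝ) ≤ 2 * m := by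
    have h1 := lst_len e nB nD o c y t
    have h2 : (lst e nB nD o c y t).length = 2 + (lsO e nB nD c t ++ lsS o c t).length := by
      unfold lst
      rw [List.length_append]
      congr 1
    have h3 : (lsO e nB nD c t ++ lsS o c t).length ≤ 2 * m := by
      have := h.hm
      omega
    exact_mod_cast h3
  have hm0 : (0 : ℝ) ≤ m := by positivity
  refine ⟨fun v hv => (hr v hv).1, fun v hv => (hr v hv).2, ?_, ?_, (h.sums ht).1, (h.sums ht).2, h.hy⟩
  · unfold lst
    rw [List.map_append, List.sum_append, spc_zero fun v hv => (hO v hv).2]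
    unfold prsT
    simp only [List.map_cons, List.map_nil, List.sum_cons, List.sum_nil]
    split_ifs <;> omega
  · unfold lst
    rw [List.map_append, List.sum_append]
    have h4 := res_le (L := lsO e nB nD c t ++ lsS o c t) fun v hv => (hO v hv).2
    have h5 : ((prsT (pC c y o t) (mC c y o t)).map fun v => if |v.re| ≤ 1 / 10 then |v.re| else 0).sum ≤ 1 / 5 := by
      unfold prsT
      simp only [List.map_cons, List.map_nil, List.sum_cons, List.sum_nil]
      have key : ∀ v : ℂ, (if |v.re| ≤ 1 / 10 then |v.re| else 0) ≤ 1 / 10 := by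
        intro v
        split_ifs with h6
        · exact h6
        · norm_num
      linarith [key (Complex.log (x1 (pC c y o t) (mC c y o t))), key (Complex.log (x2 (pC c y o t) (mC c y o t)))]
    linarith

/-! ### the weight along the disc -/

/-- the weight at `s` -/
def etaS (e nB nD o m : ℕ) (c y : ℝ) (s : ℂ) : ℂ → ℂ := IST43.etaL (lst e nB nD o c y (tt s)) m y

/-- number of rows -/
def nr (e nB nD o : ℕ) : ℕ := 2 + (2 * e + 2 * nB + 2 * nD + o)

theorem etaL_eq (L : List ℂ) (m : ℕ) (y : ℝ) (z : ℂ) : IST43.etaL L m y z =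
    Lam L z * (IST43.Om z ^ m * (IST43.Om (z + y) * IST43.Om (z - y))) - IST43.bW m y z := by
  unfold IST43.etaL IST43.etaW IST43.QW
  rw [IST43.Lam_list]

theorem tt_dom {s : ℂ} (hs : s ∈ ball (0 : ℂ) rh) : tt s ∈ dom := tt_near (by rwa [mem_ball_zero_iff] at hs)

theorem SD.etaS_hol (h : SD e nB nD o m c y) {z : ℂ} (hz : |z.im| ≤ 11 * Real.pi / 30) :
    DifferentiableOn ℂ (fun s => etaS e nB nD o m c y s z) (ball 0 rh) := by
  unfold etaS
  simp only [etaL_eq]
  exact (((h.diff hz).comp tt_diff fun s hs => tt_dom hs).mul_const _).sub_const _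

theorem SD.D1s (h : SD e nB nD o m c y) {s : ℂ} (hs : s ∈ ball (0 : ℂ) rh) :
    Hol (etaS e nB nD o m c y s) (-(11 * Real.pi / 30)) (11 * Real.pi / 30)
      ((2 * IST43.AW) ^ (nr e nB nD o + m + 2)) := by
  have hr := h.rows (tt_dom hs)
  have := IST43.D1 (m := m) (fun v hv => (hr v hv).1) (fun v hv => (hr v hv).2) h.hy
  rw [lst_len] at this
  exact this

/-- the weight vanishes at `s = 0` -/
theorem SD.etaS_zero (h : SD e nB nD o m c y) {z : ℂ} (hz : |z.im| ≤ 11 * Real.pi / 30)
    (h1 : Real.cos (2 * z.im) ≠ 1 / 2) (h2 : Lam (bas m y) z ≠ 0) :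
    etaS e nB nD o m c y 0 z * IST43.ibW m y z = 0 := by
  have h3 := IST43.Lam_group (lst e nB nD o c y (tt 0)) (m := m) (y := y) hz h1
  rw [tt_zero, h.zero hz, ← bas_eq] at h3
  have h4 : Lam (bas m y) z * (IST43.etaL (lst e nB nD o c y 0) m y z * IST43.ibW m y z) = 0 := by
    linear_combination -h3
  rcases mul_eq_zero.1 h4 with h5 | h5
  · exact absurd h5 h2
  · unfold etaS
    rw [tt_zero]
    exact h5

end DRX

end
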