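import Pool.Agent.DRX.Cross

/-!
# DUAL-R, exact side (helper2): reflection `v ↦ - v`

`ng` reflected list; `Fun.ng`, `FunS.ng`, `FH.ng`; `StarP` = STAR as one statement, `FH2_of`.
-/

set_option autoImplicit false

noncomputable section

open Complex MeasureTheory Filter Topology

namespace DRX

open DUA DUA.Pf

/-- STAR -/
def StarP : Prop := ∀ (f : List ℂ → ℂ) (c : ℝ) (Ψ : (ℝ → ℂ) → ℂ) (r : Fin 3 → ℝ) (e0 : ℝ) (w : ℂ → ℂ) (W d : ℝ)
  (X : List ℂ) (ρ : ℝ) (k : ℕ), Fun f c Ψ → LS r c e0 → Hol w (r 0) (r 2) W → d < 5 * Real.pi / 6 →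
    Adm (Stp c d) (fun X _ => f X) → StIn (Stp c d) r e0 → In (Stp c d) X → 0 < ρ → ρ * W < 1 →
    Wop r e0 w k f X = co ρ k (hh Ψ c w X)

/-- fixing the second list -/
lemma Adm.fix {K : Set ℂ} {G : List ℂ → List ℂ → ℂ} (h : Adm K G) {J : List ℂ} (hJ : In K J) :
    Adm K (fun X _ => G X J) := by
  have eJ : List.ofFn J.get = J := List.ofFn_get J
  have hj : ∀ b, J.get b ∈ K := fun b => hJ _ (List.get_mem J b)
  refine ⟨fun p q => ?_, fun p q => ?_⟩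
  · have h1 : Continuous fun z : (Fin p → ℂ) × (Fin q → ℂ) => ((z.1, J.get) : (Fin p → ℂ) × (Fin J.length → ℂ)) := by
      fun_prop
    have h2 := (h.cont p J.length).comp (s := {z : (Fin p → ℂ) × (Fin q → ℂ) | (∀ i, z.1 i ∈ K) ∧ ∀ j, z.2 j ∈ K})
      h1.continuousOn fun z hz => ⟨hz.1, hj⟩
    refine h2.congr fun z _ => ?_
    simp only [Function.comp, eJ]
  · obtain ⟨M, hM⟩ := h.bdd p J.length
    refine ⟨M, fun x y hx _ => ?_⟩
    have := hM x J.get hx hj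
    rwa [eJ] at this

lemma starX_of (hs : StarP) {F : List ℂ → List ℂ → ℂ} {Ψ : List ℂ → ℝ → (ℝ → ℂ) → ℂ}
    (ha : ∀ c d : ℝ, d < 5 * Real.pi / 6 → Adm (Stp c d) F) (hF : FunS F Ψ) : StarX F Ψ := by
  intro J X c d e r w W k ρ hr hw hd hS hX hJ hρ hρW
  exact hs (fun X => F X J) c (Ψ J c) r e w W d X ρ k (hF.fn J c (In.wn hd hJ)) hr hw hd ((ha c d hd).fix hJ) hS hX hρ hρW

theorem FH2_of (hs : StarP) {F : List ℂ → List ℂ → ℂ} (h : FH F) : FH2 F := by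
  obtain ⟨Ψ, hΨ⟩ := h.X
  obtain ⟨Φ, hΦ⟩ := h.Y
  exact ⟨h.adm, ⟨Ψ, hΨ, starX_of hs h.adm hΨ⟩, ⟨Φ, hΦ, starX_of hs (fun c d hd => (h.adm c d hd).swap) hΦ⟩⟩

/-! ### reflection -/

/-- reflected list -/
def ng (L : List ℂ) : List ℂ := L.map fun v => -v

lemma ng_ofFn {n : ℕ} (x : Fin n → ℂ) : ng (List.ofFn x) = List.ofFn fun i => -x i := by
  unfold ng
  rw [List.map_ofFn]
  rfl

lemma ng_ng (L : List ℂ) : ng (ng L) = L := by
  unfold ng
  rw [List.map_map]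
  simp [Function.comp_def]

lemma t_neg' (z : ℂ) : t (-z) = -t z := by
  unfold t
  rw [neg_div, Complex.tanh_neg]

lemma tau_neg' (z : ℂ) : tau (-z) = tau z := by
  unfold tau
  rw [show -z + a6 = -(z - a6) by ring, show -z - a6 = -(z + a6) by ring, t_neg', t_neg']
  ring

lemma Lam_ng (L : List ℂ) (z : ℂ) : Lam (ng L) z = Lam L (-z) := by
  unfold Lam ng
  rw [List.map_map]
  congr 1
  refine List.map_congr_left fun v _ => ?_
  simp only [Function.comp]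
  rw [show -v - z = -(v - -z) by ring, tau_neg']

lemma neg_ln (c x : ℝ) : -ln c x = ln (-c) (-x) := by
  unfold ln
  push_cast
  ring

lemma ng_wn {c : ℝ} {L : List ℂ} (h : Wn c L) : Wn (-c) (ng L) := by
  intro v hv
  unfold ng at hv
  rw [List.mem_map] at hv
  obtain ⟨u, hu, rfl⟩ := hv
  have := h u hu
  rw [Complex.neg_im, show -u.im - -c = -(u.im - c) by ring, abs_neg]
  exact this

lemma ng_in {c d : ℝ} {L : List ℂ} (h : In (Stp c d) L) : In (Stp (-c) d) (ng L) := by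
  intro v hv
  unfold ng at hv
  rw [List.mem_map] at hv
  obtain ⟨u, hu, rfl⟩ := hv
  have h1 : |u.im - c| ≤ d := h u hu
  show |(-u).im - -c| ≤ d
  rw [Complex.neg_im, show -u.im - -c = -(u.im - c) by ring, abs_neg]
  exact h1

lemma Kc_neg {A : ℝ} {L : ℝ → ℂ} (h : L ∈ Kc A) : (fun x => L (-x)) ∈ Kc A := by
  refine ⟨h.1.comp continuous_neg, fun x => ?_⟩
  have := h.2 (-x)
  rwa [abs_neg] at this

/-- **reflection of a functional** -/
theorem Fun.ng {f : List ℂ → ℂ} {c : ℝ} {Ψ : (ℝ → ℂ) → ℂ} (h : Fun f c Ψ) :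
    Fun (fun L => f (DRX.ng L)) (-c) fun L => Ψ fun x => L (-x) := by
  refine ⟨fun L hL => ?_, fun A L L0 h1 h2 h3 => ?_, fun A => ?_, ?_⟩
  · have h1 := ng_wn hL
    rw [neg_neg] at h1
    rw [h.con _ h1]
    congr 1
    funext x
    rw [Lam_ng, neg_ln]
  · exact h.seq A _ _ (fun n => Kc_neg (h1 n)) (Kc_neg h2) fun x => h3 (-x)
  · obtain ⟨M, hM⟩ := h.bdd A
    exact ⟨M, fun L hL => hM _ (Kc_neg hL)⟩
  · obtain ⟨D, hD1, hD2⟩ := h.grad
    refine ⟨fun L x => D (fun y => L (-y)) (-x), fun A => ?_, fun A U L hU h1 h2 v hv => ?_⟩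
    · obtain ⟨M, hM⟩ := hD1 A
      refine ⟨M, fun L hL => ?_⟩
      obtain ⟨m1, m2⟩ := hM _ (Kc_neg hL)
      exact ⟨m1.comp measurable_neg, fun x => m2 (-x)⟩
    · have h3 := hD2 A U (fun v x => L v (-x)) hU (fun v hv => Kc_neg (h1 v hv)) (fun x => h2 (-x)) v hv
      refine h3.congr_deriv ?_
      have h4 := integral_neg_eq_self (fun x => deriv (fun u => L u (-x)) v * D (fun y => L v (-y)) x) volume
      rw [← h4]
      simp only [neg_neg]

/-- reflected two sided function -/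
def Fng (F : List ℂ → List ℂ → ℂ) (X Y : List ℂ) : ℂ := F (ng X) (ng Y)

lemma Adm.ngB {c d : ℝ} {F : List ℂ → List ℂ → ℂ} (h : Adm (Stp (-c) d) F) : Adm (Stp c d) (Fng F) := by
  have hm : ∀ {v : ℂ}, v ∈ Stp c d → -v ∈ Stp (-c) d := by
    intro v hv
    have h1 : |v.im - c| ≤ d := hv
    show |(-v).im - -c| ≤ d
    rw [Complex.neg_im, show -v.im - -c = -(v.im - c) by ring, abs_neg]
    exact h1
  refine ⟨fun p q => ?_, fun p q => ?_⟩
  · have h1 : Continuous fun z : (Fin p → ℂ) × (Fin q → ℂ) => ((fun i => -z.1 i, fun j => -z.2 j) :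
      (Fin p → ℂ) × (Fin q → ℂ)) := by fun_prop
    have h2 := (h.cont p q).comp (s := {z : (Fin p → ℂ) × (Fin q → ℂ) | (∀ i, z.1 i ∈ Stp c d) ∧ ∀ j, z.2 j ∈ Stp c d})
      h1.continuousOn fun z hz => ⟨fun i => hm (hz.1 i), fun j => hm (hz.2 j)⟩
    refine h2.congr fun z _ => ?_
    simp only [Function.comp, Fng, ng_ofFn]
  · obtain ⟨M, hM⟩ := h.bdd p q
    refine ⟨M, fun x y hx hy => ?_⟩
    simp only [Fng, ng_ofFn]
    exact hM _ _ (fun i => hm (hx i)) fun j => hm (hy j)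

/-- reflection of the second list only -/
lemma Adm.ngR {d : ℝ} {F : List ℂ → List ℂ → ℂ} (h : Adm (Stp 0 d) F) : Adm (Stp 0 d) fun X Y => F X (ng Y) := by
  have hm : ∀ {v : ℂ}, v ∈ Stp 0 d → -v ∈ Stp 0 d := by
    intro v hv
    have h1 : |v.im - 0| ≤ d := hv
    show |(-v).im - 0| ≤ d
    rw [Complex.neg_im, sub_zero, abs_neg]
    rwa [sub_zero] at h1
  refine ⟨fun p q => ?_, fun p q => ?_⟩
  · have h1 : Continuous fun z : (Fin p → ℂ) × (Fin q → ℂ) => ((z.1, fun j => -z.2 j) :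
      (Fin p → ℂ) × (Fin q → ℂ)) := by fun_prop
    have h2 := (h.cont p q).comp (s := {z : (Fin p → ℂ) × (Fin q → ℂ) | (∀ i, z.1 i ∈ Stp 0 d) ∧ ∀ j, z.2 j ∈ Stp 0 d})
      h1.continuousOn fun z hz => ⟨hz.1, fun j => hm (hz.2 j)⟩
    refine h2.congr fun z _ => ?_
    simp only [Function.comp, ng_ofFn]
  · obtain ⟨M, hM⟩ := h.bdd p q
    refine ⟨M, fun x y hx hy => ?_⟩
    simp only [ng_ofFn]
    exact hM _ _ hx fun j => hm (hy j)

theorem FunS.ng {F : List ℂ → List ℂ → ℂ} {Ψ : List ℂ → ℝ → (ℝ → ℂ) → ℂ} (h : FunS F Ψ) :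
    FunS (Fng F) fun J c L => Ψ (DRX.ng J) (-c) fun x => L (-x) := by
  refine ⟨fun J c hJ => ?_, fun J c c' A L hJ hJ' hcc h1 h2 h3 => ?_⟩
  · have h1 := (h.fn (DRX.ng J) (-c) (ng_wn hJ)).ng
    rw [neg_neg] at h1
    exact h1
  · have him : ∀ z : ℂ, (-z).im = -z.im := fun z => Complex.neg_im z
    have h4 := h.shift (DRX.ng J) (-c') (-c) A (fun z => L (-z)) (ng_wn hJ') (ng_wn hJ) (by linarith) ?_ ?_ ?_
    · simp only at h4 ⊢
      have e1 : ∀ c : ℝ, (fun x => L (ln c (-x))) = fun x => L (-ln (-c) x) := by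
        intro c
        funext x
        rw [neg_ln, neg_neg]
      rw [e1 c, e1 c']
      exact h4.symm
    · refine h1.comp continuous_neg.continuousOn fun z hz => ?_
      show c ≤ (-z).im ∧ (-z).im ≤ c'
      rw [him]
      exact ⟨by linarith [hz.2], by linarith [hz.1]⟩
    · intro z a b
      have h5 := h2 (-z) (by rw [him]; linarith) (by rw [him]; linarith)
      exact DifferentiableAt.comp (g := L) (f := fun z => -z) z h5 (by fun_prop)
    · intro z a b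
      have h5 := h3 (-z) (by rw [him]; linarith) (by rw [him]; linarith)
      rwa [Complex.neg_re, abs_neg] at h5

theorem FH.ng {F : List ℂ → List ℂ → ℂ} (h : FH F) : FH (Fng F) := by
  obtain ⟨Ψ, hΨ⟩ := h.X
  obtain ⟨Φ, hΦ⟩ := h.Y
  exact ⟨fun c d hd => (h.adm (-c) d hd).ngB, ⟨_, hΨ.ng⟩, ⟨_, hΦ.ng⟩⟩

end DRX

end
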