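import Pool.Agent.DRX.StarB
import Pool.Agent.DRX.Refl

/-!
# STAR in the form used by Move, Cross, Chart
-/

set_option autoImplicit false

noncomputable section

namespace DRX

open DUA DUA.Pf

/-- **STAR** -/
theorem starP : StarP := by
  intro f c Ψ r e0 w W d X ρ k h hL hw hd hA hS hX hρ hρW
  exact star h hL hw (K := Stp c d) (fun v hv => lt_of_le_of_lt hv hd) hS hA hρ hρW k hX

end DRX

end
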