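import Pool.Agent.DRX.PathG
import Pool.Agent.DRX.StarFin
import Pool.Agent.DRX.Exp2
import Pool.Agent.DRX.Edge

/-!
# DUAL-R, exact side (helper17): the group of the expansion along the path

`SD.grp`: the structure `Grp` (paths, weights, STAR) for the disc of `Disc.lean` and the lines `lnC (π / 12)`.
-/

set_option autoImplicit false

noncomputable section

open Complex MeasureTheory Filter Topology Metric

namespace DRX

open DUA DUA.Pf

variable {e nB nD o m : ℕ} {c y : ℝ}

/-- the weight of the expansion -/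
def wS (e nB nD o m : ℕ) (c y : ℝ) (s : ℂ) : ℂ → ℂ := wz (etaS e nB nD o m c y s) (IST43.ibW m y) 0

theorem wS_eq (s z : ℂ) : wS e nB nD o m c y s z = etaS e nB nD o m c y s z * IST43.ibW m y z := by
  unfold wS wz
  rw [sub_zero]

theorem cos2_small {z : ℝ} (hz : |z| ≤ Real.pi / 12) : Real.cos (2 * z) ≠ 1 / 2 := by
  have hpi := Real.pi_pos
  refine IST43.cos2_ne ?_ ?_
  · intro h
    linarith
  · linarith

/-- the weights on the central strip -/
theorem SD.w_hol (h : SD e nB nD o m c y) : ∃ W : ℝ, 0 < W ∧ ∀ s ∈ ball (0 : ℂ) rh,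
    Hol (wS e nB nD o m c y s) (-(Real.pi / 12)) (Real.pi / 12) W := by
  have hpi := Real.pi_pos
  obtain ⟨B, hB1, hB⟩ := IST43.ibW_data (a := -(Real.pi / 12)) (b := Real.pi / 12) fun φ h1 h2 =>
    cos2_small (abs_le.2 ⟨h1, h2⟩)
  have hA : 1 ≤ IST43.AW := IST43.AW_ge
  refine ⟨(2 * IST43.AW) ^ (nr e nB nD o + m + 2) * B ^ (m + 2), by positivity, fun s hs => ?_⟩
  have h1 := h.D1s hs
  refine ⟨?_, fun z a b => ?_, fun z a b => ?_⟩
  · have h2 : wS e nB nD o m c y s = fun z => etaS e nB nD o m c y s z * IST43.ibW m y z := funext fun z => wS_eq s z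
    rw [h2]
    refine (h1.cont.mono fun z hz => ⟨by linarith [hz.1], by linarith [hz.2]⟩).mul fun z hz => ?_
    exact (hB m y h.hy z hz.1 hz.2).1.continuousAt.continuousWithinAt
  · have h2 : wS e nB nD o m c y s = fun z => etaS e nB nD o m c y s z * IST43.ibW m y z := funext fun z => wS_eq s z
    rw [h2]
    exact (h1.diff z (by linarith) (by linarith)).mul (hB m y h.hy z a.le b.le).1
  · rw [wS_eq, norm_mul]
    have h3 := h1.bd z (by linarith) (by linarith)
    have h4 := (hB m y h.hy z a b).2.2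
    calc ‖etaS e nB nD o m c y s z‖ * ‖IST43.ibW m y z‖
        ≤ ((2 * IST43.AW) ^ (nr e nB nD o + m + 2) * Real.exp (-|z.re|)) * B ^ (m + 2) := by gcongr
      _ = _ := by ring

/-- `tau` on the real line -/
theorem tau_real_ne (x : ℝ) : tau (x : ℂ) ≠ 0 := by
  rw [tau_eq, ← Complex.ofReal_cosh, ← Complex.ofReal_sub, ← Complex.ofReal_add, ← Complex.ofReal_div]
  rw [Complex.ofReal_ne_zero]
  have h1 := Real.one_le_cosh x
  obtain ⟨s1, s2, s3', s4⟩ := s3
  have h2 : 0 < Real.cosh x - Real.sqrt 3 / 2 := by linarith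
  have h3 : 0 < Real.cosh x + Real.sqrt 3 / 2 := by positivity
  positivity

theorem Lam_bas_ne (m : ℕ) (y x : ℝ) : Lam (bas m y) (ln 0 x) ≠ 0 := by
  have e1 : ln 0 x = ((x : ℝ) : ℂ) := by
    unfold ln
    simp
  rw [e1]
  unfold bas Lam
  rw [List.map_cons, List.map_cons, List.prod_cons, List.prod_cons, List.map_replicate, List.prod_replicate]
  have h1 : ((y : ℂ) - x) = ((y - x : ℝ) : ℂ) := by push_cast; rfl
  have h2 : (-(y : ℂ) - x) = ((-y - x : ℝ) : ℂ) := by push_cast; rfl
  have h3 : ((0 : ℂ) - x) = ((0 - x : ℝ) : ℂ) := by push_cast; rfl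
  rw [h1, h2, h3]
  exact mul_ne_zero (tau_real_ne _) (mul_ne_zero (tau_real_ne _) (pow_ne_zero _ (tau_real_ne _)))

/-- the central lines -/
def lC : Fin 3 → ℝ := lnC (Real.pi / 12)

theorem lC_mem (i : Fin 3) (t : ℝ) : -(Real.pi / 12) ≤ (sp lC i t).im ∧ (sp lC i t).im ≤ Real.pi / 12 := by
  have hpi := Real.pi_pos
  rw [sp_im]
  unfold lC lnC
  fin_cases i
  · simp only [Fin.zero_eta, Matrix.cons_val_zero]
    constructor <;> linarith
  · simp only [Fin.mk_one, Matrix.cons_val_one, Matrix.cons_val_zero]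
    constructor <;> linarith
  · simp only [Fin.reduceFinMk, Matrix.cons_val]
    constructor <;> linarith

theorem LS_lC : LS lC 0 (Real.pi / 60) := by
  have hpi := Real.pi_pos
  exact LS.mk3 (a := -(Real.pi / 12)) (b := 0) (d := Real.pi / 12) rfl rfl rfl (by positivity) (by linarith)
    (by linarith) (by linarith) (by linarith) (by linarith) (by linarith) (by linarith)

/-- the window -/
theorem exists_win : ∃ d : ℝ, d < 5 * Real.pi / 6 ∧ 5 * Real.pi / 12 ≤ d ∧ StIn (Stp 0 d) lC (Real.pi / 60) := by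
  obtain ⟨d, hd, h⟩ := LS_lC.stIn
  have hpi := Real.pi_pos
  exact ⟨max d (5 * Real.pi / 12), max_lt hd (by linarith), le_max_right _ _, h _ (le_max_left _ _)⟩

theorem bas_in {d : ℝ} (hd : 0 ≤ d) (m : ℕ) (y : ℝ) : In (Stp 0 d) (bas m y) := by
  intro v hv
  have h := ideal_im v (by rwa [bas_eq] at hv)
  show |v.im - 0| ≤ d
  rw [h, sub_zero, abs_zero]
  exact hd

/-- **the group of the expansion** -/
theorem SD.grp (h : SD e nB nD o m c y) {F : List ℂ → List ℂ → ℂ} {Ψ : List ℂ → ℝ → (ℝ → ℂ) → ℂ} {d : ℝ}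
    (hd : d < 5 * Real.pi / 6) (hd1 : 5 * Real.pi / 12 ≤ d) (hS : StIn (Stp 0 d) lC (Real.pi / 60))
    (hA : Adm (Stp 0 d) F) (hF : FunS F Ψ) : ∃ W W1 ρ1 : ℝ, 0 < W ∧ 0 < ρ1 ∧
      Grp (Stp 0 d) 0 rh W W1 ρ1 lC (Real.pi / 60) (bas m y) (fun s => lst e nB nD o c y (tt s)) (wS e nB nD o m c y) F := by
  have hpi := Real.pi_pos
  obtain ⟨W, hW, hw⟩ := h.w_hol
  have hrh := rh_pos
  have hln : ∀ x : ℝ, |(ln 0 x).im| ≤ 11 * Real.pi / 30 := fun x => by
    rw [ln_im, abs_zero]
    positivity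
  have hlc : ∀ x : ℝ, Real.cos (2 * (ln 0 x).im) ≠ 1 / 2 := fun x => by
    rw [ln_im, mul_zero, Real.cos_zero]
    norm_num
  refine ⟨W / rh, W, (2 * W)⁻¹, by positivity, by positivity, ?_, ?_, by positivity, hS, ?_⟩
  · refine ⟨bas_in (by linarith) m y, fun s hs v hv => ?_, ⟨nr e nB nD o, fun s _ => lst_len _ _ _ _ _ _ _⟩,
      fun s hs x => ?_, fun s hs => ?_, fun x => ?_, fun s hs x => ?_⟩
    · show |v.im - 0| ≤ d
      rw [sub_zero]
      exact ((h.rows (tt_dom hs) v hv).1).trans hd1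
    · rw [wS_eq, bas_eq]
      exact IST43.Lam_group _ (hln x) (hlc x)
    · refine (hw s hs).cont.comp_continuous (cont_ln 0) fun x => ?_
      show -(Real.pi / 12) ≤ (ln 0 x).im ∧ (ln 0 x).im ≤ Real.pi / 12
      rw [ln_im]
      constructor <;> linarith
    · simp only [wS_eq]
      exact (h.etaS_hol (hln x)).mul_const _
    · -- Schwarz
      have hd0 : DifferentiableOn ℂ (fun s => wS e nB nD o m c y s (ln 0 x)) (ball 0 rh) := by
        simp only [wS_eq]
        exact (h.etaS_hol (hln x)).mul_const _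
      have hb : ∀ s ∈ ball (0 : ℂ) rh, ‖wS e nB nD o m c y s (ln 0 x)‖ ≤ W * Real.exp (-|x|) := fun s hs => by
        have := (hw s hs).bd (ln 0 x) (by rw [ln_im]; linarith) (by rw [ln_im]; linarith)
        rwa [ln_re] at this
      have h0 : wS e nB nD o m c y 0 (ln 0 x) = 0 := by
        rw [wS_eq]
        exact h.etaS_zero (hln x) (hlc x) (Lam_bas_ne m y x)
      have hO : (fun s => wS e nB nD o m c y s (ln 0 x)) =O[𝓝[≠] (0 : ℂ)] fun s => s ^ 1 := by
        have h1 : DifferentiableAt ℂ (fun s => wS e nB nD o m c y s (ln 0 x)) 0 :=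
          (hd0 0 (mem_ball_self hrh)).differentiableAt (ball_mem_nhds 0 hrh)
        have h2 := h1.isBigO_sub
        rw [h0] at h2
        simp only [sub_zero] at h2
        refine (h2.mono nhdsWithin_le_nhds).congr_right fun s => ?_
        rw [pow_one]
      rcases eq_or_ne s 0 with rfl | hs0
      · rw [h0, norm_zero]
        positivity
      · have := schw hd0 hb hO (by rwa [mem_ball_zero_iff] at hs) hs0
        rw [pow_one] at this
        refine this.trans (le_of_eq ?_)
        field_simp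
  · refine ⟨fun s hs => ⟨fun i => ?_, fun i t => ?_⟩, fun i t => ?_⟩
    · refine (hw s hs).cont.comp_continuous ?_ fun t => lC_mem i t
      unfold sp
      exact cont_ln _
    · have := (hw s hs).bd (sp lC i t) (lC_mem i t).1 (lC_mem i t).2
      rwa [sp_re] at this
    · simp only [wS_eq]
      refine (h.etaS_hol ?_).mul_const _
      have := lC_mem i t
      rw [abs_le]
      constructor <;> linarith [this.1, this.2]
  · intro J hJ
    have hJw : Wn 0 J := fun v hv => lt_of_le_of_lt (hJ v hv) hd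
    refine ⟨Ψ J 0, hF.fn J 0 hJw, fun s hs k => ?_⟩
    unfold WX
    refine starP (fun I => F I J) 0 (Ψ J 0) lC (Real.pi / 60) (wS e nB nD o m c y s) W d (bas m y) (2 * W)⁻¹ k
      (hF.fn J 0 hJw) LS_lC ?_ hd (hA.fix hJ) hS (bas_in (by linarith) m y) (by positivity) ?_
    · exact hw s hs
    · rw [mul_inv, mul_assoc, inv_mul_cancel₀ hW.ne']
      norm_num

end DRX

end
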