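import Pool.Agent.DRX.Coul

/-!
# Sums over the pairs of a list, energy of neutral charges (DUAL-R, F34)

* `prs g L`: the sum over the pairs; `prs_append`, `prs_map`, `prs_add`, `prs_smul`;
* `coul_list`: `prs (q q' |h - h'|) ≤ 0` for neutral charges;
* `ener`: `∑ q² h + prs (q q' (h + h')) = 0` for neutral charges;
* `prs_le`: products over pairs and `exp`.
-/

set_option autoImplicit false

noncomputable section

namespace DRX

variable {α β : Type*}

/-- sum over the pairs of a list -/
def prs (g : α → α → ℝ) : List α → ℝ
  | [] => 0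
  | c :: L => (L.map (g c)).sum + prs g L

@[simp] theorem prs_nil (g : α → α → ℝ) : prs g [] = 0 := rfl

@[simp] theorem prs_cons (g : α → α → ℝ) (c : α) (L : List α) :
    prs g (c :: L) = (L.map (g c)).sum + prs g L := rfl

theorem prs_map (g : β → β → ℝ) (f : α → β) (L : List α) :
    prs g (L.map f) = prs (fun c d => g (f c) (f d)) L := by
  induction L with
  | nil => rfl
  | cons c L ih =>
    rw [List.map_cons, prs_cons, prs_cons, ih, List.map_map]
    rfl

theorem prs_append (g : α → α → ℝ) (L M : List α) :
    prs g (L ++ M) = prs g L + prs g M + (L.map fun c => (M.map (g c)).sum).sum := by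
  induction L with
  | nil => simp
  | cons c L ih =>
    rw [List.cons_append, prs_cons, prs_cons, ih, List.map_append, List.sum_append, List.map_cons,
      List.sum_cons]
    ring

theorem sum_map_add' (f g : α → ℝ) (L : List α) :
    (L.map fun c => f c + g c).sum = (L.map f).sum + (L.map g).sum := by
  induction L with
  | nil => simp
  | cons c L ih =>
    simp only [List.map_cons, List.sum_cons, ih]
    ring

theorem sum_map_mul' (a : ℝ) (f : α → ℝ) (L : List α) :
    (L.map fun c => a * f c).sum = a * (L.map f).sum := by
  induction L with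
  | nil => simp
  | cons c L ih =>
    simp only [List.map_cons, List.sum_cons, ih]
    ring

theorem prs_add (g g' : α → α → ℝ) (L : List α) :
    prs (fun c d => g c d + g' c d) L = prs g L + prs g' L := by
  induction L with
  | nil => simp
  | cons c L ih =>
    rw [prs_cons, prs_cons, prs_cons, ih, sum_map_add' (g c) (g' c)]
    ring

theorem prs_smul (a : ℝ) (g : α → α → ℝ) (L : List α) :
    prs (fun c d => a * g c d) L = a * prs g L := by
  induction L with
  | nil => simp
  | cons c L ih =>
    rw [prs_cons, prs_cons, ih, sum_map_mul' a (g c)]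
    ring

theorem prs_congr {g g' : α → α → ℝ} (L : List α) (h : ∀ c ∈ L, ∀ d ∈ L, g c d = g' c d) :
    prs g L = prs g' L := by
  induction L with
  | nil => rfl
  | cons c L ih =>
    rw [prs_cons, prs_cons, ih fun c hc d hd => h c (List.mem_cons_of_mem _ hc) d
      (List.mem_cons_of_mem _ hd)]
    congr 2
    exact List.map_congr_left fun d hd => h c List.mem_cons_self d (List.mem_cons_of_mem _ hd)

theorem sum_mono' {f g : α → ℝ} (L : List α) (h : ∀ c ∈ L, f c ≤ g c) :
    (L.map f).sum ≤ (L.map g).sum := by
  induction L with
  | nil => simp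
  | cons c L ih =>
    simp only [List.map_cons, List.sum_cons]
    exact add_le_add (h c List.mem_cons_self) (ih fun d hd => h d (List.mem_cons_of_mem _ hd))

theorem prs_mono {g g' : α → α → ℝ} (L : List α) (h : ∀ c ∈ L, ∀ d ∈ L, g c d ≤ g' c d) :
    prs g L ≤ prs g' L := by
  induction L with
  | nil => simp
  | cons c L ih =>
    rw [prs_cons, prs_cons]
    exact add_le_add (sum_mono' L fun d hd => h c List.mem_cons_self d (List.mem_cons_of_mem _ hd))
      (ih fun c hc d hd => h c (List.mem_cons_of_mem _ hc) d (List.mem_cons_of_mem _ hd))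

/-- the double sum -/
theorem prs_dbl {g : α → α → ℝ} (hs : ∀ c d, g c d = g d c) (h0 : ∀ c, g c c = 0) (L : List α) :
    (L.map fun c => (L.map (g c)).sum).sum = 2 * prs g L := by
  induction L with
  | nil => simp
  | cons c L ih =>
    have e : (L.map fun d => ((c :: L).map (g d)).sum) = L.map fun d => g c d + (L.map (g d)).sum := by
      refine List.map_congr_left fun d _ => ?_
      rw [List.map_cons, List.sum_cons, hs d c]
    rw [List.map_cons, List.sum_cons, e, sum_map_add', ih, List.map_cons, List.sum_cons, h0, prs_cons]
    ring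

theorem sum_fin (f : α → ℝ) (L : List α) : (L.map f).sum = ∑ i : Fin L.length, f (L.get i) := by
  rw [← List.sum_ofFn]
  congr 1
  conv_lhs => rw [← List.ofFn_get L]
  rw [List.map_ofFn]
  rfl

/-- **neutral charges on a line** -/
theorem coul_list (h q : α → ℝ) (L : List α) (h0 : (L.map q).sum = 0) :
    prs (fun c d => q c * q d * |h c - h d|) L ≤ 0 := by
  have h1 := prs_dbl (g := fun c d => q c * q d * |h c - h d|)
    (fun c d => by rw [abs_sub_comm, mul_comm (q c)]) (fun c => by simp) L
  have h2 := coul (fun i : Fin L.length => h (L.get i)) (fun i => q (L.get i))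
    (by rw [← sum_fin, h0])
  have h3 : (L.map fun c => (L.map ((fun c d => q c * q d * |h c - h d|) c)).sum).sum =
      ∑ i : Fin L.length, ∑ j : Fin L.length,
        q (L.get i) * q (L.get j) * |h (L.get i) - h (L.get j)| := by
    rw [sum_fin]
    refine Finset.sum_congr rfl fun i _ => ?_
    rw [sum_fin]
  rw [h3] at h1
  linarith

/-- **the linear part** -/
theorem ener (h q : α → ℝ) (L : List α) :
    (L.map fun c => q c ^ 2 * h c).sum + prs (fun c d => q c * q d * (h c + h d)) L =
      (L.map q).sum * (L.map fun c => q c * h c).sum := by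
  induction L with
  | nil => simp
  | cons c L ih =>
    have e : (L.map fun d => q c * q d * (h c + h d)).sum =
        q c * h c * (L.map q).sum + q c * (L.map fun d => q d * h d).sum := by
      rw [← sum_map_mul', ← sum_map_mul', ← sum_map_add']
      congr 1
      exact List.map_congr_left fun d _ => by ring
    simp only [List.map_cons, List.sum_cons, prs_cons]
    rw [e]
    linear_combination ih

/-- **the energy of neutral charges** -/
theorem energy (h q : α → ℝ) (L : List α) (h0 : (L.map q).sum = 0) :
    (L.map fun c => q c ^ 2 * h c).sum +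
      prs (fun c d => 2 * (q c * q d) * max (h c) (h d)) L ≤ 0 := by
  have e : ∀ c d : α, 2 * (q c * q d) * max (h c) (h d) =
      q c * q d * (h c + h d) + q c * q d * |h c - h d| := by
    intro c d
    rw [max_def]
    split_ifs with h1
    · rw [abs_of_nonpos (sub_nonpos.2 h1)]
      ring
    · rw [abs_of_nonneg (sub_nonneg.2 (not_le.1 h1).le)]
      ring
  simp_rw [e]
  rw [prs_add]
  have h1 := ener h q L
  have h2 := coul_list h q L h0
  rw [h0, zero_mul] at h1
  linarith

/-! ### products -/

/-- product over the pairs, upper bound -/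
theorem prod_exp_le {f : α → ℂ} {g : α → ℝ} {K : ℝ} (hK : 0 ≤ K) (L : List α)
    (h : ∀ d ∈ L, ‖f d‖ ≤ K * Real.exp (g d)) :
    ‖(L.map f).prod‖ ≤ K ^ L.length * Real.exp (L.map g).sum := by
  induction L with
  | nil => simp
  | cons c L ih =>
    have h1 := h c List.mem_cons_self
    have h2 := ih fun d hd => h d (List.mem_cons_of_mem _ hd)
    simp only [List.map_cons, List.prod_cons, List.sum_cons, List.length_cons]
    rw [norm_mul, Real.exp_add, pow_succ']
    calc ‖f c‖ * ‖(L.map f).prod‖ ≤ (K * Real.exp (g c)) * (K ^ L.length * Real.exp (L.map g).sum) := by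
          gcongr
      _ = _ := by ring

/-- product, lower bound -/
theorem le_prod_exp {f : α → ℂ} {g : α → ℝ} {k : ℝ} (hk : 0 ≤ k) (L : List α)
    (h : ∀ d ∈ L, k * Real.exp (g d) ≤ ‖f d‖) :
    k ^ L.length * Real.exp (L.map g).sum ≤ ‖(L.map f).prod‖ := by
  induction L with
  | nil => simp
  | cons c L ih =>
    have h1 := h c List.mem_cons_self
    have h2 := ih fun d hd => h d (List.mem_cons_of_mem _ hd)
    simp only [List.map_cons, List.prod_cons, List.sum_cons, List.length_cons]
    rw [norm_mul, Real.exp_add, pow_succ']
    calc k * k ^ L.length * (Real.exp (g c) * Real.exp (L.map g).sum) =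
          (k * Real.exp (g c)) * (k ^ L.length * Real.exp (L.map g).sum) := by ring
      _ ≤ ‖f c‖ * ‖(L.map f).prod‖ := by gcongr

end DRX

end
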