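import Pool.Agent.DRX.Main
import Pool.Agent.DRX.FN

/-!
# DUAL-R for the loop function (helper17)

`dual` with `FH` and the crude bound discharged (`Lp.fh`, `Lp.crude`): only the gas bound `R3` is left.
-/

set_option autoImplicit false

noncomputable section

open Complex MeasureTheory Filter Topology Metric

namespace DRX

open DUA DUA.Pf

/-- **DUAL-R for the loop function**: stairs against bases, one hypothesis `R3` -/
theorem dual_real {η σ om : ℂ} (hη : η ^ 4 = -1) (hr : η - η ^ 3 = ((Real.sqrt 2 : ℝ) : ℂ)) (hom : ‖om‖ = 1)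
    {G : List ℂ → List ℂ → ℂ} (hG : Lp η σ om G) {ε : ℝ} (hε : 0 < ε) (hε1 : ε ≤ 1) :
    ∃ C C1 : ℝ, 0 < C ∧ 0 < C1 ∧
    ∀ (e nB nD o m : ℕ) (c y : ℝ) (a b : ℕ) (e' nB' nD' o' m' : ℕ) (c' y' : ℝ) (a' b' : ℕ),
    Tgt e nB nD o m c y a b → Tgt e' nB' nD' o' m' c' y' a' b' →
    ∀ (c0 B M n0 : ℝ) (K : ℕ), 0 < c0 → c0 < Real.pi / 60 → 0 ≤ B → 0 ≤ M →
    R3 (FT G []) m m' y y' c0 B M K →
    0 < n0 → n0 ≤ (nr e nB nD o : ℝ) + m + 2 → n0 ≤ (nr e' nB' nD' o' : ℝ) + m' + 2 →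
    B * Real.exp (1 + 6 / (Real.pi * ε * c0)) * (C * n0 ^ (-(3 / 2) + ε)) < 1 →
    ‖FT G [] (stair a b c) (stair a' b' c') - FT G [] (bas m y) (bas m' y')‖ ≤
      2 * (M * Real.exp (6 / (Real.pi * ε * c0))) *
        (B * Real.exp (1 + 6 / (Real.pi * ε * c0)) * (C * n0 ^ (-(3 / 2) + ε))) /
        (1 - B * Real.exp (1 + 6 / (Real.pi * ε * c0)) * (C * n0 ^ (-(3 / 2) + ε))) ^ 2 +
      (Real.exp (C1 * (((nr e nB nD o + nr e' nB' nD' o' : ℕ) : ℝ) + 1) ^ 3) +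
        M * Real.exp (6 / (Real.pi * ε * c0)) /
        (1 - B * Real.exp (1 + 6 / (Real.pi * ε * c0)) * (C * n0 ^ (-(3 / 2) + ε))) ^ 2) * (s1 / rh) ^ (K + 1) := by
  have hpi := Real.pi_pos
  obtain ⟨C, hC, key⟩ := dual hε hε1
  obtain ⟨C1, hC1, hb⟩ := hG.crude hη hom (d := 5 * Real.pi / 12) (by linarith)
  refine ⟨C, C1, hC, hC1, ?_⟩
  intro e nB nD o m c y a b e' nB' nD' o' m' c' y' a' b' hX hY c0 B M n0 K hc hc1 hB hM hR hn h1 h2 hq
  refine key (FT G []) (hG.fh hη hr hom) e nB nD o m c y a b e' nB' nD' o' m' c' y' a' b' hX hY c0 B M _ n0 K hc hc1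
    hB hM hR ?_ hn h1 h2 hq
  intro X Y hXl hYl hXr hYr
  have := hb 0 X Y (fun v hv => by simpa using (hXr v hv).1) fun v hv => by simpa using (hYr v hv).1
  rwa [hXl, hYl] at this

end DRX

end
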