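import Pool.Agent.DRX.Refl

/-!
# DUAL-R, exact side (helper2): at the central lines the strands may be reflected; bounds uniform in a parameter
-/

set_option autoImplicit false

noncomputable section

open Complex MeasureTheory Filter Topology

namespace DRX

open DUA DUA.Pf

/-- the central line system -/
lemma LS_C {δ e c : ℝ} (hδ : δ < Real.pi / 6) (he : 0 < e) (h1 : -δ + e < c) (h2 : c + e < δ) : LS (lnC δ) c e := by
  have hpi := Real.pi_pos
  exact LS.mk3 (a := -δ) (b := 0) (d := δ) rfl rfl rfl he (by linarith) (by linarith)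
    (by linarith) (by linarith) (by linarith) (by linarith) (by linarith)

/-- **one sided reflection at the centre** -/
theorem refl1 (hs : StarP) {f : List ℂ → ℂ} {Ψ : (ℝ → ℂ) → ℂ} (h : Fun f 0 Ψ) {d : ℝ} (hd : d < 5 * Real.pi / 6)
    (ha : Adm (Stp 0 d) fun X _ => f X) {δ e : ℝ} (hC : LS (lnC δ) 0 e) (hS : StIn (Stp 0 d) (lnC δ) e) {w : ℂ → ℂ}
    (hw : HolE w (-δ) δ) {X : List ℂ} (hX : In (Stp 0 d) X) (k : ℕ) :
    Wop (lnC δ) e w k f X = Wop (lnC δ) e (fun s => w (-s)) k (fun L => f (ng L)) (ng X) := by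
  obtain ⟨W, hW⟩ := hw
  have him : ∀ z : ℂ, (-z).im = -z.im := fun z => Complex.neg_im z
  have hw2 : Hol (fun s => w (-s)) (-δ) δ W := by
    refine ⟨?_, fun z h1 h2 => ?_, fun z h1 h2 => ?_⟩
    · refine hW.cont.comp continuous_neg.continuousOn fun z hz => ?_
      show -δ ≤ (-z).im ∧ (-z).im ≤ δ
      rw [him]
      exact ⟨by linarith [hz.2], by linarith [hz.1]⟩
    · have h5 := hW.diff (-z) (by rw [him]; linarith) (by rw [him]; linarith)
      exact DifferentiableAt.comp (g := w) (f := fun z => -z) z h5 (by fun_prop)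
    · have h5 := hW.bd (-z) (by rw [him]; linarith) (by rw [him]; linarith)
      rwa [Complex.neg_re, abs_neg] at h5
  obtain ⟨ρ, hρ, hρW⟩ : ∃ ρ : ℝ, 0 < ρ ∧ ρ * W < 1 := by
    refine ⟨1 / (|W| + 1), by positivity, ?_⟩
    rw [div_mul_eq_mul_div, one_mul, div_lt_one (by positivity)]
    linarith [le_abs_self W]
  have hf2 := h.ng
  rw [neg_zero] at hf2
  have ha2 : Adm (Stp 0 d) fun X _ => f (ng X) := by
    have h1 := ha.swap.ngR.swap
    exact h1
  have hX2 : In (Stp 0 d) (ng X) := by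
    have := ng_in hX
    rwa [neg_zero] at this
  rw [hs f 0 Ψ (lnC δ) e w W d X ρ k h hC hW hd ha hS hX hρ hρW,
    hs _ 0 _ (lnC δ) e _ W d (ng X) ρ k hf2 hC hw2 hd ha2 hS hX2 hρ hρW]
  unfold co
  refine integral_congr_ae (Eventually.of_forall fun ψ => ?_)
  simp only [hh]
  congr 2
  funext x
  unfold fam
  simp only
  rw [Lam_ng, neg_ln, neg_zero, neg_neg]

/-- **reflection of both groups at the centre** -/
theorem refl2 (hs : StarP) {F : List ℂ → List ℂ → ℂ} (hF : FH F) {X Y : List ℂ} {w w' : ℂ → ℂ} {δ e : ℝ}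
    (hC : LS (lnC δ) 0 e) (hw : HolE w (-δ) δ) (hw' : HolE w' (-δ) δ) (hX : Wn 0 X) (hY : Wn 0 Y) (k k' : ℕ) :
    TT2 (lnC δ) (lnC δ) e e w w' k k' F X Y =
      TT2 (lnC δ) (lnC δ) e e (fun s => w (-s)) (fun s => w' (-s)) k k' (Fng F) (ng X) (ng Y) := by
  obtain ⟨Ψ, hΨ⟩ := hF.X
  obtain ⟨Φ, hΦ⟩ := hF.Y
  obtain ⟨d, hd, a1, -, a3, a4⟩ := common hC hC hX hY
  have hA := hF.adm 0 d hd
  have hn : ∀ {L : List ℂ}, In (Stp 0 d) L → In (Stp 0 d) (ng L) := fun {L} h => by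
    have := ng_in h
    rwa [neg_zero] at this
  have hng : ∀ {w : ℂ → ℂ}, HolE w (-δ) δ → HolE (fun s => w (-s)) (-δ) δ := by
    intro w hw
    have him : ∀ z : ℂ, (-z).im = -z.im := fun z => Complex.neg_im z
    obtain ⟨W, hW⟩ := hw
    refine ⟨W, ?_, fun z h1 h2 => ?_, fun z h1 h2 => ?_⟩
    · refine hW.cont.comp continuous_neg.continuousOn fun z hz => ?_
      show -δ ≤ (-z).im ∧ (-z).im ≤ δ
      rw [him]
      exact ⟨by linarith [hz.2], by linarith [hz.1]⟩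
    · have h5 := hW.diff (-z) (by rw [him]; linarith) (by rw [him]; linarith)
      exact DifferentiableAt.comp (g := w) (f := fun z => -z) z h5 (by fun_prop)
    · have h5 := hW.bd (-z) (by rw [him]; linarith) (by rw [him]; linarith)
      rwa [Complex.neg_re, abs_neg] at h5
  have hwt : WtP (lnC δ) w := HolE.wt hC hw
  have hwt' : WtP (lnC δ) w' := HolE.wt hC hw'
  have hnt : WtP (lnC δ) fun s => w (-s) := HolE.wt hC (hng hw)
  have hnt' : WtP (lnC δ) fun s => w' (-s) := HolE.wt hC (hng hw')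
  unfold TT2
  -- reflect the operator of the second list
  have s1 : WX (lnC δ) e w k (WY (lnC δ) e w' k' F) X Y =
      WX (lnC δ) e w k (WY (lnC δ) e (fun s => w' (-s)) k' fun X Y => F X (ng Y)) X (ng Y) := by
    refine WX_congr a1 k a3 fun X' hX' => ?_
    unfold WY
    exact refl1 hs (hΦ.fn X' 0 (In.wn hd hX')) hd (hA.swap.fix hX') hC a1 hw' a4 k'
  have s2 : WX (lnC δ) e w k (WY (lnC δ) e (fun s => w' (-s)) k' fun X Y => F X (ng Y)) X (ng Y) =
      WY (lnC δ) e (fun s => w' (-s)) k' (WX (lnC δ) e w k fun X Y => F X (ng Y)) X (ng Y) :=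
    WX_WY hC.e hC.e a1 a1 hwt hnt' k k' hA.ngR a3 (hn a4)
  have s3 : WY (lnC δ) e (fun s => w' (-s)) k' (WX (lnC δ) e w k fun X Y => F X (ng Y)) X (ng Y) =
      WY (lnC δ) e (fun s => w' (-s)) k' (WX (lnC δ) e (fun s => w (-s)) k (Fng F)) (ng X) (ng Y) := by
    refine WY_congr a1 k' (hn a4) fun Y' hY' => ?_
    unfold WX
    exact refl1 hs (hΨ.fn (ng Y') 0 (In.wn hd (hn hY'))) hd (hA.fix (hn hY')) hC a1 hw a3 k
  have s4 : WY (lnC δ) e (fun s => w' (-s)) k' (WX (lnC δ) e (fun s => w (-s)) k (Fng F)) (ng X) (ng Y) =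
      WX (lnC δ) e (fun s => w (-s)) k (WY (lnC δ) e (fun s => w' (-s)) k' (Fng F)) (ng X) (ng Y) := by
    have hA2 : Adm (Stp 0 d) (Fng F) := by
      have := hF.adm (-0) d hd
      exact this.ngB
    exact (WX_WY hC.e hC.e a1 a1 hnt hnt' k k' hA2 (hn a3) (hn a4)).symm
  rw [s1, s2, s3, s4]

/-! ### bounds uniform in a parameter -/

/-- bounded on the lists of fixed lengths, uniformly in the parameter -/
def BZ {T : Type*} (U : Set T) (K : Set ℂ) (G : T → List ℂ → List ℂ → ℂ) : Prop :=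
  ∀ p q : ℕ, ∃ M : ℝ, ∀ z ∈ U, ∀ X Y : List ℂ, X.length = p → Y.length = q → In K X → In K Y → ‖G z X Y‖ ≤ M

lemma BZ.flip {T : Type*} {U : Set T} {K : Set ℂ} {G : T → List ℂ → List ℂ → ℂ} (h : BZ U K G) :
    BZ U K fun z X Y => G z Y X := by
  intro p q
  obtain ⟨M, hM⟩ := h q p
  exact ⟨M, fun z hz X Y h1 h2 h3 h4 => hM z hz Y X h2 h1 h4 h3⟩

lemma BZ.wopX {T : Type*} {U : Set T} {K : Set ℂ} {G : T → List ℂ → List ℂ → ℂ} (h : BZ U K G) {r : Fin 3 → ℝ}
    {e0 : ℝ} (he : 0 < e0) (hs : StIn K r e0) {f : T → ℂ → ℂ}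
    (hf : ∀ j : ℕ, ∃ W : ℝ, ∀ z ∈ U, Wt r (fun s => f z s ^ (j + 1)) ∧ ∑ i, ∫ t, ‖f z (sp r i t) ^ (j + 1)‖ ≤ W) :
    ∀ k, BZ U K fun z X Y => WX r e0 (f z) k (G z) X Y := by
  intro k
  induction k using Nat.strong_induction_on with
  | _ k ih =>
    rcases k with _ | k
    · simp only [WX_zero]
      exact h
    · intro p q
      choose M hM using fun j : Fin (k + 1) => ih (k - j) (by omega) (p + 2) q
      choose W hW using fun j : Fin (k + 1) => hf j
      refine ⟨‖((k : ℂ) + 1)⁻¹‖ * ∑ j : Fin (k + 1), (2 * Real.pi)⁻¹ * W j * e0⁻¹ * |M j|, fun z hz X Y hX hY iX iY => ?_⟩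
      simp only [WX_succ]
      rw [norm_mul]
      refine mul_le_mul_of_nonneg_left ?_ (norm_nonneg _)
      refine (norm_sum_le _ _).trans (Finset.sum_le_sum fun j _ => ?_)
      rw [norm_mul, norm_pow, norm_neg, norm_one, one_pow, one_mul]
      obtain ⟨w1, w2⟩ := hW j z hz
      have h1 := AX_le (M := |M j|) he w1 (G := WX r e0 (f z) (k - j) (G z)) (X := X) (Y := Y) fun i p' => by
        refine (hM j z hz _ _ ?_ hY (In_st hs i p' iX) iY).trans (le_abs_self _)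
        simp [st, hX]
      refine h1.trans ?_
      have hpi : 0 ≤ (2 * Real.pi)⁻¹ := by have := Real.pi_pos; positivity
      refine mul_le_mul_of_nonneg_right (mul_le_mul_of_nonneg_right (mul_le_mul_of_nonneg_left w2 hpi) ?_) (abs_nonneg _)
      positivity

lemma BZ.wopY {T : Type*} {U : Set T} {K : Set ℂ} {G : T → List ℂ → List ℂ → ℂ} (h : BZ U K G) {r : Fin 3 → ℝ}
    {e0 : ℝ} (he : 0 < e0) (hs : StIn K r e0) {f : T → ℂ → ℂ}
    (hf : ∀ j : ℕ, ∃ W : ℝ, ∀ z ∈ U, Wt r (fun s => f z s ^ (j + 1)) ∧ ∑ i, ∫ t, ‖f z (sp r i t) ^ (j + 1)‖ ≤ W)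
    (k : ℕ) : BZ U K fun z X Y => WY r e0 (f z) k (G z) X Y :=
  (h.flip.wopX he hs hf k).flip

end DRX

end
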