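import Mathlib

/-!
# Removable poles, uniformly (DUAL-R, F34)

A function of several rows in the strip `|Im v i - c| < D`, holomorphic in each row, which is bounded
on the configurations whose differences `v i - v j` stay away from a finite set `P` and whose rows stay
away from a finite set `Q`, is bounded.

* `exists_radius`: a circle which avoids finitely many points;
* `rem_poles`.
-/

set_option autoImplicit false

noncomputable section

open Finset Function

namespace DRX

theorem exists_radius {κ : Type*} (s : Finset κ) (c : κ → ℝ) {r : ℝ} (hr : 0 < r) :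
    ∃ ρ : ℝ, r / 2 ≤ ρ ∧ ρ ≤ r ∧ ∀ i ∈ s, r / (4 * (s.card + 1)) ≤ |c i - ρ| := by
  classical
  obtain ⟨N, hN⟩ : ∃ N : ℕ, N = s.card := ⟨_, rfl⟩
  rw [← hN]
  have hN0 : (0 : ℝ) < N + 1 := by positivity
  obtain ⟨d, hd⟩ : ∃ d : ℝ, d = r / (4 * (N + 1)) := ⟨_, rfl⟩
  have hd0 : 0 < d := by rw [hd]; positivity
  have hdr : 4 * (N + 1) * d = r := by rw [hd]; field_simp
  rw [← hd]
  by_contra hc
  push Not at hc
  have hk : ∀ k : Fin (N + 1), ∃ i ∈ s, |c i - (r / 2 + 2 * d * k)| < d := by
    intro k
    refine hc _ ?_ ?_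
    · have : 0 ≤ 2 * d * (k : ℝ) := by positivity
      linarith
    · have h1 : ((k : ℕ) : ℝ) ≤ N := by exact_mod_cast Nat.lt_succ_iff.1 k.2
      have h2 : 2 * d * (k : ℝ) ≤ 2 * d * N := by gcongr
      nlinarith
  choose g hg1 hg2 using hk
  have hcard : s.card < (Finset.univ : Finset (Fin (N + 1))).card := by
    rw [Finset.card_univ, Fintype.card_fin, ← hN]
    exact Nat.lt_succ_self _
  obtain ⟨k, -, k', -, hkk, he⟩ := Finset.exists_ne_map_eq_of_card_lt_of_maps_to hcard
    (f := g) (fun k _ => hg1 k)
  have a1 := hg2 k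
  have a2 := hg2 k'
  rw [he] at a1
  have h3 : |(2 * d * (k : ℝ)) - 2 * d * (k' : ℝ)| < 2 * d := by
    have e : (2 * d * (k : ℝ)) - 2 * d * (k' : ℝ) =
        (c (g k') - (r / 2 + 2 * d * (k' : ℝ))) - (c (g k') - (r / 2 + 2 * d * (k : ℝ))) := by ring
    rw [e]
    refine lt_of_le_of_lt (abs_sub _ _) ?_
    linarith
  have h4 : (1 : ℝ) ≤ |(k : ℝ) - k'| := by
    have h5 : (k : ℕ) ≠ (k' : ℕ) := fun h => hkk (Fin.ext h)
    have h6 : (1 : ℤ) ≤ |((k : ℕ) : ℤ) - ((k' : ℕ) : ℤ)| := Int.one_le_abs (by omega)
    exact_mod_cast h6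
  rw [← mul_sub, abs_mul, abs_of_pos (by positivity)] at h3
  nlinarith

variable {ι : Type*} [Fintype ι] [DecidableEq ι]

/-- **removable poles, uniformly** -/
theorem rem_poles (F : (ι → ℂ) → ℂ) (P Q : Finset ℂ) (c D : ℝ)
    (hF : ∀ v : ι → ℂ, (∀ i, |(v i).im - c| < D) → ∀ i,
      DifferentiableAt ℂ (fun z => F (update v i z)) (v i))
    (h0 : ∀ ε : ℝ, 0 < ε → ∀ d : ℝ, d < D → ∃ M : ℝ, ∀ v : ι → ℂ, (∀ i, |(v i).im - c| ≤ d) →
      (∀ i j, i ≠ j → ∀ p ∈ P, ε ≤ ‖v i - v j - p‖) → (∀ i, ∀ p ∈ Q, ε ≤ ‖v i - p‖) → ‖F v‖ ≤ M) :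
    ∀ d : ℝ, d < D → ∃ M : ℝ, ∀ v : ι → ℂ, (∀ i, |(v i).im - c| ≤ d) → ‖F v‖ ≤ M := by
  have key : ∀ S : Finset ι, ∀ ε : ℝ, 0 < ε → ∀ d : ℝ, d < D → ∃ M : ℝ, ∀ v : ι → ℂ,
      (∀ i, |(v i).im - c| ≤ d) →
      (∀ i j, i ∉ S → j ∉ S → i ≠ j → ∀ p ∈ P, ε ≤ ‖v i - v j - p‖) →
      (∀ i, i ∉ S → ∀ p ∈ Q, ε ≤ ‖v i - p‖) → ‖F v‖ ≤ M := by
    intro S
    induction S using Finset.induction_on with
    | empty =>
      intro ε hε d hd
      obtain ⟨M, hM⟩ := h0 ε hε d hd
      exact ⟨M, fun v hv hs hq => hM v hv (fun i j hij p hp => hs i j (by simp) (by simp) hij p hp)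
        fun i p hp => hq i (by simp) p hp⟩
    | insert a S ha ih =>
      intro ε hε d hd
      obtain ⟨r, hr⟩ : ∃ r : ℝ, r = (D - d) / 2 := ⟨_, rfl⟩
      have hr0 : 0 < r := by rw [hr]; linarith
      obtain ⟨s, hs⟩ : ∃ s : Finset ((ι × ℂ × Bool) ⊕ ℂ), s = (univ ×ˢ (P ×ˢ univ)).disjSum Q :=
        ⟨_, rfl⟩
      obtain ⟨e1, he1⟩ : ∃ e1 : ℝ, e1 = r / (4 * (s.card + 1)) := ⟨_, rfl⟩
      have he10 : 0 < e1 := by rw [he1]; positivity
      obtain ⟨M, hM⟩ := ih (min ε e1) (lt_min hε he10) (d + r) (by rw [hr]; linarith)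
      refine ⟨M, fun v hv hsep hq => ?_⟩
      obtain ⟨ρ, h1, h2, h3⟩ := exists_radius s (Sum.elim
        (fun x : ι × ℂ × Bool => ‖v x.1 + (if x.2.2 then x.2.1 else -x.2.1) - v a‖)
        (fun x : ℂ => ‖x - v a‖)) hr0
      rw [← he1] at h3
      have hρ : 0 < ρ := by linarith
      have hre : ∀ z : ℂ, ‖z - v a‖ ≤ ρ → |z.im - c| ≤ d + r := by
        intro z hz
        have e : z.im - c = (z - v a).im + ((v a).im - c) := by
          rw [Complex.sub_im]
          ring
        rw [e]
        refine (abs_add_le _ _).trans ?_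
        have := (Complex.abs_im_le_norm (z - v a)).trans (hz.trans h2)
        have := hv a
        linarith
      have hup : ∀ z : ℂ, ‖z - v a‖ ≤ ρ → ∀ i, |(update v a z i).im - c| ≤ d + r := by
        intro z hz i
        by_cases hi : i = a
        · rw [hi, update_self]
          exact hre z hz
        · rw [update_of_ne hi]
          have := hv i
          linarith
      have hdr : d + r < D := by rw [hr]; linarith
      have hd1 : DiffContOnCl ℂ (fun z => F (update v a z)) (Metric.ball (v a) ρ) := by
        refine DifferentiableOn.diffContOnCl ?_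
        rw [closure_ball _ hρ.ne']
        intro z hz
        rw [Metric.mem_closedBall, dist_eq_norm] at hz
        have h4 := hF (update v a z) (fun i => lt_of_le_of_lt (hup z hz i) hdr) a
        simp only [update_idem, update_self] at h4
        exact h4.differentiableWithinAt
      have hbd : ∀ z ∈ frontier (Metric.ball (v a) ρ), ‖F (update v a z)‖ ≤ M := by
        intro z hz
        rw [frontier_ball _ hρ.ne', Metric.mem_sphere, dist_eq_norm] at hz
        have hcirc : ∀ j : ι, ∀ p ∈ P, ∀ b : Bool, e1 ≤ ‖z - (v j + (if b then p else -p))‖ := by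
          intro j p hp b
          have h5 := h3 (Sum.inl (j, p, b)) (by rw [hs]; simp [hp])
          simp only [Sum.elim_inl] at h5
          refine h5.trans ?_
          rw [abs_sub_comm, ← hz]
          refine (abs_norm_sub_norm_le _ _).trans (le_of_eq ?_)
          congr 1
          ring
        refine hM _ (hup z hz.le) ?_ ?_
        swap
        · intro i hi p hp
          by_cases hia : i = a
          · rw [hia, update_self]
            have h5 := h3 (Sum.inr p) (by rw [hs]; simp [hp])
            simp only [Sum.elim_inr] at h5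
            refine (min_le_right _ _).trans (h5.trans ?_)
            rw [abs_sub_comm, ← hz]
            refine (abs_norm_sub_norm_le _ _).trans (le_of_eq ?_)
            congr 1
            ring
          · rw [update_of_ne hia]
            refine (min_le_left _ _).trans (hq i ?_ p hp)
            rw [Finset.mem_insert, not_or]
            exact ⟨hia, hi⟩
        intro i j hi hj hij p hp
        by_cases hia : i = a
        · have hja : j ≠ a := fun h => hij (hia.trans h.symm)
          rw [hia, update_self, update_of_ne hja]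
          have h6 := hcirc j p hp true
          simp only [if_true] at h6
          refine (min_le_right _ _).trans (h6.trans (le_of_eq ?_))
          congr 1
          ring
        · by_cases hja : j = a
          · rw [hja, update_self, update_of_ne hia]
            have h6 := hcirc i p hp false
            simp only [Bool.false_eq_true, if_false] at h6
            refine (min_le_right _ _).trans (h6.trans (le_of_eq ?_))
            rw [← norm_neg]
            congr 1
            ring
          · rw [update_of_ne hia, update_of_ne hja]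
            refine (min_le_left _ _).trans (hsep i j ?_ ?_ hij p hp)
            · rw [Finset.mem_insert, not_or]
              exact ⟨hia, hi⟩
            · rw [Finset.mem_insert, not_or]
              exact ⟨hja, hj⟩
      have h7 := Complex.norm_le_of_forall_mem_frontier_norm_le Metric.isBounded_ball hd1 hbd
        (subset_closure (Metric.mem_ball_self hρ))
      simpa using h7
  intro d hd
  obtain ⟨M, hM⟩ := key Finset.univ 1 one_pos d hd
  exact ⟨M, fun v hv => hM v hv (fun i j hi => absurd (Finset.mem_univ i) hi)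
    fun i hi => absurd (Finset.mem_univ i) hi⟩

end DRX

end
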