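import Pool.Agent.DRX.Cau1
import Pool.Agent.DRX.Lem

/-!
# The gradient form of `τ ↦ Ψ (Lam_I (1 + τ w))` (DUAL-R, STAR, part A)
-/

set_option autoImplicit false

noncomputable section

open Complex MeasureTheory Filter Topology

namespace DRX

open DUA DUA.Pf

namespace SA

/-- height of `θ - v` for the strand of the line `i` -/
def sg (r : Fin 3 → ℝ) (c : ℝ) (i : Fin 3) : ℝ := c - r i + off i

theorem off0 : off 0 = Real.pi / 6 := rfl
theorem off1 : off 1 = Real.pi / 2 := rfl
theorem off2 : off 2 = 5 * Real.pi / 6 := rfl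

theorem sg_lt {r : Fin 3 → ℝ} {c e0 : ℝ} (hL : LS r c e0) (i : Fin 3) : sg r c i < 5 * Real.pi / 6 := by
  have h1 := hL.a
  have h2 := hL.b
  have h3 := hL.wd
  have h4 := hL.mid
  have h4' := neg_abs_le (r 1 - c)
  have h5 := hL.e
  have hpi := Real.pi_pos
  unfold sg
  fin_cases i
  · show c - r 0 + Real.pi / 6 < _
    linarith
  · show c - r 1 + Real.pi / 2 < _
    linarith
  · show c - r 2 + 5 * Real.pi / 6 < _
    linarith

theorem lm {r : Fin 3 → ℝ} {c e0 : ℝ} (hL : LS r c e0) : r 1 + e0 < c + Real.pi / 3 := by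
  have h1 := hL.mid
  have h2 := le_abs_self (r 1 - c)
  linarith

theorem lt_sg {r : Fin 3 → ℝ} {c e0 : ℝ} (hL : LS r c e0) (hm : r 1 + e0 < c + Real.pi / 3) (i : Fin 3) :
    Real.pi / 6 + e0 < sg r c i := by
  have h1 := hL.a
  have h2 := hL.b
  have h3 := hL.wd
  have h5 := hL.e
  have hpi := Real.pi_pos
  unfold sg
  fin_cases i
  · show _ < c - r 0 + Real.pi / 6
    linarith
  · show _ < c - r 1 + Real.pi / 2
    linarith
  · show _ < c - r 2 + 5 * Real.pi / 6
    linarith

/-- a larger radius -/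
theorem ex_e1 {r : Fin 3 → ℝ} {c e0 : ℝ} (hL : LS r c e0) (hm : r 1 + e0 < c + Real.pi / 3) :
    ∃ e1 : ℝ, e0 < e1 ∧ ∀ i, Real.pi / 6 + e1 < sg r c i := by
  have h := lt_sg hL hm
  set m := min (sg r c 0) (min (sg r c 1) (sg r c 2)) with hm'
  have h0 : Real.pi / 6 + e0 < m := lt_min (h 0) (lt_min (h 1) (h 2))
  refine ⟨(e0 + (m - Real.pi / 6)) / 2, by linarith, fun i => ?_⟩
  have h1 : m ≤ sg r c i := by
    fin_cases i
    · exact min_le_left _ _
    · exact (min_le_right _ _).trans (min_le_left _ _)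
    · exact (min_le_right _ _).trans (min_le_right _ _)
  linarith

theorem im_phi (r : Fin 3 → ℝ) (c : ℝ) (i : Fin 3) (x t : ℝ) : (ln c x - vp r i t).im = sg r c i := by
  unfold vp sg
  rw [sub_im, ln_im, ln_im]
  ring

theorem re_phi (r : Fin 3 → ℝ) (c : ℝ) (i : Fin 3) (x t : ℝ) : (ln c x - vp r i t).re = x - t := by
  unfold vp
  rw [sub_re, ln_re, ln_re]

theorem sinh_low (z : ℂ) : Real.exp |z.re| / 2 * Real.sin z.im ≤ ‖Complex.sinh z‖ := by
  have h1 := ShA.Sh.norm_sinh_sq z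
  have h2 : (Real.cosh z.re * Real.sin z.im) ^ 2 ≤ ‖Complex.sinh z‖ ^ 2 := by
    rw [h1]
    have := sq_nonneg (Real.sinh z.re * Real.cos z.im)
    linarith
  have h3 : Real.cosh z.re * Real.sin z.im ≤ ‖Complex.sinh z‖ := le_of_sq_le_sq h2 (norm_nonneg _)
  rcases le_total 0 (Real.sin z.im) with h | h
  · exact (mul_le_mul_of_nonneg_right (ShA.Sh.exp_le_cosh z.re) h).trans h3
  · have h4 : Real.exp |z.re| / 2 * Real.sin z.im ≤ 0 := mul_nonpos_of_nonneg_of_nonpos (by positivity) h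
    exact h4.trans (norm_nonneg _)

theorem qs_dec {z : ℂ} (h : 0 < Real.sin z.im) : ‖qs z‖ ≤ 2 / Real.sin z.im * Real.exp (-|z.re|) := by
  have h1 := sinh_low z
  have h2 : 0 < Real.exp |z.re| / 2 * Real.sin z.im := by positivity
  unfold qs
  rw [norm_div, norm_one, Real.exp_neg]
  calc 1 / ‖Complex.sinh z‖ ≤ 1 / (Real.exp |z.re| / 2 * Real.sin z.im) := one_div_le_one_div_of_le h2 h1
    _ = _ := by field_simp

theorem phi_dec {r : Fin 3 → ℝ} {c e0 : ℝ} (hL : LS r c e0) (hm : r 1 + e0 < c + Real.pi / 3) (i : Fin 3) :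
    ∃ C : ℝ, 0 ≤ C ∧ ∀ x t : ℝ, ‖phi (ln c x - vp r i t)‖ ≤ C * Real.exp (-|x - t|) := by
  have hpi := Real.pi_pos
  have h1 := sg_lt hL i
  have h2 := lt_sg hL hm i
  have h3 := hL.e
  have s1 : 0 < Real.sin (sg r c i + Real.pi / 6) := Real.sin_pos_of_pos_of_lt_pi (by linarith) (by linarith)
  have s2 : 0 < Real.sin (sg r c i - Real.pi / 6) := Real.sin_pos_of_pos_of_lt_pi (by linarith) (by linarith)
  refine ⟨2 / Real.sin (sg r c i + Real.pi / 6) + 2 / Real.sin (sg r c i - Real.pi / 6), by positivity, fun x t => ?_⟩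
  have i1 : (ln c x - vp r i t + a6).im = sg r c i + Real.pi / 6 := by rw [add_im, im_phi, a6_im]
  have i2 : (ln c x - vp r i t - a6).im = sg r c i - Real.pi / 6 := by rw [sub_im, im_phi, a6_im]
  have r1 : (ln c x - vp r i t + a6).re = x - t := by rw [add_re, re_phi, a6_re, add_zero]
  have r2 : (ln c x - vp r i t - a6).re = x - t := by rw [sub_re, re_phi, a6_re, sub_zero]
  have b1 := qs_dec (z := ln c x - vp r i t + a6) (by rw [i1]; exact s1)
  have b2 := qs_dec (z := ln c x - vp r i t - a6) (by rw [i2]; exact s2)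
  rw [i1, r1] at b1
  rw [i2, r2] at b2
  unfold phi
  refine (norm_add_le _ _).trans ?_
  rw [add_mul]
  exact add_le_add b1 b2

theorem sinh_ne_of {z : ℂ} (h : 0 < Real.sin z.im) : Complex.sinh z ≠ 0 := by
  have h1 := sinh_low z
  have h2 : 0 < Real.exp |z.re| / 2 * Real.sin z.im := by positivity
  exact norm_pos_iff.1 (lt_of_lt_of_le h2 h1)

theorem cont_phi {r : Fin 3 → ℝ} {c e0 : ℝ} (hL : LS r c e0) (hm : r 1 + e0 < c + Real.pi / 3) (i : Fin 3) :
    Continuous fun p : ℝ × ℝ => phi (ln c p.2 - vp r i p.1) := by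
  have hpi := Real.pi_pos
  have h1 := sg_lt hL i
  have h2 := lt_sg hL hm i
  have h3 := hL.e
  have s1 : 0 < Real.sin (sg r c i + Real.pi / 6) := Real.sin_pos_of_pos_of_lt_pi (by linarith) (by linarith)
  have s2 : 0 < Real.sin (sg r c i - Real.pi / 6) := Real.sin_pos_of_pos_of_lt_pi (by linarith) (by linarith)
  have hc : Continuous fun p : ℝ × ℝ => ln c p.2 - vp r i p.1 :=
    ((cont_ln c).comp continuous_snd).sub ((cont_ln _).comp continuous_fst)
  unfold phi qs
  refine Continuous.add ?_ ?_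
  · refine continuous_const.div (Complex.continuous_sinh.comp (hc.add continuous_const)) fun p => ?_
    exact sinh_ne_of (by rw [add_im, im_phi, a6_im]; exact s1)
  · refine continuous_const.div (Complex.continuous_sinh.comp (hc.sub continuous_const)) fun p => ?_
    exact sinh_ne_of (by rw [sub_im, im_phi, a6_im]; exact s2)

theorem exp_split (t x : ℝ) : Real.exp (-|t|) * Real.exp (-|x - t|) ≤ Real.exp (-(|t| / 2)) * Real.exp (-(|x| / 2)) := by
  rw [← Real.exp_add, ← Real.exp_add]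
  refine Real.exp_le_exp.2 ?_
  have h1 : |x| ≤ |x - t| + |t| := by
    have := abs_add_le (x - t) t
    rwa [sub_add_cancel] at this
  have h2 := abs_nonneg (x - t)
  linarith

theorem int_half : Integrable fun x : ℝ => Real.exp (-(|x| / 2)) := by
  have h := int_exp_abs (b := 1 / 2) (by norm_num)
  refine h.congr (Eventually.of_forall fun x => ?_)
  show Real.exp (-(1 / 2) * |x|) = Real.exp (-(|x| / 2))
  congr 1
  ring

end SA

open SA

/-- the weight of a line system is nonnegative -/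
theorem Hol.W0 {w : ℂ → ℂ} {a b W : ℝ} (hw : Hol w a b W) (hab : a ≤ b) : 0 ≤ W := by
  have h := hw.bd (ln a 0) (by rw [ln_im]) (by rw [ln_im]; exact hab)
  rw [ln_re, abs_zero, neg_zero, Real.exp_zero, mul_one] at h
  exact (norm_nonneg _).trans h

/-- `1 + τ w` is in a class -/
theorem one_Kc {w : ℂ → ℂ} {a b W c R : ℝ} (hw : Hol w a b W) (ha : a ≤ c) (hb : c ≤ b) {τ : ℂ} (hτ : ‖τ‖ ≤ R) :
    (fun x => 1 + τ * w (ln c x)) ∈ Kc (R * W) := by
  have hW := hw.W0 (ha.trans hb)
  refine ⟨?_, fun x => ?_⟩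
  · refine continuous_const.add (continuous_const.mul ?_)
    refine hw.cont.comp_continuous (cont_ln c) fun x => ?_
    show a ≤ (ln c x).im ∧ (ln c x).im ≤ b
    rw [ln_im]
    exact ⟨ha, hb⟩
  · rw [add_sub_cancel_left, norm_mul, mul_assoc]
    have h := hw.bd (ln c x) (by rw [ln_im]; exact ha) (by rw [ln_im]; exact hb)
    rw [ln_re] at h
    exact mul_le_mul hτ h (norm_nonneg _) ((norm_nonneg _).trans hτ)

/-- the family is in a class -/
theorem fam_Kc {w : ℂ → ℂ} {a b W c R : ℝ} (hw : Hol w a b W) (ha : a ≤ c) (hb : c ≤ b) {I : List ℂ} {A : ℝ} (hA0 : 0 ≤ A)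
    (hA : (fun x => Lam I (ln c x)) ∈ Kc A) {τ : ℂ} (hτ : ‖τ‖ ≤ R) : fam c w I τ ∈ Kc (A + R * W + A * (R * W)) :=
  Kc_mul hA0 hA (one_Kc hw ha hb hτ)

theorem Kc_bound {A : ℝ} (hA : 0 ≤ A) {L : ℝ → ℂ} (h : L ∈ Kc A) (x : ℝ) : ‖L x‖ ≤ 1 + A := by
  have h1 := h.2 x
  have h2 : Real.exp (-|x|) ≤ 1 := Real.exp_le_one_iff.2 (neg_nonpos.2 (abs_nonneg x))
  have h3 : ‖L x‖ ≤ ‖L x - 1‖ + 1 := by
    have := norm_add_le (L x - 1) 1
    rwa [sub_add_cancel, norm_one] at this
  have h4 : A * Real.exp (-|x|) ≤ A * 1 := mul_le_mul_of_nonneg_left h2 hA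
  linarith

/-- **the strand average is the gradient against the kernel** -/
theorem HH_eq {c : ℝ} {Ψ : (ℝ → ℂ) → ℂ} {D : (ℝ → ℂ) → ℝ → ℂ}
    (hD : ∀ (A : ℝ) (U : Set ℂ) (L : ℂ → ℝ → ℂ), IsOpen U → (∀ v ∈ U, L v ∈ Kc A) →
      (∀ x, DifferentiableOn ℂ (fun v => L v x) U) → ∀ v ∈ U,
        HasDerivAt (fun v => Ψ (L v)) (∫ x, deriv (fun u => L u x) v * D (L v) x) v)
    {r : Fin 3 → ℝ} {e0 : ℝ} (hL : LS r c e0) {w : ℂ → ℂ} {W : ℝ}
    (hw : Hol w (r 0) (r 2) W) {I : List ℂ} (hI : Wn c I) (τ : ℂ) (i : Fin 3) (t : ℝ) :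
    HH Ψ c w r e0 I i t τ = ∫ x, fam c w I τ x * phi (ln c x - vp r i t) * D (fam c w I τ) x := by
  have hpi := Real.pi_pos
  have hm := lm hL
  obtain ⟨e1, he1, hs⟩ := ex_e1 hL hm
  have he0 := hL.e
  have hs1 := hs i
  have hs2 := sg_lt hL i
  have ha : r 0 ≤ c := by linarith [hL.a]
  have hb : c ≤ r 2 := hL.b.le
  set v := vp r i t with hv
  have vre : v.re = t := by rw [hv]; unfold vp; rw [ln_re]
  have vim : v.im = c - sg r c i := by
    rw [hv]
    unfold vp sg
    rw [ln_im]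
    ring
  set L : ℂ → ℝ → ℂ := fun ζ => fam c w (v :: (v + ip + ζ) :: I) τ with hLdef
  have Lx : ∀ ζ x, L ζ x = tau (v - ln c x) * (tau (v + ip + ζ - ln c x) * Lam I (ln c x)) * (1 + τ * w (ln c x)) := by
    intro ζ x
    show Lam (v :: (v + ip + ζ) :: I) (ln c x) * (1 + τ * w (ln c x)) = _
    rw [Lam_cons, Lam_cons]
  -- the family is in one class
  obtain ⟨A0, hA00, hA0⟩ := Lam_Kc hI
  obtain ⟨C1, hC10, hC1⟩ := tau_Kc (c := c) (d := sg r c i) hs2
  obtain ⟨C2, hC20, hC2⟩ := tau_Kc (c := c) (d := Real.pi - sg r c i + e1) (by linarith)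
  have hK : ∃ A : ℝ, ∀ ζ ∈ Metric.ball (0:ℂ) e1, L ζ ∈ Kc A := by
    have k1 : (fun x => tau (v - ln c x)) ∈ Kc (C1 * Real.exp |t|) := by
      have := hC1 v (by rw [vim, show c - sg r c i - c = -sg r c i by ring, abs_neg, abs_of_pos (by linarith)])
      rwa [vre] at this
    have hRW := one_Kc (c := c) hw ha hb (le_refl ‖τ‖)
    have hW := hw.W0 (ha.trans hb)
    have h10 : 0 ≤ C1 * Real.exp |t| := by positivity
    have h20 : 0 ≤ C2 * Real.exp (|t| + e1) := by positivity
    set B1 : ℝ := C1 * Real.exp |t| with hB1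
    set B2 : ℝ := C2 * Real.exp (|t| + e1) with hB2
    refine ⟨(B1 + (B2 + A0 + B2 * A0) + B1 * (B2 + A0 + B2 * A0)) + ‖τ‖ * W +
      (B1 + (B2 + A0 + B2 * A0) + B1 * (B2 + A0 + B2 * A0)) * (‖τ‖ * W), fun ζ hζ => ?_⟩
    rw [mem_ball_zero_iff] at hζ
    have hzi : |ζ.im| ≤ e1 := (Complex.abs_im_le_norm ζ).trans hζ.le
    have hzr : |ζ.re| ≤ e1 := (Complex.abs_re_le_norm ζ).trans hζ.le
    have k2 : (fun x => tau (v + ip + ζ - ln c x)) ∈ Kc (C2 * Real.exp (|t| + e1)) := by
      have h1 := hC2 (v + ip + ζ) (by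
        rw [add_im, add_im, vim, ip_im, show c - sg r c i + Real.pi + ζ.im - c = Real.pi - sg r c i + ζ.im by ring]
        refine (abs_add_le _ _).trans ?_
        rw [abs_of_pos (by linarith : 0 < Real.pi - sg r c i)]
        linarith)
      refine Kc_mono ?_ h1
      rw [add_re, add_re, vre, ip_re, add_zero]
      refine mul_le_mul_of_nonneg_left (Real.exp_le_exp.2 ?_) hC20
      exact (abs_add_le _ _).trans (by linarith)
    have k3 := Kc_mul h20 k2 hA0
    have k4 := Kc_mul h10 k1 k3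
    have k5 := Kc_mul (by positivity) k4 hRW
    have e : L ζ = fun x => tau (v - ln c x) * (tau (v + ip + ζ - ln c x) * Lam I (ln c x)) * (1 + τ * w (ln c x)) :=
      funext fun x => Lx ζ x
    rw [e]
    exact k5
  obtain ⟨A, hA⟩ := hK
  have hdiff : ∀ x, DifferentiableOn ℂ (fun ζ => L ζ x) (Metric.ball (0:ℂ) e1) := by
    intro x ζ hζ
    rw [mem_ball_zero_iff] at hζ
    have hzi : |ζ.im| ≤ e1 := (Complex.abs_im_le_norm ζ).trans hζ.le
    have h1 : DifferentiableAt ℂ tau (v + ip + ζ - ln c x) := by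
      refine tau_diffAt ?_
      rw [sub_im, add_im, add_im, vim, ip_im, ln_im,
        show c - sg r c i + Real.pi + ζ.im - c = Real.pi - sg r c i + ζ.im by ring]
      refine lt_of_le_of_lt (abs_add_le _ _) ?_
      rw [abs_of_pos (by linarith : 0 < Real.pi - sg r c i)]
      linarith
    have h2 : DifferentiableAt ℂ (fun ζ => tau (v + ip + ζ - ln c x)) ζ :=
      DifferentiableAt.comp ζ (f := fun ζ => v + ip + ζ - ln c x) h1 (by fun_prop)
    have e : (fun ζ => L ζ x) = fun ζ => tau (v - ln c x) * (tau (v + ip + ζ - ln c x) * Lam I (ln c x)) *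
        (1 + τ * w (ln c x)) := funext fun ζ => Lx ζ x
    rw [e]
    exact (((h2.mul_const _).const_mul _).mul_const _).differentiableWithinAt
  have hder := hD A (Metric.ball 0 e1) L Metric.isOpen_ball hA hdiff
  have he10 : 0 < e1 := he0.trans he1
  have hG : DifferentiableOn ℂ (fun ζ => Ψ (L ζ)) (Metric.ball 0 e1) := fun ζ hζ =>
    (hder ζ hζ).differentiableAt.differentiableWithinAt
  -- Cauchy
  have c1 : HH Ψ c w r e0 I i t τ = co e0 1 (fun ζ => Ψ (L ζ)) := by
    unfold HH co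
    refine integral_congr_ae (Eventually.of_forall fun φ => ?_)
    show (2 * Real.pi * circleMap 0 e0 φ)⁻¹ * hh Ψ c w (st r e0 i (t, φ) I) τ =
      (2 * Real.pi * circleMap 0 e0 φ ^ 1)⁻¹ * Ψ (L (circleMap 0 e0 φ))
    rw [pow_one]
    rfl
  have c2 := co_deriv he0 he1 hG 0
  have c3 := co_zero he0 he1 (hG.deriv Metric.isOpen_ball)
  have c4 : co e0 1 (fun ζ => Ψ (L ζ)) = deriv (fun ζ => Ψ (L ζ)) 0 := by
    rw [← c3, ← c2]
    push_cast
    ring
  have h0 : (0:ℂ) ∈ Metric.ball (0:ℂ) e1 := Metric.mem_ball_self he10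
  rw [c1, c4, (hder 0 h0).deriv]
  -- the family at zero
  have hz : ∀ x, -(5 * Real.pi / 6) < (v - ln c x).im ∧ (v - ln c x).im < -(Real.pi / 6) := by
    intro x
    rw [sub_im, vim, ln_im]
    constructor <;> linarith
  have hstr : ∀ x, HasDerivAt (fun ζ => tau (v - ln c x) * tau (v - ln c x + ip + ζ)) (phi (-(v - ln c x))) 0 :=
    fun x => str_hasDeriv (hz x).1 (hz x).2
  have hne : ∀ x, tau (v - ln c x) ≠ 0 := by
    intro x
    have h1 := hz x
    have i1 : (v - ln c x + a6).im = (v - ln c x).im + Real.pi / 6 := by rw [add_im, a6_im]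
    have i2 : (v - ln c x - a6).im = (v - ln c x).im - Real.pi / 6 := by rw [sub_im, a6_im]
    have b1 : |(v - ln c x + a6).im| < Real.pi := by
      rw [i1]
      exact abs_lt.2 ⟨by linarith [h1.1], by linarith [h1.2]⟩
    have b2 : |(v - ln c x - a6).im| < Real.pi := by
      rw [i2]
      exact abs_lt.2 ⟨by linarith [h1.1], by linarith [h1.2]⟩
    refine mul_ne_zero (t_ne b1 ?_) (t_ne b2 ?_)
    · intro h
      have h2 := congrArg Complex.im h
      rw [i1, zero_im] at h2
      linarith [h1.2]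
    · intro h
      have h2 := congrArg Complex.im h
      rw [i2, zero_im] at h2
      linarith [h1.2]
  have hL0 : L 0 = fam c w I τ := by
    funext x
    rw [Lx]
    show _ = Lam I (ln c x) * (1 + τ * w (ln c x))
    have h1 : tau (v + ip + 0 - ln c x) = (tau (v - ln c x))⁻¹ := by
      rw [← tau_ip]
      congr 1
      ring
    rw [h1, mul_inv_cancel_left₀ (hne x)]
  have hdL : ∀ x, deriv (fun u => L u x) 0 = fam c w I τ x * phi (ln c x - v) := by
    intro x
    have e : (fun ζ => L ζ x) = fun ζ => tau (v - ln c x) * tau (v - ln c x + ip + ζ) * fam c w I τ x := by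
      funext ζ
      rw [Lx]
      show _ = _ * (Lam I (ln c x) * (1 + τ * w (ln c x)))
      rw [show v - ln c x + ip + ζ = v + ip + ζ - ln c x by ring]
      ring
    rw [e, ((hstr x).mul_const _).deriv, neg_sub]
    ring
  refine integral_congr_ae (Eventually.of_forall fun x => ?_)
  show deriv (fun u => L u x) 0 * D (L 0) x = _
  rw [hdL x, hL0]

/-- **STAR, part A** -/
theorem star_grad {f : List ℂ → ℂ} {c : ℝ} {Ψ : (ℝ → ℂ) → ℂ} (h : Fun f c Ψ) {r : Fin 3 → ℝ} {e0 : ℝ} (hL : LS r c e0)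
    {w : ℂ → ℂ} {W : ℝ} (hw : Hol w (r 0) (r 2) W) {I : List ℂ} (hI : Wn c I) {R : ℝ}
    (hR : 0 < R) (hRW : R * W < 1) :
    (∀ τ : ℂ, ‖τ‖ < R → HasDerivAt (hh Ψ c w I)
      (∑ i, kc i * ∫ t, w (sp r i t) / (1 + τ * w (sp r i t)) * HH Ψ c w r e0 I i t τ) τ) ∧
    ∃ C : ℝ, ∀ (i : Fin 3) (t : ℝ) (τ : ℂ), ‖τ‖ < R → ‖HH Ψ c w r e0 I i t τ‖ ≤ C := by
  have hpi := Real.pi_pos
  have hm := lm hL
  obtain ⟨D, hD1, hD2⟩ := h.grad
  obtain ⟨A0, hA00, hA0⟩ := Lam_Kc hI
  have ha : r 0 ≤ c := by linarith [hL.a, hL.e]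
  have hb : c ≤ r 2 := hL.b.le
  have hr02 : r 0 ≤ r 2 := ha.trans hb
  have hW := hw.W0 hr02
  have hRW0 : 0 ≤ R * W := by positivity
  set A1 : ℝ := A0 + R * W + A0 * (R * W) with hA1def
  have hA10 : 0 ≤ A1 := by positivity
  have hfK : ∀ τ : ℂ, ‖τ‖ < R → fam c w I τ ∈ Kc A1 := fun τ hτ => fam_Kc hw ha hb hA00 hA0 hτ.le
  obtain ⟨M, hM⟩ := hD1 A1
  have hM0 : 0 ≤ M := (norm_nonneg _).trans ((hM _ (hfK 0 (by rw [norm_zero]; exact hR))).2 0)
  choose Cp hCp0 hCp using fun i => phi_dec hL hm i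
  have key : ∀ (i : Fin 3) (t : ℝ) (τ : ℂ), HH Ψ c w r e0 I i t τ =
      ∫ x, fam c w I τ x * phi (ln c x - vp r i t) * D (fam c w I τ) x :=
    fun i t τ => HH_eq hD2 hL hw hI τ i t
  have hbd : ∀ (i : Fin 3) (t : ℝ) (τ : ℂ) (x : ℝ), ‖τ‖ < R →
      ‖fam c w I τ x * phi (ln c x - vp r i t) * D (fam c w I τ) x‖ ≤ (1 + A1) * Cp i * M * Real.exp (-|x - t|) := by
    intro i t τ x hτ
    have h1 := Kc_bound hA10 (hfK τ hτ) x
    have h2 := hCp i x t
    have h3 := (hM _ (hfK τ hτ)).2 x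
    rw [norm_mul, norm_mul]
    calc ‖fam c w I τ x‖ * ‖phi (ln c x - vp r i t)‖ * ‖D (fam c w I τ) x‖
        ≤ (1 + A1) * (Cp i * Real.exp (-|x - t|)) * M :=
          mul_le_mul (mul_le_mul h1 h2 (norm_nonneg _) (by positivity)) h3 (norm_nonneg _)
            (mul_nonneg (by positivity) (mul_nonneg (hCp0 i) (Real.exp_pos _).le))
      _ = _ := by ring
  have hint1 : Integrable fun x : ℝ => Real.exp (-|x|) := by
    have h1 := int_exp_abs (b := 1) one_pos
    refine h1.congr (Eventually.of_forall fun x => ?_)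
    show Real.exp (-1 * |x|) = Real.exp (-|x|)
    rw [neg_one_mul]
  refine ⟨?_, ?_⟩
  · intro τ hτ
    set E := fam c w I τ with hE
    have hEK : E ∈ Kc A1 := hfK τ hτ
    -- the derivative by A4
    have d1 := hD2 A1 (Metric.ball 0 R) (fun u => fam c w I u) Metric.isOpen_ball
      (fun u hu => hfK u (by rwa [mem_ball_zero_iff] at hu)) (by
        intro x
        have e : (fun u => fam c w I u x) = fun u => Lam I (ln c x) * (1 + u * w (ln c x)) := rfl
        rw [e]
        fun_prop) τ (by rw [mem_ball_zero_iff]; exact hτ)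
    refine d1.congr_deriv ?_
    have hdv : ∀ x, deriv (fun u => fam c w I u x) τ = Lam I (ln c x) * w (ln c x) := by
      intro x
      have h1 : HasDerivAt (fun u : ℂ => Lam I (ln c x) * (1 + u * w (ln c x))) (Lam I (ln c x) * w (ln c x)) τ := by
        have h2 := (((hasDerivAt_id τ).mul_const (w (ln c x))).const_add 1).const_mul (Lam I (ln c x))
        simpa using h2
      exact h1.deriv
    -- the function u
    set u : ℂ → ℂ := fun z => w z / (1 + τ * w z) with hu
    have hden : ∀ z : ℂ, r 0 ≤ z.im → z.im ≤ r 2 → 1 - R * W ≤ ‖1 + τ * w z‖ := by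
      intro z h1 h2
      have h3 := hw.bd z h1 h2
      have h4 : Real.exp (-|z.re|) ≤ 1 := Real.exp_le_one_iff.2 (neg_nonpos.2 (abs_nonneg _))
      have h5 : ‖τ * w z‖ ≤ R * W := by
        rw [norm_mul]
        refine mul_le_mul hτ.le (h3.trans ?_) (norm_nonneg _) hR.le
        calc W * Real.exp (-|z.re|) ≤ W * 1 := mul_le_mul_of_nonneg_left h4 hW
          _ = W := mul_one W
      have h6 : (1:ℝ) ≤ ‖1 + τ * w z‖ + ‖τ * w z‖ := by
        have := norm_sub_le (1 + τ * w z) (τ * w z)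
        rwa [add_sub_cancel_right, norm_one] at this
      linarith
    have hq : 0 < 1 - R * W := by linarith
    have hne : ∀ z : ℂ, r 0 ≤ z.im → z.im ≤ r 2 → 1 + τ * w z ≠ 0 := fun z h1 h2 =>
      norm_pos_iff.1 (lt_of_lt_of_le hq (hden z h1 h2))
    have hub : ∀ z : ℂ, r 0 ≤ z.im → z.im ≤ r 2 → ‖u z‖ ≤ W / (1 - R * W) * Real.exp (-|z.re|) := by
      intro z h1 h2
      have h3 := hw.bd z h1 h2
      have h4 := hden z h1 h2
      show ‖w z / (1 + τ * w z)‖ ≤ _
      rw [norm_div]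
      calc ‖w z‖ / ‖1 + τ * w z‖ ≤ W * Real.exp (-|z.re|) / (1 - R * W) :=
            div_le_div₀ (by positivity) h3 hq h4
        _ = _ := by ring
    have huc : ContinuousOn u {z : ℂ | r 0 ≤ z.im ∧ z.im ≤ r 2} :=
      hw.cont.div (continuousOn_const.add (continuousOn_const.mul hw.cont)) fun z hz => hne z hz.1 hz.2
    have hud : ∀ z : ℂ, r 0 < z.im → z.im < r 2 → DifferentiableAt ℂ u z := by
      intro z h1 h2
      have h3 := hw.diff z h1 h2
      exact h3.div ((differentiableAt_const _).add ((differentiableAt_const _).mul h3)) (hne z h1.le h2.le)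
    have hr : ∀ i : Fin 3, r 0 ≤ r i ∧ r i ≤ r 2 := by
      intro i
      fin_cases i
      · exact ⟨le_rfl, hr02⟩
      · exact ⟨hL.m01, hL.m12⟩
      · exact ⟨hr02, le_rfl⟩
    have hcau : ∀ x : ℝ, (∀ i, Integrable fun s : ℝ => u (sp r i s) * phi (ln c x - vp r i s)) ∧
        ∑ i, kc i * ∫ s : ℝ, u (sp r i s) * phi (ln c x - vp r i s) = u (ln c x) := by
      intro x
      refine cau1_st (C := W / (1 - R * W)) hL.m01 hL.m12 ?_ ?_ ?_ ?_ ?_ huc hud ?_
      · rw [ln_im]
        linarith [hL.a, hL.e]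
      · rw [ln_im]
        exact hL.b
      · rw [ln_im]
        linarith [hL.b, hL.wd]
      · rw [ln_im]
        linarith [hL.a, hL.e, hL.wd]
      · rw [ln_im]
        have h1 := hL.mid
        have h2 := hL.e
        linarith
      · intro z h1 h2
        refine (hub z h1 h2).trans ?_
        have h4 : Real.exp (-|z.re|) ≤ 1 := Real.exp_le_one_iff.2 (neg_nonpos.2 (abs_nonneg _))
        calc W / (1 - R * W) * Real.exp (-|z.re|) ≤ W / (1 - R * W) * 1 :=
              mul_le_mul_of_nonneg_left h4 (by positivity)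
          _ = _ := mul_one _
    -- Fubini
    have hDm : Measurable (D E) := (hM _ hEK).1
    have hDb : ∀ x, ‖D E x‖ ≤ M := (hM _ hEK).2
    have husp : ∀ i, Continuous fun t => u (sp r i t) := by
      intro i
      refine huc.comp_continuous (cont_ln (r i)) fun t => ?_
      show r 0 ≤ (ln (r i) t).im ∧ (ln (r i) t).im ≤ r 2
      rw [ln_im]
      exact hr i
    have hub' : ∀ i t, ‖u (sp r i t)‖ ≤ W / (1 - R * W) * Real.exp (-|t|) := by
      intro i t
      have h1 := hub (sp r i t) (by unfold sp; rw [ln_im]; exact (hr i).1) (by unfold sp; rw [ln_im]; exact (hr i).2)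
      unfold sp at h1 ⊢
      rwa [ln_re] at h1
    have hFub : ∀ i, Integrable (Function.uncurry fun (t x : ℝ) =>
        u (sp r i t) * (E x * phi (ln c x - vp r i t) * D E x)) ((volume : Measure ℝ).prod volume) := by
      intro i
      have hmeas : AEStronglyMeasurable (Function.uncurry fun (t x : ℝ) =>
          u (sp r i t) * (E x * phi (ln c x - vp r i t) * D E x)) ((volume : Measure ℝ).prod volume) := by
        have m1 : Measurable fun p : ℝ × ℝ => u (sp r i p.1) := ((husp i).comp continuous_fst).measurable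
        have m2 : Measurable fun p : ℝ × ℝ => E p.2 := (hEK.1.comp continuous_snd).measurable
        have m3 : Measurable fun p : ℝ × ℝ => phi (ln c p.2 - vp r i p.1) := (cont_phi hL hm i).measurable
        have m4 : Measurable fun p : ℝ × ℝ => D E p.2 := hDm.comp measurable_snd
        exact (m1.mul ((m2.mul m3).mul m4)).aestronglyMeasurable
      have hg : Integrable (fun p : ℝ × ℝ => W / (1 - R * W) * ((1 + A1) * Cp i * M) *
          (Real.exp (-(|p.1| / 2)) * Real.exp (-(|p.2| / 2)))) ((volume : Measure ℝ).prod volume) :=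
        (int_half.mul_prod int_half).const_mul _
      refine hg.mono' hmeas (Eventually.of_forall fun p => ?_)
      show ‖u (sp r i p.1) * (E p.2 * phi (ln c p.2 - vp r i p.1) * D E p.2)‖ ≤ _
      have h1 := hub' i p.1
      have h2 := hbd i p.1 τ p.2 hτ
      rw [norm_mul]
      calc ‖u (sp r i p.1)‖ * ‖E p.2 * phi (ln c p.2 - vp r i p.1) * D E p.2‖
          ≤ (W / (1 - R * W) * Real.exp (-|p.1|)) * ((1 + A1) * Cp i * M * Real.exp (-|p.2 - p.1|)) :=
            mul_le_mul h1 h2 (norm_nonneg _) (by positivity)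
        _ = W / (1 - R * W) * ((1 + A1) * Cp i * M) * (Real.exp (-|p.1|) * Real.exp (-|p.2 - p.1|)) := by ring
        _ ≤ _ := by
            refine mul_le_mul_of_nonneg_left (exp_split _ _) ?_
            have := hCp0 i
            positivity
    have s1 : ∀ i, ∫ t, u (sp r i t) * HH Ψ c w r e0 I i t τ =
        ∫ x, E x * D E x * ∫ t, u (sp r i t) * phi (ln c x - vp r i t) := by
      intro i
      have e1 : ∀ t, u (sp r i t) * HH Ψ c w r e0 I i t τ =
          ∫ x, u (sp r i t) * (E x * phi (ln c x - vp r i t) * D E x) := by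
        intro t
        rw [key, ← integral_const_mul]
      rw [integral_congr_ae (Eventually.of_forall e1), integral_integral_swap (hFub i)]
      refine integral_congr_ae (Eventually.of_forall fun x => ?_)
      show ∫ t, u (sp r i t) * (E x * phi (ln c x - vp r i t) * D E x) =
        E x * D E x * ∫ t, u (sp r i t) * phi (ln c x - vp r i t)
      rw [← integral_const_mul]
      refine integral_congr_ae (Eventually.of_forall fun t => ?_)
      show u (sp r i t) * (E x * phi (ln c x - vp r i t) * D E x) = E x * D E x * (u (sp r i t) * phi (ln c x - vp r i t))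
      ring
    have hI2 : ∀ i, Integrable fun x => kc i * (E x * D E x * ∫ t, u (sp r i t) * phi (ln c x - vp r i t)) := by
      intro i
      have h1 := (hFub i).integral_prod_right
      refine (h1.congr (Eventually.of_forall fun x => ?_)).const_mul (kc i)
      show ∫ t, u (sp r i t) * (E x * phi (ln c x - vp r i t) * D E x) =
        E x * D E x * ∫ t, u (sp r i t) * phi (ln c x - vp r i t)
      rw [← integral_const_mul]
      refine integral_congr_ae (Eventually.of_forall fun t => ?_)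
      show u (sp r i t) * (E x * phi (ln c x - vp r i t) * D E x) = E x * D E x * (u (sp r i t) * phi (ln c x - vp r i t))
      ring
    show ∫ x, deriv (fun u => fam c w I u x) τ * D (fam c w I τ) x =
      ∑ i, kc i * ∫ t, u (sp r i t) * HH Ψ c w r e0 I i t τ
    have s2 : ∑ i, kc i * ∫ t, u (sp r i t) * HH Ψ c w r e0 I i t τ =
        ∫ x, ∑ i, kc i * (E x * D E x * ∫ t, u (sp r i t) * phi (ln c x - vp r i t)) := by
      rw [integral_finsetSum _ fun i _ => hI2 i]
      refine Finset.sum_congr rfl fun i _ => ?_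
      rw [s1 i, ← integral_const_mul]
    rw [s2]
    refine integral_congr_ae (Eventually.of_forall fun x => ?_)
    show deriv (fun u => fam c w I u x) τ * D E x = ∑ i, kc i * (E x * D E x * ∫ t, u (sp r i t) * phi (ln c x - vp r i t))
    have s3 : ∑ i, kc i * (E x * D E x * ∫ t, u (sp r i t) * phi (ln c x - vp r i t)) =
        E x * D E x * ∑ i, kc i * ∫ t, u (sp r i t) * phi (ln c x - vp r i t) := by
      rw [Finset.mul_sum]
      exact Finset.sum_congr rfl fun i _ => by ring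
    have hx : 1 + τ * w (ln c x) ≠ 0 := hne _ (by rw [ln_im]; exact ha) (by rw [ln_im]; exact hb)
    rw [s3, (hcau x).2, hdv x]
    show Lam I (ln c x) * w (ln c x) * D E x =
      Lam I (ln c x) * (1 + τ * w (ln c x)) * D E x * (w (ln c x) / (1 + τ * w (ln c x)))
    rw [mul_div_assoc', eq_div_iff hx]
    ring
  · refine ⟨∑ i, (1 + A1) * Cp i * M * 2, fun i t τ hτ => ?_⟩
    rw [key]
    have h2 : ∫ x : ℝ, Real.exp (-|x - t|) = ∫ x : ℝ, Real.exp (-|x|) :=
      integral_sub_right_eq_self (fun x : ℝ => Real.exp (-|x|)) t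
    have h3 : ∫ x : ℝ, Real.exp (-|x|) = 2 := by
      have h4 := ker_int_exp_val (δ := 1) one_pos
      have h5 : (fun x : ℝ => Real.exp (-|x|)) = fun x : ℝ => Real.exp (-(1 * |x|)) := by
        funext x
        rw [one_mul]
      rw [h5, h4]
      norm_num
    have h1 : ‖∫ x, fam c w I τ x * phi (ln c x - vp r i t) * D (fam c w I τ) x‖ ≤
        ∫ x, (1 + A1) * Cp i * M * Real.exp (-|x - t|) :=
      norm_integral_le_of_norm_le ((hint1.comp_sub_right t).const_mul _)
        (Eventually.of_forall fun x => hbd i t τ x hτ)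
    rw [integral_const_mul, h2, h3] at h1
    refine h1.trans ?_
    refine Finset.single_le_sum (f := fun i => (1 + A1) * Cp i * M * 2) (fun j _ => ?_) (Finset.mem_univ i)
    have := hCp0 j
    positivity

end DRX

end
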