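import Pool.Agent.DRX.StarA
import Pool.Agent.DRX.Comm
import Pool.Agent.NURow.Holo

/-!
# STAR: the coefficients of `τ ↦ Ψ (Lam_I (1 + τ w))` are `W_k`

`StarG` is the gradient identity (DRX/StarA); `star_of`: **STAR** from it.
-/

set_option autoImplicit false

noncomputable section

open Complex MeasureTheory Filter Topology

namespace DRX

open DUA DUA.Pf

/-- the gradient identity -/
def StarG (Ψ : (ℝ → ℂ) → ℂ) (c : ℝ) (w : ℂ → ℂ) (r : Fin 3 → ℝ) (e0 : ℝ) (I : List ℂ) (R : ℝ) : Prop :=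
  (∀ τ : ℂ, ‖τ‖ < R → HasDerivAt (hh Ψ c w I)
    (∑ i, kc i * ∫ t, w (sp r i t) / (1 + τ * w (sp r i t)) * HH Ψ c w r e0 I i t τ) τ) ∧
  ∃ C : ℝ, ∀ (i : Fin 3) (t : ℝ) (τ : ℂ), ‖τ‖ < R → ‖HH Ψ c w r e0 I i t τ‖ ≤ C

/-! ### windows -/

theorem vp_im (r : Fin 3 → ℝ) (i : Fin 3) (t : ℝ) : (vp r i t).im = r i - off i := by unfold vp; simp

theorem vp_re (r : Fin 3 → ℝ) (i : Fin 3) (t : ℝ) : (vp r i t).re = t := by unfold vp; simp

/-- the rows of a strand are in a closed strip inside the window -/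
theorem LS.strip {r : Fin 3 → ℝ} {c e0 : ℝ} (hL : LS r c e0) : ∃ d : ℝ, d < 5 * Real.pi / 6 ∧
    ∀ (i : Fin 3) (t : ℝ) (z : ℂ), ‖z‖ ≤ e0 → |(vp r i t).im - c| ≤ d ∧ |(vp r i t + ip + z).im - c| ≤ d := by
  obtain ⟨h0, h1, h2, h3, h4, h5, h6⟩ := hL
  have hpi := Real.pi_pos
  obtain ⟨a1, a2⟩ := abs_lt.1 (show |r 1 - c| < Real.pi / 3 - e0 by linarith)
  set m : ℝ := min (min (c - r 0 - e0) (r 2 - c)) (min (Real.pi / 3 - e0 - |r 1 - c|) (Real.pi / 6)) with hm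
  have hm0 : 0 < m := by
    rw [hm]
    refine lt_min (lt_min (by linarith) (by linarith)) (lt_min (by linarith) (by positivity))
  have m1 : m ≤ c - r 0 - e0 := (min_le_left _ _).trans (min_le_left _ _)
  have m2 : m ≤ r 2 - c := (min_le_left _ _).trans (min_le_right _ _)
  have m3 : m ≤ Real.pi / 3 - e0 - |r 1 - c| := (min_le_right _ _).trans (min_le_left _ _)
  have m4 : m ≤ Real.pi / 6 := (min_le_right _ _).trans (min_le_right _ _)
  have b1 := le_abs_self (r 1 - c)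
  have b2 := neg_abs_le (r 1 - c)
  -- distance of the outer lines
  set d : ℝ := max (5 * Real.pi / 6 - m) (max (c - r 0 + Real.pi / 6) (r 2 - c + Real.pi / 6 + e0)) with hd
  have d1 : 5 * Real.pi / 6 - m ≤ d := le_max_left _ _
  have d2 : c - r 0 + Real.pi / 6 ≤ d := (le_max_left _ _).trans (le_max_right _ _)
  have d3 : r 2 - c + Real.pi / 6 + e0 ≤ d := (le_max_right _ _).trans (le_max_right _ _)
  refine ⟨d, max_lt (by linarith) (max_lt (by linarith) (by linarith)), fun i t z hz => ?_⟩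
  have hz' : |z.im| ≤ e0 := (Complex.abs_im_le_norm z).trans hz
  obtain ⟨z1, z2⟩ := abs_le.1 hz'
  rw [Complex.add_im, Complex.add_im, ip_im, vp_im]
  fin_cases i
  · change |r 0 - Real.pi / 6 - c| ≤ d ∧ |r 0 - Real.pi / 6 + Real.pi + z.im - c| ≤ d
    rw [abs_le, abs_le]
    refine ⟨⟨?_, ?_⟩, ?_, ?_⟩ <;> linarith
  · change |r 1 - Real.pi / 2 - c| ≤ d ∧ |r 1 - Real.pi / 2 + Real.pi + z.im - c| ≤ d
    rw [abs_le, abs_le]
    refine ⟨⟨?_, ?_⟩, ?_, ?_⟩ <;> linarith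
  · change |r 2 - 5 * Real.pi / 6 - c| ≤ d ∧ |r 2 - 5 * Real.pi / 6 + Real.pi + z.im - c| ≤ d
    rw [abs_le, abs_le]
    refine ⟨⟨?_, ?_⟩, ?_, ?_⟩ <;> linarith

theorem norm_circ {e0 : ℝ} (he : 0 < e0) (φ : ℝ) : ‖circleMap 0 e0 φ‖ = e0 := by
  rw [norm_circleMap_zero, abs_of_pos he]

/-- a strand more keeps the window -/
theorem Wn_st {r : Fin 3 → ℝ} {c e0 : ℝ} (hL : LS r c e0) {I : List ℂ} (hI : Wn c I) (i : Fin 3) (p : ℝ × ℝ) :
    Wn c (st r e0 i p I) := by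
  obtain ⟨d, hd, h⟩ := hL.strip
  have h1 := h i p.1 (circleMap 0 e0 p.2) (norm_circ hL.e _).le
  intro v hv
  unfold st at hv
  rcases List.mem_cons.1 hv with rfl | hv
  · exact lt_of_le_of_lt h1.1 hd
  rcases List.mem_cons.1 hv with rfl | hv
  · exact lt_of_le_of_lt h1.2 hd
  · exact hI v hv

/-! ### classes of the families -/

theorem one_add_Kc {c : ℝ} {w : ℂ → ℂ} {r : Fin 3 → ℝ} {e0 W : ℝ} (hL : LS r c e0) (hw : Hol w (r 0) (r 2) W)
    (τ : ℂ) {B : ℝ} (hB : ‖τ‖ * W ≤ B) : (fun x => 1 + τ * w (ln c x)) ∈ Kc B := by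
  have hc1 : r 0 ≤ c := by have := hL.a; have := hL.e; linarith
  have hc2 : c ≤ r 2 := hL.b.le
  refine ⟨continuous_const.add (continuous_const.mul ?_), fun x => ?_⟩
  · refine hw.cont.comp_continuous (cont_ln c) fun x => ?_
    simp [hc1, hc2]
  · have h1 := hw.bd (ln c x) (by simpa using hc1) (by simpa using hc2)
    rw [ln_re] at h1
    rw [add_sub_cancel_left, norm_mul]
    calc ‖τ‖ * ‖w (ln c x)‖ ≤ ‖τ‖ * (W * Real.exp (-|x|)) := mul_le_mul_of_nonneg_left h1 (norm_nonneg _)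
      _ = ‖τ‖ * W * Real.exp (-|x|) := by ring
      _ ≤ _ := mul_le_mul_of_nonneg_right hB (Real.exp_pos _).le

/-- a uniform class for the strands at bounded heights -/
theorem fam_st_Kc {c : ℝ} {w : ℂ → ℂ} {r : Fin 3 → ℝ} {e0 W : ℝ} (hL : LS r c e0) (hw : Hol w (r 0) (r 2) W)
    {I : List ℂ} (hI : Wn c I) (T B : ℝ) (hW : 0 ≤ W) :
    ∃ A : ℝ, ∀ (i : Fin 3) (p : ℝ × ℝ) (τ : ℂ), |p.1| ≤ T → ‖τ‖ ≤ B → fam c w (st r e0 i p I) τ ∈ Kc A := by
  obtain ⟨d, hd, h⟩ := hL.strip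
  obtain ⟨C, hC0, hC⟩ := tau_Kc (c := c) hd
  obtain ⟨A, hA0, hA⟩ := Lam_Kc hI
  set E : ℝ := C * Real.exp (T + e0) with hE
  have hE0 : 0 ≤ E := by positivity
  set A2 : ℝ := E + A + E * A with hA2
  set A3 : ℝ := E + A2 + E * A2 with hA3
  refine ⟨A3 + B * W + A3 * (B * W), fun i p τ hp hτ => ?_⟩
  have hz := (norm_circ hL.e p.2).le
  have h1 := h i p.1 (circleMap 0 e0 p.2) hz
  have hv : (fun x => tau (vp r i p.1 - ln c x)) ∈ Kc E := by
    refine Kc_mono ?_ (hC _ h1.1)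
    rw [hE, vp_re]
    refine mul_le_mul_of_nonneg_left (Real.exp_le_exp.2 ?_) hC0
    have := hL.e
    linarith
  have hv' : (fun x => tau (vp r i p.1 + ip + circleMap 0 e0 p.2 - ln c x)) ∈ Kc E := by
    refine Kc_mono ?_ (hC _ h1.2)
    rw [hE]
    refine mul_le_mul_of_nonneg_left (Real.exp_le_exp.2 ?_) hC0
    rw [Complex.add_re, Complex.add_re, vp_re, ip_re, add_zero]
    refine (abs_add_le _ _).trans (add_le_add hp ((Complex.abs_re_le_norm _).trans hz))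
  have e : fam c w (st r e0 i p I) τ = fun x => (tau (vp r i p.1 - ln c x) *
      (tau (vp r i p.1 + ip + circleMap 0 e0 p.2 - ln c x) * Lam I (ln c x))) * (1 + τ * w (ln c x)) := by
    funext x
    unfold fam st
    rw [Lam_cons, Lam_cons]
  rw [e]
  have k1 := Kc_mul hE0 hv' hA
  have k2 := Kc_mul hE0 hv k1
  have k3 := Kc_mul (by positivity) k2 (one_add_Kc hL hw τ (B := B * W) (mul_le_mul_of_nonneg_right hτ hW))
  exact k3

/-! ### continuity -/

/-- joint continuity in the strand and `τ` -/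
theorem hh_st_cont {f : List ℂ → ℂ} {c : ℝ} {Ψ : (ℝ → ℂ) → ℂ} (h : Fun f c Ψ) {w : ℂ → ℂ} {r : Fin 3 → ℝ} {e0 W : ℝ}
    (hL : LS r c e0) (hw : Hol w (r 0) (r 2) W) {I : List ℂ} (hI : Wn c I) (i : Fin 3) :
    Continuous fun q : (ℝ × ℝ) × ℂ => hh Ψ c w (st r e0 i q.1 I) q.2 := by
  rw [continuous_iff_seqContinuous]
  intro q q0 hq
  have hr02 : r 0 ≤ r 2 := hL.m01.trans hL.m12
  -- bounded
  obtain ⟨T, hT⟩ : ∃ T : ℝ, ∀ n, ‖q n‖ ≤ T := by
    obtain ⟨T, hT⟩ := (Metric.isBounded_range_of_tendsto q hq).exists_norm_le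
    exact ⟨T, fun n => hT _ ⟨n, rfl⟩⟩
  set T' : ℝ := max T ‖q0‖ with hT'
  have hn : ∀ n, ‖q n‖ ≤ T' := fun n => (hT n).trans (le_max_left _ _)
  have hT0 : 0 ≤ T' := (norm_nonneg _).trans (hn 0)
  obtain ⟨A, hA⟩ := fam_st_Kc hL hw hI T' T' (hw.W0 hr02)
  have b : ∀ z : (ℝ × ℝ) × ℂ, ‖z‖ ≤ T' → |z.1.1| ≤ T' ∧ ‖z.2‖ ≤ T' := fun z hz =>
    ⟨((norm_fst_le z.1).trans (norm_fst_le z)).trans hz, (norm_snd_le z).trans hz⟩
  refine h.seq A (fun n => fam c w (st r e0 i (q n).1 I) (q n).2) (fam c w (st r e0 i q0.1 I) q0.2)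
    (fun n => hA i _ _ (b _ (hn n)).1 (b _ (hn n)).2) (hA i _ _ (b _ (le_max_right _ _)).1 (b _ (le_max_right _ _)).2)
    fun x => ?_
  -- pointwise
  obtain ⟨d, hd, hs⟩ := hL.strip
  have hcont : Continuous fun z : (ℝ × ℝ) × ℂ => fam c w (st r e0 i z.1 I) z.2 x := by
    unfold fam st
    simp only [Lam_cons]
    have k1 : Continuous fun z : (ℝ × ℝ) × ℂ => tau (vp r i z.1.1 - ln c x) := by
      refine continuous_iff_continuousAt.2 fun z => ?_
      have h1 : |(vp r i z.1.1 - ln c x).im| < 5 * Real.pi / 6 := by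
        rw [Complex.sub_im, ln_im]
        exact lt_of_le_of_lt (hs i z.1.1 0 (by rw [norm_zero]; exact hL.e.le)).1 hd
      exact ContinuousAt.comp (f := fun z : (ℝ × ℝ) × ℂ => vp r i z.1.1 - ln c x) (g := tau)
        (tau_diffAt h1).continuousAt (((cont_vp r i).comp (continuous_fst.comp continuous_fst)).sub
          continuous_const).continuousAt
    have k2 : Continuous fun z : (ℝ × ℝ) × ℂ => tau (vp r i z.1.1 + ip + circleMap 0 e0 z.1.2 - ln c x) := by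
      refine continuous_iff_continuousAt.2 fun z => ?_
      have h1 : |(vp r i z.1.1 + ip + circleMap 0 e0 z.1.2 - ln c x).im| < 5 * Real.pi / 6 := by
        rw [Complex.sub_im, ln_im]
        exact lt_of_le_of_lt (hs i z.1.1 _ (norm_circ hL.e _).le).2 hd
      exact ContinuousAt.comp (f := fun z : (ℝ × ℝ) × ℂ => vp r i z.1.1 + ip + circleMap 0 e0 z.1.2 - ln c x)
        (g := tau) (tau_diffAt h1).continuousAt (((((cont_vp r i).comp (continuous_fst.comp continuous_fst)).add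
          continuous_const).add ((continuous_circleMap 0 e0).comp (continuous_snd.comp continuous_fst))).sub
          continuous_const).continuousAt
    exact (k1.mul (k2.mul continuous_const)).mul (continuous_const.add (continuous_snd.mul continuous_const))
  exact (hcont.tendsto q0).comp hq

/-- `τ ↦ hh` is entire -/
theorem hh_diff {f : List ℂ → ℂ} {c : ℝ} {Ψ : (ℝ → ℂ) → ℂ} (h : Fun f c Ψ) {w : ℂ → ℂ} {r : Fin 3 → ℝ} {e0 W : ℝ}
    (hL : LS r c e0) (hw : Hol w (r 0) (r 2) W) {I : List ℂ} (hI : Wn c I) : Differentiable ℂ (hh Ψ c w I) := by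
  intro τ
  obtain ⟨D, _, hD⟩ := h.grad
  obtain ⟨A, hA0, hA⟩ := Lam_Kc hI
  have hr02 : r 0 ≤ r 2 := hL.m01.trans hL.m12
  have hW := hw.W0 hr02
  set B : ℝ := (‖τ‖ + 1) * W with hB
  have hB0 : 0 ≤ B := by positivity
  refine (hD (A + B + A * B) (Metric.ball 0 (‖τ‖ + 1)) (fun v => fam c w I v) Metric.isOpen_ball ?_ ?_ τ ?_).differentiableAt
  · intro v hv
    rw [mem_ball_zero_iff] at hv
    exact Kc_mul hA0 hA (one_add_Kc hL hw v (mul_le_mul_of_nonneg_right hv.le hW))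
  · intro x
    unfold fam
    fun_prop
  · rw [mem_ball_zero_iff]; linarith

/-! ### averages over the circle of the strand (abstract) -/

theorem kφ_cont {e0 : ℝ} (he : 0 < e0) : Continuous fun φ : ℝ => (2 * (Real.pi : ℂ) * circleMap 0 e0 φ)⁻¹ := by
  refine Continuous.inv₀ (continuous_const.mul (continuous_circleMap 0 e0)) fun φ => ?_
  have h1 : circleMap 0 e0 φ ≠ 0 := circleMap_ne_center he.ne'
  have h2 : (Real.pi : ℂ) ≠ 0 := Complex.ofReal_ne_zero.2 Real.pi_pos.ne'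
  exact mul_ne_zero (mul_ne_zero two_ne_zero h2) h1

theorem kψ_cont {ρ : ℝ} (hρ : 0 < ρ) (m : ℕ) :
    Continuous fun ψ : ℝ => (2 * (Real.pi : ℂ) * circleMap 0 ρ ψ ^ m)⁻¹ := by
  refine Continuous.inv₀ (continuous_const.mul ((continuous_circleMap 0 ρ).pow m)) fun ψ => ?_
  have h3 : circleMap 0 ρ ψ ≠ 0 := circleMap_ne_center hρ.ne'
  have h2 : (Real.pi : ℂ) ≠ 0 := Complex.ofReal_ne_zero.2 Real.pi_pos.ne'
  exact mul_ne_zero (mul_ne_zero two_ne_zero h2) (pow_ne_zero _ h3)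

theorem int_m1 {g : ℝ → ℂ} : ∫ φ, g φ ∂m1 = ∫ φ in (0 : ℝ)..(2 * Real.pi), g φ := by
  unfold m1
  rw [intervalIntegral.integral_of_le (by have := Real.pi_pos; positivity)]

theorem int_m1_le {g : ℝ → ℂ} (hg : Continuous g) : Integrable g m1 :=
  (hg.integrableOn_Icc (a := 0) (b := 2 * Real.pi)).mono_set Set.Ioc_subset_Icc_self

section Abs

variable {g : (ℝ × ℝ) × ℂ → ℂ} (hg : Continuous g) {k : ℝ → ℂ} (hk : Continuous k)

include hg hk

theorem abs_cont : Continuous fun q : ℝ × ℂ => ∫ φ, k φ * g ((q.1, φ), q.2) ∂m1 := by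
  have h2 : Continuous fun z : (ℝ × ℂ) × ℝ => g ((z.1.1, z.2), z.1.2) := by fun_prop
  have h3 : Continuous fun z : (ℝ × ℂ) × ℝ => k z.2 * g ((z.1.1, z.2), z.1.2) := by fun_prop
  simp only [int_m1]
  exact intervalIntegral.continuous_parametric_intervalIntegral_of_continuous'
    (f := fun (q : ℝ × ℂ) (φ : ℝ) => k φ * g ((q.1, φ), q.2)) h3 _ _

theorem abs_diff (hd : ∀ p : ℝ × ℝ, Differentiable ℂ fun τ => g (p, τ)) (t : ℝ) :
    Differentiable ℂ fun τ : ℂ => ∫ φ, k φ * g ((t, φ), τ) ∂m1 := by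
  intro τ
  have hF : Continuous fun z : ℝ × ℂ => k z.1 * g ((t, z.1), z.2) := by fun_prop
  have hK : IsCompact (Set.Icc (0 : ℝ) (2 * Real.pi) ×ˢ Metric.closedBall τ 1) :=
    isCompact_Icc.prod (isCompact_closedBall τ 1)
  obtain ⟨M, hM⟩ := hK.exists_bound_of_continuousOn hF.continuousOn
  have hae : ∀ᵐ φ ∂m1, φ ∈ Set.Ioc (0 : ℝ) (2 * Real.pi) := by
    unfold m1
    exact ae_restrict_mem measurableSet_Ioc
  refine NURow.differentiableAt_integral (R := 1) one_pos (b := fun _ => M) ?_ ?_ ?_ ?_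
  · intro z _
    have : Continuous fun φ : ℝ => k φ * g ((t, φ), z) := by fun_prop
    exact this.aestronglyMeasurable
  · exact Eventually.of_forall fun φ => ((hd (t, φ)).const_mul (k φ)).differentiableOn
  · filter_upwards [hae] with φ hφ z hz
    exact hM (φ, z) ⟨Set.Ioc_subset_Icc_self hφ, Metric.ball_subset_closedBall hz⟩
  · exact integrable_const _

theorem abs_co {ρ : ℝ} (hρ : 0 < ρ) (m : ℕ) (t : ℝ) : co ρ m (fun τ => ∫ φ, k φ * g ((t, φ), τ) ∂m1) =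
    ∫ φ, k φ * co ρ m (fun τ => g ((t, φ), τ)) ∂m1 := by
  have hkρ := kψ_cont hρ m
  set kk : ℝ → ℂ := fun ψ : ℝ => (2 * (Real.pi : ℂ) * circleMap 0 ρ ψ ^ m)⁻¹ with hkk
  have hcm := continuous_circleMap 0 ρ
  have hc : Continuous fun z : ℝ × ℝ => kk z.1 * (k z.2 * g ((t, z.2), circleMap 0 ρ z.1)) := by fun_prop
  have e1 : co ρ m (fun τ => ∫ φ, k φ * g ((t, φ), τ) ∂m1) =
      ∫ ψ, ∫ φ, kk ψ * (k φ * g ((t, φ), circleMap 0 ρ ψ)) ∂m1 ∂m1 := by
    unfold co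
    refine integral_congr_ae (Eventually.of_forall fun ψ => ?_)
    exact (integral_const_mul _ _).symm
  have e2 : ∫ φ, k φ * co ρ m (fun τ => g ((t, φ), τ)) ∂m1 =
      ∫ φ, ∫ ψ, kk ψ * (k φ * g ((t, φ), circleMap 0 ρ ψ)) ∂m1 ∂m1 := by
    unfold co
    refine integral_congr_ae (Eventually.of_forall fun φ => ?_)
    simp only
    rw [← integral_const_mul]
    refine integral_congr_ae (Eventually.of_forall fun ψ => ?_)
    simp only [hkk]
    ring
  rw [e1, e2]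
  refine integral_integral_swap ?_
  unfold m1
  rw [Measure.prod_restrict]
  refine (hc.integrableOn_Icc (a := ((0 : ℝ), (0 : ℝ))) (b := (2 * Real.pi, 2 * Real.pi))).mono_set ?_
  rw [← Set.Icc_prod_Icc]
  exact Set.prod_mono Set.Ioc_subset_Icc_self Set.Ioc_subset_Icc_self

end Abs

/-! ### `HH` -/

section HH

variable {f : List ℂ → ℂ} {c : ℝ} {Ψ : (ℝ → ℂ) → ℂ} (h : Fun f c Ψ) {w : ℂ → ℂ} {r : Fin 3 → ℝ} {e0 W : ℝ}
  (hL : LS r c e0) (hw : Hol w (r 0) (r 2) W) {I : List ℂ} (hI : Wn c I) (i : Fin 3)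

include h hL hw hI

theorem HH_cont : Continuous fun q : ℝ × ℂ => HH Ψ c w r e0 I i q.1 q.2 :=
  abs_cont (hh_st_cont h hL hw hI i) (kφ_cont hL.e)

theorem HH_diff (t : ℝ) : Differentiable ℂ (HH Ψ c w r e0 I i t) :=
  abs_diff (hh_st_cont h hL hw hI i) (kφ_cont hL.e) (fun p => hh_diff h hL hw (Wn_st hL hI i p)) t

/-- the coefficients of `HH` -/
theorem co_HH {ρ : ℝ} (hρ : 0 < ρ) (m : ℕ) (t : ℝ) : co ρ m (HH Ψ c w r e0 I i t) =
    ∫ φ, (2 * Real.pi * circleMap 0 e0 φ)⁻¹ * co ρ m (hh Ψ c w (st r e0 i (t, φ) I)) ∂m1 :=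
  abs_co (hh_st_cont h hL hw hI i) (kφ_cont hL.e) hρ m t

end HH

/-! ### the algebra of the coefficients -/

theorem co_congr {ρ : ℝ} {m : ℕ} {h g : ℂ → ℂ} (hρ : 0 ≤ ρ) (hg : ∀ τ : ℂ, ‖τ‖ = ρ → h τ = g τ) :
    co ρ m h = co ρ m g := by
  unfold co
  refine integral_congr_ae (Eventually.of_forall fun ψ => ?_)
  simp only
  rw [hg _ (by rw [norm_circleMap_zero, abs_of_nonneg hρ])]

theorem geo (x y : ℂ) (hx : 1 + x * y ≠ 0) (n : ℕ) : y / (1 + x * y) =
    ∑ j : Fin n, (-1) ^ (j : ℕ) * x ^ (j : ℕ) * y ^ ((j : ℕ) + 1) + (-1) ^ n * x ^ n * (y ^ (n + 1) / (1 + x * y)) := by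
  induction n with
  | zero => simp
  | succ n ih =>
    rw [ih, Fin.sum_univ_castSucc]
    simp only [Fin.val_castSucc, Fin.val_last]
    rw [add_assoc]
    congr 1
    field_simp
    ring

/-- the coefficient of `w / (1 + τ w) H` -/
theorem co_geo {ρ R : ℝ} (hρ : 0 < ρ) (hR : ρ < R) {y : ℂ} (hy : R * ‖y‖ ≤ 1) {H : ℂ → ℂ}
    (hH : Differentiable ℂ H) (k : ℕ) :
    co ρ k (fun τ => y / (1 + τ * y) * H τ) = ∑ j : Fin (k + 1), (-1) ^ (j : ℕ) * y ^ ((j : ℕ) + 1) * co ρ (k - j) H := by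
  have hne : ∀ τ : ℂ, ‖τ‖ < R → 1 + τ * y ≠ 0 := by
    intro τ hτ h0
    have h1 : τ * y = -1 := by linear_combination h0
    have h2 : ‖τ‖ * ‖y‖ = 1 := by rw [← norm_mul, h1, norm_neg, norm_one]
    have h3 : 0 < ‖y‖ := by
      rcases (norm_nonneg y).eq_or_lt with h | h
      · rw [← h, mul_zero] at h2; norm_num at h2
      · exact h
    nlinarith
  -- the last term
  have hlast : co ρ 0 (fun τ => τ * (y ^ (k + 2) / (1 + τ * y) * H τ)) = 0 := by
    have hd : DifferentiableOn ℂ (fun τ => τ * (y ^ (k + 2) / (1 + τ * y) * H τ)) (Metric.ball 0 R) := by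
      intro τ hτ
      rw [mem_ball_zero_iff] at hτ
      have h1 : DifferentiableAt ℂ (fun τ : ℂ => y ^ (k + 2) / (1 + τ * y)) τ :=
        (differentiableAt_const _).div (by fun_prop) (hne τ hτ)
      exact (differentiableAt_id.mul (h1.mul (hH τ))).differentiableWithinAt
    rw [co_zero hρ hR hd]
    ring
  have hcirc : ∀ ψ : ℝ, ‖circleMap 0 ρ ψ‖ = ρ := fun ψ => by rw [norm_circleMap_zero, abs_of_pos hρ]
  have hne0 : ∀ ψ : ℝ, circleMap 0 ρ ψ ≠ 0 := fun ψ => circleMap_ne_center hρ.ne'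
  have hcm := continuous_circleMap 0 ρ
  have hHc := hH.continuous
  have e1 : ∀ ψ : ℝ, (2 * (Real.pi : ℂ) * circleMap 0 ρ ψ ^ k)⁻¹ *
      (y / (1 + circleMap 0 ρ ψ * y) * H (circleMap 0 ρ ψ)) =
      ∑ j : Fin (k + 1), (-1) ^ (j : ℕ) * y ^ ((j : ℕ) + 1) *
        ((2 * (Real.pi : ℂ) * circleMap 0 ρ ψ ^ (k - j : ℕ))⁻¹ * H (circleMap 0 ρ ψ)) +
      (-1) ^ (k + 1) * ((2 * (Real.pi : ℂ) * circleMap 0 ρ ψ ^ 0)⁻¹ *
        (circleMap 0 ρ ψ * (y ^ (k + 2) / (1 + circleMap 0 ρ ψ * y) * H (circleMap 0 ρ ψ)))) := by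
    intro ψ
    set x := circleMap 0 ρ ψ with hx
    have hx1 : 1 + x * y ≠ 0 := hne x (by rw [hcirc]; exact hR)
    have hx0 : x ≠ 0 := hne0 ψ
    have h2 : (Real.pi : ℂ) ≠ 0 := Complex.ofReal_ne_zero.2 Real.pi_pos.ne'
    rw [geo x y hx1 (k + 1), add_mul, mul_add, Finset.sum_mul, Finset.mul_sum]
    congr 1
    · refine Finset.sum_congr rfl fun j _ => ?_
      have hj : x ^ k = x ^ (k - j : ℕ) * x ^ (j : ℕ) := by
        rw [← pow_add]
        congr 1
        have := j.2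
        omega
      rw [hj]
      have h4 : x ^ (k - j : ℕ) ≠ 0 := pow_ne_zero _ hx0
      have h5 : x ^ (j : ℕ) ≠ 0 := pow_ne_zero _ hx0
      field_simp
    · rw [pow_zero, pow_succ x k]
      have h4 : x ^ k ≠ 0 := pow_ne_zero _ hx0
      field_simp
  have i1 : ∀ j : Fin (k + 1), Integrable (fun ψ : ℝ => (-1) ^ (j : ℕ) * y ^ ((j : ℕ) + 1) *
      ((2 * (Real.pi : ℂ) * circleMap 0 ρ ψ ^ (k - j : ℕ))⁻¹ * H (circleMap 0 ρ ψ))) m1 := by
    intro j
    have h3 := kψ_cont hρ (k - j : ℕ)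
    refine int_m1_le (continuous_const.mul (h3.mul (hHc.comp hcm)))
  have i2 : Integrable (fun ψ : ℝ => (-1) ^ (k + 1) * ((2 * (Real.pi : ℂ) * circleMap 0 ρ ψ ^ 0)⁻¹ *
        (circleMap 0 ρ ψ * (y ^ (k + 2) / (1 + circleMap 0 ρ ψ * y) * H (circleMap 0 ρ ψ))))) m1 := by
    have h3 := kψ_cont hρ 0
    have h4 : Continuous fun ψ : ℝ => y ^ (k + 2) / (1 + circleMap 0 ρ ψ * y) :=
      continuous_const.div (continuous_const.add (hcm.mul continuous_const)) fun ψ =>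
        hne _ (by rw [hcirc]; exact hR)
    exact int_m1_le (continuous_const.mul (h3.mul (hcm.mul (h4.mul (hHc.comp hcm)))))
  have e2 : co ρ k (fun τ => y / (1 + τ * y) * H τ) =
      ∫ ψ, (∑ j : Fin (k + 1), (-1) ^ (j : ℕ) * y ^ ((j : ℕ) + 1) *
        ((2 * (Real.pi : ℂ) * circleMap 0 ρ ψ ^ (k - j : ℕ))⁻¹ * H (circleMap 0 ρ ψ)) +
      (-1) ^ (k + 1) * ((2 * (Real.pi : ℂ) * circleMap 0 ρ ψ ^ 0)⁻¹ *
        (circleMap 0 ρ ψ * (y ^ (k + 2) / (1 + circleMap 0 ρ ψ * y) * H (circleMap 0 ρ ψ))))) ∂m1 := by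
    unfold co
    exact integral_congr_ae (Eventually.of_forall e1)
  rw [e2, integral_add (integrable_finsetSum _ fun j _ => i1 j) i2, integral_finsetSum _ fun j _ => i1 j]
  have e3 : ∫ ψ, (-1) ^ (k + 1) * ((2 * (Real.pi : ℂ) * circleMap 0 ρ ψ ^ 0)⁻¹ *
        (circleMap 0 ρ ψ * (y ^ (k + 2) / (1 + circleMap 0 ρ ψ * y) * H (circleMap 0 ρ ψ)))) ∂m1 = 0 := by
    rw [integral_const_mul]
    change (-1) ^ (k + 1) * co ρ 0 (fun τ => τ * (y ^ (k + 2) / (1 + τ * y) * H τ)) = 0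
    rw [hlast, mul_zero]
  rw [e3, add_zero]
  refine Finset.sum_congr rfl fun j _ => ?_
  rw [integral_const_mul]
  rfl

/-- Fubini for the line and the circle of `τ` -/
theorem co_line {ρ W C : ℝ} {y : ℝ → ℂ} {H : ℝ → ℂ → ℂ} (hy : Continuous y) (hyb : ∀ t, ‖y t‖ ≤ W * Real.exp (-|t|))
    (hW : 0 ≤ W) (hρ : 0 < ρ) (hρW : ρ * W < 1) (hHc : Continuous fun q : ℝ × ℂ => H q.1 q.2)
    (hHb : ∀ t τ, ‖τ‖ = ρ → ‖H t τ‖ ≤ C) (k : ℕ) :
    Integrable (fun ψ : ℝ => (2 * (Real.pi : ℂ) * circleMap 0 ρ ψ ^ k)⁻¹ *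
      ∫ t, y t / (1 + circleMap 0 ρ ψ * y t) * H t (circleMap 0 ρ ψ)) m1 ∧
    co ρ k (fun τ => ∫ t, y t / (1 + τ * y t) * H t τ) = ∫ t, co ρ k fun τ => y t / (1 + τ * y t) * H t τ := by
  have hexp : ∀ t : ℝ, Real.exp (-|t|) ≤ 1 := fun t => Real.exp_le_one_iff.2 (neg_nonpos.2 (abs_nonneg t))
  have hyW : ∀ t, ‖y t‖ ≤ W := fun t => (hyb t).trans (by have := hexp t; nlinarith)
  have hcirc : ∀ ψ : ℝ, ‖circleMap 0 ρ ψ‖ = ρ := fun ψ => by rw [norm_circleMap_zero, abs_of_pos hρ]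
  have hlow : ∀ (t : ℝ) (τ : ℂ), ‖τ‖ = ρ → 1 - ρ * W ≤ ‖1 + τ * y t‖ := by
    intro t τ hτ
    have h1 : ‖τ * y t‖ ≤ ρ * W := by
      rw [norm_mul, hτ]
      exact mul_le_mul_of_nonneg_left (hyW t) hρ.le
    have h2 := norm_sub_norm_le (1 : ℂ) (-(τ * y t))
    rw [norm_one, norm_neg, sub_neg_eq_add] at h2
    linarith
  have h1W : 0 < 1 - ρ * W := by linarith
  have hne : ∀ (t : ℝ) (τ : ℂ), ‖τ‖ = ρ → 1 + τ * y t ≠ 0 := fun t τ hτ =>
    norm_pos_iff.1 (lt_of_lt_of_le h1W (hlow t τ hτ))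
  have hcm := continuous_circleMap 0 ρ
  have hC0 : 0 ≤ C := (norm_nonneg _).trans (hHb 0 (circleMap 0 ρ 0) (hcirc 0))
  set U : ℝ × ℝ → ℂ := fun z => (2 * (Real.pi : ℂ) * circleMap 0 ρ z.1 ^ k)⁻¹ *
    (y z.2 / (1 + circleMap 0 ρ z.1 * y z.2) * H z.2 (circleMap 0 ρ z.1)) with hU
  have hUc : Continuous U := by
    have k1 : Continuous fun z : ℝ × ℝ => y z.2 := hy.comp continuous_snd
    have k2 : Continuous fun z : ℝ × ℝ => circleMap 0 ρ z.1 := hcm.comp continuous_fst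
    have k3 : Continuous fun z : ℝ × ℝ => H z.2 (circleMap 0 ρ z.1) := hHc.comp (continuous_snd.prodMk k2)
    have k4 : Continuous fun z : ℝ × ℝ => (2 * (Real.pi : ℂ) * circleMap 0 ρ z.1 ^ k)⁻¹ :=
      (kψ_cont hρ k).comp continuous_fst
    exact k4.mul ((k1.div (continuous_const.add (k2.mul k1)) fun z => hne z.2 _ (hcirc _)).mul k3)
  set B : ℝ := (2 * Real.pi * ρ ^ k)⁻¹ * (W / (1 - ρ * W) * C) with hB
  have hUb : ∀ z, ‖U z‖ ≤ B * Real.exp (-|z.2|) := by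
    intro z
    have e : ‖U z‖ = (2 * Real.pi * ρ ^ k)⁻¹ * (‖y z.2‖ / ‖1 + circleMap 0 ρ z.1 * y z.2‖ *
        ‖H z.2 (circleMap 0 ρ z.1)‖) := by
      rw [hU]
      simp only [norm_mul, norm_div, norm_inv, norm_pow, hcirc, Complex.norm_real, Complex.norm_ofNat,
        Real.norm_of_nonneg Real.pi_pos.le]
    have h2 : ‖y z.2‖ / ‖1 + circleMap 0 ρ z.1 * y z.2‖ ≤ W * Real.exp (-|z.2|) / (1 - ρ * W) :=
      div_le_div₀ (by positivity) (hyb z.2) h1W (hlow z.2 _ (hcirc _))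
    have h4 := mul_le_mul h2 (hHb z.2 _ (hcirc z.1)) (norm_nonneg _) (by positivity)
    have h5 : (0 : ℝ) ≤ (2 * Real.pi * ρ ^ k)⁻¹ := by have := Real.pi_pos; positivity
    rw [e]
    refine (mul_le_mul_of_nonneg_left h4 h5).trans (le_of_eq ?_)
    rw [hB]
    ring
  have hUi : Integrable U (m1.prod volume) := by
    have hb : Integrable (fun z : ℝ × ℝ => (fun _ : ℝ => B) z.1 * (fun t : ℝ => Real.exp (-|t|)) z.2)
        (m1.prod volume) := (integrable_const B).mul_prod int_exp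
    exact hb.mono' hUc.aestronglyMeasurable (Eventually.of_forall fun z => hUb z)
  have e1 : ∀ ψ : ℝ, (2 * (Real.pi : ℂ) * circleMap 0 ρ ψ ^ k)⁻¹ *
      ∫ t, y t / (1 + circleMap 0 ρ ψ * y t) * H t (circleMap 0 ρ ψ) = ∫ t, U (ψ, t) := fun ψ =>
    (integral_const_mul _ _).symm
  refine ⟨?_, ?_⟩
  · simp only [e1]
    exact hUi.integral_prod_left
  · have e2 : co ρ k (fun τ => ∫ t, y t / (1 + τ * y t) * H t τ) = ∫ ψ, (∫ t, U (ψ, t)) ∂m1 := by
      unfold co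
      exact integral_congr_ae (Eventually.of_forall e1)
    rw [e2]
    exact integral_integral_swap (f := fun ψ t => U (ψ, t)) hUi

/-! ### STAR -/

section Star

variable {f : List ℂ → ℂ} {c : ℝ} {Ψ : (ℝ → ℂ) → ℂ} (h : Fun f c Ψ) {w : ℂ → ℂ} {r : Fin 3 → ℝ} {e0 W : ℝ}
  (hL : LS r c e0) (hw : Hol w (r 0) (r 2) W)

theorem sp_mem {r : Fin 3 → ℝ} {c e0 : ℝ} (hL : LS r c e0) (i : Fin 3) (t : ℝ) :
    r 0 ≤ (sp r i t).im ∧ (sp r i t).im ≤ r 2 := by
  have h1 := hL.m01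
  have h2 := hL.m12
  unfold sp
  rw [ln_im]
  fin_cases i
  · exact ⟨le_rfl, h1.trans h2⟩
  · exact ⟨h1, h2⟩
  · exact ⟨h1.trans h2, le_rfl⟩

theorem sp_re (r : Fin 3 → ℝ) (i : Fin 3) (t : ℝ) : (sp r i t).re = t := by unfold sp; rw [ln_re]

theorem cont_sp (r : Fin 3 → ℝ) (i : Fin 3) : Continuous (sp r i) := cont_ln _

include hL hw in
theorem wtP : WtP r w := by
  refine ⟨fun i => ?_, W, fun i t => ?_⟩
  · exact hw.cont.comp_continuous (cont_sp r i) fun t => sp_mem hL i t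
  · have := hw.bd (sp r i t) (sp_mem hL i t).1 (sp_mem hL i t).2
    rwa [sp_re] at this

include h hL hw in
/-- the recursion of the coefficients -/
theorem co_rec {I : List ℂ} (hI : Wn c I) {ρ : ℝ} (hρ : 0 < ρ) (hρW : ρ * W < 1) (k : ℕ) :
    ((k : ℂ) + 1) * co ρ (k + 1) (hh Ψ c w I) = ∑ i, kc i * ∫ t, ∑ j : Fin (k + 1),
      (-1) ^ (j : ℕ) * w (sp r i t) ^ ((j : ℕ) + 1) * co ρ (k - j) (HH Ψ c w r e0 I i t) := by
  have hr02 : r 0 ≤ r 2 := hL.m01.trans hL.m12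
  have hW := hw.W0 hr02
  -- a larger radius
  obtain ⟨R, hR, hRW⟩ : ∃ R : ℝ, ρ < R ∧ R * W < 1 := by
    have h1 : 0 < 1 - ρ * W := by linarith
    refine ⟨ρ + (1 - ρ * W) / (2 * (W + 1)), by linarith [show 0 < (1 - ρ * W) / (2 * (W + 1)) by positivity], ?_⟩
    have h2 : (1 - ρ * W) / (2 * (W + 1)) * W ≤ (1 - ρ * W) / 2 := by
      rw [div_mul_eq_mul_div, div_le_div_iff₀ (by positivity) (by positivity)]
      nlinarith
    nlinarith
  have hR0 : 0 < R := hρ.trans hR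
  obtain ⟨hder, C, hC⟩ := star_grad h hL hw hI hR0 hRW
  have hdiff := hh_diff h hL hw hI
  rw [co_deriv hρ hR hdiff.differentiableOn k]
  -- the derivative on the circle
  have e1 : co ρ k (deriv (hh Ψ c w I)) = co ρ k fun τ =>
      ∑ i, kc i * ∫ t, w (sp r i t) / (1 + τ * w (sp r i t)) * HH Ψ c w r e0 I i t τ :=
    co_congr hρ.le fun τ hτ => (hder τ (by rw [hτ]; exact hR)).deriv
  rw [e1]
  have hwW : ∀ i t, ‖w (sp r i t)‖ ≤ W * Real.exp (-|t|) := fun i t => by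
    have := hw.bd (sp r i t) (sp_mem hL i t).1 (sp_mem hL i t).2
    rwa [sp_re] at this
  have hexp : ∀ t : ℝ, Real.exp (-|t|) ≤ 1 := fun t => Real.exp_le_one_iff.2 (neg_nonpos.2 (abs_nonneg t))
  have hwW1 : ∀ i t, ‖w (sp r i t)‖ ≤ W := fun i t =>
    (hwW i t).trans (by have := hexp t; nlinarith)
  have hline : ∀ i, _ := fun i => co_line (y := fun t => w (sp r i t)) (H := HH Ψ c w r e0 I i)
    ((wtP hL hw).cont i) (hwW i) hW hρ hρW (HH_cont h hL hw hI i) (fun t τ hτ => hC i t τ (by rw [hτ]; exact hR)) k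
  have e2 : co ρ k (fun τ => ∑ i, kc i * ∫ t, w (sp r i t) / (1 + τ * w (sp r i t)) * HH Ψ c w r e0 I i t τ) =
      ∑ i, kc i * co ρ k fun τ => ∫ t, w (sp r i t) / (1 + τ * w (sp r i t)) * HH Ψ c w r e0 I i t τ := by
    have e3 : ∀ (a : ℂ) (v : Fin 3 → ℂ), a * ∑ i, kc i * v i = ∑ i, kc i * (a * v i) := by
      intro a v
      rw [Finset.mul_sum]
      exact Finset.sum_congr rfl fun i _ => by ring
    unfold co
    simp only [e3]
    rw [integral_finsetSum _ fun i _ => ((hline i).1).const_mul (kc i)]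
    exact Finset.sum_congr rfl fun i _ => integral_const_mul _ _
  rw [e2]
  refine Finset.sum_congr rfl fun i _ => ?_
  rw [(hline i).2]
  congr 1
  refine integral_congr_ae (Eventually.of_forall fun t => ?_)
  exact co_geo hρ hR (y := w (sp r i t)) (by
    have := hwW1 i t
    have h4 : R * ‖w (sp r i t)‖ ≤ R * W := mul_le_mul_of_nonneg_left this hR0.le
    linarith) (HH_diff h hL hw hI i t) k

include h hL hw in
/-- **STAR**: the coefficients of `τ ↦ Ψ (Lam_I (1 + τ w))` are `W_k f (I)` -/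
theorem star {K : Set ℂ} (hK : ∀ v ∈ K, |v.im - c| < 5 * Real.pi / 6) (hS : StIn K r e0)
    (hA : Adm K fun X _ => f X) {ρ : ℝ} (hρ : 0 < ρ) (hρW : ρ * W < 1) (k : ℕ) :
    ∀ {I : List ℂ}, In K I → Wop r e0 w k f I = co ρ k (hh Ψ c w I) := by
  induction k using Nat.strong_induction_on with
  | _ k ih =>
    intro I hIK
    have hI : Wn c I := fun v hv => hK v (hIK v hv)
    rcases k with _ | k
    · rw [Wop_zero, co_zero (R := ρ + 1) hρ (by linarith) (hh_diff h hL hw hI).differentiableOn, h.con I hI]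
      unfold hh fam
      simp
    · have hP := wtP hL hw
      rw [Wop_succ]
      have hk : ((k : ℂ) + 1) ≠ 0 := by exact_mod_cast Nat.succ_ne_zero k
      have key : ∑ j : Fin (k + 1), (-1) ^ (j : ℕ) * Aop r e0 (fun s => w s ^ ((j : ℕ) + 1)) (Wop r e0 w (k - j) f) I =
          ((k : ℂ) + 1) * co ρ (k + 1) (hh Ψ c w I) := by
        rw [co_rec h hL hw hI hρ hρW k]
        -- every term
        have hG : ∀ j : Fin (k + 1), Adm K fun X _ => Wop r e0 w (k - j) f X := by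
          intro j
          exact Adm.wx hL.e hS hP (k - j) _ hA
        have hterm : ∀ (j : Fin (k + 1)) (i : Fin 3),
            ∫ p : ℝ × ℝ, ker r e0 (fun s => w s ^ ((j : ℕ) + 1)) i p * Wop r e0 w (k - j) f (st r e0 i p I) ∂m0 =
            ∫ t, w (sp r i t) ^ ((j : ℕ) + 1) * co ρ (k - j) (HH Ψ c w r e0 I i t) := by
          intro j i
          have hint := (hG j).int hL.e hS (hP.pow j) i hIK (Y := []) (fun v hv => absurd hv List.not_mem_nil)
          rw [m0_eq] at hint ⊢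
          rw [integral_prod _ hint]
          refine integral_congr_ae (Eventually.of_forall fun t => ?_)
          simp only
          rw [co_HH h hL hw hI i hρ, ← integral_const_mul]
          refine integral_congr_ae (Eventually.of_forall fun φ => ?_)
          simp only
          rw [ih (k - j) (by omega) (In_st hS i (t, φ) hIK)]
          unfold ker
          ring
        have hint2 : ∀ (i : Fin 3) (j : Fin (k + 1)), Integrable fun t : ℝ => (-1) ^ (j : ℕ) *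
            w (sp r i t) ^ ((j : ℕ) + 1) * co ρ (k - j) (HH Ψ c w r e0 I i t) := by
          intro i j
          have hint := (hG j).int hL.e hS (hP.pow j) i hIK (Y := []) (fun v hv => absurd hv List.not_mem_nil)
          rw [m0_eq] at hint
          have h2 := (hint.integral_prod_left).const_mul ((-1 : ℂ) ^ (j : ℕ))
          refine h2.congr (Eventually.of_forall fun t => ?_)
          simp only
          rw [mul_assoc]
          congr 1
          rw [co_HH h hL hw hI i hρ, ← integral_const_mul]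
          refine integral_congr_ae (Eventually.of_forall fun φ => ?_)
          simp only
          rw [ih (k - j) (by omega) (In_st hS i (t, φ) hIK)]
          unfold ker
          ring
        have e1 : ∀ j : Fin (k + 1), (-1) ^ (j : ℕ) * Aop r e0 (fun s => w s ^ ((j : ℕ) + 1)) (Wop r e0 w (k - j) f) I =
            ∑ i, kc i * ∫ t, (-1) ^ (j : ℕ) * w (sp r i t) ^ ((j : ℕ) + 1) * co ρ (k - j) (HH Ψ c w r e0 I i t) := by
          intro j
          have e2 : Aop r e0 (fun s => w s ^ ((j : ℕ) + 1)) (Wop r e0 w (k - j) f) I =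
              ∑ i, kc i * ∫ p : ℝ × ℝ, ker r e0 (fun s => w s ^ ((j : ℕ) + 1)) i p *
                Wop r e0 w (k - j) f (st r e0 i p I) ∂m0 := rfl
          rw [e2, Finset.mul_sum]
          refine Finset.sum_congr rfl fun i _ => ?_
          rw [hterm j i, mul_left_comm, ← integral_const_mul]
          congr 2
          funext t
          ring
        rw [Finset.sum_congr rfl fun j _ => e1 j, Finset.sum_comm]
        refine Finset.sum_congr rfl fun i _ => ?_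
        rw [← Finset.mul_sum]
        congr 1
        rw [integral_finsetSum _ fun j _ => hint2 i j]
      rw [key, ← mul_assoc, inv_mul_cancel₀ hk, one_mul]

end Star

end DRX

end
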