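import Pool.Agent.DRX.Mvp

/-!
# The total two sided function (DUAL-R, F34)

`W X Y` is given on jointly generic lists and has the rules `SPN.Rul` in each list (for fixed generic
other list, spectators `Z ++ (Y ++ Y)`).  Then there is a function `G` of all pairs of lists,
polynomial in all rows (`PG G`), equal to `W` on jointly generic lists, which has the rules in each
list for EVERY other list.
-/

set_option autoImplicit false

noncomputable section

open Polynomial

namespace DRX

open SPN NUGas

variable {η : ℂ}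

/-- `G` is a polynomial in the rows of both lists, for every polynomial substitution -/
def PG (G : List ℂ → List ℂ → ℂ) : Prop :=
  ∀ (n p q : ℕ) (e : Fin p → (Fin n → ℂ) → ℂ) (f : Fin q → (Fin n → ℂ) → ℂ),
    (∀ i, PF n (e i)) → (∀ j, PF n (f j)) →
      PF n fun v => G (List.ofFn fun i => e i v) (List.ofFn fun j => f j v)

/-- the hypotheses on the generic function -/
structure TwoRul (η : ℂ) (Z : List ℂ) (W : List ℂ → List ℂ → ℂ) : Prop where
  X : ∀ Y, Gen η (Y ++ Z) → ∃ F, Rul η (Z ++ (Y ++ Y)) F ∧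
    ∀ X, Gen η (X ++ (Y ++ Z)) → W X Y = F X
  Y : ∀ X, Gen η (X ++ Z) → ∃ F, Rul η (Z ++ (X ++ X)) F ∧
    ∀ Y, Gen η (X ++ (Y ++ Z)) → W X Y = F Y

theorem perm_swap (X Y Z : List ℂ) : (X ++ (Y ++ Z)).Perm (Y ++ (X ++ Z)) :=
  List.perm_append_comm_assoc X Y Z

theorem TwoRul.swap (hη : η ^ 4 = -1) {Z : List ℂ} {W : List ℂ → List ℂ → ℂ} (h : TwoRul η Z W) :
    TwoRul η Z fun X Y => W Y X where
  X Y hY := by
    obtain ⟨F, h1, h2⟩ := h.Y Y hY
    exact ⟨F, h1, fun X hX => h2 X (Gen.perm hη (perm_swap _ _ _) hX)⟩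
  Y X hX := by
    obtain ⟨F, h1, h2⟩ := h.X X hX
    exact ⟨F, h1, fun Y hY => h2 Y (Gen.perm hη (perm_swap _ _ _) hY)⟩

theorem PG.swap {G : List ℂ → List ℂ → ℂ} (h : PG G) : PG fun X Y => G Y X :=
  fun n p q e f he hf => h n q p f e hf he

/-- the first list as a permutation -/
theorem ofFn_perm_cons {n : ℕ} (u : Fin (n + 1) → ℂ) (i : Fin (n + 1)) :
    (List.ofFn u).Perm (u i :: List.ofFn fun j => u (i.succAbove j)) := by
  rw [← Multiset.coe_eq_coe, ← Multiset.cons_coe, ← Fin.univ_val_map, ← Fin.univ_val_map,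
    Fin.univ_succAbove n i, Finset.cons_val, Multiset.map_cons, Finset.map_val, Multiset.map_map]
  rfl

theorem gen_good (hη : η ^ 4 = -1) {t : ℂ} {X L : List ℂ} (h : Gen η (t :: (X ++ L))) :
    Good η t X := by
  refine (good_nd hη fun x hx => ?_).1
  exact h.sep (List.mem_append_left _ hx)

theorem gen_left {X L : List ℂ} (h : Gen η (X ++ L)) : Gen η X :=
  ⟨fun x hx => h.1 x (List.mem_append_left _ hx), (List.pairwise_append.1 h.2).1⟩

theorem gen_right {X L : List ℂ} (h : Gen η (X ++ L)) : Gen η L :=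
  ⟨fun x hx => h.1 x (List.mem_append_right _ hx), (List.pairwise_append.1 h.2).2.1⟩

/-- one variable of the first list -/
theorem var_X (hη : η ^ 4 = -1) {Z : List ℂ} {W : List ℂ → List ℂ → ℂ} (h : TwoRul η Z W) {p q : ℕ}
    (i : Fin p) (u : Fin p → ℂ) (w : Fin q → ℂ) (hg : Gen η (List.ofFn u ++ (List.ofFn w ++ Z))) :
    ∃ P : ℂ[X], P.natDegree ≤ 2 * (p + q) + Z.length ∧ ∀ t,
      Gen η (List.ofFn (Function.update u i t) ++ (List.ofFn w ++ Z)) →
      W (List.ofFn (Function.update u i t)) (List.ofFn w) = P.eval t := by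
  obtain ⟨F, hF, hW⟩ := h.X (List.ofFn w) (gen_right hg)
  cases p with
  | zero => exact i.elim0
  | succ p =>
    obtain ⟨X', hX'⟩ : ∃ X' : List ℂ, X' = List.ofFn fun j => u (i.succAbove j) := ⟨_, rfl⟩
    have hp : ∀ t, (List.ofFn (Function.update u i t)).Perm (t :: X') := by
      intro t
      refine (ofFn_perm_cons (Function.update u i t) i).trans (List.Perm.of_eq ?_)
      rw [Function.update_self, hX']
      congr 1
      congr 1
      funext j
      rw [Function.update_of_ne (Fin.succAbove_ne i j)]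
    have hX'g : Gen η X' := by
      have h1 : Gen η (u i :: X' ++ (List.ofFn w ++ Z)) := by
        refine Gen.perm hη (List.Perm.append_right _ ?_) hg
        have := hp (u i)
        rwa [Function.update_eq_self] at this
      exact (gen_left h1).tail
    obtain ⟨P, h1, -, -, h4⟩ := hF.poly X' hX'g
    refine ⟨P, h1.trans ?_, fun t ht => ?_⟩
    · rw [List.length_append, List.length_append, List.length_ofFn, hX', List.length_ofFn]
      omega
    · rw [hW _ ht, hF.perm (hp t)]
      refine h4 t (gen_good hη (L := List.ofFn w ++ Z) ?_)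
      rw [← List.cons_append]
      exact Gen.perm hη (List.Perm.append_right _ (hp t)) ht

theorem ofFn_append {p q : ℕ} (v : Fin (p + q) → ℂ) :
    List.ofFn v = (List.ofFn fun i => v (Fin.castAdd q i)) ++ List.ofFn fun j => v (Fin.natAdd p j) :=
  List.ofFn_add ..

theorem update_castAdd {p q : ℕ} (v : Fin (p + q) → ℂ) (i : Fin p) (t : ℂ) :
    (fun k => Function.update v (Fin.castAdd q i) t (Fin.castAdd q k)) =
      Function.update (fun k => v (Fin.castAdd q k)) i t ∧
    (fun k => Function.update v (Fin.castAdd q i) t (Fin.natAdd p k)) =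
      fun k => v (Fin.natAdd p k) := by
  constructor
  · funext k
    by_cases h : k = i
    · subst h
      simp
    · rw [Function.update_of_ne h, Function.update_of_ne]
      intro h2
      exact h (Fin.castAdd_injective _ _ h2)
  · funext k
    rw [Function.update_of_ne]
    intro h2
    have := congrArg Fin.val h2
    simp at this
    omega

theorem update_natAdd {p q : ℕ} (v : Fin (p + q) → ℂ) (i : Fin q) (t : ℂ) :
    (fun k => Function.update v (Fin.natAdd p i) t (Fin.natAdd p k)) =
      Function.update (fun k => v (Fin.natAdd p k)) i t ∧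
    (fun k => Function.update v (Fin.natAdd p i) t (Fin.castAdd q k)) =
      fun k => v (Fin.castAdd q k) := by
  constructor
  · funext k
    by_cases h : k = i
    · subst h
      simp
    · rw [Function.update_of_ne h, Function.update_of_ne]
      intro h2
      exact h (Fin.natAdd_injective _ _ h2)
  · funext k
    rw [Function.update_of_ne]
    intro h2
    have := congrArg Fin.val h2
    simp at this
    omega

/-- the polynomial of given lengths -/
theorem exists_poly (hη : η ^ 4 = -1) {Z : List ℂ} (hZ : Gen η Z) {W : List ℂ → List ℂ → ℂ}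
    (h : TwoRul η Z W) (p q : ℕ) : ∃ f : (Fin (p + q) → ℂ) → ℂ, PF (p + q) f ∧
    ∀ v, Gen η (List.ofFn v ++ Z) → W (List.ofFn fun i => v (Fin.castAdd q i))
      (List.ofFn fun j => v (Fin.natAdd p j)) = f v := by
  refine mvpoly hη (2 * (p + q) + Z.length) (p + q) Z (fun v =>
    W (List.ofFn fun i => v (Fin.castAdd q i)) (List.ofFn fun j => v (Fin.natAdd p j))) hZ ?_
  intro i v hv
  rw [ofFn_append, List.append_assoc] at hv
  refine Fin.addCases (fun i => ?_) (fun i => ?_) i
  · obtain ⟨P, h1, h2⟩ := var_X hη h i (fun k => v (Fin.castAdd q k)) (fun k => v (Fin.natAdd p k)) hv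
    refine ⟨P, h1, fun t ht => ?_⟩
    obtain ⟨e1, e2⟩ := update_castAdd v i t
    rw [ofFn_append, List.append_assoc, e1, e2] at ht
    show W (List.ofFn fun k => Function.update v (Fin.castAdd q i) t (Fin.castAdd q k))
      (List.ofFn fun k => Function.update v (Fin.castAdd q i) t (Fin.natAdd p k)) = _
    rw [e1, e2]
    exact h2 t ht
  · obtain ⟨P, h1, h2⟩ := var_X hη (h.swap hη) i (fun k => v (Fin.natAdd p k))
      (fun k => v (Fin.castAdd q k)) (Gen.perm hη (perm_swap _ _ _) hv)
    refine ⟨P, h1.trans (by omega), fun t ht => ?_⟩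
    obtain ⟨e1, e2⟩ := update_natAdd v i t
    rw [ofFn_append, List.append_assoc, e1, e2] at ht
    show W (List.ofFn fun k => Function.update v (Fin.natAdd p i) t (Fin.castAdd q k))
      (List.ofFn fun k => Function.update v (Fin.natAdd p i) t (Fin.natAdd p k)) = _
    rw [e1, e2]
    exact h2 t (Gen.perm hη (perm_swap _ _ _) ht)

/-- **the total function** -/
theorem exists_total (hη : η ^ 4 = -1) {Z : List ℂ} (hZ : Gen η Z) {W : List ℂ → List ℂ → ℂ}
    (h : TwoRul η Z W) : ∃ G : List ℂ → List ℂ → ℂ, PG G ∧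
      ∀ X Y, Gen η (X ++ (Y ++ Z)) → G X Y = W X Y := by
  choose f hf1 hf2 using exists_poly hη hZ h
  obtain ⟨G, hG⟩ : ∃ G : List ℂ → List ℂ → ℂ, G = fun X Y =>
    f X.length Y.length (Fin.append X.get Y.get) := ⟨_, rfl⟩
  have key : ∀ {p q : ℕ} (u : Fin p → ℂ) (w : Fin q → ℂ),
      G (List.ofFn u) (List.ofFn w) = f p q (Fin.append u w) := by
    intro p q u w
    have h1 : ∀ (X Y : List ℂ) (hX : X.length = p) (hY : Y.length = q),
        (∀ i : Fin p, X.get (i.cast hX.symm) = u i) → (∀ i : Fin q, Y.get (i.cast hY.symm) = w i) →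
        G X Y = f p q (Fin.append u w) := by
      intro X Y hX hY hu hw
      subst hX
      subst hY
      rw [hG]
      simp only
      congr 2
      · funext i
        exact hu i
      · funext i
        exact hw i
    refine h1 _ _ (List.length_ofFn ..) (List.length_ofFn ..) (fun i => ?_) fun i => ?_ <;> simp
  refine ⟨G, fun n p q e g he hg => ?_, fun X Y hXY => ?_⟩
  · refine ((hf1 p q).comp (g := Fin.append e g) fun i => ?_).congr fun v => ?_
    · refine Fin.addCases (fun i => ?_) (fun i => ?_) i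
      · rw [Fin.append_left]
        exact he i
      · rw [Fin.append_right]
        exact hg i
    · rw [key]
      congr 1
      funext i
      refine Fin.addCases (fun i => ?_) (fun i => ?_) i
      · rw [Fin.append_left, Fin.append_left]
      · rw [Fin.append_right, Fin.append_right]
  · have h2 := hf2 X.length Y.length (Fin.append X.get Y.get)
    simp only [Fin.append_left, Fin.append_right] at h2
    have e1 : List.ofFn (Fin.append X.get Y.get) = X ++ Y := by
      rw [ofFn_append]
      simp only [Fin.append_left, Fin.append_right]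
      rw [List.ofFn_get, List.ofFn_get]
    have e2 : (List.ofFn fun i => X.get i) = X := List.ofFn_get X
    have e3 : (List.ofFn fun i => Y.get i) = Y := List.ofFn_get Y
    rw [e1, e2, e3, List.append_assoc] at h2
    rw [hG]
    exact (h2 hXY).symm

/-! ### identities -/

/-- two polynomial functions of two lists agree if they agree on generic lists -/
theorem ext2 (hη : η ^ 4 = -1) {Z : List ℂ} (hZ : Gen η Z) {A B : List ℂ → List ℂ → ℂ} {p q : ℕ}
    (hA : PF (p + q) fun v => A (List.ofFn fun i => v (Fin.castAdd q i))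
      (List.ofFn fun j => v (Fin.natAdd p j)))
    (hB : PF (p + q) fun v => B (List.ofFn fun i => v (Fin.castAdd q i))
      (List.ofFn fun j => v (Fin.natAdd p j)))
    (h : ∀ X Y : List ℂ, X.length = p → Y.length = q → Gen η (X ++ (Y ++ Z)) → A X Y = B X Y)
    {X Y : List ℂ} (hX : X.length = p) (hY : Y.length = q) : A X Y = B X Y := by
  obtain ⟨K0, hK0⟩ := exists_sep Z hη
  have h1 := PF.ext_nd hA hB K0 (fun a ha haK => by
    refine h _ _ (List.length_ofFn ..) (List.length_ofFn ..) ?_
    have := gen_nodes hη hZ hK0 ha haK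
    rw [ofFn_append, List.append_assoc] at this
    exact this)
  subst hX
  subst hY
  have h2 := h1 (Fin.append X.get Y.get)
  simp only [Fin.append_left, Fin.append_right] at h2
  have e2 : (List.ofFn fun i => X.get i) = X := List.ofFn_get X
  have e3 : (List.ofFn fun i => Y.get i) = Y := List.ofFn_get Y
  rwa [e2, e3] at h2

/-- for generic lists the polynomial of the rule is the polynomial of `G` -/
theorem eval_G (hη : η ^ 4 = -1) {Z : List ℂ} {W G : List ℂ → List ℂ → ℂ} (hG : PG G)
    (hGW : ∀ X Y, Gen η (X ++ (Y ++ Z)) → G X Y = W X Y) {Y : List ℂ} {F : List ℂ → ℂ}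
    (hF : ∀ X, Gen η (X ++ (Y ++ Z)) → W X Y = F X) {X : List ℂ} (hX : Gen η (X ++ (Y ++ Z)))
    {P : ℂ[X]} (hP : ∀ t, Good η t X → F (t :: X) = P.eval t) (t : ℂ) : G (t :: X) Y = P.eval t := by
  obtain ⟨K0, hK0⟩ := exists_sep (X ++ (Y ++ Z)) hη
  have h1 : PF 1 fun v => G (v 0 :: X) Y := by
    have := hG 1 (X.length + 1) Y.length
      (Fin.cons (fun v => v 0) fun i _ => X.get i) (fun j _ => Y.get j) (fun i => by
        refine Fin.cases ?_ (fun i => ?_) i
        · exact PF.var 0
        · exact PF.const _) (fun j => PF.const _)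
    refine this.congr fun v => ?_
    rw [List.ofFn_succ]
    simp only [Fin.cons_zero, Fin.cons_succ]
    congr 1
    · congr 1
      exact (List.ofFn_get X).symm
    · exact (List.ofFn_get Y).symm
  have h2 : PF 1 fun v => P.eval (v 0) := (PF.var 0).eval _
  have h3 := PF.ext_nd h1 h2 K0 (fun a _ haK => by
    have hs : ∀ x ∈ X ++ (Y ++ Z), Sep η (nd (a 0)) x := fun x hx => hK0 _ (haK 0) x hx
    have hg : Gen η (nd (a 0) :: (X ++ (Y ++ Z))) := gen_cons hη (nd_ne _) hs hX
    show G (nd (a 0) :: X) Y = P.eval (nd (a 0))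
    rw [hGW _ _ (by rw [List.cons_append]; exact hg), hF _ (by rw [List.cons_append]; exact hg)]
    exact hP _ (gen_good hη hg)) (fun _ => t)
  exact h3

/-- the interpolation polynomial in the first row -/
def LP (G : List ℂ → List ℂ → ℂ) (d : ℕ) (X Y : List ℂ) : ℂ[X] :=
  Lagrange.interpolate (Finset.range (d + 1)) (fun j => nd (0 + j)) fun j => G (nd (0 + j) :: X) Y

theorem LP_natDegree (G : List ℂ → List ℂ → ℂ) (d : ℕ) (X Y : List ℂ) :
    (LP G d X Y).natDegree ≤ d := by
  have h := Lagrange.degree_interpolate_lt (r := fun j => G (nd (0 + j) :: X) Y) (nodes_inj 0 d)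
  rw [Finset.card_range] at h
  by_cases h0 : LP G d X Y = 0
  · rw [h0]; simp
  · exact Nat.lt_succ_iff.1 ((Polynomial.natDegree_lt_iff_degree_lt h0).2 h)

theorem LP_eq {G : List ℂ → List ℂ → ℂ} {d : ℕ} {X Y : List ℂ} {P : ℂ[X]} (hP : P.natDegree ≤ d)
    (h : ∀ t, G (t :: X) Y = P.eval t) : LP G d X Y = P := by
  have hdeg : P.degree < (Finset.range (d + 1)).card := by
    rw [Finset.card_range]
    refine lt_of_le_of_lt Polynomial.degree_le_natDegree ?_
    exact_mod_cast Nat.lt_succ_of_le hP
  have h5 := Lagrange.eq_interpolate (nodes_inj 0 d) hdeg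
  rw [h5]
  unfold LP
  congr 1
  funext j
  exact h _

theorem PG.consX {G : List ℂ → List ℂ → ℂ} (hG : PG G) {n p q : ℕ} {g : (Fin n → ℂ) → ℂ}
    {e : Fin p → (Fin n → ℂ) → ℂ} {f : Fin q → (Fin n → ℂ) → ℂ} (hg : PF n g)
    (he : ∀ i, PF n (e i)) (hf : ∀ j, PF n (f j)) :
    PF n fun v => G (g v :: List.ofFn fun i => e i v) (List.ofFn fun j => f j v) := by
  refine (hG n (p + 1) q (Fin.cons g e) f (fun i => ?_) hf).congr fun v => ?_
  · refine Fin.cases ?_ (fun i => ?_) i
    · simpa using hg
    · simpa using he i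
  · rw [List.ofFn_succ]
    simp only [Fin.cons_zero, Fin.cons_succ]

theorem PG.consX2 {G : List ℂ → List ℂ → ℂ} (hG : PG G) {n p q : ℕ} {g g' : (Fin n → ℂ) → ℂ}
    {e : Fin p → (Fin n → ℂ) → ℂ} {f : Fin q → (Fin n → ℂ) → ℂ} (hg : PF n g) (hg' : PF n g')
    (he : ∀ i, PF n (e i)) (hf : ∀ j, PF n (f j)) :
    PF n fun v => G (g v :: g' v :: List.ofFn fun i => e i v) (List.ofFn fun j => f j v) := by
  refine (hG.consX (e := Fin.cons g' e) hg (fun i => ?_) hf).congr fun v => ?_
  · refine Fin.cases ?_ (fun i => ?_) i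
    · simpa using hg'
    · simpa using he i
  · rw [List.ofFn_succ]
    simp only [Fin.cons_zero, Fin.cons_succ]

theorem LP_coeff_pf {G : List ℂ → List ℂ → ℂ} (hG : PG G) (d k : ℕ) {n p q : ℕ}
    {e : Fin p → (Fin n → ℂ) → ℂ} {f : Fin q → (Fin n → ℂ) → ℂ}
    (he : ∀ i, PF n (e i)) (hf : ∀ j, PF n (f j)) :
    PF n fun v => (LP G d (List.ofFn fun i => e i v) (List.ofFn fun j => f j v)).coeff k := by
  refine PF.congr (f := fun v => ∑ j ∈ Finset.range (d + 1),
    G (nd (0 + j) :: List.ofFn fun i => e i v) (List.ofFn fun j => f j v) *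
      (Lagrange.basis (Finset.range (d + 1)) (fun j => nd (0 + j)) j).coeff k)
    (PF.sum _ fun j _ => (hG.consX (PF.const _) he hf).mul (PF.const _)) fun v => ?_
  unfold LP
  rw [Lagrange.interpolate_apply, Polynomial.finsetSum_coeff]
  exact Finset.sum_congr rfl fun j _ => Polynomial.coeff_C_mul _

theorem LP_eval_pf {G : List ℂ → List ℂ → ℂ} (hG : PG G) (d : ℕ) {n p q : ℕ} {g : (Fin n → ℂ) → ℂ}
    {e : Fin p → (Fin n → ℂ) → ℂ} {f : Fin q → (Fin n → ℂ) → ℂ} (hg : PF n g)
    (he : ∀ i, PF n (e i)) (hf : ∀ j, PF n (f j)) :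
    PF n fun v => (LP G d (List.ofFn fun i => e i v) (List.ofFn fun j => f j v)).eval (g v) := by
  refine PF.congr (f := fun v => ∑ j ∈ Finset.range (d + 1),
    G (nd (0 + j) :: List.ofFn fun i => e i v) (List.ofFn fun j => f j v) *
      (Lagrange.basis (Finset.range (d + 1)) (fun j => nd (0 + j)) j).eval (g v))
    (PF.sum _ fun j _ => (hG.consX (PF.const _) he hf).mul (hg.eval _)) fun v => ?_
  unfold LP
  rw [Lagrange.interpolate_apply, Polynomial.eval_finsetSum]
  exact Finset.sum_congr rfl fun j _ => by rw [Polynomial.eval_mul, Polynomial.eval_C]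

end DRX

end
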